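import Pool.Agent.H83.AC.AbsN

/-!
# Module AbsC: projective sets and countable choice in transitive models

Unfold and use module AbsN; the quantifiers over `x : N` with `Real N x` become quantifiers over
`x` with `Real N x` (`Real N x` includes `x ∈ N`). For `Agree` use `abs_agr` (the numbers `m ∈ omega` are in
`N`).
`abs_ac`: (→) Given `B ∈ N` as in `ACw`, apply `ACom` to `B' = fgr (fun k => app B k) omega ∈ N`
(`UF.fgr`); from the sequence `f` get `app f k ∈ app B k` (`app_eq`). (←) Given a sequence `B : N` in the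
sense of `N`: for `k ∈ omega` the unique `A` with `pair k A ∈ B` is `app B k`; from `f` take
`f' = fgr (fun k => app f k) omega`.
-/

namespace H83.AC

open ZFSet

variable {N : Set ZFSet.{0}}

private theorem absC_om (hN : TM N) {m : ZFSet.{0}} (h : m ∈ omega) : m ∈ N :=
  hN.tr _ hN.omega _ h

private theorem absC_cl2 (hN : TM N) (C : N) : IsClosed2 (memN N) C ↔ Closed2 N C := by
  constructor
  · rintro ⟨h1, h2⟩
    refine ⟨C.2, ?_, ?_⟩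
    · intro t ht
      obtain ⟨x, y, hx, hy, hop⟩ := h1 ⟨t, hN.tr _ C.2 t ht⟩ ht
      exact ⟨x, y, (abs_real hN x).1 hx, (abs_real hN y).1 hy, (abs_op hN _ _ _).1 hop⟩
    · intro x y hx hy hn
      obtain ⟨n, hnat, h⟩ := h2 ⟨x, hx.1⟩ ⟨y, hy.1⟩ ((abs_real hN _).2 hx) ((abs_real hN _).2 hy)
        (fun h => hn ((abs_in2 hN _ _ _).1 h))
      have hn0 := (abs_nat hN n).1 hnat
      refine ⟨n, hn0, ?_⟩
      intro x' y' hx' hy' hax hay hmem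
      exact h ⟨x', hx'.1⟩ ⟨y', hy'.1⟩ ((abs_real hN _).2 hx') ((abs_real hN _).2 hy')
        ((abs_agr hN hn0 hx hx').2 hax) ((abs_agr hN hn0 hy hy').2 hay)
        ((abs_in2 hN _ _ _).2 hmem)
  · rintro ⟨-, h1, h2⟩
    refine ⟨?_, ?_⟩
    · intro t ht
      obtain ⟨x, y, hx, hy, hop⟩ := h1 t ht
      exact ⟨⟨x, hx.1⟩, ⟨y, hy.1⟩, (abs_real hN _).2 hx, (abs_real hN _).2 hy,
        (abs_op hN _ _ _).2 hop⟩
    · intro x y hx hy hn
      rw [abs_real hN] at hx hy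
      rw [abs_in2 hN] at hn
      obtain ⟨m, hm, h⟩ := h2 x y hx hy hn
      refine ⟨⟨m, absC_om hN hm⟩, (abs_nat hN _).2 hm, ?_⟩
      intro x' y' hx' hy' hax hay hmem
      rw [abs_real hN] at hx' hy'
      exact h x' y' hx' hy' ((abs_agr hN hm hx hx').1 hax) ((abs_agr hN hm hy hy').1 hay)
        ((abs_in2 hN _ _ _).1 hmem)

private theorem absC_cl3 (hN : TM N) (C : N) : IsClosed3 (memN N) C ↔ Closed3 N C := by
  constructor
  · rintro ⟨h1, h2⟩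
    refine ⟨C.2, ?_, ?_⟩
    · intro t ht
      obtain ⟨x, y, z, u, hx, hy, hz, hu, hop⟩ := h1 ⟨t, hN.tr _ C.2 t ht⟩ ht
      refine ⟨x, y, z, (abs_real hN x).1 hx, (abs_real hN y).1 hy, (abs_real hN z).1 hz, ?_⟩
      have h3 := (abs_op hN _ _ _).1 hop
      rw [(abs_op hN _ _ _).1 hu] at h3
      exact h3
    · intro x y z hx hy hz hn
      obtain ⟨n, hnat, h⟩ := h2 ⟨x, hx.1⟩ ⟨y, hy.1⟩ ⟨z, hz.1⟩ ((abs_real hN _).2 hx)
        ((abs_real hN _).2 hy) ((abs_real hN _).2 hz)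
        (fun h => hn ((abs_in3 hN C ⟨x, hx.1⟩ ⟨y, hy.1⟩ ⟨z, hz.1⟩).1 h))
      have hn0 := (abs_nat hN n).1 hnat
      refine ⟨n, hn0, ?_⟩
      intro x' y' z' hx' hy' hz' hax hay haz hmem
      exact h ⟨x', hx'.1⟩ ⟨y', hy'.1⟩ ⟨z', hz'.1⟩ ((abs_real hN _).2 hx')
        ((abs_real hN _).2 hy') ((abs_real hN _).2 hz')
        ((abs_agr hN hn0 hx hx').2 hax) ((abs_agr hN hn0 hy hy').2 hay)
        ((abs_agr hN hn0 hz hz').2 haz)
        ((abs_in3 hN C ⟨x', hx'.1⟩ ⟨y', hy'.1⟩ ⟨z', hz'.1⟩).2 hmem)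
  · rintro ⟨-, h1, h2⟩
    refine ⟨?_, ?_⟩
    · intro t ht
      obtain ⟨x, y, z, hx, hy, hz, hop⟩ := h1 t ht
      exact ⟨⟨x, hx.1⟩, ⟨y, hy.1⟩, ⟨z, hz.1⟩, ⟨_, hN.pair hy.1 hz.1⟩, (abs_real hN _).2 hx,
        (abs_real hN _).2 hy, (abs_real hN _).2 hz, (abs_op hN _ _ _).2 rfl,
        (abs_op hN _ _ _).2 hop⟩
    · intro x y z hx hy hz hn
      rw [abs_real hN] at hx hy hz
      rw [abs_in3 hN] at hn
      obtain ⟨m, hm, h⟩ := h2 x y z hx hy hz hn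
      refine ⟨⟨m, absC_om hN hm⟩, (abs_nat hN _).2 hm, ?_⟩
      intro x' y' z' hx' hy' hz' hax hay haz hmem
      rw [abs_real hN] at hx' hy' hz'
      exact h x' y' z' hx' hy' hz' ((abs_agr hN hm hx hx').1 hax)
        ((abs_agr hN hm hy hy').1 hay) ((abs_agr hN hm hz hz').1 haz)
        ((abs_in3 hN C x' y' z').1 hmem)

theorem abs_pi11 (hN : TM N) (A : N) : IsPi11 (memN N) A ↔ PI1 N A := by
  constructor
  · rintro ⟨h0, C, hC, h⟩
    refine ⟨fun x hx => (abs_real hN _).1 (h0 ⟨x, hN.tr _ A.2 x hx⟩ hx), C,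
      (absC_cl2 hN C).1 hC, ?_⟩
    intro x hx
    have h1 := h ⟨x, hx.1⟩ ((abs_real hN _).2 hx)
    refine h1.trans ?_
    constructor
    · intro h2 y hy hm
      exact h2 ⟨y, hy.1⟩ ((abs_real hN _).2 hy) ((abs_in2 hN _ _ _).2 hm)
    · intro h2 y hy hm
      exact h2 y ((abs_real hN _).1 hy) ((abs_in2 hN _ _ _).1 hm)
  · rintro ⟨h0, C, hC, h⟩
    refine ⟨fun x hx => (abs_real hN _).2 (h0 x hx), ⟨C, hC.1⟩, (absC_cl2 hN _).2 hC, ?_⟩
    intro x hx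
    rw [abs_real hN] at hx
    refine (h x hx).trans ?_
    constructor
    · intro h2 y hy hm
      exact h2 y ((abs_real hN _).1 hy) ((abs_in2 hN _ _ _).1 hm)
    · intro h2 y hy hm
      exact h2 ⟨y, hy.1⟩ ((abs_real hN _).2 hy) ((abs_in2 hN _ _ _).2 hm)

theorem abs_pi12 (hN : TM N) (A : N) : IsPi12 (memN N) A ↔ PI2 N A := by
  constructor
  · rintro ⟨h0, C, hC, h⟩
    refine ⟨fun x hx => (abs_real hN _).1 (h0 ⟨x, hN.tr _ A.2 x hx⟩ hx), C,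
      (absC_cl3 hN C).1 hC, ?_⟩
    intro x hx
    have h1 := h ⟨x, hx.1⟩ ((abs_real hN _).2 hx)
    refine h1.trans ?_
    constructor
    · intro h2 y hy
      obtain ⟨z, hz, hm⟩ := h2 ⟨y, hy.1⟩ ((abs_real hN _).2 hy)
      exact ⟨z, (abs_real hN _).1 hz, (abs_in3 hN C ⟨x, hx.1⟩ ⟨y, hy.1⟩ z).1 hm⟩
    · intro h2 y hy
      obtain ⟨z, hz, hm⟩ := h2 y ((abs_real hN _).1 hy)
      exact ⟨⟨z, hz.1⟩, (abs_real hN _).2 hz, (abs_in3 hN C ⟨x, hx.1⟩ y ⟨z, hz.1⟩).2 hm⟩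
  · rintro ⟨h0, C, hC, h⟩
    refine ⟨fun x hx => (abs_real hN _).2 (h0 x hx), ⟨C, hC.1⟩, (absC_cl3 hN _).2 hC, ?_⟩
    intro x hx
    rw [abs_real hN] at hx
    refine (h x hx).trans ?_
    constructor
    · intro h2 y hy
      obtain ⟨z, hz, hm⟩ := h2 y ((abs_real hN _).1 hy)
      exact ⟨⟨z, hz.1⟩, (abs_real hN _).2 hz, (abs_in3 hN ⟨C, hC.1⟩ x y ⟨z, hz.1⟩).2 hm⟩
    · intro h2 y hy
      obtain ⟨z, hz, hm⟩ := h2 ⟨y, hy.1⟩ ((abs_real hN _).2 hy)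
      exact ⟨z, (abs_real hN _).1 hz, (abs_in3 hN ⟨C, hC.1⟩ x ⟨y, hy.1⟩ z).1 hm⟩

private theorem absC_fgr (hN : TM N) {B : ZFSet.{0}} (hB : B ∈ N) :
    fgr (fun k => app B k) omega ∈ N := by
  have h : UF (fun _ v => H83.AC.fgr (fun k => H83.AC.app (v 0) k) omega) :=
    UF.fgr (F := fun _ x v => H83.AC.app (v 0) x) UF.omega (UF.app (UF.var 1) (UF.var 0))
  exact h.mem N hN (fun _ => B) (fun _ => hB)

private theorem absC_seq (hN : TM N) {B : ZFSet.{0}} (hB : B ∈ N) :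
    IsSeq (memN N) ⟨_, absC_fgr hN hB⟩ := by
  rw [abs_seq hN]
  refine ⟨?_, ?_⟩
  · intro t ht
    obtain ⟨k, hk, h⟩ := mem_fgr.1 ht
    exact ⟨k, hk, _, h.symm⟩
  · intro k hk
    refine ⟨app B k, pair_mem_fgr.2 ⟨hk, rfl⟩, ?_⟩
    intro y hy
    exact (pair_mem_fgr.1 hy).2

theorem abs_ac (hN : TM N) {Γ : N → Prop} {Γ' : ZFSet.{0} → Prop} (h : ∀ A : N, Γ A ↔ Γ' A) :
    ACom (memN N) Γ ↔ ACw N Γ' := by
  constructor
  · intro hac B hB hk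
    obtain ⟨f, hf, hfk⟩ := hac ⟨_, absC_fgr hN hB⟩ (absC_seq hN hB) (by
      intro k A hkA
      rw [abs_in2 hN] at hkA
      obtain ⟨h1, h2⟩ := pair_mem_fgr.1 hkA
      obtain ⟨h3, h4⟩ := hk k h1
      refine ⟨(h A).2 (by rw [h2]; exact h3), ?_⟩
      obtain ⟨x, hx⟩ : ∃ x, x ∈ app B k := by
        by_contra hne
        push Not at hne
        exact h4 ((ZFSet.eq_empty _).2 hne)
      rw [← h2] at hx
      exact ⟨⟨x, hN.tr _ A.2 x hx⟩, hx⟩)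
    rw [abs_seq hN] at hf
    refine ⟨f, f.2, ?_⟩
    intro k hk0
    obtain ⟨y, hy, hu⟩ := hf.2 k hk0
    have hkN := absC_om hN hk0
    have hyN : y ∈ N := hN.tr _ (hN.sUnion (hN.sUnion f.2)) y (snd_mem_ssU hy)
    have hAN : app B k ∈ N := by
      have h5 : pair k (app B k) ∈ fgr (fun k => app B k) omega := pair_mem_fgr.2 ⟨hk0, rfl⟩
      exact hN.tr _ (hN.sUnion (hN.sUnion (absC_fgr hN hB))) _ (snd_mem_ssU h5)
    have h6 := hfk ⟨k, hkN⟩ ⟨app B k, hAN⟩ ⟨y, hyN⟩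
      ((abs_in2 hN _ _ _).2 (pair_mem_fgr.2 ⟨hk0, rfl⟩)) ((abs_in2 hN _ _ _).2 hy)
    rw [app_eq hy hu]
    exact h6
  · intro hac B hB hk
    rw [abs_seq hN] at hB
    have hBk : ∀ k ∈ omega, pair k (app B k) ∈ (B : ZFSet) := by
      intro k hk0
      obtain ⟨y, hy, hu⟩ := hB.2 k hk0
      rw [app_eq hy hu]
      exact hy
    obtain ⟨f, hf, hfk⟩ := hac B B.2 (by
      intro k hk0
      have h1 := hBk k hk0
      have hyN : app (B : ZFSet) k ∈ N := hN.tr _ (hN.sUnion (hN.sUnion B.2)) _ (snd_mem_ssU h1)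
      obtain ⟨h2, x, hx⟩ := hk ⟨k, absC_om hN hk0⟩ ⟨_, hyN⟩ ((abs_in2 hN _ _ _).2 h1)
      refine ⟨(h _).1 h2, ?_⟩
      intro h3
      have hx' : (x : ZFSet) ∈ app (B : ZFSet) k := hx
      rw [h3] at hx'
      exact notMem_empty _ hx')
    refine ⟨⟨_, absC_fgr hN hf⟩, absC_seq hN hf, ?_⟩
    intro k A x hkA hkx
    rw [abs_in2 hN] at hkA hkx
    obtain ⟨h1, h2⟩ := pair_mem_fgr.1 hkx
    show (x : ZFSet) ∈ (A : ZFSet)
    have h3 : (A : ZFSet) = app B k := by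
      obtain ⟨y, hy, hu⟩ := hB.2 k h1
      rw [app_eq hy hu]
      exact hu _ hkA
    rw [h2, h3]
    exact hfk k h1

end H83.AC
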