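import Pool.Agent.H83.AC.Rk

/-!
# Module Coll: collection in transitive models of ZF

Proof. `Vl N x = uni (fun y => powN (Vl N y)) x` (recursion along `∈`, `UF.recMem`), where
`powN y = sep (· ∈ N) (powerset y)`. By induction `Vl N x = {z ∈ N : rank z < rank x}` for `x ∈ N`
(define `Vl` honestly, e.g. `Vl N x = sep (fun z => z ∈ N) (ZFSet.vonNeumann (rank x))`, and prove
the recursion equation; `Vl N x ∈ N` then follows from `UF.recMem`).
For `x ∈ a` let `F N x v` be the set `sep (fun y => R N x y v) (Vl N β)` where `β = rk y₀ ∪ {rk y₀}`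
for a witness `y₀` of least rank if there is one, and `∅` otherwise. To make this a definable
function: `F N x v = ⋃₀ {..}` or by `UF.ite` and the characterisation (the unique ordinal `β` (i.e.
`rk β = β`) such that some `y ∈ N` with `rk y = β` satisfies `R` and no `y` with `rk y ∈ β` does).
Suggestion: let `B N x v` be the unique such `β` (or `∅`), prove `UF B` directly from the
definition of `UF` (its graph is a definable relation), as is done for `m` in
`Rec.exists_att` (file Rec.lean). Then `b = uni (fun x => Vl N (insert (B x) (B x))) a`.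
-/

namespace H83.AC

open ZFSet

/-- the level `rank x` of the von Neumann hierarchy of `N` -/
private noncomputable def Coll_Vl (N : Set ZFSet.{0}) (x : ZFSet.{0}) : ZFSet.{0} :=
  ZFSet.sep (fun z => z ∈ N) (vonNeumann (rank x))

private theorem Coll_mem_Vl {N : Set ZFSet.{0}} {x z : ZFSet.{0}} :
    z ∈ Coll_Vl N x ↔ z ∈ N ∧ rank z < rank x := by
  rw [Coll_Vl, mem_sep, mem_vonNeumann, and_comm]

private theorem Coll_Vl_eq {N : Set ZFSet.{0}} (hN : TM N) (x : ZFSet.{0}) :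
    Coll_Vl N x = uni (fun y => ZFSet.sep (fun z => z ∈ N) (powerset (Coll_Vl N y))) x := by
  ext z
  rw [Coll_mem_Vl, mem_uni, lt_rank_iff]
  constructor
  · rintro ⟨hz, y, hy, hle⟩
    refine ⟨y, hy, ?_⟩
    rw [mem_sep, mem_powerset]
    exact ⟨fun w hw => Coll_mem_Vl.2 ⟨hN.tr z hz w hw, (rank_lt_of_mem hw).trans_le hle⟩, hz⟩
  · rintro ⟨y, hy, h⟩
    rw [mem_sep, mem_powerset] at h
    refine ⟨h.2, y, hy, ?_⟩
    rw [rank_le_iff]
    intro w hw
    exact (Coll_mem_Vl.1 (h.1 hw)).2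

private theorem Coll_UF_Vl : UF (fun N w => Coll_Vl N (w 0)) := by
  refine UF.recMem (F := fun N _ x => Coll_Vl N x)
    (G := fun N _ x f => uni (fun y => ZFSet.sep (fun z => z ∈ N) (powerset (app f y))) x) ?_ ?_
  · refine UF.uni (F := fun N y v => ZFSet.sep (fun z => z ∈ N) (powerset (app (v 1) y)))
      (UF.var 0) ?_
    exact UF.pow (UF.app (UF.var 2) (UF.var 0))
  · intro N hN v hv x hx
    change Coll_Vl N x = _
    rw [Coll_Vl_eq hN x]
    apply uni_congr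
    intro y hy
    rw [app_fgr hy]

/-- the least rank of a witness, as a von Neumann ordinal -/
private noncomputable def Coll_B
    (R : Set ZFSet.{0} → ZFSet.{0} → ZFSet.{0} → (ℕ → ZFSet.{0}) → Prop)
    (N : Set ZFSet.{0}) (x : ZFSet.{0}) (v : ℕ → ZFSet.{0}) : ZFSet.{0} :=
  (sInf {o : Ordinal.{0} | ∃ y ∈ N, R N x y v ∧ rank y = o}).toZFSet

private theorem Coll_B_iff {R : Set ZFSet.{0} → ZFSet.{0} → ZFSet.{0} → (ℕ → ZFSet.{0}) → Prop}
    {N : Set ZFSet.{0}} {x : ZFSet.{0}} {v : ℕ → ZFSet.{0}} {b : ZFSet.{0}} :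
    b = Coll_B R N x v ↔
      (∃ y ∈ N, R N x y v ∧ b = rk y ∧ ∀ y' ∈ N, R N x y' v → ¬ rk y' ∈ rk y) ∨
        ((∀ y ∈ N, ¬ R N x y v) ∧ b = ∅) := by
  by_cases h : ∃ y ∈ N, R N x y v
  · have hne : {o : Ordinal.{0} | ∃ y ∈ N, R N x y v ∧ rank y = o}.Nonempty := by
      obtain ⟨y, hy, hR⟩ := h
      exact ⟨rank y, y, hy, hR, rfl⟩
    obtain ⟨y0, hy0, hR0, hr0⟩ := csInf_mem hne
    constructor
    · rintro rfl
      refine Or.inl ⟨y0, hy0, hR0, ?_, ?_⟩
      · rw [Coll_B, rk, hr0]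
      · intro y' hy' hR' hlt
        rw [rk_mem_rk, hr0] at hlt
        exact absurd (csInf_le' (show rank y' ∈ {o : Ordinal.{0} | ∃ y ∈ N, R N x y v ∧ rank y = o}
          from ⟨y', hy', hR', rfl⟩)) (not_le.2 hlt)
    · rintro (⟨y, hy, hR, rfl, hmin⟩ | ⟨hno, -⟩)
      · rw [Coll_B, rk]
        congr 1
        apply le_antisymm
        · rw [← hr0]
          by_contra hc
          exact hmin y0 hy0 hR0 (rk_mem_rk.2 (not_le.1 hc))
        · exact csInf_le' (show rank y ∈ {o : Ordinal.{0} | ∃ y ∈ N, R N x y v ∧ rank y = o} from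
            ⟨y, hy, hR, rfl⟩)
      · obtain ⟨y, hy, hR⟩ := h
        exact absurd hR (hno y hy)
  · have hno : ∀ y ∈ N, ¬ R N x y v := fun y hy hR => h ⟨y, hy, hR⟩
    have he : {o : Ordinal.{0} | ∃ y ∈ N, R N x y v ∧ rank y = o} = ∅ := by
      rw [Set.eq_empty_iff_forall_notMem]
      rintro o ⟨y, hy, hR, -⟩
      exact hno y hy hR
    have hB : Coll_B R N x v = ∅ := by
      rw [Coll_B, he, Ordinal.sInf_empty, Ordinal.toZFSet_zero]
    rw [hB]
    constructor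
    · rintro rfl
      exact Or.inr ⟨hno, rfl⟩
    · rintro (⟨y, hy, hR, -, -⟩ | ⟨-, rfl⟩)
      · exact absurd hR (hno y hy)
      · rfl

private theorem Coll_UF_B {R : Set ZFSet.{0} → ZFSet.{0} → ZFSet.{0} → (ℕ → ZFSet.{0}) → Prop}
    (h : UR (fun N v => R N (v 0) (v 1) (sh (sh v)))) :
    UF (fun N v => Coll_B R N (v 0) (sh v)) := by
  constructor
  · intro N hN v hv
    rcases Coll_B_iff.1 (rfl : Coll_B R N (v 0) (sh v) = _) with ⟨y, hy, -, hb, -⟩ | ⟨-, hb⟩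
    · rw [hb]
      exact (UF.rk (UF.var 0)).mem N hN (fun _ => y) (fun _ => hy)
    · rw [hb]
      exact UF.empty.mem N hN v hv
  · have hR1 : UR (fun N v => R N (v 2) (v 0) (sh (sh (sh v)))) :=
      (h.ren (fun n => match n with | 0 => 2 | 1 => 0 | m + 2 => m + 3)).congr
        (fun _ _ _ _ => Iff.rfl)
    have hR2 : UR (fun N v => R N (v 3) (v 0) (sh (sh (sh (sh v))))) :=
      (h.ren (fun n => match n with | 0 => 3 | 1 => 0 | m + 2 => m + 4)).congr
        (fun _ _ _ _ => Iff.rfl)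
    have key : UR (fun N v => (∃ y ∈ N, R N (v 1) y (sh (sh v)) ∧ v 0 = rk y ∧
        ∀ y' ∈ N, R N (v 1) y' (sh (sh v)) → ¬ rk y' ∈ rk y) ∨
          ((∀ y ∈ N, ¬ R N (v 1) y (sh (sh v))) ∧ v 0 = ∅)) := by
      refine UD.or ?_ (UD.and ?_ (UR.eq (UF.var 0) UF.empty))
      · refine UD.exN (R := fun N y v => R N (v 1) y (sh (sh v)) ∧ v 0 = rk y ∧
          ∀ y' ∈ N, R N (v 1) y' (sh (sh v)) → ¬ rk y' ∈ rk y) ?_
        refine UD.and hR1 (UD.and (UR.eq (UF.var 1) (UF.rk (UF.var 0))) ?_)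
        refine UD.allN (R := fun N y' v => R N (v 2) y' (sh (sh (sh v))) →
          ¬ rk y' ∈ rk (v 0)) ?_
        exact UD.imp hR2 (UD.not (UR.mem (UF.rk (UF.var 0)) (UF.rk (UF.var 1))))
      · exact UD.allN (R := fun N y v => ¬ R N (v 1) y (sh (sh v))) hR1.not
    exact key.congr fun N hN v hv => Coll_B_iff

theorem TM.coll {R : Set ZFSet.{0} → ZFSet.{0} → ZFSet.{0} → (ℕ → ZFSet.{0}) → Prop}
    (h : UR (fun N v => R N (v 0) (v 1) (sh (sh v)))) {N : Set ZFSet.{0}} (hN : TM N)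
    {v : ℕ → ZFSet.{0}} (hv : ∀ n, v n ∈ N) {a : ZFSet.{0}} (ha : a ∈ N) :
    ∃ b ∈ N, ∀ x ∈ a, (∃ y ∈ N, R N x y v) → ∃ y ∈ b, R N x y v := by
  have hB := Coll_UF_B h
  have hF : UF (fun N v => Coll_Vl N (Insert.insert (Coll_B R N (v 0) (sh v))
      (Coll_B R N (v 0) (sh v)))) :=
    UF.comp1 (F := Coll_Vl) Coll_UF_Vl (UF.insert hB hB)
  refine ⟨⋃₀ (H83.AC.img (fun x => Coll_Vl N (Insert.insert (Coll_B R N x v) (Coll_B R N x v))) a),
    hN.sUnion (hN.img_of (F := fun N x v => Coll_Vl N (Insert.insert (Coll_B R N x v)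
      (Coll_B R N x v))) hF hv ha), ?_⟩
  intro x hx hex
  rcases Coll_B_iff.1 (rfl : Coll_B R N x v = _) with ⟨y, hy, hR, hb, -⟩ | ⟨hno, -⟩
  · refine ⟨y, ?_, hR⟩
    rw [mem_sUnion]
    refine ⟨_, mem_img.2 ⟨x, hx, rfl⟩, ?_⟩
    rw [Coll_mem_Vl]
    refine ⟨hy, ?_⟩
    rw [hb, rank_insert, rank_rk]
    exact lt_max_of_lt_left (Order.lt_succ _)
  · obtain ⟨y, hy, hR⟩ := hex
    exact absurd hR (hno y hy)

end H83.AC
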