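import Pool.Agent.H83.AC.HFb
import Pool.Agent.H83.AC.Coll

/-!
# Module Fn: functions in models

`IsFunc a b f` (Mathlib): `f ⊆ prod a b` and every `x ∈ a` has exactly one `w` with `pair x w ∈ f`.
`UR.isFunc`: in `∃! w, pair z w ∈ f` the `w` may be bounded by `b` (because `f ⊆ prod a b`):
rewrite `IsFunc a b f` as `f ⊆ prod a b ∧ ∀ x ∈ a, ∃ w ∈ b, pair x w ∈ f ∧ ∀ w' ∈ b, pair x w' ∈ f → w' = w`
by `UD.congr`, then `infer_instance`.
-/

namespace H83.AC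

open ZFSet

theorem fn_app {a b f x : ZFSet.{0}} (h : IsFunc a b f) (hx : x ∈ a) : pair x (app f x) ∈ f := by
  obtain ⟨w, hw, hu⟩ := h.2 x hx
  rw [app_eq hw hu]
  exact hw

theorem fn_mem {a b f x : ZFSet.{0}} (h : IsFunc a b f) (hx : x ∈ a) : app f x ∈ b :=
  (pair_mem_prod.1 (h.1 (fn_app h hx))).2

theorem fn_pair {a b f x y : ZFSet.{0}} (h : IsFunc a b f) (hp : pair x y ∈ f) :
    x ∈ a ∧ y ∈ b ∧ y = app f x := by
  have h1 := pair_mem_prod.1 (h.1 hp)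
  exact ⟨h1.1, h1.2, (h.2 x h1.1).unique hp (fn_app h h1.1)⟩

theorem fn_elt {a b f t : ZFSet.{0}} (h : IsFunc a b f) (ht : t ∈ f) :
    ∃ x ∈ a, t = pair x (app f x) := by
  obtain ⟨x, hx, y, -, rfl⟩ := mem_prod.1 (h.1 ht)
  exact ⟨x, hx, by rw [(fn_pair h ht).2.2]⟩

theorem fn_ext {a b b' f g : ZFSet.{0}} (h : IsFunc a b f) (h' : IsFunc a b' g)
    (e : ∀ x ∈ a, app f x = app g x) : f = g := by
  ext t
  constructor
  · intro ht
    obtain ⟨x, hx, rfl⟩ := fn_elt h ht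
    rw [e x hx]
    exact fn_app h' hx
  · intro ht
    obtain ⟨x, hx, rfl⟩ := fn_elt h' ht
    rw [← e x hx]
    exact fn_app h hx

theorem fn_fgr {a b : ZFSet.{0}} {F : ZFSet.{0} → ZFSet.{0}} (h : ∀ x ∈ a, F x ∈ b) :
    IsFunc a b (fgr F a) := by
  refine ⟨fun t ht => ?_, fun x hx => ⟨F x, pair_mem_fgr.2 ⟨hx, rfl⟩, fun y hy =>
    (pair_mem_fgr.1 hy).2⟩⟩
  obtain ⟨y, hy, rfl⟩ := mem_fgr.1 ht
  exact pair_mem_prod.2 ⟨hy, h y hy⟩

/-- a real number is a set of hereditarily finite sets -/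
theorem fn_HF {x : ZFSet.{0}} (h : IsFunc omega omega x) : x ⊆ HF := by
  intro t ht
  obtain ⟨y, hy, rfl⟩ := fn_elt h ht
  exact HF_pair (omega_sub_HF hy) (omega_sub_HF (fn_mem h hy))

/-- a finite function into `HF` is hereditarily finite -/
theorem fn_fin {n : ℕ} {b w : ZFSet.{0}} (hb : b ⊆ HF) (h : IsFunc (nz n) b w) : w ∈ HF := by
  refine HF_of_finite (fun t ht => ?_) ?_
  · obtain ⟨x, hx, rfl⟩ := fn_elt h ht
    exact HF_pair (HF_tr (HF_nz n) hx) (hb (fn_mem h hx))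
  · refine ((HF_finite (HF_nz n)).image (fun x => pair x (app w x))).subset ?_
    intro t ht
    obtain ⟨x, hx, rfl⟩ := fn_elt h ht
    exact ⟨x, hx, rfl⟩

theorem UR.isFunc {f g h : Set ZFSet.{0} → (ℕ → ZFSet.{0}) → ZFSet.{0}} (hf : UF f) (hg : UF g)
    (hh : UF h) : UR (fun N v => IsFunc (f N v) (g N v) (h N v)) := by
  have key : UR (fun N v => h N v ⊆ ZFSet.prod (f N v) (g N v) ∧ ∀ x ∈ f N v, ∃ w ∈ g N v,
      ZFSet.pair x w ∈ h N v ∧ ∀ w' ∈ g N v, ZFSet.pair x w' ∈ h N v → w' = w) := by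
    infer_instance
  refine key.congr fun N _ v _ => Iff.symm ?_
  constructor
  · rintro ⟨h1, h2⟩
    refine ⟨h1, fun x hx => ?_⟩
    obtain ⟨w, -, hw, hu⟩ := h2 x hx
    exact ⟨w, hw, fun w' hw' => hu w' (pair_mem_prod.1 (h1 hw')).2 hw'⟩
  · rintro ⟨h1, h2⟩
    refine ⟨h1, fun x hx => ?_⟩
    obtain ⟨w, hw, hu⟩ := h2 x hx
    exact ⟨w, (pair_mem_prod.1 (h1 hw)).2, hw, fun w' _ hw' => hu w' hw'⟩

instance Inst.isFunc {f g h : Set ZFSet.{0} → (ℕ → ZFSet.{0}) → ZFSet.{0}} [hf : UF f] [hg : UF g]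
    [hh : UF h] : UR (fun N v => IsFunc (f N v) (g N v) (h N v)) := UR.isFunc hf hg hh

end H83.AC
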