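import Pool.Agent.H83.AC.Stmt
import Pool.Agent.H83.AC.Fn

/-!
# Module AbsN: elementary notions are computed correctly in transitive models

`E = memN N` on the subtype `N`. All quantifiers of `Stmt` range over `N`; `∅, insert n n, {x, y}, pair x y,
omega ∈ N` (`TM.*`). `isOm`: `omega` is inductive in `N`; if `w` satisfies `IsOm` then `w ⊆ omega` (take
`a = omega`) and `omega ⊆ w` (induction on `n`: `nz n ∈ w`, `mem_omega`).
-/

namespace H83.AC

open ZFSet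

variable {N : Set ZFSet.{0}}

private theorem absN_ext (hN : TM N) {a : N} {b : ZFSet.{0}} (hb : ∀ z ∈ b, z ∈ N) :
    (∀ z : N, ((z : ZFSet) ∈ (a : ZFSet) ↔ (z : ZFSet) ∈ b)) ↔ (a : ZFSet) = b := by
  constructor
  · intro h
    ext z
    constructor
    · intro hz
      exact (h ⟨z, hN.tr _ a.2 z hz⟩).1 hz
    · intro hz
      exact (h ⟨z, hb z hz⟩).2 hz
  · intro h z
    rw [h]

private theorem absN_comp (hN : TM N) {x y f : ZFSet.{0}} (hf : f ∈ N) (h : pair x y ∈ f) :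
    x ∈ N ∧ y ∈ N ∧ pair x y ∈ N :=
  ⟨hN.tr _ (hN.sUnion (hN.sUnion hf)) x (fst_mem_ssU h),
    hN.tr _ (hN.sUnion (hN.sUnion hf)) y (snd_mem_ssU h), hN.tr _ hf _ h⟩

theorem abs_emp (hN : TM N) (e : N) : IsEmp (memN N) e ↔ (e : ZFSet) = ∅ := by
  rw [← absN_ext hN (b := ∅) (fun z hz => absurd hz (notMem_empty z))]
  constructor
  · intro h z
    exact ⟨fun hz => absurd hz (h z), fun hz => absurd hz (notMem_empty _)⟩
  · intro h z hz
    exact notMem_empty _ ((h z).1 hz)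

theorem abs_suc (hN : TM N) (s n : N) :
    IsSuc (memN N) s n ↔ (s : ZFSet) = insert (n : ZFSet) (n : ZFSet) := by
  rw [← absN_ext hN (b := insert (n : ZFSet) (n : ZFSet)) (fun z hz => by
    rcases mem_insert_iff.1 hz with rfl | h
    · exact n.2
    · exact hN.tr _ n.2 z h)]
  refine forall_congr' fun z => iff_congr Iff.rfl ?_
  rw [mem_insert_iff, or_comm]
  exact or_congr Subtype.ext_iff Iff.rfl

private theorem absN_ind (hN : TM N) (a : N) : IsInd (memN N) a ↔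
    (∅ ∈ (a : ZFSet) ∧ ∀ n ∈ (a : ZFSet), insert n n ∈ (a : ZFSet)) := by
  constructor
  · rintro ⟨⟨e, he, hea⟩, h⟩
    refine ⟨?_, ?_⟩
    · rw [abs_emp hN] at he
      have : (e : ZFSet) ∈ (a : ZFSet) := hea
      rwa [he] at this
    · intro n hn
      obtain ⟨s, hs, hsa⟩ := h ⟨n, hN.tr _ a.2 n hn⟩ hn
      rw [abs_suc hN] at hs
      have : (s : ZFSet) ∈ (a : ZFSet) := hsa
      rwa [hs] at this
  · rintro ⟨h0, h⟩
    refine ⟨⟨⟨∅, hN.tr _ a.2 _ h0⟩, (abs_emp hN _).2 rfl, h0⟩, ?_⟩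
    intro n hn
    have h1 := h n hn
    exact ⟨⟨_, hN.tr _ a.2 _ h1⟩, (abs_suc hN _ _).2 rfl, h1⟩

private theorem absN_nz {J : ZFSet.{0}} (h : ∅ ∈ J ∧ ∀ y ∈ J, insert y y ∈ J) (n : ℕ) :
    nz n ∈ J := by
  induction n with
  | zero => exact h.1
  | succ n ih => exact h.2 _ ih

theorem abs_om (hN : TM N) (w : N) : IsOm (memN N) w ↔ (w : ZFSet) = omega := by
  have hind : (∅ ∈ omega ∧ ∀ n ∈ omega, insert n n ∈ omega) := by
    refine ⟨omega_zero, fun n hn => omega_succ hn⟩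
  constructor
  · rintro ⟨h1, h2⟩
    rw [absN_ind hN] at h1
    ext z
    constructor
    · intro hz
      exact h2 ⟨omega, hN.omega⟩ ((absN_ind hN _).2 hind) ⟨z, hN.tr _ w.2 z hz⟩ hz
    · intro hz
      obtain ⟨n, rfl⟩ := mem_omega.1 hz
      exact absN_nz h1 n
  · intro h
    refine ⟨(absN_ind hN _).2 (by rw [h]; exact hind), ?_⟩
    intro a ha n hn
    rw [absN_ind hN] at ha
    have hn' : (n : ZFSet) ∈ (w : ZFSet) := hn
    rw [h] at hn'
    obtain ⟨k, hk⟩ := mem_omega.1 hn'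
    show (n : ZFSet) ∈ (a : ZFSet)
    rw [hk]
    exact absN_nz ha k

theorem abs_nat (hN : TM N) (n : N) : IsNat (memN N) n ↔ (n : ZFSet) ∈ omega := by
  constructor
  · rintro ⟨w, hw, hn⟩
    rw [abs_om hN] at hw
    have : (n : ZFSet) ∈ (w : ZFSet) := hn
    rwa [hw] at this
  · intro h
    exact ⟨⟨omega, hN.omega⟩, (abs_om hN _).2 rfl, h⟩

theorem abs_up (hN : TM N) (p x y : N) : IsUp (memN N) p x y ↔ (p : ZFSet) = {(x : ZFSet), (y : ZFSet)} := by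
  rw [← absN_ext hN (b := {(x : ZFSet), (y : ZFSet)}) (fun z hz => by
    rcases mem_pair.1 hz with rfl | rfl
    · exact x.2
    · exact y.2)]
  refine forall_congr' fun z => iff_congr Iff.rfl ?_
  rw [mem_pair]
  exact or_congr Subtype.ext_iff Subtype.ext_iff

private theorem absN_dup (x : ZFSet.{0}) : ({x, x} : ZFSet) = {x} := by
  ext z
  rw [mem_pair, mem_singleton, or_self]

theorem abs_op (hN : TM N) (t x y : N) : IsOp (memN N) t x y ↔ (t : ZFSet) = pair x y := by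
  constructor
  · rintro ⟨a, b, ha, hb, ht⟩
    rw [abs_up hN] at ha hb ht
    rw [ht, ha, hb, absN_dup]
    rfl
  · intro h
    refine ⟨⟨{(x : ZFSet)}, hN.singleton x.2⟩, ⟨{(x : ZFSet), (y : ZFSet)}, hN.upair x.2 y.2⟩,
      ?_, ?_, ?_⟩
    · rw [abs_up hN, absN_dup]
    · rw [abs_up hN]
    · rw [abs_up hN, h]
      rfl

theorem abs_in2 (hN : TM N) (f x y : N) : In2 (memN N) f x y ↔ pair (x : ZFSet) y ∈ (f : ZFSet) := by
  constructor
  · rintro ⟨t, ht, htf⟩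
    rw [abs_op hN] at ht
    rw [← ht]
    exact htf
  · intro h
    exact ⟨⟨_, hN.pair x.2 y.2⟩, (abs_op hN _ _ _).2 rfl, h⟩

theorem abs_in3 (hN : TM N) (f x y z : N) :
    In3 (memN N) f x y z ↔ pair (x : ZFSet) (pair (y : ZFSet) z) ∈ (f : ZFSet) := by
  constructor
  · rintro ⟨u, hu, h⟩
    rw [abs_op hN] at hu
    rw [abs_in2 hN, hu] at h
    exact h
  · intro h
    exact ⟨⟨_, hN.pair y.2 z.2⟩, (abs_op hN _ _ _).2 rfl, (abs_in2 hN _ _ _).2 h⟩

private theorem absN_uni (hN : TM N) (f x : N) : (∃! y : N, In2 (memN N) f x y) ↔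
    ∃! y, pair (x : ZFSet) y ∈ (f : ZFSet) := by
  constructor
  · rintro ⟨y, hy, hu⟩
    refine ⟨y, (abs_in2 hN _ _ _).1 hy, ?_⟩
    intro z hz
    have := hu ⟨z, (absN_comp hN f.2 hz).2.1⟩ ((abs_in2 hN _ _ _).2 hz)
    exact congrArg Subtype.val this
  · rintro ⟨y, hy, hu⟩
    refine ⟨⟨y, (absN_comp hN f.2 hy).2.1⟩, (abs_in2 hN _ _ _).2 hy, ?_⟩
    intro z hz
    exact Subtype.ext (hu z ((abs_in2 hN _ _ _).1 hz))

theorem abs_fun (hN : TM N) (f a b : N) : IsFun (memN N) f a b ↔ IsFunc (a : ZFSet) b f := by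
  constructor
  · rintro ⟨h1, h2⟩
    refine ⟨?_, ?_⟩
    · intro t ht
      obtain ⟨x, y, hx, hy, hop⟩ := h1 ⟨t, hN.tr _ f.2 t ht⟩ ht
      rw [abs_op hN] at hop
      have : t = pair (x : ZFSet) y := hop
      rw [this]
      exact pair_mem_prod.2 ⟨hx, hy⟩
    · intro x hx
      exact (absN_uni hN f ⟨x, hN.tr _ a.2 x hx⟩).1 (h2 ⟨x, hN.tr _ a.2 x hx⟩ hx)
  · rintro ⟨h1, h2⟩
    refine ⟨?_, ?_⟩
    · intro t ht
      obtain ⟨x, hx, y, hy, hp⟩ := mem_prod.1 (h1 ht)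
      exact ⟨⟨x, hN.tr _ a.2 x hx⟩, ⟨y, hN.tr _ b.2 y hy⟩, hx, hy, (abs_op hN _ _ _).2 hp⟩
    · intro x hx
      exact (absN_uni hN f x).2 (h2 x hx)

theorem abs_real (hN : TM N) (x : N) : IsReal (memN N) x ↔ Real N x := by
  constructor
  · rintro ⟨w, hw, hf⟩
    rw [abs_om hN] at hw
    rw [abs_fun hN, hw] at hf
    exact ⟨x.2, hf⟩
  · rintro ⟨-, hf⟩
    exact ⟨⟨omega, hN.omega⟩, (abs_om hN _).2 rfl, (abs_fun hN _ _ _).2 hf⟩

theorem abs_agr (hN : TM N) {n x x' : N} (hn : (n : ZFSet) ∈ omega) (hx : Real N x)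
    (hx' : Real N x') : Agr (memN N) n x x' ↔ Agree (n : ZFSet) x x' := by
  have hsub : ∀ i ∈ (n : ZFSet), i ∈ omega := by
    intro i hi
    obtain ⟨k, hk⟩ := mem_omega.1 hn
    rw [hk] at hi
    obtain ⟨m, -, rfl⟩ := mem_nz.1 hi
    exact mem_omega.2 ⟨m, rfl⟩
  constructor
  · intro h i hi
    have hio := hsub i hi
    have hiN : i ∈ N := hN.tr _ n.2 i hi
    have hp := fn_app hx.2 hio
    have hj : app (x : ZFSet) i ∈ N := (absN_comp hN x.2 hp).2.1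
    have h1 := (h ⟨i, hiN⟩ hi ⟨_, hj⟩).1 ((abs_in2 hN _ _ _).2 hp)
    rw [abs_in2 hN] at h1
    exact (fn_pair hx'.2 h1).2.2
  · intro h i hi j
    have hio := hsub i hi
    rw [abs_in2 hN, abs_in2 hN]
    have e := h i hi
    constructor
    · intro hp
      rw [(fn_pair hx.2 hp).2.2, e]
      exact fn_app hx'.2 hio
    · intro hp
      rw [(fn_pair hx'.2 hp).2.2, ← e]
      exact fn_app hx.2 hio

theorem abs_seq (hN : TM N) (f : N) : IsSeq (memN N) f ↔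
    (∀ t ∈ (f : ZFSet), ∃ k ∈ omega, ∃ y, t = pair k y) ∧
    ∀ k ∈ omega, ∃! y, pair k y ∈ (f : ZFSet) := by
  constructor
  · rintro ⟨w, hw, h1, h2⟩
    rw [abs_om hN] at hw
    refine ⟨?_, ?_⟩
    · intro t ht
      obtain ⟨k, y, hk, hop⟩ := h1 ⟨t, hN.tr _ f.2 t ht⟩ ht
      rw [abs_op hN] at hop
      have hk' : (k : ZFSet) ∈ (w : ZFSet) := hk
      rw [hw] at hk'
      exact ⟨k, hk', y, hop⟩
    · intro k hk
      have hk' : k ∈ (w : ZFSet) := by rw [hw]; exact hk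
      exact (absN_uni hN f ⟨k, hN.tr _ w.2 k hk'⟩).1 (h2 ⟨k, hN.tr _ w.2 k hk'⟩ hk')
  · rintro ⟨h1, h2⟩
    refine ⟨⟨omega, hN.omega⟩, (abs_om hN _).2 rfl, ?_, ?_⟩
    · intro t ht
      obtain ⟨k, hk, y, hp⟩ := h1 t ht
      have ht' : pair k y ∈ (f : ZFSet) := hp ▸ ht
      obtain ⟨hkN, hyN, -⟩ := absN_comp hN f.2 ht'
      exact ⟨⟨k, hkN⟩, ⟨y, hyN⟩, hk, (abs_op hN _ _ _).2 hp⟩
    · intro k hk
      exact (absN_uni hN f k).2 (h2 k hk)

end H83.AC
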