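import Pool.Agent.H83.AC.NdU

/-!
# Module ActA: algebra of the action on names

A name is hereditarily a set of pairs `(π, p)`, `p ∈ Cond`. `mem_actN` describes `actN z σ`.
`actN_actN`: induction on `rank σ`. `nd_actN`: `nd (actN z σ) = img (actN z) (nd σ)`.
-/

namespace H83.AC

open ZFSet

/-- hereditarily a set of pairs (name, condition) -/
def IsName (σ : ZFSet.{0}) : Prop :=
  (∀ t ∈ σ, ∃ π, ∃ p ∈ Cond, t = pair π p) ∧ ∀ π, (h : π ∈ nd σ) → IsName π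
termination_by rank σ
decreasing_by exact rank_nd_lt h

theorem isName_iff {σ : ZFSet.{0}} : IsName σ ↔
    (∀ t ∈ σ, ∃ π, ∃ p ∈ Cond, t = pair π p) ∧ ∀ π ∈ nd σ, IsName π := by
  rw [IsName]

private theorem HS_iff {M : Set ZFSet.{0}} {σ : ZFSet.{0}} : HS M σ ↔
    (∀ t ∈ σ, ∃ π, ∃ p ∈ Cond, t = pair π p) ∧ (∃ m, Supp M m σ) ∧ ∀ π ∈ nd σ, HS M π := by
  rw [HS]

private theorem ndInd {P : ZFSet.{0} → Prop} (h : ∀ σ, (∀ π ∈ nd σ, P π) → P σ) (σ : ZFSet.{0}) :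
    P σ := by
  have key : ∀ o : Ordinal.{0}, ∀ σ : ZFSet.{0}, rank σ = o → P σ := by
    intro o
    induction o using WellFoundedLT.induction with
    | ind o ih =>
      intro σ hσ
      exact h σ fun π hπ => ih (rank π) (hσ ▸ rank_nd_lt hπ) π rfl
  exact key _ σ rfl

theorem HS.isName {M : Set ZFSet.{0}} {σ : ZFSet.{0}} (h : HS M σ) : IsName σ := by
  induction σ using ndInd with
  | h σ ih =>
    rw [HS_iff] at h
    exact isName_iff.2 ⟨h.1, fun π hπ => ih π hπ (h.2.2 π hπ)⟩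

theorem mem_nd_actN {z σ π : ZFSet.{0}} : π ∈ nd (actN z σ) ↔ ∃ ρ ∈ nd σ, π = actN z ρ := by
  constructor
  · intro h
    obtain ⟨p, hp, h⟩ := mem_nd.1 h
    obtain ⟨ρ, q, hq, hρ, e⟩ := mem_actN.1 h
    exact ⟨ρ, mem_nd.2 ⟨q, hq, hρ⟩, (pair_injective e).1⟩
  · rintro ⟨ρ, hρ, rfl⟩
    obtain ⟨q, hq, h⟩ := mem_nd.1 hρ
    exact mem_nd.2 ⟨actC z q, actC_cond hq, mem_actN.2 ⟨ρ, q, hq, h, rfl⟩⟩

theorem actN_isName {z σ : ZFSet.{0}} (h : IsName σ) : IsName (actN z σ) := by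
  induction σ using ndInd with
  | h σ ih =>
    rw [isName_iff] at h
    refine isName_iff.2 ⟨fun t ht => ?_, fun π hπ => ?_⟩
    · obtain ⟨ρ, q, hq, hρ, e⟩ := mem_actN.1 ht
      exact ⟨actN z ρ, actC z q, actC_cond hq, e⟩
    · obtain ⟨ρ, hρ, rfl⟩ := mem_nd_actN.1 hπ
      exact ih ρ hρ (h.2 ρ hρ)

theorem actN_actN {z σ : ZFSet.{0}} (h : IsName σ) : actN z (actN z σ) = σ := by
  induction σ using ndInd with
  | h σ ih =>
    rw [isName_iff] at h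
    ext t
    constructor
    · intro ht
      obtain ⟨ρ, q, hq, hρ, rfl⟩ := mem_actN.1 ht
      obtain ⟨π, p, hp, hπ, e⟩ := mem_actN.1 hρ
      obtain ⟨rfl, rfl⟩ := pair_injective e
      have hn : π ∈ nd σ := mem_nd.2 ⟨p, hp, hπ⟩
      rw [ih π hn (h.2 π hn), actC_actC hp]
      exact hπ
    · intro ht
      obtain ⟨π, p, hp, rfl⟩ := h.1 t ht
      have hn : π ∈ nd σ := mem_nd.2 ⟨p, hp, ht⟩
      refine mem_actN.2 ⟨actN z π, actC z p, actC_cond hp, mem_actN.2 ⟨π, p, hp, ht, rfl⟩, ?_⟩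
      rw [ih π hn (h.2 π hn), actC_actC hp]

theorem actN_comm {z z' σ : ZFSet.{0}} : actN z (actN z' σ) = actN z' (actN z σ) := by
  induction σ using ndInd with
  | h σ ih =>
    ext t
    constructor
    · intro ht
      obtain ⟨ρ, q, hq, hρ, rfl⟩ := mem_actN.1 ht
      obtain ⟨π, p, hp, hπ, e⟩ := mem_actN.1 hρ
      obtain ⟨rfl, rfl⟩ := pair_injective e
      have hn : π ∈ nd σ := mem_nd.2 ⟨p, hp, hπ⟩
      refine mem_actN.2 ⟨actN z π, actC z p, actC_cond hp, mem_actN.2 ⟨π, p, hp, hπ, rfl⟩, ?_⟩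
      rw [ih π hn, actC_comm hp]
    · intro ht
      obtain ⟨ρ, q, hq, hρ, rfl⟩ := mem_actN.1 ht
      obtain ⟨π, p, hp, hπ, e⟩ := mem_actN.1 hρ
      obtain ⟨rfl, rfl⟩ := pair_injective e
      have hn : π ∈ nd σ := mem_nd.2 ⟨p, hp, hπ⟩
      refine mem_actN.2 ⟨actN z' π, actC z' p, actC_cond hp, mem_actN.2 ⟨π, p, hp, hπ, rfl⟩, ?_⟩
      rw [ih π hn, actC_comm hp]

theorem actN_inj {z σ τ : ZFSet.{0}} (h : IsName σ) (h' : IsName τ) (e : actN z σ = actN z τ) :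
    σ = τ := by
  rw [← actN_actN (z := z) h, e, actN_actN h']

theorem pair_mem_actN {z π σ p : ZFSet.{0}} (h : IsName σ) (hπ : IsName π) (hp : p ∈ Cond) :
    pair (actN z π) (actC z p) ∈ actN z σ ↔ pair π p ∈ σ := by
  constructor
  · intro ht
    obtain ⟨ρ, q, hq, hρ, e⟩ := mem_actN.1 ht
    obtain ⟨e1, e2⟩ := pair_injective e
    have hn : ρ ∈ nd σ := mem_nd.2 ⟨q, hq, hρ⟩
    have h1 : π = ρ := actN_inj hπ ((isName_iff.1 h).2 ρ hn) e1
    have h2 : p = q := by rw [← actC_actC (z := z) hp, e2, actC_actC hq]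
    rw [h1, h2]
    exact hρ
  · intro ht
    exact mem_actN.2 ⟨π, p, hp, ht, rfl⟩

theorem Supp_actN {M : Set ZFSet.{0}} {m z σ : ZFSet.{0}} (h : Supp M m σ) :
    Supp M m (actN z σ) :=
  ⟨h.1, fun z' hz' ha => by rw [actN_comm, h.2 z' hz' ha]⟩

/-- the action preserves hereditarily symmetric names -/
theorem HS_actN {M : Set ZFSet.{0}} {z σ : ZFSet.{0}} (h : HS M σ) : HS M (actN z σ) := by
  induction σ using ndInd with
  | h σ ih =>
    have hn := h.isName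
    rw [HS_iff] at h
    obtain ⟨m, hm⟩ := h.2.1
    refine HS_iff.2 ⟨(isName_iff.1 (actN_isName hn)).1, ⟨m, Supp_actN hm⟩, fun π hπ => ?_⟩
    obtain ⟨ρ, hρ, rfl⟩ := mem_nd_actN.1 hπ
    exact ih ρ hρ (h.2.2 ρ hρ)

end H83.AC
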