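import Pool.Agent.H83.AC.Defs2

/-!
# Module Tc: transitive closure

`tc x = x ∪ ⋃_{y ∈ x} tc y`: unfold the definition (`rw [tc]`) and compare with `uni`.
`UF.tc`: `UF.recMem` with `G N v x f = x ∪ uni (fun y => app f y) x` (use `app_fgr`), then
`UF.comp1`.
-/

namespace H83.AC

open ZFSet

theorem tc_eq (x : ZFSet.{0}) : tc x = x ∪ uni tc x := by
  rw [tc]
  rfl

private theorem Tc_mem {x z : ZFSet.{0}} : z ∈ tc x ↔ z ∈ x ∨ ∃ y ∈ x, z ∈ tc y := by
  rw [tc_eq, mem_union, mem_uni]

theorem sub_tc (x : ZFSet.{0}) : x ⊆ tc x := by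
  intro y hy
  exact Tc_mem.2 (Or.inl hy)

theorem tc_mono {x y : ZFSet.{0}} (h : y ∈ x) : tc y ⊆ tc x := by
  intro z hz
  exact Tc_mem.2 (Or.inr ⟨y, h, hz⟩)

theorem tc_tr {x y : ZFSet.{0}} (h : y ∈ tc x) : y ⊆ tc x := by
  induction x using ZFSet.inductionOn with
  | _ x ih =>
    intro z hz
    rcases Tc_mem.1 h with h1 | ⟨w, hw, h1⟩
    · exact tc_mono h1 (sub_tc y hz)
    · exact tc_mono hw (ih w hw h1 hz)

theorem tc_min {x t : ZFSet.{0}} (h : x ⊆ t) (ht : ∀ y ∈ t, y ⊆ t) : tc x ⊆ t := by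
  induction x using ZFSet.inductionOn with
  | _ x ih =>
    intro z hz
    rcases Tc_mem.1 hz with h1 | ⟨w, hw, h1⟩
    · exact h h1
    · exact ih w hw (ht w (h hw)) h1

theorem rank_lt_of_mem_tc {x y : ZFSet.{0}} (h : y ∈ tc x) : rank y < rank x := by
  induction x using ZFSet.inductionOn with
  | _ x ih =>
    rcases Tc_mem.1 h with h1 | ⟨w, hw, h1⟩
    · exact rank_lt_of_mem h1
    · exact (ih w hw h1).trans (rank_lt_of_mem hw)

theorem UF.tc {f : Set ZFSet.{0} → (ℕ → ZFSet.{0}) → ZFSet.{0}} (hf : UF f) :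
    UF (fun N v => H83.AC.tc (f N v)) := by
  refine UF.comp1 (F := fun _ x => H83.AC.tc x) ?_ hf
  refine UF.recMem (F := fun _ _ x => H83.AC.tc x)
    (G := fun _ _ x g => x ∪ H83.AC.uni (fun y => H83.AC.app g y) x) ?_ ?_
  · refine UF.union (UF.var 0) (UF.uni (F := fun _ y w => H83.AC.app (w 1) y) (UF.var 0) ?_)
    (repeat' first
        | assumption | exact UF.var _ | exact UD.true | exact UD.false | apply UF.empty
        | apply UF.fgr | apply UF.uni | apply UF.img | apply UF.pow | apply UF.sep | apply UF.pair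
        | apply UF.upair | apply UF.singleton | apply UF.insert | apply UF.union | apply UF.inter
        | apply UF.diff | apply UF.prod | apply UF.sUnion | apply UF.app | apply UF.dom
        | apply UF.rng | apply UF.fst | apply UF.snd | apply UF.ite | apply UD.and | apply UD.or
        | apply UR.ball | apply UR.bex | apply UD.allN | apply UD.exN | apply UD.iff
        | apply UR.mem | apply UR.eq | apply UR.sub | apply UD.not | apply UD.imp
        | exact UD.prop _)
  · intro N _ v _ x _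
    rw [tc_eq]
    congr 1
    exact uni_congr fun y hy => (app_fgr hy).symm

instance Inst.tc {f : Set ZFSet.{0} → (ℕ → ZFSet.{0}) → ZFSet.{0}} [hf : UF f] :
    UF (fun N v => H83.AC.tc (f N v)) := UF.tc hf

end H83.AC
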