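import Pool.Agent.H83.AC.NdU
import Pool.Agent.H83.AC.Tc

/-!
# Module HSU: being a hereditarily symmetric name is uniformly definable

`UR.Supp`: `infer_instance` with `UF.actN`, `UF.Col`, `UF.omega` (`∀ z ∈ N` is `UD.allN`).
`UR.HS`: recursion: let `F N v x = one` if `HS N x` and `∅` otherwise; `UF.recur` with
`pred N v x = nd x`, `G N v x f = if (local condition) ∧ ∀ π ∈ nd x, app f π = one then one else ∅`
(`UF.ite`; the local condition is the first two clauses of `HS`; `∃ π, ∃ p ∈ Cond, t = pair π p` is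
equivalent to `t = pair (fst t) (snd t) ∧ snd t ∈ Cond`). Then `HS N x ↔ F N v x = one`.
-/

namespace H83.AC

open ZFSet

variable {f g : Set ZFSet.{0} → (ℕ → ZFSet.{0}) → ZFSet.{0}}

theorem UR.Supp (hf : UF f) (hg : UF g) : UR (fun N v => H83.AC.Supp N (f N v) (g N v)) := by
  refine UR.comp2 (R := fun N x y => H83.AC.Supp N x y) ?_ hf hg
  refine UD.and (UR.mem (UF.var 0) UF.omega)
    (UD.allN (R := fun N z v => Avoid (v 0) z → H83.AC.actN z (v 1) = v 1) ?_)
  exact UD.imp (UD.and (UR.sub (UF.var 0) UF.Idx)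
    (UR.eq (UF.inter (UF.var 0) (UF.Col (UF.var 1))) UF.empty))
    (UR.eq (UF.actN (UF.var 0) (UF.var 2)) (UF.var 2))

theorem HS_iff {M : Set ZFSet.{0}} {σ : ZFSet.{0}} : HS M σ ↔
    (∀ t ∈ σ, ∃ π, ∃ p ∈ Cond, t = pair π p) ∧ (∃ m, Supp M m σ) ∧ ∀ π ∈ nd σ, HS M π := by
  constructor
  · intro h
    rw [HS] at h
    exact h
  · intro h
    rw [HS]
    exact h

/-- the local form of `HS_iff` -/
theorem HS_iff' {M : Set ZFSet.{0}} {σ : ZFSet.{0}} : HS M σ ↔
    (∀ t ∈ σ, t = pair (fst t) (snd t) ∧ snd t ∈ Cond) ∧ (∃ m ∈ ZFSet.omega, Supp M m σ) ∧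
      ∀ π ∈ nd σ, HS M π := by
  rw [HS_iff]
  refine and_congr ?_ (and_congr ?_ Iff.rfl)
  · refine forall_congr' fun t => forall_congr' fun _ => ?_
    constructor
    · rintro ⟨π, p, hp, rfl⟩
      simp only [fst_pair, snd_pair, hp, and_self]
    · rintro ⟨h1, h2⟩
      exact ⟨fst t, snd t, h2, h1⟩
  · constructor
    · rintro ⟨m, hm⟩
      exact ⟨m, hm.1, hm⟩
    · rintro ⟨m, -, hm⟩
      exact ⟨m, hm⟩

theorem UR.HS (hf : UF f) : UR (fun N v => H83.AC.HS N (f N v)) := by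
  classical
  refine UR.comp1 (R := fun N x => H83.AC.HS N x) ?_ hf
  let F : Set ZFSet.{0} → (ℕ → ZFSet.{0}) → ZFSet.{0} → ZFSet.{0} :=
    fun N _ x => if H83.AC.HS N x then one else ∅
  let G : Set ZFSet.{0} → (ℕ → ZFSet.{0}) → ZFSet.{0} → ZFSet.{0} → ZFSet.{0} :=
    fun N _ x f => @ite _ ((∀ t ∈ x, t = ZFSet.pair (H83.AC.fst t) (H83.AC.snd t) ∧
      H83.AC.snd t ∈ H83.AC.Cond) ∧ (∃ m ∈ ZFSet.omega, H83.AC.Supp N m x) ∧
      ∀ π ∈ H83.AC.nd x, H83.AC.app f π = H83.AC.one) (Classical.propDecidable _) H83.AC.one ∅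
  have hone : ∀ N v x, F N v x = H83.AC.one ↔ H83.AC.HS N x := by
    intro N v x
    by_cases h : H83.AC.HS N x
    · simp only [F, if_pos h, h]
    · simp only [F, if_neg h, h, iff_false]
      exact fun h' => one_ne_empty h'.symm
  have hU : UF (fun N w => F N (sh w) (w 0)) := by
    refine UF.recur (pred := fun _ _ x => H83.AC.nd x) (G := G) (UF.nd (UF.var 0)) ?_ ?_ ?_
    · refine UF.ite (R := fun N w => (∀ t ∈ w 0, t = ZFSet.pair (H83.AC.fst t) (H83.AC.snd t) ∧
        H83.AC.snd t ∈ H83.AC.Cond) ∧ (∃ m ∈ ZFSet.omega, H83.AC.Supp N m (w 0)) ∧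
        ∀ π ∈ H83.AC.nd (w 0), H83.AC.app (w 1) π = H83.AC.one) (UD.and ?_ (UD.and ?_ ?_))
        UF.one UF.empty
      · exact UR.ball (R := fun N t w => t = ZFSet.pair (H83.AC.fst t) (H83.AC.snd t) ∧
          H83.AC.snd t ∈ H83.AC.Cond) (UF.var 0)
          (UD.and (UR.eq (UF.var 0) (UF.pair (UF.var 0).fst (UF.var 0).snd))
            (UR.mem (UF.var 0).snd UF.Cond))
      · exact UR.bex (R := fun N m w => H83.AC.Supp N m (w 0)) UF.omega
          (UR.Supp (UF.var 0) (UF.var 1))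
      · exact UR.ball (R := fun N π w => H83.AC.app (w 1) π = H83.AC.one) (UF.nd (UF.var 0))
          (UR.eq (UF.app (UF.var 2) (UF.var 0)) UF.one)
    · intro N _ v _
      exact Subrelation.wf (fun {a b} h => rank_nd_lt h)
        (InvImage.wf (fun x : N => rank (x : ZFSet)) wellFounded_lt)
    · intro N _ v _ x _
      have key : H83.AC.HS N x ↔ ((∀ t ∈ x, t = ZFSet.pair (H83.AC.fst t) (H83.AC.snd t) ∧
          H83.AC.snd t ∈ H83.AC.Cond) ∧ (∃ m ∈ ZFSet.omega, H83.AC.Supp N m x) ∧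
          ∀ π ∈ H83.AC.nd x, H83.AC.app (H83.AC.fgr (F N v) (H83.AC.nd x)) π = H83.AC.one) := by
        rw [HS_iff']
        refine and_congr Iff.rfl (and_congr Iff.rfl ?_)
        refine forall_congr' fun π => forall_congr' fun hπ => ?_
        rw [app_fgr hπ, hone N v]
      by_cases h : H83.AC.HS N x
      · simp only [F, G, if_pos h]
        rw [if_pos (key.1 h)]
      · simp only [F, G, if_neg h]
        rw [if_neg (fun h' => h (key.2 h'))]
  exact (UR.eq hU UF.one).congr fun N _ v _ => (hone N (sh v) (v 0)).symm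

instance Inst.Supp [hf : UF f] [hg : UF g] :
    UR (fun N v => H83.AC.Supp N (f N v) (g N v)) := UR.Supp hf hg
instance Inst.HS [hf : UF f] : UR (fun N v => H83.AC.HS N (f N v)) := UR.HS hf

end H83.AC
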