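import Pool.Agent.H83.AC.ActA
import Pool.Agent.H83.AC.HSU

/-!
# Module ActF: the forcing relation is invariant under the action

`Sub_act`: by induction on `max (rank σ) (rank τ)` (the ranks are preserved by `actN z`, or do the
induction on `σ, τ` only): `Sub p σ τ → Sub (actC z p) (actN z σ) (actN z τ)`; an element of
`actN z σ` is `pair (actN z π) (actC z r)` with `pair π r ∈ σ`; for `q ⊇ actC z p, actC z r` apply the
hypothesis to `actC z q` (`actC_actC`, `actC_mono`).
`Fc_act` by induction on `φ` for names `v`; for `all`: `σ ∈ M`, `HS M σ` gives `actN z σ ∈ M`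
(`UF.actN` and `TM M`, `z ∈ M`), `HS_actN`, and `actN z (actN z σ) = σ`.
-/

namespace H83.AC

open ZFSet

private theorem ActF_sub (z : ZFSet.{0}) : ∀ o : Ordinal.{0}, ∀ p σ τ : ZFSet.{0},
    max (rank σ) (rank τ) = o → p ∈ Cond → IsName σ → IsName τ → Sub p σ τ →
    Sub (actC z p) (actN z σ) (actN z τ) := by
  intro o
  induction o using WellFoundedLT.induction with
  | _ o ih =>
    intro p σ τ ho hp hσ hτ h
    rw [Sub]
    intro π' r' hm hr' q hq hpq hrq
    obtain ⟨π, r, hr, hπr, e⟩ := mem_actN.1 hm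
    obtain ⟨rfl, rfl⟩ := pair_inj.1 e
    have hp' : p ⊆ actC z q := by
      have h1 := actC_mono (z := z) hpq
      rwa [actC_actC hp] at h1
    have hr'' : r ⊆ actC z q := by
      have h1 := actC_mono (z := z) hrq
      rwa [actC_actC hr] at h1
    rw [Sub] at h
    obtain ⟨q', hq', hqq', ρ, s, hρ, hs, hsq, h1, h2⟩ :=
      h π r hπr hr (actC z q) (actC_cond hq) hp' hr''
    have hπN : IsName π := (isName_iff.1 hσ).2 π (mem_nd.2 ⟨r, hr, hπr⟩)
    have hρN : IsName ρ := (isName_iff.1 hτ).2 ρ (mem_nd.2 ⟨s, hs, hρ⟩)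
    have hl1 : max (rank π) (rank ρ) < o := by
      rw [← ho]
      exact max_lt ((rank_fst_lt hπr).trans_le (le_max_left _ _))
        ((rank_fst_lt hρ).trans_le (le_max_right _ _))
    have hl2 : max (rank ρ) (rank π) < o := by
      rw [max_comm]
      exact hl1
    refine ⟨actC z q', actC_cond hq', ?_, actN z ρ, actC z s, ?_, actC_cond hs, actC_mono hsq,
      ?_, ?_⟩
    · have h3 := actC_mono (z := z) hqq'
      rwa [actC_actC hq] at h3
    · exact mem_actN.2 ⟨ρ, s, hs, hρ, rfl⟩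
    · exact ih _ hl1 q' π ρ rfl hq' hπN hρN h1
    · exact ih _ hl2 q' ρ π rfl hq' hρN hπN h2

theorem Sub_act {z p σ τ : ZFSet.{0}} (hp : p ∈ Cond) (hσ : IsName σ) (hτ : IsName τ)
    (h : Sub p σ τ) : Sub (actC z p) (actN z σ) (actN z τ) :=
  ActF_sub z _ p σ τ rfl hp hσ hτ h

theorem FEq_act {z p σ τ : ZFSet.{0}} (hp : p ∈ Cond) (hσ : IsName σ) (hτ : IsName τ)
    (h : FEq p σ τ) : FEq (actC z p) (actN z σ) (actN z τ) :=
  ⟨Sub_act hp hσ hτ h.1, Sub_act hp hτ hσ h.2⟩

theorem FMem_act {z p σ τ : ZFSet.{0}} (hp : p ∈ Cond) (hσ : IsName σ) (hτ : IsName τ)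
    (h : FMem p σ τ) : FMem (actC z p) (actN z σ) (actN z τ) := by
  intro q hq hpq
  have hp' : p ⊆ actC z q := by
    have h1 := actC_mono (z := z) hpq
    rwa [actC_actC hp] at h1
  obtain ⟨q', hq', hqq', ρ, s, hρ, hs, hsq, h1⟩ := h (actC z q) (actC_cond hq) hp'
  have hρN : IsName ρ := (isName_iff.1 hτ).2 ρ (mem_nd.2 ⟨s, hs, hρ⟩)
  refine ⟨actC z q', actC_cond hq', ?_, actN z ρ, actC z s, ?_, actC_cond hs, actC_mono hsq,
    FEq_act hq' hσ hρN h1⟩
  · have h3 := actC_mono (z := z) hqq'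
    rwa [actC_actC hq] at h3
  · exact mem_actN.2 ⟨ρ, s, hs, hρ, rfl⟩

theorem Fc_act {M : Set ZFSet.{0}} (hM : TM M) {z : ZFSet.{0}} (hz : z ∈ M) (φ : Fml)
    {p : ZFSet.{0}} (hp : p ∈ Cond) {v : ℕ → ZFSet.{0}} (hv : ∀ i, v i ∈ M ∧ HS M (v i))
    (h : Fc M φ p v) : Fc M φ (actC z p) (fun i => actN z (v i)) := by
  have hm : ∀ σ ∈ M, actN z σ ∈ M := by
    intro σ hσ
    refine (UF.actN (UF.var 0) (UF.var 1)).mem M hM (cons z (fun _ => σ)) fun n => ?_
    cases n with
    | zero => exact hz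
    | succ n => exact hσ
  have hinv : ∀ w : ℕ → ZFSet.{0}, (∀ i, w i ∈ M ∧ HS M (w i)) →
      (fun i => actN z (actN z (w i))) = w := by
    intro w hw
    funext i
    exact actN_actN (hw i).2.isName
  have hact : ∀ w : ℕ → ZFSet.{0}, (∀ i, w i ∈ M ∧ HS M (w i)) →
      ∀ i, actN z (w i) ∈ M ∧ HS M (actN z (w i)) :=
    fun w hw i => ⟨hm _ (hw i).1, HS_actN (hw i).2⟩
  induction φ generalizing p v with
  | bot => exact h
  | eq i j => exact FEq_act hp (hv i).2.isName (hv j).2.isName h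
  | mem i j => exact FMem_act hp (hv i).2.isName (hv j).2.isName h
  | imp φ ψ h1 h2 =>
    intro q hq hpq hφ
    have hp' : p ⊆ actC z q := by
      have h3 := actC_mono (z := z) hpq
      rwa [actC_actC hp] at h3
    have h3 := h1 (p := q) hq (v := fun i => actN z (v i)) (hact v hv) hφ
    rw [hinv v hv] at h3
    have h4 := h2 (p := actC z q) (actC_cond hq) (v := v) hv (h (actC z q) (actC_cond hq) hp' h3)
    rw [actC_actC hq] at h4
    exact h4
  | all φ ih =>
    intro σ hσ hs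
    have hs' : HS M (actN z σ) := HS_actN hs
    have h3 := ih (p := p) hp (v := cons (actN z σ) v) (by
      intro i
      cases i with
      | zero => exact ⟨hm σ hσ, hs'⟩
      | succ i => exact hv i) (h (actN z σ) (hm σ hσ) hs')
    have e : (fun i => actN z (cons (actN z σ) v i)) = cons σ (fun i => actN z (v i)) := by
      funext i
      cases i with
      | zero => exact actN_actN hs.isName
      | succ i => rfl
    rw [e] at h3
    exact h3

end H83.AC
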