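import Pool.Agent.H83.AC.NdU

/-!
# Module SubU: the forcing relation for atomic formulas is uniformly definable

Recursion on pairs: for `x = pair σ τ` let `pred x = prod (nd σ ∪ nd τ) (nd σ ∪ nd τ)` (with
`σ = fst x`, `τ = snd x`; well-founded: `max (rank (fst x)) (rank (snd x))` drops; careful: if `x`
is not a pair then `fst x = snd x = ∅` and there are no predecessors), and
`F x = sep (fun p => Sub p (fst x) (snd x)) Cond`. The recursion equation: unfold `Sub` once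
(`rw [Sub]`), and replace `Sub q' π ρ` by `q' ∈ app f (pair π ρ)` (`π ∈ nd σ`, `ρ ∈ nd τ`; quantify
over `π ∈ nd σ`, `r ∈ Cond`, `ρ ∈ nd τ`, `s ∈ Cond`). `UF.recur` gives `UF F`, and for `p ∈ Cond`:
`Sub p σ τ ↔ p ∈ F (pair σ τ)`; for arbitrary `p` the relation is
`p ∈ Cond ∧ Sub p σ τ` (this is what is stated).
-/

namespace H83.AC

open ZFSet

variable {f g h : Set ZFSet.{0} → (ℕ → ZFSet.{0}) → ZFSet.{0}}

/-- the body of the recursion -/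
private def SubU_B (f p σ τ : ZFSet.{0}) : Prop :=
  ∀ π ∈ nd σ, ∀ r ∈ Cond, pair π r ∈ σ → ∀ q ∈ Cond, p ⊆ q → r ⊆ q →
    ∃ q' ∈ Cond, q ⊆ q' ∧ ∃ ρ ∈ nd τ, ∃ s ∈ Cond, pair ρ s ∈ τ ∧ s ⊆ q' ∧
      q' ∈ H83.AC.app f (pair π ρ) ∧ q' ∈ H83.AC.app f (pair ρ π)

private noncomputable def SubU_G (x f : ZFSet.{0}) : ZFSet.{0} :=
  ZFSet.sep (fun p => SubU_B f p (fst x) (snd x)) Cond

private noncomputable def SubU_F (x : ZFSet.{0}) : ZFSet.{0} :=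
  ZFSet.sep (fun p => H83.AC.Sub p (fst x) (snd x)) Cond

private noncomputable def SubU_P (x : ZFSet.{0}) : ZFSet.{0} :=
  ZFSet.prod (nd (fst x) ∪ nd (snd x)) (nd (fst x) ∪ nd (snd x))

private theorem SubU_mem {x π ρ : ZFSet.{0}} (hπ : π ∈ nd (fst x) ∪ nd (snd x))
    (hρ : ρ ∈ nd (fst x) ∪ nd (snd x)) : pair π ρ ∈ SubU_P x := by
  rw [SubU_P, ZFSet.mem_prod]
  exact ⟨π, hπ, ρ, hρ, rfl⟩

private theorem SubU_app {x π ρ q : ZFSet.{0}} (hπ : π ∈ nd (fst x) ∪ nd (snd x))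
    (hρ : ρ ∈ nd (fst x) ∪ nd (snd x)) (hq : q ∈ Cond) :
    q ∈ H83.AC.app (H83.AC.fgr SubU_F (SubU_P x)) (pair π ρ) ↔ H83.AC.Sub q π ρ := by
  rw [app_fgr (SubU_mem hπ hρ), SubU_F, mem_sep, fst_pair, snd_pair]
  exact ⟨fun h => h.2, fun h => ⟨hq, h⟩⟩

private theorem SubU_eq (x : ZFSet.{0}) :
    SubU_F x = SubU_G x (H83.AC.fgr SubU_F (SubU_P x)) := by
  ext p
  rw [SubU_F, SubU_G, mem_sep, mem_sep]
  refine and_congr_right fun _ => ?_
  rw [H83.AC.Sub, SubU_B]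
  constructor
  · intro H π hπ r hr hπr q hq hpq hrq
    obtain ⟨q', hq', hqq, ρ, s, hρ, hs, hsq, h1, h2⟩ := H π r hπr hr q hq hpq hrq
    have hρ' : ρ ∈ nd (snd x) := mem_nd.2 ⟨s, hs, hρ⟩
    refine ⟨q', hq', hqq, ρ, hρ', s, hs, hρ, hsq, ?_, ?_⟩
    · exact (SubU_app (ZFSet.mem_union.2 (Or.inl hπ)) (ZFSet.mem_union.2 (Or.inr hρ')) hq').2 h1
    · exact (SubU_app (ZFSet.mem_union.2 (Or.inr hρ')) (ZFSet.mem_union.2 (Or.inl hπ)) hq').2 h2
  · intro H π r hπr hr q hq hpq hrq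
    have hπ : π ∈ nd (fst x) := mem_nd.2 ⟨r, hr, hπr⟩
    obtain ⟨q', hq', hqq, ρ, hρ', s, hs, hρ, hsq, h1, h2⟩ := H π hπ r hr hπr q hq hpq hrq
    refine ⟨q', hq', hqq, ρ, s, hρ, hs, hsq, ?_, ?_⟩
    · exact (SubU_app (ZFSet.mem_union.2 (Or.inl hπ)) (ZFSet.mem_union.2 (Or.inr hρ')) hq').1 h1
    · exact (SubU_app (ZFSet.mem_union.2 (Or.inr hρ')) (ZFSet.mem_union.2 (Or.inl hπ)) hq').1 h2

private theorem SubU_lt {x y : ZFSet.{0}} (hy : y ∈ SubU_P x) :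
    max (rank (fst y)) (rank (snd y)) < max (rank (fst x)) (rank (snd x)) := by
  rw [SubU_P, ZFSet.mem_prod] at hy
  obtain ⟨a, ha, b, hb, rfl⟩ := hy
  rw [fst_pair, snd_pair]
  have key : ∀ a, a ∈ nd (fst x) ∪ nd (snd x) → rank a < max (rank (fst x)) (rank (snd x)) := by
    intro a ha
    rcases ZFSet.mem_union.1 ha with h | h
    · exact (rank_nd_lt h).trans_le (le_max_left _ _)
    · exact (rank_nd_lt h).trans_le (le_max_right _ _)
  exact max_lt (key a ha) (key b hb)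

private theorem SubU_UF : UF (fun _ v => SubU_F (v 0)) := by
  refine UF.recur (pred := fun _ _ x => SubU_P x) (G := fun _ _ x f => SubU_G x f)
    (F := fun _ _ x => SubU_F x) ?_ ?_ ?_ ?_
  · change UF (fun _ w => ZFSet.prod (nd (fst (w 0)) ∪ nd (snd (w 0)))
      (nd (fst (w 0)) ∪ nd (snd (w 0))))
    (repeat' first
        | apply UF.nd | assumption | exact UF.var _ | exact UD.true | exact UD.false
        | apply UF.empty | apply UF.fgr | apply UF.uni | apply UF.img | apply UF.pow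
        | apply UF.sep | apply UF.pair | apply UF.upair | apply UF.singleton | apply UF.insert
        | apply UF.union | apply UF.inter | apply UF.diff | apply UF.prod | apply UF.sUnion
        | apply UF.app | apply UF.dom | apply UF.rng | apply UF.fst | apply UF.snd | apply UF.ite
        | apply UD.and | apply UD.or | apply UR.ball | apply UR.bex | apply UD.allN | apply UD.exN
        | apply UD.iff | apply UR.mem | apply UR.eq | apply UR.sub | apply UD.not | apply UD.imp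
        | exact UD.prop _)
  · refine UF.sep (R := fun _ p w => SubU_B (w 1) p (fst (w 0)) (snd (w 0))) UF.Cond ?_
    change UR (fun _ w => ∀ π ∈ nd (fst (w 1)), ∀ r ∈ H83.AC.Cond, ZFSet.pair π r ∈ fst (w 1) →
      ∀ q ∈ H83.AC.Cond, w 0 ⊆ q → r ⊆ q →
      ∃ q' ∈ H83.AC.Cond, q ⊆ q' ∧ ∃ ρ ∈ nd (snd (w 1)), ∃ s ∈ H83.AC.Cond,
        ZFSet.pair ρ s ∈ snd (w 1) ∧ s ⊆ q' ∧
        q' ∈ H83.AC.app (w 2) (ZFSet.pair π ρ) ∧ q' ∈ H83.AC.app (w 2) (ZFSet.pair ρ π))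
    (repeat' first
        | apply UF.Cond | apply UF.nd | assumption | exact UF.var _ | exact UD.true
        | exact UD.false | apply UF.empty | apply UF.fgr | apply UF.uni | apply UF.img
        | apply UF.pow | apply UF.sep | apply UF.pair | apply UF.upair | apply UF.singleton
        | apply UF.insert | apply UF.union | apply UF.inter | apply UF.diff | apply UF.prod
        | apply UF.sUnion | apply UF.app | apply UF.dom | apply UF.rng | apply UF.fst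
        | apply UF.snd | apply UF.ite | apply UD.and | apply UD.or | apply UR.ball | apply UR.bex
        | apply UD.allN | apply UD.exN | apply UD.iff | apply UR.mem | apply UR.eq | apply UR.sub
        | apply UD.not | apply UD.imp | exact UD.prop _)
  · intro N _ v _
    refine Subrelation.wf (r := InvImage (fun a b : Ordinal => a < b)
      (fun x : N => max (rank (fst (x : ZFSet))) (rank (snd (x : ZFSet))))) ?_
      (InvImage.wf _ Ordinal.lt_wf)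
    intro y x h
    exact SubU_lt h
  · intro N _ v _ x _
    exact SubU_eq x

theorem UR.Sub (hf : UF f) (hg : UF g) (hh : UF h) :
    UR (fun N v => f N v ∈ Cond ∧ H83.AC.Sub (f N v) (g N v) (h N v)) := by
  have h1 : UF (fun N v => SubU_F (ZFSet.pair (g N v) (h N v))) :=
    UF.comp1 (F := fun _ x => SubU_F x) SubU_UF (UF.pair hg hh)
  refine (UR.mem hf h1).congr fun N _ v _ => ?_
  rw [SubU_F, mem_sep, fst_pair, snd_pair]

theorem UR.FEq (hf : UF f) (hg : UF g) (hh : UF h) :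
    UR (fun N v => f N v ∈ Cond ∧ H83.AC.FEq (f N v) (g N v) (h N v)) := by
  refine ((UR.Sub hf hg hh).and (UR.Sub hf hh hg)).congr fun N _ v _ => ?_
  rw [H83.AC.FEq]
  tauto

theorem UR.FMem (hf : UF f) (hg : UF g) (hh : UF h) :
    UR (fun N v => f N v ∈ Cond ∧ H83.AC.FMem (f N v) (g N v) (h N v)) := by
  have key : UR (fun _ v => v 0 ∈ H83.AC.Cond ∧ ∀ q ∈ H83.AC.Cond, v 0 ⊆ q →
      ∃ q' ∈ H83.AC.Cond, q ⊆ q' ∧ ∃ ρ ∈ H83.AC.nd (v 2), ∃ s ∈ H83.AC.Cond,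
        ZFSet.pair ρ s ∈ v 2 ∧ s ⊆ q' ∧ (q' ∈ H83.AC.Cond ∧ H83.AC.FEq q' (v 1) ρ)) := by
    refine UD.and (UR.mem (UF.var 0) UF.Cond) ?_
    refine UR.ball (R := fun _ q v => v 0 ⊆ q →
      ∃ q' ∈ H83.AC.Cond, q ⊆ q' ∧ ∃ ρ ∈ H83.AC.nd (v 2), ∃ s ∈ H83.AC.Cond,
        ZFSet.pair ρ s ∈ v 2 ∧ s ⊆ q' ∧ (q' ∈ H83.AC.Cond ∧ H83.AC.FEq q' (v 1) ρ)) UF.Cond ?_
    refine UD.imp (UR.sub (UF.var 1) (UF.var 0)) ?_
    refine UR.bex (R := fun _ q' v => v 0 ⊆ q' ∧ ∃ ρ ∈ H83.AC.nd (v 3), ∃ s ∈ H83.AC.Cond,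
        ZFSet.pair ρ s ∈ v 3 ∧ s ⊆ q' ∧ (q' ∈ H83.AC.Cond ∧ H83.AC.FEq q' (v 2) ρ)) UF.Cond ?_
    refine UD.and (UR.sub (UF.var 1) (UF.var 0)) ?_
    refine UR.bex (R := fun _ ρ v => ∃ s ∈ H83.AC.Cond,
        ZFSet.pair ρ s ∈ v 4 ∧ s ⊆ v 0 ∧ (v 0 ∈ H83.AC.Cond ∧ H83.AC.FEq (v 0) (v 3) ρ))
        (UF.nd (UF.var 4)) ?_
    refine UR.bex (R := fun _ s v =>
        ZFSet.pair (v 0) s ∈ v 5 ∧ s ⊆ v 1 ∧ (v 1 ∈ H83.AC.Cond ∧ H83.AC.FEq (v 1) (v 4) (v 0)))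
        UF.Cond ?_
    refine UD.and (UR.mem (UF.pair (UF.var 1) (UF.var 0)) (UF.var 6)) ?_
    refine UD.and (UR.sub (UF.var 0) (UF.var 2)) ?_
    exact UR.FEq (UF.var 2) (UF.var 5) (UF.var 1)
  have h3 := UR.comp3 (R := fun _ p σ τ => p ∈ H83.AC.Cond ∧ ∀ q ∈ H83.AC.Cond, p ⊆ q →
      ∃ q' ∈ H83.AC.Cond, q ⊆ q' ∧ ∃ ρ ∈ H83.AC.nd τ, ∃ s ∈ H83.AC.Cond,
        ZFSet.pair ρ s ∈ τ ∧ s ⊆ q' ∧ (q' ∈ H83.AC.Cond ∧ H83.AC.FEq q' σ ρ)) key hf hg hh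
  refine h3.congr fun N _ v _ => and_congr_right fun _ => ?_
  rw [H83.AC.FMem]
  constructor
  · intro H q hq hpq
    obtain ⟨q', hq', hqq, ρ, s, hρ, hs, hsq, h1⟩ := H q hq hpq
    exact ⟨q', hq', hqq, ρ, mem_nd.2 ⟨s, hs, hρ⟩, s, hs, hρ, hsq, hq', h1⟩
  · intro H q hq hpq
    obtain ⟨q', hq', hqq, ρ, -, s, hs, hρ, hsq, -, h1⟩ := H q hq hpq
    exact ⟨q', hq', hqq, ρ, s, hρ, hs, hsq, h1⟩

end H83.AC
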