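import Pool.Agent.H83.AC.Mono
import Pool.Agent.H83.AC.SubU

/-!
# Module TruthA: the truth lemma for atomic formulas

`mem_val`: unfold `val`. By induction on `max (rank σ) (rank τ)` prove both directions of
`truth_sub`.
(←) `Fits p c`, `Sub p σ τ`, `x ∈ val c σ`: `x = val c π`, `pair π r ∈ σ`, `Fits r c`. Let
`q = p ∪ r`. The set `D` of all `q' ∈ Cond` such that either `q'` is incompatible with `q` (i.e.
`q' ∪ q ∉ Cond`) or `q ⊆ q'` and there are `ρ, s` as in `Sub` is dense and in `M` (`TM.sep_of`,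
`UR.Sub`); a fitting `q' ∈ D` gives `pair ρ s ∈ τ`, `Fits s c`, and `val c π = val c ρ` by the
induction hypothesis, twice.
(→) Suppose `val c σ ⊆ val c τ`. The set `D` of all `q ∈ Cond` with `Sub q σ τ`, or such that for some
`pair π r ∈ σ`, `r ⊆ q` and no `q' ⊇ q` has `ρ, s` with `pair ρ s ∈ τ`, `s ⊆ q'`, `Sub q' π ρ`,
`Sub q' ρ π`, is dense and in `M`. In the second case `val c π ∈ val c σ ⊆ val c τ`, so
`val c π = val c ρ` with `pair ρ s ∈ τ`, `Fits s c`; by the induction hypothesis (→) some fitting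
conditions force both inclusions; their union with `q` and `s` is a contradiction.
`truth_mem` from `truth_sub` in the same way.
-/

namespace H83.AC

open ZFSet

theorem mem_val {c : Set ZFSet.{0}} {σ x : ZFSet.{0}} :
    x ∈ val c σ ↔ ∃ π p, p ∈ Cond ∧ Fits p c ∧ pair π p ∈ σ ∧ x = val c π := by
  rw [val, mem_range]
  constructor
  · rintro ⟨⟨π, hπ⟩, rfl⟩
    obtain ⟨p, h1, h2, h3⟩ := mem_ndc.1 hπ
    exact ⟨π, p, h1, h2, h3, rfl⟩
  · rintro ⟨π, p, h1, h2, h3, rfl⟩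
    exact ⟨⟨π, mem_ndc.2 ⟨p, h1, h2, h3⟩⟩, rfl⟩

/-- a set of conditions which is dense below a fitting condition contains a fitting condition -/
theorem gen_meet {M c : Set ZFSet.{0}} (hM : TM M) (hc : Gen M c) {D p : ZFSet.{0}} (hD : D ∈ M)
    (hDC : D ⊆ Cond) (hp : p ∈ Cond) (hpc : Fits p c)
    (hd : ∀ q ∈ Cond, p ⊆ q → ∃ r ∈ D, q ⊆ r) : ∃ q ∈ D, p ⊆ q ∧ Fits q c := by
  have hCM : Cond ∈ M := UF.Cond.mem M hM (fun _ => D) (fun _ => hD)
  have hpM : p ∈ M := hM.tr _ hCM p hp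
  let D1 : ZFSet.{0} := ZFSet.sep (fun q => (q ∈ D ∧ p ⊆ q) ∨ ¬ (q ∪ p ∈ Cond)) Cond
  have hD1 : D1 ∈ M := by
    have h : UF (fun N v => ZFSet.sep (fun q => (q ∈ v 0 ∧ v 1 ⊆ q) ∨ ¬ (q ∪ v 1 ∈ Cond)) Cond) := by
      (repeat' first
          | apply UF.Cond | assumption | exact UF.var _ | exact UD.true | exact UD.false
          | apply UF.empty | apply UF.fgr | apply UF.uni | apply UF.img | apply UF.pow
          | apply UF.sep | apply UF.pair | apply UF.upair | apply UF.singleton | apply UF.insert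
          | apply UF.union | apply UF.inter | apply UF.diff | apply UF.prod | apply UF.sUnion
          | apply UF.app | apply UF.dom | apply UF.rng | apply UF.fst | apply UF.snd
          | apply UF.ite | apply UD.and | apply UD.or | apply UR.ball | apply UR.bex
          | apply UD.allN | apply UD.exN | apply UD.iff | apply UR.mem | apply UR.eq
          | apply UR.sub | apply UD.not | apply UD.imp | exact UD.prop _)
    exact h.mem M hM (cons D (fun _ => p)) (fun n => by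
      cases n with
      | zero => exact hD
      | succ n => exact hpM)
  have hdense : Dense D1 := by
    refine ⟨fun q hq => (mem_sep.1 hq).1, fun q hq => ?_⟩
    by_cases h : q ∪ p ∈ Cond
    · obtain ⟨r, hr, hqr⟩ := hd _ h (fun t ht => mem_union.2 (Or.inr ht))
      refine ⟨r, mem_sep.2 ⟨hDC hr, Or.inl ⟨hr, fun t ht => hqr (mem_union.2 (Or.inr ht))⟩⟩,
        fun t ht => hqr (mem_union.2 (Or.inl ht))⟩
    · exact ⟨q, mem_sep.2 ⟨hq, Or.inr h⟩, fun t ht => ht⟩
  obtain ⟨q, hq, hqc⟩ := hc.2 D1 hD1 hdense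
  obtain ⟨hqC, h⟩ := mem_sep.1 hq
  rcases h with h | h
  · exact ⟨q, h.1, h.2, hqc⟩
  · exact absurd (union_fits hqC hp hqc hpc).1 h

theorem truth_sub {M c : Set ZFSet.{0}} (hM : TM M) (hc : Gen M c) {σ τ : ZFSet.{0}} (hσ : σ ∈ M)
    (hτ : τ ∈ M) : val c σ ⊆ val c τ ↔ ∃ p ∈ Cond, Fits p c ∧ Sub p σ τ := by
  have key : ∀ (α : Ordinal.{0}) (σ τ : ZFSet.{0}), max (rank σ) (rank τ) = α → σ ∈ M → τ ∈ M →
      (val c σ ⊆ val c τ ↔ ∃ p ∈ Cond, Fits p c ∧ Sub p σ τ) := by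
    intro α
    induction α using WellFoundedLT.induction with
    | _ α ih =>
    intro σ τ hα hσ hτ
    have hfst : ∀ {σ π r : ZFSet.{0}}, σ ∈ M → pair π r ∈ σ → π ∈ M := by
      intro σ π r hσ h
      have h1 := hM.tr σ hσ _ h
      exact hM.tr _ (hM.tr _ h1 {π} (by rw [pair]; simp)) π (by simp)
    have ih1 : ∀ {π r ρ s : ZFSet.{0}}, pair π r ∈ σ → pair ρ s ∈ τ →
        (val c π ⊆ val c ρ ↔ ∃ p ∈ Cond, Fits p c ∧ Sub p π ρ) := by
      intro π r ρ s h1 h2
      refine ih (max (rank π) (rank ρ)) ?_ π ρ rfl (hfst hσ h1) (hfst hτ h2)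
      rw [← hα]
      exact max_lt ((rank_fst_lt h1).trans_le (le_max_left _ _))
        ((rank_fst_lt h2).trans_le (le_max_right _ _))
    have ih2 : ∀ {π r ρ s : ZFSet.{0}}, pair π r ∈ σ → pair ρ s ∈ τ →
        (val c ρ ⊆ val c π ↔ ∃ p ∈ Cond, Fits p c ∧ Sub p ρ π) := by
      intro π r ρ s h1 h2
      refine ih (max (rank ρ) (rank π)) ?_ ρ π rfl (hfst hτ h2) (hfst hσ h1)
      rw [← hα]
      exact max_lt ((rank_fst_lt h2).trans_le (le_max_right _ _))
        ((rank_fst_lt h1).trans_le (le_max_left _ _))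
    constructor
    · intro hsub
      let D : ZFSet.{0} := ZFSet.sep (fun q => (q ∈ Cond ∧ Sub q σ τ) ∨
        ∃ π ∈ nd σ, ∃ r ∈ Cond, pair π r ∈ σ ∧ r ⊆ q ∧ ∀ q' ∈ Cond, q ⊆ q' →
          ¬ ∃ ρ ∈ nd τ, ∃ s ∈ Cond, pair ρ s ∈ τ ∧ s ⊆ q' ∧ (q' ∈ Cond ∧ Sub q' π ρ) ∧
            (q' ∈ Cond ∧ Sub q' ρ π)) Cond
      have hD : D ∈ M := by
        have h : UF (fun N v => ZFSet.sep (fun q => (q ∈ Cond ∧ Sub q (v 0) (v 1)) ∨
            ∃ π ∈ nd (v 0), ∃ r ∈ Cond, pair π r ∈ (v 0) ∧ r ⊆ q ∧ ∀ q' ∈ Cond, q ⊆ q' →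
            ¬ ∃ ρ ∈ nd (v 1), ∃ s ∈ Cond, pair ρ s ∈ (v 1) ∧ s ⊆ q' ∧ (q' ∈ Cond ∧ Sub q' π ρ) ∧
            (q' ∈ Cond ∧ Sub q' ρ π)) Cond) := by
          (repeat' first
              | apply UR.Sub | apply UF.Cond | apply UF.nd | assumption | exact UF.var _
              | exact UD.true | exact UD.false | apply UF.empty | apply UF.fgr | apply UF.uni
              | apply UF.img | apply UF.pow | apply UF.sep | apply UF.pair | apply UF.upair
              | apply UF.singleton | apply UF.insert | apply UF.union | apply UF.inter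
              | apply UF.diff | apply UF.prod | apply UF.sUnion | apply UF.app | apply UF.dom
              | apply UF.rng | apply UF.fst | apply UF.snd | apply UF.ite | apply UD.and
              | apply UD.or | apply UR.ball | apply UR.bex | apply UD.allN | apply UD.exN
              | apply UD.iff | apply UR.mem | apply UR.eq | apply UR.sub | apply UD.not
              | apply UD.imp | exact UD.prop _)
        exact h.mem M hM (cons σ (fun _ => τ)) (fun n => by
          cases n with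
          | zero => exact hσ
          | succ n => exact hτ)
      have hdense : Dense D := by
        refine ⟨fun q hq => (mem_sep.1 hq).1, fun p hp => ?_⟩
        by_cases h : Sub p σ τ
        · exact ⟨p, mem_sep.2 ⟨hp, Or.inl ⟨hp, h⟩⟩, fun t ht => ht⟩
        · rw [Sub] at h
          push Not at h
          obtain ⟨π, r, h1, h2, q, h3, h4, h5, h6⟩ := h
          refine ⟨q, mem_sep.2 ⟨h3, Or.inr ⟨π, mem_nd.2 ⟨r, h2, h1⟩, r, h2, h1, h5, ?_⟩⟩, h4⟩
          rintro q' hq' hqq' ⟨ρ, -, s, hs, h7, h8, h9, h10⟩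
          exact h6 q' hq' hqq' ρ s h7 hs h8 h9.2 h10.2
      obtain ⟨q, hq, hqc⟩ := hc.2 D hD hdense
      obtain ⟨hqC, h⟩ := mem_sep.1 hq
      rcases h with h | ⟨π, -, r, hr, h1, h2, h3⟩
      · exact ⟨q, hqC, hqc, h.2⟩
      · exfalso
        have hrc : Fits r c := fits_sub hqc h2
        obtain ⟨ρ, s, hs, hsc, h4, h5⟩ := mem_val.1 (hsub (mem_val.2 ⟨π, r, hr, hrc, h1, rfl⟩))
        obtain ⟨p1, h6, h7, h8⟩ := (ih1 h1 h4).1 (by rw [h5])
        obtain ⟨p2, h9, h10, h11⟩ := (ih2 h1 h4).1 (by rw [h5])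
        obtain ⟨a1, a2⟩ := union_fits hqC hs hqc hsc
        obtain ⟨a3, a4⟩ := union_fits h6 h9 h7 h10
        obtain ⟨a5, a6⟩ := union_fits a1 a3 a2 a4
        refine h3 _ a5 (fun t ht => mem_union.2 (Or.inl (mem_union.2 (Or.inl ht)))) ⟨ρ,
          mem_nd.2 ⟨s, hs, h4⟩, s, hs, h4,
          fun t ht => mem_union.2 (Or.inl (mem_union.2 (Or.inr ht))),
          ⟨a5, Sub_mono (fun t ht => mem_union.2 (Or.inr (mem_union.2 (Or.inl ht)))) h8⟩,
          ⟨a5, Sub_mono (fun t ht => mem_union.2 (Or.inr (mem_union.2 (Or.inr ht)))) h11⟩⟩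
    · rintro ⟨p, hp, hpc, hs⟩ x hx
      obtain ⟨π, r, hr, hrc, h1, rfl⟩ := mem_val.1 hx
      obtain ⟨b1, b2⟩ := union_fits hp hr hpc hrc
      let D : ZFSet.{0} := ZFSet.sep (fun q' => ∃ ρ ∈ nd τ, ∃ s ∈ Cond, pair ρ s ∈ τ ∧ s ⊆ q' ∧
        (q' ∈ Cond ∧ Sub q' π ρ) ∧ (q' ∈ Cond ∧ Sub q' ρ π)) Cond
      have hD : D ∈ M := by
        have h : UF (fun N v => ZFSet.sep (fun q' => ∃ ρ ∈ nd (v 1), ∃ s ∈ Cond,
            pair ρ s ∈ (v 1) ∧ s ⊆ q' ∧
            (q' ∈ Cond ∧ Sub q' (v 0) ρ) ∧ (q' ∈ Cond ∧ Sub q' ρ (v 0))) Cond) := by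
          (repeat' first
              | apply UR.Sub | apply UF.Cond | apply UF.nd | assumption | exact UF.var _
              | exact UD.true | exact UD.false | apply UF.empty | apply UF.fgr | apply UF.uni
              | apply UF.img | apply UF.pow | apply UF.sep | apply UF.pair | apply UF.upair
              | apply UF.singleton | apply UF.insert | apply UF.union | apply UF.inter
              | apply UF.diff | apply UF.prod | apply UF.sUnion | apply UF.app | apply UF.dom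
              | apply UF.rng | apply UF.fst | apply UF.snd | apply UF.ite | apply UD.and
              | apply UD.or | apply UR.ball | apply UR.bex | apply UD.allN | apply UD.exN
              | apply UD.iff | apply UR.mem | apply UR.eq | apply UR.sub | apply UD.not
              | apply UD.imp | exact UD.prop _)
        exact h.mem M hM (cons π (fun _ => τ)) (fun n => by
          cases n with
          | zero => exact hfst hσ h1
          | succ n => exact hτ)
      obtain ⟨q', hq', -, hqc'⟩ := gen_meet hM hc hD (fun q hq => (mem_sep.1 hq).1) b1 b2 (by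
        intro q hq hpq
        rw [Sub] at hs
        obtain ⟨q', a1, a2, ρ, s, a3, a4, a5, a6, a7⟩ := hs π r h1 hr q hq
          (fun t ht => hpq (mem_union.2 (Or.inl ht))) (fun t ht => hpq (mem_union.2 (Or.inr ht)))
        exact ⟨q', mem_sep.2 ⟨a1, ρ, mem_nd.2 ⟨s, a4, a3⟩, s, a4, a3, a5, ⟨a1, a6⟩, ⟨a1, a7⟩⟩, a2⟩)
      obtain ⟨hqC, ρ, -, s, h3, h4, h5, h6, h7⟩ := mem_sep.1 hq'
      refine mem_val.2 ⟨ρ, s, h3, fits_sub hqc' h5, h4, ?_⟩
      exact le_antisymm ((ih1 h1 h4).2 ⟨q', hqC, hqc', h6.2⟩) ((ih2 h1 h4).2 ⟨q', hqC, hqc', h7.2⟩)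
  exact key _ σ τ rfl hσ hτ

theorem truth_eq {M c : Set ZFSet.{0}} (hM : TM M) (hc : Gen M c) {σ τ : ZFSet.{0}} (hσ : σ ∈ M)
    (hτ : τ ∈ M) : val c σ = val c τ ↔ ∃ p ∈ Cond, Fits p c ∧ FEq p σ τ := by
  constructor
  · intro h
    obtain ⟨p, h1, h2, h3⟩ := (truth_sub hM hc hσ hτ).1 (by rw [h])
    obtain ⟨q, h4, h5, h6⟩ := (truth_sub hM hc hτ hσ).1 (by rw [h])
    obtain ⟨a1, a2⟩ := union_fits h1 h4 h2 h5
    exact ⟨_, a1, a2, Sub_mono (fun t ht => mem_union.2 (Or.inl ht)) h3,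
      Sub_mono (fun t ht => mem_union.2 (Or.inr ht)) h6⟩
  · rintro ⟨p, h1, h2, h3, h4⟩
    exact le_antisymm ((truth_sub hM hc hσ hτ).2 ⟨p, h1, h2, h3⟩)
      ((truth_sub hM hc hτ hσ).2 ⟨p, h1, h2, h4⟩)

theorem truth_mem {M c : Set ZFSet.{0}} (hM : TM M) (hc : Gen M c) {σ τ : ZFSet.{0}} (hσ : σ ∈ M)
    (hτ : τ ∈ M) : val c σ ∈ val c τ ↔ ∃ p ∈ Cond, Fits p c ∧ FMem p σ τ := by
  have hfst : ∀ {σ π r : ZFSet.{0}}, σ ∈ M → pair π r ∈ σ → π ∈ M := by
    intro σ π r hσ h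
    have h1 := hM.tr σ hσ _ h
    exact hM.tr _ (hM.tr _ h1 {π} (by rw [pair]; simp)) π (by simp)
  constructor
  · intro h
    obtain ⟨ρ, s, h1, h2, h3, h4⟩ := mem_val.1 h
    obtain ⟨p, h5, h6, h7⟩ := (truth_eq hM hc hσ (hfst hτ h3)).1 h4
    obtain ⟨a1, a2⟩ := union_fits h5 h1 h6 h2
    refine ⟨_, a1, a2, fun q hq hpq => ⟨q, hq, fun t ht => ht, ρ, s, h3, h1,
      fun t ht => hpq (mem_union.2 (Or.inr ht)),
      FEq_mono (fun t ht => hpq (mem_union.2 (Or.inl ht))) h7⟩⟩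
  · rintro ⟨p, hp, hpc, hm⟩
    let D : ZFSet.{0} := ZFSet.sep (fun q' => ∃ ρ ∈ nd τ, ∃ s ∈ Cond, pair ρ s ∈ τ ∧ s ⊆ q' ∧
      (q' ∈ Cond ∧ FEq q' σ ρ)) Cond
    have hD : D ∈ M := by
      have h : UF (fun N v => ZFSet.sep (fun q' => ∃ ρ ∈ nd (v 1), ∃ s ∈ Cond,
          pair ρ s ∈ (v 1) ∧ s ⊆ q' ∧ (q' ∈ Cond ∧ FEq q' (v 0) ρ)) Cond) := by
        (repeat' first
            | apply UR.FEq | apply UF.Cond | apply UF.nd | assumption | exact UF.var _
            | exact UD.true | exact UD.false | apply UF.empty | apply UF.fgr | apply UF.uni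
            | apply UF.img | apply UF.pow | apply UF.sep | apply UF.pair | apply UF.upair
            | apply UF.singleton | apply UF.insert | apply UF.union | apply UF.inter
            | apply UF.diff | apply UF.prod | apply UF.sUnion | apply UF.app | apply UF.dom
            | apply UF.rng | apply UF.fst | apply UF.snd | apply UF.ite | apply UD.and
            | apply UD.or | apply UR.ball | apply UR.bex | apply UD.allN | apply UD.exN
            | apply UD.iff | apply UR.mem | apply UR.eq | apply UR.sub | apply UD.not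
            | apply UD.imp | exact UD.prop _)
      exact h.mem M hM (cons σ (fun _ => τ)) (fun n => by
        cases n with
        | zero => exact hσ
        | succ n => exact hτ)
    obtain ⟨q', hq', -, hqc'⟩ := gen_meet hM hc hD (fun q hq => (mem_sep.1 hq).1) hp hpc (by
      intro q hq hpq
      obtain ⟨q', a1, a2, ρ, s, a3, a4, a5, a6⟩ := hm q hq hpq
      exact ⟨q', mem_sep.2 ⟨a1, ρ, mem_nd.2 ⟨s, a4, a3⟩, s, a4, a3, a5, ⟨a1, a6⟩⟩, a2⟩)
    obtain ⟨hqC, ρ, -, s, h3, h4, h5, h6⟩ := mem_sep.1 hq'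
    exact mem_val.2 ⟨ρ, s, h3, fits_sub hqc' h5, h4,
      (truth_eq hM hc hσ (hfst hτ h4)).2 ⟨q', hqC, hqc', h6.2⟩⟩

end H83.AC
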