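import Pool.Agent.H83.AC.ActA
import Pool.Agent.H83.AC.TruthA

/-!
# Module ActV: the action and generic sets

`val_sd`: induction on `rank σ` with `mem_val`, `mem_actN`, `fits_sd`.
`gen_sd`: if `D ∈ M` is dense, so is `img (actC z) D ∈ M` (`TM.img_of`, `UF.actC`).
`NN_sd`: from `val_sd` and `HS_actN` (`actN z σ ∈ M` by `UF.actN`).
-/

namespace H83.AC

open ZFSet

private theorem ndInd' {P : ZFSet.{0} → Prop} (h : ∀ σ, (∀ π ∈ nd σ, P π) → P σ)
    (σ : ZFSet.{0}) : P σ := by
  have key : ∀ o : Ordinal.{0}, ∀ σ : ZFSet.{0}, rank σ = o → P σ := by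
    intro o
    induction o using WellFoundedLT.induction with
    | ind o ih =>
      intro σ hσ
      exact h σ fun π hπ => ih (rank π) (hσ ▸ rank_nd_lt hπ) π rfl
  exact key _ σ rfl

theorem val_sd {c : Set ZFSet.{0}} {z σ : ZFSet.{0}} (h : IsName σ) :
    val (sd c z) (actN z σ) = val c σ := by
  induction σ using ndInd' with
  | h σ ih =>
    rw [isName_iff] at h
    ext x
    rw [mem_val, mem_val]
    constructor
    · rintro ⟨π, p, -, hf, hp, rfl⟩
      obtain ⟨ρ, q, hq, hρ, e⟩ := mem_actN.1 hp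
      obtain ⟨rfl, rfl⟩ := pair_injective e
      have hn : ρ ∈ nd σ := mem_nd.2 ⟨q, hq, hρ⟩
      exact ⟨ρ, q, hq, (fits_sd hq).1 hf, hρ, ih ρ hn (h.2 ρ hn)⟩
    · rintro ⟨ρ, q, hq, hf, hρ, rfl⟩
      have hn : ρ ∈ nd σ := mem_nd.2 ⟨q, hq, hρ⟩
      exact ⟨actN z ρ, actC z q, actC_cond hq, (fits_sd hq).2 hf,
        mem_actN.2 ⟨ρ, q, hq, hρ, rfl⟩, (ih ρ hn (h.2 ρ hn)).symm⟩

theorem gen_sd {M c : Set ZFSet.{0}} (hM : TM M) {z : ZFSet.{0}} (hz : z ∈ M) (hzI : z ⊆ Idx)
    (hc : Gen M c) : Gen M (sd c z) := by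
  refine ⟨fun a ha => ?_, fun D hD hd => ?_⟩
  · rcases ha with ha | ha
    · exact hc.1 a ha.1
    · exact hzI ha.2
  · have hD' : img (actC z) D ∈ M := by
      have : UF (fun N v => img (fun y => actC (v 0) y) (v 1)) := by (repeat' first
          | apply UF.actC | assumption | exact UF.var _ | exact UD.true | exact UD.false
          | apply UF.empty | apply UF.fgr | apply UF.uni | apply UF.img | apply UF.pow
          | apply UF.sep | apply UF.pair | apply UF.upair | apply UF.singleton | apply UF.insert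
          | apply UF.union | apply UF.inter | apply UF.diff | apply UF.prod | apply UF.sUnion
          | apply UF.app | apply UF.dom | apply UF.rng | apply UF.fst | apply UF.snd
          | apply UF.ite | apply UD.and | apply UD.or | apply UR.ball | apply UR.bex
          | apply UD.allN | apply UD.exN | apply UD.iff | apply UR.mem | apply UR.eq
          | apply UR.sub | apply UD.not | apply UD.imp | exact UD.prop _)
      exact this.mem M hM (cons z (fun _ => D)) (fun n => by cases n; exacts [hz, hD])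
    obtain ⟨p, hp, hf⟩ := hc.2 _ hD' (by
      refine ⟨fun y hy => ?_, fun p hp => ?_⟩
      · obtain ⟨q, hq, rfl⟩ := mem_img.1 hy
        exact actC_cond (hd.1 hq)
      · obtain ⟨q, hq, hpq⟩ := hd.2 _ (actC_cond (z := z) hp)
        refine ⟨actC z q, mem_img.2 ⟨q, hq, rfl⟩, ?_⟩
        have := actC_mono (z := z) hpq
        rwa [actC_actC hp] at this)
    obtain ⟨q, hq, rfl⟩ := mem_img.1 hp
    refine ⟨q, hq, ?_⟩
    have := (fits_sd (z := z) (c := c) (actC_cond (z := z) (hd.1 hq))).2 hf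
    rwa [actC_actC (hd.1 hq)] at this

theorem NN_sd {M c : Set ZFSet.{0}} (hM : TM M) {z : ZFSet.{0}} (hz : z ∈ M) (hzI : z ⊆ Idx) :
    NN M (sd c z) = NN M c := by
  have hm : ∀ σ ∈ M, actN z σ ∈ M := fun σ hσ =>
    (UF.actN (UF.var 0) (UF.var 1)).mem M hM (cons z (fun _ => σ))
      (fun n => by cases n; exacts [hz, hσ])
  ext x
  constructor
  · rintro ⟨σ, hσM, hσ, rfl⟩
    refine ⟨actN z σ, hm σ hσM, HS_actN hσ, ?_⟩
    have := val_sd (c := sd c z) (z := z) hσ.isName
    rw [sd_sd] at this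
    exact this.symm
  · rintro ⟨σ, hσM, hσ, rfl⟩
    exact ⟨actN z σ, hm σ hσM, HS_actN hσ, (val_sd hσ.isName).symm⟩

end H83.AC
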