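import Pool.Agent.H83.AC.Defs2

/-!
# Module Om: natural numbers

`nz n` is the von Neumann natural number. Hints: `omega = mk PSet.omega`, `PSet.omega` is
`⟨ULift ℕ, fun n => PSet.ofNat n.down⟩`, so membership in `omega` unfolds to
`∃ n, Equiv x (ofNat n)` (see `omega_zero`, `omega_succ` in Mathlib for the style).
`UF.omega`: `omega ∈ N`: by infinity there is `I ∈ N` inductive (`x ∪ {x}` and `∅` are computed
correctly because `N` is transitive); then `nz n ∈ I` for all `n`, and
`omega = sep (fun z => ∀ J ∈ N, (∅ ∈ J ∧ ∀ y ∈ J, insert y y ∈ J) → z ∈ J) I`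
(for `⊆` use induction on `n`; for `⊇` apply it to ... careful: first show that the set
`I' = sep (∀ J ∈ N, ..) I` is in `N` and inductive, and that every `z ∈ I'` is some `nz n`:
the set of `z ∈ I'` which satisfy the formula `z` is transitive, `∈` is a linear order on `z`, every
nonempty element of `z ∪ {z}` is a successor ... OR simpler: suppose `z ∈ I'` is not a natural
number; choose `z` of least rank; `J = I' \ {z}` is in `N`, contains `∅`; if `y ∈ J` and
`insert y y = z` then `y` is in `I'` with smaller rank, so `y = nz n` and `z = nz (n+1)`,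
contradiction; so `J` is inductive and `z ∈ J`, contradiction).
Definability: `z ∈ omega ↔ ∀ J ∈ N, (∅ ∈ J ∧ ∀ y ∈ J, insert y y ∈ J) → z ∈ J` (take `J = omega`
for `←`), then `UF.of_mem` and `ud`.
-/

namespace H83.AC

open ZFSet

private theorem nz_eq (n : ℕ) : nz n = ZFSet.mk (PSet.ofNat n) := by
  induction n with
  | zero => rfl
  | succ n ih =>
    rw [nz, ih]
    rfl

private theorem nz_mem_omega' (n : ℕ) : nz n ∈ omega := by
  induction n with
  | zero => exact omega_zero
  | succ n ih => exact omega_succ ih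

theorem mem_omega {x : ZFSet.{0}} : x ∈ omega ↔ ∃ n, x = nz n := by
  constructor
  · refine Quotient.inductionOn x fun y hy => ?_
    obtain ⟨⟨n⟩, h⟩ := hy
    refine ⟨n, ?_⟩
    rw [nz_eq]
    exact ZFSet.sound h
  · rintro ⟨n, rfl⟩
    exact nz_mem_omega' n

theorem mem_nz {n : ℕ} {x : ZFSet.{0}} : x ∈ nz n ↔ ∃ m < n, x = nz m := by
  induction n with
  | zero =>
    rw [nz]
    constructor
    · intro h
      exact absurd h (notMem_empty x)
    · rintro ⟨m, hm, -⟩
      exact absurd hm (Nat.not_lt_zero m)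
  | succ n ih =>
    rw [nz, mem_insert_iff, ih]
    constructor
    · rintro (rfl | ⟨m, hm, rfl⟩)
      · exact ⟨n, Nat.lt_succ_self n, rfl⟩
      · exact ⟨m, Nat.lt_succ_of_lt hm, rfl⟩
    · rintro ⟨m, hm, rfl⟩
      rcases Nat.lt_succ_iff_lt_or_eq.1 hm with h | h
      · exact Or.inr ⟨m, h, rfl⟩
      · exact Or.inl (by rw [h])

private theorem rank_nz' (n : ℕ) : rank (nz n) = n := by
  induction n with
  | zero =>
    rw [nz, rank_empty]
    simp
  | succ n ih =>
    rw [nz, rank_insert, ih, max_eq_left (Order.le_succ _)]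
    simp

theorem nz_mem_nz {m n : ℕ} : nz m ∈ nz n ↔ m < n := by
  constructor
  · intro h
    have h1 := rank_lt_of_mem h
    rw [rank_nz', rank_nz'] at h1
    exact_mod_cast h1
  · intro h
    exact mem_nz.2 ⟨m, h, rfl⟩

theorem nz_inj {m n : ℕ} : nz m = nz n ↔ m = n := by
  constructor
  · intro h
    have h1 := congrArg rank h
    rw [rank_nz', rank_nz'] at h1
    exact_mod_cast h1
  · intro h
    rw [h]

theorem nz_mem_omega (n : ℕ) : nz n ∈ omega := nz_mem_omega' n

theorem rank_nz (n : ℕ) : rank (nz n) = n := rank_nz' n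

private theorem rank_mk_ofNat (n : ℕ) : rank (ZFSet.mk (PSet.ofNat n)) = n := by
  induction n with
  | zero =>
    rw [show ZFSet.mk (PSet.ofNat 0) = ∅ from rfl, rank_empty]
    simp
  | succ n ih =>
    rw [show ZFSet.mk (PSet.ofNat (n + 1)) =
      insert (ZFSet.mk (PSet.ofNat n)) (ZFSet.mk (PSet.ofNat n)) from rfl, rank_insert, ih,
      max_eq_left (Order.le_succ _)]
    simp

theorem rank_omega : rank omega = Ordinal.omega0 := by
  apply le_antisymm
  · rw [rank_le_iff]
    intro y
    refine Quotient.inductionOn y fun z hz => ?_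
    obtain ⟨⟨n⟩, h⟩ := hz
    have h1 : ZFSet.mk z = ZFSet.mk (PSet.ofNat n) := ZFSet.sound h
    have h2 : rank (ZFSet.mk z) = n := by rw [h1, rank_mk_ofNat]
    show rank (ZFSet.mk z) < Ordinal.omega0
    rw [h2]
    exact Ordinal.natCast_lt_omega0 n
  · rw [Ordinal.omega0_le]
    intro n
    have h0 : ZFSet.mk (PSet.ofNat n) ∈ omega := ⟨⟨n⟩, PSet.Equiv.rfl⟩
    have h := rank_lt_of_mem h0
    rw [rank_mk_ofNat] at h
    exact h.le

/-- inductive sets contain the natural numbers -/
private theorem nz_mem_ind {J : ZFSet.{0}} (h : ∅ ∈ J ∧ ∀ y ∈ J, insert y y ∈ J) (n : ℕ) :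
    nz n ∈ J := by
  induction n with
  | zero => exact h.1
  | succ n ih => exact h.2 _ ih

private theorem ind_ud : UR (fun N v => ∀ J ∈ N, (∅ ∈ J ∧ ∀ y ∈ J, insert y y ∈ J) → v 0 ∈ J) := by
  refine UD.allN (R := fun _ J v => (∅ ∈ J ∧ ∀ y ∈ J, insert y y ∈ J) → v 0 ∈ J) ?_
  refine UD.imp (UD.and (UR.mem UF.empty (UF.var 0)) ?_) (UR.mem (UF.var 1) (UF.var 0))
  exact UR.ball (R := fun _ y v => insert y y ∈ v 0) (UF.var 0)
    (UR.mem (UF.insert (UF.var 0) (UF.var 0)) (UF.var 1))

theorem TM.omega {N : Set ZFSet.{0}} (hN : TM N) : ZFSet.omega ∈ N := by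
  obtain ⟨⟨I, hI⟩, ⟨⟨e, heN⟩, he, hemp⟩, hs⟩ := hN.zf.infinity
  have hI0 : ∅ ∈ I := by
    have h1 : e = ∅ := by
      rw [eq_empty]
      intro z hz
      exact hemp ⟨z, hN.tr e heN z hz⟩ hz
    rw [← h1]
    exact he
  have hI1 : ∀ y ∈ I, (Insert.insert y y : ZFSet) ∈ I := by
    intro y hy
    have hyN : y ∈ N := hN.tr I hI y hy
    obtain ⟨⟨s, hsN⟩, hsI, hs2⟩ := hs ⟨y, hyN⟩ hy
    have h1 : s = (Insert.insert y y : ZFSet) := by
      refine hN.ext hsN ?_ ?_
      · intro x hx
        rcases mem_insert_iff.1 hx with rfl | hx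
        · exact hyN
        · exact hN.tr y hyN x hx
      · intro x hx
        have h2 := hs2 ⟨x, hx⟩
        simp only [memN, Subtype.ext_iff] at h2
        rw [h2, mem_insert_iff]
        exact or_comm
    rw [← h1]
    exact hsI
  set I' : ZFSet.{0} := ZFSet.sep
    (fun z => ∀ J ∈ N, (∅ ∈ J ∧ ∀ y ∈ J, (Insert.insert y y : ZFSet) ∈ J) → z ∈ J) I with hI'
  have hI'N : I' ∈ N := by
    refine TM.sep_of (R := fun N z _ => ∀ J ∈ N, (∅ ∈ J ∧ ∀ y ∈ J, (Insert.insert y y : ZFSet) ∈ J) → z ∈ J)
      ?_ hN (v := fun _ => I) (fun _ => hI) hI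
    exact ind_ud
  have hmem : ∀ z, z ∈ I' ↔ z ∈ I ∧ ∀ J ∈ N, (∅ ∈ J ∧ ∀ y ∈ J, (Insert.insert y y : ZFSet) ∈ J) → z ∈ J := by
    intro z
    rw [hI', mem_sep]
  have hind : ∀ y ∈ I', (Insert.insert y y : ZFSet) ∈ I' := by
    intro y hy
    rw [hmem] at hy ⊢
    exact ⟨hI1 y hy.1, fun J hJ hJ2 => hJ2.2 y (hy.2 J hJ hJ2)⟩
  have hnz : ∀ n, nz n ∈ I' := by
    intro n
    rw [hmem]
    exact ⟨nz_mem_ind ⟨hI0, hI1⟩ n, fun J _ hJ2 => nz_mem_ind hJ2 n⟩
  have hall : ∀ z : ZFSet.{0}, z ∈ I' → ∃ n, z = nz n := by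
    intro z
    induction z using inductionOn with
    | _ z ih =>
      intro hz
      by_contra hcon
      have hJN : (I' \ {z} : ZFSet) ∈ N := by
        have h : UF (fun _ v => v 0 \ {v 1}) := by (repeat' first
            | assumption | exact UF.var _ | exact UD.true | exact UD.false | apply UF.empty
            | apply UF.fgr | apply UF.uni | apply UF.img | apply UF.pow | apply UF.sep
            | apply UF.pair | apply UF.upair | apply UF.singleton | apply UF.insert
            | apply UF.union | apply UF.inter | apply UF.diff | apply UF.prod | apply UF.sUnion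
            | apply UF.app | apply UF.dom | apply UF.rng | apply UF.fst | apply UF.snd
            | apply UF.ite | apply UD.and | apply UD.or | apply UR.ball | apply UR.bex
            | apply UD.allN | apply UD.exN | apply UD.iff | apply UR.mem | apply UR.eq
            | apply UR.sub | apply UD.not | apply UD.imp | exact UD.prop _)
        exact h.mem N hN (cons I' (fun _ => z)) (fun n => by
          cases n with
          | zero => exact hI'N
          | succ n => exact hN.tr I' hI'N z hz)
      have h1 := ((hmem z).1 hz).2 (I' \ {z}) hJN ⟨?_, ?_⟩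
      · simp at h1
      · rw [mem_sdiff, mem_singleton]
        exact ⟨hnz 0, fun h => hcon ⟨0, h.symm⟩⟩
      · intro y hy
        rw [mem_sdiff, mem_singleton] at hy ⊢
        refine ⟨hind y hy.1, fun h => ?_⟩
        obtain ⟨n, hn⟩ := ih y (by rw [← h]; exact mem_insert _ _) hy.1
        exact hcon ⟨n + 1, by rw [← h, hn]; rfl⟩
  have heq : ZFSet.omega = I' := by
    ext z
    rw [mem_omega]
    constructor
    · rintro ⟨n, rfl⟩
      exact hnz n
    · exact hall z
  rw [heq]
  exact hI'N

theorem UF.omega : UF (fun _ _ => ZFSet.omega) := by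
  refine UF.of_mem (fun N hN _ _ => hN.omega) ?_
  refine ind_ud.congr fun N hN v _ => ?_
  constructor
  · intro h J _ hJ
    obtain ⟨n, hn⟩ := mem_omega.1 h
    rw [hn]
    exact nz_mem_ind hJ n
  · intro h
    exact h _ hN.omega ⟨omega_zero, fun y hy => omega_succ hy⟩

theorem UF.one : UF (fun _ _ => one) := UF.singleton UF.empty

theorem UF.nz (n : ℕ) : UF (fun _ _ => H83.AC.nz n) := by
  induction n with
  | zero => exact UF.empty
  | succ n ih => exact UF.insert ih ih

instance Inst.omega : UF (fun _ _ => ZFSet.omega) := UF.omega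
instance Inst.one : UF (fun _ _ => H83.AC.one) := UF.one
instance Inst.nz (n : ℕ) : UF (fun _ _ => H83.AC.nz n) := UF.nz n

end H83.AC
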