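import Pool.Agent.H83.AC.LhU
import Pool.Agent.H83.AC.Om

/-!
# Module HFb: hereditarily finite sets

`HF = Lo ω = ⋃ Lo n`. `Lo n` is finite (`Sx U` is finite if `U` is: a subset of the union of
`insert U U` and of finitely many values `op i x y`), so every element of `HF` is finite and
`HF` is countable.
`HF_of_finite`: induction on the finite set: `∅ = Lo 0 ∈ HF`; if `F ∈ HF`, `a ∈ HF`, take `n` with
`F, a ∈ Lo n`, `U = Lo n`: `U \ F`, `{a}`, `(U \ F) \ {a}` and `U \ ((U \ F) \ {a}) = F ∪ {a}` are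
in the next levels (`op_mem_Lo` with `op 1` and `op 0`).
`UF.HF`: `HF = Lh omega` (`rank_omega`).
-/

namespace H83.AC

open ZFSet

private theorem mem_HF_iff {x : ZFSet.{0}} : x ∈ HF ↔ ∃ n : ℕ, x ∈ Lo n := by
  constructor
  · intro h
    obtain ⟨β, hβ, hz⟩ := mem_Lo.1 h
    obtain ⟨n, rfl⟩ := Ordinal.lt_omega0.1 hβ
    refine ⟨n + 1, Sx_sub_Lo ?_ hz⟩
    exact_mod_cast Nat.lt_succ_self n
  · rintro ⟨n, hn⟩
    exact Lo_mono (Ordinal.natCast_lt_omega0 n).le hn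

private theorem Lo_nat_zero : Lo ((0 : ℕ) : Ordinal.{0}) = ∅ := by
  rw [ZFSet.eq_empty]
  intro z hz
  obtain ⟨β, hβ, -⟩ := mem_Lo.1 hz
  rw [Nat.cast_zero] at hβ
  exact absurd hβ (not_lt_bot : ¬ β < ⊥)

private theorem Lo_nat_succ {n : ℕ} {z : ZFSet.{0}} (h : z ∈ Lo ((n + 1 : ℕ) : Ordinal.{0})) :
    z ∈ Sx (Lo (n : Ordinal.{0})) := by
  obtain ⟨β, hβ, hz⟩ := mem_Lo.1 h
  have h1 : β ≤ (n : Ordinal.{0}) := by
    rw [Nat.cast_succ, ← Order.succ_eq_add_one, Order.lt_succ_iff] at hβ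
    exact hβ
  rcases h1.lt_or_eq with h2 | h2
  · exact mem_Sx.2 (Or.inr (Or.inl (Sx_sub_Lo h2 hz)))
  · rw [← h2]
    exact hz

private theorem Sx_finite {U : ZFSet.{0}} (h : {y | y ∈ U}.Finite) : {y | y ∈ Sx U}.Finite := by
  have h1 : {y | y ∈ (insert U U : ZFSet)}.Finite := by
    refine (h.insert U).subset ?_
    intro y hy
    exact ZFSet.mem_insert_iff.1 hy
  have h2 : (Set.image (fun p : ℕ × ZFSet.{0} × ZFSet.{0} => op p.1 p.2.1 p.2.2)
      (Set.Iio 10 ×ˢ ({y | y ∈ (insert U U : ZFSet)} ×ˢ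
        {y | y ∈ (insert U U : ZFSet)}))).Finite :=
    ((Set.finite_Iio 10).prod (h1.prod h1)).image _
  refine (h2.union h1).subset ?_
  intro z hz
  rcases mem_Sx.1 hz with rfl | hz | ⟨-, i, hi, x, hx, y, hy, rfl⟩
  · exact Or.inr (ZFSet.mem_insert _ _)
  · exact Or.inr (ZFSet.mem_insert_of_mem _ hz)
  · exact Or.inl ⟨(i, x, y), ⟨hi, hx, hy⟩, rfl⟩

private theorem Lo_nat_finite (n : ℕ) : {y | y ∈ Lo (n : Ordinal.{0})}.Finite := by
  induction n with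
  | zero =>
    rw [Lo_nat_zero]
    refine Set.finite_empty.subset ?_
    intro y hy
    exact ZFSet.notMem_empty y hy
  | succ n ih =>
    exact (Sx_finite ih).subset fun z hz => Lo_nat_succ hz

theorem HF_finite {x : ZFSet.{0}} (h : x ∈ HF) : {y | y ∈ x}.Finite := by
  obtain ⟨n, hn⟩ := mem_HF_iff.1 h
  exact (Lo_nat_finite n).subset fun y hy => Lo_tr hn hy

theorem HF_tr {x : ZFSet.{0}} (h : x ∈ HF) : x ⊆ HF := Lo_tr h

private theorem HFb_empty : (∅ : ZFSet) ∈ HF := by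
  have h := Lo_mem_Lo (Ordinal.natCast_lt_omega0 0)
  rwa [Lo_nat_zero] at h

private theorem HFb_insert {F a : ZFSet.{0}} (hF : F ∈ HF) (ha : a ∈ HF) :
    (insert a F : ZFSet) ∈ HF := by
  obtain ⟨m, hm⟩ := mem_HF_iff.1 hF
  obtain ⟨m', hm'⟩ := mem_HF_iff.1 ha
  obtain ⟨n, hFn, han⟩ : ∃ n : ℕ, F ∈ Lo n ∧ a ∈ Lo n :=
    ⟨max m m', Lo_mono (by exact_mod_cast le_max_left m m') hm,
      Lo_mono (by exact_mod_cast le_max_right m m') hm'⟩
  have hn1 : (n : Ordinal.{0}) < ((n + 1 : ℕ) : Ordinal.{0}) := by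
    exact_mod_cast Nat.lt_succ_self n
  have hn2 : ((n + 1 : ℕ) : Ordinal.{0}) < ((n + 2 : ℕ) : Ordinal.{0}) := by
    exact_mod_cast Nat.lt_succ_self (n + 1)
  have hn3 : ((n + 2 : ℕ) : Ordinal.{0}) < ((n + 3 : ℕ) : Ordinal.{0}) := by
    exact_mod_cast Nat.lt_succ_self (n + 2)
  have op1 : ∀ x y : ZFSet.{0}, op 1 x y = x \ y := fun x y => rfl
  have op0 : ∀ x y : ZFSet.{0}, op 0 x y = {x, y} := fun x y => rfl
  have h1 : Lo n \ F ∈ Lo ((n + 1 : ℕ) : Ordinal.{0}) := by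
    rw [← op1]
    refine op_mem_Lo hn1 (by norm_num) (Or.inr rfl) (Or.inl hFn) ?_
    rw [op1]
    intro z hz
    exact (ZFSet.mem_sdiff.1 hz).1
  have h2 : ({a} : ZFSet) ∈ Lo ((n + 1 : ℕ) : Ordinal.{0}) := by
    rw [← pair_eq_singleton, ← op0]
    refine op_mem_Lo hn1 (by norm_num) (Or.inl han) (Or.inl han) ?_
    rw [op0, pair_eq_singleton]
    intro z hz
    rw [ZFSet.mem_singleton] at hz
    rw [hz]
    exact han
  have h3 : (Lo n \ F) \ {a} ∈ Lo ((n + 2 : ℕ) : Ordinal.{0}) := by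
    rw [← op1 (Lo n \ F)]
    refine op_mem_Lo hn2 (by norm_num) (Or.inl h1) (Or.inl h2) ?_
    rw [op1]
    intro z hz
    exact Lo_mono hn1.le (ZFSet.mem_sdiff.1 (ZFSet.mem_sdiff.1 hz).1).1
  have h4 : Lo n \ ((Lo n \ F) \ {a}) ∈ Lo ((n + 3 : ℕ) : Ordinal.{0}) := by
    rw [← op1 (Lo n) ((Lo n \ F) \ {a})]
    refine op_mem_Lo hn3 (by norm_num) (Or.inl (Lo_mem_Lo (hn1.trans hn2))) (Or.inl h3) ?_
    rw [op1]
    intro z hz
    exact Lo_mono (hn1.trans hn2).le (ZFSet.mem_sdiff.1 hz).1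
  have h5 : (insert a F : ZFSet) = Lo n \ ((Lo n \ F) \ {a}) := by
    ext z
    rw [ZFSet.mem_insert_iff, ZFSet.mem_sdiff, ZFSet.mem_sdiff, ZFSet.mem_sdiff,
      ZFSet.mem_singleton]
    constructor
    · rintro (rfl | hz)
      · exact ⟨han, fun h => h.2 rfl⟩
      · exact ⟨Lo_tr hFn hz, fun h => h.1.2 hz⟩
    · rintro ⟨h6, h7⟩
      by_contra h8
      rw [not_or] at h8
      exact h7 ⟨⟨h6, h8.2⟩, h8.1⟩
  rw [h5]
  exact mem_HF_iff.2 ⟨_, h4⟩

theorem HF_of_finite {x : ZFSet.{0}} (h : x ⊆ HF) (hf : {y | y ∈ x}.Finite) : x ∈ HF := by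
  have key : ∀ s : Set ZFSet.{0}, s.Finite → (∀ y ∈ s, y ∈ HF) →
      ∃ F ∈ HF, ∀ y, y ∈ F ↔ y ∈ s := by
    intro s hs
    induction s, hs using Set.Finite.induction_on with
    | empty =>
      intro _
      exact ⟨∅, HFb_empty, fun y => iff_of_false (ZFSet.notMem_empty y) (Set.notMem_empty y)⟩
    | @insert a s _ _ ih =>
      intro hs
      obtain ⟨F, hF, hFs⟩ := ih fun y hy => hs y (Set.mem_insert_of_mem a hy)
      refine ⟨insert a F, HFb_insert hF (hs a (Set.mem_insert a s)), fun y => ?_⟩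
      rw [ZFSet.mem_insert_iff, Set.mem_insert_iff, hFs]
  obtain ⟨F, hF, hFs⟩ := key _ hf fun y hy => h hy
  have : x = F := by
    ext y
    rw [hFs]
    rfl
  rw [this]
  exact hF

theorem HF_sub {x y : ZFSet.{0}} (h : x ∈ HF) (hy : y ⊆ x) : y ∈ HF :=
  HF_of_finite (fun _ hz => HF_tr h (hy hz)) ((HF_finite h).subset fun _ hz => hy hz)

theorem HF_empty : (∅ : ZFSet) ∈ HF := HFb_empty

private theorem HFb_upair {x y : ZFSet.{0}} (hx : x ∈ HF) (hy : y ∈ HF) :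
    ({x, y} : ZFSet) ∈ HF := by
  have h1 : ({y} : ZFSet) ∈ HF := by
    have h : ({y} : ZFSet) = insert y ∅ := by
      ext z
      rw [ZFSet.mem_singleton, ZFSet.mem_insert_iff]
      exact ⟨Or.inl, fun h => h.elim id fun h => absurd h (ZFSet.notMem_empty z)⟩
    rw [h]
    exact HFb_insert HFb_empty hy
  exact HFb_insert h1 hx

theorem HF_pair {x y : ZFSet.{0}} (hx : x ∈ HF) (hy : y ∈ HF) : pair x y ∈ HF := by
  have h1 : ({x} : ZFSet) ∈ HF := by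
    rw [← pair_eq_singleton]
    exact HFb_upair hx hx
  exact HFb_upair h1 (HFb_upair hx hy)

theorem HF_of_pair {x y : ZFSet.{0}} (h : pair x y ∈ HF) : x ∈ HF ∧ y ∈ HF := by
  have h1 : ({x, y} : ZFSet) ∈ pair x y := by rw [pair]; simp
  have h2 := HF_tr (HF_tr h h1)
  exact ⟨h2 (by simp), h2 (by simp)⟩

theorem HF_union {x y : ZFSet.{0}} (hx : x ∈ HF) (hy : y ∈ HF) : x ∪ y ∈ HF := by
  refine HF_of_finite (fun z hz => ?_)
    (((HF_finite hx).union (HF_finite hy)).subset fun z hz => ZFSet.mem_union.1 hz)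
  rcases ZFSet.mem_union.1 hz with h | h
  · exact HF_tr hx h
  · exact HF_tr hy h

theorem HF_insert {x y : ZFSet.{0}} (hx : x ∈ HF) (hy : y ∈ HF) : (insert x y : ZFSet) ∈ HF :=
  HFb_insert hy hx

theorem HF_img {f : ZFSet.{0} → ZFSet.{0}} {x : ZFSet.{0}} (hx : x ∈ HF)
    (hf : ∀ y ∈ x, f y ∈ HF) : img f x ∈ HF := by
  refine HF_of_finite (fun z hz => ?_) (((HF_finite hx).image f).subset fun z hz => ?_)
  · obtain ⟨y, hy, rfl⟩ := mem_img.1 hz
    exact hf y hy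
  · obtain ⟨y, hy, rfl⟩ := mem_img.1 hz
    exact ⟨y, hy, rfl⟩

theorem HF_nz (n : ℕ) : nz n ∈ HF := by
  induction n with
  | zero => exact HF_empty
  | succ n ih => exact HF_insert ih ih

theorem omega_sub_HF : omega ⊆ HF := by
  intro x hx
  obtain ⟨n, rfl⟩ := mem_omega.1 hx
  exact HF_nz n

theorem HF_countable : {x | x ∈ HF}.Countable := by
  have h : {x | x ∈ HF} = ⋃ n : ℕ, {x | x ∈ Lo (n : Ordinal.{0})} := by
    ext x
    rw [Set.mem_iUnion]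
    exact mem_HF_iff
  rw [h]
  exact Set.countable_iUnion fun n => (Lo_nat_finite n).countable

theorem HF_LL : HF ∈ LL := Lo_mem_LL _

theorem UF.HF : UF (fun _ _ => H83.AC.HF) :=
  (UF.Lh UF.omega).congr fun _ _ _ _ => by
    show H83.AC.HF = H83.AC.Lh ZFSet.omega
    rw [H83.AC.Lh, rank_omega]
    rfl

instance Inst.HF : UF (fun _ _ => H83.AC.HF) := UF.HF

end H83.AC
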