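import Pool.Agent.H83.AC.WoU
import Pool.Agent.H83.AC.HFb

/-!
# Module Cd: a definable enumeration of the hereditarily finite sets

`wo ω` is a well-order of `HF = Lo ω` in which every element has finitely many predecessors (each
`Lo n` is finite and an initial segment, `wo_init`). Let `cdi x` be the number of predecessors of
`x ∈ HF`, as a natural number; `x ↦ nz (cdi x)` is a bijection of `HF` onto `omega` (`HF` is
infinite) and satisfies the recursion `F x = img F {y ∈ HF : (y, x) ∈ w}`, `w = wh omega`.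
Definability: `UF.recur` with `pred N v x = sep (fun y => pair y x ∈ wh omega) HF` and
`G N v x f = rng f` or `img (app f) (pred x)` (well-founded because `w` is a well-order of a set; for
`x ∉ HF` there are no predecessors because `wh omega ⊆ prod HF HF`).
`cdg` is the graph `{(n, x) : cdi x = n}`.
-/

namespace H83.AC

open ZFSet

namespace Cd

/-- the well-order of `HF` -/
noncomputable def w : ZFSet.{0} := wh omega

theorem w_eq : w = wo Ordinal.omega0 := by rw [w, wh, rank_omega]

theorem w_wo : IsWO w HF := by rw [w_eq]; exact wo_wo _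

theorem mem_HF_of_w {x y : ZFSet.{0}} (h : pair y x ∈ w) : y ∈ HF ∧ x ∈ HF :=
  pair_mem_prod.1 (w_wo.1 h)

/-- predecessors -/
def P (x : ZFSet.{0}) : Set ZFSet.{0} := {y | pair y x ∈ w}

theorem P_finite (x : ZFSet.{0}) : (P x).Finite := by
  by_cases hx : x ∈ HF
  · obtain ⟨β, hβ, h⟩ := mem_Lo.1 hx
    have hl : Order.IsSuccLimit Ordinal.omega0 := Ordinal.isSuccLimit_omega0
    have hβ' : Order.succ β < Ordinal.omega0 := hl.succ_lt hβ
    have hx' : x ∈ Lo (Order.succ β) := Sx_sub_Lo (Order.lt_succ β) h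
    refine (HF_finite (Lo_mem_Lo hβ')).subset ?_
    intro y hy
    have hy' : pair y x ∈ wo Ordinal.omega0 := by rw [← w_eq]; exact hy
    rw [wo_init hβ'.le hx'] at hy'
    exact (pair_mem_prod.1 ((wo_wo _).1 hy')).1
  · have : P x = ∅ := by
      ext y
      simp only [P, Set.mem_setOf_eq, Set.mem_empty_iff_false, iff_false]
      exact fun h => hx (mem_HF_of_w h).2
    rw [this]
    exact Set.finite_empty

theorem w_irrefl (x : ZFSet.{0}) : pair x x ∉ w := by
  intro h
  have hx := (mem_HF_of_w h).1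
  obtain ⟨y, hy, hmin⟩ := w_wo.2.2.2 {x} (by
    intro z hz; rw [mem_singleton] at hz; rwa [hz]) (by
    intro e
    have : x ∈ ({x} : ZFSet) := by simp
    rw [e] at this
    exact notMem_empty x this)
  rw [mem_singleton] at hy
  subst hy
  exact hmin y (by simp) h

/-- the number of predecessors -/
noncomputable def num (x : ZFSet.{0}) : ℕ := (P x).ncard

theorem num_lt {x y : ZFSet.{0}} (h : pair y x ∈ w) : num y < num x := by
  refine Set.ncard_lt_ncard ?_ (P_finite x)
  refine ⟨fun z hz => w_wo.2.2.1 z y x hz h, fun H => ?_⟩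
  exact w_irrefl y (H h)

theorem num_inj {x y : ZFSet.{0}} (hx : x ∈ HF) (hy : y ∈ HF) (h : num x = num y) : x = y := by
  rcases w_wo.2.1 x hx y hy with h1 | h1 | h1
  · exact h1
  · exact absurd h (num_lt h1).ne
  · exact absurd h (num_lt h1).ne'

theorem image_num (x : ZFSet.{0}) : num '' P x = Set.Iio (num x) := by
  refine Set.eq_of_subset_of_ncard_le ?_ ?_ (Set.finite_Iio _)
  · rintro _ ⟨y, hy, rfl⟩
    exact num_lt hy
  · rw [Set.ncard_image_of_injOn]
    · rw [← Finset.coe_Iio, Set.ncard_coe_finset, Nat.card_Iio]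
      rfl
    · intro y hy z hz e
      exact num_inj (mem_HF_of_w hy).1 (mem_HF_of_w hz).1 e

theorem exists_num (n : ℕ) : ∃ x ∈ HF, num x = n := by
  by_contra hcon
  push Not at hcon
  -- all numbers are below `n`
  have h1 : ∀ x ∈ HF, num x < n := by
    intro x hx
    by_contra hlt
    rcases (not_lt.1 hlt).eq_or_lt with e | e
    · exact hcon x hx e.symm
    · have : n ∈ num '' P x := by rw [image_num]; exact e
      obtain ⟨y, hy, rfl⟩ := this
      exact hcon y (mem_HF_of_w hy).1 rfl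
  have h2 : Set.InjOn num {x | x ∈ HF} := fun x hx y hy e => num_inj hx hy e
  have h3 : {x : ZFSet.{0} | x ∈ HF}.Finite := by
    refine Set.Finite.of_finite_image ?_ h2
    refine (Set.finite_Iio n).subset ?_
    rintro _ ⟨x, hx, rfl⟩
    exact h1 x hx
  have h4 : (Set.range nz).Finite := h3.subset (by
    rintro _ ⟨m, rfl⟩
    exact HF_nz m)
  exact Set.infinite_range_of_injective (fun a b e => nz_inj.1 e) h4

theorem UF_w : UF (fun _ _ => w) := UF.wh (f := fun _ _ => omega) UF.omega

theorem UF_num : UF (fun _ v => nz (num (v 0))) := by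
  refine UF.recur (F := fun _ _ x => nz (num x))
    (pred := fun _ _ x => ZFSet.sep (fun y => ZFSet.pair y x ∈ w) HF)
    (G := fun _ _ _ f => rng f) ?_ ?_ ?_ ?_
  · refine UF.sep (R := fun _ y v => ZFSet.pair y (v 0) ∈ w) UF.HF ?_
    exact UR.mem (UF.pair (UF.var 0) (UF.var 1)) UF_w
  · exact (UF.var 1).rng
  · intro N _ v _
    refine Subrelation.wf (r := InvImage (· < ·) (fun x : N => num x)) ?_
      (InvImage.wf _ wellFounded_lt)
    intro y x h
    exact num_lt (mem_sep.1 h).2
  · intro N _ v _ x _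
    ext z
    rw [mem_nz, mem_rng]
    constructor
    · rintro ⟨m, hm, rfl⟩
      have : m ∈ num '' P x := by rw [image_num]; exact hm
      obtain ⟨y, hy, rfl⟩ := this
      exact ⟨y, pair_mem_fgr.2 ⟨mem_sep.2 ⟨(mem_HF_of_w hy).1, hy⟩, rfl⟩⟩
    · rintro ⟨y, hy⟩
      obtain ⟨h1, rfl⟩ := pair_mem_fgr.1 hy
      exact ⟨num y, num_lt (mem_sep.1 h1).2, rfl⟩

end Cd

/-- `∃ cd`, stated as one theorem; the definitions below choose it -/
theorem exists_cd : ∃ cd : ℕ → ZFSet.{0}, Function.Injective cd ∧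
    (∀ x, x ∈ HF ↔ ∃ n, cd n = x) ∧
    ∃ g : ZFSet.{0}, UF (fun _ _ => g) ∧ ∀ t, t ∈ g ↔ ∃ n, t = pair (nz n) (cd n) := by
  choose cd h1 h2 using Cd.exists_num
  refine ⟨cd, fun a b e => ?_, fun x => ⟨fun hx => ?_, ?_⟩, ?_⟩
  · rw [← h2 a, ← h2 b, e]
  · exact ⟨Cd.num x, Cd.num_inj (h1 _) hx (h2 _)⟩
  · rintro ⟨n, rfl⟩
    exact h1 n
  · refine ⟨img (fun x => pair (nz (Cd.num x)) x) HF, ?_, fun t => ?_⟩
    · exact UF.img (F := fun _ x _ => ZFSet.pair (nz (Cd.num x)) x) UF.HF
        (UF.pair Cd.UF_num (UF.var 0))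
    · rw [mem_img]
      constructor
      · rintro ⟨x, hx, rfl⟩
        refine ⟨Cd.num x, ?_⟩
        rw [Cd.num_inj (h1 _) hx (h2 _)]
      · rintro ⟨n, rfl⟩
        exact ⟨cd n, h1 n, by rw [h2]⟩

/-- an enumeration of the hereditarily finite sets -/
noncomputable def cd : ℕ → ZFSet.{0} := exists_cd.choose

theorem cd_inj : Function.Injective cd := exists_cd.choose_spec.1

theorem mem_HF_cd {x : ZFSet.{0}} : x ∈ HF ↔ ∃ n, cd n = x := exists_cd.choose_spec.2.1 x

/-- the graph of the enumeration `omega → HF` -/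
noncomputable def cdg : ZFSet.{0} := exists_cd.choose_spec.2.2.choose

theorem UF.cdg : UF (fun _ _ => H83.AC.cdg) := exists_cd.choose_spec.2.2.choose_spec.1

theorem mem_cdg {t : ZFSet.{0}} : t ∈ cdg ↔ ∃ n, t = pair (nz n) (cd n) :=
  exists_cd.choose_spec.2.2.choose_spec.2 t

theorem app_cdg (n : ℕ) : app cdg (nz n) = cd n := by
  refine app_eq (mem_cdg.2 ⟨n, rfl⟩) fun z hz => ?_
  obtain ⟨m, hm⟩ := mem_cdg.1 hz
  obtain ⟨h1, rfl⟩ := pair_inj.1 hm
  rw [nz_inj.1 h1]

instance Inst.cdg : UF (fun _ _ => H83.AC.cdg) := UF.cdg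

end H83.AC
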