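import Pool.Agent.H83.AC.SetRec
import Pool.Agent.H83.AC.Cd

/-!
# Module WfHF: a relation on `HF` without descending sequence in the model is well-founded

`N` transitive model of ZF, `e ∈ N`. Suppose `d ∈ N`, `d ⊆ HF` nonempty has no `e`-minimal element.
For `x ∈ d` let `s x` be the element `y ∈ d` with `pair y x ∈ e` of least code (`cdg`), a definable
function with parameters `d, e, cdg`; start with some `x₀ ∈ d`. Define `f` on `omega` by
`f 0 = x₀`, `f (n+1) = s (f n)` (`UF.recMem` with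
`G N v x f = if x = ∅ then v i else s (app f (⋃₀ x))`; `⋃₀ (n ∪ {n}) = n` for `n ∈ omega`), take
the graph on `omega` (`UF.fgr`).
The least element: `⋃₀` of the singleton `sep (fun y => ∀ z ∈ .., ..)`; the natural number `n` with
`pair n y ∈ cdg` is `app` of the inverse relation.
-/

namespace H83.AC

open ZFSet

namespace WfHF

/-- the element of `v 0` of least code which is below `x` -/
noncomputable def S (v : ℕ → ZFSet.{0}) (x : ZFSet.{0}) : ZFSet.{0} :=
  ⋃₀ (ZFSet.sep (fun y => ZFSet.pair y x ∈ v 1 ∧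
    ∀ z ∈ v 0, ZFSet.pair z x ∈ v 1 → nz (Cd.num z) ∉ nz (Cd.num y)) (v 0))

theorem UF_S : UF (fun _ w => S (sh w) (w 0)) := by
  refine UF.sUnion ?_
  refine UF.sep (R := fun _ y w => ZFSet.pair y (w 0) ∈ w 2 ∧
    ∀ z ∈ w 1, ZFSet.pair z (w 0) ∈ w 2 → nz (Cd.num z) ∉ nz (Cd.num y)) (UF.var 1) ?_
  refine UD.and (by (repeat' first
      | assumption | exact UF.var _ | exact UD.true | exact UD.false | apply UF.empty
      | apply UF.fgr | apply UF.uni | apply UF.img | apply UF.pow | apply UF.sep | apply UF.pair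
      | apply UF.upair | apply UF.singleton | apply UF.insert | apply UF.union | apply UF.inter
      | apply UF.diff | apply UF.prod | apply UF.sUnion | apply UF.app | apply UF.dom
      | apply UF.rng | apply UF.fst | apply UF.snd | apply UF.ite | apply UD.and | apply UD.or
      | apply UR.ball | apply UR.bex | apply UD.allN | apply UD.exN | apply UD.iff | apply UR.mem
      | apply UR.eq | apply UR.sub | apply UD.not | apply UD.imp | exact UD.prop _)) ?_
  refine UR.ball (R := fun _ z w => ZFSet.pair z (w 1) ∈ w 3 →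
    nz (Cd.num z) ∉ nz (Cd.num (w 0))) (UF.var 2) ?_
  refine UD.imp (by (repeat' first
      | assumption | exact UF.var _ | exact UD.true | exact UD.false | apply UF.empty
      | apply UF.fgr | apply UF.uni | apply UF.img | apply UF.pow | apply UF.sep | apply UF.pair
      | apply UF.upair | apply UF.singleton | apply UF.insert | apply UF.union | apply UF.inter
      | apply UF.diff | apply UF.prod | apply UF.sUnion | apply UF.app | apply UF.dom
      | apply UF.rng | apply UF.fst | apply UF.snd | apply UF.ite | apply UD.and | apply UD.or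
      | apply UR.ball | apply UR.bex | apply UD.allN | apply UD.exN | apply UD.iff | apply UR.mem
      | apply UR.eq | apply UR.sub | apply UD.not | apply UD.imp | exact UD.prop _)) (UD.not (UR.mem Cd.UF_num ?_))
  exact Cd.UF_num.ren (fun n => n + 1)

theorem S_spec {v : ℕ → ZFSet.{0}} {x : ZFSet.{0}} (hd : v 0 ⊆ HF)
    (hx : ∃ y ∈ v 0, ZFSet.pair y x ∈ v 1) : S v x ∈ v 0 ∧ ZFSet.pair (S v x) x ∈ v 1 := by
  classical
  -- an element of least number
  have hne : ∃ n, ∃ y ∈ v 0, ZFSet.pair y x ∈ v 1 ∧ Cd.num y = n := by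
    obtain ⟨y, hy, h⟩ := hx
    exact ⟨_, y, hy, h, rfl⟩
  obtain ⟨y, hy, hyx, hn⟩ := Nat.find_spec hne
  have hmin : ∀ z ∈ v 0, ZFSet.pair z x ∈ v 1 → Cd.num y ≤ Cd.num z := by
    intro z hz hzx
    rw [hn]
    exact Nat.find_min' hne ⟨z, hz, hzx, rfl⟩
  have e : S v x = y := by
    ext t
    rw [S, mem_sUnion]
    constructor
    · rintro ⟨z, hz, ht⟩
      obtain ⟨hz, hzx, h⟩ := mem_sep.1 hz
      have h1 := h y hy hyx
      rw [nz_mem_nz, not_lt] at h1
      have : z = y := Cd.num_inj (hd hz) (hd hy) (le_antisymm h1 (hmin z hz hzx))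
      rwa [this] at ht
    · intro ht
      refine ⟨y, mem_sep.2 ⟨hy, hyx, fun z hz hzx => ?_⟩, ht⟩
      rw [nz_mem_nz, not_lt]
      exact hmin z hz hzx
  rw [e]
  exact ⟨hy, hyx⟩

theorem sUnion_nz (n : ℕ) : (⋃₀ (nz (n + 1)) : ZFSet) = nz n := by
  ext z
  rw [mem_sUnion, mem_nz]
  constructor
  · rintro ⟨y, hy, hz⟩
    obtain ⟨m, hm, rfl⟩ := mem_nz.1 hy
    obtain ⟨k, hk, rfl⟩ := mem_nz.1 hz
    exact ⟨k, by omega, rfl⟩
  · rintro ⟨m, hm, rfl⟩
    exact ⟨nz n, mem_nz.2 ⟨n, by omega, rfl⟩, nz_mem_nz.2 hm⟩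

/-- the descending sequence -/
noncomputable def Fn (v : ℕ → ZFSet.{0}) : ℕ → ZFSet.{0}
  | 0 => v 2
  | n + 1 => S v (Fn v n)

open Classical in
/-- the descending sequence, as a function of sets -/
noncomputable def Fz (v : ℕ → ZFSet.{0}) (x : ZFSet.{0}) : ZFSet.{0} :=
  if h : ∃ n, x = nz n then Fn v h.choose else ∅

theorem Fz_nz (v : ℕ → ZFSet.{0}) (n : ℕ) : Fz v (nz n) = Fn v n := by
  have h : ∃ m, nz n = nz m := ⟨n, rfl⟩
  rw [Fz, dif_pos h]
  rw [← nz_inj.1 h.choose_spec]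

open Classical in
theorem UF_Fz : UF (fun _ w => Fz (sh w) (w 0)) := by
  refine UF.recMem (F := fun _ v x => Fz v x)
    (G := fun _ v x f => if x ∈ omega then (if x = ∅ then v 2 else S v (app f (⋃₀ x : ZFSet)))
      else ∅) ?_ ?_
  · refine UF.ite (R := fun _ w => w 0 ∈ omega) (UR.mem (UF.var 0) UF.omega) ?_ UF.empty
    refine UF.ite (R := fun _ w => w 0 = ∅) (UR.eq (UF.var 0) UF.empty) (UF.var 4) ?_
    refine UF.subst (F := fun _ x w => S (sh (sh w)) x) ?_
      (UF.app (UF.var 1) (UF.sUnion (UF.var 0)))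
    exact UF_S.ren (fun n => if n = 0 then 0 else n + 2)
  · intro N _ v _ x _
    by_cases hx : x ∈ omega
    · rw [if_pos hx]
      obtain ⟨n, rfl⟩ := mem_omega.1 hx
      rcases n with _ | n
      · rw [if_pos (show nz 0 = ∅ from rfl), Fz_nz]
        rfl
      · rw [if_neg, sUnion_nz, app_fgr, Fz_nz, Fz_nz]
        · rfl
        · exact nz_mem_nz.2 (Nat.lt_succ_self n)
        · intro e
          have : nz n ∈ nz (n + 1) := nz_mem_nz.2 (Nat.lt_succ_self n)
          rw [e] at this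
          exact notMem_empty _ this
    · rw [if_neg hx, Fz, dif_neg]
      rintro ⟨n, rfl⟩
      exact hx (nz_mem_omega n)

end WfHF

theorem wfHF {N : Set ZFSet.{0}} (hN : TM N) {e : ZFSet.{0}} (he : e ∈ N)
    (hno : ∀ f ∈ N, IsFunc omega HF f → ¬ Desc e f) :
    ∀ d ∈ N, d ⊆ HF → d ≠ ∅ → ∃ x ∈ d, ∀ y ∈ d, pair y x ∉ e := by
  intro d hdN hd hne
  by_contra hcon
  push Not at hcon
  obtain ⟨x₀, hx₀⟩ : ∃ x, x ∈ d := by
    by_contra h
    push Not at h
    exact hne ((eq_empty d).2 h)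
  have hx₀N : x₀ ∈ N := hN.tr d hdN x₀ hx₀
  let v : ℕ → ZFSet.{0} := cons d (cons e (fun _ => x₀))
  have hv : ∀ n, v n ∈ N := by
    intro n
    rcases n with _ | _ | n
    exacts [hdN, he, hx₀N]
  have hF : ∀ n, WfHF.Fn v n ∈ d ∧ pair (WfHF.Fn v (n + 1)) (WfHF.Fn v n) ∈ e := by
    have step : ∀ n, WfHF.Fn v n ∈ d →
        WfHF.Fn v (n + 1) ∈ d ∧ pair (WfHF.Fn v (n + 1)) (WfHF.Fn v n) ∈ e := by
      intro n hn
      exact WfHF.S_spec (v := v) hd (hcon _ hn)
    have h0 : ∀ n, WfHF.Fn v n ∈ d := by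
      intro n
      induction n with
      | zero => exact hx₀
      | succ n ih => exact (step n ih).1
    exact fun n => ⟨h0 n, (step n (h0 n)).2⟩
  have hfN : fgr (fun x => WfHF.Fz v x) omega ∈ N :=
    (UF.fgr (F := fun _ x v => WfHF.Fz v x) UF.omega WfHF.UF_Fz).mem N hN v hv
  have happ : ∀ n, app (fgr (fun x => WfHF.Fz v x) omega) (nz n) = WfHF.Fn v n := by
    intro n
    rw [app_fgr (nz_mem_omega n), WfHF.Fz_nz]
  refine hno _ hfN ⟨?_, ?_⟩ ?_
  · intro t ht
    obtain ⟨y, hy, rfl⟩ := mem_fgr.1 ht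
    obtain ⟨n, rfl⟩ := mem_omega.1 hy
    rw [WfHF.Fz_nz]
    exact pair_mem_prod.2 ⟨hy, hd (hF n).1⟩
  · intro z hz
    exact ⟨_, pair_mem_fgr.2 ⟨hz, rfl⟩, fun y hy => (pair_mem_fgr.1 hy).2⟩
  · intro n hn
    obtain ⟨n, rfl⟩ := mem_omega.1 hn
    have h1 : (insert (nz n) (nz n) : ZFSet) = nz (n + 1) := rfl
    rw [h1, happ, happ]
    exact (hF n).2

/-- conversely, a descending sequence in the real world gives one in `N` -/
theorem desc_of_honest {N : Set ZFSet.{0}} (hN : TM N) {e : ZFSet.{0}} (he : e ∈ N)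
    (hs : e ⊆ ZFSet.prod HF HF)
    (w : ℕ → ZFSet.{0}) (hw : ∀ n, pair (w (n + 1)) (w n) ∈ e) :
    ∃ f ∈ N, IsFunc omega HF f ∧ Desc e f := by
  by_contra hcon
  push Not at hcon
  have hHF : HF ∈ N := UF.HF.mem N hN (fun _ => e) (fun _ => he)
  have hwf := honest_wf hN hHF he (wfHF hN he hcon)
  have hHFw : ∀ n, w n ∈ HF := fun n => (pair_mem_prod.1 (hs (hw n))).2
  obtain ⟨m, ⟨n, rfl⟩, hmin⟩ := hwf.has_min (Set.range w) ⟨_, 0, rfl⟩
  exact hmin (w (n + 1)) ⟨n + 1, rfl⟩ ⟨hHFw _, hHFw _, hw n⟩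

end H83.AC
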