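import Pool.Agent.H83.AC.Defs3
import Pool.Agent.H83.AC.Fn
import Pool.Agent.H83.AC.WfHF

/-!
# Module Gen0: inside the model there are sets meeting a family of dense sets indexed by `HF`

In `M`: for a condition `p` and `h ∈ HF` let `s p h` be the condition `q ⊇ p` with `pair h q ∈ E` of least
code (`pair n q ∈ cdg`, least `n ∈ omega`); define `f` on `omega` by recursion along membership
(`UF.recMem`): `f 0 = ζ`, `f (n ∪ {n}) = s (f n) (app cdg n)` (`⋃₀ (insert n n) = n` for natural numbers `n`;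
`G N v x f = if x = ∅ then ζ else s (app f (⋃₀ x)) (app cdg (⋃₀ x))` with `ζ`, `E` as variables of `v`).
`z = {a ∈ Idx : ∃ n ∈ omega, pair a one ∈ f n} ∈ M`. All `f n` fit `z` because they are increasing
conditions. Model for the style: module WfHF.
-/

namespace H83.AC

open ZFSet

namespace Gen0

instance numI {f : Set ZFSet.{0} → (ℕ → ZFSet.{0}) → ZFSet.{0}} [hf : UF f] :
    UF (fun N v => nz (Cd.num (f N v))) :=
  UF.comp1 (F := fun _ x => nz (Cd.num x)) Cd.UF_num hf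

/-- the extension of `p` of least code in the member of the family with index `cd n` -/
noncomputable def S (E p n : ZFSet.{0}) : ZFSet.{0} :=
  ⋃₀ (ZFSet.sep (fun q => (p ⊆ q ∧ pair (app cdg n) q ∈ E) ∧
    ∀ z ∈ Cond, (p ⊆ z ∧ pair (app cdg n) z ∈ E) → nz (Cd.num z) ∉ nz (Cd.num q)) Cond)

theorem UF_S {f g h : Set ZFSet.{0} → (ℕ → ZFSet.{0}) → ZFSet.{0}} (hf : UF f) (hg : UF g)
    (hh : UF h) : UF (fun N v => S (f N v) (g N v) (h N v)) := by
  unfold S
  infer_instance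

theorem S_spec {E p n : ZFSet.{0}} (h : ∃ q ∈ Cond, p ⊆ q ∧ pair (app cdg n) q ∈ E) :
    S E p n ∈ Cond ∧ p ⊆ S E p n ∧ pair (app cdg n) (S E p n) ∈ E := by
  classical
  have hne : ∃ k, ∃ q ∈ Cond, (p ⊆ q ∧ pair (app cdg n) q ∈ E) ∧ Cd.num q = k := by
    obtain ⟨q, hq, h⟩ := h
    exact ⟨_, q, hq, h, rfl⟩
  obtain ⟨y, hy, hyx, hn⟩ := Nat.find_spec hne
  have hmin : ∀ z ∈ Cond, (p ⊆ z ∧ pair (app cdg n) z ∈ E) → Cd.num y ≤ Cd.num z := by
    intro z hz hzx
    rw [hn]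
    exact Nat.find_min' hne ⟨z, hz, hzx, rfl⟩
  have e : S E p n = y := by
    ext t
    rw [S, mem_sUnion]
    constructor
    · rintro ⟨z, hz, ht⟩
      obtain ⟨hz, hzx, h⟩ := mem_sep.1 hz
      have h1 := h y hy hyx
      rw [nz_mem_nz, not_lt] at h1
      have : z = y := Cd.num_inj (cond_HF hz) (cond_HF hy) (le_antisymm h1 (hmin z hz hzx))
      rwa [this] at ht
    · intro ht
      refine ⟨y, mem_sep.2 ⟨hy, hyx, fun z hz hzx => ?_⟩, ht⟩
      rw [nz_mem_nz, not_lt]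
      exact hmin z hz hzx
  rw [e]
  exact ⟨hy, hyx⟩

/-- the increasing sequence of conditions -/
noncomputable def Fn (v : ℕ → ZFSet.{0}) : ℕ → ZFSet.{0}
  | 0 => v 1
  | n + 1 => S (v 0) (Fn v n) (nz n)

open Classical in
/-- the sequence, as a function of sets -/
noncomputable def Fz (v : ℕ → ZFSet.{0}) (x : ZFSet.{0}) : ZFSet.{0} :=
  if h : ∃ n, x = nz n then Fn v h.choose else ∅

theorem Fz_nz (v : ℕ → ZFSet.{0}) (n : ℕ) : Fz v (nz n) = Fn v n := by
  have h : ∃ m, nz n = nz m := ⟨n, rfl⟩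
  rw [Fz, dif_pos h]
  rw [← nz_inj.1 h.choose_spec]

open Classical in
theorem UF_Fz : UF (fun _ w => Fz (sh w) (w 0)) := by
  refine UF.recMem (F := fun _ v x => Fz v x)
    (G := fun _ v x f => if x ∈ omega then
      (if x = ∅ then v 1 else S (v 0) (app f (⋃₀ x : ZFSet)) (⋃₀ x : ZFSet)) else ∅) ?_ ?_
  · refine UF.ite (R := fun _ w => w 0 ∈ omega) (UR.mem (UF.var 0) UF.omega) ?_ UF.empty
    refine UF.ite (R := fun _ w => w 0 = ∅) (UR.eq (UF.var 0) UF.empty) (UF.var 3) ?_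
    exact UF_S (UF.var 2) (UF.app (UF.var 1) (UF.sUnion (UF.var 0))) (UF.sUnion (UF.var 0))
  · intro N _ v _ x _
    by_cases hx : x ∈ omega
    · rw [if_pos hx]
      obtain ⟨n, rfl⟩ := mem_omega.1 hx
      rcases n with _ | n
      · rw [if_pos (show nz 0 = ∅ from rfl), Fz_nz]
        rfl
      · rw [if_neg, WfHF.sUnion_nz, app_fgr, Fz_nz, Fz_nz]
        · rfl
        · exact nz_mem_nz.2 (Nat.lt_succ_self n)
        · intro e
          have : nz n ∈ nz (n + 1) := nz_mem_nz.2 (Nat.lt_succ_self n)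
          rw [e] at this
          exact notMem_empty _ this
    · rw [if_neg hx, Fz, dif_neg]
      rintro ⟨n, rfl⟩
      exact hx (nz_mem_omega n)

end Gen0

theorem gen0 {M : Set ZFSet.{0}} (hM : TM M) {E : ZFSet.{0}} (hE : E ∈ M) (hd : Fam E)
    {ζ : ZFSet.{0}} (hζ : ζ ∈ Cond) :
    ∃ z ∈ M, z ⊆ Idx ∧ Fits ζ (cls z) ∧ Meets E (cls z) := by
  have hCM : Cond ∈ M := UF.Cond.mem M hM (fun _ => E) (fun _ => hE)
  have hζM : ζ ∈ M := hM.tr _ hCM _ hζ
  let v : ℕ → ZFSet.{0} := cons E (fun _ => ζ)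
  have hv : ∀ n, v n ∈ M := by
    intro n
    rcases n with _ | n
    exacts [hE, hζM]
  have hF : ∀ n, Gen0.Fn v n ∈ Cond := by
    intro n
    induction n with
    | zero => exact hζ
    | succ n ih =>
      refine (Gen0.S_spec (E := v 0) (p := Gen0.Fn v n) (n := nz n) ?_).1
      rw [app_cdg]
      exact hd (cd n) (mem_HF_cd.2 ⟨n, rfl⟩) _ ih
  have hS : ∀ n, Gen0.Fn v n ⊆ Gen0.Fn v (n + 1) ∧ pair (cd n) (Gen0.Fn v (n + 1)) ∈ E := by
    intro n
    have h := (Gen0.S_spec (E := v 0) (p := Gen0.Fn v n) (n := nz n) (by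
      rw [app_cdg]
      exact hd (cd n) (mem_HF_cd.2 ⟨n, rfl⟩) _ (hF n))).2
    rw [app_cdg] at h
    exact h
  have hmono : ∀ {i j : ℕ}, i ≤ j → Gen0.Fn v i ⊆ Gen0.Fn v j := by
    intro i j hij
    induction hij with
    | refl => exact fun _ h => h
    | step _ ih => exact fun x hx => (hS _).1 (ih hx)
  have hfN : fgr (fun x => Gen0.Fz v x) omega ∈ M :=
    (UF.fgr (F := fun _ x v => Gen0.Fz v x) UF.omega Gen0.UF_Fz).mem M hM v hv
  have happ : ∀ n, app (fgr (fun x => Gen0.Fz v x) omega) (nz n) = Gen0.Fn v n := by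
    intro n
    rw [app_fgr (nz_mem_omega n), Gen0.Fz_nz]
  let F := fgr (fun x => Gen0.Fz v x) omega
  let z := ZFSet.sep (fun a => ∃ n ∈ omega, pair a one ∈ app F n) Idx
  have hzM : z ∈ M :=
    (inferInstance : UF (fun _ v => ZFSet.sep (fun a => ∃ n ∈ omega,
      pair a one ∈ app (v 0) n) Idx)).mem M hM (fun _ => F) (fun _ => hfN)
  have hfit : ∀ n, Fits (Gen0.Fn v n) (cls z) := by
    intro n a
    constructor
    · intro h
      refine mem_sep.2 ⟨?_, nz n, nz_mem_omega n, ?_⟩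
      · obtain ⟨b, hb, h1 | h1⟩ := cond_lit (hF n) h
        · rw [(pair_inj.1 h1).1]; exact hb
        · rw [(pair_inj.1 h1).1]; exact hb
      · show pair a one ∈ app F (nz n)
        rw [happ]; exact h
    · intro h hz
      obtain ⟨-, m, hm, h1⟩ := mem_sep.1 hz
      obtain ⟨m, rfl⟩ := mem_omega.1 hm
      have h2 : pair a one ∈ Gen0.Fn v m := by rw [← happ]; exact h1
      exact (mem_cond.1 (hF (max n m))).2.2 a ⟨hmono (le_max_left n m) h,
        hmono (le_max_right n m) h2⟩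
  refine ⟨z, hzM, fun a ha => (mem_sep.1 ha).1, hfit 0, ?_⟩
  intro h hh
  obtain ⟨n, rfl⟩ := mem_HF_cd.1 hh
  exact ⟨_, hF (n + 1), hfit (n + 1), (hS n).2⟩

end H83.AC
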