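import Pool.Agent.H83.AC.Code
import Pool.Agent.H83.AC.Gen0

/-!
# Module GenB: a ground model set which is generic enough relative to all generic sets

Apply `gen0` to the family `E` with members indexed by pairs `x = pair h r ∈ HF` (`h ∈ HF`, `r ∈ Cond`;
for other `x ∈ HF` all conditions): `s` is in the `x`-th member iff
`∃ r' ∈ Cond, r ⊆ r' ∧ pair h (join r' s) ∈ D`; dense by `join_dense`, but note that
one needs `D` to be closed under extension or to take `s` itself: `join_dense` gives `r'`, `s'` with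
`pair h (join r' s') ∈ D` exactly. In `M` by `TM.sep_of` (`UF.join`).
Then for generic `c` and `h ∈ HF`: the set of all `r' ∈ Cond` such that
`∃ s ∈ Cond`, `s` fits `g` and `pair h (join r' s) ∈ D` is dense and in `M` (`Fits s (cls g)` is
definable with the parameter `g`: `∀ a ∈ Idx, ..`, conditions have their literals in `Idx`), so `c` meets it;
`join_fits`.
-/

namespace H83.AC

open ZFSet

/-- the family of dense sets indexed by pairs -/
private noncomputable def genE (D : ZFSet.{0}) : ZFSet.{0} :=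
  ZFSet.sep (fun t => ∀ h ∈ HF, ∀ r ∈ Cond, fst t = pair h r →
    ∃ r' ∈ Cond, r ⊆ r' ∧ pair h (join r' (snd t)) ∈ D) (ZFSet.prod HF Cond)

private theorem genE_mem {M : Set ZFSet.{0}} (hM : TM M) {D : ZFSet.{0}} (hD : D ∈ M) :
    genE D ∈ M := by
  have h : UF (fun _ v => ZFSet.sep (fun t => ∀ h ∈ HF, ∀ r ∈ Cond, fst t = ZFSet.pair h r →
      ∃ r' ∈ Cond, r ⊆ r' ∧ ZFSet.pair h (join r' (snd t)) ∈ v 0) (ZFSet.prod HF Cond)) := by
    infer_instance
  exact h.mem M hM (fun _ => D) (fun _ => hD)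

private theorem genE_fam {D : ZFSet.{0}} (hd : Fam D) : Fam (genE D) := by
  intro x hx p hp
  by_cases hxp : ∃ h ∈ HF, ∃ r ∈ Cond, x = pair h r
  · obtain ⟨h, hh, r, hr, rfl⟩ := hxp
    obtain ⟨r', hr', s', hs', h1, h2, h3⟩ :=
      join_dense (D := fun q => pair h q ∈ D) (hd h hh) hr hp
    refine ⟨s', hs', h2, mem_sep.2 ⟨pair_mem_prod.2 ⟨hx, hs'⟩, ?_⟩⟩
    intro k _ t _ e
    rw [fst_pair] at e
    obtain ⟨rfl, rfl⟩ := pair_inj.1 e
    rw [snd_pair]
    exact ⟨r', hr', h1, h3⟩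
  · refine ⟨p, hp, fun _ h => h, mem_sep.2 ⟨pair_mem_prod.2 ⟨hx, hp⟩, ?_⟩⟩
    intro k hk t ht e
    rw [fst_pair] at e
    exact absurd ⟨k, hk, t, ht, e⟩ hxp

/-- the dense set which `c` has to meet -/
private noncomputable def genD (D z h : ZFSet.{0}) : ZFSet.{0} :=
  ZFSet.sep (fun r => ∃ s ∈ Cond, (∀ a ∈ Idx, (pair a one ∈ s → a ∈ z) ∧ (pair a ∅ ∈ s → ¬ a ∈ z)) ∧
    pair h (join r s) ∈ D) Cond

private theorem genD_mem {M : Set ZFSet.{0}} (hM : TM M) {D z h : ZFSet.{0}} (hD : D ∈ M)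
    (hz : z ∈ M) (hh : h ∈ M) : genD D z h ∈ M := by
  have H : UF (fun _ v => ZFSet.sep (fun r => ∃ s ∈ Cond,
      (∀ a ∈ Idx, (ZFSet.pair a one ∈ s → a ∈ v 1) ∧ (ZFSet.pair a ∅ ∈ s → ¬ a ∈ v 1)) ∧
      ZFSet.pair (v 2) (join r s) ∈ v 0) Cond) := by
    infer_instance
  exact H.mem M hM (cons D (cons z (fun _ => h))) (fun n => by
    rcases n with _ | _ | n
    exacts [hD, hz, hh])

private theorem fits_iff {s z : ZFSet.{0}} (hs : s ∈ Cond) : Fits s (cls z) ↔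
    ∀ a ∈ Idx, (pair a one ∈ s → a ∈ z) ∧ (pair a ∅ ∈ s → ¬ a ∈ z) := by
  constructor
  · intro h a _
    exact h a
  · intro h a
    constructor
    · intro ha
      obtain ⟨b, hb, e⟩ := cond_lit hs ha
      have e' : a = b := by rcases e with e | e <;> exact (pair_inj.1 e).1
      subst e'
      exact (h a hb).1 ha
    · intro ha
      obtain ⟨b, hb, e⟩ := cond_lit hs ha
      have e' : a = b := by rcases e with e | e <;> exact (pair_inj.1 e).1
      subst e'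
      exact (h a hb).2 ha

theorem genB {M : Set ZFSet.{0}} (hM : TM M) {D : ZFSet.{0}} (hD : D ∈ M) (hd : Fam D)
    {ζ : ZFSet.{0}} (hζ : ζ ∈ Cond) :
    ∃ g ∈ M, g ⊆ Idx ∧ Fits ζ (cls g) ∧ ∀ c, Gen M c → Meets D (code c (cls g)) := by
  obtain ⟨z, hz, hzI, hζz, hmeet⟩ := gen0 hM (genE_mem hM hD) (genE_fam hd) hζ
  refine ⟨z, hz, hzI, hζz, fun c hc h hh => ?_⟩
  have hHF : HF ∈ M := UF.HF.mem M hM (fun _ => D) (fun _ => hD)
  have hdense : Dense (genD D z h) := by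
    refine ⟨fun t ht => (mem_sep.1 ht).1, fun r hr => ?_⟩
    obtain ⟨s, hs, hsz, hsE⟩ := hmeet (pair h r) (HF_pair hh (cond_HF hr))
    obtain ⟨r', hr', hrr, hD'⟩ := (mem_sep.1 hsE).2 h hh r hr (fst_pair _ _)
    rw [snd_pair] at hD'
    exact ⟨r', mem_sep.2 ⟨hr', s, hs, (fits_iff hs).1 hsz, hD'⟩, hrr⟩
  obtain ⟨p, hp, hpc⟩ := hc.2 _ (genD_mem hM hD hz (hM.tr _ hHF h hh)) hdense
  obtain ⟨hpC, s, hs, hsz, hD'⟩ := mem_sep.1 hp
  exact ⟨join p s, join_cond hpC hs,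
    (join_fits hpC hs hc.1 (fun a ha => hzI ha)).2 ⟨hpc, (fits_iff hs).2 hsz⟩, hD'⟩

end H83.AC
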