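import Pool.Agent.H83.AC.CondB

/-!
# Module GenEx: generic sets exist

`M` countable. Enumerate the dense sets `D ∈ M` (if there are none, use `{Cond}`..., in fact
`Cond ∈ M` for `TM M`, or add a dummy) and build `p = p₀ ⊆ p₁ ⊆ ..`, `p_{n+1} ∈ D_n`;
`c = {a ∈ Idx : pair a one ∈ p_n for some n}`. `Fits p_n c`: if `pair a ∅ ∈ p_n` and
`pair a one ∈ p_m` then both are in `p_{max}`, a contradiction.
-/

namespace H83.AC

open ZFSet

theorem exists_gen {M : Set ZFSet.{0}} (hc : M.Countable) {p : ZFSet.{0}} (hp : p ∈ Cond) :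
    ∃ c, Gen M c ∧ Fits p c := by
  classical
  have hcD : ({D : ZFSet.{0} | D ∈ M ∧ Dense D} ∪ {Cond}).Countable :=
    (hc.mono (fun D hD => hD.1)).union (Set.countable_singleton _)
  obtain ⟨e, he⟩ := hcD.exists_eq_range ⟨Cond, Or.inr rfl⟩
  have hed : ∀ n, Dense (e n) := by
    intro n
    have h1 : e n ∈ {D : ZFSet.{0} | D ∈ M ∧ Dense D} ∪ {Cond} := by
      rw [he]
      exact Set.mem_range_self n
    rcases h1 with h1 | h1
    · exact h1.2
    · rw [Set.mem_singleton_iff] at h1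
      rw [h1]
      exact ⟨fun _ hx => hx, fun q hq => ⟨q, hq, fun _ hx => hx⟩⟩
  let f : ℕ → {q : ZFSet.{0} // q ∈ Cond} := fun n =>
    Nat.rec ⟨p, hp⟩ (fun k q => ⟨Classical.choose ((hed k).2 q.1 q.2),
      (hed k).1 (Classical.choose_spec ((hed k).2 q.1 q.2)).1⟩) n
  have hf0 : (f 0).1 = p := rfl
  have hfs : ∀ n, (f (n + 1)).1 ∈ e n ∧ (f n).1 ⊆ (f (n + 1)).1 := fun n =>
    Classical.choose_spec ((hed n).2 (f n).1 (f n).2)
  have hmono : ∀ m n, m ≤ n → (f m).1 ⊆ (f n).1 := by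
    intro m n hmn
    induction hmn with
    | refl => exact fun _ hx => hx
    | step _ ih => exact fun _ hx => (hfs _).2 (ih hx)
  have hcons : ∀ n a, ¬ (pair a ∅ ∈ (f n).1 ∧ pair a one ∈ (f n).1) := fun n a =>
    (mem_cond.1 (f n).2).2.2 a
  have hfit : ∀ n, Fits (f n).1 {a | ∃ m, pair a one ∈ (f m).1} := by
    intro n a
    refine ⟨fun h => ⟨n, h⟩, ?_⟩
    rintro h ⟨m, hm⟩
    exact hcons (max m n) a ⟨hmono n _ (le_max_right _ _) h, hmono m _ (le_max_left _ _) hm⟩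
  refine ⟨{a | ∃ m, pair a one ∈ (f m).1}, ⟨?_, ?_⟩, ?_⟩
  · rintro a ⟨m, hm⟩
    obtain ⟨b, hb, h1 | h1⟩ := cond_lit (f m).2 hm
    · rw [(ZFSet.pair_injective h1).1]
      exact hb
    · rw [(ZFSet.pair_injective h1).1]
      exact hb
  · intro D hD hDd
    have h1 : D ∈ {D : ZFSet.{0} | D ∈ M ∧ Dense D} ∪ {Cond} := Or.inl ⟨hD, hDd⟩
    rw [he] at h1
    obtain ⟨n, rfl⟩ := h1
    exact ⟨(f (n + 1)).1, (hfs n).1, hfit (n + 1)⟩
  · have h1 := hfit 0
    rw [hf0] at h1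
    exact h1

end H83.AC
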