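import Pool.Agent.H83.AC.TauF
import Pool.Agent.H83.AC.GenB
import Pool.Agent.H83.AC.GenEx

/-!
# Module GenA: a generic set and its translate form a generic enough pair

Let `q₁ ∈ Cond` with `TF q₁ q` (`TF_surj`), `r₁ = lp k0 q₁`, `s₁ = lp k1 q₁`, so `q₁ = join r₁ s₁`.
`D' = {pair h q' : h ∈ HF, q' ∈ Cond, ∃ t ∈ Cond, pair h t ∈ D ∧ TF q' t} ∈ M` is a family of dense sets
(`TF_dense`). `genB` with `D'` and `ζ = s₁` gives `g = z`; `exists_gen` gives a generic `c` with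
`Fits r₁ c`. Then `join_fits`, `TF_fits`.
-/

namespace H83.AC

open ZFSet

theorem genA {M : Set ZFSet.{0}} (hM : TM M) (hct : M.Countable) {D : ZFSet.{0}} (hD : D ∈ M)
    (hd : Fam D) {q : ZFSet.{0}} (hq : q ∈ Cond) :
    ∃ z ∈ M, z ⊆ Idx ∧ ∃ c, Gen M c ∧ Fits q (code c (sd c z)) ∧ Meets D (code c (sd c z)) := by
  obtain ⟨q₁, hq₁, hTF⟩ := TF_surj hq
  have hr₁ : lp k0 q₁ ∈ Cond := lp_cond emb_k0 hq₁
  have hs₁ : lp k1 q₁ ∈ Cond := lp_cond emb_k1 hq₁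
  have hR : UR (fun N v => snd (v 0) ∈ Cond ∧ ∃ t ∈ Cond, pair (fst (v 0)) t ∈ v 1 ∧
      H83.AC.TF (snd (v 0)) t) := by infer_instance
  have hHF : HF ∈ M := by
    have h1 : UF (fun _ _ => HF) := by infer_instance
    exact h1.mem M hM (fun _ => D) (fun _ => hD)
  have hCond : Cond ∈ M := by
    have h1 : UF (fun _ _ => Cond) := by infer_instance
    exact h1.mem M hM (fun _ => D) (fun _ => hD)
  have hprod : ZFSet.prod HF Cond ∈ M := by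
    have h1 : UF (fun _ v => ZFSet.prod (v 0) (v 1)) := UF.prod (UF.var 0) (UF.var 1)
    exact h1.mem M hM (cons HF (fun _ => Cond)) (fun n => by
      cases n with
      | zero => exact hHF
      | succ n => exact hCond)
  have hD' : ZFSet.sep (fun w => snd w ∈ Cond ∧ ∃ t ∈ Cond, pair (fst w) t ∈ D ∧ TF (snd w) t)
      (ZFSet.prod HF Cond) ∈ M :=
    TM.sep_of (R := fun _ w v => snd w ∈ Cond ∧ ∃ t ∈ Cond, pair (fst w) t ∈ v 0 ∧
      H83.AC.TF (snd w) t) hR hM (v := fun _ => D) (fun _ => hD) hprod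
  have hmem : ∀ {h q' : ZFSet.{0}}, pair h q' ∈ ZFSet.sep (fun w => snd w ∈ Cond ∧
      ∃ t ∈ Cond, pair (fst w) t ∈ D ∧ TF (snd w) t) (ZFSet.prod HF Cond) ↔
      h ∈ HF ∧ q' ∈ Cond ∧ ∃ t ∈ Cond, pair h t ∈ D ∧ TF q' t := by
    intro h q'
    rw [mem_sep, fst_pair, snd_pair, ZFSet.pair_mem_prod]
    constructor
    · rintro ⟨⟨h1, h2⟩, -, h3⟩
      exact ⟨h1, h2, h3⟩
    · rintro ⟨h1, h2, h3⟩
      exact ⟨⟨h1, h2⟩, h2, h3⟩
  have hFam : Fam (ZFSet.sep (fun w => snd w ∈ Cond ∧ ∃ t ∈ Cond, pair (fst w) t ∈ D ∧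
      TF (snd w) t) (ZFSet.prod HF Cond)) := by
    intro h hh p hp
    obtain ⟨q', hq', hpq', t, ht, htD, htF⟩ := TF_dense (D := fun t => pair h t ∈ D)
      (fun p hp => hd h hh p hp) hp
    exact ⟨q', hq', hpq', hmem.2 ⟨hh, hq', t, ht, htD, htF⟩⟩
  obtain ⟨g, hgM, hgI, hgf, hg⟩ := genB hM hD' hFam hs₁
  obtain ⟨c, hc, hcf⟩ := exists_gen hct hr₁
  have hgI' : ∀ a ∈ cls g, a ∈ Idx := fun a ha => hgI ha
  have hfit : Fits q₁ (code c (cls g)) := by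
    rw [← join_split hq₁, join_fits hr₁ hs₁ hc.1 hgI']
    exact ⟨hcf, hgf⟩
  refine ⟨g, hgM, hgI, c, hc, TF_fits hq hTF hc.1 hgI hfit, ?_⟩
  intro h hh
  obtain ⟨q', hq', hq'f, hq'D⟩ := hg c hc h hh
  obtain ⟨-, -, t, ht, htD, htF⟩ := hmem.1 hq'D
  exact ⟨t, ht, TF_fits ht htF hc.1 hgI hq'f, htD⟩

end H83.AC
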