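import Pool.Agent.H83.AC.Fn
import Pool.Agent.H83.AC.WfHF

/-!
# Module HBrU: branches of trees are absolute

`UR.Node`: the set `s` in the definition of `Node` is a first component of an element of `T`, so it
may be bounded by `⋃₀ ⋃₀ T`. `Node_HF`: `w` is a finite function.
`HBr_iff`: let `T, x ∈ N`, `e = {(w', w) : Node T x w, Node T x w', Up w w'} ∈ N` (a subset of
`prod HF HF`). (→) `desc_of_honest`. (←) take `w n = app g (nz n)`.
`HBr_rank`: if there is no honest chain, `e` is well-founded for all nonempty `d ∈ N` (by `wfHF`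
applied to: a descending sequence `f ∈ N` would give an honest chain); `setRank` with `a = HF` gives
the function.
`UR.HBr`: by `HBr_iff`, with `T ⊆ HF`, `x ⊆ HF`.
-/

namespace H83.AC

open ZFSet

theorem Node_HF {T x w : ZFSet.{0}} (h : Node T x w) : w ∈ HF := by
  obtain ⟨n, hn, hw, -⟩ := h
  obtain ⟨k, rfl⟩ := mem_omega.1 hn
  exact fn_fin omega_sub_HF hw

theorem Node_mono {T T' x x' w : ZFSet.{0}} (hT : T ⊆ T') (hx : x ⊆ x') (h : Node T x w) :
    Node T' x' w := by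
  obtain ⟨n, hn, hw, s, hs, hs1, hs2⟩ := h
  exact ⟨n, hn, hw, s, fun z hz => hx (hs hz), hs1, hT hs2⟩

theorem UR.Node {f g h : Set ZFSet.{0} → (ℕ → ZFSet.{0}) → ZFSet.{0}} (hf : UF f) (hg : UF g)
    (hh : UF h) : UR (fun N v => H83.AC.Node (f N v) (g N v) (h N v)) := by
  have h1 : UR (fun N v => ∃ n ∈ omega, IsFunc n omega (h N v) ∧
      ∃ s ∈ (⋃₀ (⋃₀ (f N v) : ZFSet) : ZFSet), s ⊆ g N v ∧ IsFunc n omega s ∧
        ZFSet.pair s (h N v) ∈ f N v) := by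
    infer_instance
  refine h1.congr fun N _ v _ => ?_
  constructor
  · rintro ⟨n, hn, hw, s, hs, hs1, hs2⟩
    exact ⟨n, hn, hw, s, fst_mem_ssU hs2, hs, hs1, hs2⟩
  · rintro ⟨n, hn, hw, s, -, hs, hs1, hs2⟩
    exact ⟨n, hn, hw, s, hs, hs1, hs2⟩

instance Inst.Node {f g h : Set ZFSet.{0} → (ℕ → ZFSet.{0}) → ZFSet.{0}} [hf : UF f] [hg : UF g]
    [hh : UF h] : UR (fun N v => H83.AC.Node (f N v) (g N v) (h N v)) := UR.Node hf hg hh

/-- the relation: `w ⊂ w'` are nodes -/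
private noncomputable def erel (T x : ZFSet.{0}) : ZFSet.{0} :=
  ZFSet.sep (fun t => Node T x (fst t) ∧ Node T x (snd t) ∧ snd t ⊆ fst t ∧ snd t ≠ fst t)
    (ZFSet.prod HF HF)

private theorem erel_mem {N : Set ZFSet.{0}} (hN : TM N) {T x : ZFSet.{0}} (hT : T ∈ N)
    (hx : x ∈ N) : erel T x ∈ N := by
  have h : UF (fun _ v => ZFSet.sep (fun t => Node (v 0) (v 1) (fst t) ∧
      Node (v 0) (v 1) (snd t) ∧ snd t ⊆ fst t ∧ ¬ (snd t = fst t)) (ZFSet.prod HF HF)) := by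
    infer_instance
  exact h.mem N hN (cons T (fun _ => x)) (fun n => by
    cases n with
    | zero => exact hT
    | succ n => exact hx)

private theorem pair_erel {T x w w' : ZFSet.{0}} : pair w' w ∈ erel T x ↔
    Node T x w' ∧ Node T x w ∧ w ⊆ w' ∧ w ≠ w' := by
  rw [erel, mem_sep, fst_pair, snd_pair, pair_mem_prod]
  exact ⟨fun h => h.2, fun h => ⟨⟨Node_HF h.1, Node_HF h.2.1⟩, h⟩⟩

theorem HBr_iff {N : Set ZFSet.{0}} (hN : TM N) {T x : ZFSet.{0}} (hT : T ∈ N) (hx : x ∈ N) :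
    HBr T x ↔ ∃ g ∈ N, IsFunc omega HF g ∧ ∀ n ∈ omega, Node T x (app g n) ∧
      app g n ⊆ app g (insert n n) ∧ app g n ≠ app g (insert n n) := by
  constructor
  · rintro ⟨w, hw⟩
    obtain ⟨f, hfN, hf, hd⟩ := desc_of_honest hN (erel_mem hN hT hx)
      (fun t ht => (mem_sep.1 ht).1) w
      (fun n => pair_erel.2 ⟨(hw (n + 1)).1, (hw n).1, (hw n).2.1, (hw n).2.2⟩)
    refine ⟨f, hfN, hf, fun n hn => ?_⟩
    have h := pair_erel.1 (hd n hn)
    exact ⟨h.2.1, h.2.2.1, h.2.2.2⟩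
  · rintro ⟨g, -, -, hg⟩
    exact ⟨fun n => app g (nz n), fun n => hg (nz n) (nz_mem_omega n)⟩

theorem HBr_rank {N : Set ZFSet.{0}} (hN : TM N) {T x : ZFSet.{0}} (hT : T ∈ N) (hx : x ∈ N)
    (h : ¬ HBr T x) : ∃ f ∈ N, ∃ y ∈ N, IsFunc HF (rk y) f ∧
      ∀ w w', Node T x w → Node T x w' → w ⊆ w' → w ≠ w' → app f w' ∈ app f w := by
  have hHF : HF ∈ N := UF.HF.mem N hN (fun _ => T) (fun _ => hT)
  have hwf := wfHF hN (erel_mem hN hT hx) (fun f hf hfun hd => h ((HBr_iff hN hT hx).2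
    ⟨f, hf, hfun, fun n hn => by
      have h := pair_erel.1 (hd n hn)
      exact ⟨h.2.1, h.2.2.1, h.2.2.2⟩⟩))
  obtain ⟨f, hf, y, hy, h1, h2⟩ := setRank hN hHF (erel_mem hN hT hx) hwf
  exact ⟨f, hf, y, hy, h1, fun w w' hw hw' hs hne =>
    h2 w (Node_HF hw) w' (Node_HF hw') (pair_erel.2 ⟨hw', hw, hs, hne⟩)⟩

theorem UR.HBr {f g : Set ZFSet.{0} → (ℕ → ZFSet.{0}) → ZFSet.{0}} (hf : UF f) (hg : UF g) :
    UR (fun N v => H83.AC.HBr (f N v) (g N v)) := by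
  have h1 : UR (fun N v => ∃ k ∈ N, IsFunc omega HF k ∧ ∀ n ∈ omega,
      H83.AC.Node (f N v) (g N v) (app k n) ∧ app k n ⊆ app k (insert n n) ∧
        ¬ (app k n = app k (insert n n))) := by
    infer_instance
  exact h1.congr fun N hN v hv => HBr_iff hN (hf.mem N hN v hv) (hg.mem N hN v hv)

instance Inst.HBr {f g : Set ZFSet.{0} → (ℕ → ZFSet.{0}) → ZFSet.{0}} [hf : UF f] [hg : UF g] :
    UR (fun N v => H83.AC.HBr (f N v) (g N v)) := UR.HBr hf hg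

end H83.AC
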