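import Pool.Agent.H83.AC.Defs3

/-!
# Module Pi02: properties of the second Borel level are forced

`Qp_force`: `D₁` = the set of all `q ∈ Cond` such that either
(a) `∃ h ∈ HF, ∀ r ∈ Cond, q ⊆ r → ∀ p ∈ Cond, p ⊆ r → pair h p ∉ Pos`, or
(b) the first clause of `FQ` holds for `q`. It is in `M` and dense. `c` meets it in `q₁`; (a) contradicts
`Qp` (take `p` for `h`, `r = q₁ ∪ p`, `union_fits`). `D₂` = all `q ∈ Cond` such that some `p ∈ Cond`,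
`p ∈ Neg`, `p ⊆ q`, or no `p ∈ Cond ∩ Neg` is compatible with `q`. `q = q₁ ∪ q₂`.
`FQ_fam`: `D = {pair h r : h ∈ HF, r ∈ Cond, r ∪ q ∉ Cond ∨ ∃ p ∈ Cond, p ⊆ r ∧ pair h p ∈ Pos}`.
-/

namespace H83.AC

open ZFSet

private theorem Pi02_sub_left (a b : ZFSet.{0}) : a ⊆ a ∪ b := fun _ hx => mem_union.2 (Or.inl hx)

private theorem Pi02_sub_right (a b : ZFSet.{0}) : b ⊆ a ∪ b := fun _ hx => mem_union.2 (Or.inr hx)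

theorem FQ_mono {Pos Neg q q' : ZFSet.{0}} (h : FQ Pos Neg q) (hq : q ⊆ q') :
    FQ Pos Neg q' := by
  refine ⟨fun k hk r hr hqr => h.1 k hk r hr fun _ hx => hqr (hq hx), fun p hp hpN hC => ?_⟩
  refine h.2 p hp hpN (cond_sub hC ?_)
  intro x hx
  rcases mem_union.1 hx with hx | hx
  · exact mem_union.2 (Or.inl hx)
  · exact mem_union.2 (Or.inr (hq hx))

theorem Qp_force {M c : Set ZFSet.{0}} (hM : TM M) (hc : Gen M c) {Pos Neg : ZFSet.{0}}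
    (hP : Pos ∈ M) (hN : Neg ∈ M) (h : Qp Pos Neg c) : ∃ q ∈ Cond, Fits q c ∧ FQ Pos Neg q := by
  have hCM : H83.AC.Cond ∈ M := UF.Cond.mem M hM (fun _ => Pos) (fun _ => hP)
  -- the first dense set
  have hD1 : ZFSet.sep (fun q => (∃ k ∈ HF, ∀ r ∈ H83.AC.Cond, q ⊆ r → ∀ p ∈ H83.AC.Cond, p ⊆ r →
        pair k p ∉ Pos) ∨
      (∀ k ∈ HF, ∀ r ∈ H83.AC.Cond, q ⊆ r → ∃ r' ∈ H83.AC.Cond, r ⊆ r' ∧
        ∃ p ∈ H83.AC.Cond, p ⊆ r' ∧ pair k p ∈ Pos)) H83.AC.Cond ∈ M := by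
    have hR : UR (fun N v => (∃ k ∈ H83.AC.HF, ∀ r ∈ H83.AC.Cond, v 0 ⊆ r →
          ∀ p ∈ H83.AC.Cond, p ⊆ r → ¬ (ZFSet.pair k p ∈ sh v 0)) ∨
        (∀ k ∈ H83.AC.HF, ∀ r ∈ H83.AC.Cond, v 0 ⊆ r → ∃ r' ∈ H83.AC.Cond, r ⊆ r' ∧
          ∃ p ∈ H83.AC.Cond, p ⊆ r' ∧ ZFSet.pair k p ∈ sh v 0)) := by
      infer_instance
    exact TM.sep_of (R := fun N q v => (∃ k ∈ H83.AC.HF, ∀ r ∈ H83.AC.Cond, q ⊆ r →
          ∀ p ∈ H83.AC.Cond, p ⊆ r → ¬ (ZFSet.pair k p ∈ v 0)) ∨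
        (∀ k ∈ H83.AC.HF, ∀ r ∈ H83.AC.Cond, q ⊆ r → ∃ r' ∈ H83.AC.Cond, r ⊆ r' ∧
          ∃ p ∈ H83.AC.Cond, p ⊆ r' ∧ ZFSet.pair k p ∈ v 0)) hR hM (v := fun _ => Pos)
      (fun _ => hP) hCM
  have hd1 : Dense (ZFSet.sep (fun q => (∃ k ∈ HF, ∀ r ∈ H83.AC.Cond, q ⊆ r →
        ∀ p ∈ H83.AC.Cond, p ⊆ r → pair k p ∉ Pos) ∨
      (∀ k ∈ HF, ∀ r ∈ H83.AC.Cond, q ⊆ r → ∃ r' ∈ H83.AC.Cond, r ⊆ r' ∧
        ∃ p ∈ H83.AC.Cond, p ⊆ r' ∧ pair k p ∈ Pos)) H83.AC.Cond) := by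
    refine ⟨fun x hx => (mem_sep.1 hx).1, fun q hq => ?_⟩
    by_cases hb : ∀ k ∈ HF, ∀ r ∈ H83.AC.Cond, q ⊆ r → ∃ r' ∈ H83.AC.Cond, r ⊆ r' ∧
        ∃ p ∈ H83.AC.Cond, p ⊆ r' ∧ pair k p ∈ Pos
    · exact ⟨q, mem_sep.2 ⟨hq, Or.inr hb⟩, fun _ hx => hx⟩
    · push Not at hb
      obtain ⟨k, hk, r, hr, hqr, hn⟩ := hb
      exact ⟨r, mem_sep.2 ⟨hr, Or.inl ⟨k, hk, fun r' hr' hrr' p hp hpr' =>
        hn r' hr' hrr' p hp hpr'⟩⟩, fun _ hx => hqr hx⟩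
  obtain ⟨q1, hq1, hf1⟩ := hc.2 _ hD1 hd1
  obtain ⟨hq1C, hq1'⟩ := mem_sep.1 hq1
  have hb1 : ∀ k ∈ HF, ∀ r ∈ H83.AC.Cond, q1 ⊆ r → ∃ r' ∈ H83.AC.Cond, r ⊆ r' ∧
      ∃ p ∈ H83.AC.Cond, p ⊆ r' ∧ pair k p ∈ Pos := by
    rcases hq1' with ⟨k, hk, hn⟩ | hb
    · exfalso
      obtain ⟨p, hp, hpf, hpP⟩ := h.1 k hk
      obtain ⟨hr, -⟩ := union_fits hq1C hp hf1 hpf
      exact hn (q1 ∪ p) hr (Pi02_sub_left q1 p) p hp (Pi02_sub_right q1 p) hpP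
    · exact hb
  -- the second dense set
  have hD2 : ZFSet.sep (fun q => (∃ p ∈ H83.AC.Cond, p ∈ Neg ∧ p ⊆ q) ∨
      (∀ p ∈ H83.AC.Cond, p ∈ Neg → p ∪ q ∉ H83.AC.Cond)) H83.AC.Cond ∈ M := by
    have hR : UR (fun N v => (∃ p ∈ H83.AC.Cond, p ∈ sh v 0 ∧ p ⊆ v 0) ∨
        (∀ p ∈ H83.AC.Cond, p ∈ sh v 0 → ¬ (p ∪ v 0 ∈ H83.AC.Cond))) := by
      infer_instance
    exact TM.sep_of (R := fun N q v => (∃ p ∈ H83.AC.Cond, p ∈ v 0 ∧ p ⊆ q) ∨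
        (∀ p ∈ H83.AC.Cond, p ∈ v 0 → ¬ (p ∪ q ∈ H83.AC.Cond))) hR hM (v := fun _ => Neg)
      (fun _ => hN) hCM
  have hd2 : Dense (ZFSet.sep (fun q => (∃ p ∈ H83.AC.Cond, p ∈ Neg ∧ p ⊆ q) ∨
      (∀ p ∈ H83.AC.Cond, p ∈ Neg → p ∪ q ∉ H83.AC.Cond)) H83.AC.Cond) := by
    refine ⟨fun x hx => (mem_sep.1 hx).1, fun q hq => ?_⟩
    by_cases hb : ∀ p ∈ H83.AC.Cond, p ∈ Neg → p ∪ q ∉ H83.AC.Cond
    · exact ⟨q, mem_sep.2 ⟨hq, Or.inr hb⟩, fun _ hx => hx⟩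
    · push Not at hb
      obtain ⟨p, hp, hpN, hpq⟩ := hb
      exact ⟨p ∪ q, mem_sep.2 ⟨hpq, Or.inl ⟨p, hp, hpN, Pi02_sub_left p q⟩⟩,
        Pi02_sub_right p q⟩
  obtain ⟨q2, hq2, hf2⟩ := hc.2 _ hD2 hd2
  obtain ⟨hq2C, hq2'⟩ := mem_sep.1 hq2
  have hb2 : ∀ p ∈ H83.AC.Cond, p ∈ Neg → p ∪ q2 ∉ H83.AC.Cond := by
    rcases hq2' with ⟨p, hp, hpN, hpq⟩ | hb
    · exact absurd hpN (h.2 p hp (fits_sub hf2 hpq))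
    · exact hb
  obtain ⟨hqC, hqf⟩ := union_fits hq1C hq2C hf1 hf2
  refine ⟨q1 ∪ q2, hqC, hqf, fun k hk r hr hqr => hb1 k hk r hr
    fun _ hx => hqr (Pi02_sub_left q1 q2 hx), fun p hp hpN hC => hb2 p hp hpN (cond_sub hC ?_)⟩
  intro x hx
  rcases mem_union.1 hx with hx | hx
  · exact mem_union.2 (Or.inl hx)
  · exact mem_union.2 (Or.inr (Pi02_sub_right q1 q2 hx))

theorem FQ_fam {M : Set ZFSet.{0}} (hM : TM M) {Pos Neg q : ZFSet.{0}} (hP : Pos ∈ M)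
    (hq : q ∈ Cond) (h : FQ Pos Neg q) :
    ∃ D ∈ M, Fam D ∧ ∀ c, Fits q c → Meets D c → Qp Pos Neg c := by
  have hCM : H83.AC.Cond ∈ M := UF.Cond.mem M hM (fun _ => Pos) (fun _ => hP)
  have hHM : H83.AC.HF ∈ M := UF.HF.mem M hM (fun _ => Pos) (fun _ => hP)
  have hqM : q ∈ M := hM.tr _ hCM q hq
  have hPM : ZFSet.prod H83.AC.HF H83.AC.Cond ∈ M :=
    (inferInstance : UF (fun _ _ => ZFSet.prod H83.AC.HF H83.AC.Cond)).mem M hM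
      (fun _ => Pos) (fun _ => hP)
  have hD : ZFSet.sep (fun t => H83.AC.snd t ∪ q ∉ H83.AC.Cond ∨
      ∃ p ∈ H83.AC.Cond, p ⊆ H83.AC.snd t ∧ pair (H83.AC.fst t) p ∈ Pos)
      (ZFSet.prod H83.AC.HF H83.AC.Cond) ∈ M := by
    have hR : UR (fun N v => (¬ (H83.AC.snd (v 0) ∪ sh v 1 ∈ H83.AC.Cond)) ∨
        ∃ p ∈ H83.AC.Cond, p ⊆ H83.AC.snd (v 0) ∧
          ZFSet.pair (H83.AC.fst (v 0)) p ∈ sh v 0) := by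
      infer_instance
    exact TM.sep_of (R := fun N t v => (¬ (H83.AC.snd t ∪ v 1 ∈ H83.AC.Cond)) ∨
        ∃ p ∈ H83.AC.Cond, p ⊆ H83.AC.snd t ∧ ZFSet.pair (H83.AC.fst t) p ∈ v 0) hR hM
      (v := fun n => if n = 0 then Pos else q) (fun n => by
        by_cases hn : n = 0
        · simp only [hn, if_true]; exact hP
        · simp only [hn, if_false]; exact hqM) hPM
  refine ⟨_, hD, ?_, ?_⟩
  · intro k hk p hp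
    by_cases hpq : p ∪ q ∈ H83.AC.Cond
    · obtain ⟨r', hr', hrr', p', hp', hpr', hpP⟩ := h.1 k hk (p ∪ q) hpq (Pi02_sub_right p q)
      refine ⟨r', hr', fun _ hx => hrr' (Pi02_sub_left p q hx), mem_sep.2 ⟨?_, Or.inr ?_⟩⟩
      · exact pair_mem_prod.2 ⟨hk, hr'⟩
      · rw [fst_pair, snd_pair]
        exact ⟨p', hp', hpr', hpP⟩
    · refine ⟨p, hp, fun _ hx => hx, mem_sep.2 ⟨?_, Or.inl ?_⟩⟩
      · exact pair_mem_prod.2 ⟨hk, hp⟩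
      · rw [snd_pair]; exact hpq
  · intro c hqc hmeet
    refine ⟨fun k hk => ?_, fun p hp hpf hpN => ?_⟩
    · obtain ⟨r, hr, hrf, hrD⟩ := hmeet k hk
      obtain ⟨-, hrD⟩ := mem_sep.1 hrD
      rw [fst_pair, snd_pair] at hrD
      rcases hrD with hrD | ⟨p, hp, hpr, hpP⟩
      · exact absurd (union_fits hr hq hrf hqc).1 hrD
      · exact ⟨p, hp, fits_sub hrf hpr, hpP⟩
    · exact h.2 p hp hpN (union_fits hp hq hpf hqc).1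

end H83.AC
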