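import Pool.Agent.H83.AC.EvP
import Pool.Agent.H83.AC.HBrU
import Pool.Agent.H83.AC.Pi02

/-!
# Module PrA: there is a branch is a property of the second Borel level

`Pos` = all `pair h p` (`h ∈ HF`, `p ∈ Cond`) such that `h ∉ omega` or
`∃ w ∈ HF, ∃ w' ∈ HF, pair h w ∈ evp ef p ∧ pair (sc h) w' ∈ evp ef p ∧ w ⊆ w' ∧ w ≠ w' ∧
Node (evp eT p) (evp ex p) w`.
`Neg` = all `p ∈ Cond` such that `∃ n ∈ omega, ∃ w ∈ HF, ∃ w' ∈ HF, w ≠ w' ∧ pair n w ∈ evp ef p ∧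
pair n w' ∈ evp ef p`.
Both are in `M` (`UF.sep`, `infer_instance`, `UR.Node`).
`Qp → HBr`: for every `n` choose `w n` with `pair (nz n) (w n) ∈ ev ef c` from `Pos`; by `Neg` (two fitting
conditions have a fitting union, `evp_mono`) the value is unique, so the `w'` for `n` is `w (n+1)`.
Conversely unions of fitting conditions (`ev_one`, `ev_node`).
-/

namespace H83.AC

open ZFSet

namespace PrA

noncomputable def PosA (ef ex eT : ZFSet.{0}) : ZFSet.{0} :=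
  ZFSet.sep (fun t => fst t ∉ omega ∨ ∃ w ∈ HF, ∃ w' ∈ HF, pair (fst t) w ∈ evp ef (snd t) ∧
    pair (sc (fst t)) w' ∈ evp ef (snd t) ∧ w ⊆ w' ∧ w ≠ w' ∧
    Node (evp eT (snd t)) (evp ex (snd t)) w) (ZFSet.prod HF Cond)

noncomputable def NegA (ef : ZFSet.{0}) : ZFSet.{0} :=
  ZFSet.sep (fun p => ∃ n ∈ omega, ∃ w ∈ HF, ∃ w' ∈ HF, w ≠ w' ∧ pair n w ∈ evp ef p ∧
    pair n w' ∈ evp ef p) Cond

theorem PosA_mem {M : Set ZFSet.{0}} (hM : TM M) {ef ex eT : ZFSet.{0}} (hf : ef ∈ M)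
    (hx : ex ∈ M) (hT : eT ∈ M) : PosA ef ex eT ∈ M := by
  have h : UF (fun _ v => PosA (v 0) (v 1) (v 2)) := by
    unfold PosA
    infer_instance
  refine h.mem M hM (cons ef (cons ex (fun _ => eT))) (fun n => ?_)
  rcases n with _ | _ | n
  · exact hf
  · exact hx
  · exact hT

theorem NegA_mem {M : Set ZFSet.{0}} (hM : TM M) {ef : ZFSet.{0}} (hf : ef ∈ M) :
    NegA ef ∈ M := by
  have h : UF (fun _ v => NegA (v 0)) := by
    unfold NegA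
    infer_instance
  exact h.mem M hM (fun _ => ef) (fun _ => hf)

theorem pair_mem_PosA {ef ex eT h p : ZFSet.{0}} : pair h p ∈ PosA ef ex eT ↔
    (h ∈ HF ∧ p ∈ Cond) ∧ (h ∉ omega ∨ ∃ w ∈ HF, ∃ w' ∈ HF, pair h w ∈ evp ef p ∧
    pair (sc h) w' ∈ evp ef p ∧ w ⊆ w' ∧ w ≠ w' ∧
    Node (evp eT p) (evp ex p) w) := by
  unfold PosA
  rw [mem_sep]
  simp only [fst_pair, snd_pair, pair_mem_prod]

theorem mem_NegA {ef p : ZFSet.{0}} : p ∈ NegA ef ↔ p ∈ Cond ∧ ∃ n ∈ omega, ∃ w ∈ HF,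
    ∃ w' ∈ HF, w ≠ w' ∧ pair n w ∈ evp ef p ∧ pair n w' ∈ evp ef p := by
  unfold NegA
  rw [mem_sep]

end PrA

open PrA in
theorem exists_PrA {M : Set ZFSet.{0}} (hM : TM M) {ef ex eT : ZFSet.{0}} (hf : ef ∈ M)
    (hx : ex ∈ M) (hT : eT ∈ M) : ∃ Pos ∈ M, ∃ Neg ∈ M,
    (∀ c, Qp Pos Neg c → HBr (ev eT c) (ev ex c)) ∧
    ∀ c, IsFunc omega HF (ev ef c) →
      (∀ n ∈ omega, Node (ev eT c) (ev ex c) (app (ev ef c) n) ∧
        app (ev ef c) n ⊆ app (ev ef c) (insert n n) ∧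
        app (ev ef c) n ≠ app (ev ef c) (insert n n)) → Qp Pos Neg c := by
  refine ⟨PosA ef ex eT, PosA_mem hM hf hx hT, NegA ef, NegA_mem hM hf, ?_, ?_⟩
  · intro c hc
    have h1 : ∀ n : ℕ, ∃ p w w', p ∈ Cond ∧ Fits p c ∧ w ∈ HF ∧ w' ∈ HF ∧
        pair (nz n) w ∈ evp ef p ∧ pair (nz (n + 1)) w' ∈ evp ef p ∧ w ⊆ w' ∧ w ≠ w' ∧
        Node (evp eT p) (evp ex p) w := by
      intro n
      obtain ⟨p, hp, hfit, hpos⟩ := hc.1 (nz n) (HF_nz n)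
      rcases (pair_mem_PosA.1 hpos).2 with h | ⟨w, hw, w', hw', h1, h2, h3, h4, h5⟩
      · exact absurd (nz_mem_omega n) h
      · exact ⟨p, w, w', hp, hfit, hw, hw', h1, h2, h3, h4, h5⟩
    choose p w w' hp hfit hw hw' h1 h2 h3 h4 h5 using h1
    have huniq : ∀ n, w' n = w (n + 1) := by
      intro n
      by_contra hne
      obtain ⟨hq, hqf⟩ := union_fits (hp n) (hp (n + 1)) (hfit n) (hfit (n + 1))
      refine hc.2 _ hq hqf (mem_NegA.2 ⟨hq, nz (n + 1), nz_mem_omega _, w' n, hw' n, w (n + 1),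
        hw (n + 1), hne, ?_, ?_⟩)
      · exact evp_mono (fun _ h => mem_union.2 (Or.inl h)) (h2 n)
      · exact evp_mono (fun _ h => mem_union.2 (Or.inr h)) (h1 (n + 1))
    refine ⟨w, fun n => ⟨Node_mono (evp_sub (hfit n)) (evp_sub (hfit n)) (h5 n), ?_, ?_⟩⟩
    · rw [← huniq n]; exact h3 n
    · rw [← huniq n]; exact h4 n
  · intro c hfn hn
    refine ⟨?_, ?_⟩
    · intro h hh
      by_cases ho : h ∈ omega
      · obtain ⟨g1, g2, g3⟩ := hn h ho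
        have ho' : insert h h ∈ omega := by
          obtain ⟨n, rfl⟩ := mem_omega.1 ho
          exact nz_mem_omega (n + 1)
        obtain ⟨p1, hp1, hf1, e1⟩ := ev_one (fn_app hfn ho)
        obtain ⟨p2, hp2, hf2, e2⟩ := ev_one (fn_app hfn ho')
        obtain ⟨p3, hp3, hf3, e3⟩ := ev_node g1
        obtain ⟨hq, hqf⟩ := union_fits hp1 hp2 hf1 hf2
        obtain ⟨hr, hrf⟩ := union_fits hq hp3 hqf hf3
        refine ⟨_, hr, hrf, pair_mem_PosA.2 ⟨⟨hh, hr⟩, Or.inr ⟨_, fn_mem hfn ho, _,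
          fn_mem hfn ho', ?_, ?_, g2, g3, ?_⟩⟩⟩
        · exact evp_mono (fun _ h => mem_union.2 (Or.inl (mem_union.2 (Or.inl h)))) e1
        · exact evp_mono (fun _ h => mem_union.2 (Or.inl (mem_union.2 (Or.inr h)))) e2
        · exact Node_mono (evp_mono (fun _ h => mem_union.2 (Or.inr h)))
            (evp_mono (fun _ h => mem_union.2 (Or.inr h))) e3
      · exact ⟨∅, empty_cond, fits_empty c, pair_mem_PosA.2 ⟨⟨hh, empty_cond⟩, Or.inl ho⟩⟩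
    · intro p _ hfit hneg
      obtain ⟨_, n, _, w, _, w', _, hne, e1, e2⟩ := mem_NegA.1 hneg
      apply hne
      rw [(fn_pair hfn (evp_sub hfit e1)).2.2, (fn_pair hfn (evp_sub hfit e2)).2.2]

end H83.AC
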