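import Pool.Agent.H83.AC.StarM
import Pool.Agent.H83.AC.GenA
import Pool.Agent.H83.AC.PrA

/-!
# Module CaseA: for generic pairs the tree has no branch

Let `b` be generic, `p` fits `pb k0 b` and `pb k1 b`, and suppose
`HBr (ev eT (pb k0 b)) (ev ex (pb (mx m) b))`. With `eT' = ln k0 eT`, `ex' = ln (mx m) ex` (in `M`, over the
columns `< n`; `UF.ln`, `ln_sub`) this is `HBr (ev eT' b) (ev ex' b)` (`ev_ln`), and both sets are in
`NN M b` (`ev_mem`), a model (`NN_tm`). `HBr_iff` gives `g ∈ NN M b`, a function `omega → HF`, hence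
`g ⊆ HF`, so `g = ev ef b` with `ef ∈ M` (`NN_sub_ground` with `H = HF`). `exists_PrA` gives `Pos, Neg` and
`Qp Pos Neg b`; `Qp_force` gives `q₀` fitting `b` with `FQ Pos Neg q₀`; let `q = q₀ ∪ join p p` (fits `b`:
`join_fits`-like: `fits_lc`), a condition, `FQ_mono`. `FQ_fam` gives `D`; `genA` gives `z`, `c`; let
`b₃ = code c (sd c z)`: `Qp Pos Neg b₃`, so `HBr (ev eT' b₃) (ev ex' b₃)`, i.e.
`HBr (ev eT c) (ev ex (pb (mx m) b₃))` with `pb (mx m) b₃ = sd c (z \ Col (nz m))` (`pb_mx_code`). `z \ Col (nz m)`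
is in `M` and avoids `nz m`; `p` fits `c = pb k0 b₃` and `sd c z = pb k1 b₃`, hence also
`sd c (z \ Col (nz m))` (literal by literal: in the columns `< m` it is `c`, elsewhere `sd c z`).
Contradiction to `star_sd`.
-/

namespace H83.AC

open ZFSet

private theorem CaseA_sub {e : ZFSet.{0}} {n : ℕ} (h : e ⊆ ZFSet.prod (CondC (nz n)) HF) :
    e ⊆ ZFSet.prod Cond HF := by
  intro t ht
  obtain ⟨x, hx, y, hy, rfl⟩ := ZFSet.mem_prod.1 (h ht)
  refine ZFSet.mem_prod.2 ⟨x, ?_, y, hy, rfl⟩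
  rw [CondC, mem_sep] at hx
  exact hx.1

private theorem CaseA_ln {M : Set ZFSet.{0}} (hM : TM M) {l : ZFSet.{0} → ZFSet.{0}} (hl : Emb l)
    {e : ZFSet.{0}} (he : e ∈ M) : ln l e ∈ M :=
  (UF.ln hl (UF.var 0)).mem M hM (fun _ => e) (fun _ => he)

private theorem CaseA_fits {p z m : ZFSet.{0}} {c : Set ZFSet.{0}} (h : Fits p c)
    (h' : Fits p (sd c z)) : Fits p (sd c (z \ Col m)) := by
  intro a
  obtain ⟨h1, h2⟩ := h a
  obtain ⟨h3, h4⟩ := h' a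
  have key : a ∈ sd c (z \ Col m) ↔ (a ∈ Col m ∧ a ∈ c) ∨ (a ∉ Col m ∧ a ∈ sd c z) := by
    simp only [sd, Set.mem_ofPred_eq, ZFSet.mem_sdiff]
    tauto
  rw [key]
  refine ⟨fun hp => ?_, fun hp => ?_⟩
  · have := h1 hp
    have := h3 hp
    tauto
  · have := h2 hp
    have := h4 hp
    tauto

theorem caseA {M : Set ZFSet.{0}} (hM : TM M) (hct : M.Countable) {m n : ℕ}
    {σ k p ex eT : ZFSet.{0}} (hS : Star M m n σ k p ex eT) {b : Set ZFSet.{0}} (hb : Gen M b)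
    (hp : Fits p (pb k0 b)) (hp' : Fits p (pb k1 b)) :
    ¬ HBr (ev eT (pb k0 b)) (ev ex (pb (mx m) b)) := by
  intro h
  have hω : nz n ∈ omega := nz_mem_omega n
  have heT : ln k0 eT ∈ M := CaseA_ln hM emb_k0 hS.eTM
  have hex : ln (mx m) ex ∈ M := CaseA_ln hM (emb_mx m) hS.exM
  have evT : ∀ b : Set ZFSet.{0}, ev (ln k0 eT) b = ev eT (pb k0 b) :=
    fun b => ev_ln emb_k0 (CaseA_sub hS.eTS) b
  have evx : ∀ b : Set ZFSet.{0}, ev (ln (mx m) ex) b = ev ex (pb (mx m) b) :=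
    fun b => ev_ln (emb_mx m) (CaseA_sub hS.exS) b
  rw [← evT, ← evx] at h
  have hTN : ev (ln k0 eT) b ∈ NN M b := ev_mem hM hω heT (ln_sub emb_k0 hS.eTS)
  have hxN : ev (ln (mx m) ex) b ∈ NN M b := ev_mem hM hω hex (ln_sub (emb_mx m) hS.exS)
  obtain ⟨g, hgN, hgf, hg⟩ := (HBr_iff (NN_tm hM hb) hTN hxN).1 h
  have hgH : g ⊆ HF := by
    intro t ht
    obtain ⟨x, hx, rfl⟩ := fn_elt hgf ht
    exact HF_pair (omega_sub_HF hx) (fn_mem hgf hx)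
  have hHF : HF ∈ M := UF.HF.mem M hM (fun _ => ex) (fun _ => hS.exM)
  obtain ⟨m', hm', ef, hef, -, rfl⟩ := NN_sub_ground hM hb hgN hHF hgH
  obtain ⟨Pos, hPos, Neg, hNeg, hPr1, hPr2⟩ := exists_PrA hM hef hex heT
  have hQ : Qp Pos Neg b := hPr2 b hgf hg
  obtain ⟨q0, hq0, hq0f, hFQ⟩ := Qp_force hM hb hPos hNeg hQ
  have hlc0 : lc k0 p ∈ Cond := lc_cond emb_k0 hS.pC
  have hlc1 : lc k1 p ∈ Cond := lc_cond emb_k1 hS.pC
  have hj := union_fits hlc0 hlc1 ((fits_lc emb_k0 hS.pC).2 hp) ((fits_lc emb_k1 hS.pC).2 hp')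
  have hjoin : join p p ∈ Cond ∧ Fits (join p p) b := hj
  obtain ⟨hqC, hqf⟩ := union_fits hq0 hjoin.1 hq0f hjoin.2
  have hsub0 : q0 ⊆ q0 ∪ join p p := fun t ht => ZFSet.mem_union.2 (Or.inl ht)
  have hsub1 : join p p ⊆ q0 ∪ join p p := fun t ht => ZFSet.mem_union.2 (Or.inr ht)
  obtain ⟨D, hD, hFam, hDQ⟩ := FQ_fam hM hPos hqC (FQ_mono hFQ hsub0)
  obtain ⟨z, hz, hzI, c, hc, hcf, hcM⟩ := genA hM hct hD hFam hqC
  have hQ3 := hPr1 _ (hDQ _ hcf hcM)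
  have hcI : ∀ a ∈ c, a ∈ Idx := hc.1
  have hdI : ∀ a ∈ sd c z, a ∈ Idx := (gen_sd hM hz hzI hc).1
  rw [evT, evx, pb_code0 hcI hdI, pb_mx_code m hcI hdI] at hQ3
  have hset : {a | (a ∈ Col (nz m) ∧ a ∈ c) ∨ (a ∉ Col (nz m) ∧ a ∈ sd c z)} =
      sd c (z \ Col (nz m)) := by
    ext a
    simp only [sd, Set.mem_ofPred_eq, ZFSet.mem_sdiff]
    tauto
  rw [hset] at hQ3
  have hjf := (join_fits hS.pC hS.pC hcI hdI).1 (fits_sub hcf hsub1)
  have hnzM : nz m ∈ M := hM.tr _ hHF _ (HF_nz m)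
  have hzM : z \ Col (nz m) ∈ M :=
    (UF.diff (UF.var 0) (UF.Col (UF.var 1))).mem M hM
      (fun i => if i = 0 then z else nz m) (fun i => by
        by_cases hi : i = 0
        · simp [hi, hz]
        · simp [hi, hnzM])
  have hAv : Avoid (nz m) (z \ Col (nz m)) := by
    refine ⟨fun t ht => hzI (ZFSet.mem_sdiff.1 ht).1, ?_⟩
    rw [ZFSet.eq_empty]
    intro t ht
    obtain ⟨h1, h2⟩ := ZFSet.mem_inter.1 ht
    exact (ZFSet.mem_sdiff.1 h1).2 h2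
  exact star_sd hM hS hc hzM hAv hjf.1 (CaseA_fits hjf.1 hjf.2) hQ3

end H83.AC
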