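import Pool.Agent.H83.AC.Defs2

/-!
# Module Rk: the rank as a von Neumann ordinal

`rk x = (rank x).toZFSet`. `rk_eq`: extensionality, `Ordinal.mem_toZFSet_iff`,
`lt_rank_iff`, `toZFSet_succ`. `UF.rk`: `UF.recMem` with
`G N v x f = uni (fun y => insert (app f y) (app f y)) x`, then `UF.comp1`.
-/

namespace H83.AC

open ZFSet

theorem mem_rk {x z : ZFSet.{0}} : z ∈ rk x ↔ ∃ β < rank x, z = β.toZFSet := by
  rw [rk, Ordinal.mem_toZFSet_iff]
  constructor
  · rintro ⟨a, ha, h⟩
    exact ⟨a, ha, h.symm⟩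
  · rintro ⟨a, ha, h⟩
    exact ⟨a, ha, h.symm⟩

theorem rk_eq (x : ZFSet.{0}) : rk x = uni (fun y => insert (rk y) (rk y)) x := by
  ext z
  rw [mem_rk, mem_uni]
  constructor
  · rintro ⟨β, hβ, rfl⟩
    obtain ⟨y, hy, hβy⟩ := lt_rank_iff.1 hβ
    refine ⟨y, hy, ?_⟩
    rw [ZFSet.mem_insert_iff]
    rcases hβy.lt_or_eq with h | h
    · exact Or.inr (mem_rk.2 ⟨β, h, rfl⟩)
    · left
      rw [h, rk]
  · rintro ⟨y, hy, hz⟩
    rw [ZFSet.mem_insert_iff] at hz
    rcases hz with rfl | hz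
    · exact ⟨rank y, rank_lt_of_mem hy, rfl⟩
    · obtain ⟨β, hβ, rfl⟩ := mem_rk.1 hz
      exact ⟨β, hβ.trans (rank_lt_of_mem hy), rfl⟩

theorem rank_rk (x : ZFSet.{0}) : rank (rk x) = rank x := by
  rw [rk, Ordinal.rank_toZFSet]

theorem rk_mem_rk {x y : ZFSet.{0}} : rk x ∈ rk y ↔ rank x < rank y := by
  rw [rk, rk, Ordinal.toZFSet_mem_toZFSet_iff]

theorem rk_eq_rk {x y : ZFSet.{0}} : rk x = rk y ↔ rank x = rank y := by
  rw [rk, rk]
  exact Ordinal.toZFSet_injective.eq_iff

/-- elements of `rk x` are ranks of ordinals; the rank of an ordinal is itself -/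
theorem rk_of_mem_rk {x z : ZFSet.{0}} (h : z ∈ rk x) : rk z = z := by
  obtain ⟨β, -, rfl⟩ := mem_rk.1 h
  rw [rk, Ordinal.rank_toZFSet]

theorem rk_mono {x y : ZFSet.{0}} (h : rank x ≤ rank y) : rk x ⊆ rk y := by
  rw [rk, rk, Ordinal.toZFSet_subset_toZFSet_iff]
  exact h

theorem UF.rk {f : Set ZFSet.{0} → (ℕ → ZFSet.{0}) → ZFSet.{0}} (hf : UF f) :
    UF (fun N v => H83.AC.rk (f N v)) := by
  refine UF.comp1 (F := fun _ x => H83.AC.rk x) ?_ hf
  refine UF.recMem (G := fun _ _ x f =>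
    H83.AC.uni (fun y => Insert.insert (H83.AC.app f y) (H83.AC.app f y)) x) (F := fun _ _ x => H83.AC.rk x) ?_ ?_
  · refine UF.uni (F := fun _ y w => Insert.insert (H83.AC.app (w 1) y) (H83.AC.app (w 1) y)) (UF.var 0) ?_
    (repeat' first
        | assumption | exact UF.var _ | exact UD.true | exact UD.false | apply UF.empty
        | apply UF.fgr | apply UF.uni | apply UF.img | apply UF.pow | apply UF.sep | apply UF.pair
        | apply UF.upair | apply UF.singleton | apply UF.insert | apply UF.union | apply UF.inter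
        | apply UF.diff | apply UF.prod | apply UF.sUnion | apply UF.app | apply UF.dom
        | apply UF.rng | apply UF.fst | apply UF.snd | apply UF.ite | apply UD.and | apply UD.or
        | apply UR.ball | apply UR.bex | apply UD.allN | apply UD.exN | apply UD.iff
        | apply UR.mem | apply UR.eq | apply UR.sub | apply UD.not | apply UD.imp
        | exact UD.prop _)
  · intro N _ v _ x _
    show H83.AC.rk x = H83.AC.uni (fun y => Insert.insert
      (H83.AC.app (H83.AC.fgr (fun x => H83.AC.rk x) x) y)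
      (H83.AC.app (H83.AC.fgr (fun x => H83.AC.rk x) x) y)) x
    conv_lhs => rw [rk_eq x]
    refine uni_congr fun y hy => ?_
    rw [app_fgr hy]

instance Inst.rk {f : Set ZFSet.{0} → (ℕ → ZFSet.{0}) → ZFSet.{0}} [hf : UF f] :
    UF (fun N v => H83.AC.rk (f N v)) := UF.rk hf

end H83.AC
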