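import Pool.Agent.H83.AC.TruthA
import Pool.Agent.H83.AC.Rk

/-!
# Module Ords: the symmetric extension has no new ordinals

`rank (val c σ) ≤ rank σ` by induction (`mem_val`, `rank_fst_lt`). So for `x = val c σ ∈ NN M c`,
`rk x` is an element or equal to `rk σ ∈ M` (`UF.rk`; `mem_rk`), so `rk x ∈ M`.
-/

namespace H83.AC

open ZFSet

theorem rank_val_le (c : Set ZFSet.{0}) (σ : ZFSet.{0}) : rank (val c σ) ≤ rank σ := by
  rw [ZFSet.rank_le_iff]
  intro y hy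
  obtain ⟨π, p, hp, hf, hπ, rfl⟩ := mem_val.1 hy
  exact (rank_val_le c π).trans_lt (rank_fst_lt hπ)
termination_by rank σ
decreasing_by exact rank_fst_lt hπ

theorem rk_NN {M c : Set ZFSet.{0}} (hM : TM M) {x : ZFSet.{0}} (hx : x ∈ NN M c) : rk x ∈ M := by
  obtain ⟨σ, hσ, -, rfl⟩ := hx
  have h1 : rk σ ∈ M := (UF.rk (UF.var 0)).mem M hM (fun _ => σ) (fun _ => hσ)
  rcases (rank_val_le c σ).lt_or_eq with h | h
  · exact hM.tr _ h1 _ (rk_mem_rk.2 h)
  · rw [rk_eq_rk.2 h]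
    exact h1

end H83.AC
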