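import Pool.Agent.H83.AC.EvP
import Pool.Agent.H83.AC.HBrU
import Pool.Agent.H83.AC.Pi02

/-!
# Module PrB: a rank function and a total function are properties of the second Borel level

`Pos` = all `pair h p` (`h ∈ HF`, `p ∈ Cond`) such that `∃ α ∈ rng (evp ef p), pair h α ∈ evp ef p` and
(`h ∉ omega` or `∃ j ∈ omega, pair h j ∈ evp ex p`).
`Neg` = all `p ∈ Cond` such that one of: (1) `∃ w ∈ HF, ∃ w' ∈ HF`, both nodes of `evp eT p`, `evp ex p`,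
`w ⊆ w'`, `w ≠ w'`, and `∃ α α'` with `pair w α ∈ evp ef p`, `pair w' α' ∈ evp ef p`, `α' ∉ α`;
(2) `∃ t ∈ evp ex p, t ∉ prod omega omega`; (3) `∃ n i j, i ≠ j ∧ pair n i ∈ evp ex p ∧ pair n j ∈ evp ex p`.
`Qp → ¬ HBr`: a chain `w n` would give `α n` with `pair (w n) (α n) ∈ ev ef c`, `α (n+1) ∈ α n`
(no infinite descending sequence of `∈`: `ZFSet.mem_wf`).
-/

namespace H83.AC

open ZFSet

private noncomputable def prbPos (ef ex : ZFSet.{0}) : ZFSet.{0} :=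
  ZFSet.sep (fun t => (∃ α ∈ rng (evp ef (snd t)), pair (fst t) α ∈ evp ef (snd t)) ∧
    (fst t ∈ omega → ∃ j ∈ omega, pair (fst t) j ∈ evp ex (snd t))) (ZFSet.prod HF Cond)

private noncomputable def prbNeg (ef ex eT : ZFSet.{0}) : ZFSet.{0} :=
  ZFSet.sep (fun p =>
    (∃ w ∈ HF, ∃ w' ∈ HF, Node (evp eT p) (evp ex p) w ∧ Node (evp eT p) (evp ex p) w' ∧
      w ⊆ w' ∧ ¬ w = w' ∧ ∃ α ∈ rng (evp ef p), ∃ α' ∈ rng (evp ef p),
        pair w α ∈ evp ef p ∧ pair w' α' ∈ evp ef p ∧ ¬ α' ∈ α) ∨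
    (∃ t ∈ evp ex p, ¬ t ∈ ZFSet.prod omega omega) ∨
    (∃ n ∈ omega, ∃ i ∈ omega, ∃ j ∈ omega, ¬ i = j ∧ pair n i ∈ evp ex p ∧ pair n j ∈ evp ex p))
    Cond

private theorem prbPos_uf : UF (fun _ v => prbPos (v 0) (v 1)) := by
  unfold prbPos
  infer_instance

private theorem prbNeg_uf : UF (fun _ v => prbNeg (v 0) (v 1) (v 2)) := by
  unfold prbNeg
  infer_instance

private theorem mem_prbPos {ef ex h p : ZFSet.{0}} : pair h p ∈ prbPos ef ex ↔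
    (h ∈ HF ∧ p ∈ Cond) ∧ (∃ α, pair h α ∈ evp ef p) ∧
      (h ∈ omega → ∃ j ∈ omega, pair h j ∈ evp ex p) := by
  rw [prbPos, mem_sep, ZFSet.pair_mem_prod, fst_pair, snd_pair]
  refine and_congr Iff.rfl (and_congr ⟨?_, ?_⟩ Iff.rfl)
  · rintro ⟨α, -, h⟩
    exact ⟨α, h⟩
  · rintro ⟨α, h⟩
    exact ⟨α, mem_rng.2 ⟨_, h⟩, h⟩

private theorem prbNeg_of1 {ef ex eT p w w' α α' : ZFSet.{0}} (hp : p ∈ Cond)
    (h1 : Node (evp eT p) (evp ex p) w) (h2 : Node (evp eT p) (evp ex p) w') (h3 : w ⊆ w')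
    (h4 : w ≠ w') (h5 : pair w α ∈ evp ef p) (h6 : pair w' α' ∈ evp ef p) (h7 : α' ∉ α) :
    p ∈ prbNeg ef ex eT :=
  mem_sep.2 ⟨hp, Or.inl ⟨w, Node_HF h1, w', Node_HF h2, h1, h2, h3, h4, α, mem_rng.2 ⟨_, h5⟩, α',
    mem_rng.2 ⟨_, h6⟩, h5, h6, h7⟩⟩

private theorem prb_un {p q : ZFSet.{0}} {c : Set ZFSet.{0}} (hp : p ∈ Cond ∧ Fits p c)
    (hq : q ∈ Cond ∧ Fits q c) :
    ∃ r, (r ∈ Cond ∧ Fits r c) ∧ (∀ e, evp e p ⊆ evp e r) ∧ ∀ e, evp e q ⊆ evp e r := by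
  obtain ⟨h1, h2⟩ := union_fits hp.1 hq.1 hp.2 hq.2
  exact ⟨p ∪ q, ⟨h1, h2⟩, fun e => evp_mono (fun x hx => mem_union.2 (Or.inl hx)),
    fun e => evp_mono (fun x hx => mem_union.2 (Or.inr hx))⟩

theorem exists_PrB {M : Set ZFSet.{0}} (hM : TM M) {ef ex eT : ZFSet.{0}} (hf : ef ∈ M)
    (hx : ex ∈ M) (hT : eT ∈ M) : ∃ Pos ∈ M, ∃ Neg ∈ M,
    (∀ c, Qp Pos Neg c → ¬ HBr (ev eT c) (ev ex c) ∧ IsFunc omega omega (ev ex c)) ∧
    ∀ c, (∃ b, IsFunc HF b (ev ef c)) → IsFunc omega omega (ev ex c) →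
      (∀ w w', Node (ev eT c) (ev ex c) w → Node (ev eT c) (ev ex c) w' → w ⊆ w' → w ≠ w' →
        app (ev ef c) w' ∈ app (ev ef c) w) → Qp Pos Neg c := by
  refine ⟨prbPos ef ex, ?_, prbNeg ef ex eT, ?_, ?_, ?_⟩
  · have := prbPos_uf.mem M hM (cons ef (cons ex (fun _ => eT))) (by
      intro n
      rcases n with _ | _ | n
      · exact hf
      · exact hx
      · exact hT)
    exact this
  · have := prbNeg_uf.mem M hM (cons ef (cons ex (fun _ => eT))) (by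
      intro n
      rcases n with _ | _ | n
      · exact hf
      · exact hx
      · exact hT)
    exact this
  · intro c hQ
    obtain ⟨hpos, hneg⟩ := hQ
    refine ⟨?_, ?_⟩
    · rintro ⟨w, hw⟩
      have hα : ∀ n, ∃ α, pair (w n) α ∈ ev ef c := by
        intro n
        obtain ⟨p, hp, hpc, hpp⟩ := hpos (w n) (Node_HF (hw n).1)
        obtain ⟨-, ⟨α, hα⟩, -⟩ := mem_prbPos.1 hpp
        exact ⟨α, evp_sub hpc hα⟩
      choose α hα using hα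
      have hdesc : ∀ n, α (n + 1) ∈ α n := by
        intro n
        by_contra hcon
        obtain ⟨p1, hp1, hf1, hn1⟩ := ev_node (hw n).1
        obtain ⟨p2, hp2, hf2, hn2⟩ := ev_node (hw (n + 1)).1
        obtain ⟨p3, hp3, hf3, hn3⟩ := ev_one (hα n)
        obtain ⟨p4, hp4, hf4, hn4⟩ := ev_one (hα (n + 1))
        obtain ⟨q1, hq1, ha1, hb1⟩ := prb_un ⟨hp1, hf1⟩ ⟨hp2, hf2⟩
        obtain ⟨q2, hq2, ha2, hb2⟩ := prb_un ⟨hp3, hf3⟩ ⟨hp4, hf4⟩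
        obtain ⟨q, hq, ha, hb⟩ := prb_un hq1 hq2
        refine hneg q hq.1 hq.2 (prbNeg_of1 hq.1 (w := w n) (w' := w (n + 1)) (α := α n)
          (α' := α (n + 1)) ?_ ?_ (hw n).2.1 (hw n).2.2 ?_ ?_ hcon)
        · exact Node_mono (fun _ h => ha _ (ha1 _ h)) (fun _ h => ha _ (ha1 _ h)) hn1
        · exact Node_mono (fun _ h => ha _ (hb1 _ h)) (fun _ h => ha _ (hb1 _ h)) hn2
        · exact hb _ (ha2 _ hn3)
        · exact hb _ (hb2 _ hn4)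
      obtain ⟨a, ⟨n, rfl⟩, hmin⟩ := ZFSet.mem_wf.has_min (Set.range α) ⟨_, 0, rfl⟩
      exact hmin (α (n + 1)) ⟨n + 1, rfl⟩ (hdesc n)
    · have hsub : ev ex c ⊆ ZFSet.prod omega omega := by
        intro t ht
        by_contra hcon
        obtain ⟨p, hp, hpc, hpt⟩ := ev_one ht
        exact hneg p hp hpc (mem_sep.2 ⟨hp, Or.inr (Or.inl ⟨t, hpt, hcon⟩)⟩)
      refine ⟨hsub, ?_⟩
      intro n hn
      obtain ⟨p, hp, hpc, hpp⟩ := hpos n (omega_sub_HF hn)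
      obtain ⟨-, -, h3⟩ := mem_prbPos.1 hpp
      obtain ⟨j, hj, hnj⟩ := h3 hn
      have hnj' := evp_sub hpc hnj
      refine ⟨j, hnj', ?_⟩
      intro i hi
      by_contra hne
      have hi' := (ZFSet.pair_mem_prod.1 (hsub hi)).2
      obtain ⟨p', hp', hpc', hpi⟩ := ev_one hi
      obtain ⟨q, hq, ha, hb⟩ := prb_un ⟨hp, hpc⟩ ⟨hp', hpc'⟩
      exact hneg q hq.1 hq.2 (mem_sep.2 ⟨hq.1, Or.inr (Or.inr
        ⟨n, hn, i, hi', j, hj, hne, hb _ hpi, ha _ hnj⟩)⟩)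
  · intro c hfb hxf hdec
    obtain ⟨b, hfb⟩ := hfb
    refine ⟨?_, ?_⟩
    · intro h hh
      obtain ⟨p1, hp1, hf1, hn1⟩ := ev_one (fn_app hfb hh)
      by_cases hho : h ∈ omega
      · obtain ⟨p2, hp2, hf2, hn2⟩ := ev_one (fn_app hxf hho)
        obtain ⟨q, hq, ha, hb⟩ := prb_un ⟨hp1, hf1⟩ ⟨hp2, hf2⟩
        exact ⟨q, hq.1, hq.2, mem_prbPos.2 ⟨⟨hh, hq.1⟩, ⟨_, ha _ hn1⟩,
          fun _ => ⟨_, fn_mem hxf hho, hb _ hn2⟩⟩⟩
      · exact ⟨p1, hp1, hf1, mem_prbPos.2 ⟨⟨hh, hp1⟩, ⟨_, hn1⟩, fun h => absurd h hho⟩⟩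
    · intro p hp hpc hneg
      obtain ⟨-, h⟩ := mem_sep.1 hneg
      rcases h with ⟨w, -, w', -, h1, h2, h3, h4, α, -, α', -, h5, h6, h7⟩ | ⟨t, ht, hnt⟩ |
        ⟨n, -, i, -, j, -, hij, h5, h6⟩
      · have e1 := Node_mono (evp_sub hpc) (evp_sub hpc) h1
        have e2 := Node_mono (evp_sub hpc) (evp_sub hpc) h2
        have e5 := (fn_pair hfb (evp_sub hpc h5)).2.2
        have e6 := (fn_pair hfb (evp_sub hpc h6)).2.2
        apply h7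
        rw [e5, e6]
        exact hdec w w' e1 e2 h3 h4
      · exact hnt (hxf.1 (evp_sub hpc ht))
      · have e5 := (fn_pair hxf (evp_sub hpc h5)).2.2
        have e6 := (fn_pair hxf (evp_sub hpc h6)).2.2
        exact hij (e5.trans e6.symm)

end H83.AC
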