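import Pool.Agent.H83.AC.Code

/-!
# Module ProdG: extending a generic set to a generic pair

Enumerate the dense sets of `M` (countable; as in module GenEx); build `s₀ = ζ ⊆ s₁ ⊆ ..` in `Cond`
such that for the `n`-th dense `D ∈ M` some `r` fitting `c` has `join r s_{n+1} ∈ D`: given `s = s_n`, the
set `{r ∈ Cond : ∃ s' ∈ Cond, s ⊆ s' ∧ join r s' ∈ D}` is in `M` (`UF.join`, `TM.sep_of`) and dense
(`join_dense` with `D q := q ∈ D`), so `c` meets it.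
Let `d = {a ∈ Idx : pair a one ∈ s_n for some n}`; all `s_n` fit `d`.
-/

namespace H83.AC

open ZFSet

theorem ProdG_step {M c : Set ZFSet.{0}} (hM : TM M) (hc : Gen M c) {s D : ZFSet.{0}}
    (hs : s ∈ Cond) (hD : D ∈ M) (hDd : Dense D) :
    ∃ s' ∈ Cond, s ⊆ s' ∧ ∃ r ∈ Cond, Fits r c ∧ join r s' ∈ D := by
  have hCM : Cond ∈ M := UF.Cond.mem M hM (fun _ => D) (fun _ => hD)
  have hsM : s ∈ M := hM.tr Cond hCM s hs
  have hU : UR (fun _ v => ∃ s' ∈ Cond, v 1 ⊆ s' ∧ H83.AC.join (v 0) s' ∈ v 2) := by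
    infer_instance
  have hE : ZFSet.sep (fun r => ∃ s' ∈ Cond, s ⊆ s' ∧ H83.AC.join r s' ∈ D) Cond ∈ M := by
    have h := hM.sep_of (R := fun _ r v => ∃ s' ∈ Cond, v 0 ⊆ s' ∧ H83.AC.join r s' ∈ v 1) hU
      (v := fun n => if n = 0 then s else D) (fun n => by
        by_cases hn : n = 0
        · simp only [hn, if_true]; exact hsM
        · simp only [hn, if_false]; exact hD) hCM
    simpa using h
  have hEd : Dense (ZFSet.sep (fun r => ∃ s' ∈ Cond, s ⊆ s' ∧ H83.AC.join r s' ∈ D) Cond) := by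
    refine ⟨fun x hx => (mem_sep.1 hx).1, fun p hp => ?_⟩
    obtain ⟨r', hr', s', hs', h1, h2, h3⟩ := join_dense (D := fun q => q ∈ D)
      (fun q hq => by
        obtain ⟨q', hq', h⟩ := hDd.2 q hq
        exact ⟨q', hDd.1 hq', h, hq'⟩) hp hs
    exact ⟨r', mem_sep.2 ⟨hr', s', hs', h2, h3⟩, h1⟩
  obtain ⟨r, hr, hf⟩ := hc.2 _ hE hEd
  obtain ⟨hr1, s', hs', h1, h2⟩ := mem_sep.1 hr
  exact ⟨s', hs', h1, r, hr1, hf, h2⟩

theorem exists_prod {M c : Set ZFSet.{0}} (hM : TM M) (hct : M.Countable) (hc : Gen M c)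
    {ζ : ZFSet.{0}} (hζ : ζ ∈ Cond) :
    ∃ d : Set ZFSet.{0}, (∀ a ∈ d, a ∈ Idx) ∧ Fits ζ d ∧ Gen M (code c d) := by
  classical
  by_cases hne : ∃ D0 ∈ M, Dense D0
  swap
  · have hne' : ∀ D ∈ M, ¬ Dense D := by
      intro D hD h
      exact hne ⟨D, hD, h⟩
    refine ⟨{a | pair a one ∈ ζ}, ?_, ?_, ?_⟩
    · intro a ha
      obtain ⟨b, hb, h1 | h1⟩ := cond_lit hζ ha
      · rw [(ZFSet.pair_injective h1).1]; exact hb
      · rw [(ZFSet.pair_injective h1).1]; exact hb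
    · exact fun a => ⟨fun h => h, fun h h' => cond_con hζ ⟨h, h'⟩⟩
    · refine ⟨?_, fun D hD h => absurd h (hne' D hD)⟩
      rintro a (⟨b, hb, rfl⟩ | ⟨b, hb, rfl⟩)
      · exact emb_k0.maps _ (hc.1 b hb)
      · refine emb_k1.maps _ ?_
        obtain ⟨b', hb', h1 | h1⟩ := cond_lit hζ hb
        · rw [(ZFSet.pair_injective h1).1]; exact hb'
        · rw [(ZFSet.pair_injective h1).1]; exact hb'
  obtain ⟨D0, hD0, hD0d⟩ := hne
  have hcD : ({D : ZFSet.{0} | D ∈ M ∧ Dense D}).Countable := hct.mono (fun D hD => hD.1)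
  obtain ⟨e, he⟩ := hcD.exists_eq_range ⟨D0, hD0, hD0d⟩
  have hed : ∀ n, e n ∈ M ∧ Dense (e n) := by
    intro n
    have h1 : e n ∈ {D : ZFSet.{0} | D ∈ M ∧ Dense D} := by
      rw [he]
      exact Set.mem_range_self n
    exact h1
  have hst : ∀ (k : ℕ) (s : {q : ZFSet.{0} // q ∈ Cond}),
      ∃ s' : {q : ZFSet.{0} // q ∈ Cond}, s.1 ⊆ s'.1 ∧ ∃ r ∈ Cond, Fits r c ∧ join r s'.1 ∈ e k := by
    intro k s
    obtain ⟨s', hs', h1, h2⟩ := ProdG_step hM hc s.2 (hed k).1 (hed k).2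
    exact ⟨⟨s', hs'⟩, h1, h2⟩
  choose g hg using hst
  let f : ℕ → {q : ZFSet.{0} // q ∈ Cond} := fun n =>
    Nat.rec ⟨ζ, hζ⟩ (fun k q => g k q) n
  have hf0 : (f 0).1 = ζ := rfl
  have hfs : ∀ n, (f n).1 ⊆ (f (n + 1)).1 ∧
      ∃ r ∈ Cond, Fits r c ∧ join r (f (n + 1)).1 ∈ e n := fun n => hg n (f n)
  have hmono : ∀ m n, m ≤ n → (f m).1 ⊆ (f n).1 := by
    intro m n hmn
    induction hmn with
    | refl => exact fun _ hx => hx
    | step _ ih => exact fun _ hx => (hfs _).1 (ih hx)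
  have hcons : ∀ n a, ¬ (pair a ∅ ∈ (f n).1 ∧ pair a one ∈ (f n).1) := fun n a =>
    (mem_cond.1 (f n).2).2.2 a
  have hfit : ∀ n, Fits (f n).1 {a | ∃ m, pair a one ∈ (f m).1} := by
    intro n a
    refine ⟨fun h => ⟨n, h⟩, ?_⟩
    rintro h ⟨m, hm⟩
    exact hcons (max m n) a ⟨hmono n _ (le_max_right _ _) h, hmono m _ (le_max_left _ _) hm⟩
  have hdI : ∀ a ∈ {a : ZFSet.{0} | ∃ m, pair a one ∈ (f m).1}, a ∈ Idx := by
    rintro a ⟨m, hm⟩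
    obtain ⟨b, hb, h1 | h1⟩ := cond_lit (f m).2 hm
    · rw [(ZFSet.pair_injective h1).1]
      exact hb
    · rw [(ZFSet.pair_injective h1).1]
      exact hb
  refine ⟨{a | ∃ m, pair a one ∈ (f m).1}, hdI, ?_, ?_, ?_⟩
  · have h1 := hfit 0
    rw [hf0] at h1
    exact h1
  · rintro a (⟨b, hb, rfl⟩ | ⟨b, hb, rfl⟩)
    · exact emb_k0.maps _ (hc.1 b hb)
    · exact emb_k1.maps _ (hdI b hb)
  · intro D hD hDd
    have h1 : D ∈ {D : ZFSet.{0} | D ∈ M ∧ Dense D} := ⟨hD, hDd⟩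
    rw [he] at h1
    obtain ⟨n, rfl⟩ := h1
    obtain ⟨-, r, hr, hrf, hrj⟩ := hfs n
    exact ⟨join r (f (n + 1)).1, hrj,
      (join_fits hr (f (n + 1)).2 hc.1 hdI).2 ⟨hrf, hfit (n + 1)⟩⟩

end H83.AC
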