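import Pool.Agent.H83.AC.CaseA
import Pool.Agent.H83.AC.ProdG
import Pool.Agent.H83.AC.PrB
import Pool.Agent.H83.AC.Ords

/-!
# Module CaseB: an element of the set over the first columns

Let `c` be generic, `Fits p c`. `exists_prod` with `ζ = p` gives `d`; `b = code c d` is generic,
`pb k0 b = c`, `pb k1 b = d`. By `caseA`: `¬ HBr (ev eT c) (ev ex (pb (mx m) b))`. With `eT' = ln k0 eT`,
`ex' = ln (mx m) ex`: `¬ HBr (ev eT' b) (ev ex' b)`, both sets in `NN M b`. `HBr_rank` gives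
`f ∈ NN M b`, `y ∈ NN M b`, `IsFunc HF (rk y) f`; `rk y ∈ M` (`rk_NN`), so `H = prod HF (rk y) ∈ M` and
`f = ev ef b`, `ef ∈ M` (`NN_sub_ground`). `pb (mx m) b` is generic (`gen_pb`) and `p` fits it (literal
by literal), so `ev ex' b = ev ex (pb (mx m) b)` is a function (`Star.fn`). `exists_PrB`: `Qp Pos Neg b`;
`Qp_force`: `q₀` fits `b`, `FQ_fam`: `D`. `genB` with `ζ = lp k1 q₀` gives `g ∈ M`; `b₃ = code c (cls g)` meets
`D` and `q₀ = join (lp k0 q₀) (lp k1 q₀)` fits `b₃` (`lp k0 q₀` fits `pb k0 b = c` by `fits_lp`;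
`join_fits`). So `Qp Pos Neg b₃`, which gives the two conclusions for `b₃`, rewritten with `ev_ln`,
`pb_code0`, `pb_mx_code`.
-/

namespace H83.AC

open ZFSet

/-- `Qp` is transferred from the generic pair to the pair with a ground model set -/
private theorem caseB_fits {c d g : Set ZFSet.{0}} {q : ZFSet.{0}}
    (hc : ∀ a ∈ c, a ∈ Idx) (hd : ∀ a ∈ d, a ∈ Idx) (hg : ∀ a ∈ g, a ∈ Idx)
    (hq : q ∈ Cond) (h : Fits q (code c d)) (h1 : Fits (lp k1 q) g) : Fits q (code c g) := by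
  have h0 : Fits (lp k0 q) c := by
    have := fits_lp emb_k0 h
    rwa [pb_code0 hc hd] at this
  have h2 := (join_fits (lp_cond emb_k0 hq) (lp_cond emb_k1 hq) hc hg).2 ⟨h0, h1⟩
  rwa [join_split hq] at h2

private theorem caseB_sub {n : ℕ} {e H : ZFSet.{0}} (he : e ⊆ ZFSet.prod (CondC (nz n)) H) :
    e ⊆ ZFSet.prod Cond H := by
  intro t ht
  obtain ⟨q, hq, h, hh, rfl⟩ := ZFSet.mem_prod.1 (he ht)
  exact ZFSet.mem_prod.2 ⟨q, (mem_sep.1 hq).1, h, hh, rfl⟩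

theorem caseB {M c : Set ZFSet.{0}} (hM : TM M) (hct : M.Countable) {m n : ℕ}
    {σ k p ex eT : ZFSet.{0}} (hS : Star M m n σ k p ex eT) (hc : Gen M c) (hp : Fits p c) :
    ∃ g ∈ M, g ⊆ Idx ∧
      ¬ HBr (ev eT c) (ev ex {a | (a ∈ Col (nz m) ∧ a ∈ c) ∨ (a ∉ Col (nz m) ∧ a ∈ g)}) ∧
      IsFunc omega omega (ev ex {a | (a ∈ Col (nz m) ∧ a ∈ c) ∨ (a ∉ Col (nz m) ∧ a ∈ g)}) := by
  obtain ⟨d, hd, hpd, hb⟩ := exists_prod hM hct hc hS.pC
  have hb0 : pb k0 (code c d) = c := pb_code0 hc.1 hd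
  have hb1 : pb k1 (code c d) = d := pb_code1 hc.1 hd
  have hbm := pb_mx_code m hc.1 hd
  have hA := caseA hM hct hS hb (by rw [hb0]; exact hp) (by rw [hb1]; exact hpd)
  have hexC := caseB_sub hS.exS
  have heTC := caseB_sub hS.eTS
  have hT1 : ev (ln k0 eT) (code c d) = ev eT (pb k0 (code c d)) := ev_ln emb_k0 heTC _
  have hx1 : ev (ln (mx m) ex) (code c d) = ev ex (pb (mx m) (code c d)) :=
    ev_ln (emb_mx m) hexC _
  have hT'M : ln k0 eT ∈ M :=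
    (UF.ln emb_k0 (UF.var 0)).mem M hM (fun _ => eT) (fun _ => hS.eTM)
  have hx'M : ln (mx m) ex ∈ M :=
    (UF.ln (emb_mx m) (UF.var 0)).mem M hM (fun _ => ex) (fun _ => hS.exM)
  have hTN : ev (ln k0 eT) (code c d) ∈ NN M (code c d) :=
    ev_mem hM (nz_mem_omega n) hT'M (ln_sub emb_k0 hS.eTS)
  have hxN : ev (ln (mx m) ex) (code c d) ∈ NN M (code c d) :=
    ev_mem hM (nz_mem_omega n) hx'M (ln_sub (emb_mx m) hS.exS)
  have hA' : ¬ HBr (ev (ln k0 eT) (code c d)) (ev (ln (mx m) ex) (code c d)) := by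
    rw [hT1, hx1]; exact hA
  obtain ⟨f, hfN, y, hyN, hf, hfr⟩ := HBr_rank (NN_tm hM hb) hTN hxN hA'
  have hrk : rk y ∈ M := rk_NN hM hyN
  have hHF : HF ∈ M := UF.HF.mem M hM (fun _ => omega) (fun _ => hM.omega)
  have hH : ZFSet.prod HF (rk y) ∈ M := by
    have h1 : UF (fun _ v => ZFSet.prod (v 0) (v 1)) := UF.prod (UF.var 0) (UF.var 1)
    exact h1.mem M hM (cons HF (fun _ => rk y)) (fun n => by
      cases n with
      | zero => exact hHF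
      | succ n => exact hrk)
  obtain ⟨m', hm', ef, hef, hefs, rfl⟩ := NN_sub_ground hM hb hfN hH hf.1
  have hpm : Fits p (pb (mx m) (code c d)) := by
    rw [hbm]
    intro a
    constructor
    · intro ha
      by_cases h : a ∈ Col (nz m)
      · exact Or.inl ⟨h, (hp a).1 ha⟩
      · exact Or.inr ⟨h, (hpd a).1 ha⟩
    · rintro ha (⟨-, h⟩ | ⟨-, h⟩)
      · exact (hp a).2 ha h
      · exact (hpd a).2 ha h
  have hfn : IsFunc omega omega (ev (ln (mx m) ex) (code c d)) := by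
    rw [hx1]
    exact hS.fn _ (gen_pb hM (emb_mx m) hb) hpm
  obtain ⟨Pos, hPos, Neg, hNeg, hQ1, hQ2⟩ := exists_PrB hM hef hx'M hT'M
  have hQ := hQ2 (code c d) ⟨_, hf⟩ hfn hfr
  obtain ⟨q₀, hq₀, hq₀b, hFQ⟩ := Qp_force hM hb hPos hNeg hQ
  obtain ⟨D, hD, hDf, hDQ⟩ := FQ_fam hM hPos hq₀ hFQ
  obtain ⟨g, hg, hgI, hgf, hgm⟩ := genB hM hD hDf (lp_cond emb_k1 hq₀)
  have hgI' : ∀ a ∈ cls g, a ∈ Idx := fun a ha => hgI ha
  have h3 := hQ1 _ (hDQ (code c (cls g))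
    (caseB_fits hc.1 hd hgI' hq₀ hq₀b hgf) (hgm c hc))
  rw [ev_ln emb_k0 heTC, ev_ln (emb_mx m) hexC, pb_code0 hc.1 hgI', pb_mx_code m hc.1 hgI'] at h3
  exact ⟨g, hg, hgI, h3.1, h3.2⟩

end H83.AC
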