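import Pool.Agent.H83.AC.WoH
import Pool.Agent.H83.AC.Om

/-!
# Module WoU: the well-orders are uniformly definable, and choice in models of `V = L`

First `UF.Wx` (`ud` with the rules `UF.Sx`, `UF.op`, `UF.nz`; the condition `∃ i < 10, ..` in `codes` is
a finite disjunction: rewrite it by `UD.congr`), then `UF.recMem` with
`G N v x f = uni (fun y => Wx (Lh y) (app f y)) x` and `wh_eq`.
`exists_wo`: `a ∈ Lh x` for some `x ∈ N` (`VL`), so `a ⊆ Lh x` (`Lo_tr`); take
`w = wh x ∩ prod a a`.
-/

namespace H83.AC

open ZFSet

private theorem WoU_exLt {R : ℕ → Set ZFSet.{0} → (ℕ → ZFSet.{0}) → Prop}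
    (h : ∀ i, UR (R i)) (n : ℕ) : UR (fun N v => ∃ i < n, R i N v) := by
  induction n with
  | zero =>
    refine UD.false.congr fun N _ v _ => ?_
    simp
  | succ n ih =>
    refine (ih.or (h n)).congr fun N _ v _ => ?_
    constructor
    · rintro ⟨i, hi, h1⟩
      rcases Nat.lt_succ_iff_lt_or_eq.1 hi with h2 | rfl
      · exact Or.inl ⟨i, h2, h1⟩
      · exact Or.inr h1
    · rintro (⟨i, hi, h1⟩ | h1)
      · exact ⟨i, Nat.lt_succ_of_lt hi, h1⟩
      · exact ⟨n, Nat.lt_succ_self n, h1⟩

private theorem WoU_codes {f g : Set ZFSet.{0} → (ℕ → ZFSet.{0}) → ZFSet.{0}} (hf : UF f)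
    (hg : UF g) : UF (fun N v => H83.AC.codes (f N v) (g N v)) := by
  refine UF.comp2 (F := fun _ U z => H83.AC.codes U z) ?_ hf hg
  show UF (fun _ v => ZFSet.sep (fun t => (∃ i < 10, H83.AC.fst t = H83.AC.nz i ∧
      H83.AC.op i (H83.AC.fst (H83.AC.snd t)) (H83.AC.snd (H83.AC.snd t)) = v 1))
    (ZFSet.prod (H83.AC.nz 10) (ZFSet.prod (insert (v 0) (v 0)) (insert (v 0) (v 0)))))
  refine UF.sep (R := fun _ t v => (∃ i < 10, H83.AC.fst t = H83.AC.nz i ∧
      H83.AC.op i (H83.AC.fst (H83.AC.snd t)) (H83.AC.snd (H83.AC.snd t)) = v 1)) ?_ ?_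
  · (repeat' first
      | apply UF.nz | assumption | exact UF.var _ | exact UD.true | exact UD.false
      | apply UF.empty | apply UF.fgr | apply UF.uni | apply UF.img | apply UF.pow | apply UF.sep
      | apply UF.pair | apply UF.upair | apply UF.singleton | apply UF.insert | apply UF.union
      | apply UF.inter | apply UF.diff | apply UF.prod | apply UF.sUnion | apply UF.app
      | apply UF.dom | apply UF.rng | apply UF.fst | apply UF.snd | apply UF.ite | apply UD.and
      | apply UD.or | apply UR.ball | apply UR.bex | apply UD.allN | apply UD.exN | apply UD.iff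
      | apply UR.mem | apply UR.eq | apply UR.sub | apply UD.not | apply UD.imp | exact UD.prop _)
  · refine WoU_exLt (R := fun i _ v => H83.AC.fst (v 0) = H83.AC.nz i ∧
      H83.AC.op i (H83.AC.fst (H83.AC.snd (v 0))) (H83.AC.snd (H83.AC.snd (v 0))) = v 2) ?_ 10
    intro i
    (repeat' first
        | apply UF.nz | apply UF.op | assumption | exact UF.var _ | exact UD.true | exact UD.false
        | apply UF.empty | apply UF.fgr | apply UF.uni | apply UF.img | apply UF.pow
        | apply UF.sep | apply UF.pair | apply UF.upair | apply UF.singleton | apply UF.insert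
        | apply UF.union | apply UF.inter | apply UF.diff | apply UF.prod | apply UF.sUnion
        | apply UF.app | apply UF.dom | apply UF.rng | apply UF.fst | apply UF.snd | apply UF.ite
        | apply UD.and | apply UD.or | apply UR.ball | apply UR.bex | apply UD.allN | apply UD.exN
        | apply UD.iff | apply UR.mem | apply UR.eq | apply UR.sub | apply UD.not | apply UD.imp
        | exact UD.prop _)

private theorem WoU_Wx {f g : Set ZFSet.{0} → (ℕ → ZFSet.{0}) → ZFSet.{0}} (hf : UF f)
    (hg : UF g) : UF (fun N v => H83.AC.Wx (f N v) (g N v)) := by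
  refine UF.comp2 (F := fun _ U w => H83.AC.Wx U w) ?_ hf hg
  show UF (fun _ v => v 1 ∪ ZFSet.prod (v 0) (H83.AC.Sx (v 0) \ v 0) ∪
    ZFSet.sep (fun t => H83.AC.fst t = v 0 ∧ H83.AC.snd t ≠ v 0)
      (ZFSet.prod (H83.AC.Sx (v 0) \ v 0) (H83.AC.Sx (v 0) \ v 0)) ∪
    ZFSet.sep (fun t => H83.AC.fst t ≠ v 0 ∧ H83.AC.snd t ≠ v 0 ∧
        ∃ s ∈ H83.AC.codes (v 0) (H83.AC.fst t), ∀ s' ∈ H83.AC.codes (v 0) (H83.AC.snd t),
          H83.AC.lexlt (H83.AC.wplus (v 0) (v 1)) s s')
      (ZFSet.prod (H83.AC.Sx (v 0) \ v 0) (H83.AC.Sx (v 0) \ v 0)))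
  refine UF.union (UF.union (UF.union (UF.var 1) ?_) ?_) ?_
  · (repeat' first
      | apply UF.Sx | assumption | exact UF.var _ | exact UD.true | exact UD.false
      | apply UF.empty | apply UF.fgr | apply UF.uni | apply UF.img | apply UF.pow | apply UF.sep
      | apply UF.pair | apply UF.upair | apply UF.singleton | apply UF.insert | apply UF.union
      | apply UF.inter | apply UF.diff | apply UF.prod | apply UF.sUnion | apply UF.app
      | apply UF.dom | apply UF.rng | apply UF.fst | apply UF.snd | apply UF.ite | apply UD.and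
      | apply UD.or | apply UR.ball | apply UR.bex | apply UD.allN | apply UD.exN | apply UD.iff
      | apply UR.mem | apply UR.eq | apply UR.sub | apply UD.not | apply UD.imp | exact UD.prop _)
  · refine UF.sep (R := fun _ t v => H83.AC.fst t = v 0 ∧ H83.AC.snd t ≠ v 0) ?_ ?_
    · (repeat' first
        | apply UF.Sx | assumption | exact UF.var _ | exact UD.true | exact UD.false
        | apply UF.empty | apply UF.fgr | apply UF.uni | apply UF.img | apply UF.pow
        | apply UF.sep | apply UF.pair | apply UF.upair | apply UF.singleton | apply UF.insert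
        | apply UF.union | apply UF.inter | apply UF.diff | apply UF.prod | apply UF.sUnion
        | apply UF.app | apply UF.dom | apply UF.rng | apply UF.fst | apply UF.snd | apply UF.ite
        | apply UD.and | apply UD.or | apply UR.ball | apply UR.bex | apply UD.allN | apply UD.exN
        | apply UD.iff | apply UR.mem | apply UR.eq | apply UR.sub | apply UD.not | apply UD.imp
        | exact UD.prop _)
    · (repeat' first
        | assumption | exact UF.var _ | exact UD.true | exact UD.false | apply UF.empty
        | apply UF.fgr | apply UF.uni | apply UF.img | apply UF.pow | apply UF.sep | apply UF.pair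
        | apply UF.upair | apply UF.singleton | apply UF.insert | apply UF.union | apply UF.inter
        | apply UF.diff | apply UF.prod | apply UF.sUnion | apply UF.app | apply UF.dom
        | apply UF.rng | apply UF.fst | apply UF.snd | apply UF.ite | apply UD.and | apply UD.or
        | apply UR.ball | apply UR.bex | apply UD.allN | apply UD.exN | apply UD.iff
        | apply UR.mem | apply UR.eq | apply UR.sub | apply UD.not | apply UD.imp
        | exact UD.prop _)
  · refine UF.sep (R := fun _ t v => H83.AC.fst t ≠ v 0 ∧ H83.AC.snd t ≠ v 0 ∧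
        ∃ s ∈ H83.AC.codes (v 0) (H83.AC.fst t), ∀ s' ∈ H83.AC.codes (v 0) (H83.AC.snd t),
          H83.AC.lexlt (H83.AC.wplus (v 0) (v 1)) s s') ?_ ?_
    · (repeat' first
        | apply UF.Sx | assumption | exact UF.var _ | exact UD.true | exact UD.false
        | apply UF.empty | apply UF.fgr | apply UF.uni | apply UF.img | apply UF.pow
        | apply UF.sep | apply UF.pair | apply UF.upair | apply UF.singleton | apply UF.insert
        | apply UF.union | apply UF.inter | apply UF.diff | apply UF.prod | apply UF.sUnion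
        | apply UF.app | apply UF.dom | apply UF.rng | apply UF.fst | apply UF.snd | apply UF.ite
        | apply UD.and | apply UD.or | apply UR.ball | apply UR.bex | apply UD.allN | apply UD.exN
        | apply UD.iff | apply UR.mem | apply UR.eq | apply UR.sub | apply UD.not | apply UD.imp
        | exact UD.prop _)
    · refine UD.and (by (repeat' first
        | assumption | exact UF.var _ | exact UD.true | exact UD.false | apply UF.empty
        | apply UF.fgr | apply UF.uni | apply UF.img | apply UF.pow | apply UF.sep | apply UF.pair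
        | apply UF.upair | apply UF.singleton | apply UF.insert | apply UF.union | apply UF.inter
        | apply UF.diff | apply UF.prod | apply UF.sUnion | apply UF.app | apply UF.dom
        | apply UF.rng | apply UF.fst | apply UF.snd | apply UF.ite | apply UD.and | apply UD.or
        | apply UR.ball | apply UR.bex | apply UD.allN | apply UD.exN | apply UD.iff
        | apply UR.mem | apply UR.eq | apply UR.sub | apply UD.not | apply UD.imp
        | exact UD.prop _)) (UD.and (by (repeat' first
        | assumption | exact UF.var _ | exact UD.true | exact UD.false | apply UF.empty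
        | apply UF.fgr | apply UF.uni | apply UF.img | apply UF.pow | apply UF.sep | apply UF.pair
        | apply UF.upair | apply UF.singleton | apply UF.insert | apply UF.union | apply UF.inter
        | apply UF.diff | apply UF.prod | apply UF.sUnion | apply UF.app | apply UF.dom
        | apply UF.rng | apply UF.fst | apply UF.snd | apply UF.ite | apply UD.and | apply UD.or
        | apply UR.ball | apply UR.bex | apply UD.allN | apply UD.exN | apply UD.iff
        | apply UR.mem | apply UR.eq | apply UR.sub | apply UD.not | apply UD.imp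
        | exact UD.prop _)) ?_)
      refine UR.bex (R := fun _ s v => ∀ s' ∈ H83.AC.codes (v 1) (H83.AC.snd (v 0)),
          H83.AC.lexlt (H83.AC.wplus (v 1) (v 2)) s s') (WoU_codes (UF.var 1) (UF.fst (UF.var 0))) ?_
      refine UR.ball (R := fun _ s' v => H83.AC.lexlt (H83.AC.wplus (v 2) (v 3)) (v 0) s')
        (WoU_codes (UF.var 2) (UF.snd (UF.var 1))) ?_
      show UR (fun _ v => H83.AC.fst (v 1) ∈ H83.AC.fst (v 0) ∨
        (H83.AC.fst (v 1) = H83.AC.fst (v 0) ∧
          (pair (H83.AC.fst (H83.AC.snd (v 1))) (H83.AC.fst (H83.AC.snd (v 0))) ∈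
              v 4 ∪ ZFSet.prod (v 3) {v 3} ∨
            (H83.AC.fst (H83.AC.snd (v 1)) = H83.AC.fst (H83.AC.snd (v 0)) ∧
              pair (H83.AC.snd (H83.AC.snd (v 1))) (H83.AC.snd (H83.AC.snd (v 0))) ∈
                v 4 ∪ ZFSet.prod (v 3) {v 3}))))
      (repeat' first
          | assumption | exact UF.var _ | exact UD.true | exact UD.false | apply UF.empty
          | apply UF.fgr | apply UF.uni | apply UF.img | apply UF.pow | apply UF.sep
          | apply UF.pair | apply UF.upair | apply UF.singleton | apply UF.insert | apply UF.union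
          | apply UF.inter | apply UF.diff | apply UF.prod | apply UF.sUnion | apply UF.app
          | apply UF.dom | apply UF.rng | apply UF.fst | apply UF.snd | apply UF.ite
          | apply UD.and | apply UD.or | apply UR.ball | apply UR.bex | apply UD.allN
          | apply UD.exN | apply UD.iff | apply UR.mem | apply UR.eq | apply UR.sub | apply UD.not
          | apply UD.imp | exact UD.prop _)

theorem UF.wh {f : Set ZFSet.{0} → (ℕ → ZFSet.{0}) → ZFSet.{0}} (hf : UF f) :
    UF (fun N v => H83.AC.wh (f N v)) := by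
  refine UF.comp1 (F := fun _ x => H83.AC.wh x) ?_ hf
  refine UF.recMem (F := fun _ _ x => H83.AC.wh x)
    (G := fun _ _ x g => H83.AC.uni (fun y => H83.AC.Wx (H83.AC.Lh y) (H83.AC.app g y)) x) ?_ ?_
  · refine UF.uni (F := fun _ y w => H83.AC.Wx (H83.AC.Lh y) (H83.AC.app (w 1) y)) (UF.var 0) ?_
    exact WoU_Wx (UF.Lh (UF.var 0)) (UF.app (UF.var 2) (UF.var 0))
  · intro N _ v _ x _
    rw [wh_eq]
    exact uni_congr fun y hy => by rw [app_fgr hy]

theorem exists_wo {N : Set ZFSet.{0}} (hN : TM N) (hV : VL N) {a : ZFSet.{0}} (ha : a ∈ N) :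
    ∃ w ∈ N, IsWO w a := by
  obtain ⟨x, hx, hax⟩ := hV a ha
  have hsub : a ⊆ Lo (rank x) := Lo_tr hax
  obtain ⟨_, h2, h3, h4⟩ := wo_wo (rank x)
  have hmem := (UF.inter (UF.wh (UF.var 0)) (UF.prod (UF.var 1) (UF.var 1))).mem N hN
    (cons x (fun _ => a)) (fun n => by
      cases n with
      | zero => exact hx
      | succ n => exact ha)
  refine ⟨wh x ∩ ZFSet.prod a a, hmem, ?_, ?_, ?_, ?_⟩
  · intro z hz
    exact (ZFSet.mem_inter.1 hz).2
  · intro y hy z hz
    rcases h2 y (hsub hy) z (hsub hz) with h | h | h
    · exact Or.inl h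
    · exact Or.inr (Or.inl (ZFSet.mem_inter.2 ⟨h, ZFSet.pair_mem_prod.2 ⟨hy, hz⟩⟩))
    · exact Or.inr (Or.inr (ZFSet.mem_inter.2 ⟨h, ZFSet.pair_mem_prod.2 ⟨hz, hy⟩⟩))
  · intro y z t h5 h6
    rw [ZFSet.mem_inter, ZFSet.pair_mem_prod] at h5 h6 ⊢
    exact ⟨h3 y z t h5.1 h6.1, h5.2.1, h6.2.2⟩
  · intro d hd hne
    obtain ⟨y, hy, h5⟩ := h4 d (fun z hz => hsub (hd hz)) hne
    exact ⟨y, hy, fun z hz h6 => h5 z hz (ZFSet.mem_inter.1 h6).1⟩

instance Inst.wh {f : Set ZFSet.{0} → (ℕ → ZFSet.{0}) → ZFSet.{0}} [hf : UF f] :
    UF (fun N v => H83.AC.wh (f N v)) := UF.wh hf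

end H83.AC
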