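import Pool.Agent.H83.AC.Half
import Pool.Agent.H83.AC.WoU

/-!
# Module ChF: countable choice for coanalytic sets holds in the symmetric extension

Let `B = val c σ`, `HS M σ`, support `nz m`. Let `P = {e ∈ M : e ⊆ prod (CondC (nz m)) HF} ∈ M`
(`UF.pow`), `w ∈ M` a well-order of `P` (`exists_wo`), `cm = c ∩ Col (nz m)` as an element of `NN M c`:
`cm = ev e₀ c`, `e₀ = {pair {pair a one} a : a ∈ Col (nz m)}`. For `e ∈ P`:
`ev e c = evs e cm`, where `evs e s = sep (fun h => ∃ p ∈ Cond, Fits p (cls s) ∧ pair p h ∈ e) (rng e)` (for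
`p ∈ CondC (nz m)`: `Fits p c ↔ Fits p (cls cm)`), a uniformly definable function of `e, s`. In
`N = NN M c` (a model, `NN_tm`; `M ⊆ N` by `sub_NN`) define for `k ∈ omega` the set
`S k = {e ∈ P : evs e cm ∈ app B k}`, nonempty by `exists_low`, let `ε k` be the `w`-least element of `S k`
(`⋃₀` of the set of all `e ∈ S k` with no smaller element in `S k`, a singleton) and
`f = fgr (fun k => evs (ε k) cm) omega ∈ N` (`UF.fgr`, parameters `B, P, w, cm`).
-/

namespace H83.AC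

open ZFSet

/-- evaluation with a set instead of a class -/
private noncomputable def ChF_evs (e s : ZFSet.{0}) : ZFSet.{0} :=
  ZFSet.sep (fun h => ∃ p ∈ Cond, (∀ a ∈ Idx, (pair a one ∈ p → a ∈ s) ∧ (pair a ∅ ∈ p → a ∉ s)) ∧
    pair p h ∈ e) (rng e)

private instance ChF_evs_inst {f g : Set ZFSet.{0} → (ℕ → ZFSet.{0}) → ZFSet.{0}} [hf : UF f]
    [hg : UF g] : UF (fun N v => ChF_evs (f N v) (g N v)) := by
  refine UF.comp2 (F := fun _ e s => ChF_evs e s) ?_ hf hg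
  unfold ChF_evs
  infer_instance

/-- the elements with the required property -/
private noncomputable def ChF_S (B P s k : ZFSet.{0}) : ZFSet.{0} :=
  ZFSet.sep (fun e => ChF_evs e s ∈ app B k) P

private instance ChF_S_inst {f g h l : Set ZFSet.{0} → (ℕ → ZFSet.{0}) → ZFSet.{0}} [hf : UF f]
    [hg : UF g] [hh : UF h] [hl : UF l] :
    UF (fun N v => ChF_S (f N v) (g N v) (h N v) (l N v)) := by
  refine UF.comp4 (F := fun _ B P s k => ChF_S B P s k) ?_ hf hg hh hl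
  unfold ChF_S
  infer_instance

/-- the least element -/
private noncomputable def ChF_min (w S : ZFSet.{0}) : ZFSet.{0} :=
  ⋃₀ (ZFSet.sep (fun e => ∀ e' ∈ S, pair e' e ∉ w) S : ZFSet)

private instance ChF_min_inst {f g : Set ZFSet.{0} → (ℕ → ZFSet.{0}) → ZFSet.{0}} [hf : UF f]
    [hg : UF g] : UF (fun N v => ChF_min (f N v) (g N v)) := by
  refine UF.comp2 (F := fun _ w S => ChF_min w S) ?_ hf hg
  unfold ChF_min
  infer_instance

private theorem ChF_min_mem {w P S : ZFSet.{0}} (hw : IsWO w P) (hS : S ⊆ P) (hne : S ≠ ∅) :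
    ChF_min w S ∈ S := by
  obtain ⟨_, h2, _, h4⟩ := hw
  obtain ⟨x, hx, hmin⟩ := h4 S hS hne
  have h5 : (ZFSet.sep (fun e => ∀ e' ∈ S, pair e' e ∉ w) S : ZFSet) = {x} := by
    ext y
    rw [ZFSet.mem_sep, ZFSet.mem_singleton]
    constructor
    · rintro ⟨hy, hy2⟩
      rcases h2 y (hS hy) x (hS hx) with h | h | h
      · exact h
      · exact absurd h (hmin y hy)
      · exact absurd h (hy2 x hx)
    · rintro rfl
      exact ⟨hx, hmin⟩
  rw [ChF_min, h5, ZFSet.sUnion_singleton]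
  exact hx

private theorem ChF_fits {c : Set ZFSet.{0}} {m p s : ZFSet.{0}} (hp : p ∈ CondC m)
    (hm : m ⊆ omega) (hs : ∀ a, a ∈ s ↔ a ∈ Col m ∧ a ∈ c) :
    Fits p c ↔ ∀ a ∈ Idx, (pair a one ∈ p → a ∈ s) ∧ (pair a ∅ ∈ p → a ∉ s) := by
  rw [CondC, ZFSet.mem_sep] at hp
  have hcol : ∀ a i, pair a i ∈ p → a ∈ Col m := by
    intro a i h
    exact (ZFSet.pair_mem_prod.1 (hp.2 h)).1
  have hidx : ∀ a, a ∈ Col m → a ∈ Idx := by
    intro a ha
    rw [Col, ZFSet.mem_prod] at ha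
    obtain ⟨x, hx, y, hy, rfl⟩ := ha
    exact ZFSet.pair_mem_prod.2 ⟨hm hx, hy⟩
  constructor
  · intro h a _
    refine ⟨fun h1 => (hs a).2 ⟨hcol a _ h1, (h a).1 h1⟩, fun h1 h2 => ?_⟩
    exact (h a).2 h1 ((hs a).1 h2).2
  · intro h a
    refine ⟨fun h1 => ?_, fun h1 h2 => ?_⟩
    · exact ((hs a).1 ((h a (hidx a (hcol a _ h1))).1 h1)).2
    · exact (h a (hidx a (hcol a _ h1))).2 h1 ((hs a).2 ⟨hcol a _ h1, h2⟩)

private theorem ChF_ev {c : Set ZFSet.{0}} {m e s H : ZFSet.{0}} (he : e ⊆ ZFSet.prod (CondC m) H)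
    (hm : m ⊆ omega) (hs : ∀ a, a ∈ s ↔ a ∈ Col m ∧ a ∈ c) : ev e c = ChF_evs e s := by
  ext h
  rw [mem_ev, ChF_evs, ZFSet.mem_sep]
  constructor
  · rintro ⟨p, hp, hf, h1⟩
    have h2 := (ZFSet.pair_mem_prod.1 (he h1)).1
    exact ⟨mem_rng.2 ⟨p, h1⟩, p, hp, (ChF_fits h2 hm hs).1 hf, h1⟩
  · rintro ⟨_, p, hp, hf, h1⟩
    have h2 := (ZFSet.pair_mem_prod.1 (he h1)).1
    exact ⟨p, hp, (ChF_fits h2 hm hs).2 hf, h1⟩

theorem choice_half {M c : Set ZFSet.{0}} (hG : Ground M) (hc : Gen M c) :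
    ACw (NN M c) (PI1 (NN M c)) := by
  have hM := hG.tm
  have hN := NN_tm hM hc
  rintro B ⟨σ, hσ, hHS, rfl⟩ hB
  obtain ⟨_, ⟨m0, hsupp⟩, _⟩ := HS_iff.1 hHS
  obtain ⟨m, rfl⟩ := mem_omega.1 hsupp.1
  have hmω : nz m ⊆ omega := by
    intro x hx
    obtain ⟨i, _, rfl⟩ := mem_nz.1 hx
    exact nz_mem_omega i
  -- the set of names
  have hprod : ZFSet.prod (CondC (nz m)) HF ∈ M :=
    (inferInstance : UF (fun _ v => ZFSet.prod (CondC (v 0)) HF)).mem M hM (fun _ => nz m)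
      (fun _ => (UF.nz m).mem M hM (fun _ => σ) (fun _ => hσ))
  set P : ZFSet.{0} := ZFSet.sep (fun x => x ∈ M) (powerset (ZFSet.prod (CondC (nz m)) HF)) with hPdef
  have hP : P ∈ M := hM.pow_of hprod
  have memP : ∀ e, e ∈ P ↔ e ⊆ ZFSet.prod (CondC (nz m)) HF ∧ e ∈ M := by
    intro e
    rw [hPdef, ZFSet.mem_sep, ZFSet.mem_powerset]
  obtain ⟨w, hwM, hw⟩ := exists_wo hM hG.vl hP
  -- the part of the generic set in the first columns
  set e0 : ZFSet.{0} := img (fun a => pair {pair a one} a) (Col (nz m)) with he0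
  have he0M : e0 ∈ M := by
    have := UF.one
    have h1 : UF (fun _ v => img (fun a => pair {pair a one} a) (Col (v 0))) := by
      infer_instance
    exact h1.mem M hM (fun _ => nz m) (fun _ => (UF.nz m).mem M hM (fun _ => σ) (fun _ => hσ))
  have hcolidx : ∀ a ∈ Col (nz m), a ∈ Idx := by
    intro a ha
    rw [Col, ZFSet.mem_prod] at ha
    obtain ⟨x, hx, y, hy, rfl⟩ := ha
    exact ZFSet.pair_mem_prod.2 ⟨hmω hx, hy⟩
  have he0s : e0 ⊆ ZFSet.prod (CondC (nz m)) HF := by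
    intro t ht
    rw [he0, mem_img] at ht
    obtain ⟨a, ha, rfl⟩ := ht
    refine ZFSet.pair_mem_prod.2 ⟨?_, idx_HF (hcolidx a ha)⟩
    rw [CondC, ZFSet.mem_sep]
    refine ⟨lit1_cond (hcolidx a ha), ?_⟩
    intro t ht
    rw [ZFSet.mem_singleton] at ht
    subst ht
    refine ZFSet.pair_mem_prod.2 ⟨ha, ?_⟩
    rw [ZFSet.mem_pair]
    exact Or.inr rfl
  set s : ZFSet.{0} := ev e0 c with hsdef
  have hsN : s ∈ NN M c := ev_mem hM hsupp.1 he0M he0s
  have hs : ∀ a, a ∈ s ↔ a ∈ Col (nz m) ∧ a ∈ c := by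
    intro a
    rw [hsdef, mem_ev]
    constructor
    · rintro ⟨p, _, hf, h1⟩
      rw [he0, mem_img] at h1
      obtain ⟨b, hb, h2⟩ := h1
      obtain ⟨h3, h4⟩ := ZFSet.pair_injective h2
      subst h4
      refine ⟨hb, (hf b).1 ?_⟩
      rw [← h3, ZFSet.mem_singleton]
    · rintro ⟨ha, hac⟩
      refine ⟨{pair a one}, lit1_cond (hcolidx a ha), ?_, ?_⟩
      · intro b
        refine ⟨fun h1 => ?_, fun h1 => ?_⟩
        · rw [ZFSet.mem_singleton] at h1
          rw [(ZFSet.pair_injective h1).1]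
          exact hac
        · rw [ZFSet.mem_singleton] at h1
          exact absurd (ZFSet.pair_injective h1).2.symm one_ne_empty
      · rw [he0, mem_img]
        exact ⟨a, ha, rfl⟩
  have hPN : P ∈ NN M c := sub_NN hM hP
  have hwN : w ∈ NN M c := sub_NN hM hwM
  have hBN : val c σ ∈ NN M c := ⟨σ, hσ, hHS, rfl⟩
  -- the choice function
  set f : ZFSet.{0} := fgr (fun k => ChF_evs (ChF_min w (ChF_S (val c σ) P s k)) s) omega with hf
  have hfN : f ∈ NN M c := by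
    have := UF.omega
    have h1 : UF (fun _ v => fgr (fun k => ChF_evs (ChF_min (v 2) (ChF_S (v 0) (v 1) (v 3) k)) (v 3))
        omega) := by
      infer_instance
    exact h1.mem (NN M c) hN (cons (val c σ) (cons P (cons w (fun _ => s)))) (fun n => by
      rcases n with _ | _ | _ | n
      · exact hBN
      · exact hPN
      · exact hwN
      · exact hsN)
  refine ⟨f, hfN, fun k hk => ?_⟩
  obtain ⟨hPI, hne⟩ := hB k hk
  obtain ⟨e, heM, hes, hev⟩ := exists_low hM hG.ctbl hc hσ hHS hsupp hk hPI hne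
  have hSne : ChF_S (val c σ) P s k ≠ ∅ := by
    intro h0
    have h1 : e ∈ ChF_S (val c σ) P s k := by
      rw [ChF_S, ZFSet.mem_sep]
      refine ⟨(memP e).2 ⟨hes, heM⟩, ?_⟩
      rw [← ChF_ev hes hmω hs]
      exact hev
    rw [h0] at h1
    exact ZFSet.notMem_empty e h1
  have hSP : ChF_S (val c σ) P s k ⊆ P := by
    intro x hx
    rw [ChF_S, ZFSet.mem_sep] at hx
    exact hx.1
  have hmin := ChF_min_mem hw hSP hSne
  have h2 : app f k = ChF_evs (ChF_min w (ChF_S (val c σ) P s k)) s := by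
    rw [hf, app_fgr hk]
  rw [h2]
  rw [ChF_S, ZFSet.mem_sep] at hmin
  exact hmin.2

end H83.AC
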