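import Pool.Agent.H83.AC.ActV
import Pool.Agent.H83.AC.HSU

/-!
# Module Chk: check names

`chk x = img (fun y => pair (chk y) ∅) x`. `UF.chk`: `UF.recMem`. `val_chk`: induction (`∅ ∈ Cond`
fits everything). `actN z (chk x) = chk x` (`actC_empty`), so `HS_chk` by induction on `rank x`
(support `∅ = nz 0`). `chk_inj`.
-/

namespace H83.AC

open ZFSet

theorem chk_eq (x : ZFSet.{0}) : chk x = img (fun y => pair (chk y) ∅) x := by
  rw [chk, img]

theorem UF.chk {f : Set ZFSet.{0} → (ℕ → ZFSet.{0}) → ZFSet.{0}} (hf : UF f) :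
    UF (fun N v => H83.AC.chk (f N v)) := by
  refine UF.comp1 (F := fun _ x => H83.AC.chk x) ?_ hf
  refine UF.recMem (G := fun _ _ x f => H83.AC.img (fun y => ZFSet.pair (H83.AC.app f y) ∅) x)
    (F := fun _ _ x => H83.AC.chk x) (by (repeat' first
        | assumption | exact UF.var _ | exact UD.true | exact UD.false | apply UF.empty
        | apply UF.fgr | apply UF.uni | apply UF.img | apply UF.pow | apply UF.sep | apply UF.pair
        | apply UF.upair | apply UF.singleton | apply UF.insert | apply UF.union | apply UF.inter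
        | apply UF.diff | apply UF.prod | apply UF.sUnion | apply UF.app | apply UF.dom
        | apply UF.rng | apply UF.fst | apply UF.snd | apply UF.ite | apply UD.and | apply UD.or
        | apply UR.ball | apply UR.bex | apply UD.allN | apply UD.exN | apply UD.iff
        | apply UR.mem | apply UR.eq | apply UR.sub | apply UD.not | apply UD.imp
        | exact UD.prop _)) (fun N _ v _ x _ => ?_)
  rw [chk_eq]
  exact img_congr fun y hy => by rw [app_fgr hy]

private theorem pair_mem_chk {x π p : ZFSet.{0}} :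
    pair π p ∈ chk x ↔ ∃ y ∈ x, π = chk y ∧ p = ∅ := by
  rw [chk_eq, mem_img]
  constructor
  · rintro ⟨y, hy, h⟩
    obtain ⟨h1, h2⟩ := pair_injective h
    exact ⟨y, hy, h1.symm, h2.symm⟩
  · rintro ⟨y, hy, rfl, rfl⟩
    exact ⟨y, hy, rfl⟩

theorem val_chk (c : Set ZFSet.{0}) (x : ZFSet.{0}) : val c (chk x) = x := by
  induction x using ZFSet.inductionOn with
  | _ x ih =>
    ext z
    rw [mem_val]
    constructor
    · rintro ⟨π, p, -, -, hp, rfl⟩
      obtain ⟨y, hy, rfl, rfl⟩ := pair_mem_chk.1 hp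
      rw [ih y hy]
      exact hy
    · intro hz
      exact ⟨chk z, ∅, empty_cond, fits_empty c, pair_mem_chk.2 ⟨z, hz, rfl, rfl⟩,
        (ih z hz).symm⟩

theorem actN_chk (z x : ZFSet.{0}) : actN z (chk x) = chk x := by
  induction x using ZFSet.inductionOn with
  | _ x ih =>
    ext t
    rw [mem_actN]
    constructor
    · rintro ⟨π, p, -, hp, rfl⟩
      obtain ⟨y, hy, rfl, rfl⟩ := pair_mem_chk.1 hp
      rw [ih y hy, actC_empty]
      exact hp
    · intro ht
      rw [chk_eq, mem_img] at ht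
      obtain ⟨y, hy, rfl⟩ := ht
      exact ⟨chk y, ∅, empty_cond, pair_mem_chk.2 ⟨y, hy, rfl, rfl⟩, by rw [ih y hy, actC_empty]⟩

theorem HS_chk (M : Set ZFSet.{0}) (x : ZFSet.{0}) : HS M (chk x) := by
  induction x using ZFSet.inductionOn with
  | _ x ih =>
    refine HS_iff.2 ⟨fun t ht => ?_, ⟨nz 0, nz_mem_omega 0, fun z _ _ => actN_chk z x⟩,
      fun π hπ => ?_⟩
    · rw [chk_eq, mem_img] at ht
      obtain ⟨y, -, rfl⟩ := ht
      exact ⟨chk y, ∅, empty_cond, rfl⟩
    · obtain ⟨p, -, hp⟩ := mem_nd.1 hπ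
      obtain ⟨y, hy, rfl, rfl⟩ := pair_mem_chk.1 hp
      exact ih y hy

theorem sub_NN {M c : Set ZFSet.{0}} (hM : TM M) {x : ZFSet.{0}} (hx : x ∈ M) : x ∈ NN M c :=
  ⟨chk x, (UF.chk (UF.var 0)).mem M hM (fun _ => x) (fun _ => hx), HS_chk M x, (val_chk c x).symm⟩

instance Inst.chk {f : Set ZFSet.{0} → (ℕ → ZFSet.{0}) → ZFSet.{0}} [hf : UF f] :
    UF (fun N v => H83.AC.chk (f N v)) := UF.chk hf

end H83.AC
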