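import Pool.Agent.H83.AC.LocA

/-!
# Module Cl3: complements of projections of (closed and well-founded) are of the second level

`R` = the set of reals of `N` (`sep (IsFunc omega omega ·)` of the power set of `prod omega omega` in `N`).
`C` = the set of all `pair x (pair y z)`, `x, y, z ∈ R`, such that either
(a) `app z ∅ = ∅` and `∀ n ∈ omega, bE y (app cdg (app z (sc (sc n)))) (app cdg (app z (sc n)))`, or
(b) `∃ m ∈ omega, app z ∅ = sc m ∧ ∀ x' ∈ R, ∀ y' ∈ R, pair x' y' ∈ K → ¬ (Agree m x x' ∧ Agree m y y')`.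
`C ∈ N` (`infer_instance`, `TM.sep_of`).
Closed: let `pair x (pair y z) ∉ C`. If `app z ∅ = ∅` some `n` violates (a): `bE y i j` fails for
`i, j` determined by `z` at `sc (sc n)`, `sc n`; take `m` larger than `n + 3` and than the address
`ci (tg 0 (pair i j))`. If `app z ∅ = sc m`: some `pair x' y' ∈ K` agrees with `x, y` below `m`; this
remains true for all reals agreeing with `x, y, z` below `max m 1`. (Real numbers have values in
`omega`, and an element of `omega` is `∅` or `sc m`.)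
The equivalence: given `y`; if `pair x y ∉ K`, `hKc` gives `m`, and `z = ` the function with value `sc m` at
`∅` and `∅` elsewhere works (b). If `f` is a descending sequence, `z` with `app z ∅ = ∅`,
`app z (sc n) = ci (app f n)` works (a) (`cdg_ci`). Conversely from (a) `f n = app cdg (app z (sc n))`
(`cdg_HF`; `f = fgr .. omega ∈ N`), from (b) `pair x y ∉ K`.
-/

namespace H83.AC

open ZFSet

namespace Cl3

/-- the address of the relation of two values -/
noncomputable def ad (z n : ZFSet.{0}) : ZFSet.{0} :=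
  ci (tg 0 (pair (app cdg (app z (sc (sc n)))) (app cdg (app z (sc n)))))

/-- the first alternative -/
def Ca (y z : ZFSet.{0}) : Prop :=
  app z ∅ = ∅ ∧ ∀ n ∈ omega, ¬ (app y (ad z n) = ∅)

/-- the second alternative -/
def Cb (R K x y z : ZFSet.{0}) : Prop :=
  ∃ m ∈ omega, app z ∅ = sc m ∧ ∀ x' ∈ R, ∀ y' ∈ R, pair x' y' ∈ K →
    ¬ ((∀ i ∈ m, app x i = app x' i) ∧ (∀ i ∈ m, app y i = app y' i))

/-- the closed set -/
noncomputable def CC (R K : ZFSet.{0}) : ZFSet.{0} :=
  ZFSet.sep (fun t => Ca (fst (snd t)) (snd (snd t)) ∨ Cb R K (fst t) (fst (snd t)) (snd (snd t)))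
    (ZFSet.prod R (ZFSet.prod R R))

/-- the reals of `N` -/
noncomputable def Rs (N : Set ZFSet.{0}) : ZFSet.{0} :=
  ZFSet.sep (fun x => IsFunc omega omega x)
    (ZFSet.sep (fun x => x ∈ N) (powerset (ZFSet.prod omega omega)))

theorem mem_Rs {N : Set ZFSet.{0}} {x : ZFSet.{0}} : x ∈ Rs N ↔ Real N x := by
  rw [Rs, mem_sep, mem_sep, mem_powerset]
  constructor
  · rintro ⟨⟨-, h1⟩, h2⟩
    exact ⟨h1, h2⟩
  · rintro ⟨h1, h2⟩
    exact ⟨⟨h2.1, h1⟩, h2⟩

theorem Rs_mem {N : Set ZFSet.{0}} (hN : TM N) : Rs N ∈ N := by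
  have h1 : UF (fun N _ => ZFSet.sep (fun x => x ∈ N) (powerset (ZFSet.prod omega omega))) :=
    UF.pow (UF.prod UF.omega UF.omega)
  have h2 : UF (fun N _ => ZFSet.sep (fun x => IsFunc omega omega x)
      (ZFSet.sep (fun x => x ∈ N) (powerset (ZFSet.prod omega omega)))) :=
    UF.sep (R := fun _ x _ => IsFunc omega omega x) h1
      (UR.isFunc UF.omega UF.omega (UF.var 0))
  exact h2.mem N hN (fun _ => omega) (fun _ => hN.omega)

instance instOmega : UF (fun _ _ => ZFSet.omega) := UF.omega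

theorem UF_ad : UF (fun _ v => ad (v 0) (v 1)) := by
  unfold ad
  infer_instance

instance instAd {f g : Set ZFSet.{0} → (ℕ → ZFSet.{0}) → ZFSet.{0}} [hf : UF f] [hg : UF g] :
    UF (fun N v => ad (f N v) (g N v)) :=
  UF.comp2 (F := fun _ x y => ad x y) UF_ad hf hg

theorem UR_Ca : UR (fun _ v => Ca (v 0) (v 1)) := by
  unfold Ca
  infer_instance

theorem UR_Cb : UR (fun _ v => Cb (v 0) (v 1) (v 2) (v 3) (v 4)) := by
  unfold Cb
  infer_instance

theorem UF_CC : UF (fun _ v => CC (v 0) (v 1)) := by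
  unfold CC
  refine UF.sep (R := fun _ t v => Ca (fst (snd t)) (snd (snd t)) ∨
    Cb (v 0) (v 1) (fst t) (fst (snd t)) (snd (snd t))) (by infer_instance) ?_
  refine UD.or ?_ ?_
  · exact UR.comp2 (R := fun _ x y => Ca x y) UR_Ca (UF.fst (UF.snd (UF.var 0)))
      (UF.snd (UF.snd (UF.var 0)))
  · exact UR.comp5 (R := fun _ a b c d e => Cb a b c d e) UR_Cb (UF.var 1) (UF.var 2)
      (UF.fst (UF.var 0)) (UF.fst (UF.snd (UF.var 0))) (UF.snd (UF.snd (UF.var 0)))

theorem CC_mem {N : Set ZFSet.{0}} (hN : TM N) {K : ZFSet.{0}} (hK : K ∈ N) :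
    CC (Rs N) K ∈ N :=
  UF_CC.mem N hN (cons (Rs N) (fun _ => K)) (fun n => by
    cases n with
    | zero => exact Rs_mem hN
    | succ n => exact hK)

theorem mem_CC {N : Set ZFSet.{0}} {K x y z : ZFSet.{0}} (hx : Real N x) (hy : Real N y)
    (hz : Real N z) : pair x (pair y z) ∈ CC (Rs N) K ↔ (Ca y z ∨ Cb (Rs N) K x y z) := by
  rw [CC, mem_sep, pair_mem_prod, pair_mem_prod, mem_Rs, mem_Rs, mem_Rs]
  simp only [fst_pair, snd_pair, hx, hy, hz, true_and]

theorem ad_omega (z n : ZFSet.{0}) : ad z n ∈ omega := ci_omega _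

theorem sc_nz (n : ℕ) : sc (nz n) = nz (n + 1) := rfl

theorem nz_lt {m n : ℕ} (h : m < n) : nz m ∈ nz n := nz_mem_nz.2 h

theorem nz_zero : nz 0 = (∅ : ZFSet.{0}) := rfl

theorem sc_ne (u : ZFSet.{0}) : sc u ≠ ∅ := by
  intro h
  have : u ∈ sc u := by rw [sc]; simp
  rw [h] at this
  exact notMem_empty u this

theorem agree_mono {m n : ℕ} (h : m ≤ n) {x y : ZFSet.{0}} (hxy : Agree (nz n) x y) :
    Agree (nz m) x y := by
  intro i hi
  refine hxy i ?_
  obtain ⟨l, hl, rfl⟩ := mem_nz.1 hi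
  exact nz_mem_nz.2 (hl.trans_le h)

theorem closed {N : Set ZFSet.{0}} {K x y z : ZFSet.{0}} (hx : Real N x)
    (hy : Real N y) (hz : Real N z) (h : pair x (pair y z) ∉ CC (Rs N) K) :
    ∃ m ∈ omega, ∀ x' y' z', Real N x' → Real N y' → Real N z' →
      Agree m x x' → Agree m y y' → Agree m z z' → pair x' (pair y' z') ∉ CC (Rs N) K := by
  rw [mem_CC hx hy hz, not_or] at h
  obtain ⟨ha, hb⟩ := h
  have h0 : app z ∅ ∈ omega := fn_mem hz.2 (by
    have := nz_mem_omega 0
    exact this)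
  obtain ⟨q, hq⟩ := mem_omega.1 h0
  cases q with
  | zero =>
    rw [nz_zero] at hq
    have h1 : ∃ n ∈ omega, app y (ad z n) = ∅ := by
      by_contra hc
      push Not at hc
      exact ha ⟨hq, fun n hn => hc n hn⟩
    obtain ⟨n, hn, hn'⟩ := h1
    obtain ⟨p, rfl⟩ := mem_omega.1 hn
    obtain ⟨l, hl⟩ := mem_omega.1 (ad_omega z (nz p))
    refine ⟨nz (max (l + 1) (p + 3)), nz_mem_omega _, fun x' y' z' hx' hy' hz' hax hay haz => ?_⟩
    rw [mem_CC hx' hy' hz', not_or]
    have hz0 : app z' ∅ = ∅ := by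
      rw [← haz ∅ (nz_lt (m := 0) (by omega)), hq]
    constructor
    · rintro ⟨-, h2⟩
      refine h2 (nz p) hn ?_
      have e1 : app z' (sc (nz p)) = app z (sc (nz p)) :=
        (haz _ (nz_lt (m := p + 1) (by omega))).symm
      have e2 : app z' (sc (sc (nz p))) = app z (sc (sc (nz p))) :=
        (haz _ (nz_lt (m := p + 2) (by omega))).symm
      have e3 : ad z' (nz p) = ad z (nz p) := by rw [ad, ad, e1, e2]
      rw [e3, ← hay _ (by rw [hl]; exact nz_mem_nz.2 (by omega)), hn']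
    · rintro ⟨m, -, h2, -⟩
      rw [hz0] at h2
      exact sc_ne m h2.symm
  | succ q =>
    have h1 : ∃ x' ∈ Rs N, ∃ y' ∈ Rs N, pair x' y' ∈ K ∧
        (∀ i ∈ nz q, app x i = app x' i) ∧ (∀ i ∈ nz q, app y i = app y' i) := by
      by_contra hc
      push Not at hc
      refine hb ⟨nz q, nz_mem_omega q, hq, fun x' hx' y' hy' hxy hh => ?_⟩
      obtain ⟨i, hi, hi'⟩ := hc x' hx' y' hy' hxy hh.1
      exact hi' (hh.2 i hi)
    obtain ⟨x1, hx1, y1, hy1, h1K, h1x, h1y⟩ := h1
    refine ⟨nz (q + 1), nz_mem_omega _, fun x' y' z' hx' hy' hz' hax hay haz => ?_⟩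
    rw [mem_CC hx' hy' hz', not_or]
    have hz0 : app z' ∅ = nz (q + 1) := by
      rw [← haz ∅ (nz_lt (m := 0) (by omega)), hq]
    constructor
    · rintro ⟨h2, -⟩
      rw [hz0] at h2
      exact sc_ne (nz q) h2
    · rintro ⟨m, hm, h2, h3⟩
      obtain ⟨r, rfl⟩ := mem_omega.1 hm
      rw [hz0] at h2
      have hr : q + 1 = r + 1 := nz_inj.1 h2
      obtain rfl : q = r := by omega
      refine h3 x1 hx1 y1 hy1 h1K ⟨fun i hi => ?_, fun i hi => ?_⟩
      · rw [← h1x i hi]
        exact (agree_mono (Nat.le_succ q) hax i hi).symm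
      · rw [← h1y i hi]
        exact (agree_mono (Nat.le_succ q) hay i hi).symm

open Classical in
/-- a witness for the second alternative -/
noncomputable def zb (m : ZFSet.{0}) : ZFSet.{0} := fgr (fun n => if n = ∅ then sc m else ∅) omega

open Classical in
/-- a witness for the first alternative -/
noncomputable def za (f : ZFSet.{0}) : ZFSet.{0} :=
  fgr (fun n => if n = ∅ then ∅ else ci (app f (⋃₀ n))) omega

theorem UF_zb : UF (fun _ v => zb (v 0)) := by
  unfold zb
  infer_instance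

theorem UF_za : UF (fun _ v => za (v 0)) := by
  unfold za
  infer_instance

theorem empty_omega : (∅ : ZFSet.{0}) ∈ omega := nz_mem_omega 0

theorem zb_real {N : Set ZFSet.{0}} (hN : TM N) {m : ZFSet.{0}} (hm : m ∈ omega) :
    Real N (zb m) := by
  constructor
  · exact UF_zb.mem N hN (fun _ => m) (fun _ => hN.tr _ hN.omega _ hm)
  · refine fn_fgr fun x _ => ?_
    split_ifs
    · obtain ⟨k, rfl⟩ := mem_omega.1 hm
      exact nz_mem_omega (k + 1)
    · exact empty_omega

theorem za_real {N : Set ZFSet.{0}} (hN : TM N) {f : ZFSet.{0}} (hf : f ∈ N) :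
    Real N (za f) := by
  constructor
  · exact UF_za.mem N hN (fun _ => f) (fun _ => hf)
  · refine fn_fgr fun x _ => ?_
    split_ifs
    · exact empty_omega
    · exact ci_omega _

theorem sUnion_nz' (n : ℕ) : (⋃₀ (nz (n + 1)) : ZFSet) = nz n := by
  ext x
  rw [mem_sUnion]
  constructor
  · rintro ⟨y, hy, hx⟩
    obtain ⟨k, hk, rfl⟩ := mem_nz.1 hy
    obtain ⟨j, hj, rfl⟩ := mem_nz.1 hx
    exact nz_mem_nz.2 (by omega)
  · intro hx
    exact ⟨nz n, nz_mem_nz.2 (by omega), hx⟩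

theorem za_sc {f : ZFSet.{0}} (n : ℕ) : app (za f) (nz (n + 1)) = ci (app f (nz n)) := by
  have h : nz (n + 1) ≠ ∅ := sc_ne (nz n)
  rw [za, app_fgr (nz_mem_omega _), if_neg h, sUnion_nz']

end Cl3

open Cl3

theorem pi2_of {N : Set ZFSet.{0}} (hN : TM N) {A : ZFSet.{0}} (hA : ∀ x ∈ A, Real N x)
    {K : ZFSet.{0}} (hK : K ∈ N) (hKr : ∀ t ∈ K, ∃ x y, Real N x ∧ Real N y ∧ t = pair x y)
    (hKc : Clo N (fun x y => pair x y ∈ K))
    (h : ∀ x, Real N x → (x ∈ A ↔ ∀ y, Real N y → pair x y ∈ K →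
      ∃ f ∈ N, IsFunc omega HF f ∧ DescY y f)) : PI2 N A := by
  refine ⟨hA, CC (Rs N) K, ⟨CC_mem hN hK, ?_, ?_⟩, ?_⟩
  · intro t ht
    rw [CC, mem_sep, mem_prod] at ht
    obtain ⟨⟨x, hx, b, hb, rfl⟩, -⟩ := ht
    obtain ⟨y, hy, z, hz, rfl⟩ := mem_prod.1 hb
    exact ⟨x, y, z, mem_Rs.1 hx, mem_Rs.1 hy, mem_Rs.1 hz, rfl⟩
  · intro x y z hx hy hz hn
    exact closed hx hy hz hn
  · intro x hx
    rw [h x hx]
    constructor
    · intro H y hy
      by_cases hxy : pair x y ∈ K
      · obtain ⟨f, hf, hff, hd⟩ := H y hy hxy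
        refine ⟨za f, za_real hN hf, ?_⟩
        rw [mem_CC hx hy (za_real hN hf)]
        refine Or.inl ⟨?_, fun n hn => ?_⟩
        · rw [za, app_fgr empty_omega, if_pos rfl]
        · obtain ⟨k, rfl⟩ := mem_omega.1 hn
          have h1 := hd (nz k) (nz_mem_omega k)
          have e : ad (za f) (nz k) = ci (tg 0 (pair (app f (sc (nz k))) (app f (nz k)))) := by
            rw [ad, sc_nz, sc_nz, za_sc, za_sc, cdg_ci (fn_mem hff (nz_mem_omega _)),
              cdg_ci (fn_mem hff (nz_mem_omega _))]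
          rw [e]
          exact h1
      · obtain ⟨m, hm, h1⟩ := hKc x y hx hy hxy
        refine ⟨zb m, zb_real hN hm, ?_⟩
        rw [mem_CC hx hy (zb_real hN hm)]
        refine Or.inr ⟨m, hm, ?_, fun x' hx' y' hy' hK' hh => ?_⟩
        · rw [zb, app_fgr empty_omega, if_pos rfl]
        · exact h1 x' y' (mem_Rs.1 hx') (mem_Rs.1 hy') hh.1 hh.2 hK'
    · intro H y hy hxy
      obtain ⟨z, hz, hC⟩ := H y hy
      rw [mem_CC hx hy hz] at hC
      rcases hC with hC | hC
      · have hF : ∀ n ∈ omega, app cdg (app z (sc n)) ∈ HF := by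
          intro n hn
          obtain ⟨k, rfl⟩ := mem_omega.1 hn
          exact cdg_HF (fn_mem hz.2 (nz_mem_omega (k + 1)))
        refine ⟨fgr (fun n => app cdg (app z (sc n))) omega, ?_, fn_fgr hF, ?_⟩
        · have hU : UF (fun _ v => fgr (fun n => app cdg (app (v 0) (sc n))) omega) := by
            infer_instance
          exact hU.mem N hN (fun _ => z) (fun _ => hz.1)
        · intro n hn
          have h1 := hC.2 n hn
          have hn' : sc n ∈ omega := by
            obtain ⟨k, rfl⟩ := mem_omega.1 hn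
            exact nz_mem_omega (k + 1)
          rw [app_fgr hn, app_fgr hn']
          exact h1
      · obtain ⟨m, -, -, h1⟩ := hC
        exact absurd ⟨fun i _ => rfl, fun i _ => rfl⟩ (h1 x (mem_Rs.2 hx) y (mem_Rs.2 hy) hxy)

end H83.AC
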