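import Pool.Agent.H83.AC.EmbL

/-!
# Module Code: pairs of sets and pairs of conditions

`pb_code0`, `pb_code1`: `k0 a = k0 b → a = b`, `k0 a ≠ k1 b` on `Idx`.
`pb_mx_code`: on the columns `< m` the map `mx m` is `k0`, elsewhere `k1`.
`join_dense`: extend `join r s` to `t ∈ D`; then `t = join (lp k0 t) (lp k1 t)` (`join_split`), and
`r ⊆ lp k0 t`, `s ⊆ lp k1 t`.
`exists_prod`: enumerate the dense sets of `M` (countable); build `s₀ = ζ ⊆ s₁ ⊆ ..` in `Cond` such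
that for every dense `D ∈ M` there are `n` and `r` fitting `c` with `join r s_n ∈ D`: given `s`, the set
`{r ∈ Cond : ∃ s' ∈ Cond, s ⊆ s' ∧ join r s' ∈ D}` is in `M` and dense (`join_dense`), so `c` meets it.
Let `d = {a ∈ Idx : pair a one ∈ s_n for some n}`. (`D ∈ M` dense is `D ⊆ Cond` and dense; for the
density of the set one may extend `r` since `D` is a set of conditions.)
-/

namespace H83.AC

open ZFSet

private theorem Code_k0 {c d : Set ZFSet.{0}} (hc : ∀ a ∈ c, a ∈ Idx) (hd : ∀ a ∈ d, a ∈ Idx)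
    {a : ZFSet.{0}} (ha : a ∈ Idx) : k0 a ∈ code c d ↔ a ∈ c := by
  constructor
  · rintro (⟨b, hb, e⟩ | ⟨b, hb, e⟩)
    · rw [emb_k0.inj a ha b (hc b hb) e]; exact hb
    · exact absurd e (k0_ne_k1 ha (hd b hb))
  · intro h
    exact Or.inl ⟨a, h, rfl⟩

private theorem Code_k1 {c d : Set ZFSet.{0}} (hc : ∀ a ∈ c, a ∈ Idx) (hd : ∀ a ∈ d, a ∈ Idx)
    {a : ZFSet.{0}} (ha : a ∈ Idx) : k1 a ∈ code c d ↔ a ∈ d := by
  constructor
  · rintro (⟨b, hb, e⟩ | ⟨b, hb, e⟩)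
    · exact absurd e.symm (k0_ne_k1 (hc b hb) ha)
    · rw [emb_k1.inj a ha b (hd b hb) e]; exact hb
  · intro h
    exact Or.inr ⟨a, h, rfl⟩

private theorem Code_mem_lc {l : ZFSet.{0} → ZFSet.{0}} {p t : ZFSet.{0}} (hp : p ∈ Cond)
    (h : t ∈ lc l p) : ∃ a ∈ Idx, ∃ i, (i = ∅ ∨ i = one) ∧ t = pair (l a) i ∧ pair a i ∈ p := by
  rw [lc, mem_img] at h
  obtain ⟨y, hy, e⟩ := h
  obtain ⟨a, ha, h1⟩ := cond_lit hp hy
  rcases h1 with rfl | rfl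
  · rw [fst_pair, snd_pair] at e
    exact ⟨a, ha, one, Or.inr rfl, e.symm, hy⟩
  · rw [fst_pair, snd_pair] at e
    exact ⟨a, ha, ∅, Or.inl rfl, e.symm, hy⟩

private theorem Code_fits_union {p q : ZFSet.{0}} {b : Set ZFSet.{0}} :
    Fits (p ∪ q) b ↔ Fits p b ∧ Fits q b := by
  constructor
  · intro h
    exact ⟨fun a => ⟨fun ha => (h a).1 (mem_union.2 (Or.inl ha)),
      fun ha => (h a).2 (mem_union.2 (Or.inl ha))⟩,
      fun a => ⟨fun ha => (h a).1 (mem_union.2 (Or.inr ha)),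
      fun ha => (h a).2 (mem_union.2 (Or.inr ha))⟩⟩
  · rintro ⟨h, h'⟩ a
    constructor
    · intro ha
      rcases mem_union.1 ha with ha | ha
      · exact (h a).1 ha
      · exact (h' a).1 ha
    · intro ha
      rcases mem_union.1 ha with ha | ha
      · exact (h a).2 ha
      · exact (h' a).2 ha

theorem pb_code0 {c d : Set ZFSet.{0}} (hc : ∀ a ∈ c, a ∈ Idx) (hd : ∀ a ∈ d, a ∈ Idx) :
    pb k0 (code c d) = c := by
  ext a
  constructor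
  · rintro ⟨ha, h⟩
    exact (Code_k0 hc hd ha).1 h
  · intro h
    exact ⟨hc a h, (Code_k0 hc hd (hc a h)).2 h⟩

theorem pb_code1 {c d : Set ZFSet.{0}} (hc : ∀ a ∈ c, a ∈ Idx) (hd : ∀ a ∈ d, a ∈ Idx) :
    pb k1 (code c d) = d := by
  ext a
  constructor
  · rintro ⟨ha, h⟩
    exact (Code_k1 hc hd ha).1 h
  · intro h
    exact ⟨hd a h, (Code_k1 hc hd (hd a h)).2 h⟩

theorem pb_mx_code (m : ℕ) {c d : Set ZFSet.{0}} (hc : ∀ a ∈ c, a ∈ Idx)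
    (hd : ∀ a ∈ d, a ∈ Idx) :
    pb (mx m) (code c d) = {a | (a ∈ Col (nz m) ∧ a ∈ c) ∨ (a ∉ Col (nz m) ∧ a ∈ d)} := by
  ext a
  by_cases hcol : a ∈ Col (nz m)
  · have e : mx m a = k0 a := by rw [mx, if_pos hcol]
    constructor
    · rintro ⟨ha, h⟩
      rw [e] at h
      exact Or.inl ⟨hcol, (Code_k0 hc hd ha).1 h⟩
    · rintro (⟨-, h⟩ | ⟨h, -⟩)
      · refine ⟨hc a h, ?_⟩
        rw [e]
        exact (Code_k0 hc hd (hc a h)).2 h
      · exact absurd hcol h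
  · have e : mx m a = k1 a := by rw [mx, if_neg hcol]
    constructor
    · rintro ⟨ha, h⟩
      rw [e] at h
      exact Or.inr ⟨hcol, (Code_k1 hc hd ha).1 h⟩
    · rintro (⟨h, -⟩ | ⟨-, h⟩)
      · exact absurd h hcol
      · refine ⟨hd a h, ?_⟩
        rw [e]
        exact (Code_k1 hc hd (hd a h)).2 h

theorem join_cond {r s : ZFSet.{0}} (hr : r ∈ Cond) (hs : s ∈ Cond) : join r s ∈ Cond := by
  have key : ∀ a i j, pair a i ∈ lc k0 r → pair a j ∈ lc k1 s → False := by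
    intro a i j h1 h2
    obtain ⟨b, hb, _, _, e, _⟩ := Code_mem_lc hr h1
    obtain ⟨b', hb', _, _, e', _⟩ := Code_mem_lc hs h2
    exact k0_ne_k1 hb hb' ((pair_inj.1 e).1.symm.trans (pair_inj.1 e').1)
  exact union_cond (lc_cond emb_k0 hr) (lc_cond emb_k1 hs)
    fun a => ⟨fun h => key _ _ _ h.1 h.2, fun h => key _ _ _ h.1 h.2⟩

theorem join_split {t : ZFSet.{0}} (ht : t ∈ Cond) : join (lp k0 t) (lp k1 t) = t := by
  ext x
  rw [join, mem_union]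
  constructor
  · rintro (h | h)
    · obtain ⟨a, -, i, -, rfl, h'⟩ := Code_mem_lc (lp_cond emb_k0 ht) h
      exact (mem_lp.1 h').2.2
    · obtain ⟨a, -, i, -, rfl, h'⟩ := Code_mem_lc (lp_cond emb_k1 ht) h
      exact (mem_lp.1 h').2.2
  · intro hx
    obtain ⟨a, ha, h1⟩ := cond_lit ht hx
    obtain ⟨i, hi, rfl⟩ : ∃ i, (i = ∅ ∨ i = one) ∧ x = pair a i := by
      rcases h1 with rfl | rfl
      · exact ⟨one, Or.inr rfl, rfl⟩
      · exact ⟨∅, Or.inl rfl, rfl⟩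
    obtain ⟨b, hb, h2⟩ := idx_cases ha
    rcases h2 with rfl | rfl
    · exact Or.inl ((mem_lc emb_k0 (lp_cond emb_k0 ht) hb).2 (mem_lp.2 ⟨hb, hi, hx⟩))
    · exact Or.inr ((mem_lc emb_k1 (lp_cond emb_k1 ht) hb).2 (mem_lp.2 ⟨hb, hi, hx⟩))

theorem join_fits {r s : ZFSet.{0}} {c d : Set ZFSet.{0}} (hr : r ∈ Cond) (hs : s ∈ Cond)
    (hc : ∀ a ∈ c, a ∈ Idx) (hd : ∀ a ∈ d, a ∈ Idx) :
    Fits (join r s) (code c d) ↔ Fits r c ∧ Fits s d := by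
  rw [join, Code_fits_union, fits_lc emb_k0 hr, fits_lc emb_k1 hs, pb_code0 hc hd,
    pb_code1 hc hd]

theorem join_dense {D : ZFSet.{0} → Prop} (hD : ∀ p ∈ Cond, ∃ q ∈ Cond, p ⊆ q ∧ D q)
    {r s : ZFSet.{0}} (hr : r ∈ Cond) (hs : s ∈ Cond) :
    ∃ r' ∈ Cond, ∃ s' ∈ Cond, r ⊆ r' ∧ s ⊆ s' ∧ D (join r' s') := by
  obtain ⟨q, hq, hsub, hDq⟩ := hD _ (join_cond hr hs)
  refine ⟨lp k0 q, lp_cond emb_k0 hq, lp k1 q, lp_cond emb_k1 hq, ?_, ?_, ?_⟩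
  · intro t ht
    obtain ⟨a, ha, h1⟩ := cond_lit hr ht
    obtain ⟨i, hi, rfl⟩ : ∃ i, (i = ∅ ∨ i = one) ∧ t = pair a i := by
      rcases h1 with rfl | rfl
      · exact ⟨one, Or.inr rfl, rfl⟩
      · exact ⟨∅, Or.inl rfl, rfl⟩
    exact mem_lp.2 ⟨ha, hi, hsub (mem_union.2 (Or.inl ((mem_lc emb_k0 hr ha).2 ht)))⟩
  · intro t ht
    obtain ⟨a, ha, h1⟩ := cond_lit hs ht
    obtain ⟨i, hi, rfl⟩ : ∃ i, (i = ∅ ∨ i = one) ∧ t = pair a i := by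
      rcases h1 with rfl | rfl
      · exact ⟨one, Or.inr rfl, rfl⟩
      · exact ⟨∅, Or.inl rfl, rfl⟩
    exact mem_lp.2 ⟨ha, hi, hsub (mem_union.2 (Or.inr ((mem_lc emb_k1 hs ha).2 ht)))⟩
  · rw [join_split hq]
    exact hDq

theorem UF.join {f g : Set ZFSet.{0} → (ℕ → ZFSet.{0}) → ZFSet.{0}} (hf : UF f) (hg : UF g) :
    UF (fun N v => H83.AC.join (f N v) (g N v)) :=
  (UF.lc emb_k0 hf).union (UF.lc emb_k1 hg)

instance Inst.join {f g : Set ZFSet.{0} → (ℕ → ZFSet.{0}) → ZFSet.{0}} [hf : UF f] [hg : UF g] :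
    UF (fun N v => H83.AC.join (f N v) (g N v)) := UF.join hf hg

end H83.AC
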