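import Pool.Agent.H83.AC.Defs2

/-!
# Module Col: the Mostowski collapse of a countable extensional class

`X` is countable, hence small; `π x = {π y : y ∈ x, y ∈ X}` by recursion along `∈`
(`ZFSet.mem_wf.fix`, or a definition with `termination_by rank x` and `ZFSet.range` over the small
type `{y // y ∈ x ∧ y ∈ X}` (it is small because it is a subtype of `x`)).
-/

namespace H83.AC

open ZFSet

/-- the collapse of the class `X` -/
private noncomputable def colp (X : Set ZFSet.{0}) (x : ZFSet.{0}) : ZFSet.{0} :=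
  ZFSet.range (fun y : ZFSet.sep (fun y => y ∈ X) x => colp X y.1)
termination_by rank x
decreasing_by exact rank_lt_of_mem (mem_sep.1 y.2).1

private theorem mem_colp {X : Set ZFSet.{0}} {x z : ZFSet.{0}} :
    z ∈ colp X x ↔ ∃ y ∈ x, y ∈ X ∧ colp X y = z := by
  rw [colp, mem_range]
  constructor
  · rintro ⟨⟨y, hy⟩, rfl⟩
    exact ⟨y, (mem_sep.1 hy).1, (mem_sep.1 hy).2, rfl⟩
  · rintro ⟨y, hy, hyX, rfl⟩
    exact ⟨⟨y, mem_sep.2 ⟨hy, hyX⟩⟩, rfl⟩

private theorem colp_inj {X : Set ZFSet.{0}}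
    (hext : ∀ x ∈ X, ∀ y ∈ X, (∀ z ∈ X, z ∈ x ↔ z ∈ y) → x = y) (x : ZFSet.{0}) :
    x ∈ X → ∀ y ∈ X, colp X x = colp X y → x = y := by
  induction x using ZFSet.inductionOn with
  | _ x ih =>
  intro hx y hy h
  refine hext x hx y hy fun z hz => ⟨fun hzx => ?_, fun hzy => ?_⟩
  · have h1 : colp X z ∈ colp X y := by
      rw [← h]; exact mem_colp.2 ⟨z, hzx, hz, rfl⟩
    obtain ⟨w, hwy, hwX, hw⟩ := mem_colp.1 h1
    rw [ih z hzx hz w hwX hw.symm]
    exact hwy
  · have h1 : colp X z ∈ colp X x := by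
      rw [h]; exact mem_colp.2 ⟨z, hzy, hz, rfl⟩
    obtain ⟨w, hwx, hwX, hw⟩ := mem_colp.1 h1
    rw [← ih w hwx hwX z hz hw]
    exact hwx

private theorem colp_cons {X : Set ZFSet.{0}} (x : ZFSet.{0}) (v : ℕ → ZFSet.{0}) :
    (fun n => colp X (cons x v n)) = cons (colp X x) (fun n => colp X (v n)) := by
  funext n
  cases n <;> rfl

theorem exists_collapse (X : Set ZFSet.{0}) (hc : X.Countable)
    (hext : ∀ x ∈ X, ∀ y ∈ X, (∀ z ∈ X, z ∈ x ↔ z ∈ y) → x = y) :
    ∃ (M : Set ZFSet.{0}) (π : ZFSet.{0} → ZFSet.{0}), IsTr M ∧ M.Countable ∧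
      Set.BijOn π X M ∧ (∀ x ∈ X, ∀ y ∈ X, x ∈ y ↔ π x ∈ π y) ∧
      (∀ t ∈ X, (∀ y ∈ t, y ∈ X ∧ y ⊆ t) → π t = t ∧ ∀ y ∈ t, π y = y) ∧
      ∀ (φ : Fml) (v : ℕ → ZFSet.{0}), (∀ i, v i ∈ X) →
        (SatIn X φ v ↔ SatIn M φ (fun n => π (v n))) := by
  have hmem : ∀ x ∈ X, ∀ y ∈ X, x ∈ y ↔ colp X x ∈ colp X y := by
    intro x hx y hy
    constructor
    · intro h
      exact mem_colp.2 ⟨x, h, hx, rfl⟩
    · intro h
      obtain ⟨w, hwy, hwX, hw⟩ := mem_colp.1 h
      rw [← colp_inj hext w hwX x hx hw]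
      exact hwy
  refine ⟨colp X '' X, colp X, ?_, hc.image _, ?_, hmem, ?_, ?_⟩
  · rintro _ ⟨x, hx, rfl⟩ z hz
    obtain ⟨y, _, hyX, rfl⟩ := mem_colp.1 hz
    exact ⟨y, hyX, rfl⟩
  · exact ⟨Set.mapsTo_image _ _, fun x hx y hy h => colp_inj hext x hx y hy h,
      Set.surjOn_image _ _⟩
  · intro t _ ht
    have h1 : ∀ y : ZFSet.{0}, y ∈ t → colp X y = y := by
      intro y
      induction y using ZFSet.inductionOn with
      | _ y ih =>
      intro hy
      ext z
      rw [mem_colp]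
      constructor
      · rintro ⟨w, hwy, _, rfl⟩
        rw [ih w hwy ((ht y hy).2 hwy)]
        exact hwy
      · intro hz
        have hzt : z ∈ t := (ht y hy).2 hz
        exact ⟨z, hz, (ht z hzt).1, ih z hz hzt⟩
    refine ⟨?_, h1⟩
    ext z
    rw [mem_colp]
    constructor
    · rintro ⟨w, hwt, _, rfl⟩
      rw [h1 w hwt]
      exact hwt
    · intro hz
      exact ⟨z, hz, (ht z hz).1, h1 z hz⟩
  · intro φ
    induction φ with
    | bot => intro v _; exact Iff.rfl
    | eq i j =>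
      intro v hv
      simp only [SatIn]
      exact ⟨fun h => by rw [h], fun h => colp_inj hext _ (hv i) _ (hv j) h⟩
    | mem i j =>
      intro v hv
      simp only [SatIn]
      exact hmem _ (hv i) _ (hv j)
    | imp φ ψ h1 h2 =>
      intro v hv
      simp only [SatIn, h1 v hv, h2 v hv]
    | all φ ih =>
      intro v hv
      simp only [SatIn]
      have hcons : ∀ x ∈ X, ∀ i, cons x v i ∈ X := by
        intro x hx i
        cases i with
        | zero => exact hx
        | succ n => exact hv n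
      constructor
      · rintro H _ ⟨x, hx, rfl⟩
        have h1 := (ih (cons x v) (hcons x hx)).1 (H x hx)
        rwa [colp_cons] at h1
      · intro H x hx
        rw [ih (cons x v) (hcons x hx), colp_cons]
        exact H _ ⟨x, hx, rfl⟩

end H83.AC
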