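import Pool.Agent.H83.AC.HFb

/-!
# Module CondB: Cohen conditions

`Cond ⊆ HF`: finite consistent sets of literals `pair a one`, `pair a ∅`, `a ∈ Idx` (`one ≠ ∅`).
`union_cond`: if `p, q` have no contradictory literals then `p ∪ q ∈ Cond`; in particular if both
fit the same `c`. `actC z` flips the literals with index in `z`; it is an involution on `Cond`.
`symm c z` is the symmetric difference.
-/

namespace H83.AC

open ZFSet

/-- symmetric difference of the class `c` and the set `z` -/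
def sd (c : Set ZFSet.{0}) (z : ZFSet.{0}) : Set ZFSet.{0} :=
  {a | (a ∈ c ∧ a ∉ z) ∨ (a ∉ c ∧ a ∈ z)}

theorem one_ne_empty : one ≠ (∅ : ZFSet) := by
  intro h
  have h1 : (∅ : ZFSet) ∈ (one : ZFSet) := by simp [one]
  rw [h] at h1
  exact ZFSet.notMem_empty _ h1

theorem cond_HF {p : ZFSet.{0}} (h : p ∈ Cond) : p ∈ HF := by
  rw [Cond, mem_sep] at h
  exact h.1

theorem cond_lit {p t : ZFSet.{0}} (h : p ∈ Cond) (ht : t ∈ p) :
    ∃ a ∈ Idx, t = pair a one ∨ t = pair a ∅ := by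
  rw [Cond, mem_sep] at h
  have h1 := h.2.1 ht
  rw [mem_prod] at h1
  obtain ⟨a, ha, b, hb, rfl⟩ := h1
  refine ⟨a, ha, ?_⟩
  rw [ZFSet.mem_pair] at hb
  rcases hb with rfl | rfl
  · right; rfl
  · left; rfl

theorem mem_cond {p : ZFSet.{0}} : p ∈ Cond ↔ p ∈ HF ∧
    (∀ t ∈ p, ∃ a ∈ Idx, t = pair a one ∨ t = pair a ∅) ∧
    ∀ a, ¬ (pair a ∅ ∈ p ∧ pair a one ∈ p) := by
  constructor
  · intro h
    refine ⟨cond_HF h, fun t ht => cond_lit h ht, ?_⟩
    intro a ha
    obtain ⟨b, hb, e⟩ := cond_lit h ha.1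
    have e' : a = b := by
      rcases e with e | e
      · exact (pair_inj.1 e).1
      · exact (pair_inj.1 e).1
    subst e'
    rw [Cond, mem_sep] at h
    exact h.2.2 _ hb ha
  · rintro ⟨h1, h2, h3⟩
    rw [Cond, mem_sep]
    refine ⟨h1, ?_, fun a _ => h3 a⟩
    intro t ht
    obtain ⟨a, ha, e⟩ := h2 t ht
    rw [mem_prod]
    rcases e with rfl | rfl
    · exact ⟨a, ha, one, by simp, rfl⟩
    · exact ⟨a, ha, ∅, by simp, rfl⟩

theorem cond_con {p a : ZFSet.{0}} (h : p ∈ Cond) : ¬ (pair a ∅ ∈ p ∧ pair a one ∈ p) :=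
  (mem_cond.1 h).2.2 a

theorem empty_cond : (∅ : ZFSet) ∈ Cond := by
  rw [mem_cond]
  refine ⟨HF_empty, ?_, ?_⟩
  · intro t ht; exact absurd ht (ZFSet.notMem_empty _)
  · intro a ha; exact absurd ha.1 (ZFSet.notMem_empty _)

theorem cond_sub {p q : ZFSet.{0}} (h : p ∈ Cond) (hq : q ⊆ p) : q ∈ Cond := by
  rw [mem_cond] at h ⊢
  exact ⟨HF_sub h.1 hq, fun t ht => h.2.1 t (hq ht), fun a ha => h.2.2 a ⟨hq ha.1, hq ha.2⟩⟩

theorem union_cond {p q : ZFSet.{0}} (hp : p ∈ Cond) (hq : q ∈ Cond)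
    (h : ∀ a, ¬ (pair a ∅ ∈ p ∧ pair a one ∈ q) ∧ ¬ (pair a one ∈ p ∧ pair a ∅ ∈ q)) :
    p ∪ q ∈ Cond := by
  rw [mem_cond] at hp hq ⊢
  refine ⟨HF_union hp.1 hq.1, ?_, ?_⟩
  · intro t ht
    rw [mem_union] at ht
    rcases ht with ht | ht
    · exact hp.2.1 t ht
    · exact hq.2.1 t ht
  · rintro a ⟨h1, h2⟩
    rw [mem_union] at h1 h2
    rcases h1 with h1 | h1 <;> rcases h2 with h2 | h2
    · exact hp.2.2 a ⟨h1, h2⟩
    · exact (h a).1 ⟨h1, h2⟩
    · exact (h a).2 ⟨h2, h1⟩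
    · exact hq.2.2 a ⟨h1, h2⟩

theorem union_fits {p q : ZFSet.{0}} {c : Set ZFSet.{0}} (hp : p ∈ Cond) (hq : q ∈ Cond)
    (h : Fits p c) (h' : Fits q c) : p ∪ q ∈ Cond ∧ Fits (p ∪ q) c := by
  refine ⟨union_cond hp hq fun a => ⟨?_, ?_⟩, ?_⟩
  · rintro ⟨h1, h2⟩
    exact (h a).2 h1 ((h' a).1 h2)
  · rintro ⟨h1, h2⟩
    exact (h' a).2 h2 ((h a).1 h1)
  · intro a
    constructor
    · intro ha
      rw [mem_union] at ha
      rcases ha with ha | ha
      · exact (h a).1 ha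
      · exact (h' a).1 ha
    · intro ha
      rw [mem_union] at ha
      rcases ha with ha | ha
      · exact (h a).2 ha
      · exact (h' a).2 ha

theorem fits_sub {p q : ZFSet.{0}} {c : Set ZFSet.{0}} (h : Fits p c) (hq : q ⊆ p) : Fits q c :=
  fun a => ⟨fun ha => (h a).1 (hq ha), fun ha => (h a).2 (hq ha)⟩

theorem fits_empty (c : Set ZFSet.{0}) : Fits ∅ c :=
  fun a => ⟨fun ha => absurd ha (ZFSet.notMem_empty _), fun ha => absurd ha (ZFSet.notMem_empty _)⟩

theorem idx_HF {a : ZFSet.{0}} (ha : a ∈ Idx) : a ∈ HF := by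
  rw [Idx, mem_prod] at ha
  obtain ⟨x, hx, y, hy, rfl⟩ := ha
  exact HF_pair (omega_sub_HF hx) (omega_sub_HF hy)

theorem one_HF : one ∈ HF := by
  have : one = insert ∅ ∅ := by
    rw [one]
    ext z
    simp
  rw [this]
  exact HF_insert HF_empty HF_empty

theorem lit1_cond {a : ZFSet.{0}} (ha : a ∈ Idx) : ({pair a one} : ZFSet) ∈ Cond := by
  rw [mem_cond]
  refine ⟨?_, ?_, ?_⟩
  · have : ({pair a one} : ZFSet) = insert (pair a one) ∅ := by
      ext z
      simp
    rw [this]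
    exact HF_insert (HF_pair (idx_HF ha) one_HF) HF_empty
  · intro t ht
    rw [ZFSet.mem_singleton] at ht
    exact ⟨a, ha, Or.inl ht⟩
  · rintro b ⟨h1, -⟩
    rw [ZFSet.mem_singleton] at h1
    exact one_ne_empty (pair_inj.1 h1).2.symm

theorem lit0_cond {a : ZFSet.{0}} (ha : a ∈ Idx) : ({pair a ∅} : ZFSet) ∈ Cond := by
  rw [mem_cond]
  refine ⟨?_, ?_, ?_⟩
  · have : ({pair a ∅} : ZFSet) = insert (pair a ∅) ∅ := by
      ext z
      simp
    rw [this]
    exact HF_insert (HF_pair (idx_HF ha) HF_empty) HF_empty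
  · intro t ht
    rw [ZFSet.mem_singleton] at ht
    exact ⟨a, ha, Or.inr ht⟩
  · rintro b ⟨-, h1⟩
    rw [ZFSet.mem_singleton] at h1
    exact one_ne_empty (pair_inj.1 h1).2

/-- a condition which fits all finite requirements of `c` exists: every index can be decided -/
theorem exists_decide (c : Set ZFSet.{0}) {p a : ZFSet.{0}} (hp : p ∈ Cond) (h : Fits p c)
    (ha : a ∈ Idx) : ∃ q ∈ Cond, p ⊆ q ∧ Fits q c ∧ (pair a one ∈ q ∨ pair a ∅ ∈ q) := by
  by_cases hc : a ∈ c
  · have hf : Fits ({pair a one} : ZFSet) c := by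
      intro b
      constructor
      · intro hb
        rw [ZFSet.mem_singleton] at hb
        rw [(pair_inj.1 hb).1]; exact hc
      · intro hb
        rw [ZFSet.mem_singleton] at hb
        exact absurd (pair_inj.1 hb).2.symm one_ne_empty
    obtain ⟨h1, h2⟩ := union_fits hp (lit1_cond ha) h hf
    exact ⟨_, h1, fun t ht => mem_union.2 (Or.inl ht), h2,
      Or.inl (mem_union.2 (Or.inr (ZFSet.mem_singleton.2 rfl)))⟩
  · have hf : Fits ({pair a ∅} : ZFSet) c := by
      intro b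
      constructor
      · intro hb
        rw [ZFSet.mem_singleton] at hb
        exact absurd (pair_inj.1 hb).2 one_ne_empty
      · intro hb
        rw [ZFSet.mem_singleton] at hb
        rw [(pair_inj.1 hb).1]; exact hc
    obtain ⟨h1, h2⟩ := union_fits hp (lit0_cond ha) h hf
    exact ⟨_, h1, fun t ht => mem_union.2 (Or.inl ht), h2,
      Or.inr (mem_union.2 (Or.inr (ZFSet.mem_singleton.2 rfl)))⟩

/-- deciding an index inside a condition -/
theorem exists_decide' {p a : ZFSet.{0}} (hp : p ∈ Cond) (ha : a ∈ Idx) :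
    ∃ q ∈ Cond, p ⊆ q ∧ (pair a one ∈ q ∨ pair a ∅ ∈ q) := by
  have hf : Fits p {b | pair b one ∈ p} := by
    intro b
    exact ⟨fun h => h, fun h h' => cond_con hp ⟨h, h'⟩⟩
  obtain ⟨q, h1, h2, -, h3⟩ := exists_decide _ hp hf ha
  exact ⟨q, h1, h2, h3⟩

open Classical in
theorem flip_one (z a : ZFSet.{0}) : flip z (pair a one) = if a ∈ z then pair a ∅ else pair a one := by
  simp only [flip, fst_pair, snd_pair, one_ne_empty, if_false]

open Classical in
theorem flip_empty (z a : ZFSet.{0}) : flip z (pair a ∅) = if a ∈ z then pair a one else pair a ∅ := by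
  simp only [flip, fst_pair, snd_pair, if_true]

theorem mem_actC {z p a : ZFSet.{0}} (hp : p ∈ Cond) :
    (pair a one ∈ actC z p ↔ (a ∈ z ∧ pair a ∅ ∈ p) ∨ (a ∉ z ∧ pair a one ∈ p)) ∧
    (pair a ∅ ∈ actC z p ↔ (a ∈ z ∧ pair a one ∈ p) ∨ (a ∉ z ∧ pair a ∅ ∈ p)) := by
  have key : ∀ x, pair a x ∈ actC z p ↔
      (a ∈ z ∧ ((x = one ∧ pair a ∅ ∈ p) ∨ (x = ∅ ∧ pair a one ∈ p))) ∨
      (a ∉ z ∧ ((x = one ∧ pair a one ∈ p) ∨ (x = ∅ ∧ pair a ∅ ∈ p))) := by
    intro x
    rw [actC, mem_img]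
    constructor
    · rintro ⟨t, ht, e⟩
      obtain ⟨b, hb, e'⟩ := cond_lit hp ht
      rcases e' with rfl | rfl
      · rw [flip_one] at e
        by_cases hz : b ∈ z
        · rw [if_pos hz] at e
          obtain ⟨rfl, rfl⟩ := pair_inj.1 e
          exact Or.inl ⟨hz, Or.inr ⟨rfl, ht⟩⟩
        · rw [if_neg hz] at e
          obtain ⟨rfl, rfl⟩ := pair_inj.1 e
          exact Or.inr ⟨hz, Or.inl ⟨rfl, ht⟩⟩
      · rw [flip_empty] at e
        by_cases hz : b ∈ z
        · rw [if_pos hz] at e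
          obtain ⟨rfl, rfl⟩ := pair_inj.1 e
          exact Or.inl ⟨hz, Or.inl ⟨rfl, ht⟩⟩
        · rw [if_neg hz] at e
          obtain ⟨rfl, rfl⟩ := pair_inj.1 e
          exact Or.inr ⟨hz, Or.inr ⟨rfl, ht⟩⟩
    · rintro (⟨hz, ⟨rfl, h⟩ | ⟨rfl, h⟩⟩ | ⟨hz, ⟨rfl, h⟩ | ⟨rfl, h⟩⟩)
      · exact ⟨_, h, by rw [flip_empty, if_pos hz]⟩
      · exact ⟨_, h, by rw [flip_one, if_pos hz]⟩
      · exact ⟨_, h, by rw [flip_one, if_neg hz]⟩
      · exact ⟨_, h, by rw [flip_empty, if_neg hz]⟩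
  constructor
  · rw [key]
    simp [one_ne_empty]
  · rw [key]
    simp [one_ne_empty.symm]

theorem actC_lit {z p t : ZFSet.{0}} (hp : p ∈ Cond) (ht : t ∈ actC z p) :
    ∃ a ∈ Idx, t = pair a one ∨ t = pair a ∅ := by
  rw [actC, mem_img] at ht
  obtain ⟨s, hs, rfl⟩ := ht
  obtain ⟨b, hb, e⟩ := cond_lit hp hs
  refine ⟨b, hb, ?_⟩
  rcases e with rfl | rfl
  · rw [flip_one]; split_ifs
    · right; rfl
    · left; rfl
  · rw [flip_empty]; split_ifs
    · left; rfl
    · right; rfl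

theorem actC_cond {z p : ZFSet.{0}} (hp : p ∈ Cond) : actC z p ∈ Cond := by
  rw [mem_cond]
  refine ⟨?_, fun t ht => actC_lit hp ht, ?_⟩
  · refine HF_img (cond_HF hp) ?_
    intro t ht
    obtain ⟨b, hb, e⟩ := cond_lit hp ht
    rcases e with rfl | rfl
    · rw [flip_one]; split_ifs
      · exact HF_pair (idx_HF hb) HF_empty
      · exact HF_pair (idx_HF hb) one_HF
    · rw [flip_empty]; split_ifs
      · exact HF_pair (idx_HF hb) one_HF
      · exact HF_pair (idx_HF hb) HF_empty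
  · intro a
    rw [(mem_actC hp).1, (mem_actC hp).2]
    have := cond_con (a := a) hp
    tauto

theorem lit_ext {p q : ZFSet.{0}} (hp : ∀ t ∈ p, ∃ a ∈ Idx, t = pair a one ∨ t = pair a ∅)
    (hq : ∀ t ∈ q, ∃ a ∈ Idx, t = pair a one ∨ t = pair a ∅)
    (h1 : ∀ a, pair a one ∈ p ↔ pair a one ∈ q) (h2 : ∀ a, pair a ∅ ∈ p ↔ pair a ∅ ∈ q) :
    p = q := by
  ext t
  constructor
  · intro ht
    obtain ⟨a, -, rfl | rfl⟩ := hp t ht
    · exact (h1 a).1 ht
    · exact (h2 a).1 ht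
  · intro ht
    obtain ⟨a, -, rfl | rfl⟩ := hq t ht
    · exact (h1 a).2 ht
    · exact (h2 a).2 ht

theorem actC_actC {z p : ZFSet.{0}} (hp : p ∈ Cond) : actC z (actC z p) = p := by
  refine lit_ext (fun t ht => actC_lit (actC_cond hp) ht) (fun t ht => cond_lit hp ht) ?_ ?_
  · intro a
    rw [(mem_actC (actC_cond hp)).1, (mem_actC hp).1, (mem_actC hp).2]
    tauto
  · intro a
    rw [(mem_actC (actC_cond hp)).2, (mem_actC hp).1, (mem_actC hp).2]
    tauto

theorem actC_comm {z z' p : ZFSet.{0}} (hp : p ∈ Cond) :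
    actC z (actC z' p) = actC z' (actC z p) := by
  refine lit_ext (fun t ht => actC_lit (actC_cond hp) ht)
    (fun t ht => actC_lit (actC_cond hp) ht) ?_ ?_
  · intro a
    rw [(mem_actC (actC_cond hp)).1, (mem_actC (actC_cond hp)).1, (mem_actC hp).1,
      (mem_actC hp).2, (mem_actC hp).1, (mem_actC hp).2]
    tauto
  · intro a
    rw [(mem_actC (actC_cond hp)).2, (mem_actC (actC_cond hp)).2, (mem_actC hp).1,
      (mem_actC hp).2, (mem_actC hp).1, (mem_actC hp).2]
    tauto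

theorem actC_mono {z p q : ZFSet.{0}} (h : p ⊆ q) : actC z p ⊆ actC z q := by
  intro t ht
  rw [actC, mem_img] at ht ⊢
  obtain ⟨s, hs, e⟩ := ht
  exact ⟨s, h hs, e⟩

theorem actC_empty (z : ZFSet.{0}) : actC z ∅ = ∅ := by
  ext t
  rw [actC, mem_img]
  constructor
  · rintro ⟨s, hs, -⟩; exact absurd hs (ZFSet.notMem_empty _)
  · intro h; exact absurd h (ZFSet.notMem_empty _)

/-- `actC z` fixes conditions without literals in `z` -/
theorem actC_fix {z p : ZFSet.{0}} (hp : p ∈ Cond)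
    (h : ∀ a ∈ z, pair a one ∉ p ∧ pair a ∅ ∉ p) : actC z p = p := by
  refine lit_ext (fun t ht => actC_lit hp ht) (fun t ht => cond_lit hp ht) ?_ ?_
  · intro a
    rw [(mem_actC hp).1]
    have := h a
    tauto
  · intro a
    rw [(mem_actC hp).2]
    have := h a
    tauto

theorem fits_sd {z p : ZFSet.{0}} {c : Set ZFSet.{0}} (hp : p ∈ Cond) :
    Fits (actC z p) (sd c z) ↔ Fits p c := by
  unfold Fits
  refine forall_congr' fun a => ?_
  rw [(mem_actC hp).1, (mem_actC hp).2]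
  simp only [sd, Set.mem_setOf_eq]
  tauto

theorem sd_sd (c : Set ZFSet.{0}) (z : ZFSet.{0}) : sd (sd c z) z = c := by
  ext a
  simp only [sd, Set.mem_setOf_eq]
  tauto

variable {f g : Set ZFSet.{0} → (ℕ → ZFSet.{0}) → ZFSet.{0}}

theorem UF.Idx : UF (fun _ _ => H83.AC.Idx) :=
  UF.prod UF.omega UF.omega

theorem UF.Cond : UF (fun _ _ => H83.AC.Cond) := by
  refine UF.sep (R := fun _ p _ => p ⊆ ZFSet.prod H83.AC.Idx {∅, H83.AC.one} ∧
    ∀ a ∈ H83.AC.Idx, ¬ (ZFSet.pair a ∅ ∈ p ∧ ZFSet.pair a H83.AC.one ∈ p)) UF.HF ?_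
  (repeat' first
      | apply UF.Idx | apply UF.one | assumption | exact UF.var _ | exact UD.true | exact UD.false
      | apply UF.empty | apply UF.fgr | apply UF.uni | apply UF.img | apply UF.pow | apply UF.sep
      | apply UF.pair | apply UF.upair | apply UF.singleton | apply UF.insert | apply UF.union
      | apply UF.inter | apply UF.diff | apply UF.prod | apply UF.sUnion | apply UF.app
      | apply UF.dom | apply UF.rng | apply UF.fst | apply UF.snd | apply UF.ite | apply UD.and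
      | apply UD.or | apply UR.ball | apply UR.bex | apply UD.allN | apply UD.exN | apply UD.iff
      | apply UR.mem | apply UR.eq | apply UR.sub | apply UD.not | apply UD.imp | exact UD.prop _)

theorem UF.Col (hf : UF f) : UF (fun N v => H83.AC.Col (f N v)) :=
  UF.prod hf UF.omega

theorem UF.CondC (hf : UF f) : UF (fun N v => H83.AC.CondC (f N v)) := by
  refine UF.sep (R := fun N p v => p ⊆ ZFSet.prod (H83.AC.Col (f N v)) {∅, H83.AC.one}) UF.Cond ?_
  (repeat' first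
      | apply UF.Col | apply UF.one | apply hf.shift | apply hf.shift.shift | assumption
      | exact UF.var _ | exact UD.true | exact UD.false | apply UF.empty | apply UF.fgr
      | apply UF.uni | apply UF.img | apply UF.pow | apply UF.sep | apply UF.pair | apply UF.upair
      | apply UF.singleton | apply UF.insert | apply UF.union | apply UF.inter | apply UF.diff
      | apply UF.prod | apply UF.sUnion | apply UF.app | apply UF.dom | apply UF.rng
      | apply UF.fst | apply UF.snd | apply UF.ite | apply UD.and | apply UD.or | apply UR.ball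
      | apply UR.bex | apply UD.allN | apply UD.exN | apply UD.iff | apply UR.mem | apply UR.eq
      | apply UR.sub | apply UD.not | apply UD.imp | exact UD.prop _)

theorem UF.flip (hf : UF f) (hg : UF g) : UF (fun N v => H83.AC.flip (f N v) (g N v)) := by
  refine UF.ite (R := fun N v => H83.AC.fst (g N v) ∈ f N v) (UR.mem hg.fst hf) ?_ hg
  refine UF.pair hg.fst ?_
  exact UF.ite (R := fun N v => H83.AC.snd (g N v) = ∅) (UR.eq hg.snd UF.empty) UF.one UF.empty

theorem UF.actC (hf : UF f) (hg : UF g) : UF (fun N v => H83.AC.actC (f N v) (g N v)) :=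
  UF.img (F := fun N t v => H83.AC.flip (f N v) t) hg (UF.flip hf.shift (UF.var 0))

instance Inst.Idx : UF (fun _ _ => H83.AC.Idx) := UF.Idx
instance Inst.Cond : UF (fun _ _ => H83.AC.Cond) := UF.Cond
instance Inst.Col [hf : UF f] : UF (fun N v => H83.AC.Col (f N v)) := UF.Col hf
instance Inst.CondC [hf : UF f] : UF (fun N v => H83.AC.CondC (f N v)) := UF.CondC hf
instance Inst.flip [hf : UF f] [hg : UF g] :
    UF (fun N v => H83.AC.flip (f N v) (g N v)) := UF.flip hf hg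
instance Inst.actC [hf : UF f] [hg : UF g] :
    UF (fun N v => H83.AC.actC (f N v) (g N v)) := UF.actC hf hg

end H83.AC
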