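import Pool.Agent.H83.AC.SxD

/-!
# Module LAttD: the formula: every set is an element of a value of an attempt

`D0.latt` from the definition of `LAtt` with the relations of module SxD; the functions `fst` and
`snd` are eliminated by quantifiers over the class (`fst t` and `snd t` belong to every transitive
class containing `t`).
-/

namespace H83.AC

open ZFSet

theorem empty_mem_of_isTr {K : Set ZFSet.{0}} (hK : IsTr K) {t : ZFSet.{0}} (ht : t ∈ K) :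
    (∅ : ZFSet.{0}) ∈ K := by
  obtain ⟨m, hm, hmin⟩ := ZFSet.mem_wf.has_min K ⟨t, ht⟩
  have : m = ∅ := by
    rw [ZFSet.eq_empty]
    intro y hy
    exact hmin y (hK m hm y hy) hy
  rwa [this] at hm

theorem fst_mem_of_isTr {K : Set ZFSet.{0}} (hK : IsTr K) {t : ZFSet.{0}} (ht : t ∈ K) :
    H83.AC.fst t ∈ K := by
  by_cases h : ∃ x y, t = ZFSet.pair x y
  · obtain ⟨x, y, rfl⟩ := h
    rw [fst_pair]
    have h1 : ({x} : ZFSet) ∈ K := hK _ ht _ (by rw [ZFSet.pair]; simp)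
    exact hK _ h1 _ (by simp)
  · have : H83.AC.fst t = ∅ := by
      rw [ZFSet.eq_empty]
      intro y hy
      simp only [H83.AC.fst, mem_sUnion, mem_sep] at hy
      obtain ⟨z, ⟨-, y', -, h'⟩, -⟩ := hy
      exact h ⟨z, y', h'⟩
    rw [this]
    exact empty_mem_of_isTr hK ht

theorem snd_mem_of_isTr {K : Set ZFSet.{0}} (hK : IsTr K) {t : ZFSet.{0}} (ht : t ∈ K) :
    H83.AC.snd t ∈ K := by
  by_cases h : ∃ x y, t = ZFSet.pair x y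
  · obtain ⟨x, y, rfl⟩ := h
    rw [snd_pair]
    have h1 : ({x, y} : ZFSet) ∈ K := hK _ ht _ (by rw [ZFSet.pair]; simp)
    exact hK _ h1 _ (by simp)
  · have : H83.AC.snd t = ∅ := by
      rw [ZFSet.eq_empty]
      intro y hy
      simp only [H83.AC.snd, mem_sUnion, mem_sep] at hy
      obtain ⟨z, ⟨-, y', -, h'⟩, -⟩ := hy
      exact h ⟨y', z, h'⟩
    rw [this]
    exact empty_mem_of_isTr hK ht

theorem D0.sub1 {R : ZFSet.{0} → (ℕ → ZFSet.{0}) → Prop} (h : D0 (fun v => R (v 0) (sh v)))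
    (i : ℕ) : D0 (fun v => R (H83.AC.fst (v i)) v) := by
  have h1 : D0 (fun v => v 0 = H83.AC.fst (v (i + 1))) :=
    D0.fst.ren (fun n => if n = 0 then 0 else i + 1)
  have : UD IsTr (fun N v => ∃ x ∈ N, x = H83.AC.fst (v i) ∧ R x v) :=
    UD.exN (R := fun N x v => x = H83.AC.fst (v i) ∧ R x v) (h1.and h)
  refine this.congr fun N hN v hv => ?_
  constructor
  · intro H; exact ⟨_, fst_mem_of_isTr hN (hv i), rfl, H⟩
  · rintro ⟨x, -, rfl, H⟩; exact H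

theorem D0.sub2 {R : ZFSet.{0} → (ℕ → ZFSet.{0}) → Prop} (h : D0 (fun v => R (v 0) (sh v)))
    (i : ℕ) : D0 (fun v => R (H83.AC.snd (v i)) v) := by
  have h1 : D0 (fun v => v 0 = H83.AC.snd (v (i + 1))) :=
    D0.snd.ren (fun n => if n = 0 then 0 else i + 1)
  have : UD IsTr (fun N v => ∃ x ∈ N, x = H83.AC.snd (v i) ∧ R x v) :=
    UD.exN (R := fun N x v => x = H83.AC.snd (v i) ∧ R x v) (h1.and h)
  refine this.congr fun N hN v hv => ?_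
  constructor
  · intro H; exact ⟨_, snd_mem_of_isTr hN (hv i), rfl, H⟩
  · rintro ⟨x, -, rfl, H⟩; exact H

theorem D0.latt : D0 (fun v => LAtt (v 0)) := by
  -- every element is a pair
  have a1 : D0 (fun v => v 2 = ZFSet.pair (v 1) (v 0)) := D0.pair.ren (fun n => 2 - n)
  have a2 : D0 (fun v => v 1 = ZFSet.pair (v 0) (H83.AC.snd (v 1))) :=
    D0.sub2 (R := fun y v => v 1 = ZFSet.pair (v 0) y) a1 1
  have a3 : D0 (fun v => v 0 = ZFSet.pair (H83.AC.fst (v 0)) (H83.AC.snd (v 0))) :=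
    D0.sub1 (R := fun y v => v 0 = ZFSet.pair y (H83.AC.snd (v 0))) a2 0
  have A : UD IsTr (fun _ v => ∀ t ∈ v 0, t = ZFSet.pair (H83.AC.fst t) (H83.AC.snd t)) :=
    UD.ball' (R := fun _ t v => t = ZFSet.pair (H83.AC.fst t) (H83.AC.snd t)) 0 a3
  -- the function property
  have b1 : D0 (fun v => v 1 = v 0) := UD.eq 1 0
  have b2 : D0 (fun v => v 0 = H83.AC.fst (v 1)) :=
    D0.sub1 (R := fun y v => v 0 = y) b1 1
  have b3 : D0 (fun v => H83.AC.fst (v 1) = H83.AC.fst (v 0)) :=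
    D0.sub1 (R := fun y v => y = H83.AC.fst (v 0)) b2 1
  have b4 : D0 (fun v => H83.AC.fst (v 1) = H83.AC.fst (v 0) → v 1 = v 0) := b3.imp (UD.eq 1 0)
  have b5 : UD IsTr (fun _ v => ∀ s ∈ v 1, H83.AC.fst (v 0) = H83.AC.fst s → v 0 = s) :=
    UD.ball' (R := fun _ s v => H83.AC.fst (v 0) = H83.AC.fst s → v 0 = s) 1 b4
  have B : UD IsTr (fun _ v => ∀ t ∈ v 0, ∀ s ∈ v 0, H83.AC.fst t = H83.AC.fst s → t = s) :=
    UD.ball' (R := fun _ t v => ∀ s ∈ v 0, H83.AC.fst t = H83.AC.fst s → t = s) 0 b5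
  -- the domain is transitive
  have c1 : D0 (fun v => H83.AC.fst (v 0) = v 1) :=
    D0.sub1 (R := fun y v => y = v 1) (UD.eq 0 2) 0
  have c2 : UD IsTr (fun _ v => ∃ s ∈ v 3, H83.AC.fst s = v 0) :=
    UD.bex' (R := fun _ s v => H83.AC.fst s = v 0) 3 c1
  have c3 : UD IsTr (fun _ v => ∀ y ∈ v 0, ∃ s ∈ v 2, H83.AC.fst s = y) :=
    UD.ball' (R := fun _ y v => ∃ s ∈ v 2, H83.AC.fst s = y) 0 c2
  have c4 : UD IsTr (fun _ v => ∀ y ∈ H83.AC.fst (v 0), ∃ s ∈ v 1, H83.AC.fst s = y) :=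
    D0.sub1 (R := fun x v => ∀ y ∈ x, ∃ s ∈ v 1, H83.AC.fst s = y) c3 0
  -- the membership `fst s ∈ fst t`
  have m1 : D0 (fun v => H83.AC.fst (v 1) ∈ v 0) :=
    D0.sub1 (R := fun y v => y ∈ v 0) (UD.mem 0 1) 1
  have m2 : D0 (fun v => H83.AC.fst (v 0) ∈ H83.AC.fst (v 1)) :=
    D0.sub1 (R := fun y v => H83.AC.fst (v 0) ∈ y) m1 1
  -- values are covered
  have d1 : D0 (fun v => v 1 ∈ H83.AC.Sx (H83.AC.snd (v 0))) :=
    D0.sub2 (R := fun y v => v 1 ∈ H83.AC.Sx y) (D0.memSx.ren (fun n => if n = 0 then 2 else 0)) 0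
  have d2 : D0 (fun v => H83.AC.fst (v 0) ∈ H83.AC.fst (v 3) ∧
      v 1 ∈ H83.AC.Sx (H83.AC.snd (v 0))) :=
    (m2.ren (fun n => if n = 0 then 0 else 3)).and d1
  have d3 : UD IsTr (fun _ v => ∃ s ∈ v 3, H83.AC.fst s ∈ H83.AC.fst (v 2) ∧
      v 0 ∈ H83.AC.Sx (H83.AC.snd s)) :=
    UD.bex' (R := fun _ s v => H83.AC.fst s ∈ H83.AC.fst (v 2) ∧
      v 0 ∈ H83.AC.Sx (H83.AC.snd s)) 3 d2
  have d4 : UD IsTr (fun _ v => ∀ z ∈ v 0, ∃ s ∈ v 2, H83.AC.fst s ∈ H83.AC.fst (v 1) ∧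
      z ∈ H83.AC.Sx (H83.AC.snd s)) :=
    UD.ball' (R := fun _ z v => ∃ s ∈ v 2, H83.AC.fst s ∈ H83.AC.fst (v 1) ∧
      z ∈ H83.AC.Sx (H83.AC.snd s)) 0 d3
  have d5 : UD IsTr (fun _ v => ∀ z ∈ H83.AC.snd (v 0), ∃ s ∈ v 1,
      H83.AC.fst s ∈ H83.AC.fst (v 0) ∧ z ∈ H83.AC.Sx (H83.AC.snd s)) :=
    D0.sub2 (R := fun w v => ∀ z ∈ w, ∃ s ∈ v 1,
      H83.AC.fst s ∈ H83.AC.fst (v 0) ∧ z ∈ H83.AC.Sx (H83.AC.snd s)) d4 0
  -- values contain the steps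
  have e1 : D0 (fun v => H83.AC.Sx (H83.AC.snd (v 1)) ⊆ v 0) :=
    D0.sub2 (R := fun y v => H83.AC.Sx y ⊆ v 0) (D0.SxSub.ren (fun n => if n = 0 then 0 else 1)) 1
  have e2 : D0 (fun v => H83.AC.Sx (H83.AC.snd (v 0)) ⊆ H83.AC.snd (v 1)) :=
    D0.sub2 (R := fun y v => H83.AC.Sx (H83.AC.snd (v 0)) ⊆ y) e1 1
  have e3 : UD IsTr (fun _ v => ∀ s ∈ v 1, H83.AC.fst s ∈ H83.AC.fst (v 0) →
      H83.AC.Sx (H83.AC.snd s) ⊆ H83.AC.snd (v 0)) :=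
    UD.ball' (R := fun _ s v => H83.AC.fst s ∈ H83.AC.fst (v 0) →
      H83.AC.Sx (H83.AC.snd s) ⊆ H83.AC.snd (v 0)) 1 (m2.imp e2)
  have E : UD IsTr (fun _ v => ∀ t ∈ v 0, (∀ y ∈ H83.AC.fst t, ∃ s ∈ v 0, H83.AC.fst s = y) ∧
      (∀ z ∈ H83.AC.snd t, ∃ s ∈ v 0, H83.AC.fst s ∈ H83.AC.fst t ∧
        z ∈ H83.AC.Sx (H83.AC.snd s)) ∧
      (∀ s ∈ v 0, H83.AC.fst s ∈ H83.AC.fst t → H83.AC.Sx (H83.AC.snd s) ⊆ H83.AC.snd t)) :=
    UD.ball' (R := fun _ t v => (∀ y ∈ H83.AC.fst t, ∃ s ∈ v 0, H83.AC.fst s = y) ∧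
      (∀ z ∈ H83.AC.snd t, ∃ s ∈ v 0, H83.AC.fst s ∈ H83.AC.fst t ∧
        z ∈ H83.AC.Sx (H83.AC.snd s)) ∧
      (∀ s ∈ v 0, H83.AC.fst s ∈ H83.AC.fst t → H83.AC.Sx (H83.AC.snd s) ⊆ H83.AC.snd t)) 0
      (c4.and (d5.and e3))
  exact A.and (B.and E)

theorem psi_fml : ∃ φ : Fml, φ.bd 0 ∧ ∀ K : Set ZFSet.{0}, IsTr K → ∀ v : ℕ → ZFSet.{0},
    (∀ i, v i ∈ K) → (SatIn K φ v ↔ PsiK K) := by
  have a1 : D0 (fun v => v 2 ∈ H83.AC.snd (v 0)) :=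
    D0.sub2 (R := fun y v => v 2 ∈ y) (UD.mem 3 0) 0
  have a2 : UD IsTr (fun _ v => ∃ t ∈ v 0, v 1 ∈ H83.AC.snd t) :=
    UD.bex' (R := fun _ t v => v 1 ∈ H83.AC.snd t) 0 a1
  have a3 : UD IsTr (fun N v => ∃ f ∈ N, LAtt f ∧ ∃ t ∈ f, v 0 ∈ H83.AC.snd t) :=
    UD.exN (R := fun _ f v => LAtt f ∧ ∃ t ∈ f, v 0 ∈ H83.AC.snd t) (D0.latt.and a2)
  have a4 : UD IsTr (fun N _ => PsiK N) :=
    UD.allN (R := fun N z _ => ∃ f ∈ N, LAtt f ∧ ∃ t ∈ f, z ∈ H83.AC.snd t) a3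
  obtain ⟨φ, hφ⟩ := a4
  -- close the formula
  have hcl : ∀ n (ψ : Fml), ψ.bd n → (∀ N, IsTr N → ∀ v : ℕ → N, (PsiK N ↔ Sat (memN N) ψ v)) →
      ∃ χ : Fml, χ.bd 0 ∧ ∀ N, IsTr N → ∀ v : ℕ → N, (PsiK N ↔ Sat (memN N) χ v) := by
    intro n
    induction n with
    | zero => intro ψ h1 h2; exact ⟨ψ, h1, h2⟩
    | succ n ih =>
      intro ψ h1 h2
      refine ih (.all ψ) h1 fun N hN v => ?_
      constructor
      · intro H x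
        exact (h2 N hN _).1 H
      · intro H
        exact (h2 N hN _).2 (H (v 0))
  obtain ⟨n, hn⟩ := φ.exists_bd
  obtain ⟨χ, hχ, hχ'⟩ := hcl n φ hn hφ
  refine ⟨χ, hχ, fun K hK v hv => ?_⟩
  have := sat_iff K χ (fun n => ⟨v n, hv n⟩)
  exact this.symm.trans (hχ' K hK _).symm

end H83.AC
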