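import Pool.Agent.H83.AC.SatSet

/-!
# Module LS: countable elementary subclasses

`K` a nonempty class, `S ⊆ K` countable. Choose for every `φ` and every list `l` of elements of `K`
an element `sk φ l ∈ K` such that, with `v = l[0], l[1], .., l[n-1], d, d, ..` (`d` a fixed element
of `S ∪ {sk ..}`, e.g. a fixed `d ∈ K`), if `∃ x ∈ K, ¬ SatIn K φ (cons x v)` then
`¬ SatIn K φ (cons (sk φ l) v)`. Close `S ∪ {d}` under `sk` (`X₀ = S ∪ {d}`,
`X_{k+1} = X_k ∪ {sk φ l : φ, l with entries in X_k}`, `X = ⋃ X_k`; `Fml` and lists over a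
countable set are countable: give `Fml` an injection to a countable type, or
show `Countable Fml` by an encoding into `List ℕ` or `ℕ` with `Nat.pair`).
Elementarity by induction on `φ` for all `v` with values in `X` (`satIn_congr`: only finitely many
`v i` matter).
-/

namespace H83.AC

open ZFSet

/-- a code for formulas -/
private def LS_enc : Fml → ℕ
  | .bot => Nat.pair 0 0
  | .eq i j => Nat.pair 1 (Nat.pair i j)
  | .mem i j => Nat.pair 2 (Nat.pair i j)
  | .imp φ ψ => Nat.pair 3 (Nat.pair (LS_enc φ) (LS_enc ψ))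
  | .all φ => Nat.pair 4 (LS_enc φ)

private theorem LS_enc_inj : ∀ φ ψ : Fml, LS_enc φ = LS_enc ψ → φ = ψ := by
  intro φ
  induction φ with
  | bot =>
    intro ψ h
    cases ψ <;> simp [LS_enc, Nat.pair_eq_pair] at h ⊢
  | eq i j =>
    intro ψ h
    cases ψ <;> simp [LS_enc, Nat.pair_eq_pair] at h ⊢
    exact h
  | mem i j =>
    intro ψ h
    cases ψ <;> simp [LS_enc, Nat.pair_eq_pair] at h ⊢
    exact h
  | imp a b ha hb =>
    intro ψ h
    cases ψ <;> simp [LS_enc, Nat.pair_eq_pair] at h ⊢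
    exact ⟨ha _ h.1, hb _ h.2⟩
  | all a ha =>
    intro ψ h
    cases ψ <;> simp [LS_enc, Nat.pair_eq_pair] at h ⊢
    exact ha _ h

instance : Countable Fml :=
  Function.Injective.countable (f := LS_enc) (fun φ ψ h => LS_enc_inj φ ψ h)

/-- the stream `l[0], l[1], .., d, d, ..` -/
private noncomputable def LS_st (d : ZFSet.{0}) (l : List ZFSet.{0}) : ℕ → ZFSet.{0} :=
  fun i => l.getD i d

open Classical in
/-- Skolem functions -/
private noncomputable def LS_sk (K : Set ZFSet.{0}) (d : ZFSet.{0}) (φ : Fml)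
    (l : List ZFSet.{0}) : ZFSet.{0} :=
  if h : ∃ x, x ∈ K ∧ ¬ SatIn K φ (cons x (LS_st d l)) then h.choose else d

private theorem LS_sk_mem {K : Set ZFSet.{0}} {d : ZFSet.{0}} (hd : d ∈ K) (φ : Fml)
    (l : List ZFSet.{0}) : LS_sk K d φ l ∈ K := by
  unfold LS_sk
  split_ifs with h
  · exact h.choose_spec.1
  · exact hd

private theorem LS_sk_spec {K : Set ZFSet.{0}} {d : ZFSet.{0}} (φ : Fml)
    (l : List ZFSet.{0}) (h : ∃ x, x ∈ K ∧ ¬ SatIn K φ (cons x (LS_st d l))) :
    ¬ SatIn K φ (cons (LS_sk K d φ l) (LS_st d l)) := by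
  have e : LS_sk K d φ l = h.choose := by
    unfold LS_sk
    rw [dif_pos h]
  rw [e]
  exact h.choose_spec.2

/-- the stages of the Skolem hull -/
private noncomputable def LS_X (K S : Set ZFSet.{0}) (d : ZFSet.{0}) : ℕ → Set ZFSet.{0}
  | 0 => insert d S
  | k + 1 => LS_X K S d k ∪ Set.range (fun p : Fml × List (LS_X K S d k) =>
      LS_sk K d p.1 (p.2.map Subtype.val))

private theorem LS_X_countable (K S : Set ZFSet.{0}) (d : ZFSet.{0}) (hS : S.Countable) (k : ℕ) :
    (LS_X K S d k).Countable := by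
  induction k with
  | zero => exact hS.insert d
  | succ k ih =>
    have : Countable (LS_X K S d k) := ih.to_subtype
    exact ih.union (Set.countable_range _)

private theorem LS_X_sub (K S : Set ZFSet.{0}) (d : ZFSet.{0}) (hd : d ∈ K) (hS : S ⊆ K) (k : ℕ) :
    LS_X K S d k ⊆ K := by
  induction k with
  | zero =>
    rintro x (rfl | hx)
    · exact hd
    · exact hS hx
  | succ k ih =>
    rintro x (hx | ⟨p, rfl⟩)
    · exact ih hx
    · exact LS_sk_mem hd _ _

private theorem LS_X_mono (K S : Set ZFSet.{0}) (d : ZFSet.{0}) : Monotone (LS_X K S d) :=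
  monotone_nat_of_le_succ fun _ _ hx => Or.inl hx

private theorem LS_X_list (K S : Set ZFSet.{0}) (d : ZFSet.{0}) (l : List ZFSet.{0})
    (hl : ∀ x ∈ l, x ∈ ⋃ k, LS_X K S d k) : ∃ k, ∀ x ∈ l, x ∈ LS_X K S d k := by
  induction l with
  | nil => exact ⟨0, fun x hx => absurd hx (by simp)⟩
  | cons a l ih =>
    obtain ⟨k, hk⟩ := ih (fun x hx => hl x (List.mem_cons_of_mem _ hx))
    obtain ⟨m, hm⟩ := Set.mem_iUnion.1 (hl a List.mem_cons_self)
    refine ⟨max k m, fun x hx => ?_⟩
    rcases List.mem_cons.1 hx with rfl | hx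
    · exact LS_X_mono K S d (le_max_right k m) hm
    · exact LS_X_mono K S d (le_max_left k m) (hk x hx)

private theorem LS_sk_in (K S : Set ZFSet.{0}) (d : ZFSet.{0}) (φ : Fml) (l : List ZFSet.{0})
    (hl : ∀ x ∈ l, x ∈ ⋃ k, LS_X K S d k) : LS_sk K d φ l ∈ ⋃ k, LS_X K S d k := by
  obtain ⟨k, hk⟩ := LS_X_list K S d l hl
  refine Set.mem_iUnion.2 ⟨k + 1, Or.inr ⟨(φ, l.attach.map (fun x => ⟨x.1, hk x.1 x.2⟩)), ?_⟩⟩
  show LS_sk K d φ ((l.attach.map (fun x => (⟨x.1, hk x.1 x.2⟩ : LS_X K S d k))).map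
    Subtype.val) = LS_sk K d φ l
  congr 1
  rw [List.map_map]
  exact List.attach_map_subtype_val l

theorem exists_countable_elem (K S : Set ZFSet.{0}) (hK : K.Nonempty) (hS : S ⊆ K)
    (hc : S.Countable) :
    ∃ X : Set ZFSet.{0}, S ⊆ X ∧ X ⊆ K ∧ X.Countable ∧ X.Nonempty ∧
      ∀ (φ : Fml) (v : ℕ → ZFSet.{0}), (∀ i, v i ∈ X) → (SatIn X φ v ↔ SatIn K φ v) := by
  obtain ⟨d, hd⟩ := hK
  have h0 : ∀ x ∈ insert d S, x ∈ ⋃ k, LS_X K S d k := fun x hx => Set.mem_iUnion.2 ⟨0, hx⟩
  have hXK : (⋃ k, LS_X K S d k) ⊆ K := Set.iUnion_subset fun k => LS_X_sub K S d hd hS k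
  refine ⟨⋃ k, LS_X K S d k, fun x hx => h0 x (Or.inr hx), hXK,
    Set.countable_iUnion fun k => LS_X_countable K S d hc k, ⟨d, h0 d (Or.inl rfl)⟩, ?_⟩
  intro φ
  induction φ with
  | bot => intro v _; exact Iff.rfl
  | eq i j => intro v _; exact Iff.rfl
  | mem i j => intro v _; exact Iff.rfl
  | imp φ ψ h1 h2 =>
    intro v hv
    exact imp_congr (h1 v hv) (h2 v hv)
  | all φ ih =>
    intro v hv
    have hcv : ∀ x ∈ ⋃ k, LS_X K S d k, ∀ i, cons x v i ∈ ⋃ k, LS_X K S d k := by
      intro x hx i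
      cases i with
      | zero => exact hx
      | succ i => exact hv i
    constructor
    · intro H
      by_contra hn
      have hn' : ¬ ∀ x ∈ K, SatIn K φ (cons x v) := hn
      push Not at hn'
      obtain ⟨x, hx, hxn⟩ := hn'
      obtain ⟨n, hn⟩ := φ.exists_bd
      have hb : φ.bd (n + 1) := φ.bd_mono (Nat.le_succ n) hn
      have hst : ∀ i < n, LS_st d ((List.range n).map v) i = v i := by
        intro i hi
        unfold LS_st
        rw [List.getD_eq_getElem _ _ (by simpa using hi)]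
        simp
      have hcg : ∀ y, (SatIn K φ (cons y v) ↔
          SatIn K φ (cons y (LS_st d ((List.range n).map v)))) := by
        intro y
        refine satIn_congr φ hb fun i hi => ?_
        cases i with
        | zero => rfl
        | succ i => exact (hst i (by omega)).symm
      have hsk := LS_sk_spec (d := d) φ ((List.range n).map v) ⟨x, hx, fun h => hxn ((hcg x).2 h)⟩
      have hin : LS_sk K d φ ((List.range n).map v) ∈ ⋃ k, LS_X K S d k := by
        refine LS_sk_in K S d φ _ fun y hy => ?_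
        obtain ⟨i, -, rfl⟩ := List.mem_map.1 hy
        exact hv i
      exact hsk ((hcg _).1 ((ih _ (hcv _ hin)).1 (H _ hin)))
    · intro H x hx
      exact (ih _ (hcv x hx)).2 (H x (hXK hx))

end H83.AC
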