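import Pool.Agent.H83.AC.Defs3
import Pool.Agent.H83.AC.LAttD
import Pool.Agent.H83.AC.LS
import Pool.Agent.H83.AC.Tc
import Pool.Agent.H83.AC.WoU

/-!
# Definitions for the failure half
-/

namespace H83.AC

open ZFSet

/-! ### Tuples, codes -/

/-- the `i`-th coordinate of a tuple -/
noncomputable def nth : ℕ → ZFSet.{0} → ZFSet.{0}
  | 0, t => fst t
  | i + 1, t => nth i (snd t)

open Classical in
/-- the code (a natural number) of a hereditarily finite set: the inverse of `cd` -/
noncomputable def ci (x : ZFSet.{0}) : ZFSet.{0} := if h : ∃ n, cd n = x then nz h.choose else ∅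

/-- the code of a formula: an injective map into the natural numbers -/
noncomputable def fc (χ : Fml) : ZFSet.{0} := nz ((exists_injective_nat Fml).choose χ)

/-- tagged sets -/
noncomputable def tg (n : ℕ) (u : ZFSet.{0}) : ZFSet.{0} := pair (nz n) u

/-- the term for the Skolem function of `all χ` with parameters `t` -/
noncomputable def ts (χ : Fml) (t : ZFSet.{0}) : ZFSet.{0} := tg 2 (pair (fc χ) t)

/-- the term for an element which distinguishes `i` and `j` -/
noncomputable def tx (i j : ZFSet.{0}) : ZFSet.{0} := tg 3 (pair i j)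

/-- the term for the name `e` -/
noncomputable def te : ZFSet.{0} := tg 1 ∅

/-! ### Certificates: a real number `y` codes a structure with domain `HF` -/

/-- the relation `E` of the structure -/
def bE (y i j : ZFSet.{0}) : Prop := app y (ci (tg 0 (pair i j))) ≠ ∅

/-- the equality relation of the structure -/
def bQ (y i j : ZFSet.{0}) : Prop := app y (ci (tg 1 (pair i j))) ≠ ∅

/-- the truth table of the formula `χ` -/
def bT (y : ZFSet.{0}) (χ : Fml) (t : ZFSet.{0}) : Prop := app y (ci (tg 2 (pair (fc χ) t))) ≠ ∅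

/-- the condition attached to `h` -/
noncomputable def bW (y h : ZFSet.{0}) : ZFSet.{0} := app cdg (app y (ci (tg 3 h)))

/-- the truth tables of `χ` and its subformulas are correct -/
def TC (y : ZFSet.{0}) : Fml → ℕ → Prop
  | .bot, n => ∀ t ∈ tups HF n, ¬ bT y .bot t
  | .eq i j, n => ∀ t ∈ tups HF n, (bT y (.eq i j) t ↔ bQ y (nth i t) (nth j t))
  | .mem i j, n => ∀ t ∈ tups HF n, (bT y (.mem i j) t ↔ bE y (nth i t) (nth j t))
  | .imp φ ψ, n => TC y φ n ∧ TC y ψ n ∧
      ∀ t ∈ tups HF n, (bT y (.imp φ ψ) t ↔ (bT y φ t → bT y ψ t))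
  | .all φ, n => TC y φ (n + 1) ∧ ∀ t ∈ tups HF n,
      (bT y (.all φ) t → ∀ a ∈ HF, bT y φ (pair a t)) ∧
      (¬ bT y (.all φ) t → ¬ bT y φ (pair (ts φ t) t))

/-- `y` is a certificate (except for well-foundedness) that `x = ev e c` for some `e` constructible
over the columns `< k`; `s = c ∩ Col k` -/
structure KK (φ : Fml) (k s x y : ZFSet.{0}) : Prop where
  qr : ∀ i ∈ HF, bQ y i i
  qs : ∀ i ∈ HF, ∀ j ∈ HF, bQ y i j → bQ y j i
  qt : ∀ i ∈ HF, ∀ j ∈ HF, ∀ l ∈ HF, bQ y i j → bQ y j l → bQ y i l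
  el : ∀ i ∈ HF, ∀ j ∈ HF, ∀ l ∈ HF, bE y i j → bQ y i l → bE y l j
  er : ∀ i ∈ HF, ∀ j ∈ HF, ∀ l ∈ HF, bE y i j → bQ y j l → bE y i l
  ex : ∀ i ∈ HF, ∀ j ∈ HF, ¬ bQ y i j →
    (bE y (tx i j) i ∧ ¬ bE y (tx i j) j) ∨ (¬ bE y (tx i j) i ∧ bE y (tx i j) j)
  tc : TC y φ 0
  t0 : bT y φ ∅
  base : ∀ j ∈ HF, ∀ h ∈ HF, (bE y j (tg 0 h) ↔ ∃ h' ∈ h, bQ y j (tg 0 h'))
  pos : ∀ h ∈ HF, h ∈ x → bW y h ∈ CondC k ∧ Fits (bW y h) (cls s) ∧
    bE y (tg 0 (pair (bW y h) h)) te
  neg : ∀ h ∈ HF, ∀ p ∈ CondC k, Fits p (cls s) → bE y (tg 0 (pair p h)) te → h ∈ x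

/-- a descending sequence of the structure -/
def DescY (y f : ZFSet.{0}) : Prop := ∀ n ∈ omega, bE y (app f (sc n)) (app f n)

/-- the sentence expressing `PsiK` -/
noncomputable def phi0 : Fml := psi_fml.choose

theorem phi0_bd : phi0.bd 0 := psi_fml.choose_spec.1

theorem phi0_iff {K : Set ZFSet.{0}} (hK : IsTr K) {v : ℕ → ZFSet.{0}} (hv : ∀ i, v i ∈ K) :
    SatIn K phi0 v ↔ PsiK K := psi_fml.choose_spec.2 K hK v hv

/-- `c ∩ Col k` as a set -/
noncomputable def cut (c : Set ZFSet.{0}) (k : ZFSet.{0}) : ZFSet.{0} := ZFSet.sep (fun a => a ∈ c) (Col k)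

/-! ### Locally constant and closed relations between real numbers of a model -/

/-- locally constant -/
def Loc (N : Set ZFSet.{0}) (P : ZFSet.{0} → ZFSet.{0} → Prop) : Prop :=
  ∀ x y, Real N x → Real N y → ∃ m ∈ omega, ∀ x' y', Real N x' → Real N y' →
    Agree m x x' → Agree m y y' → (P x' y' ↔ P x y)

/-- a locally constant function -/
def LocF (N : Set ZFSet.{0}) (F : ZFSet.{0} → ZFSet.{0} → ZFSet.{0}) : Prop :=
  ∀ x y, Real N x → Real N y → ∃ m ∈ omega, ∀ x' y', Real N x' → Real N y' →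
    Agree m x x' → Agree m y y' → F x' y' = F x y

/-- closed -/
def Clo (N : Set ZFSet.{0}) (P : ZFSet.{0} → ZFSet.{0} → Prop) : Prop :=
  ∀ x y, Real N x → Real N y → ¬ P x y → ∃ m ∈ omega, ∀ x' y', Real N x' → Real N y' →
    Agree m x x' → Agree m y y' → ¬ P x' y'

/-! ### The hull -/

/-- recursion: `hl G t = G t (the graph of hl G on tc t)` -/
noncomputable def hl (G : ZFSet.{0} → ZFSet.{0} → ZFSet.{0}) (t : ZFSet.{0}) : ZFSet.{0} :=
  G t (ZFSet.range (fun u : tc t => pair u.1 (hl G u.1)))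
termination_by rank t
decreasing_by exact rank_lt_of_mem_tc u.2

/-- the `w`-least element of `S` -/
noncomputable def lst (w S : ZFSet.{0}) : ZFSet.{0} := ⋃₀ (ZFSet.sep (fun a => ∀ b ∈ S, pair b a ∉ w) S)

/-- the formulas `φ` such that `all φ` is a subformula -/
def subs : Fml → List Fml
  | .bot => []
  | .eq _ _ => []
  | .mem _ _ => []
  | .imp φ ψ => subs φ ++ subs ψ
  | .all φ => φ :: subs φ

/-- all subformulas -/
def asub : Fml → List Fml
  | .bot => [.bot]
  | .eq i j => [.eq i j]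
  | .mem i j => [.mem i j]
  | .imp φ ψ => .imp φ ψ :: (asub φ ++ asub ψ)
  | .all φ => .all φ :: asub φ

open Classical in
/-- value of the Skolem function with code `g` and parameters `t`, the values of the terms being
given by `f` -/
noncomputable def skv (A w g t f : ZFSet.{0}) : List Fml → ZFSet.{0}
  | [] => ∅
  | χ :: L => if g = fc χ then
      lst w (ZFSet.sep (fun a => ¬ SatIn (cls A) χ (cons a (fun i => app f (nth i t)))) A)
    else skv A w g t f L

open Classical in
/-- one step of the recursion for the hull -/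
noncomputable def hG (φ : Fml) (A w e t f : ZFSet.{0}) : ZFSet.{0} :=
  if fst t = nz 0 then snd t
  else if fst t = nz 1 then e
  else if fst t = nz 2 then skv A w (fst (snd t)) (snd (snd t)) f (subs φ)
  else if fst t = nz 3 then lst w (ZFSet.sep (fun a =>
    (a ∈ app f (fst (snd t)) ∧ a ∉ app f (snd (snd t))) ∨
    (a ∉ app f (fst (snd t)) ∧ a ∈ app f (snd (snd t)))) A)
  else ∅

/-- the value of the term `t` in `A` -/
noncomputable def hull (φ : Fml) (A w e t : ZFSet.{0}) : ZFSet.{0} := hl (hG φ A w e) t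

/-- truth of one of the formulas of the list with code `g` -/
def tv (φ : Fml) (A w e g t : ZFSet.{0}) : List Fml → Prop
  | [] => False
  | χ :: L => (g = fc χ ∧ SatIn (cls A) χ (fun i => hull φ A w e (nth i t))) ∨ tv φ A w e g t L

open Classical in
/-- the value of the certificate at the address `u` -/
noncomputable def yv (φ : Fml) (A w e k s u : ZFSet.{0}) : ZFSet.{0} :=
  if fst u = nz 0 then
    (if hull φ A w e (fst (snd u)) ∈ hull φ A w e (snd (snd u)) then one else ∅)
  else if fst u = nz 1 then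
    (if hull φ A w e (fst (snd u)) = hull φ A w e (snd (snd u)) then one else ∅)
  else if fst u = nz 2 then
    (if tv φ A w e (fst (snd u)) (snd (snd u)) (asub φ) then one else ∅)
  else if fst u = nz 3 then
    ci (lst (wh omega) (ZFSet.sep (fun p => Fits p (cls s) ∧ pair p (snd u) ∈ e) (CondC k)))
  else ∅

/-- the certificate -/
noncomputable def yr (φ : Fml) (A w e k s : ZFSet.{0}) : ZFSet.{0} :=
  fgr (fun n => yv φ A w e k s (app cdg n)) omega

end H83.AC
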