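import Pool.Agent.H83.AC.Rn
import Pool.Agent.H83.AC.Defs4

/-!
# Module CutN: the first columns of the generic set

`cut c (nz k) = ev e₀ c` for `e₀ = {pair {pair a one} a : a ∈ Col (nz k)} ∈ M` (`UF.img`), a subset of
`prod (CondC (nz k)) (Col (nz k))`; `ev_mem` with `H = Col (nz k)`.
-/

namespace H83.AC

open ZFSet

private theorem CutN_col {k : ℕ} {a : ZFSet.{0}} (ha : a ∈ Col (nz k)) : a ∈ Idx := by
  obtain ⟨i, hi, j, hj, rfl⟩ := ZFSet.mem_prod.1 ha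
  obtain ⟨n, -, rfl⟩ := mem_nz.1 hi
  exact ZFSet.pair_mem_prod.2 ⟨nz_mem_omega n, hj⟩

private theorem CutN_lit {k : ℕ} {a : ZFSet.{0}} (ha : a ∈ Col (nz k)) :
    ({ZFSet.pair a one} : ZFSet) ∈ CondC (nz k) := by
  rw [CondC, mem_sep]
  refine ⟨lit1_cond (CutN_col ha), fun t ht => ?_⟩
  rw [ZFSet.mem_singleton] at ht
  subst ht
  rw [ZFSet.pair_mem_prod]
  exact ⟨ha, by simp⟩

private theorem CutN_fits {a : ZFSet.{0}} {c : Set ZFSet.{0}} :
    Fits ({ZFSet.pair a one} : ZFSet) c ↔ a ∈ c := by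
  constructor
  · intro h
    exact (h a).1 (by simp)
  · intro h b
    constructor
    · intro hb
      rw [ZFSet.mem_singleton] at hb
      obtain ⟨rfl, -⟩ := ZFSet.pair_injective hb
      exact h
    · intro hb
      rw [ZFSet.mem_singleton] at hb
      obtain ⟨-, h2⟩ := ZFSet.pair_injective hb
      exact absurd h2.symm one_ne_empty

theorem cut_mem {M c : Set ZFSet.{0}} (hM : TM M) (k : ℕ) : cut c (nz k) ∈ NN M c := by
  have hkM : nz k ∈ M := hM.tr _ hM.omega _ (nz_mem_omega k)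
  have hU : UF (fun _ v => img (fun a => ZFSet.pair {ZFSet.pair a one} a) (Col (v 0))) := by
    infer_instance
  have he : img (fun a => ZFSet.pair {ZFSet.pair a one} a) (Col (nz k)) ∈ M :=
    hU.mem M hM (fun _ => nz k) (fun _ => hkM)
  have hs : img (fun a => ZFSet.pair {ZFSet.pair a one} a) (Col (nz k)) ⊆
      ZFSet.prod (CondC (nz k)) (Col (nz k)) := by
    intro t ht
    obtain ⟨a, ha, rfl⟩ := mem_img.1 ht
    exact ZFSet.pair_mem_prod.2 ⟨CutN_lit ha, ha⟩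
  have key : cut c (nz k) = ev (img (fun a => ZFSet.pair {ZFSet.pair a one} a) (Col (nz k))) c := by
    ext a
    rw [mem_ev, cut, mem_sep]
    constructor
    · rintro ⟨ha, hc⟩
      exact ⟨{ZFSet.pair a one}, lit1_cond (CutN_col ha), CutN_fits.2 hc, mem_img.2 ⟨a, ha, rfl⟩⟩
    · rintro ⟨p, -, hf, hp⟩
      obtain ⟨b, hb, h⟩ := mem_img.1 hp
      obtain ⟨rfl, rfl⟩ := ZFSet.pair_injective h
      exact ⟨hb, CutN_fits.1 hf⟩
  rw [key]
  exact ev_mem hM (nz_mem_omega k) he hs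

theorem cut_fits {c : Set ZFSet.{0}} {k : ℕ} {p : ZFSet.{0}} (hp : p ∈ CondC (nz k)) :
    Fits p (cls (cut c (nz k))) ↔ Fits p c := by
  rw [CondC, mem_sep] at hp
  have hcol : ∀ a i, ZFSet.pair a i ∈ p → a ∈ Col (nz k) := fun a i h =>
    (ZFSet.pair_mem_prod.1 (hp.2 h)).1
  have hm : ∀ a, a ∈ Col (nz k) → (a ∈ cls (cut c (nz k)) ↔ a ∈ c) := by
    intro a ha
    show a ∈ cut c (nz k) ↔ a ∈ c
    rw [cut, mem_sep]
    exact ⟨fun h => h.2, fun h => ⟨ha, h⟩⟩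
  constructor
  · intro h a
    exact ⟨fun h1 => (hm a (hcol a _ h1)).1 ((h a).1 h1),
      fun h1 h2 => (h a).2 h1 ((hm a (hcol a _ h1)).2 h2)⟩
  · intro h a
    exact ⟨fun h1 => (hm a (hcol a _ h1)).2 ((h a).1 h1),
      fun h1 h2 => (h a).2 h1 ((hm a (hcol a _ h1)).1 h2)⟩

end H83.AC
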