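import Pool.Agent.H83.AC.Defs3

/-!
# Module Dbl: doubling and the two index maps

`dbl x = uni (fun y => sc (sc (dbl y))) x`; `dbl (nz n) = nz (2 n)` by induction with `mem_nz`
(`sc (sc (nz (2 m))) = nz (2 m + 2)` by definition of `nz`). `UF.dbl` by `UF.recMem` with
`G N v x f = uni (fun y => sc (sc (app f y))) x`. Elements of `Idx` are `pair (nz i) (nz j)`.
-/

namespace H83.AC

open ZFSet

theorem dbl_eq (x : ZFSet.{0}) : dbl x = uni (fun y => sc (sc (dbl y))) x := by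
  ext z
  rw [dbl, mem_uni, mem_sUnion]
  constructor
  · rintro ⟨w, hw, hz⟩
    rw [ZFSet.mem_range] at hw
    obtain ⟨y, rfl⟩ := hw
    exact ⟨y.1, y.2, hz⟩
  · rintro ⟨y, hy, hz⟩
    exact ⟨_, ZFSet.mem_range.2 ⟨⟨y, hy⟩, rfl⟩, hz⟩

theorem mem_Idx {a : ZFSet.{0}} : a ∈ Idx ↔ ∃ i j : ℕ, a = pair (nz i) (nz j) := by
  rw [Idx, mem_prod]
  constructor
  · rintro ⟨x, hx, y, hy, rfl⟩
    obtain ⟨i, rfl⟩ := mem_omega.1 hx
    obtain ⟨j, rfl⟩ := mem_omega.1 hy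
    exact ⟨i, j, rfl⟩
  · rintro ⟨i, j, rfl⟩
    exact ⟨nz i, nz_mem_omega i, nz j, nz_mem_omega j, rfl⟩

theorem sc_nz (n : ℕ) : sc (nz n) = nz (n + 1) := rfl

theorem dbl_nz (n : ℕ) : dbl (nz n) = nz (2 * n) := by
  induction n using Nat.strong_induction_on with
  | _ n ih =>
    ext z
    rw [dbl_eq, mem_uni]
    constructor
    · rintro ⟨y, hy, hz⟩
      obtain ⟨m, hm, rfl⟩ := mem_nz.1 hy
      rw [ih m hm, sc_nz, sc_nz] at hz
      obtain ⟨k, hk, rfl⟩ := mem_nz.1 hz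
      exact nz_mem_nz.2 (by omega)
    · intro hz
      obtain ⟨k, hk, rfl⟩ := mem_nz.1 hz
      refine ⟨nz (k / 2), nz_mem_nz.2 (by omega), ?_⟩
      rw [ih (k / 2) (by omega), sc_nz, sc_nz]
      exact nz_mem_nz.2 (by omega)

theorem k0_nz (i j : ℕ) : k0 (pair (nz i) (nz j)) = pair (nz i) (nz (2 * j)) := by
  rw [k0, fst_pair, snd_pair, dbl_nz]

theorem k1_nz (i j : ℕ) : k1 (pair (nz i) (nz j)) = pair (nz i) (nz (2 * j + 1)) := by
  rw [k1, fst_pair, snd_pair, dbl_nz, sc_nz]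

theorem UF.dbl {f : Set ZFSet.{0} → (ℕ → ZFSet.{0}) → ZFSet.{0}} (hf : UF f) :
    UF (fun N v => H83.AC.dbl (f N v)) := by
  refine UF.comp1 (F := fun _ x => H83.AC.dbl x) ?_ hf
  refine UF.recMem (G := fun _ _ x f =>
    H83.AC.uni (fun y => sc (sc (H83.AC.app f y))) x) (F := fun _ _ x => H83.AC.dbl x) ?_ ?_
  · infer_instance
  · intro N _ v _ x _
    show H83.AC.dbl x = H83.AC.uni (fun y => sc (sc
      (H83.AC.app (H83.AC.fgr (fun x => H83.AC.dbl x) x) y))) x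
    conv_lhs => rw [dbl_eq x]
    refine uni_congr fun y hy => ?_
    rw [app_fgr hy]

instance Inst.dbl {f : Set ZFSet.{0} → (ℕ → ZFSet.{0}) → ZFSet.{0}} [hf : UF f] :
    UF (fun N v => H83.AC.dbl (f N v)) := UF.dbl hf

theorem UF.k0 {f : Set ZFSet.{0} → (ℕ → ZFSet.{0}) → ZFSet.{0}} (hf : UF f) :
    UF (fun N v => H83.AC.k0 (f N v)) := by
  unfold H83.AC.k0
  infer_instance

theorem UF.k1 {f : Set ZFSet.{0} → (ℕ → ZFSet.{0}) → ZFSet.{0}} (hf : UF f) :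
    UF (fun N v => H83.AC.k1 (f N v)) := by
  unfold H83.AC.k1
  infer_instance

instance Inst.k0 {f : Set ZFSet.{0} → (ℕ → ZFSet.{0}) → ZFSet.{0}} [hf : UF f] :
    UF (fun N v => H83.AC.k0 (f N v)) := UF.k0 hf

instance Inst.k1 {f : Set ZFSet.{0} → (ℕ → ZFSet.{0}) → ZFSet.{0}} [hf : UF f] :
    UF (fun N v => H83.AC.k1 (f N v)) := UF.k1 hf

theorem emb_k0 : Emb k0 := by
  refine ⟨?_, ?_, ?_, UF.k0 (UF.var 0)⟩
  · intro a ha
    obtain ⟨i, j, rfl⟩ := mem_Idx.1 ha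
    rw [k0_nz]
    exact mem_Idx.2 ⟨_, _, rfl⟩
  · intro a ha
    obtain ⟨i, j, rfl⟩ := mem_Idx.1 ha
    rw [k0_nz, fst_pair, fst_pair]
  · intro a ha b hb h
    obtain ⟨i, j, rfl⟩ := mem_Idx.1 ha
    obtain ⟨i', j', rfl⟩ := mem_Idx.1 hb
    rw [k0_nz, k0_nz, pair_inj, nz_inj, nz_inj] at h
    obtain ⟨rfl, h2⟩ := h
    have : j = j' := by omega
    rw [this]

theorem emb_k1 : Emb k1 := by
  refine ⟨?_, ?_, ?_, UF.k1 (UF.var 0)⟩
  · intro a ha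
    obtain ⟨i, j, rfl⟩ := mem_Idx.1 ha
    rw [k1_nz]
    exact mem_Idx.2 ⟨_, _, rfl⟩
  · intro a ha
    obtain ⟨i, j, rfl⟩ := mem_Idx.1 ha
    rw [k1_nz, fst_pair, fst_pair]
  · intro a ha b hb h
    obtain ⟨i, j, rfl⟩ := mem_Idx.1 ha
    obtain ⟨i', j', rfl⟩ := mem_Idx.1 hb
    rw [k1_nz, k1_nz, pair_inj, nz_inj, nz_inj] at h
    obtain ⟨rfl, h2⟩ := h
    have : j = j' := by omega
    rw [this]

theorem k0_ne_k1 {a b : ZFSet.{0}} (ha : a ∈ Idx) (hb : b ∈ Idx) : k0 a ≠ k1 b := by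
  intro h
  obtain ⟨i, j, rfl⟩ := mem_Idx.1 ha
  obtain ⟨i', j', rfl⟩ := mem_Idx.1 hb
  rw [k0_nz, k1_nz, pair_inj, nz_inj, nz_inj] at h
  omega

theorem mem_Col_nz {m i j : ℕ} : pair (nz i) (nz j) ∈ Col (nz m) ↔ i < m := by
  rw [Col, pair_mem_prod, nz_mem_nz]
  exact ⟨fun h => h.1, fun h => ⟨h, nz_mem_omega j⟩⟩

theorem emb_mx (m : ℕ) : Emb (mx m) := by
  refine ⟨?_, ?_, ?_, ?_⟩
  · intro a ha
    rw [mx]
    split_ifs
    · exact emb_k0.maps a ha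
    · exact emb_k1.maps a ha
  · intro a ha
    rw [mx]
    split_ifs
    · exact emb_k0.col a ha
    · exact emb_k1.col a ha
  · intro a ha b hb h
    obtain ⟨i, j, rfl⟩ := mem_Idx.1 ha
    obtain ⟨i', j', rfl⟩ := mem_Idx.1 hb
    rw [mx, mx] at h
    simp only [mem_Col_nz] at h
    split_ifs at h
    · exact emb_k0.inj _ ha _ hb h
    · exact absurd h (k0_ne_k1 ha hb)
    · exact absurd h.symm (k0_ne_k1 hb ha)
    · exact emb_k1.inj _ ha _ hb h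
  · unfold mx
    infer_instance

theorem idx_cases {a : ZFSet.{0}} (h : a ∈ Idx) : ∃ b ∈ Idx, a = k0 b ∨ a = k1 b := by
  obtain ⟨i, j, rfl⟩ := mem_Idx.1 h
  refine ⟨pair (nz i) (nz (j / 2)), mem_Idx.2 ⟨_, _, rfl⟩, ?_⟩
  rw [k0_nz, k1_nz]
  rcases Nat.even_or_odd' j with ⟨c, hc | hc⟩
  · left
    have : 2 * (j / 2) = j := by omega
    rw [this]
  · right
    have : 2 * (j / 2) + 1 = j := by omega
    rw [this]

end H83.AC
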