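import Pool.Agent.H83.AC.SatSet

/-!
# Module DefSub: definable subsets of constructible sets are constructible

Let `φ.bd (n + 1)`. The set `{a ∈ X : φ(a, v)}` is
`dom (SatS X φ (n+1) ∩ prod X {tup n v})` (`op 9 x y = dom x`); `tup n v ∈ LL` by `pair_LL`.
-/

namespace H83.AC

open ZFSet

private theorem tup_LL {X : ZFSet.{0}} (hX : X ∈ LL) (n : ℕ) :
    ∀ v : ℕ → ZFSet.{0}, (∀ i, v i ∈ X) → tup n v ∈ LL := by
  induction n with
  | zero => intro v _; exact empty_LL
  | succ n ih =>
    intro v hv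
    exact pair_LL (LL_tr _ hX _ (hv 0)) (ih (sh v) fun i => hv (i + 1))

theorem defSub_LL {X : ZFSet.{0}} (hX : X ∈ LL) (φ : Fml) {v : ℕ → ZFSet.{0}}
    (hv : ∀ i, v i ∈ X) : ZFSet.sep (fun a => SatIn (cls X) φ (cons a v)) X ∈ LL := by
  have hne : X ≠ ∅ := by
    intro h
    have := hv 0
    rw [h] at this
    exact ZFSet.notMem_empty _ this
  obtain ⟨n, hn⟩ := φ.exists_bd
  have hn' : φ.bd (n + 1) := φ.bd_mono (Nat.le_succ n) hn
  have htup := tup_LL hX n v hv
  have hsing : ({tup n v} : ZFSet) ∈ LL := by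
    have := upair_LL htup htup
    rwa [pair_eq_singleton] at this
  have hS : SatS X φ (n + 1) ∩ ZFSet.prod X {tup n v} ∈ LL :=
    inter_LL (SatS_LL hX hne φ hn') (prod_LL hX hsing)
  have hdom : dom (SatS X φ (n + 1) ∩ ZFSet.prod X {tup n v}) ∈ LL := by
    have h9 := op_LL (i := 9) (by norm_num) hS hS
    simpa [op] using h9
  have e : ZFSet.sep (fun a => SatIn (cls X) φ (cons a v)) X =
      dom (SatS X φ (n + 1) ∩ ZFSet.prod X {tup n v}) := by
    ext a
    rw [mem_sep, mem_dom]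
    have hcons : ∀ a ∈ X, ∀ i, cons a v i ∈ X := by
      intro a ha i
      cases i with
      | zero => exact ha
      | succ i => exact hv i
    constructor
    · rintro ⟨ha, hs⟩
      refine ⟨tup n v, ?_⟩
      rw [ZFSet.mem_inter]
      constructor
      · rw [SatS, mem_sep]
        have h1 : pair a (tup n v) = tup (n + 1) (cons a v) := rfl
        rw [h1]
        exact ⟨(mem_tups hne).2 ⟨cons a v, hcons a ha, rfl⟩, cons a v, hcons a ha, rfl, hs⟩
      · rw [pair_mem_prod]
        exact ⟨ha, by simp⟩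
    · rintro ⟨y, hy⟩
      rw [ZFSet.mem_inter, pair_mem_prod] at hy
      obtain ⟨h1, ha, hy⟩ := hy
      rw [ZFSet.mem_singleton] at hy
      subst hy
      refine ⟨ha, ?_⟩
      rw [SatS, mem_sep] at h1
      obtain ⟨-, w, hw, e1, hs⟩ := h1
      have e2 : tup (n + 1) (cons a v) = tup (n + 1) w := e1
      exact (satIn_congr φ hn' (tup_inj.1 e2)).2 hs
  rw [e]
  exact hdom

end H83.AC
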