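import Pool.Agent.H83.AC.Rec

/-!
# Definitions: natural numbers, ordinals, the constructible hierarchy, Cohen conditions, names
-/

namespace H83.AC

open ZFSet

/-! ### recursion along membership -/

theorem UF.recMem {G : Set ZFSet.{0} → (ℕ → ZFSet.{0}) → ZFSet.{0} → ZFSet.{0} → ZFSet.{0}}
    {F : Set ZFSet.{0} → (ℕ → ZFSet.{0}) → ZFSet.{0} → ZFSet.{0}}
    (hG : UF (fun N w => G N (sh (sh w)) (w 0) (w 1)))
    (hF : ∀ N, TM N → ∀ v : ℕ → ZFSet, (∀ n, v n ∈ N) →
      ∀ x ∈ N, F N v x = G N v x (H83.AC.fgr (F N v) x)) :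
    UF (fun N w => F N (sh w) (w 0)) :=
  UF.recur (pred := fun _ _ x => x) (UF.var 0) hG
    (fun N _ _ _ => InvImage.wf (fun x : N => (x : ZFSet)) ZFSet.mem_wf) hF

/-! ### Satisfaction with `ZFSet` valued assignments -/

/-- satisfaction in `(K, ∈)` of a formula under an assignment of elements of `K` -/
def SatIn (K : Set ZFSet.{0}) : Fml → (ℕ → ZFSet.{0}) → Prop
  | .bot, _ => False
  | .eq i j, v => v i = v j
  | .mem i j, v => v i ∈ v j
  | .imp φ ψ, v => SatIn K φ v → SatIn K ψ v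
  | .all φ, v => ∀ x ∈ K, SatIn K φ (cons x v)

theorem sat_iff (K : Set ZFSet.{0}) (φ : Fml) :
    ∀ v : ℕ → K, Sat (memN K) φ v ↔ SatIn K φ (fun n => (v n : ZFSet)) := by
  have hc : ∀ (x : K) (v : ℕ → K), (fun n => ((cons x v n : K) : ZFSet)) =
      cons (x : ZFSet) (fun n => (v n : ZFSet)) := by
    intro x v; funext n; cases n <;> rfl
  induction φ with
  | bot => intro v; rfl
  | eq i j => intro v; exact Subtype.ext_iff
  | mem i j => intro v; rfl
  | imp φ ψ h1 h2 => intro v; simp only [Sat, SatIn, h1, h2]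
  | all φ ih =>
    intro v
    simp only [Sat, SatIn]
    constructor
    · intro H x hx
      have := (ih _).1 (H ⟨x, hx⟩)
      rwa [hc] at this
    · intro H x
      refine (ih _).2 ?_
      rw [hc]
      exact H x x.2

/-! ### Natural numbers -/

/-- the von Neumann natural number `n` -/
noncomputable def nz : ℕ → ZFSet.{0}
  | 0 => ∅
  | n + 1 => insert (nz n) (nz n)

/-- the number `1` -/
noncomputable def one : ZFSet.{0} := {∅}

/-! ### Transitive closure and rank -/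

/-- transitive closure -/
noncomputable def tc (x : ZFSet.{0}) : ZFSet.{0} :=
  x ∪ ⋃₀ (ZFSet.range (fun y : x => tc y.1))
termination_by rank x
decreasing_by exact rank_lt_of_mem y.2

/-- the rank as a von Neumann ordinal -/
noncomputable def rk (x : ZFSet.{0}) : ZFSet.{0} := (rank x).toZFSet

/-! ### The constructible hierarchy -/

/-- Goedel operations -/
noncomputable def op (i : ℕ) (x y : ZFSet.{0}) : ZFSet.{0} :=
  if i = 0 then {x, y}
  else if i = 1 then x \ y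
  else if i = 2 then ZFSet.prod x y
  else if i = 3 then ZFSet.sep (fun t => fst t ∈ snd t) (ZFSet.prod x y)
  else if i = 4 then ZFSet.sep (fun t => snd t ∈ fst t) (ZFSet.prod x y)
  else if i = 5 then ZFSet.sep (fun t => fst t = snd t) (ZFSet.prod x y)
  else if i = 6 then uni (fun t => img (fun s => pair (fst t) (pair (snd t) s)) y) x
  else if i = 7 then uni (fun t => img (fun v => pair (fst t) (pair v (snd t))) y) x
  else if i = 8 then rng x
  else dom x

/-- the set of all `op i x y`, `i < 10` -/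
noncomputable def ops (x y : ZFSet.{0}) : ZFSet.{0} :=
  {op 0 x y, op 1 x y, op 2 x y, op 3 x y, op 4 x y, op 5 x y, op 6 x y, op 7 x y, op 8 x y,
    op 9 x y}

/-- one step of the hierarchy: add `U` and all `op i x y ⊆ U` with `x, y ∈ U ∪ {U}` -/
noncomputable def Sx (U : ZFSet.{0}) : ZFSet.{0} :=
  insert U U ∪ ZFSet.sep (fun z => z ⊆ U)
    (uni (fun x => uni (fun y => ops x y) (insert U U)) (insert U U))

/-- the levels of the constructible hierarchy -/
noncomputable def Lo (α : Ordinal.{0}) : ZFSet.{0} :=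
  ⋃ β : Set.Iio α, Sx (Lo β)
termination_by α
decreasing_by exact β.2

/-- the level at the rank of `x` -/
noncomputable def Lh (x : ZFSet.{0}) : ZFSet.{0} := Lo (rank x)

/-- the constructible universe -/
def LL : Set ZFSet.{0} := {z | ∃ α, z ∈ Lo α}

/-- the hereditarily finite sets -/
noncomputable def HF : ZFSet.{0} := Lo Ordinal.omega0

/-- every element of `N` is constructible in `N` -/
def VL (N : Set ZFSet.{0}) : Prop := ∀ z ∈ N, ∃ x ∈ N, z ∈ Lh x

/-! ### Cohen conditions -/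

/-- `ω × ω`, the index set -/
noncomputable def Idx : ZFSet.{0} := ZFSet.prod omega omega

/-- conditions: finite sets of literals `(a, 1)` (read `a ∈ c`), `(a, 0)` (read `a ∉ c`),
`a ∈ ω × ω`, without contradiction -/
noncomputable def Cond : ZFSet.{0} :=
  ZFSet.sep (fun p => p ⊆ ZFSet.prod Idx {∅, one} ∧ ∀ a ∈ Idx, ¬ (pair a ∅ ∈ p ∧ pair a one ∈ p)) HF

/-- the condition `p` fits the set `c` -/
def Fits (p : ZFSet.{0}) (c : Set ZFSet.{0}) : Prop :=
  ∀ a, (pair a one ∈ p → a ∈ c) ∧ (pair a ∅ ∈ p → a ∉ c)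

/-- `D` is a dense set of conditions -/
def Dense (D : ZFSet.{0}) : Prop := D ⊆ Cond ∧ ∀ p ∈ Cond, ∃ q ∈ D, p ⊆ q

/-- `c ⊆ ω × ω` is Cohen generic over `M` -/
def Gen (M : Set ZFSet.{0}) (c : Set ZFSet.{0}) : Prop :=
  (∀ a ∈ c, a ∈ Idx) ∧ ∀ D ∈ M, Dense D → ∃ p ∈ D, Fits p c

/-! ### Names -/

/-- the names occurring in `σ` -/
noncomputable def nd (σ : ZFSet.{0}) : ZFSet.{0} :=
  ZFSet.sep (fun π => ∃ p ∈ Cond, pair π p ∈ σ) (⋃₀ (⋃₀ σ : ZFSet))

/-- the names occurring in `σ` with a condition that fits `c` -/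
noncomputable def ndc (c : Set ZFSet.{0}) (σ : ZFSet.{0}) : ZFSet.{0} :=
  ZFSet.sep (fun π => ∃ p ∈ Cond, Fits p c ∧ pair π p ∈ σ) (⋃₀ (⋃₀ σ : ZFSet))

theorem mem_nd {σ π : ZFSet.{0}} : π ∈ nd σ ↔ ∃ p ∈ Cond, pair π p ∈ σ := by
  rw [nd, mem_sep]
  exact ⟨fun h => h.2, fun h => ⟨by obtain ⟨p, -, hp⟩ := h; exact fst_mem_ssU hp, h⟩⟩

theorem mem_ndc {c : Set ZFSet.{0}} {σ π : ZFSet.{0}} :
    π ∈ ndc c σ ↔ ∃ p ∈ Cond, Fits p c ∧ pair π p ∈ σ := by
  rw [ndc, mem_sep]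
  exact ⟨fun h => h.2, fun h => ⟨by obtain ⟨p, -, -, hp⟩ := h; exact fst_mem_ssU hp, h⟩⟩

theorem rank_fst_lt {σ π p : ZFSet.{0}} (h : pair π p ∈ σ) : rank π < rank σ := by
  have h1 : π ∈ ({π} : ZFSet) := by simp
  have h2 : ({π} : ZFSet) ∈ pair π p := by rw [pair]; simp
  exact (rank_lt_of_mem h1).trans ((rank_lt_of_mem h2).trans (rank_lt_of_mem h))

theorem rank_nd_lt {σ π : ZFSet.{0}} (h : π ∈ nd σ) : rank π < rank σ := by
  obtain ⟨p, -, hp⟩ := mem_nd.1 h
  exact rank_fst_lt hp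

theorem rank_ndc_lt {c : Set ZFSet.{0}} {σ π : ZFSet.{0}} (h : π ∈ ndc c σ) :
    rank π < rank σ := by
  obtain ⟨p, -, -, hp⟩ := mem_ndc.1 h
  exact rank_fst_lt hp

/-- the value of the name `σ` at `c` -/
noncomputable def val (c : Set ZFSet.{0}) (σ : ZFSet.{0}) : ZFSet.{0} :=
  ZFSet.range (fun π : ndc c σ => val c π.1)
termination_by rank σ
decreasing_by exact rank_ndc_lt π.2

/-- `p` forces `σ ⊆ τ` -/
def Sub (p σ τ : ZFSet.{0}) : Prop :=
  ∀ π r, (h : pair π r ∈ σ) → r ∈ Cond → ∀ q ∈ Cond, p ⊆ q → r ⊆ q →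
    ∃ q' ∈ Cond, q ⊆ q' ∧ ∃ ρ s, ∃ h' : pair ρ s ∈ τ, s ∈ Cond ∧ s ⊆ q' ∧
      Sub q' π ρ ∧ Sub q' ρ π
termination_by max (rank σ) (rank τ)
decreasing_by
  · exact max_lt ((rank_fst_lt h).trans_le (le_max_left _ _))
      ((rank_fst_lt h').trans_le (le_max_right _ _))
  · exact max_lt ((rank_fst_lt h').trans_le (le_max_right _ _))
      ((rank_fst_lt h).trans_le (le_max_left _ _))

/-- `p` forces `σ = τ` -/
def FEq (p σ τ : ZFSet.{0}) : Prop := Sub p σ τ ∧ Sub p τ σ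

/-- `p` forces `σ ∈ τ` -/
def FMem (p σ τ : ZFSet.{0}) : Prop :=
  ∀ q ∈ Cond, p ⊆ q → ∃ q' ∈ Cond, q ⊆ q' ∧ ∃ ρ s, pair ρ s ∈ τ ∧ s ∈ Cond ∧ s ⊆ q' ∧
    FEq q' σ ρ

/-! ### The action of the ground model subsets of `ω × ω` -/

open Classical in
/-- change the literal `t` if its index is in `z` -/
noncomputable def flip (z t : ZFSet.{0}) : ZFSet.{0} :=
  if fst t ∈ z then pair (fst t) (if snd t = ∅ then one else ∅) else t

/-- the action on conditions -/
noncomputable def actC (z p : ZFSet.{0}) : ZFSet.{0} := img (fun t => flip z t) p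

/-- the action on names -/
noncomputable def actN (z σ : ZFSet.{0}) : ZFSet.{0} :=
  ⋃₀ (ZFSet.range (fun π : nd σ =>
    img (fun p => pair (actN z π.1) (actC z p)) (ZFSet.sep (fun p => pair π.1 p ∈ σ) Cond)))
termination_by rank σ
decreasing_by exact rank_nd_lt π.2

/-- the elements of `ω × ω` in the columns `< m` -/
noncomputable def Col (m : ZFSet.{0}) : ZFSet.{0} := ZFSet.prod m omega

/-- `z` is a subset of `ω × ω` which avoids the first `m` columns -/
def Avoid (m z : ZFSet.{0}) : Prop := z ⊆ Idx ∧ z ∩ Col m = ∅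

/-- `m` is a support of `σ` (in the sense of the ground model `M`) -/
def Supp (M : Set ZFSet.{0}) (m σ : ZFSet.{0}) : Prop :=
  m ∈ omega ∧ ∀ z ∈ M, Avoid m z → actN z σ = σ

/-- hereditarily symmetric names -/
def HS (M : Set ZFSet.{0}) (σ : ZFSet.{0}) : Prop :=
  (∀ t ∈ σ, ∃ π, ∃ p ∈ Cond, t = pair π p) ∧ (∃ m, Supp M m σ) ∧
    ∀ π, (h : π ∈ nd σ) → HS M π
termination_by rank σ
decreasing_by exact rank_nd_lt h

/-- the symmetric extension -/
def NN (M c : Set ZFSet.{0}) : Set ZFSet.{0} := {x | ∃ σ ∈ M, HS M σ ∧ x = val c σ}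

/-- the forcing relation of the symmetric extension -/
def Fc (M : Set ZFSet.{0}) : Fml → ZFSet.{0} → (ℕ → ZFSet.{0}) → Prop
  | .bot, _, _ => False
  | .eq i j, p, v => FEq p (v i) (v j)
  | .mem i j, p, v => FMem p (v i) (v j)
  | .imp φ ψ, p, v => ∀ q ∈ Cond, p ⊆ q → Fc M φ q v → Fc M ψ q v
  | .all φ, p, v => ∀ σ ∈ M, HS M σ → Fc M φ p (cons σ v)

end H83.AC
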