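import Pool.Agent.H83.AC.Defs

/-!
# More definitions
-/

namespace H83.AC

open ZFSet

/-! ### Tuples and satisfaction sets -/

/-- the tuple `(v 0, (v 1, (.., (v (n-1), ∅))))` -/
noncomputable def tup : ℕ → (ℕ → ZFSet.{0}) → ZFSet.{0}
  | 0, _ => ∅
  | n + 1, v => pair (v 0) (tup n (sh v))

/-- the set of `n`-tuples of elements of `X` -/
noncomputable def tups (X : ZFSet.{0}) : ℕ → ZFSet.{0}
  | 0 => {∅}
  | n + 1 => ZFSet.prod X (tups X n)

/-- the class of elements of a set -/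
abbrev cls (X : ZFSet.{0}) : Set ZFSet.{0} := {x | x ∈ X}

/-- the set of tuples satisfying `φ` in `(X, ∈)` -/
noncomputable def SatS (X : ZFSet.{0}) (φ : Fml) (n : ℕ) : ZFSet.{0} :=
  ZFSet.sep (fun t => ∃ v : ℕ → ZFSet, (∀ i, v i ∈ X) ∧ t = tup n v ∧ SatIn (cls X) φ v) (tups X n)

/-! ### Attempts for the constructible hierarchy -/

/-- `f` is a function with transitive domain satisfying the recursion of `Lh` -/
def LAtt (f : ZFSet.{0}) : Prop :=
  (∀ t ∈ f, t = pair (fst t) (snd t)) ∧ (∀ t ∈ f, ∀ s ∈ f, fst t = fst s → t = s) ∧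
  ∀ t ∈ f, (∀ y ∈ fst t, ∃ s ∈ f, fst s = y) ∧
    (∀ z ∈ snd t, ∃ s ∈ f, fst s ∈ fst t ∧ z ∈ Sx (snd s)) ∧
    (∀ s ∈ f, fst s ∈ fst t → Sx (snd s) ⊆ snd t)

/-- every element of `K` is an element of a value of an attempt which belongs to `K` -/
def PsiK (K : Set ZFSet.{0}) : Prop := ∀ z ∈ K, ∃ f ∈ K, LAtt f ∧ ∃ t ∈ f, z ∈ snd t

/-! ### Well-orders -/

/-- `w` is a strict well-order of the set `a` -/
def IsWO (w a : ZFSet.{0}) : Prop :=
  w ⊆ ZFSet.prod a a ∧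
  (∀ x ∈ a, ∀ y ∈ a, x = y ∨ pair x y ∈ w ∨ pair y x ∈ w) ∧
  (∀ x y z, pair x y ∈ w → pair y z ∈ w → pair x z ∈ w) ∧
  ∀ d, d ⊆ a → d ≠ ∅ → ∃ x ∈ d, ∀ y ∈ d, pair y x ∉ w

/-- the order on `U ∪ {U}` with `U` on top -/
noncomputable def wplus (U w : ZFSet.{0}) : ZFSet.{0} := w ∪ ZFSet.prod U {U}

/-- `t` and `t'` are triples `(i, (x, y))`; lexicographic order -/
def lexlt (W t t' : ZFSet.{0}) : Prop :=
  fst t ∈ fst t' ∨ (fst t = fst t' ∧ (pair (fst (snd t)) (fst (snd t')) ∈ W ∨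
    (fst (snd t) = fst (snd t') ∧ pair (snd (snd t)) (snd (snd t')) ∈ W)))

/-- the codes `(i, (x, y))` of `z` over `U` -/
noncomputable def codes (U z : ZFSet.{0}) : ZFSet.{0} :=
  ZFSet.sep (fun t => (∃ i < 10, fst t = nz i ∧ op i (fst (snd t)) (snd (snd t)) = z))
    (ZFSet.prod (nz 10) (ZFSet.prod (insert U U) (insert U U)))

/-- extension of the well-order `w` of `U` to `Sx U` -/
noncomputable def Wx (U w : ZFSet.{0}) : ZFSet.{0} :=
  w ∪ ZFSet.prod U (Sx U \ U) ∪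
  ZFSet.sep (fun t => fst t = U ∧ snd t ≠ U) (ZFSet.prod (Sx U \ U) (Sx U \ U)) ∪
  ZFSet.sep (fun t => fst t ≠ U ∧ snd t ≠ U ∧
      ∃ s ∈ codes U (fst t), ∀ s' ∈ codes U (snd t), lexlt (wplus U w) s s')
    (ZFSet.prod (Sx U \ U) (Sx U \ U))

/-- the well-order of the level `Lo α` -/
noncomputable def wo (α : Ordinal.{0}) : ZFSet.{0} :=
  ⋃ β : Set.Iio α, Wx (Lo β) (wo β)
termination_by α
decreasing_by exact β.2

/-- the well-order of `Lh x` -/
noncomputable def wh (x : ZFSet.{0}) : ZFSet.{0} := wo (rank x)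

/-! ### Ground models -/

/-- countable transitive models of `ZF + V = L` with a constructible level containing all their
real numbers -/
structure Ground (M : Set ZFSet.{0}) : Prop where
  tm : TM M
  ctbl : M.Countable
  vl : VL M
  lev : ∃ A ∈ M, IsTr (cls A) ∧ HF ∈ A ∧ PsiK (cls A) ∧ ∀ x ∈ M, x ⊆ HF → x ∈ A

/-! ### Check names, evaluation of names of real numbers -/

/-- the check name of `x` -/
noncomputable def chk (x : ZFSet.{0}) : ZFSet.{0} :=
  ZFSet.range (fun y : x => pair (chk y.1) ∅)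
termination_by rank x
decreasing_by exact rank_lt_of_mem y.2

/-- conditions whose literals are in the columns `< m` -/
noncomputable def CondC (m : ZFSet.{0}) : ZFSet.{0} :=
  ZFSet.sep (fun p => p ⊆ ZFSet.prod (Col m) {∅, one}) Cond

/-- evaluation: `h ∈ ev e c` iff `(p, h) ∈ e` for some condition `p` which fits `c` -/
noncomputable def ev (e : ZFSet.{0}) (c : Set ZFSet.{0}) : ZFSet.{0} :=
  ZFSet.sep (fun h => ∃ p ∈ Cond, Fits p c ∧ pair p h ∈ e) (rng e)

/-- the name of `ev e c` -/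
noncomputable def rn (e : ZFSet.{0}) : ZFSet.{0} := img (fun t => pair (chk (snd t)) (fst t)) e

/-! ### Real numbers, trees, projective sets -/

/-- `x` is a real number (an element of the Baire space) of `N` -/
def Real (N : Set ZFSet.{0}) (x : ZFSet.{0}) : Prop := x ∈ N ∧ IsFunc omega omega x

/-- `x` and `y` agree below `m` -/
def Agree (m x y : ZFSet.{0}) : Prop := ∀ i ∈ m, app x i = app y i

/-- `C` is a closed subset of `ℝ × ℝ` in the sense of `N` -/
def Closed2 (N : Set ZFSet.{0}) (C : ZFSet.{0}) : Prop :=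
  C ∈ N ∧ (∀ t ∈ C, ∃ x y, Real N x ∧ Real N y ∧ t = pair x y) ∧
  ∀ x y, Real N x → Real N y → pair x y ∉ C →
    ∃ m ∈ omega, ∀ x' y', Real N x' → Real N y' → Agree m x x' → Agree m y y' → pair x' y' ∉ C

/-- `C` is a closed subset of `ℝ × ℝ × ℝ` in the sense of `N` -/
def Closed3 (N : Set ZFSet.{0}) (C : ZFSet.{0}) : Prop :=
  C ∈ N ∧ (∀ t ∈ C, ∃ x y z, Real N x ∧ Real N y ∧ Real N z ∧ t = pair x (pair y z)) ∧
  ∀ x y z, Real N x → Real N y → Real N z → pair x (pair y z) ∉ C →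
    ∃ m ∈ omega, ∀ x' y' z', Real N x' → Real N y' → Real N z' →
      Agree m x x' → Agree m y y' → Agree m z z' → pair x' (pair y' z') ∉ C

/-- `A` is a `Π¹₁` set of reals in the sense of `N` -/
def PI1 (N : Set ZFSet.{0}) (A : ZFSet.{0}) : Prop :=
  (∀ x ∈ A, Real N x) ∧ ∃ C, Closed2 N C ∧ ∀ x, Real N x → (x ∈ A ↔ ∀ y, Real N y → pair x y ∉ C)

/-- `A` is a `Π¹₂` set of reals in the sense of `N` -/
def PI2 (N : Set ZFSet.{0}) (A : ZFSet.{0}) : Prop :=
  (∀ x ∈ A, Real N x) ∧ ∃ C, Closed3 N C ∧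
    ∀ x, Real N x → (x ∈ A ↔ ∀ y, Real N y → ∃ z, Real N z ∧ pair x (pair y z) ∈ C)

/-- countable choice in `N` for sets of reals in the class `Γ` -/
def ACw (N : Set ZFSet.{0}) (Γ : ZFSet.{0} → Prop) : Prop :=
  ∀ B ∈ N, (∀ k ∈ omega, Γ (app B k) ∧ app B k ≠ ∅) →
    ∃ f ∈ N, ∀ k ∈ omega, app f k ∈ app B k

/-- `w` is a finite sequence of natural numbers, compatible with `x` according to the tree `T` -/
def Node (T x w : ZFSet.{0}) : Prop :=
  ∃ n ∈ omega, IsFunc n omega w ∧ ∃ s, s ⊆ x ∧ IsFunc n omega s ∧ pair s w ∈ T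

/-- there is an infinite chain of nodes (in the real world) -/
def HBr (T x : ZFSet.{0}) : Prop :=
  ∃ w : ℕ → ZFSet.{0}, ∀ n, Node T x (w n) ∧ w n ⊆ w (n + 1) ∧ w n ≠ w (n + 1)

/-- `f` is (the graph of) a descending sequence of the relation `e` -/
def Desc (e f : ZFSet.{0}) : Prop :=
  ∀ n ∈ omega, pair (app f (insert n n)) (app f n) ∈ e

end H83.AC
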