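import Pool.Agent.H83.AC.Chk

/-!
# Module Rn: names of subsets of ground model sets

`mem_ev`: unfold. `val_rn`: `mem_val`, `val_chk` (`e ⊆ prod Cond H`). `HS_rn`: if
`e ⊆ prod (CondC m) H` then `actC z p = p` for `p ∈ CondC m` and `z` avoiding `m` (`actC_fix`), so
`m` is a support of `rn e`; the names in it are check names.
`ev_mem`: so `ev e c ∈ NN M c`.
-/

namespace H83.AC

open ZFSet

theorem mem_ev {e h : ZFSet.{0}} {c : Set ZFSet.{0}} :
    h ∈ ev e c ↔ ∃ p ∈ Cond, Fits p c ∧ pair p h ∈ e := by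
  rw [ev, mem_sep, mem_rng]
  exact ⟨fun h => h.2, fun h => ⟨by obtain ⟨p, -, -, hp⟩ := h; exact ⟨p, hp⟩, h⟩⟩

private theorem mem_rn {e H C t : ZFSet.{0}} (he : e ⊆ ZFSet.prod C H) :
    t ∈ rn e ↔ ∃ q h, q ∈ C ∧ h ∈ H ∧ pair q h ∈ e ∧ t = pair (chk h) q := by
  rw [rn, mem_img]
  constructor
  · rintro ⟨s, hs, rfl⟩
    obtain ⟨q, hq, h, hh, rfl⟩ := ZFSet.mem_prod.1 (he hs)
    exact ⟨q, h, hq, hh, hs, by rw [snd_pair, fst_pair]⟩
  · rintro ⟨q, h, -, -, hs, rfl⟩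
    exact ⟨pair q h, hs, by rw [snd_pair, fst_pair]⟩

theorem val_rn {e H : ZFSet.{0}} (he : e ⊆ ZFSet.prod Cond H) (c : Set ZFSet.{0}) :
    val c (rn e) = ev e c := by
  ext x
  rw [mem_val, mem_ev]
  constructor
  · rintro ⟨π, p, hp, hf, hπ, rfl⟩
    obtain ⟨q, h, hq, hh, hs, e1⟩ := (mem_rn he).1 hπ
    obtain ⟨rfl, rfl⟩ := pair_injective e1
    rw [val_chk]
    exact ⟨p, hp, hf, hs⟩
  · rintro ⟨p, hp, hf, hs⟩
    obtain ⟨q, hq, h, hh, e1⟩ := ZFSet.mem_prod.1 (he hs)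
    obtain ⟨rfl, rfl⟩ := pair_injective e1
    exact ⟨chk x, p, hp, hf, (mem_rn he).2 ⟨p, x, hp, hh, hs, rfl⟩, (val_chk c x).symm⟩

private theorem condC_cond {m p : ZFSet.{0}} (h : p ∈ CondC m) : p ∈ Cond := by
  rw [CondC, mem_sep] at h
  exact h.1

private theorem condC_fix {m z p : ZFSet.{0}} (h : p ∈ CondC m) (hA : Avoid m z) :
    actC z p = p := by
  refine actC_fix (condC_cond h) fun a ha => ?_
  have h0 := h
  rw [CondC, mem_sep] at h0
  have key : ∀ i, pair a i ∉ p := fun i hi => by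
    obtain ⟨b, hb, j, hj, e⟩ := ZFSet.mem_prod.1 (h0.2 hi)
    obtain ⟨rfl, rfl⟩ := pair_injective e
    have h2 := hA.2
    rw [ZFSet.eq_empty] at h2
    exact h2 a (ZFSet.mem_inter.2 ⟨ha, hb⟩)
  exact ⟨key _, key _⟩

theorem Supp_rn {M : Set ZFSet.{0}} {e m H : ZFSet.{0}} (hm : m ∈ omega)
    (he : e ⊆ ZFSet.prod (CondC m) H) : Supp M m (rn e) := by
  refine ⟨hm, fun z _ hA => ?_⟩
  ext t
  rw [mem_actN, mem_rn he]
  constructor
  · rintro ⟨π, p, hp, hπ, rfl⟩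
    obtain ⟨q, h, hq, hh, hs, e1⟩ := (mem_rn he).1 hπ
    obtain ⟨rfl, rfl⟩ := pair_injective e1
    exact ⟨p, h, hq, hh, hs, by rw [actN_chk, condC_fix hq hA]⟩
  · rintro ⟨q, h, hq, hh, hs, rfl⟩
    exact ⟨chk h, q, condC_cond hq, (mem_rn he).2 ⟨q, h, hq, hh, hs, rfl⟩,
      by rw [actN_chk, condC_fix hq hA]⟩

theorem HS_rn {M : Set ZFSet.{0}} {e m H : ZFSet.{0}} (hm : m ∈ omega)
    (he : e ⊆ ZFSet.prod (CondC m) H) : HS M (rn e) := by
  refine HS_iff.2 ⟨fun t ht => ?_, ⟨m, Supp_rn hm he⟩, fun π hπ => ?_⟩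
  · obtain ⟨q, h, hq, -, -, rfl⟩ := (mem_rn he).1 ht
    exact ⟨chk h, q, condC_cond hq, rfl⟩
  · obtain ⟨p, -, hp⟩ := mem_nd.1 hπ
    obtain ⟨q, h, -, -, -, e1⟩ := (mem_rn he).1 hp
    obtain ⟨rfl, rfl⟩ := pair_injective e1
    exact HS_chk M h

theorem UF.rn {f : Set ZFSet.{0} → (ℕ → ZFSet.{0}) → ZFSet.{0}} (hf : UF f) :
    UF (fun N v => H83.AC.rn (f N v)) := by
  refine UF.comp1 (F := fun _ x => H83.AC.rn x) ?_ hf
  show UF (fun N v => H83.AC.img (fun t => ZFSet.pair (H83.AC.chk (H83.AC.snd t))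
    (H83.AC.fst t)) (v 0))
  (repeat' first
      | apply UF.chk | assumption | exact UF.var _ | exact UD.true | exact UD.false
      | apply UF.empty | apply UF.fgr | apply UF.uni | apply UF.img | apply UF.pow | apply UF.sep
      | apply UF.pair | apply UF.upair | apply UF.singleton | apply UF.insert | apply UF.union
      | apply UF.inter | apply UF.diff | apply UF.prod | apply UF.sUnion | apply UF.app
      | apply UF.dom | apply UF.rng | apply UF.fst | apply UF.snd | apply UF.ite | apply UD.and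
      | apply UD.or | apply UR.ball | apply UR.bex | apply UD.allN | apply UD.exN | apply UD.iff
      | apply UR.mem | apply UR.eq | apply UR.sub | apply UD.not | apply UD.imp | exact UD.prop _)

theorem ev_mem {M c : Set ZFSet.{0}} (hM : TM M) {e m H : ZFSet.{0}} (hm : m ∈ omega)
    (heM : e ∈ M) (he : e ⊆ ZFSet.prod (CondC m) H) : ev e c ∈ NN M c := by
  refine ⟨rn e, (UF.rn (UF.var 0)).mem M hM (fun _ => e) (fun _ => heM), HS_rn hm he, ?_⟩
  have he' : e ⊆ ZFSet.prod Cond H := fun t ht => by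
    obtain ⟨q, hq, h, hh, rfl⟩ := ZFSet.mem_prod.1 (he ht)
    exact ZFSet.mem_prod.2 ⟨q, condC_cond hq, h, hh, rfl⟩
  exact (val_rn he' c).symm

instance Inst.rn {f : Set ZFSet.{0} → (ℕ → ZFSet.{0}) → ZFSet.{0}} [hf : UF f] :
    UF (fun N v => H83.AC.rn (f N v)) := UF.rn hf

end H83.AC
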