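import Pool.Agent.H83.AC.CondB
import Pool.Agent.H83.AC.Cd
import Pool.Agent.H83.AC.Rn

/-!
# Definitions for the choice half
-/

namespace H83.AC

open ZFSet

/-- successor `u ∪ {u}` -/
noncomputable def sc (u : ZFSet.{0}) : ZFSet.{0} := insert u u

instance Inst.sc {f : Set ZFSet.{0} → (ℕ → ZFSet.{0}) → ZFSet.{0}} [hf : UF f] :
    UF (fun N v => H83.AC.sc (f N v)) := UF.insert hf hf

/-- doubling: `dbl (nz n) = nz (2 * n)` -/
noncomputable def dbl (x : ZFSet.{0}) : ZFSet.{0} :=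
  ⋃₀ (ZFSet.range (fun y : x => sc (sc (dbl y.1))))
termination_by rank x
decreasing_by exact rank_lt_of_mem y.2

/-- the two index maps `(i, j) ↦ (i, 2j)` and `(i, j) ↦ (i, 2j + 1)` -/
noncomputable def k0 (a : ZFSet.{0}) : ZFSet.{0} := pair (fst a) (dbl (snd a))
noncomputable def k1 (a : ZFSet.{0}) : ZFSet.{0} := pair (fst a) (sc (dbl (snd a)))

/-! ### Pulling back along an index map -/

/-- injective definable index maps which preserve the columns -/
structure Emb (l : ZFSet.{0} → ZFSet.{0}) : Prop where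
  maps : ∀ a ∈ Idx, l a ∈ Idx
  col : ∀ a ∈ Idx, fst (l a) = fst a
  inj : ∀ a ∈ Idx, ∀ b ∈ Idx, l a = l b → a = b
  uf : UF (fun _ v => l (v 0))

/-- the pull-back of a class -/
def pb (l : ZFSet.{0} → ZFSet.{0}) (b : Set ZFSet.{0}) : Set ZFSet.{0} := {a | a ∈ Idx ∧ l a ∈ b}

/-- the image of a condition under the index map -/
noncomputable def lc (l : ZFSet.{0} → ZFSet.{0}) (p : ZFSet.{0}) : ZFSet.{0} :=
  img (fun t => pair (l (fst t)) (snd t)) p

/-- the pull-back of a condition -/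
noncomputable def lp (l : ZFSet.{0} → ZFSet.{0}) (p : ZFSet.{0}) : ZFSet.{0} :=
  ZFSet.sep (fun s => pair (l (fst s)) (snd s) ∈ p) (ZFSet.prod Idx {∅, one})

/-- the image of a name (a set of pairs (condition, value)) -/
noncomputable def ln (l : ZFSet.{0} → ZFSet.{0}) (e : ZFSet.{0}) : ZFSet.{0} :=
  img (fun t => pair (lc l (fst t)) (snd t)) e

open Classical in
/-- the index map which is `k0` on the first `m` columns and `k1` on the others -/
noncomputable def mx (m : ℕ) (a : ZFSet.{0}) : ZFSet.{0} := if a ∈ Col (nz m) then k0 a else k1 a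

/-! ### Pairs of sets -/

/-- the class `b` with `pb k0 b = c` and `pb k1 b = d` -/
def code (c d : Set ZFSet.{0}) : Set ZFSet.{0} := {b | (∃ a ∈ c, b = k0 a) ∨ ∃ a ∈ d, b = k1 a}

/-- the pair of two conditions -/
noncomputable def join (r s : ZFSet.{0}) : ZFSet.{0} := lc k0 r ∪ lc k1 s

/-- if `q` fits `code c z` then `t` fits `code c (sd c z)` -/
def TF (q t : ZFSet.{0}) : Prop := ∀ a ∈ Idx,
  (pair (k0 a) one ∈ t → pair (k0 a) one ∈ q) ∧
  (pair (k0 a) ∅ ∈ t → pair (k0 a) ∅ ∈ q) ∧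
  (pair (k1 a) one ∈ t → (pair (k0 a) one ∈ q ∧ pair (k1 a) ∅ ∈ q) ∨
    (pair (k0 a) ∅ ∈ q ∧ pair (k1 a) one ∈ q)) ∧
  (pair (k1 a) ∅ ∈ t → (pair (k0 a) one ∈ q ∧ pair (k1 a) one ∈ q) ∨
    (pair (k0 a) ∅ ∈ q ∧ pair (k1 a) ∅ ∈ q))

/-! ### Properties of the second Borel level -/

/-- for every `h ∈ HF` some fitting `p` has `(h, p) ∈ Pos`; no fitting condition is in `Neg` -/
def Qp (Pos Neg : ZFSet.{0}) (c : Set ZFSet.{0}) : Prop :=
  (∀ h ∈ HF, ∃ p ∈ Cond, Fits p c ∧ pair h p ∈ Pos) ∧ ∀ p ∈ Cond, Fits p c → p ∉ Neg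

/-- `q` forces the property -/
def FQ (Pos Neg q : ZFSet.{0}) : Prop :=
  (∀ h ∈ HF, ∀ r ∈ Cond, q ⊆ r → ∃ r' ∈ Cond, r ⊆ r' ∧ ∃ p ∈ Cond, p ⊆ r' ∧ pair h p ∈ Pos) ∧
  ∀ p ∈ Cond, p ∈ Neg → p ∪ q ∉ Cond

/-- `{(h, p)}` is a family of dense sets of conditions, indexed by the `h ∈ HF` -/
def Fam (D : ZFSet.{0}) : Prop := ∀ h ∈ HF, ∀ p ∈ Cond, ∃ q ∈ Cond, p ⊆ q ∧ pair h q ∈ D

/-- `c` meets all members of the family -/
def Meets (D : ZFSet.{0}) (c : Set ZFSet.{0}) : Prop := ∀ h ∈ HF, ∃ q ∈ Cond, Fits q c ∧ pair h q ∈ D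

/-- the part of `ev e c` decided by the condition `p` -/
noncomputable def evp (e p : ZFSet.{0}) : ZFSet.{0} :=
  ZFSet.sep (fun h => ∃ r ∈ Cond, r ⊆ p ∧ pair r h ∈ e) (rng e)

/-- the chain condition of the property `Node`: `w ⊂ w'` are nodes -/
def Up (w w' : ZFSet.{0}) : Prop := w ⊆ w' ∧ w ≠ w'

/-! ### The situation of the main argument -/

/-- `σ ∈ M` is a hereditarily symmetric name with support `nz m`, `k ∈ ω`, and `p` forces that
`ev ex` is an element of the set `A = app (val σ) k` and that `A` is the set of the real numbers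
`x` for which the tree `ev eT` has no branch over `x` -/
structure Star (M : Set ZFSet.{0}) (m n : ℕ) (σ k p ex eT : ZFSet.{0}) : Prop where
  σM : σ ∈ M
  σHS : HS M σ
  supp : Supp M (nz m) σ
  kω : k ∈ omega
  pC : p ∈ Cond
  exM : ex ∈ M
  eTM : eT ∈ M
  exS : ex ⊆ ZFSet.prod (CondC (nz n)) HF
  eTS : eT ⊆ ZFSet.prod (CondC (nz n)) HF
  mem : ∀ c, Gen M c → Fits p c → ev ex c ∈ app (val c σ) k
  fn : ∀ c, Gen M c → Fits p c → IsFunc omega omega (ev ex c)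
  char : ∀ c, Gen M c → Fits p c → ∀ x, Real (NN M c) x →
    (x ∈ app (val c σ) k ↔ ¬ HBr (ev eT c) x)

end H83.AC
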