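import Pool.Agent.H83.AC.Col
import Pool.Agent.H83.AC.LS

/-!
# Module Elem: being a model of ZF is preserved by elementary subclasses and isomorphisms

`isZF_of_elem`: `X` elementary in `K`, `K` a model of ZF. For every axiom write the formula: e.g.
pairing: for `x, y ∈ X`, `K` satisfies `∃ z ∀ w (w ∈ z ↔ w = x ∨ w = y)`, so does `X`. It is
convenient to define abbreviations `Fml.not`, `Fml.ex`, `Fml.iff`, `Fml.and`, `Fml.or` with
satisfaction lemmas (for `SatIn`). For separation with formula `φ`, parameters `v` and set `x`: the formula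
`∃ y ∀ z (z ∈ y ↔ z ∈ x ∧ φ(z, v))` with the variables renamed (`Fml.ren`; prove a version of
`sat_ren` for `SatIn` or use `sat_iff` and `sat_ren`). Replacement: the hypothesis (a statement
about all `z ∈ X`) is a first-order formula, so it holds in `K`; then the conclusion holds in `K` and
hence in `X`.
`isZF_of_iso`: transport along a bijection `π : X → M` with `x ∈ y ↔ π x ∈ π y` (`sat_iso` on the
subtypes; or prove a general statement `IsZF E → IsZF F` for a bijection of types).
-/

namespace H83.AC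

open ZFSet

namespace Elem

/-- negation -/
def neg (φ : Fml) : Fml := .imp φ .bot

/-- conjunction -/
def conj (φ ψ : Fml) : Fml := neg (.imp φ (neg ψ))

/-- disjunction -/
def disj (φ ψ : Fml) : Fml := .imp (neg φ) ψ

/-- equivalence -/
def equ (φ ψ : Fml) : Fml := conj (.imp φ ψ) (.imp ψ φ)

/-- existential quantifier -/
def exi (φ : Fml) : Fml := neg (.all (neg φ))

section

variable {M : Type*} (E : M → M → Prop) (v : ℕ → M)

theorem sat_neg (φ : Fml) : Sat E (neg φ) v ↔ ¬ Sat E φ v := Iff.rfl

theorem sat_conj (φ ψ : Fml) : Sat E (conj φ ψ) v ↔ Sat E φ v ∧ Sat E ψ v := by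
  simp only [conj, neg, Sat]; tauto

theorem sat_disj (φ ψ : Fml) : Sat E (disj φ ψ) v ↔ Sat E φ v ∨ Sat E ψ v := by
  simp only [disj, neg, Sat]; tauto

theorem sat_equ (φ ψ : Fml) : Sat E (equ φ ψ) v ↔ (Sat E φ v ↔ Sat E ψ v) := by
  simp only [equ, sat_conj, Sat]; tauto

theorem sat_exi (φ : Fml) : Sat E (exi φ) v ↔ ∃ x, Sat E φ (cons x v) := by
  simp only [exi, sat_neg, Sat]; push Not; rfl

theorem sat_imp (φ ψ : Fml) : Sat E (.imp φ ψ) v ↔ (Sat E φ v → Sat E ψ v) := Iff.rfl

theorem sat_all (φ : Fml) : Sat E (.all φ) v ↔ ∀ x, Sat E φ (cons x v) := Iff.rfl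

theorem sat_mem (i j : ℕ) : Sat E (.mem i j) v ↔ E (v i) (v j) := Iff.rfl

theorem sat_eq (i j : ℕ) : Sat E (.eq i j) v ↔ v i = v j := Iff.rfl

end

section

theorem key_sep (φ : Fml) {P : Type*} (R : P → P → Prop) (x : P) (v : ℕ → P) :
    Sat R (exi (.all (equ (.mem 0 1) (conj (.mem 0 2)
      (φ.ren (fun n => if n = 0 then 0 else n + 2)))))) (cons x v) ↔
    ∃ y, ∀ z, R z y ↔ R z x ∧ Sat R φ (cons z v) := by
  simp only [sat_exi, sat_all, sat_equ, sat_conj, sat_mem, sat_ren]
  refine exists_congr fun y => forall_congr' fun z => ?_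
  have e : (fun n => cons z (cons y (cons x v)) (if n = 0 then 0 else n + 2)) = cons z v := by
    funext n; rcases n with _ | n
    · rfl
    · simp
  rw [e]
  rfl

theorem key_rep (φ : Fml) {P : Type*} (R : P → P → Prop) (x : P) (v : ℕ → P) :
    Sat R (.imp (.all (.imp (.mem 0 1) (exi (conj
        (φ.ren (fun n => if n = 0 then 1 else if n = 1 then 0 else n + 1))
        (.all (.imp (φ.ren (fun n => if n = 0 then 2 else if n = 1 then 0 else n + 2))
          (.eq 0 1)))))))
      (exi (.all (equ (.mem 0 1) (exi (conj (.mem 0 3)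
        (φ.ren (fun n => if n = 0 then 0 else if n = 1 then 1 else n + 2)))))))) (cons x v) ↔
    ((∀ z, R z x → ∃! w, Sat R φ (cons z (cons w v))) →
      ∃ y, ∀ w, R w y ↔ ∃ z, R z x ∧ Sat R φ (cons z (cons w v))) := by
  simp only [sat_imp, sat_exi, sat_all, sat_equ, sat_conj, sat_mem, sat_ren, sat_eq]
  have e1 : ∀ z w, (fun n => cons w (cons z (cons x v))
      (if n = 0 then 1 else if n = 1 then 0 else n + 1)) = cons z (cons w v) := by
    intro z w
    funext n; rcases n with _ | _ | n
    · rfl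
    · rfl
    · simp
  have e2 : ∀ z w w', (fun n => cons w' (cons w (cons z (cons x v)))
      (if n = 0 then 2 else if n = 1 then 0 else n + 2)) = cons z (cons w' v) := by
    intro z w w'
    funext n; rcases n with _ | _ | n
    · rfl
    · rfl
    · simp
  have e3 : ∀ z w y, (fun n => cons z (cons w (cons y (cons x v)))
      (if n = 0 then 0 else if n = 1 then 1 else n + 2)) = cons z (cons w v) := by
    intro z w y
    funext n; rcases n with _ | _ | n
    · rfl
    · rfl
    · simp
  simp only [e1, e2, e3]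
  rfl

end

section

variable {M N : Type*} {E : M → M → Prop} {F : N → N → Prop} {i : N → M}

/-- being a model of ZF is inherited by elementary substructures -/
theorem isZF_elem [Nonempty N] (h : ∀ (φ : Fml) (v : ℕ → N), Sat F φ v ↔ Sat E φ (fun n => i (v n)))
    (hE : IsZF E) : IsZF F := by
  obtain ⟨a⟩ := ‹Nonempty N›
  have hc : ∀ (x : N) (v : ℕ → N), (fun n => i (cons x v n)) = cons (i x) (fun n => i (v n)) := by
    intro x v; funext n; cases n <;> rfl
  -- closed sentences
  have h0 : ∀ φ : Fml, Sat E φ (fun _ => i a) → Sat F φ (fun _ => a) := fun φ hφ => (h φ _).2 hφ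
  refine ⟨⟨a⟩, ?_, ?_, ?_, ?_, ?_, ?_, ?_, ?_⟩
  · -- extensionality
    have := h0 (.all (.all (.imp (.all (equ (.mem 0 2) (.mem 0 1))) (.eq 1 0)))) (by
      simp only [sat_all, sat_imp, sat_equ, sat_mem, sat_eq, cons]
      exact hE.extensionality)
    simpa only [sat_all, sat_imp, sat_equ, sat_mem, sat_eq, cons] using this
  · -- foundation
    have := h0 (.all (.imp (exi (.mem 0 1)) (exi (conj (.mem 0 1)
      (.all (.imp (.mem 0 1) (neg (.mem 0 2)))))))) (by
      simp only [sat_all, sat_imp, sat_exi, sat_conj, sat_neg, sat_mem, sat_eq, cons]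
      exact hE.foundation)
    simpa only [sat_all, sat_imp, sat_exi, sat_conj, sat_neg, sat_mem, sat_eq, cons] using this
  · -- pairing
    have := h0 (.all (.all (exi (.all (equ (.mem 0 1) (disj (.eq 0 3) (.eq 0 2))))))) (by
      simp only [sat_all, sat_imp, sat_exi, sat_equ, sat_disj, sat_neg, sat_mem, sat_eq, cons]
      exact hE.pairing)
    simpa only [sat_all, sat_imp, sat_exi, sat_equ, sat_disj, sat_neg, sat_mem, sat_eq, cons]
      using this
  · -- union
    have := h0 (.all (exi (.all (equ (.mem 0 1) (exi (conj (.mem 0 3) (.mem 1 0))))))) (by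
      simp only [sat_all, sat_imp, sat_exi, sat_equ, sat_conj, sat_neg, sat_mem, sat_eq, cons]
      exact hE.union)
    simpa only [sat_all, sat_imp, sat_exi, sat_equ, sat_conj, sat_neg, sat_mem, sat_eq, cons]
      using this
  · -- power set
    have := h0 (.all (exi (.all (equ (.mem 0 1) (.all (.imp (.mem 0 1) (.mem 0 3))))))) (by
      simp only [sat_all, sat_imp, sat_exi, sat_equ, sat_conj, sat_neg, sat_mem, sat_eq, cons]
      exact hE.powerset)
    simpa only [sat_all, sat_imp, sat_exi, sat_equ, sat_conj, sat_neg, sat_mem, sat_eq, cons]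
      using this
  · -- infinity
    have := h0 (exi (conj (exi (conj (.mem 0 1) (.all (neg (.mem 0 1)))))
      (.all (.imp (.mem 0 1) (exi (conj (.mem 0 2)
        (.all (equ (.mem 0 1) (disj (.mem 0 2) (.eq 0 2)))))))))) (by
      simp only [sat_all, sat_imp, sat_exi, sat_equ, sat_conj, sat_disj, sat_neg, sat_mem, sat_eq,
        cons]
      exact hE.infinity)
    simpa only [sat_all, sat_imp, sat_exi, sat_equ, sat_conj, sat_disj, sat_neg, sat_mem, sat_eq,
      cons] using this
  · -- separation
    intro φ v x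
    have h1 := (key_sep φ E (i x) (fun n => i (v n))).2 (hE.separation φ _ _)
    rw [← hc] at h1
    exact (key_sep φ F x v).1 ((h _ _).2 h1)
  · -- replacement
    intro φ v x
    have h1 := (key_rep φ E (i x) (fun n => i (v n))).2 (hE.replacement φ _ _)
    rw [← hc] at h1
    exact (key_rep φ F x v).1 ((h _ _).2 h1)

end

end Elem

theorem isZF_of_elem {X K : Set ZFSet.{0}} (hne : X.Nonempty) (hX : X ⊆ K)
    (hK : IsZF (memN K))
    (h : ∀ (φ : Fml) (v : ℕ → ZFSet.{0}), (∀ i, v i ∈ X) → (SatIn X φ v ↔ SatIn K φ v)) :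
    IsZF (memN X) := by
  have : Nonempty X := hne.to_subtype
  refine Elem.isZF_elem (i := fun x : X => (⟨x, hX x.2⟩ : K)) (fun φ v => ?_) hK
  rw [sat_iff, sat_iff]
  exact h φ _ fun n => (v n).2

theorem isZF_of_iso {X M : Set ZFSet.{0}} {π : ZFSet.{0} → ZFSet.{0}} (hb : Set.BijOn π X M)
    (he : ∀ x ∈ X, ∀ y ∈ X, x ∈ y ↔ π x ∈ π y) (h : IsZF (memN X)) : IsZF (memN M) := by
  let f : X → M := fun x => ⟨π x, hb.mapsTo x.2⟩
  have hf : Function.Bijective f := by
    constructor
    · intro x y e
      exact Subtype.ext (hb.injOn x.2 y.2 (congrArg Subtype.val e))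
    · rintro ⟨y, hy⟩
      obtain ⟨x, hx, rfl⟩ := hb.surjOn hy
      exact ⟨⟨x, hx⟩, rfl⟩
  let g : X ≃ M := Equiv.ofBijective f hf
  have : Nonempty M := ⟨g h.nonempty.some⟩
  refine Elem.isZF_elem (i := g.symm) (fun φ v => ?_) h
  rw [sat_iso (memN X) (memN M) f hf (fun x y => he x x.2 y y.2) φ (fun n => g.symm (v n))]
  have : (fun n => f (g.symm (v n))) = v := by
    funext n; exact g.apply_symm_apply (v n)
  rw [this]

end H83.AC
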