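import Pool.Agent.H83.AC.Dbl

/-!
# Module EmbL: pulling back along an index map

`lc_fits`: a literal `pair a i ∈ p` corresponds to `pair (l a) i ∈ lc l p`.
`gen_pb`: if `D ∈ M` is dense then `{q ∈ Cond : ∃ p ∈ D, lc l p ⊆ q}` is dense and in `M`
(`UF`-definability of `lc l`: `UF.lc`): given `q ∈ Cond`, `lp l q ∈ Cond`, choose `p ∈ D` with
`lp l q ⊆ p`; then `lc l p ∪ q ∈ Cond` (`union_cond`: if `pair (l a) i ∈ lc l p` and the opposite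
literal is in `q` then the opposite literal at `a` is in `lp l q ⊆ p`).
`ev_ln`: `mem_ev`, `fits_lc`.
-/

namespace H83.AC

open ZFSet

variable {l : ZFSet.{0} → ZFSet.{0}}

theorem UF.lc (hl : Emb l) {f : Set ZFSet.{0} → (ℕ → ZFSet.{0}) → ZFSet.{0}} (hf : UF f) :
    UF (fun N v => H83.AC.lc l (f N v)) := by
  unfold H83.AC.lc
  refine UF.img hf ?_
  refine UF.pair ?_ (UF.snd (UF.var 0))
  exact UF.comp1 (F := fun _ x => l x) hl.uf (UF.fst (UF.var 0))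

theorem UF.lp (hl : Emb l) {f : Set ZFSet.{0} → (ℕ → ZFSet.{0}) → ZFSet.{0}} (hf : UF f) :
    UF (fun N v => H83.AC.lp l (f N v)) := by
  unfold H83.AC.lp
  have h1 : UF (fun _ _ => (H83.AC.one : ZFSet.{0})) := UF.one
  refine UF.sep (UF.prod UF.Idx (UF.upair UF.empty h1)) ?_
  refine UR.mem (UF.pair ?_ (UF.snd (UF.var 0))) hf.shift
  exact UF.comp1 (F := fun _ x => l x) hl.uf (UF.fst (UF.var 0))

theorem UF.ln (hl : Emb l) {f : Set ZFSet.{0} → (ℕ → ZFSet.{0}) → ZFSet.{0}} (hf : UF f) :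
    UF (fun N v => H83.AC.ln l (f N v)) := by
  unfold H83.AC.ln
  refine UF.img hf ?_
  exact UF.pair (UF.lc hl (UF.fst (UF.var 0))) (UF.snd (UF.var 0))

private theorem mem_lc0 {p t : ZFSet.{0}} (hp : p ∈ Cond) : t ∈ lc l p ↔
    ∃ a ∈ Idx, ∃ i, (i = ∅ ∨ i = one) ∧ pair a i ∈ p ∧ t = pair (l a) i := by
  rw [lc, mem_img]
  constructor
  · rintro ⟨y, hy, rfl⟩
    obtain ⟨a, ha, h | h⟩ := cond_lit hp hy
    · exact ⟨a, ha, one, Or.inr rfl, h ▸ hy, by rw [h, fst_pair, snd_pair]⟩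
    · exact ⟨a, ha, ∅, Or.inl rfl, h ▸ hy, by rw [h, fst_pair, snd_pair]⟩
  · rintro ⟨a, ha, i, hi, hp', rfl⟩
    exact ⟨_, hp', by rw [fst_pair, snd_pair]⟩

theorem mem_lc (hl : Emb l) {p a i : ZFSet.{0}} (hp : p ∈ Cond) (ha : a ∈ Idx) :
    pair (l a) i ∈ lc l p ↔ pair a i ∈ p := by
  rw [mem_lc0 hp]
  constructor
  · rintro ⟨b, hb, j, hj, hp', h⟩
    obtain ⟨h1, rfl⟩ := pair_inj.1 h
    rw [hl.inj a ha b hb h1]
    exact hp'
  · intro h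
    obtain ⟨b, hb, h1 | h1⟩ := cond_lit hp h
    · obtain ⟨rfl, rfl⟩ := pair_inj.1 h1
      exact ⟨a, ha, one, Or.inr rfl, h, rfl⟩
    · obtain ⟨rfl, rfl⟩ := pair_inj.1 h1
      exact ⟨a, ha, ∅, Or.inl rfl, h, rfl⟩

theorem lc_cond (hl : Emb l) {p : ZFSet.{0}} (hp : p ∈ Cond) : lc l p ∈ Cond := by
  rw [mem_cond]
  refine ⟨?_, ?_, ?_⟩
  · refine HF_img (cond_HF hp) fun t ht => ?_
    obtain ⟨a, ha, h | h⟩ := cond_lit hp ht
    · rw [h, fst_pair, snd_pair]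
      have h1 := hl.maps a ha
      obtain ⟨i, j, h2⟩ := mem_Idx.1 h1
      rw [h2]
      exact HF_pair (HF_pair (HF_nz i) (HF_nz j)) (HF_nz 1)
    · rw [h, fst_pair, snd_pair]
      have h1 := hl.maps a ha
      obtain ⟨i, j, h2⟩ := mem_Idx.1 h1
      rw [h2]
      exact HF_pair (HF_pair (HF_nz i) (HF_nz j)) HF_empty
  · intro t ht
    obtain ⟨a, ha, i, hi, -, rfl⟩ := (mem_lc0 hp).1 ht
    refine ⟨l a, hl.maps a ha, ?_⟩
    rcases hi with rfl | rfl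
    · exact Or.inr rfl
    · exact Or.inl rfl
  · rintro b ⟨h1, h2⟩
    obtain ⟨a, ha, i, -, h3, h4⟩ := (mem_lc0 hp).1 h1
    obtain ⟨a', ha', i', -, h5, h6⟩ := (mem_lc0 hp).1 h2
    obtain ⟨rfl, rfl⟩ := pair_inj.1 h4
    obtain ⟨h7, rfl⟩ := pair_inj.1 h6
    rw [← hl.inj a ha a' ha' h7] at h5
    exact (mem_cond.1 hp).2.2 a ⟨h3, h5⟩

theorem mem_lp {p a i : ZFSet.{0}} : pair a i ∈ lp l p ↔
    a ∈ Idx ∧ (i = ∅ ∨ i = one) ∧ pair (l a) i ∈ p := by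
  rw [lp, mem_sep, pair_mem_prod, fst_pair, snd_pair]
  simp only [mem_insert_iff, mem_singleton, and_assoc]

private theorem lp_elt {p t : ZFSet.{0}} (ht : t ∈ lp l p) : ∃ a ∈ Idx, ∃ i,
    (i = ∅ ∨ i = one) ∧ pair (l a) i ∈ p ∧ t = pair a i := by
  have h := ht
  rw [lp, mem_sep, mem_prod] at h
  obtain ⟨⟨a, ha, i, hi, rfl⟩, -⟩ := h
  exact ⟨a, ha, i, (mem_lp.1 ht).2.1, (mem_lp.1 ht).2.2, rfl⟩

theorem lp_cond (hl : Emb l) {p : ZFSet.{0}} (hp : p ∈ Cond) : lp l p ∈ Cond := by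
  rw [mem_cond]
  refine ⟨?_, ?_, ?_⟩
  · have hsub : lp l p ⊆ HF := by
      intro t ht
      obtain ⟨a, ha, i, hi, -, rfl⟩ := lp_elt ht
      obtain ⟨i', j, h2⟩ := mem_Idx.1 ha
      rw [h2]
      refine HF_pair (HF_pair (HF_nz i') (HF_nz j)) ?_
      rcases hi with rfl | rfl
      · exact HF_empty
      · exact HF_nz 1
    refine HF_of_finite hsub ?_
    have hfin := HF_finite (cond_HF hp)
    refine Set.Finite.of_finite_image (f := fun t => pair (l (fst t)) (snd t))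
      (hfin.subset ?_) ?_
    · rintro _ ⟨t, ht, rfl⟩
      obtain ⟨a, ha, i, hi, h, rfl⟩ := lp_elt ht
      show pair (l (fst (pair a i))) (snd (pair a i)) ∈ p
      rw [fst_pair, snd_pair]
      exact h
    · intro t ht s hs h
      obtain ⟨a, ha, i, hi, -, rfl⟩ := lp_elt ht
      obtain ⟨a', ha', i', hi', -, rfl⟩ := lp_elt hs
      simp only [fst_pair, snd_pair] at h
      obtain ⟨h1, rfl⟩ := pair_inj.1 h
      rw [hl.inj a ha a' ha' h1]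
  · intro t ht
    obtain ⟨a, ha, i, hi, -, rfl⟩ := lp_elt ht
    refine ⟨a, ha, ?_⟩
    rcases hi with rfl | rfl
    · exact Or.inr rfl
    · exact Or.inl rfl
  · rintro a ⟨h1, h2⟩
    exact (mem_cond.1 hp).2.2 (l a) ⟨(mem_lp.1 h1).2.2, (mem_lp.1 h2).2.2⟩

theorem fits_lc (hl : Emb l) {p : ZFSet.{0}} {b : Set ZFSet.{0}} (hp : p ∈ Cond) :
    Fits (lc l p) b ↔ Fits p (pb l b) := by
  constructor
  · intro h a
    constructor
    · intro ha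
      obtain ⟨a', ha', h1 | h1⟩ := cond_lit hp ha
      · obtain ⟨rfl, -⟩ := pair_inj.1 h1
        exact ⟨ha', (h (l a)).1 ((mem_lc hl hp ha').2 ha)⟩
      · exact absurd (pair_inj.1 h1).2 one_ne_empty
    · rintro ha ⟨h1, h2⟩
      exact (h (l a)).2 ((mem_lc hl hp h1).2 ha) h2
  · intro h u
    constructor
    · intro hu
      obtain ⟨a, ha, i, hi, h3, h4⟩ := (mem_lc0 hp).1 hu
      obtain ⟨rfl, rfl⟩ := pair_inj.1 h4
      exact ((h a).1 h3).2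
    · intro hu hb
      obtain ⟨a, ha, i, hi, h3, h4⟩ := (mem_lc0 hp).1 hu
      obtain ⟨rfl, rfl⟩ := pair_inj.1 h4
      exact (h a).2 h3 ⟨ha, hb⟩

theorem fits_lp (hl : Emb l) {p : ZFSet.{0}} {b : Set ZFSet.{0}} (h : Fits p b) :
    Fits (lp l p) (pb l b) := by
  intro a
  constructor
  · intro ha
    obtain ⟨h1, -, h2⟩ := mem_lp.1 ha
    exact ⟨h1, (h (l a)).1 h2⟩
  · rintro ha ⟨-, h3⟩
    obtain ⟨h1, -, h2⟩ := mem_lp.1 ha
    exact (h (l a)).2 h2 h3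

theorem gen_pb {M b : Set ZFSet.{0}} (hM : TM M) (hl : Emb l) (hb : Gen M b) : Gen M (pb l b) := by
  refine ⟨fun a ha => ha.1, fun D hD hdense => ?_⟩
  let D' := ZFSet.sep (fun q => ∃ p ∈ D, lc l p ⊆ q) Cond
  have hD' : D' ∈ M := by
    haveI : UF (fun _ v => lc l (v 0)) := UF.lc hl (UF.var 0)
    exact (UF.sep (R := fun _ q w => ∃ p ∈ w 0, lc l p ⊆ q) UF.Cond
      (UR.bex (R := fun _ p w => lc l p ⊆ w 0) (UF.var 1)
        (UR.sub this (UF.var 1)))).mem M hM (fun _ => D) (fun _ => hD)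
  have hdense' : Dense D' := by
    refine ⟨fun q hq => (mem_sep.1 hq).1, fun q hq => ?_⟩
    obtain ⟨p, hpD, hp⟩ := hdense.2 _ (lp_cond hl hq)
    have hpC : p ∈ Cond := hdense.1 hpD
    have hu : lc l p ∪ q ∈ Cond := by
      refine union_cond (lc_cond hl hpC) hq fun u => ⟨?_, ?_⟩
      · rintro ⟨h1, h2⟩
        obtain ⟨a, ha, i, hi, h3, h4⟩ := (mem_lc0 hpC).1 h1
        obtain ⟨rfl, rfl⟩ := pair_inj.1 h4
        exact (mem_cond.1 hpC).2.2 a ⟨h3, hp (mem_lp.2 ⟨ha, Or.inr rfl, h2⟩)⟩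
      · rintro ⟨h1, h2⟩
        obtain ⟨a, ha, i, hi, h3, h4⟩ := (mem_lc0 hpC).1 h1
        obtain ⟨rfl, rfl⟩ := pair_inj.1 h4
        exact (mem_cond.1 hpC).2.2 a ⟨hp (mem_lp.2 ⟨ha, Or.inl rfl, h2⟩), h3⟩
    exact ⟨_, mem_sep.2 ⟨hu, p, hpD, fun x hx => mem_union.2 (Or.inl hx)⟩,
      fun x hx => mem_union.2 (Or.inr hx)⟩
  obtain ⟨q, hq, hfit⟩ := hb.2 D' hD' hdense'
  obtain ⟨-, p, hpD, hp⟩ := mem_sep.1 hq
  exact ⟨p, hpD, (fits_lc hl (hdense.1 hpD)).1 (fits_sub hfit hp)⟩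

theorem ev_ln (hl : Emb l) {e H : ZFSet.{0}} (he : e ⊆ ZFSet.prod Cond H) (b : Set ZFSet.{0}) :
    ev (ln l e) b = ev e (pb l b) := by
  ext h
  rw [mem_ev, mem_ev]
  constructor
  · rintro ⟨p, hp, hfit, hmem⟩
    rw [ln, mem_img] at hmem
    obtain ⟨t, ht, h1⟩ := hmem
    obtain ⟨q, hq, h', -, rfl⟩ := mem_prod.1 (he ht)
    rw [fst_pair, snd_pair] at h1
    obtain ⟨rfl, rfl⟩ := pair_inj.1 h1
    exact ⟨q, hq, (fits_lc hl hq).1 hfit, ht⟩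
  · rintro ⟨q, hq, hfit, hmem⟩
    refine ⟨lc l q, lc_cond hl hq, (fits_lc hl hq).2 hfit, ?_⟩
    rw [ln, mem_img]
    exact ⟨_, hmem, by rw [fst_pair, snd_pair]⟩

theorem ln_sub (hl : Emb l) {n : ℕ} {e H : ZFSet.{0}} (he : e ⊆ ZFSet.prod (CondC (nz n)) H) :
    ln l e ⊆ ZFSet.prod (CondC (nz n)) H := by
  intro t ht
  rw [ln, mem_img] at ht
  obtain ⟨s, hs, rfl⟩ := ht
  obtain ⟨q, hq, h, hh, rfl⟩ := mem_prod.1 (he hs)
  rw [fst_pair, snd_pair, pair_mem_prod]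
  refine ⟨?_, hh⟩
  have hqC : q ∈ Cond := by
    rw [CondC, mem_sep] at hq
    exact hq.1
  rw [CondC, mem_sep]
  refine ⟨lc_cond hl hqC, fun u hu => ?_⟩
  obtain ⟨a, ha, i, hi, h3, rfl⟩ := (mem_lc0 hqC).1 hu
  have h4 := (mem_sep.1 (show q ∈ ZFSet.sep (fun p => p ⊆ ZFSet.prod (Col (nz n)) {∅, one}) Cond
    from hq)).2 h3
  rw [pair_mem_prod] at h4 ⊢
  refine ⟨?_, h4.2⟩
  have h5 := hl.maps a ha
  obtain ⟨i', j', h6⟩ := mem_Idx.1 h5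
  have h7 := hl.col a ha
  rw [h6, fst_pair] at h7
  obtain ⟨i₂, j₂, rfl⟩ := mem_Idx.1 ha
  rw [fst_pair] at h7
  rw [h6, h7]
  rw [mem_Col_nz] at h4 ⊢
  exact h4.1

end H83.AC
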