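import Pool.Agent.H83.AC.Fml

/-!
# The definability engine

`TM N`: `N` is a transitive class (possibly a set) of `ZFSet`s which is a model of ZF.
`UD C R`: the relation `R N v` (`v` a stream of elements of `N`) is defined by one formula,
uniformly for all transitive classes `N` in the family `C`.
`UF f`: the function `f N v` maps into `N` and its graph is uniformly definable, for `TM N`.
-/

namespace H83.AC

/-- transitive class -/
def IsTr (N : Set ZFSet.{0}) : Prop := ∀ x ∈ N, ∀ y ∈ x, y ∈ N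

/-- membership on `N` -/
def memN (N : Set ZFSet.{0}) : N → N → Prop := fun x y => (x : ZFSet) ∈ (y : ZFSet)

/-- transitive model of ZF -/
structure TM (N : Set ZFSet.{0}) : Prop where
  tr : IsTr N
  zf : IsZF (memN N)

/-- families of transitive classes -/
class Cls (C : Set ZFSet.{0} → Prop) : Prop where
  tr : ∀ N, C N → IsTr N

instance : Cls IsTr := ⟨fun _ h => h⟩
instance : Cls TM := ⟨fun _ h => h.tr⟩

/-- uniform definability over the classes in the family `C` -/
class UD (C : Set ZFSet.{0} → Prop) (R : Set ZFSet.{0} → (ℕ → ZFSet.{0}) → Prop) : Prop where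
  out : ∃ φ : Fml, ∀ N, C N → ∀ v : ℕ → N, (R N (fun n => (v n : ZFSet)) ↔ Sat (memN N) φ v)

/-- uniform definability over transitive models of ZF -/
abbrev UR (R : Set ZFSet.{0} → (ℕ → ZFSet.{0}) → Prop) : Prop := UD TM R

/-- absolute definability for all transitive classes -/
abbrev D0 (R : (ℕ → ZFSet.{0}) → Prop) : Prop := UD IsTr (fun _ v => R v)

variable {C : Set ZFSet.{0} → Prop}

namespace UD

theorem toUR {R : Set ZFSet.{0} → (ℕ → ZFSet.{0}) → Prop} (h : UD IsTr R) : UR R := by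
  obtain ⟨⟨φ, hφ⟩⟩ := h
  exact ⟨⟨φ, fun N hN v => hφ N hN.tr v⟩⟩

theorem congr {R S : Set ZFSet.{0} → (ℕ → ZFSet.{0}) → Prop} (h : UD C S)
    (e : ∀ N, C N → ∀ v : ℕ → ZFSet, (∀ n, v n ∈ N) → (R N v ↔ S N v)) : UD C R := by
  obtain ⟨⟨φ, hφ⟩⟩ := h
  exact ⟨⟨φ, fun N hN v => (e N hN _ fun n => (v n).2).trans (hφ N hN v)⟩⟩

theorem false : UD C (fun _ _ => False) := ⟨⟨.bot, fun _ _ _ => Iff.rfl⟩⟩

theorem mem (i j : ℕ) : UD C (fun _ v => v i ∈ v j) := ⟨⟨.mem i j, fun _ _ _ => Iff.rfl⟩⟩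

theorem eq (i j : ℕ) : UD C (fun _ v => v i = v j) :=
  ⟨⟨.eq i j, fun _ _ _ => Subtype.ext_iff.symm⟩⟩

theorem imp {R S : Set ZFSet.{0} → (ℕ → ZFSet.{0}) → Prop} (h : UD C R) (h' : UD C S) :
    UD C (fun N v => R N v → S N v) := by
  obtain ⟨⟨φ, hφ⟩⟩ := h
  obtain ⟨⟨ψ, hψ⟩⟩ := h'
  exact ⟨⟨.imp φ ψ, fun N hN v => by simp only [Sat, hφ N hN, hψ N hN]⟩⟩

theorem not {R : Set ZFSet.{0} → (ℕ → ZFSet.{0}) → Prop} (h : UD C R) :
    UD C (fun N v => ¬ R N v) := h.imp false

theorem true : UD C (fun _ _ => True) := (false (C := C)).not.congr (by simp)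

theorem and {R S : Set ZFSet.{0} → (ℕ → ZFSet.{0}) → Prop} (h : UD C R) (h' : UD C S) :
    UD C (fun N v => R N v ∧ S N v) :=
  (h.imp h'.not).not.congr fun N _ v _ => by tauto

theorem or {R S : Set ZFSet.{0} → (ℕ → ZFSet.{0}) → Prop} (h : UD C R) (h' : UD C S) :
    UD C (fun N v => R N v ∨ S N v) :=
  (h.not.imp h').congr fun N _ v _ => by tauto

theorem iff {R S : Set ZFSet.{0} → (ℕ → ZFSet.{0}) → Prop} (h : UD C R) (h' : UD C S) :
    UD C (fun N v => R N v ↔ S N v) :=
  ((h.imp h').and (h'.imp h)).congr fun N _ v _ => by tauto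

/-- renaming of the variables -/
theorem ren {R : Set ZFSet.{0} → (ℕ → ZFSet.{0}) → Prop} (h : UD C R) (ρ : ℕ → ℕ) :
    UD C (fun N v => R N (fun n => v (ρ n))) := by
  obtain ⟨⟨φ, hφ⟩⟩ := h
  exact ⟨⟨φ.ren ρ, fun N hN v => by rw [sat_ren]; exact hφ N hN _⟩⟩

/-- a fixed proposition -/
theorem prop (p : Prop) : UD C (fun _ _ => p) := by
  by_cases h : p
  · exact true.congr (by simp [h])
  · exact false.congr (by simp [h])

/-- quantification over the class -/
theorem allN {R : Set ZFSet.{0} → ZFSet.{0} → (ℕ → ZFSet.{0}) → Prop}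
    (h : UD C (fun N v => R N (v 0) (sh v))) : UD C (fun N v => ∀ x ∈ N, R N x v) := by
  obtain ⟨⟨φ, hφ⟩⟩ := h
  refine ⟨⟨.all φ, fun N hN v => ?_⟩⟩
  constructor
  · intro H x
    exact (hφ N hN (cons x v)).1 (H x x.2)
  · intro H x hx
    exact (hφ N hN (cons ⟨x, hx⟩ v)).2 (H ⟨x, hx⟩)

theorem exN {R : Set ZFSet.{0} → ZFSet.{0} → (ℕ → ZFSet.{0}) → Prop}
    (h : UD C (fun N v => R N (v 0) (sh v))) : UD C (fun N v => ∃ x ∈ N, R N x v) :=
  (allN (R := fun N x v => ¬ R N x v) h.not).not.congr fun N _ v _ => by push Not; rfl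

/-- bounded quantification, the bound being a variable -/
theorem ball' [Cls C] {R : Set ZFSet.{0} → ZFSet.{0} → (ℕ → ZFSet.{0}) → Prop} (i : ℕ)
    (h : UD C (fun N v => R N (v 0) (sh v))) : UD C (fun N v => ∀ x ∈ v i, R N x v) := by
  have : UD C (fun N v => v 0 ∈ v (i + 1) → R N (v 0) (sh v)) := (mem 0 (i + 1)).imp h
  refine (allN (R := fun N x v => x ∈ v i → R N x v) this).congr fun N hN v hv => ?_
  constructor
  · intro H x _ hx
    exact H x hx
  · intro H x hx
    exact H x (Cls.tr N hN _ (hv i) x hx) hx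

theorem bex' [Cls C] {R : Set ZFSet.{0} → ZFSet.{0} → (ℕ → ZFSet.{0}) → Prop} (i : ℕ)
    (h : UD C (fun N v => R N (v 0) (sh v))) : UD C (fun N v => ∃ x ∈ v i, R N x v) :=
  (ball' (R := fun N x v => ¬ R N x v) i h.not).not.congr fun N _ v _ => by push Not; rfl

end UD

/-- uniformly definable functions (over transitive models of ZF) -/
class UF (f : Set ZFSet.{0} → (ℕ → ZFSet.{0}) → ZFSet.{0}) : Prop where
  mem : ∀ N, TM N → ∀ v : ℕ → ZFSet, (∀ n, v n ∈ N) → f N v ∈ N
  rel : UR (fun N v => v 0 = f N (sh v))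

namespace UF

theorem var (i : ℕ) : UF (fun _ v => v i) := ⟨fun _ _ _ hv => hv i, UD.eq 0 (i + 1)⟩

theorem congr {f g : Set ZFSet.{0} → (ℕ → ZFSet.{0}) → ZFSet.{0}} (h : UF g)
    (e : ∀ N, TM N → ∀ v : ℕ → ZFSet, (∀ n, v n ∈ N) → f N v = g N v) : UF f := by
  refine ⟨fun N hN v hv => ?_, h.rel.congr fun N hN v hv => ?_⟩
  · rw [e N hN v hv]; exact h.mem N hN v hv
  · rw [e N hN (sh v) fun n => hv (n + 1)]

end UF

/-- substitution of a definable function for the variable `0` -/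
theorem UD.subst {R : Set ZFSet.{0} → ZFSet.{0} → (ℕ → ZFSet.{0}) → Prop}
    (h : UR (fun N v => R N (v 0) (sh v))) {f : Set ZFSet.{0} → (ℕ → ZFSet.{0}) → ZFSet.{0}}
    (hf : UF f) : UR (fun N v => R N (f N v) v) := by
  have : UR (fun N v => ∃ x ∈ N, x = f N v ∧ R N x v) :=
    UD.exN (R := fun N x v => x = f N v ∧ R N x v) (hf.rel.and h)
  refine this.congr fun N hN v hv => ?_
  constructor
  · intro H; exact ⟨_, hf.mem N hN v hv, rfl, H⟩
  · rintro ⟨x, -, rfl, H⟩; exact H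

section comp

variable {f g h k l m : Set ZFSet.{0} → (ℕ → ZFSet.{0}) → ZFSet.{0}}

theorem UF.shift (hf : UF f) : UF (fun N v => f N (sh v)) := by
  refine ⟨fun N hN v hv => hf.mem N hN _ fun n => hv (n + 1), ?_⟩
  refine (hf.rel.ren (lift Nat.succ)).congr fun N _ v _ => ?_
  exact Iff.rfl

theorem UF.ren (hf : UF f) (ρ : ℕ → ℕ) : UF (fun N v => f N (fun n => v (ρ n))) := by
  refine ⟨fun N hN v hv => hf.mem N hN _ fun n => hv (ρ n), ?_⟩
  refine (hf.rel.ren (lift ρ)).congr fun N _ v _ => ?_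
  exact Iff.rfl

theorem UR.comp1 {R : Set ZFSet.{0} → ZFSet.{0} → Prop} (hR : UR (fun N v => R N (v 0)))
    (hf : UF f) : UR (fun N v => R N (f N v)) :=
  UD.subst (R := fun N x _ => R N x) hR hf

theorem UR.comp2 {R : Set ZFSet.{0} → ZFSet.{0} → ZFSet.{0} → Prop}
    (hR : UR (fun N v => R N (v 0) (v 1))) (hf : UF f) (hg : UF g) :
    UR (fun N v => R N (f N v) (g N v)) :=
  UD.subst (R := fun N x v => R N x (g N v))
    (UD.subst (R := fun N x v => R N (v 0) x) (hR.ren (fun n => 1 - n)) hg.shift) hf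

theorem UR.comp3 {R : Set ZFSet.{0} → ZFSet.{0} → ZFSet.{0} → ZFSet.{0} → Prop}
    (hR : UR (fun N v => R N (v 0) (v 1) (v 2))) (hf : UF f) (hg : UF g) (hh : UF h) :
    UR (fun N v => R N (f N v) (g N v) (h N v)) :=
  UD.subst (R := fun N x v => R N x (g N v) (h N v))
    (UD.subst (R := fun N x v => R N (v 0) x (h N (sh v)))
      (UD.subst (R := fun N x v => R N (v 1) (v 0) x) (hR.ren (fun n => 2 - n))
        hh.shift.shift) hg.shift) hf

theorem UR.comp4 {R : Set ZFSet.{0} → ZFSet.{0} → ZFSet.{0} → ZFSet.{0} → ZFSet.{0} → Prop}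
    (hR : UR (fun N v => R N (v 0) (v 1) (v 2) (v 3))) (hf : UF f) (hg : UF g) (hh : UF h)
    (hk : UF k) : UR (fun N v => R N (f N v) (g N v) (h N v) (k N v)) :=
  UD.subst (R := fun N x v => R N x (g N v) (h N v) (k N v))
    (UD.subst (R := fun N x v => R N (v 0) x (h N (sh v)) (k N (sh v)))
      (UD.subst (R := fun N x v => R N (v 1) (v 0) x (k N (sh (sh v))))
        (UD.subst (R := fun N x v => R N (v 2) (v 1) (v 0) x) (hR.ren (fun n => 3 - n))
          hk.shift.shift.shift) hh.shift.shift) hg.shift) hf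

theorem UR.comp5 {R : Set ZFSet.{0} → ZFSet.{0} → ZFSet.{0} → ZFSet.{0} → ZFSet.{0} →
      ZFSet.{0} → Prop}
    (hR : UR (fun N v => R N (v 0) (v 1) (v 2) (v 3) (v 4))) (hf : UF f) (hg : UF g) (hh : UF h)
    (hk : UF k) (hl : UF l) : UR (fun N v => R N (f N v) (g N v) (h N v) (k N v) (l N v)) :=
  UD.subst (R := fun N x v => R N x (g N v) (h N v) (k N v) (l N v))
    (UD.subst (R := fun N x v => R N (v 0) x (h N (sh v)) (k N (sh v)) (l N (sh v)))
      (UD.subst (R := fun N x v => R N (v 1) (v 0) x (k N (sh (sh v))) (l N (sh (sh v))))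
        (UD.subst (R := fun N x v => R N (v 2) (v 1) (v 0) x (l N (sh (sh (sh v)))))
          (UD.subst (R := fun N x v => R N (v 3) (v 2) (v 1) (v 0) x)
            (hR.ren (fun n => 4 - n))
          hl.shift.shift.shift.shift) hk.shift.shift.shift) hh.shift.shift) hg.shift) hf

theorem UF.comp1 {F : Set ZFSet.{0} → ZFSet.{0} → ZFSet.{0}} (hF : UF (fun N v => F N (v 0)))
    (hf : UF f) : UF (fun N v => F N (f N v)) := by
  refine ⟨fun N hN v hv => ?_, ?_⟩
  · exact hF.mem N hN (cons (f N v) v)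
      (fun n => by cases n with | zero => exact hf.mem N hN v hv | succ n => exact hv n)
  · exact UR.comp2 (R := fun N x y => x = F N y) hF.rel (UF.var 0) hf.shift

theorem UF.comp2 {F : Set ZFSet.{0} → ZFSet.{0} → ZFSet.{0} → ZFSet.{0}}
    (hF : UF (fun N v => F N (v 0) (v 1)))
    (hf : UF f) (hg : UF g) : UF (fun N v => F N (f N v) (g N v)) := by
  refine ⟨fun N hN v hv => ?_, ?_⟩
  · refine hF.mem N hN (cons (f N v) (cons (g N v) v)) (fun n => ?_)
    rcases n with _ | _ | n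
    · exact hf.mem N hN v hv
    · exact hg.mem N hN v hv
    · exact hv n
  · exact UR.comp3 (R := fun N x y z => x = F N y z) hF.rel (UF.var 0) hf.shift hg.shift

theorem UF.comp3 {F : Set ZFSet.{0} → ZFSet.{0} → ZFSet.{0} → ZFSet.{0} → ZFSet.{0}}
    (hF : UF (fun N v => F N (v 0) (v 1) (v 2)))
    (hf : UF f) (hg : UF g) (hh : UF h) : UF (fun N v => F N (f N v) (g N v) (h N v)) := by
  refine ⟨fun N hN v hv => ?_, ?_⟩
  · refine hF.mem N hN (cons (f N v) (cons (g N v) (cons (h N v) v))) (fun n => ?_)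
    rcases n with _ | _ | _ | n
    · exact hf.mem N hN v hv
    · exact hg.mem N hN v hv
    · exact hh.mem N hN v hv
    · exact hv n
  · exact UR.comp4 (R := fun N x y z w => x = F N y z w) hF.rel (UF.var 0) hf.shift hg.shift
      hh.shift

theorem UF.comp4 {F : Set ZFSet.{0} → ZFSet.{0} → ZFSet.{0} → ZFSet.{0} → ZFSet.{0} →
      ZFSet.{0}}
    (hF : UF (fun N v => F N (v 0) (v 1) (v 2) (v 3)))
    (hf : UF f) (hg : UF g) (hh : UF h) (hk : UF k) :
    UF (fun N v => F N (f N v) (g N v) (h N v) (k N v)) := by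
  refine ⟨fun N hN v hv => ?_, ?_⟩
  · refine hF.mem N hN (cons (f N v) (cons (g N v) (cons (h N v) (cons (k N v) v))))
      (fun n => ?_)
    rcases n with _ | _ | _ | _ | n
    · exact hf.mem N hN v hv
    · exact hg.mem N hN v hv
    · exact hh.mem N hN v hv
    · exact hk.mem N hN v hv
    · exact hv n
  · exact UR.comp5 (R := fun N x y z w u => x = F N y z w u) hF.rel (UF.var 0) hf.shift hg.shift
      hh.shift hk.shift

/-- substitution of a definable function for the variable `0` of a definable function -/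
theorem UF.subst {F : Set ZFSet.{0} → ZFSet.{0} → (ℕ → ZFSet.{0}) → ZFSet.{0}}
    (hF : UF (fun N v => F N (v 0) (sh v))) (hf : UF f) : UF (fun N v => F N (f N v) v) := by
  refine ⟨fun N hN v hv => ?_, ?_⟩
  · exact hF.mem N hN (cons (f N v) v)
      (fun n => by cases n with | zero => exact hf.mem N hN v hv | succ n => exact hv n)
  · exact UD.subst (R := fun N x v => v 0 = F N x (sh v))
      (hF.rel.ren (fun n => if n = 0 then 1 else if n = 1 then 0 else n)) hf.shift

end comp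

end H83.AC
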