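import Pool.Agent.H83.AC.Defs3
import Pool.Agent.H83.AC.Fn

/-!
# Module EvP: the part of a name decided by a condition

`ev_fin`: induction on the finite set, unions of fitting conditions (`union_fits`).
-/

namespace H83.AC

open ZFSet

theorem mem_evp {e p h : ZFSet.{0}} : h ∈ evp e p ↔ ∃ r ∈ Cond, r ⊆ p ∧ pair r h ∈ e := by
  rw [evp, mem_sep]
  refine ⟨fun h => h.2, fun h => ⟨?_, h⟩⟩
  obtain ⟨r, -, -, hr⟩ := h
  exact mem_rng.2 ⟨r, hr⟩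

private theorem evp_mem_ev {e h : ZFSet.{0}} {c : Set ZFSet.{0}} :
    h ∈ ev e c ↔ ∃ p ∈ Cond, Fits p c ∧ pair p h ∈ e := by
  rw [ev, mem_sep]
  refine ⟨fun h => h.2, fun h => ⟨?_, h⟩⟩
  obtain ⟨r, -, -, hr⟩ := h
  exact mem_rng.2 ⟨r, hr⟩

theorem evp_mono {e p q : ZFSet.{0}} (h : p ⊆ q) : evp e p ⊆ evp e q := by
  intro t ht
  obtain ⟨r, h1, h2, h3⟩ := mem_evp.1 ht
  exact mem_evp.2 ⟨r, h1, fun x hx => h (h2 hx), h3⟩

theorem evp_sub {e p : ZFSet.{0}} {c : Set ZFSet.{0}} (h : Fits p c) : evp e p ⊆ ev e c := by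
  intro t ht
  obtain ⟨r, h1, h2, h3⟩ := mem_evp.1 ht
  exact evp_mem_ev.2 ⟨r, h1, fits_sub h h2, h3⟩

theorem ev_one {e h : ZFSet.{0}} {c : Set ZFSet.{0}} (hh : h ∈ ev e c) :
    ∃ p ∈ Cond, Fits p c ∧ h ∈ evp e p := by
  obtain ⟨p, h1, h2, h3⟩ := evp_mem_ev.1 hh
  exact ⟨p, h1, h2, mem_evp.2 ⟨p, h1, fun _ hx => hx, h3⟩⟩

theorem ev_fin {e s : ZFSet.{0}} {c : Set ZFSet.{0}} (hs : {y | y ∈ s}.Finite) (h : s ⊆ ev e c) :
    ∃ p ∈ Cond, Fits p c ∧ s ⊆ evp e p := by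
  have key : ∀ t : Set ZFSet.{0}, t.Finite → t ⊆ {y | y ∈ ev e c} →
      ∃ p ∈ Cond, Fits p c ∧ ∀ y ∈ t, y ∈ evp e p := by
    intro t ht
    induction t, ht using Set.Finite.induction_on with
    | empty => exact fun _ => ⟨∅, empty_cond, fits_empty c, fun y hy => absurd hy (Set.notMem_empty y)⟩
    | @insert a t _ _ ih =>
      intro hsub
      obtain ⟨p, hp, hpc, hpt⟩ := ih (fun y hy => hsub (Set.mem_insert_of_mem a hy))
      obtain ⟨q, hq, hqc, hqa⟩ := ev_one (hsub (Set.mem_insert a t))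
      obtain ⟨h1, h2⟩ := union_fits hp hq hpc hqc
      refine ⟨p ∪ q, h1, h2, fun y hy => ?_⟩
      rcases hy with rfl | hy
      · exact evp_mono (fun x hx => mem_union.2 (Or.inr hx)) hqa
      · exact evp_mono (fun x hx => mem_union.2 (Or.inl hx)) (hpt y hy)
  obtain ⟨p, h1, h2, h3⟩ := key {y | y ∈ s} hs (fun y hy => h hy)
  exact ⟨p, h1, h2, fun y hy => h3 y hy⟩

/-- a node of the tree given by names is decided by a condition -/
theorem ev_node {eT ex w : ZFSet.{0}} {c : Set ZFSet.{0}} (h : Node (ev eT c) (ev ex c) w) :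
    ∃ p ∈ Cond, Fits p c ∧ Node (evp eT p) (evp ex p) w := by
  obtain ⟨n, hn, hw, s, hs, hsf, hp⟩ := h
  obtain ⟨k, rfl⟩ := mem_omega.1 hn
  have hfin : {y | y ∈ s}.Finite := HF_finite (fn_fin omega_sub_HF hsf)
  obtain ⟨p, hp1, hp2, hp3⟩ := ev_fin hfin hs
  obtain ⟨q, hq1, hq2, hq3⟩ := ev_one hp
  obtain ⟨h1, h2⟩ := union_fits hp1 hq1 hp2 hq2
  refine ⟨p ∪ q, h1, h2, nz k, hn, hw, s, ?_, hsf, ?_⟩
  · intro x hx
    exact evp_mono (fun x hx => mem_union.2 (Or.inl hx)) (hp3 hx)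
  · exact evp_mono (fun x hx => mem_union.2 (Or.inr hx)) hq3

theorem UF.evp {f g : Set ZFSet.{0} → (ℕ → ZFSet.{0}) → ZFSet.{0}} (hf : UF f) (hg : UF g) :
    UF (fun N v => H83.AC.evp (f N v) (g N v)) := by
  have h1 : UR (fun N v => ∃ r ∈ H83.AC.Cond, r ⊆ g N (sh v) ∧
      ZFSet.pair r (v 0) ∈ f N (sh v)) := by
    infer_instance
  exact UF.sep (R := fun N h v => ∃ r ∈ H83.AC.Cond, r ⊆ g N v ∧ ZFSet.pair r h ∈ f N v)
    (UF.rng hf) h1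

instance Inst.evp {f g : Set ZFSet.{0} → (ℕ → ZFSet.{0}) → ZFSet.{0}} [hf : UF f] [hg : UF g] :
    UF (fun N v => H83.AC.evp (f N v) (g N v)) := UF.evp hf hg

end H83.AC
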