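import Pool.Agent.H83.AC.LoB

/-!
# Module LhU: the constructible hierarchy is uniformly definable

`UF.op`: `i` is a fixed natural number: `unfold op; split_ifs` and then `ud`
(beta reduction: use `show UF (fun N v => ..)`).
`UF.ops`: iterated `UF.insert`/`UF.singleton`. `UF.Sx`: `UF.uni`.
`UF.Lh`: `UF.recMem` with `G N v x f = uni (fun y => Sx (app f y)) x`, `Lh_eq`, `app_fgr`.
-/

namespace H83.AC

open ZFSet

variable {f g : Set ZFSet.{0} → (ℕ → ZFSet.{0}) → ZFSet.{0}}

theorem UF.op (i : ℕ) (hf : UF f) (hg : UF g) : UF (fun N v => H83.AC.op i (f N v) (g N v)) := by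
  refine UF.comp2 (F := fun _ x y => H83.AC.op i x y) ?_ hf hg
  unfold H83.AC.op
  split_ifs <;> (repeat' first
      | assumption | exact UF.var _ | exact UD.true | exact UD.false | apply UF.empty
      | apply UF.fgr | apply UF.uni | apply UF.img | apply UF.pow | apply UF.sep | apply UF.pair
      | apply UF.upair | apply UF.singleton | apply UF.insert | apply UF.union | apply UF.inter
      | apply UF.diff | apply UF.prod | apply UF.sUnion | apply UF.app | apply UF.dom
      | apply UF.rng | apply UF.fst | apply UF.snd | apply UF.ite | apply UD.and | apply UD.or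
      | apply UR.ball | apply UR.bex | apply UD.allN | apply UD.exN | apply UD.iff | apply UR.mem
      | apply UR.eq | apply UR.sub | apply UD.not | apply UD.imp | exact UD.prop _)

theorem UF.ops (hf : UF f) (hg : UF g) : UF (fun N v => H83.AC.ops (f N v) (g N v)) := by
  refine UF.comp2 (F := fun _ x y => H83.AC.ops x y) ?_ hf hg
  unfold H83.AC.ops
  have h : ∀ i, UF (fun _ v => H83.AC.op i (v 0) (v 1)) := fun i => UF.op i (UF.var 0) (UF.var 1)
  (repeat' first
      | apply h | assumption | exact UF.var _ | exact UD.true | exact UD.false | apply UF.empty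
      | apply UF.fgr | apply UF.uni | apply UF.img | apply UF.pow | apply UF.sep | apply UF.pair
      | apply UF.upair | apply UF.singleton | apply UF.insert | apply UF.union | apply UF.inter
      | apply UF.diff | apply UF.prod | apply UF.sUnion | apply UF.app | apply UF.dom
      | apply UF.rng | apply UF.fst | apply UF.snd | apply UF.ite | apply UD.and | apply UD.or
      | apply UR.ball | apply UR.bex | apply UD.allN | apply UD.exN | apply UD.iff | apply UR.mem
      | apply UR.eq | apply UR.sub | apply UD.not | apply UD.imp | exact UD.prop _)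

theorem UF.Sx (hf : UF f) : UF (fun N v => H83.AC.Sx (f N v)) := by
  refine UF.comp1 (F := fun _ x => H83.AC.Sx x) ?_ hf
  unfold H83.AC.Sx
  (repeat' first
      | apply UF.ops | assumption | exact UF.var _ | exact UD.true | exact UD.false
      | apply UF.empty | apply UF.fgr | apply UF.uni | apply UF.img | apply UF.pow | apply UF.sep
      | apply UF.pair | apply UF.upair | apply UF.singleton | apply UF.insert | apply UF.union
      | apply UF.inter | apply UF.diff | apply UF.prod | apply UF.sUnion | apply UF.app
      | apply UF.dom | apply UF.rng | apply UF.fst | apply UF.snd | apply UF.ite | apply UD.and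
      | apply UD.or | apply UR.ball | apply UR.bex | apply UD.allN | apply UD.exN | apply UD.iff
      | apply UR.mem | apply UR.eq | apply UR.sub | apply UD.not | apply UD.imp | exact UD.prop _)

theorem UF.Lh (hf : UF f) : UF (fun N v => H83.AC.Lh (f N v)) := by
  refine UF.comp1 (F := fun _ x => H83.AC.Lh x) ?_ hf
  refine UF.recMem (G := fun _ _ x f => H83.AC.uni (fun y => H83.AC.Sx (H83.AC.app f y)) x)
    (F := fun _ _ x => H83.AC.Lh x) ?_ ?_
  · (repeat' first
      | apply UF.Sx | assumption | exact UF.var _ | exact UD.true | exact UD.false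
      | apply UF.empty | apply UF.fgr | apply UF.uni | apply UF.img | apply UF.pow | apply UF.sep
      | apply UF.pair | apply UF.upair | apply UF.singleton | apply UF.insert | apply UF.union
      | apply UF.inter | apply UF.diff | apply UF.prod | apply UF.sUnion | apply UF.app
      | apply UF.dom | apply UF.rng | apply UF.fst | apply UF.snd | apply UF.ite | apply UD.and
      | apply UD.or | apply UR.ball | apply UR.bex | apply UD.allN | apply UD.exN | apply UD.iff
      | apply UR.mem | apply UR.eq | apply UR.sub | apply UD.not | apply UD.imp | exact UD.prop _)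
  · intro N _ v _ x _
    rw [Lh_eq]
    refine uni_congr fun y hy => ?_
    rw [app_fgr hy]

instance Inst.op (i : ℕ) [hf : UF f] [hg : UF g] :
    UF (fun N v => H83.AC.op i (f N v) (g N v)) := UF.op i hf hg
instance Inst.ops [hf : UF f] [hg : UF g] :
    UF (fun N v => H83.AC.ops (f N v) (g N v)) := UF.ops hf hg
instance Inst.Sx [hf : UF f] : UF (fun N v => H83.AC.Sx (f N v)) := UF.Sx hf
instance Inst.Lh [hf : UF f] : UF (fun N v => H83.AC.Lh (f N v)) := UF.Lh hf

end H83.AC
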