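import Pool.Agent.H83.AC.LLtm
import Pool.Agent.H83.AC.LhU

/-!
# Module LLvl: `V = L` holds in `L`

`z ∈ Lo α`; `x = Lo α ∈ LL` has `α ≤ rank x`, so `z ∈ Lo α ⊆ Lo (rank x) = Lh x`.
-/

namespace H83.AC

open ZFSet

theorem LL_vl : VL LL := by
  rintro z ⟨α, hα⟩
  exact ⟨Lo α, Lo_mem_LL α, Lo_mono (le_rank_Lo α) hα⟩

end H83.AC
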