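import Pool.Agent.H83.AC.LoB
import Pool.Agent.H83.AC.LLvl

/-!
# Module LAtt: attempts for the constructible hierarchy

`LAtt_val`: by induction on the rank of `fst t`: `snd t = ⋃ {Sx (snd s) : s ∈ f, fst s ∈ fst t}` and
the `fst s` run through all elements of `fst t`; compare with `Lh_eq`.
`PsiK_sub`: immediate (`fst t ∈ K` since `t = pair (fst t) (snd t) ∈ f ∈ K` and `K` is transitive).
`LAtt_fgr`: the graph of `Lh` on a transitive set `d` is an attempt (`Lh_eq`).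
`LL_psi`: for `z ∈ LL` let `z ∈ Lh x`, `x ∈ LL` (`LL_vl`); `d = tc {x}` or `d = insert x' x'` with
`x' = Lo (rank x)` (transitive, in `LL`); `f = fgr Lh d ∈ LL` by `UF.Lh`, `UF.fgr` and `LL_tm`
(`(UF.fgr (UF.var 0) (UF.Lh (UF.var 0))).mem LL LL_tm ..`). The same argument proves `psi_of_vl`
for every `TM N` with `VL N`.
-/

namespace H83.AC

open ZFSet

theorem LAtt_val {f t : ZFSet.{0}} (hf : LAtt f) (ht : t ∈ f) : snd t = Lh (fst t) := by
  have key : ∀ x : ZFSet.{0}, ∀ t ∈ f, fst t = x → snd t = Lh x := by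
    intro x
    induction x using ZFSet.inductionOn with
    | _ x ih =>
      intro t ht hx
      obtain ⟨h1, h2, h3⟩ := hf.2.2 t ht
      rw [Lh_eq]
      ext z
      rw [mem_uni]
      constructor
      · intro hz
        obtain ⟨s, hs, hst, hzs⟩ := h2 z hz
        rw [hx] at hst
        refine ⟨fst s, hst, ?_⟩
        rwa [← ih (fst s) hst s hs rfl]
      · rintro ⟨y, hy, hz⟩
        obtain ⟨s, hs, rfl⟩ := h1 y (hx ▸ hy)
        rw [← ih (fst s) hy s hs rfl] at hz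
        exact h3 s hs (hx ▸ hy) hz
  exact key _ t ht rfl

theorem LAtt_fgr {d : ZFSet.{0}} (hd : ∀ y ∈ d, y ⊆ d) : LAtt (fgr Lh d) := by
  have hm : ∀ t, t ∈ fgr Lh d ↔ ∃ y ∈ d, t = pair y (Lh y) := fun t => by
    rw [mem_fgr]
    constructor
    · rintro ⟨y, hy, h⟩
      first | exact ⟨y, hy, h⟩ | exact ⟨y, hy, h.symm⟩
    · rintro ⟨y, hy, h⟩
      first | exact ⟨y, hy, h⟩ | exact ⟨y, hy, h.symm⟩
  refine ⟨fun t ht => ?_, fun t ht s hs h => ?_, fun t ht => ⟨fun y hy => ?_, fun z hz => ?_,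
    fun s hs h => ?_⟩⟩
  · obtain ⟨y, hy, rfl⟩ := (hm t).1 ht
    rw [fst_pair, snd_pair]
  · obtain ⟨y, hy, rfl⟩ := (hm t).1 ht
    obtain ⟨x, hx, rfl⟩ := (hm s).1 hs
    rw [fst_pair, fst_pair] at h
    rw [h]
  · obtain ⟨x, hx, rfl⟩ := (hm t).1 ht
    rw [fst_pair] at hy
    exact ⟨pair y (Lh y), (hm _).2 ⟨y, hd x hx hy, rfl⟩, fst_pair _ _⟩
  · obtain ⟨x, hx, rfl⟩ := (hm t).1 ht
    rw [snd_pair, Lh_eq, mem_uni] at hz
    obtain ⟨y, hy, hz⟩ := hz
    refine ⟨pair y (Lh y), (hm _).2 ⟨y, hd x hx hy, rfl⟩, ?_, ?_⟩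
    · rwa [fst_pair, fst_pair]
    · rwa [snd_pair]
  · obtain ⟨x, hx, rfl⟩ := (hm t).1 ht
    obtain ⟨y, hy, rfl⟩ := (hm s).1 hs
    rw [fst_pair, fst_pair] at h
    rw [snd_pair, snd_pair, Lh_eq x]
    intro z hz
    exact mem_uni.2 ⟨y, h, hz⟩

theorem PsiK_sub {K : Set ZFSet.{0}} (hK : IsTr K) (h : PsiK K) {z : ZFSet.{0}} (hz : z ∈ K) :
    ∃ x ∈ K, z ∈ Lh x := by
  obtain ⟨f, hf, hA, t, ht, hzt⟩ := h z hz
  refine ⟨fst t, ?_, ?_⟩
  · have h1 : pair (fst t) (snd t) ∈ K := by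
      rw [← hA.1 t ht]
      exact hK f hf t ht
    have h2 : ({fst t} : ZFSet) ∈ K := hK _ h1 _ (by rw [pair]; simp)
    exact hK _ h2 _ (by simp)
  · rwa [← LAtt_val hA ht]

theorem psi_of_vl {N : Set ZFSet.{0}} (hN : TM N) (h : VL N) : PsiK N := by
  intro z hz
  obtain ⟨x, hx, hzx⟩ := h z hz
  have hL : Lh x ∈ N := (UF.Lh (UF.var 0)).mem N hN (fun _ => x) (fun _ => hx)
  have hd : (insert (Lh x) (Lh x) : ZFSet) ∈ N := hN.insert hL hL
  have hf : fgr Lh (insert (Lh x) (Lh x)) ∈ N := by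
    have : UF (fun N v => fgr (fun y => Lh y) (v 0)) := by (repeat' first
        | apply UF.Lh | assumption | exact UF.var _ | exact UD.true | exact UD.false
        | apply UF.empty | apply UF.fgr | apply UF.uni | apply UF.img | apply UF.pow
        | apply UF.sep | apply UF.pair | apply UF.upair | apply UF.singleton | apply UF.insert
        | apply UF.union | apply UF.inter | apply UF.diff | apply UF.prod | apply UF.sUnion
        | apply UF.app | apply UF.dom | apply UF.rng | apply UF.fst | apply UF.snd | apply UF.ite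
        | apply UD.and | apply UD.or | apply UR.ball | apply UR.bex | apply UD.allN | apply UD.exN
        | apply UD.iff | apply UR.mem | apply UR.eq | apply UR.sub | apply UD.not | apply UD.imp
        | exact UD.prop _)
    exact this.mem N hN (fun _ => insert (Lh x) (Lh x)) (fun _ => hd)
  refine ⟨_, hf, LAtt_fgr fun y hy => ?_, pair (Lh x) (Lh (Lh x)), ?_, ?_⟩
  · intro w hw
    rcases ZFSet.mem_insert_iff.1 hy with rfl | hy
    · exact ZFSet.mem_insert_iff.2 (Or.inr hw)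
    · exact ZFSet.mem_insert_iff.2 (Or.inr (Lo_tr hy hw))
  · rw [pair_mem_fgr]
    exact ⟨ZFSet.mem_insert_iff.2 (Or.inl rfl), rfl⟩
  · rw [snd_pair]
    exact Lh_mono (le_rank_Lo (rank x)) hzx

theorem LL_psi : PsiK LL := psi_of_vl LL_tm LL_vl

end H83.AC
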