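import Pool.Agent.H83.AC.Elem
import Pool.Agent.H83.AC.LAtt
import Pool.Agent.H83.AC.LAttD
import Pool.Agent.H83.AC.HFb

/-!
# Module GroundEx: ground models exist

`HF = Lo ω ∈ LL`. Choose `α` by `reflection` with `Lo α ∋ HF`; `A = Lo α` is transitive,
elementary in `LL`, so `PsiK (cls A)` (`psi_fml`, `LL_psi`), `A ∈ LL`, and `A` contains all
`x ∈ LL` with `x ⊆ HF`: `A` is a transitive model of ZF (`isZF_of_elem`), so
`P = sep (· ∈ A) (powerset HF) ∈ A` (`TM.pow_of`) and `A` satisfies `∀ x, x ∈ P ↔ x ⊆ HF`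
(a formula with the parameters `P, HF`), hence so does `LL`, so every `x ∈ LL`, `x ⊆ HF` is in
`P ⊆ A`.
Take `X` from `exists_countable_elem` with `K = LL`, `S = {x | x ∈ HF} ∪ {HF, A}` (`HF` is
countable), and `M`, `π` from `exists_collapse` (`X` is extensional because it is elementary in the
transitive class `LL`). `TM M` by `isZF_of_elem`, `isZF_of_iso`. `π` is the identity on `HF` and
`π HF = HF`.
Every uniformly definable relation `R` (`UR R`) transfers: for `v` with values in `X`,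
`R LL v ↔ R M (π ∘ v)` (`sat_iff`; statement `transfer` below; `TM LL` and `TM M`).
Apply this to: `VL` (i.e. `∀ z ∈ N, ∃ x ∈ N, z ∈ Lh x`, definable by `UF.Lh`), and to the relation
'`v 0` is transitive, `v 1 ∈ v 0`, `PsiK (cls (v 0))`, `∀ x ∈ N, x ⊆ v 1 → x ∈ v 0`' at
`v 0 = A, v 1 = HF` (`PsiK (cls a)` is `∀ z ∈ a, ∃ f ∈ a, LAtt f ∧ ∃ t ∈ f, z ∈ snd t`; `LAtt` is `UR`
by `D0.latt.toUR`).
-/

namespace H83.AC

open ZFSet

theorem transfer {R : Set ZFSet.{0} → (ℕ → ZFSet.{0}) → Prop} (hR : UR R)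
    {K X M : Set ZFSet.{0}} {π : ZFSet.{0} → ZFSet.{0}} (hK : TM K) (hM : TM M) (hX : X ⊆ K)
    (hb : Set.BijOn π X M)
    (h1 : ∀ (φ : Fml) (v : ℕ → ZFSet.{0}), (∀ i, v i ∈ X) → (SatIn X φ v ↔ SatIn K φ v))
    (h2 : ∀ (φ : Fml) (v : ℕ → ZFSet.{0}), (∀ i, v i ∈ X) →
        (SatIn X φ v ↔ SatIn M φ (fun n => π (v n))))
    {v : ℕ → ZFSet.{0}} (hv : ∀ i, v i ∈ X) : R K v ↔ R M (fun n => π (v n)) := by
  obtain ⟨φ, hφ⟩ := hR
  have e1 := hφ K hK (fun n => ⟨v n, hX (hv n)⟩)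
  have e2 := hφ M hM (fun n => ⟨π (v n), hb.mapsTo (hv n)⟩)
  rw [sat_iff] at e1 e2
  exact e1.trans ((h1 φ v hv).symm.trans ((h2 φ v hv).trans e2.symm))

private theorem ur_vl : UR (fun N _ => VL N) := by
  refine UD.allN (R := fun N z _ => ∃ x ∈ N, z ∈ Lh x) ?_
  refine UD.exN (R := fun _ x v => v 0 ∈ Lh x) ?_
  exact UR.mem (UF.var 1) (UF.Lh (UF.var 0))

private theorem ur_sub : UR (fun N v => ∀ x ∈ N, x ⊆ v 1 → x ∈ v 0) := by
  refine UD.allN (R := fun N x v => x ⊆ v 1 → x ∈ v 0) ?_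
  exact (UR.sub (UF.var 0) (UF.var 2)).imp (UR.mem (UF.var 0) (UF.var 1))

private theorem ur_latt : UR (fun _ v => LAtt (v 0)) := UD.toUR D0.latt

private theorem ur_lev : UR (fun N v => (∀ x ∈ v 0, ∀ y ∈ x, y ∈ v 0) ∧ v 1 ∈ v 0 ∧
    (∀ z ∈ v 0, ∃ f ∈ v 0, LAtt f ∧ ∃ t ∈ f, z ∈ snd t) ∧ ∀ x ∈ N, x ⊆ v 1 → x ∈ v 0) := by
  refine UD.and ?_ (UD.and (UR.mem (UF.var 1) (UF.var 0)) (UD.and ?_ ur_sub))
  · refine UR.ball (R := fun _ x v => ∀ y ∈ x, y ∈ v 0) (UF.var 0) ?_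
    refine UR.ball (R := fun _ y v => y ∈ v 1) (UF.var 0) ?_
    exact UR.mem (UF.var 0) (UF.var 2)
  · refine UR.ball (R := fun _ z v => ∃ f ∈ v 0, LAtt f ∧ ∃ t ∈ f, z ∈ snd t) (UF.var 0) ?_
    refine UR.bex (R := fun _ f v => LAtt f ∧ ∃ t ∈ f, v 0 ∈ snd t) (UF.var 1) ?_
    refine UD.and (UR.comp1 (R := fun _ x => LAtt x) ur_latt (UF.var 0)) ?_
    refine UR.bex (R := fun _ t v => v 1 ∈ snd t) (UF.var 0) ?_
    exact UR.mem (UF.var 2) (UF.snd (UF.var 0))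

theorem exists_ground : ∃ M, Ground M := by
  obtain ⟨α0, hα0⟩ := HF_LL
  obtain ⟨α, hα, -, hel⟩ := reflection α0
  have hHA : HF ∈ Lo α := Lo_mono hα hα0
  have hAtr : IsTr (cls (Lo α)) := fun x hx y hy => Lo_tr hx hy
  have hAL : cls (Lo α) ⊆ LL := fun x hx => ⟨α, hx⟩
  have hTA : TM (cls (Lo α)) := ⟨hAtr, isZF_of_elem ⟨HF, hHA⟩ hAL LL_tm.zf hel⟩
  have hid : Set.BijOn id (cls (Lo α)) (cls (Lo α)) := Set.bijOn_id _
  -- all constructible subsets of HF are in `Lo α`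
  have hsub : ∀ x ∈ LL, x ⊆ HF → x ∈ Lo α := by
    have hP : ZFSet.sep (fun x => x ∈ cls (Lo α)) (powerset HF) ∈ cls (Lo α) := hTA.pow_of hHA
    set P := ZFSet.sep (fun x => x ∈ cls (Lo α)) (powerset HF) with hPdef
    have hv : ∀ i, (cons P (fun _ => HF)) i ∈ cls (Lo α) := by
      rintro (_ | i)
      exacts [hP, hHA]
    have := (transfer ur_sub LL_tm hTA hAL hid hel (fun φ v _ => Iff.rfl) hv).2 (by
      intro x hx hxs
      show x ∈ P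
      rw [hPdef, mem_sep, mem_powerset]
      exact ⟨hxs, hx⟩)
    intro x hx hxs
    have h1 : x ∈ P := this x hx hxs
    rw [hPdef, mem_sep] at h1
    exact h1.2
  have hpsi : PsiK (cls (Lo α)) := by
    obtain ⟨φ, -, hφ⟩ := psi_fml
    have e1 := hφ (cls (Lo α)) hAtr (fun _ => HF) (fun _ => hHA)
    have e2 := hφ LL LL_tr (fun _ => HF) (fun _ => HF_LL)
    exact e1.1 ((hel φ _ (fun _ => hHA)).2 (e2.2 LL_psi))
  -- a countable elementary subclass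
  obtain ⟨X, hSX, hXL, hXc, hXne, helX⟩ := exists_countable_elem LL ({x | x ∈ HF} ∪ {HF, Lo α})
    ⟨HF, HF_LL⟩ (by
      rintro x (hx | rfl | rfl)
      · exact LL_tr HF HF_LL x hx
      · exact HF_LL
      · exact Lo_mem_LL α)
    (HF_countable.union (by simp))
  have hXH : HF ∈ X := hSX (Or.inr (Or.inl rfl))
  have hXA : Lo α ∈ X := hSX (Or.inr (Or.inr rfl))
  have hXh : ∀ y ∈ HF, y ∈ X := fun y hy => hSX (Or.inl hy)
  have hext : ∀ x ∈ X, ∀ y ∈ X, (∀ z ∈ X, z ∈ x ↔ z ∈ y) → x = y := by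
    have key : ∀ x ∈ X, ∀ y ∈ X, (∀ z ∈ X, z ∈ x → z ∈ y) → x ⊆ y := by
      intro x hx y hy h z hz
      have hv : ∀ i, (cons x (fun _ => y)) i ∈ X := by
        rintro (_ | i)
        exacts [hx, hy]
      have h1 : SatIn X (.all (.imp (.mem 0 1) (.mem 0 2))) (cons x (fun _ => y)) := h
      have h2 := (helX _ _ hv).1 h1
      exact h2 z (LL_tr x (hXL hx) z hz) hz
    intro x hx y hy h
    ext z
    exact ⟨fun hz => key x hx y hy (fun z hz => (h z hz).1) hz,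
      fun hz => key y hy x hx (fun z hz => (h z hz).2) hz⟩
  obtain ⟨M, π, hMtr, hMc, hb, he, hfix, hsat⟩ := exists_collapse X hXc hext
  have hM : TM M := ⟨hMtr, isZF_of_iso hb he (isZF_of_elem hXne hXL LL_tm.zf helX)⟩
  have hπH : π HF = HF := (hfix HF hXH (fun y hy => ⟨hXh y hy, HF_tr hy⟩)).1
  have tr : ∀ {R : Set ZFSet.{0} → (ℕ → ZFSet.{0}) → Prop}, UR R → ∀ {v : ℕ → ZFSet.{0}},
      (∀ i, v i ∈ X) → (R LL v ↔ R M (fun n => π (v n))) :=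
    fun hR v hv => transfer hR LL_tm hM hXL hb helX hsat hv
  have hvl : VL M := (tr ur_vl (v := fun _ => HF) (fun _ => hXH)).1 LL_vl
  have hv : ∀ i, (cons (Lo α) (fun _ => HF)) i ∈ X := by
    rintro (_ | i)
    exacts [hXA, hXH]
  obtain ⟨g1, g2, g3, g4⟩ := (tr ur_lev hv).1 ⟨hAtr, hHA, hpsi, hsub⟩
  simp only [cons_zero, cons_succ, hπH] at g1 g2 g3 g4
  exact ⟨M, hM, hMc, hvl, π (Lo α), hb.mapsTo hXA, g1, g2, g3, g4⟩

end H83.AC
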