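import Pool.Agent.H83.AC.NthU

/-!
# Module KBb: the truth tables are correct in the collapse

Induction on `χ`, all `n`, `v`. For `i < n`: `nth i (tup n v) = v i`; `tup n v ∈ tups HF n`.
`all χ`: (→) suppose `¬ bT y (all χ) (tup n v)`; then `¬ bT y χ (pair (ts χ t) t)`, `t = tup n v`,
`pair (ts χ t) t = tup (n+1) (cons (ts χ t) v)`, so by induction
`SatIn (cls X) χ (cons (F (ts χ t)) (F ∘ v))` fails (`F (cons a v i) = cons (F a) (F ∘ v) i`).
(←) every element of `X` is `F a`, `a ∈ HF`.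
-/

namespace H83.AC

open ZFSet

private theorem KBb_cons (F : ZFSet.{0} → ZFSet.{0}) (a : ZFSet.{0}) (v : ℕ → ZFSet.{0}) :
    (fun i => F (cons a v i)) = cons (F a) (fun i => F (v i)) := by
  funext i
  cases i with
  | zero => rfl
  | succ i => rfl

theorem kb_sat {y X : ZFSet.{0}} {F : ZFSet.{0} → ZFSet.{0}}
    (hX : ∀ z, z ∈ X ↔ ∃ i ∈ HF, z = F i)
    (hQ : ∀ i ∈ HF, ∀ j ∈ HF, (F i = F j ↔ bQ y i j))
    (hE : ∀ i ∈ HF, ∀ j ∈ HF, (F i ∈ F j ↔ bE y i j)) :
    ∀ (χ : Fml) (n : ℕ), TC y χ n → χ.bd n → ∀ v : ℕ → ZFSet.{0}, (∀ i, v i ∈ HF) →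
      (SatIn (cls X) χ (fun i => F (v i)) ↔ bT y χ (tup n v)) := by
  intro χ
  induction χ with
  | bot =>
    intro n hT _ v hv
    exact ⟨fun h => h.elim, fun h => hT _ (tup_mem fun i _ => hv i) h⟩
  | eq i j =>
    intro n hT hb v hv
    have h := hT (tup n v) (tup_mem fun i _ => hv i)
    rw [nth_tup hb.1, nth_tup hb.2] at h
    exact (hQ _ (hv i) _ (hv j)).trans h.symm
  | mem i j =>
    intro n hT hb v hv
    have h := hT (tup n v) (tup_mem fun i _ => hv i)
    rw [nth_tup hb.1, nth_tup hb.2] at h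
    exact (hE _ (hv i) _ (hv j)).trans h.symm
  | imp φ ψ h1 h2 =>
    intro n hT hb v hv
    have h := hT.2.2 (tup n v) (tup_mem fun i _ => hv i)
    have e1 := h1 n hT.1 hb.1 v hv
    have e2 := h2 n hT.2.1 hb.2 v hv
    show (SatIn (cls X) φ (fun i => F (v i)) → SatIn (cls X) ψ (fun i => F (v i))) ↔ _
    rw [e1, e2]
    exact h.symm
  | all φ ih =>
    intro n hT hb v hv
    have h := hT.2 (tup n v) (tup_mem fun i _ => hv i)
    have hstep : ∀ a ∈ HF, (SatIn (cls X) φ (cons (F a) (fun i => F (v i))) ↔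
        bT y φ (pair a (tup n v))) := by
      intro a ha
      have := ih (n + 1) hT.1 hb (cons a v) (fun i => by
        cases i with
        | zero => exact ha
        | succ i => exact hv i)
      rw [KBb_cons] at this
      exact this
    show (∀ x ∈ cls X, SatIn (cls X) φ (cons x (fun i => F (v i)))) ↔ _
    constructor
    · intro H
      by_contra hcon
      have hs : ts φ (tup n v) ∈ HF := ts_HF (tups_HF (tup_mem fun i _ => hv i))
      exact h.2 hcon ((hstep _ hs).1 (H _ ((hX _).2 ⟨_, hs, rfl⟩)))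
    · intro H x hx
      obtain ⟨a, ha, rfl⟩ := (hX x).1 hx
      exact (hstep a ha).2 (h.1 H a ha)

end H83.AC
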