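import Pool.Agent.H83.AC.NNa
import Pool.Agent.H83.AC.TruthA
import Pool.Agent.H83.AC.ActF

/-!
# Module NNc: the power set in the symmetric extension

`x = val c σ`. Let `b = {(ρ, ∅) : ρ ∈ M, HS M ρ, ρ ⊆ prod (nd σ) Cond} ∈ M` (`UF.pow`, `UR.HS`).
If `m` is a support of `σ` and `z` avoids `m` then `actN z` permutes these `ρ`
(`nd σ` is invariant because `actN z σ = σ`), so `m` is a support of `b`. If `y ∈ NN M c`, `y ⊆ x`,
`y = val c ρ₀`, let `ρ = {(π, p) : π ∈ nd σ, p ∈ Cond, FMem p π ρ₀}` (in `M` by `UR.FMem`); it is `HS`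
(support: the maximum of `m` and a support of `ρ₀`) and `val c ρ = y` by `truth_mem`.
-/

namespace H83.AC

open ZFSet

theorem NN_pow {M c : Set ZFSet.{0}} (hM : TM M) (hc : Gen M c) {x : ZFSet.{0}}
    (hx : x ∈ NN M c) : ∃ b ∈ NN M c, ∀ y ∈ NN M c, y ⊆ x → y ∈ b := by
  obtain ⟨σ, hσ, hHS, rfl⟩ := hx
  have hHS' := HS_iff.1 hHS
  obtain ⟨m, hm⟩ := hHS'.2.1
  have hndM : nd σ ∈ M := (UF.nd (UF.var 0)).mem M hM (fun _ => σ) (fun _ => hσ)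
  let A : ZFSet := ZFSet.sep (fun ρ => HS M ρ)
    (ZFSet.sep (fun ρ => ρ ∈ M) (powerset (ZFSet.prod (nd σ) Cond)))
  have hA : A ∈ M :=
    (UF.sep (R := fun N ρ _ => HS N ρ) (UF.pow (UF.prod (UF.nd (UF.var 0)) UF.Cond))
      (UR.HS (UF.var 0))).mem M hM (fun _ => σ) (fun _ => hσ)
  have memA : ∀ ρ, ρ ∈ A ↔ ρ ∈ M ∧ ρ ⊆ ZFSet.prod (nd σ) Cond ∧ HS M ρ := by
    intro ρ
    rw [mem_sep, mem_sep, mem_powerset]
    tauto
  let b : ZFSet := img (fun ρ => pair ρ ∅) A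
  have hb : b ∈ M :=
    (UF.img (F := fun _ ρ _ => pair ρ ∅) (UF.var 0) (UF.pair (UF.var 0) UF.empty)).mem M hM
      (fun _ => A) (fun _ => hA)
  have memb : ∀ ρ p, pair ρ p ∈ b ↔ ρ ∈ A ∧ p = ∅ := by
    intro ρ p
    rw [mem_img]
    constructor
    · rintro ⟨ρ', h, e⟩
      obtain ⟨rfl, rfl⟩ := pair_injective e
      exact ⟨h, rfl⟩
    · rintro ⟨h, rfl⟩
      exact ⟨ρ, h, rfl⟩
  -- the set `A` is invariant
  have hinv : ∀ z ∈ M, Avoid m z → ∀ ρ ∈ A, actN z ρ ∈ A := by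
    intro z hz haz ρ hρ
    obtain ⟨h1, h2, h3⟩ := (memA ρ).1 hρ
    refine (memA _).2 ⟨?_, fun t ht => ?_, HS_actN h3⟩
    · refine (UF.actN (UF.var 0) (UF.var 1)).mem M hM (cons z (fun _ => ρ)) (fun n => ?_)
      cases n with
      | zero => exact hz
      | succ n => exact h1
    · obtain ⟨π, p, hp, hπ, rfl⟩ := mem_actN.1 ht
      have h4 := h2 hπ
      rw [pair_mem_prod] at h4
      rw [pair_mem_prod]
      refine ⟨?_, actC_cond hp⟩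
      have h5 : actN z π ∈ nd (actN z σ) := mem_nd_actN.2 ⟨π, h4.1, rfl⟩
      rwa [hm.2 z hz haz] at h5
  have hbHS : HS M b := by
    refine HS_iff.2 ⟨fun t ht => ?_, ⟨m, hm.1, fun z hz haz => ?_⟩, fun π hπ => ?_⟩
    · obtain ⟨ρ, _, rfl⟩ := mem_img.1 ht
      exact ⟨ρ, ∅, empty_cond, rfl⟩
    · ext t
      constructor
      · intro ht
        obtain ⟨ρ, p, hp, hρ, rfl⟩ := mem_actN.1 ht
        obtain ⟨h1, rfl⟩ := (memb _ _).1 hρ
        rw [actC_empty]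
        exact (memb _ _).2 ⟨hinv z hz haz ρ h1, rfl⟩
      · intro ht
        obtain ⟨ρ, hρ, rfl⟩ := mem_img.1 ht
        refine mem_actN.2 ⟨actN z ρ, ∅, empty_cond, (memb _ _).2 ⟨hinv z hz haz ρ hρ, rfl⟩, ?_⟩
        rw [actC_empty, actN_actN ((memA ρ).1 hρ).2.2.isName]
    · obtain ⟨p, _, hp⟩ := mem_nd.1 hπ
      exact ((memA _).1 ((memb _ _).1 hp).1).2.2
  refine ⟨val c b, ⟨b, hb, hbHS, rfl⟩, ?_⟩
  rintro y ⟨ρ₀, hρ₀, hHS₀, rfl⟩ hsub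
  -- the name of `y`
  let ρ : ZFSet := ZFSet.sep (fun t => snd t ∈ Cond ∧ FMem (snd t) (fst t) ρ₀)
    (ZFSet.prod (nd σ) Cond)
  have hρM : ρ ∈ M := by
    refine (UF.sep (R := fun _ t v => snd t ∈ Cond ∧ FMem (snd t) (fst t) (v 1))
      (UF.prod (UF.nd (UF.var 0)) UF.Cond)
      (UR.FMem (UF.snd (UF.var 0)) (UF.fst (UF.var 0)) (UF.var 2))).mem M hM
      (cons σ (fun _ => ρ₀)) (fun n => ?_)
    cases n with
    | zero => exact hσ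
    | succ n => exact hρ₀
  have memρ : ∀ π p, pair π p ∈ ρ ↔ π ∈ nd σ ∧ p ∈ Cond ∧ FMem p π ρ₀ := by
    intro π p
    rw [mem_sep, pair_mem_prod, fst_pair, snd_pair]
    tauto
  have hρsub : ρ ⊆ ZFSet.prod (nd σ) Cond := fun t ht => (mem_sep.1 ht).1
  have hndσ : ∀ π ∈ nd σ, HS M π := hHS'.2.2
  have hρHS : HS M ρ := by
    obtain ⟨m₀, hm₀⟩ := (HS_iff.1 hHS₀).2.1
    obtain ⟨i, rfl⟩ := mem_omega.1 hm.1
    obtain ⟨j, rfl⟩ := mem_omega.1 hm₀.1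
    have h1 : Supp M (nz (max i j)) σ := Supp_mono (le_max_left _ _) hm
    have h2 : Supp M (nz (max i j)) ρ₀ := Supp_mono (le_max_right _ _) hm₀
    have hcl : ∀ z ∈ M, Avoid (nz (max i j)) z → ∀ π p, pair π p ∈ ρ →
        pair (actN z π) (actC z p) ∈ ρ := by
      intro z hz haz π p hπ
      obtain ⟨h3, h4, h5⟩ := (memρ _ _).1 hπ
      refine (memρ _ _).2 ⟨?_, actC_cond h4, ?_⟩
      · have h6 : actN z π ∈ nd (actN z σ) := mem_nd_actN.2 ⟨π, h3, rfl⟩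
        rwa [h1.2 z hz haz] at h6
      · have h6 := FMem_act (z := z) h4 (hndσ π h3).isName hHS₀.isName h5
        rwa [h2.2 z hz haz] at h6
    refine HS_iff.2 ⟨fun t ht => ?_, ⟨nz (max i j), h1.1, fun z hz haz => ?_⟩, fun π hπ => ?_⟩
    · obtain ⟨π, _, p, hp, e⟩ := mem_prod.1 (hρsub ht)
      exact ⟨π, p, hp, e⟩
    · ext t
      constructor
      · intro ht
        obtain ⟨π, p, _, hπ, rfl⟩ := mem_actN.1 ht
        exact hcl z hz haz π p hπ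
      · intro ht
        obtain ⟨π, hπ, p, hp, rfl⟩ := mem_prod.1 (hρsub ht)
        refine mem_actN.2 ⟨actN z π, actC z p, actC_cond hp, hcl z hz haz π p ht, ?_⟩
        rw [actC_actC hp, actN_actN (hndσ π hπ).isName]
    · obtain ⟨p, _, hp⟩ := mem_nd.1 hπ
      exact hndσ π ((memρ _ _).1 hp).1
  have hval : val c ρ = val c ρ₀ := by
    ext w
    constructor
    · intro hw
      obtain ⟨π, p, hp, hfit, hπ, rfl⟩ := mem_val.1 hw
      obtain ⟨h1, _, h3⟩ := (memρ _ _).1 hπ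
      exact (truth_mem hM hc (hM.tr _ hndM _ h1) hρ₀).2 ⟨p, hp, hfit, h3⟩
    · intro hw
      obtain ⟨π, r, hr, _, hπ, rfl⟩ := mem_val.1 (hsub hw)
      have h1 : π ∈ nd σ := mem_nd.2 ⟨r, hr, hπ⟩
      obtain ⟨p, hp, hfit, h3⟩ := (truth_mem hM hc (hM.tr _ hndM _ h1) hρ₀).1 hw
      exact mem_val.2 ⟨π, p, hp, hfit, (memρ _ _).2 ⟨h1, hp, h3⟩, rfl⟩
  rw [← hval]
  exact mem_val.2 ⟨ρ, ∅, empty_cond, fits_empty c, (memb _ _).2
    ⟨(memA _).2 ⟨hρM, hρsub, hρHS⟩, rfl⟩, rfl⟩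

end H83.AC
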