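import Pool.Agent.H83.AC.SubU
import Pool.Agent.H83.AC.HSU

/-!
# Module FcU: the forcing relation is uniformly definable (for every formula)

Induction on `φ`: show that `UR (fun N w => w 0 ∈ Cond ∧ Fc N φ (w 0) (sh w))`.
`eq`, `mem`: `UR.FEq`, `UR.FMem` with `UF.var`. `imp`: bounded quantifier over `Cond`; the induction
hypotheses are renamed (`UD.ren`). `all`: `∀ σ ∈ N, HS N σ → ..`; in `Fc N φ p (cons σ v)` the
condition is variable `1` and the new name is variable `0`: rename by swapping `0` and `1`.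
-/

namespace H83.AC

open ZFSet

/-- exchange of the variables `0` and `1` -/
private def fcSwap : ℕ → ℕ
  | 0 => 1
  | 1 => 0
  | n + 2 => n + 2

theorem UR.Fc (φ : Fml) : UR (fun N w => w 0 ∈ Cond ∧ H83.AC.Fc N φ (w 0) (sh w)) := by
  induction φ with
  | bot =>
    exact (UD.false (C := TM)).congr fun N _ v _ =>
      ⟨fun h => h.2, fun h => h.elim⟩
  | eq i j =>
    exact (UR.FEq (UF.var 0) (UF.var (i + 1)) (UF.var (j + 1))).congr fun N _ v _ => Iff.rfl
  | mem i j =>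
    exact (UR.FMem (UF.var 0) (UF.var (i + 1)) (UF.var (j + 1))).congr fun N _ v _ => Iff.rfl
  | imp φ ψ h1 h2 =>
    have h1' : UR (fun N v => v 0 ∈ Cond ∧ H83.AC.Fc N φ (v 0) (sh (sh v))) :=
      (h1.ren (lift Nat.succ)).congr fun N _ v _ => Iff.rfl
    have h2' : UR (fun N v => v 0 ∈ Cond ∧ H83.AC.Fc N ψ (v 0) (sh (sh v))) :=
      (h2.ren (lift Nat.succ)).congr fun N _ v _ => Iff.rfl
    have h3 : UR (fun N w => ∀ q ∈ Cond, w 0 ⊆ q →
        (q ∈ Cond ∧ H83.AC.Fc N φ q (sh w)) → (q ∈ Cond ∧ H83.AC.Fc N ψ q (sh w))) :=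
      UR.ball (R := fun N q w => w 0 ⊆ q → (q ∈ Cond ∧ H83.AC.Fc N φ q (sh w)) →
        (q ∈ Cond ∧ H83.AC.Fc N ψ q (sh w))) UF.Cond
        (UD.imp (UR.sub (UF.var 1) (UF.var 0)) (UD.imp h1' h2'))
    refine (UD.and (UR.mem (UF.var 0) UF.Cond) h3).congr fun N _ v _ => ?_
    refine and_congr Iff.rfl ?_
    constructor
    · intro H q hq hpq hφ
      exact ⟨hq, H q hq hpq hφ.2⟩
    · intro H q hq hpq hφ
      exact (H q hq hpq ⟨hq, hφ⟩).2
  | all φ ih =>
    have h1 : UR (fun N v => v 1 ∈ Cond ∧ H83.AC.Fc N φ (v 1) (cons (v 0) (sh (sh v)))) := by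
      refine (ih.ren fcSwap).congr fun N _ v _ => ?_
      have e : (sh (fun n => v (fcSwap n))) = cons (v 0) (sh (sh v)) := by
        funext n
        cases n <;> rfl
      rw [e]
      rfl
    have h2 : UR (fun N w => ∀ σ ∈ N, H83.AC.HS N σ →
        (w 0 ∈ Cond ∧ H83.AC.Fc N φ (w 0) (cons σ (sh w)))) :=
      UD.allN (R := fun N σ w => H83.AC.HS N σ →
        (w 0 ∈ Cond ∧ H83.AC.Fc N φ (w 0) (cons σ (sh w))))
        (UD.imp (UR.HS (UF.var 0)) h1)
    refine (UD.and (UR.mem (UF.var 0) UF.Cond) h2).congr fun N _ v _ => ?_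
    constructor
    · rintro ⟨hp, H⟩
      exact ⟨hp, fun σ hσ hs => ⟨hp, H σ hσ hs⟩⟩
    · rintro ⟨hp, H⟩
      exact ⟨hp, fun σ hσ hs => (H σ hσ hs).2⟩

end H83.AC
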