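import Pool.Agent.H83.AC.TruthA
import Pool.Agent.H83.AC.FcU

/-!
# Module Truth: the truth lemma for the symmetric extension

Induction on `φ` for all `v` with values in `M` which are hereditarily symmetric names.
`imp`: (→) let `D` be the set of all `q ∈ Cond` with `Fc (imp φ ψ) q v`, or with `Fc φ q v` and no
`r ⊇ q` with `Fc ψ r v`; it is dense (if `q` does not force `imp φ ψ` there is `q' ⊇ q` which forces
`φ` but not `ψ`; by `Fc_dense` some `r ⊇ q'` has no extension forcing `ψ`) and in `M` (`UR.Fc`,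
`TM.sep_of`); the second alternative contradicts the truth of `φ → ψ`.
(←) `p` forces `imp φ ψ` and some fitting `q` forces `φ`; take `p ∪ q`.
`all`: (→) `D` = all `q` with `Fc (all φ) q v`, or such that for some `σ ∈ M`, `HS M σ`, no `r ⊇ q`
forces `φ (cons σ v)`. (←) clear: the elements of `NN M c` are the `val c σ`.
(`fun i => val c (cons σ v i) = cons (val c σ) (fun i => val c (v i))` by `funext` and cases.)
-/

namespace H83.AC

open ZFSet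

/-- the definability of the dense set for an implication -/
private theorem Truth_urImp (φ ψ : Fml) : UR (fun N w =>
    (w 0 ∈ Cond ∧ Fc N (.imp φ ψ) (w 0) (sh w)) ∨ ((w 0 ∈ Cond ∧ Fc N φ (w 0) (sh w)) ∧
      ∀ r ∈ Cond, w 0 ⊆ r → ¬ (r ∈ Cond ∧ Fc N ψ r (sh w)))) := by
  refine UD.or (UR.Fc (.imp φ ψ)) (UD.and (UR.Fc φ) ?_)
  refine UR.ball (f := fun _ _ => H83.AC.Cond)
    (R := fun N r w => w 0 ⊆ r → ¬ (r ∈ Cond ∧ Fc N ψ r (sh w))) UF.Cond ?_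
  refine UD.imp (UR.sub (UF.var 1) (UF.var 0)) (UD.not ?_)
  exact ((UR.Fc ψ).ren (fun n => if n = 0 then 0 else n + 1)).congr fun N _ w _ => Iff.rfl

/-- the definability of the dense set for a universal quantifier -/
private theorem Truth_urAll (φ : Fml) : UR (fun N w =>
    (w 0 ∈ Cond ∧ Fc N (.all φ) (w 0) (sh w)) ∨ (∃ σ ∈ N, HS N σ ∧
      ∀ r ∈ Cond, w 0 ⊆ r → ¬ (r ∈ Cond ∧ Fc N φ r (cons σ (sh w))))) := by
  refine UD.or (UR.Fc (.all φ)) ?_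
  refine UD.exN (R := fun N σ w => HS N σ ∧
    ∀ r ∈ Cond, w 0 ⊆ r → ¬ (r ∈ Cond ∧ Fc N φ r (cons σ (sh w)))) ?_
  refine UD.and (UR.HS (UF.var 0)) ?_
  refine UR.ball (f := fun _ _ => H83.AC.Cond)
    (R := fun N r w => w 1 ⊆ r → ¬ (r ∈ Cond ∧ Fc N φ r (cons (w 0) (sh (sh w))))) UF.Cond ?_
  refine UD.imp (UR.sub (UF.var 2) (UF.var 0)) (UD.not ?_)
  refine ((UR.Fc φ).ren (fun n => if n = 0 then 0 else if n = 1 then 1 else n + 1)).congr
    fun N _ w _ => ?_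
  have e : (sh (fun n => w ((fun n => if n = 0 then 0 else if n = 1 then 1 else n + 1) n))) =
      cons (sh w 0) (sh (sh (sh w))) := by
    funext n
    cases n with
    | zero => rfl
    | succ n => rfl
  show (w 0 ∈ Cond ∧ Fc N φ (w 0) (cons (sh w 0) (sh (sh (sh w))))) ↔ _
  rw [← e]
  exact Iff.rfl

private theorem Truth_imp {M c : Set ZFSet.{0}} (hM : TM M) (hc : Gen M c) (φ ψ : Fml)
    (v : ℕ → ZFSet.{0}) (hv : ∀ i, v i ∈ M ∧ HS M (v i))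
    (h1 : SatIn (NN M c) φ (fun i => val c (v i)) ↔ ∃ p ∈ Cond, Fits p c ∧ Fc M φ p v)
    (h2 : SatIn (NN M c) ψ (fun i => val c (v i)) ↔ ∃ p ∈ Cond, Fits p c ∧ Fc M ψ p v) :
    SatIn (NN M c) (.imp φ ψ) (fun i => val c (v i)) ↔
      ∃ p ∈ Cond, Fits p c ∧ Fc M (.imp φ ψ) p v := by
  constructor
  · intro H
    have hD := TM.sep_of (R := fun N x w =>
      (x ∈ Cond ∧ Fc N (.imp φ ψ) x w) ∨ ((x ∈ Cond ∧ Fc N φ x w) ∧
        ∀ r ∈ Cond, x ⊆ r → ¬ (r ∈ Cond ∧ Fc N ψ r w))) (Truth_urImp φ ψ) hM (v := v)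
      (fun i => (hv i).1) (UF.Cond.mem M hM v (fun i => (hv i).1))
    have hd : Dense (ZFSet.sep (fun x => (x ∈ Cond ∧ Fc M (.imp φ ψ) x v) ∨
        ((x ∈ Cond ∧ Fc M φ x v) ∧ ∀ r ∈ Cond, x ⊆ r → ¬ (r ∈ Cond ∧ Fc M ψ r v))) Cond) := by
      refine ⟨fun x hx => (mem_sep.1 hx).1, fun p hp => ?_⟩
      by_cases hF : Fc M (.imp φ ψ) p v
      · exact ⟨p, mem_sep.2 ⟨hp, Or.inl ⟨hp, hF⟩⟩, fun _ h => h⟩
      · have hF' : ¬ ∀ q ∈ Cond, p ⊆ q → Fc M φ q v → Fc M ψ q v := hF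
        push Not at hF'
        obtain ⟨q, hq, hpq, hqφ, hqψ⟩ := hF'
        have hn : ¬ ∀ q' ∈ Cond, q ⊆ q' → ∃ r ∈ Cond, q' ⊆ r ∧ Fc M ψ r v :=
          fun h => hqψ (Fc_dense ψ hq h)
        push Not at hn
        obtain ⟨q', hq', hqq', hn⟩ := hn
        exact ⟨q', mem_sep.2 ⟨hq', Or.inr ⟨⟨hq', Fc_mono φ hqq' hqφ⟩,
          fun r hr hqr hh => hn r hr hqr hh.2⟩⟩, fun _ h => hqq' (hpq h)⟩
    obtain ⟨q, hq, hfit⟩ := hc.2 _ hD hd
    obtain ⟨hqC, hq | ⟨hq, hn⟩⟩ := mem_sep.1 hq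
    · exact ⟨q, hqC, hfit, hq.2⟩
    · exfalso
      have hs : SatIn (NN M c) ψ (fun i => val c (v i)) := H (h1.2 ⟨q, hqC, hfit, hq.2⟩)
      obtain ⟨p, hp, hpf, hpψ⟩ := h2.1 hs
      obtain ⟨hr, -⟩ := union_fits hqC hp hfit hpf
      exact hn (q ∪ p) hr (fun x hx => mem_union.2 (Or.inl hx))
        ⟨hr, Fc_mono ψ (fun x hx => mem_union.2 (Or.inr hx)) hpψ⟩
  · rintro ⟨p, hp, hpf, hF⟩ hs
    obtain ⟨q, hq, hqf, hqφ⟩ := h1.1 hs
    obtain ⟨hr, hrf⟩ := union_fits hp hq hpf hqf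
    exact h2.2 ⟨p ∪ q, hr, hrf, hF (p ∪ q) hr (fun x hx => mem_union.2 (Or.inl hx))
      (Fc_mono φ (fun x hx => mem_union.2 (Or.inr hx)) hqφ)⟩

theorem truth {M c : Set ZFSet.{0}} (hM : TM M) (hc : Gen M c) (φ : Fml) (v : ℕ → ZFSet.{0})
    (hv : ∀ i, v i ∈ M ∧ HS M (v i)) :
    SatIn (NN M c) φ (fun i => val c (v i)) ↔ ∃ p ∈ Cond, Fits p c ∧ Fc M φ p v := by
  induction φ generalizing v with
  | bot =>
    constructor
    · intro h
      exact absurd h id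
    · rintro ⟨p, -, -, h⟩
      exact absurd h id
  | eq i j => exact truth_eq hM hc (hv i).1 (hv j).1
  | mem i j => exact truth_mem hM hc (hv i).1 (hv j).1
  | imp φ ψ h1 h2 => exact Truth_imp hM hc φ ψ v hv (h1 v hv) (h2 v hv)
  | all φ ih =>
    have hcons : ∀ σ : ZFSet.{0}, (fun i => val c (cons σ v i)) =
        cons (val c σ) (fun i => val c (v i)) := by
      intro σ
      funext i
      cases i with
      | zero => rfl
      | succ i => rfl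
    have hcv : ∀ σ ∈ M, HS M σ → ∀ i, cons σ v i ∈ M ∧ HS M (cons σ v i) := by
      intro σ hσ hs i
      cases i with
      | zero => exact ⟨hσ, hs⟩
      | succ i => exact hv i
    constructor
    · intro H
      have hD := TM.sep_of (R := fun N x w =>
        (x ∈ Cond ∧ Fc N (.all φ) x w) ∨ (∃ σ ∈ N, HS N σ ∧
          ∀ r ∈ Cond, x ⊆ r → ¬ (r ∈ Cond ∧ Fc N φ r (cons σ w)))) (Truth_urAll φ) hM (v := v)
        (fun i => (hv i).1) (UF.Cond.mem M hM v (fun i => (hv i).1))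
      have hd : Dense (ZFSet.sep (fun x => (x ∈ Cond ∧ Fc M (.all φ) x v) ∨ (∃ σ ∈ M, HS M σ ∧
          ∀ r ∈ Cond, x ⊆ r → ¬ (r ∈ Cond ∧ Fc M φ r (cons σ v)))) Cond) := by
        refine ⟨fun x hx => (mem_sep.1 hx).1, fun p hp => ?_⟩
        by_cases hF : Fc M (.all φ) p v
        · exact ⟨p, mem_sep.2 ⟨hp, Or.inl ⟨hp, hF⟩⟩, fun _ h => h⟩
        · have hF' : ¬ ∀ σ ∈ M, HS M σ → Fc M φ p (cons σ v) := hF
          push Not at hF'
          obtain ⟨σ, hσ, hs, hn0⟩ := hF'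
          have hn : ¬ ∀ q' ∈ Cond, p ⊆ q' → ∃ r ∈ Cond, q' ⊆ r ∧ Fc M φ r (cons σ v) :=
            fun h => hn0 (Fc_dense φ hp h)
          push Not at hn
          obtain ⟨q', hq', hpq', hn⟩ := hn
          exact ⟨q', mem_sep.2 ⟨hq', Or.inr ⟨σ, hσ, hs,
            fun r hr hqr hh => hn r hr hqr hh.2⟩⟩, hpq'⟩
      obtain ⟨q, hq, hfit⟩ := hc.2 _ hD hd
      obtain ⟨hqC, hq | ⟨σ, hσ, hs, hn⟩⟩ := mem_sep.1 hq
      · exact ⟨q, hqC, hfit, hq.2⟩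
      · exfalso
        have h3 := H (val c σ) ⟨σ, hσ, hs, rfl⟩
        rw [← hcons σ] at h3
        obtain ⟨p, hp, hpf, hpφ⟩ := (ih (cons σ v) (hcv σ hσ hs)).1 h3
        obtain ⟨hr, -⟩ := union_fits hqC hp hfit hpf
        exact hn (q ∪ p) hr (fun x hx => mem_union.2 (Or.inl hx))
          ⟨hr, Fc_mono φ (fun x hx => mem_union.2 (Or.inr hx)) hpφ⟩
    · rintro ⟨p, hp, hpf, hF⟩ x ⟨σ, hσ, hs, rfl⟩
      rw [← hcons σ]
      exact (ih (cons σ v) (hcv σ hσ hs)).2 ⟨p, hp, hpf, hF σ hσ hs⟩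

end H83.AC
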