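import Pool.Agent.H83.AC.NNa
import Pool.Agent.H83.AC.Truth
import Pool.Agent.H83.AC.ActF
import Pool.Agent.H83.AC.Coll

/-!
# Module NNd: collection in the symmetric extension

`x = val c σ`, `v i = val c (u i)`. By collection in `M` (`TM.coll`, `UR.Fc`, `UR.HS`) there is
`B ∈ M` such that for all `π ∈ nd σ`, `p ∈ Cond`: if some `τ ∈ M`, `HS M τ` has
`Fc M φ p (cons π (cons τ u))` then some `τ ∈ B` has this. (Use the set `prod (nd σ) Cond` and
`fst`, `snd`.) Let `B' = {actN z τ : τ ∈ B, HS M τ, z ∈ M, z ⊆ Idx} ∪ {τ ∈ B : HS M τ}` (in `M`: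
`UF.pow` for the set of all `z`); it is closed under `actN z`: `actN z (actN z' τ)` is
`actN (z symmetric difference z') τ` (prove this), or simply close under all `z` and note that
`actN z (actN z' τ)` is of the same form; the name `{(τ, ∅) : τ ∈ B'}` is then fixed by all `z`.
For `a ∈ x` and `w ∈ NN M c` with `SatIn φ (cons a (cons w v))`: `a = val c π`, `w = val c τ`; by
`truth` some fitting `p` forces it, so some `τ' ∈ B` has `Fc M φ p (cons π (cons τ' u))`, and then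
`w' = val c τ'` satisfies `φ` (`truth` again).
-/

namespace H83.AC

open ZFSet

/-- symmetric difference of two sets -/
private noncomputable def sdz (z z' : ZFSet.{0}) : ZFSet.{0} := (z \ z') ∪ (z' \ z)

private theorem mem_sdz {z z' a : ZFSet.{0}} :
    a ∈ sdz z z' ↔ (a ∈ z ∧ a ∉ z') ∨ (a ∈ z' ∧ a ∉ z) := by
  simp [sdz]

private theorem flip_pair (z a i : ZFSet.{0}) [Decidable (a ∈ z)] [Decidable (i = ∅)] :
    flip z (pair a i) = if a ∈ z then pair a (if i = ∅ then one else ∅) else pair a i := by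
  classical
  unfold flip
  rw [fst_pair, snd_pair]
  congr

private theorem flip_flip {z z' t : ZFSet.{0}}
    (ht : ∃ a ∈ Idx, t = pair a one ∨ t = pair a ∅) :
    flip z (flip z' t) = flip (sdz z z') t := by
  classical
  obtain ⟨a, -, rfl | rfl⟩ := ht
  · rw [flip_pair z' a one, flip_pair (sdz z z') a one, if_neg one_ne_empty]
    by_cases h1 : a ∈ z' <;> by_cases h2 : a ∈ z <;>
      simp [mem_sdz, h1, h2, flip_pair, one_ne_empty]
  · rw [flip_pair z' a ∅, flip_pair (sdz z z') a ∅, if_pos rfl]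
    by_cases h1 : a ∈ z' <;> by_cases h2 : a ∈ z <;>
      simp [mem_sdz, h1, h2, flip_pair, one_ne_empty]

private theorem actC_sdz {z z' p : ZFSet.{0}} (hp : p ∈ Cond) :
    actC z (actC z' p) = actC (sdz z z') p := by
  ext t
  simp only [actC, mem_img]
  constructor
  · rintro ⟨s, ⟨r, hr, rfl⟩, rfl⟩
    exact ⟨r, hr, (flip_flip (cond_lit hp hr)).symm⟩
  · rintro ⟨r, hr, rfl⟩
    exact ⟨_, ⟨r, hr, rfl⟩, flip_flip (cond_lit hp hr)⟩

private theorem actN_sdz (z z' : ZFSet.{0}) (σ : ZFSet.{0}) :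
    actN z (actN z' σ) = actN (sdz z z') σ := by
  ext t
  rw [mem_actN, mem_actN]
  constructor
  · rintro ⟨π, p, hp, h, rfl⟩
    rw [mem_actN] at h
    obtain ⟨π', p', hp', h', e⟩ := h
    rw [pair_inj] at e
    obtain ⟨rfl, rfl⟩ := e
    have hlt : rank π' < rank σ := rank_fst_lt h'
    refine ⟨π', p', hp', h', ?_⟩
    rw [actN_sdz z z' π', actC_sdz hp']
  · rintro ⟨π', p', hp', h', rfl⟩
    have hlt : rank π' < rank σ := rank_fst_lt h'
    refine ⟨actN z' π', actC z' p', actC_cond hp', mem_actN.2 ⟨π', p', hp', h', rfl⟩, ?_⟩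
    rw [actN_sdz z z' π', actC_sdz hp']
termination_by rank σ

private theorem sdz_self (z : ZFSet.{0}) : sdz z z = ∅ := by
  ext a
  rw [mem_sdz]
  simp

private theorem sdz_empty (z : ZFSet.{0}) : sdz z ∅ = z := by
  ext a
  rw [mem_sdz]
  simp

private theorem actN_empty {σ : ZFSet.{0}} (h : IsName σ) : actN ∅ σ = σ := by
  have h1 := actN_sdz ∅ ∅ σ
  rw [sdz_self, actN_actN h] at h1
  exact h1.symm

private theorem sdz_mem {M : Set ZFSet.{0}} (hM : TM M) {z z' : ZFSet.{0}} (hz : z ∈ M)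
    (hz' : z' ∈ M) : sdz z z' ∈ M := by
  have h : UF (fun _ v => (v 0 \ v 1) ∪ (v 1 \ v 0)) := by (repeat' first
      | assumption | exact UF.var _ | exact UD.true | exact UD.false | apply UF.empty
      | apply UF.fgr | apply UF.uni | apply UF.img | apply UF.pow | apply UF.sep | apply UF.pair
      | apply UF.upair | apply UF.singleton | apply UF.insert | apply UF.union | apply UF.inter
      | apply UF.diff | apply UF.prod | apply UF.sUnion | apply UF.app | apply UF.dom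
      | apply UF.rng | apply UF.fst | apply UF.snd | apply UF.ite | apply UD.and | apply UD.or
      | apply UR.ball | apply UR.bex | apply UD.allN | apply UD.exN | apply UD.iff | apply UR.mem
      | apply UR.eq | apply UR.sub | apply UD.not | apply UD.imp | exact UD.prop _)
  exact h.mem M hM (cons z (fun _ => z')) (fun n => by
    cases n with
    | zero => exact hz
    | succ n => exact hz')

private theorem sdz_sub {z z' : ZFSet.{0}} (hz : z ⊆ Idx) (hz' : z' ⊆ Idx) : sdz z z' ⊆ Idx := by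
  intro a ha
  rcases mem_sdz.1 ha with h | h
  · exact hz h.1
  · exact hz' h.1

private theorem cons_sh (v : ℕ → ZFSet.{0}) : cons (v 0) (sh v) = v := by
  funext n
  cases n <;> rfl

private theorem Q_ud (φ : Fml) : UR (fun N v =>
    snd (v 0) ∈ Cond ∧ H83.AC.Fc N φ (snd (v 0)) (cons (fst (v 0)) (sh v))) := by
  have h0 := UR.Fc φ
  have h1 := h0.ren (fun n => if n ≤ 1 then n else n + 1)
  have h2 : UR (fun N v => v 0 ∈ Cond ∧ H83.AC.Fc N φ (v 0) (cons (v 1) (sh (sh (sh v))))) := by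
    refine h1.congr fun N _ v _ => ?_
    have e : (sh fun n => v (if n ≤ 1 then n else n + 1)) = cons (v 1) (sh (sh (sh v))) := by
      funext n
      rcases n with _ | n
      · rfl
      · show v (if n + 1 + 1 ≤ 1 then n + 1 + 1 else n + 1 + 1 + 1) = v (n + 3)
        rw [if_neg (by omega)]
    rw [e]
    exact Iff.rfl
  have h3 : UR (fun N v => snd (v 1) ∈ Cond ∧
      H83.AC.Fc N φ (snd (v 1)) (cons (v 0) (sh (sh v)))) :=
    UD.subst (R := fun N x v => x ∈ Cond ∧ H83.AC.Fc N φ x (cons (v 0) (sh (sh v))))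
      h2 (UF.snd (UF.var 1))
  exact UD.subst (R := fun N x v => snd (v 0) ∈ Cond ∧
      H83.AC.Fc N φ (snd (v 0)) (cons x (sh v))) h3 (UF.fst (UF.var 0))

private theorem R_ud (φ : Fml) : UR (fun N v => H83.AC.HS N (v 1) ∧ (snd (v 0) ∈ Cond ∧
    H83.AC.Fc N φ (snd (v 0)) (cons (fst (v 0)) (cons (v 1) (sh (sh v)))))) := by
  refine ((UR.HS (UF.var 1)).and (Q_ud φ)).congr fun N _ v _ => ?_
  have e : cons (v 1) (sh (sh v)) = sh v := cons_sh (sh v)
  rw [e]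

theorem NN_coll {M c : Set ZFSet.{0}} (hM : TM M) (hc : Gen M c) (φ : Fml) {v : ℕ → ZFSet.{0}}
    (hv : ∀ i, v i ∈ NN M c) {x : ZFSet.{0}} (hx : x ∈ NN M c) :
    ∃ b ∈ NN M c, ∀ a ∈ x, (∃ w ∈ NN M c, SatIn (NN M c) φ (cons a (cons w v))) →
      ∃ w ∈ b, SatIn (NN M c) φ (cons a (cons w v)) := by
  choose u hu using hv
  obtain ⟨σ, hσM, hσ, rfl⟩ := hx
  have huM : ∀ i, u i ∈ M := fun i => (hu i).1
  have huH : ∀ i, HS M (u i) := fun i => (hu i).2.1
  have huv : ∀ i, v i = val c (u i) := fun i => (hu i).2.2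
  have hcons : ∀ {y : ZFSet.{0}} {s : ℕ → ZFSet.{0}}, y ∈ M → (∀ i, s i ∈ M) →
      ∀ i, cons y s i ∈ M := by
    intro y s hy hs i
    cases i with
    | zero => exact hy
    | succ i => exact hs i
  have hP : ZFSet.prod (nd σ) Cond ∈ M :=
    (UF.prod (UF.nd (UF.var 0)) UF.Cond).mem M hM (cons σ u) (hcons hσM huM)
  obtain ⟨B, hBM, hB⟩ := TM.coll
    (R := fun N t τ w => H83.AC.HS N τ ∧ (snd t ∈ Cond ∧
      H83.AC.Fc N φ (snd t) (cons (fst t) (cons τ w)))) (R_ud φ) hM huM hP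
  set H : ZFSet.{0} := ZFSet.sep (fun τ => HS M τ) B with hH
  have hHM : H ∈ M := TM.sep_of (R := fun N x _ => H83.AC.HS N x) (UR.HS (UF.var 0)) hM huM hBM
  set Z : ZFSet.{0} := ZFSet.sep (fun z => z ∈ M) (powerset Idx) with hZ
  have hZM : Z ∈ M := hM.pow_of (UF.Idx.mem M hM u huM)
  have hmZ : ∀ z, z ∈ Z ↔ z ⊆ Idx ∧ z ∈ M := by
    intro z
    rw [hZ, mem_sep, mem_powerset]
  have hmH : ∀ τ, τ ∈ H ↔ τ ∈ B ∧ HS M τ := by
    intro τ
    rw [hH, mem_sep]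
  set B1 : ZFSet.{0} := uni (fun z => img (fun τ => actN z τ) H) Z with hB1
  have hB1M : B1 ∈ M := by
    have h : UF (fun _ v => uni (fun z => img (fun τ => actN z τ) (v 1)) (v 0)) :=
      UF.uni (F := fun _ z v => img (fun τ => actN z τ) (v 1)) (UF.var 0)
        (UF.img (F := fun _ τ v => actN (v 0) τ) (UF.var 2) (UF.actN (UF.var 1) (UF.var 0)))
    exact h.mem M hM (cons Z (cons H u)) (hcons hZM (hcons hHM huM))
  have hmB1 : ∀ ρ, ρ ∈ B1 ↔ ∃ z ∈ Z, ∃ τ ∈ H, actN z τ = ρ := by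
    intro ρ
    rw [hB1, mem_uni]
    simp only [mem_img]
  have hB1cl : ∀ z ∈ Z, ∀ ρ ∈ B1, actN z ρ ∈ B1 := by
    intro z hz ρ hρ
    obtain ⟨z', hz', τ, hτ, rfl⟩ := (hmB1 ρ).1 hρ
    rw [hmB1]
    have h1 := (hmZ z).1 hz
    have h2 := (hmZ z').1 hz'
    exact ⟨sdz z z', (hmZ _).2 ⟨sdz_sub h1.1 h2.1, sdz_mem hM h1.2 h2.2⟩, τ, hτ,
      (actN_sdz z z' τ).symm⟩
  have hB1HS : ∀ ρ ∈ B1, HS M ρ := by
    intro ρ hρ
    obtain ⟨z', hz', τ, hτ, rfl⟩ := (hmB1 ρ).1 hρ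
    exact HS_actN ((hmH τ).1 hτ).2
  have hHB1 : ∀ τ ∈ H, τ ∈ B1 := by
    intro τ hτ
    rw [hmB1]
    refine ⟨∅, (hmZ _).2 ⟨by simp, ?_⟩, τ, hτ, actN_empty ((hmH τ).1 hτ).2.isName⟩
    exact UF.empty.mem M hM u huM
  set b0 : ZFSet.{0} := img (fun τ => pair τ ∅) B1 with hb0
  have hb0M : b0 ∈ M := by
    have h : UF (fun _ v => img (fun τ => pair τ ∅) (v 0)) :=
      UF.img (F := fun _ τ _ => pair τ ∅) (UF.var 0) (UF.pair (UF.var 0) UF.empty)
    exact h.mem M hM (cons B1 u) (hcons hB1M huM)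
  have hmb0 : ∀ π p, pair π p ∈ b0 ↔ π ∈ B1 ∧ p = ∅ := by
    intro π p
    rw [hb0, mem_img]
    constructor
    · rintro ⟨τ, hτ, e⟩
      rw [pair_inj] at e
      obtain ⟨rfl, rfl⟩ := e
      exact ⟨hτ, rfl⟩
    · rintro ⟨h1, rfl⟩
      exact ⟨π, h1, rfl⟩
  have hb0HS : HS M b0 := by
    rw [HS_iff]
    refine ⟨?_, ⟨nz 0, nz_mem_omega 0, ?_⟩, ?_⟩
    · intro t ht
      rw [hb0, mem_img] at ht
      obtain ⟨τ, -, rfl⟩ := ht
      exact ⟨τ, ∅, empty_cond, rfl⟩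
    · intro z hz hav
      have hzZ : z ∈ Z := (hmZ z).2 ⟨hav.1, hz⟩
      ext t
      rw [mem_actN]
      constructor
      · rintro ⟨π, p, -, h, rfl⟩
        obtain ⟨h1, rfl⟩ := (hmb0 π p).1 h
        rw [actC_empty]
        exact (hmb0 _ _).2 ⟨hB1cl z hzZ π h1, rfl⟩
      · intro ht
        rw [hb0, mem_img] at ht
        obtain ⟨τ, hτ, rfl⟩ := ht
        refine ⟨actN z τ, ∅, empty_cond, (hmb0 _ _).2 ⟨hB1cl z hzZ τ hτ, rfl⟩, ?_⟩
        rw [actC_empty, actN_actN (hB1HS τ hτ).isName]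
    · intro π hπ
      obtain ⟨p, -, hp⟩ := mem_nd.1 hπ
      exact hB1HS π ((hmb0 π p).1 hp).1
  refine ⟨val c b0, ⟨b0, hb0M, hb0HS, rfl⟩, ?_⟩
  rintro a ha ⟨w, ⟨τ, hτM, hτ, rfl⟩, hw⟩
  obtain ⟨π, p0, hp0, -, hπσ, rfl⟩ := mem_val.1 ha
  have hπnd : π ∈ nd σ := mem_nd.2 ⟨p0, hp0, hπσ⟩
  have hπM : π ∈ M := hM.tr _ ((UF.nd (UF.var 0)).mem M hM (cons σ u) (hcons hσM huM)) π hπnd
  have hπ : HS M π := (HS_iff.1 hσ).2.2 π hπnd
  have hval : ∀ τ : ZFSet.{0}, (fun i => val c (cons π (cons τ u) i)) =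
      cons (val c π) (cons (val c τ) v) := by
    intro τ
    funext i
    rcases i with _ | _ | i
    · rfl
    · rfl
    · exact (huv i).symm
  have hnames : ∀ τ : ZFSet.{0}, τ ∈ M → HS M τ →
      ∀ i, cons π (cons τ u) i ∈ M ∧ HS M (cons π (cons τ u) i) := by
    intro τ h1 h2 i
    rcases i with _ | _ | i
    · exact ⟨hπM, hπ⟩
    · exact ⟨h1, h2⟩
    · exact ⟨huM i, huH i⟩
  rw [← hval τ, truth hM hc φ _ (hnames τ hτM hτ)] at hw
  obtain ⟨p, hp, hpc, hF⟩ := hw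
  obtain ⟨τ', hτ'B, hτ', -, hF'⟩ := hB (pair π p) (by
    rw [mem_prod]
    exact ⟨π, hπnd, p, hp, rfl⟩) ⟨τ, hτM, hτ, by rwa [snd_pair], by
      rw [snd_pair, fst_pair]
      exact hF⟩
  have hτ'M : τ' ∈ M := hM.tr _ hBM τ' hτ'B
  rw [snd_pair, fst_pair] at hF'
  refine ⟨val c τ', mem_val.2 ⟨τ', ∅, empty_cond, fits_empty c, (hmb0 _ _).2
    ⟨hHB1 τ' ((hmH τ').2 ⟨hτ'B, hτ'⟩), rfl⟩, rfl⟩, ?_⟩
  rw [← hval τ', truth hM hc φ _ (hnames τ' hτ'M hτ')]
  exact ⟨p, hp, hpc, hF'⟩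

end H83.AC
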