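import Pool.Agent.H83.AC.KBa
import Pool.Agent.H83.AC.KBb
import Pool.Agent.H83.AC.Ords
import Pool.Agent.H83.AC.NNtm
import Pool.Agent.H83.AC.LAtt
import Pool.Agent.H83.AC.CutN

/-!
# Module KBc: from a certificate to a name in the ground model

`kb_collapse`, `kb_sat` with `χ = phi0`, `n = 0`: `PsiK (cls X)` (`phi0_bd`, `phi0_iff`; `tup 0 v = ∅`).
`F (tg 0 h) = h` for `h ∈ HF` by induction on `rank h` (`base`; elements of `F (tg 0 h) ∈ X` are of the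
form `F j`, `j ∈ HF`). Let `e' = F te`, `e = e' ∩ prod (CondC (nz k)) HF`.
`x ⊆ HF` (`fn_HF`). `h ∈ x ↔ ∃ p ∈ CondC (nz k), Fits p c ∧ pair p h ∈ e'`: `pos`, `neg`, with
`pair p h = F (tg 0 (pair p h))`, and `Fits p (cls (cut c (nz k))) ↔ Fits p c` for `p ∈ CondC (nz k)`
(module CutN). So `x = ev e c`. `PsiK_sub` gives `x₁ ∈ X` with `e' ∈ Lh x₁`; `x₁ ∈ N` (transitive), so
`rk x₁ ∈ M` (`rk_NN`) and `Lh x₁ = Lh (rk x₁) ∈ M` (`rank_rk`, `UF.Lh`); so `e' ∈ M` and `e ∈ M`.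
-/

namespace H83.AC

open ZFSet

theorem kback {M c : Set ZFSet.{0}} (hM : TM M) (hc : Gen M c) {k : ℕ} {x y : ZFSet.{0}}
    (hx : Real (NN M c) x) (hy : Real (NN M c) y)
    (hK : KK phi0 (nz k) (cut c (nz k)) x y)
    (hno : ∀ f ∈ NN M c, IsFunc omega HF f → ¬ DescY y f) :
    ∃ e ∈ M, e ⊆ ZFSet.prod (CondC (nz k)) HF ∧ x = ev e c := by
  have hN : TM (NN M c) := NN_tm hM hc
  obtain ⟨F, X, hXN, hX, hXt, hQ, hE⟩ := kb_collapse hN hy hK hno
  have hXtr : IsTr (cls X) := fun a ha b hb => hXt a ha hb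
  have hFX : ∀ i ∈ HF, F i ∈ X := fun i hi => (hX _).2 ⟨i, hi, rfl⟩
  have hpsi : PsiK (cls X) := by
    refine (phi0_iff hXtr (v := fun _ => F ∅) fun _ => hFX _ HF_empty).1 ?_
    exact (kb_sat hX hQ hE phi0 0 hK.tc phi0_bd (fun _ => ∅) fun _ => HF_empty).2 hK.t0
  -- the hereditarily finite sets are fixed
  have hfix : ∀ h : ZFSet.{0}, h ∈ HF → F (tg 0 h) = h := by
    intro h
    induction h using ZFSet.inductionOn with
    | _ h ih =>
      intro hh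
      have hsub : ∀ z ∈ h, z ∈ HF := fun z hz => HF_tr hh hz
      ext z
      constructor
      · intro hz
        obtain ⟨j, hj, rfl⟩ := (hX z).1 (hXt _ (hFX _ (tg_HF hh)) hz)
        obtain ⟨h', hh', hq⟩ := (hK.base j hj h hh).1 ((hE j hj _ (tg_HF hh)).1 hz)
        have h1 : F j = F (tg 0 h') := (hQ j hj _ (tg_HF (hsub h' hh'))).2 hq
        rw [h1, ih h' hh' (hsub h' hh')]
        exact hh'
      · intro hz
        have h1 : F (tg 0 z) ∈ F (tg 0 h) :=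
          (hE _ (tg_HF (hsub z hz)) _ (tg_HF hh)).2
            ((hK.base _ (tg_HF (hsub z hz)) h hh).2 ⟨z, hz, hK.qr _ (tg_HF (hsub z hz))⟩)
        rwa [ih z hz (hsub z hz)] at h1
  have hkey : ∀ p ∈ CondC (nz k), ∀ h ∈ HF,
      (bE y (tg 0 (pair p h)) te ↔ pair p h ∈ F te) := by
    intro p hp h hh
    have hpC : p ∈ Cond := by
      rw [CondC, mem_sep] at hp
      exact hp.1
    have h1 : pair p h ∈ HF := HF_pair (cond_HF hpC) hh
    rw [← hE _ (tg_HF h1) _ te_HF, hfix _ h1]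
  have hHF : HF ∈ M := by
    have h0 : rk x ∈ M := rk_NN hM hx.1
    exact UF.HF.mem M hM (fun _ => rk x) (fun _ => h0)
  have hnz : nz k ∈ M := hM.tr _ hHF _ (HF_nz k)
  -- the name is in the ground model
  have heM : F te ∈ M := by
    obtain ⟨x₁, hx₁, hz⟩ := PsiK_sub hXtr hpsi (hFX te te_HF)
    have h1 : x₁ ∈ NN M c := hN.tr _ hXN _ hx₁
    have h2 : rk x₁ ∈ M := rk_NN hM h1
    have h3 : Lh (rk x₁) ∈ M := (UF.Lh (UF.var 0)).mem M hM (fun _ => rk x₁) (fun _ => h2)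
    have h4 : Lh (rk x₁) = Lh x₁ := by
      unfold Lh
      rw [rank_rk]
    rw [h4] at h3
    exact hM.tr _ h3 _ hz
  have heM' : F te ∩ ZFSet.prod (CondC (nz k)) HF ∈ M :=
    (UF.inter (UF.var 0) (UF.prod (UF.CondC (UF.var 1)) UF.HF)).mem M hM
      (fun i => if i = 0 then F te else nz k) (fun i => by
        by_cases hi : i = 0
        · simp [hi, heM]
        · simp [hi, hnz])
  refine ⟨F te ∩ ZFSet.prod (CondC (nz k)) HF, heM', fun t ht => (ZFSet.mem_inter.1 ht).2, ?_⟩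
  ext h
  rw [mem_ev]
  constructor
  · intro hh
    have hH : h ∈ HF := fn_HF hx.2 hh
    obtain ⟨h1, h2, h3⟩ := hK.pos h hH hh
    have hpC : bW y h ∈ Cond := by
      have := h1
      rw [CondC, mem_sep] at this
      exact this.1
    refine ⟨bW y h, hpC, (cut_fits h1).1 h2, ZFSet.mem_inter.2 ⟨(hkey _ h1 h hH).1 h3, ?_⟩⟩
    exact ZFSet.mem_prod.2 ⟨_, h1, _, hH, rfl⟩
  · rintro ⟨p, hpC, hpf, hpe⟩
    obtain ⟨h1, h2⟩ := ZFSet.mem_inter.1 hpe
    obtain ⟨h3, h4⟩ := ZFSet.pair_mem_prod.1 h2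
    exact hK.neg h h4 p h3 ((cut_fits h3).2 hpf) ((hkey p h3 h h4).2 h1)

end H83.AC
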