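import Pool.Agent.H83.AC.LocA

/-!
# Module KKC: the set of certificates is closed

`TC_clo` by induction on `χ`, all `n` (`Clo.and`, `Clo.ball`, `Clo.imp`, `Loc.clo`, `Loc.iff`, ..).
`KK_clo`: `KK` is the conjunction of its fields; every field is a `∀ ∈ HF` of a locally constant
relation. In `pos`: `Loc.imp (Loc.memx h)` and `Loc.comp (LocF.bW h)` applied to
`R p x y = (p ∈ CondC k ∧ Fits p (cls s) ∧ bE y (tg 0 (pair h p)) te)`.
-/

namespace H83.AC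

open ZFSet

theorem TC_clo {N : Set ZFSet.{0}} (χ : Fml) (n : ℕ) : Clo N (fun _ y => TC y χ n) := by
  induction χ generalizing n with
  | bot => exact Clo.ball fun t _ => (Loc.bT .bot t).not.clo
  | eq i j =>
    exact Clo.ball fun t _ => ((Loc.bT (.eq i j) t).iff (Loc.bQ (nth i t) (nth j t))).clo
  | mem i j =>
    exact Clo.ball fun t _ => ((Loc.bT (.mem i j) t).iff (Loc.bE (nth i t) (nth j t))).clo
  | imp φ ψ h1 h2 =>
    exact (h1 n).and ((h2 n).and (Clo.ball fun t _ =>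
      ((Loc.bT (.imp φ ψ) t).iff ((Loc.bT φ t).imp (Loc.bT ψ t))).clo))
  | all φ h =>
    exact (h (n + 1)).and (Clo.ball fun t _ =>
      (Clo.imp (Loc.bT (.all φ) t) (Clo.ball fun a _ => (Loc.bT φ (pair a t)).clo)).and
        (Clo.imp (Loc.bT (.all φ) t).not (Loc.bT φ (pair (ts φ t) t)).not.clo))

theorem KK_clo {N : Set ZFSet.{0}} (φ : Fml) (k s : ZFSet.{0}) :
    Clo N (fun x y => KK φ k s x y) := by
  have hqr : Clo N (fun _ y => ∀ i ∈ HF, bQ y i i) :=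
    Clo.ball fun i _ => (Loc.bQ i i).clo
  have hqs : Clo N (fun _ y => ∀ i ∈ HF, ∀ j ∈ HF, bQ y i j → bQ y j i) :=
    Clo.ball fun i _ => Clo.ball fun j _ => Clo.imp (Loc.bQ i j) (Loc.bQ j i).clo
  have hqt : Clo N (fun _ y => ∀ i ∈ HF, ∀ j ∈ HF, ∀ l ∈ HF, bQ y i j → bQ y j l →
      bQ y i l) :=
    Clo.ball fun i _ => Clo.ball fun j _ => Clo.ball fun l _ =>
      Clo.imp (Loc.bQ i j) (Clo.imp (Loc.bQ j l) (Loc.bQ i l).clo)
  have hel : Clo N (fun _ y => ∀ i ∈ HF, ∀ j ∈ HF, ∀ l ∈ HF, bE y i j → bQ y i l →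
      bE y l j) :=
    Clo.ball fun i _ => Clo.ball fun j _ => Clo.ball fun l _ =>
      Clo.imp (Loc.bE i j) (Clo.imp (Loc.bQ i l) (Loc.bE l j).clo)
  have her : Clo N (fun _ y => ∀ i ∈ HF, ∀ j ∈ HF, ∀ l ∈ HF, bE y i j → bQ y j l →
      bE y i l) :=
    Clo.ball fun i _ => Clo.ball fun j _ => Clo.ball fun l _ =>
      Clo.imp (Loc.bE i j) (Clo.imp (Loc.bQ j l) (Loc.bE i l).clo)
  have hex : Clo N (fun _ y => ∀ i ∈ HF, ∀ j ∈ HF, ¬ bQ y i j →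
      (bE y (tx i j) i ∧ ¬ bE y (tx i j) j) ∨ (¬ bE y (tx i j) i ∧ bE y (tx i j) j)) :=
    Clo.ball fun i _ => Clo.ball fun j _ => Clo.imp (Loc.bQ i j).not
      (((Loc.bE (tx i j) i).and (Loc.bE (tx i j) j).not).or
        ((Loc.bE (tx i j) i).not.and (Loc.bE (tx i j) j))).clo
  have htc : Clo N (fun _ y => TC y φ 0) := TC_clo φ 0
  have ht0 : Clo N (fun _ y => bT y φ ∅) := (Loc.bT φ ∅).clo
  have hbase : Clo N (fun _ y => ∀ j ∈ HF, ∀ h ∈ HF, (bE y j (tg 0 h) ↔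
      ∃ h' ∈ h, bQ y j (tg 0 h'))) :=
    Clo.ball fun j _ => Clo.ball fun h hh =>
      ((Loc.bE j (tg 0 h)).iff (Loc.bex (R := fun h' _ y => bQ y j (tg 0 h')) hh
        fun h' _ => Loc.bQ j (tg 0 h'))).clo
  have hpos : Clo N (fun x y => ∀ h ∈ HF, h ∈ x → bW y h ∈ CondC k ∧ Fits (bW y h) (cls s) ∧
      bE y (tg 0 (pair (bW y h) h)) te) := by
    refine Clo.ball (R := fun h x y => h ∈ x → bW y h ∈ CondC k ∧ Fits (bW y h) (cls s) ∧
      bE y (tg 0 (pair (bW y h) h)) te) fun h _ => ?_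
    refine Clo.imp (Loc.memx h) (Loc.clo ?_)
    exact Loc.comp (F := fun _ y => bW y h)
      (R := fun p _ y => p ∈ CondC k ∧ Fits p (cls s) ∧ bE y (tg 0 (pair p h)) te)
      (LocF.bW h) fun p => (Loc.const _).and ((Loc.const _).and (Loc.bE _ _))
  have hneg : Clo N (fun x y => ∀ h ∈ HF, ∀ p ∈ CondC k, Fits p (cls s) →
      bE y (tg 0 (pair p h)) te → h ∈ x) :=
    Clo.ball (R := fun h x y => ∀ p ∈ CondC k, Fits p (cls s) →
      bE y (tg 0 (pair p h)) te → h ∈ x) fun h _ =>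
      Clo.ball (R := fun p x y => Fits p (cls s) →
        bE y (tg 0 (pair p h)) te → h ∈ x) fun p _ => Clo.imp (Loc.const _)
        (Clo.imp (Loc.bE _ _) (Loc.memx h).clo)
  have hall := hqr.and (hqs.and (hqt.and (hel.and (her.and (hex.and (htc.and (ht0.and
    (hbase.and (hpos.and hneg)))))))))
  intro x y hx hy hn
  obtain ⟨m, hm, h⟩ := hall x y hx hy (fun H => hn ⟨H.1, H.2.1, H.2.2.1, H.2.2.2.1,
    H.2.2.2.2.1, H.2.2.2.2.2.1, H.2.2.2.2.2.2.1, H.2.2.2.2.2.2.2.1, H.2.2.2.2.2.2.2.2.1,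
    H.2.2.2.2.2.2.2.2.2.1, H.2.2.2.2.2.2.2.2.2.2⟩)
  refine ⟨m, hm, fun x' y' hx' hy' h1 h2 H => h x' y' hx' hy' h1 h2 ⟨H.qr, H.qs, H.qt, H.el,
    H.er, H.ex, H.tc, H.t0, H.base, H.pos, H.neg⟩⟩

end H83.AC
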