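import Pool.Agent.H83.AC.NthU

/-!
# Module KKU: certificates are uniformly definable

`UR.TC` by induction on `χ`, all `n` (`infer_instance` after unfolding `TC`, `bT`, `bE`, `bQ`, `ts`).
`UR.KK`: show that `KK` is equivalent to the conjunction of its fields (`UD.congr`), unfold everything.
-/

namespace H83.AC

open ZFSet

variable {f g h l : Set ZFSet.{0} → (ℕ → ZFSet.{0}) → ZFSet.{0}}

private theorem kku_pair {N : Set ZFSet.{0}} (hN : IsTr N) {p a b : ZFSet.{0}} (hp : p ∈ N)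
    (h : pair a b ∈ p) : a ∈ N := by
  have h1 : pair a b ∈ N := hN _ hp _ h
  have h2 : ({a} : ZFSet.{0}) ∈ N := hN _ h1 _ (by simp [pair])
  exact hN _ h2 _ (by simp)

private theorem kku_fits (hf : UF f) (hg : UF g) :
    UR (fun N v => Fits (f N v) (cls (g N v))) := by
  have : UR (fun N v => ∀ a ∈ N, (pair a one ∈ f N v → a ∈ g N v) ∧
      (pair a ∅ ∈ f N v → ¬ a ∈ g N v)) := by infer_instance
  refine this.congr fun N hN v hv => ?_
  constructor
  · intro H a _; exact H a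
  · intro H a
    have hfN := hf.mem N hN v hv
    exact ⟨fun h => (H a (kku_pair hN.tr hfN h)).1 h, fun h => (H a (kku_pair hN.tr hfN h)).2 h⟩

theorem UR.TC (χ : Fml) (n : ℕ) (hf : UF f) : UR (fun N v => H83.AC.TC (f N v) χ n) := by
  induction χ generalizing n with
  | bot => unfold H83.AC.TC H83.AC.bT; infer_instance
  | eq i j => unfold H83.AC.TC H83.AC.bT H83.AC.bQ; infer_instance
  | mem i j => unfold H83.AC.TC H83.AC.bT H83.AC.bE; infer_instance
  | imp φ ψ h1 h2 =>
    have := h1 n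
    have := h2 n
    unfold H83.AC.TC H83.AC.bT; infer_instance
  | all φ h1 =>
    have := h1 (n + 1)
    unfold H83.AC.TC H83.AC.bT H83.AC.ts; infer_instance

private theorem kku_pos (hf : UF f) (hg : UF g) (hh : UF h) (hl : UF l) :
    UR (fun N v => ∀ a ∈ HF, a ∈ h N v → bW (l N v) a ∈ CondC (f N v) ∧
      Fits (bW (l N v) a) (cls (g N v)) ∧ bE (l N v) (tg 0 (pair (bW (l N v) a) a)) te) := by
  have F1 : UR (fun N v => Fits (bW (l N (sh v)) (v 0)) (cls (g N (sh v)))) :=
    kku_fits (by unfold bW; infer_instance) (by infer_instance)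
  unfold bW bE te
  unfold bW at F1
  exact UR.ball (by infer_instance) (UD.imp (by infer_instance) (UD.and (by infer_instance)
    (UD.and F1 (by infer_instance))))

private theorem kku_neg (hf : UF f) (hg : UF g) (hh : UF h) (hl : UF l) :
    UR (fun N v => ∀ a ∈ HF, ∀ p ∈ CondC (f N v), Fits p (cls (g N v)) →
      bE (l N v) (tg 0 (pair p a)) te → a ∈ h N v) := by
  have F1 : UR (fun N v => Fits (v 0) (cls (g N (sh (sh v))))) :=
    kku_fits (by infer_instance) (by infer_instance)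
  unfold bE te
  exact UR.ball (by infer_instance) (UR.ball (by infer_instance) (UD.imp F1 (by infer_instance)))

theorem UR.KK (φ : Fml) (hf : UF f) (hg : UF g) (hh : UF h) (hl : UF l) :
    UR (fun N v => H83.AC.KK φ (f N v) (g N v) (h N v) (l N v)) := by
  have e1 : UR (fun N v => (∀ i ∈ HF, bQ (l N v) i i)) := by unfold bQ; infer_instance
  have e2 : UR (fun N v => ∀ i ∈ HF, ∀ j ∈ HF, bQ (l N v) i j → bQ (l N v) j i) := by
    unfold bQ; infer_instance
  have e3 : UR (fun N v => ∀ i ∈ HF, ∀ j ∈ HF, ∀ k ∈ HF, bQ (l N v) i j → bQ (l N v) j k →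
      bQ (l N v) i k) := by unfold bQ; infer_instance
  have e4 : UR (fun N v => ∀ i ∈ HF, ∀ j ∈ HF, ∀ k ∈ HF, bE (l N v) i j → bQ (l N v) i k →
      bE (l N v) k j) := by unfold bQ bE; infer_instance
  have e5 : UR (fun N v => ∀ i ∈ HF, ∀ j ∈ HF, ∀ k ∈ HF, bE (l N v) i j → bQ (l N v) j k →
      bE (l N v) i k) := by unfold bQ bE; infer_instance
  have e6 : UR (fun N v => ∀ i ∈ HF, ∀ j ∈ HF, ¬ bQ (l N v) i j →
      (bE (l N v) (tx i j) i ∧ ¬ bE (l N v) (tx i j) j) ∨
      (¬ bE (l N v) (tx i j) i ∧ bE (l N v) (tx i j) j)) := by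
    unfold bQ bE tx; infer_instance
  have e7 : UR (fun N v => H83.AC.TC (l N v) φ 0) := UR.TC φ 0 hl
  have e8 : UR (fun N v => bT (l N v) φ ∅) := by unfold bT; infer_instance
  have e9 : UR (fun N v => ∀ j ∈ HF, ∀ h ∈ HF, (bE (l N v) j (tg 0 h) ↔
      ∃ h' ∈ h, bQ (l N v) j (tg 0 h'))) := by unfold bE bQ; infer_instance
  have e10 := kku_pos hf hg hh hl
  have e11 := kku_neg hf hg hh hl
  refine (e1.and (e2.and (e3.and (e4.and (e5.and (e6.and (e7.and (e8.and (e9.and
    (e10.and e11)))))))))).congr fun N _ v _ => ?_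
  constructor
  · rintro ⟨a1, a2, a3, a4, a5, a6, a7, a8, a9, a10, a11⟩
    exact ⟨a1, a2, a3, a4, a5, a6, a7, a8, a9, a10, a11⟩
  · rintro ⟨a1, a2, a3, a4, a5, a6, a7, a8, a9, a10, a11⟩
    exact ⟨a1, a2, a3, a4, a5, a6, a7, a8, a9, a10, a11⟩

instance Inst.KK (φ : Fml) [hf : UF f] [hg : UF g] [hh : UF h] [hl : UF l] :
    UR (fun N v => H83.AC.KK φ (f N v) (g N v) (h N v) (l N v)) := UR.KK φ hf hg hh hl

end H83.AC
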