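import Pool.Agent.H83.AC.Rn
import Pool.Agent.H83.AC.Fn

/-!
# Module NewR: a real number which is not in `W k`

`x` = the characteristic function of the column `k`: `x = ev e₁ c` with `e₁` the set of all
`pair {pair (pair (nz k) j) one} (pair j one)` and `pair {pair (pair (nz k) j) ∅} (pair j ∅)`, `j ∈ omega`
(`one = nz 1`, `∅ = nz 0`), a subset of `prod (CondC (nz (k+1))) HF`. It is a function (every index is
decided by `c`: `a ∈ c` or not).
Suppose `x = ev e c`, `e ⊆ prod (CondC (nz k)) HF`, `e ∈ M`. Let `D` be the set of all `q ∈ Cond` such that for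
some `j ∈ omega` either
(a) `∃ p ∈ CondC (nz k), p ⊆ q ∧ pair p (pair j one) ∈ e` and `pair (pair (nz k) j) ∅ ∈ q`, or
(b) `∀ p ∈ CondC (nz k), pair p (pair j one) ∈ e → p ∪ q ∉ Cond` and `pair (pair (nz k) j) one ∈ q`.
`D ∈ M`, dense: given `q`, choose `j` such that `q` has no literal with index `pair (nz k) j` (`q` is finite);
if some `p` as in (a) has `p ∪ q ∈ Cond`, extend `p ∪ q` by the literal `∅` (there is no literal of
`p` in the column `k`), otherwise extend `q` by the literal `one`. A fitting `q ∈ D` gives a contradiction.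
-/

namespace H83.AC

open ZFSet

namespace NewR

/-- the name of the characteristic function of the column `k` -/
noncomputable def e1 (k : ℕ) : ZFSet.{0} :=
  img (fun s => pair {pair (pair (nz k) (fst s)) (snd s)} s) (ZFSet.prod omega {∅, one})

theorem mem_e1 {k : ℕ} {p h : ZFSet.{0}} : pair p h ∈ e1 k ↔
    ∃ j ∈ omega, (p = {pair (pair (nz k) j) ∅} ∧ h = pair j ∅) ∨
      (p = {pair (pair (nz k) j) one} ∧ h = pair j one) := by
  rw [e1, mem_img]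
  constructor
  · rintro ⟨s, hs, e⟩
    obtain ⟨j, hj, i, hi, rfl⟩ := ZFSet.mem_prod.1 hs
    obtain ⟨rfl, rfl⟩ := pair_injective e
    rw [fst_pair, snd_pair]
    rw [ZFSet.mem_pair] at hi
    rcases hi with rfl | rfl
    · exact ⟨j, hj, Or.inl ⟨rfl, rfl⟩⟩
    · exact ⟨j, hj, Or.inr ⟨rfl, rfl⟩⟩
  · rintro ⟨j, hj, ⟨rfl, rfl⟩ | ⟨rfl, rfl⟩⟩
    · exact ⟨pair j ∅, ZFSet.mem_prod.2 ⟨j, hj, ∅, by simp, rfl⟩, by rw [fst_pair, snd_pair]⟩
    · exact ⟨pair j one, ZFSet.mem_prod.2 ⟨j, hj, one, by simp, rfl⟩, by rw [fst_pair, snd_pair]⟩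

theorem idx_mem {k : ℕ} {j : ZFSet.{0}} (hj : j ∈ omega) : pair (nz k) j ∈ Idx := by
  rw [Idx, mem_prod]
  exact ⟨nz k, nz_mem_omega k, j, hj, rfl⟩

theorem one_eq : one = nz 1 := by
  show ({∅} : ZFSet) = insert ∅ ∅
  ext z
  simp

theorem one_omega : one ∈ omega := by rw [one_eq]; exact nz_mem_omega 1

theorem e1_sub (k : ℕ) : e1 k ⊆ ZFSet.prod (CondC (nz (k + 1))) HF := by
  intro t ht
  rw [e1, mem_img] at ht
  obtain ⟨s, hs, rfl⟩ := ht
  obtain ⟨j, hj, i, hi, rfl⟩ := ZFSet.mem_prod.1 hs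
  rw [fst_pair, snd_pair]
  rw [ZFSet.mem_pair] at hi
  have hcol : ∀ i : ZFSet, (i = ∅ ∨ i = one) →
      ({pair (pair (nz k) j) i} : ZFSet) ⊆ ZFSet.prod (Col (nz (k + 1))) {∅, one} := by
    intro i hi t ht
    rw [ZFSet.mem_singleton] at ht
    subst ht
    refine ZFSet.mem_prod.2 ⟨pair (nz k) j, ?_, i, ?_, rfl⟩
    · rw [Col, mem_prod]
      exact ⟨nz k, nz_mem_nz.2 (Nat.lt_succ_self k), j, hj, rfl⟩
    · rw [ZFSet.mem_pair]; exact hi
  rcases hi with rfl | rfl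
  · refine ZFSet.mem_prod.2 ⟨_, ?_, _, HF_pair (omega_sub_HF hj) HF_empty, rfl⟩
    rw [CondC, mem_sep]
    exact ⟨lit0_cond (idx_mem hj), hcol _ (Or.inl rfl)⟩
  · refine ZFSet.mem_prod.2 ⟨_, ?_, _, HF_pair (omega_sub_HF hj) one_HF, rfl⟩
    rw [CondC, mem_sep]
    exact ⟨lit1_cond (idx_mem hj), hcol _ (Or.inr rfl)⟩

theorem mem_x {k : ℕ} {c : Set ZFSet.{0}} {h : ZFSet.{0}} : h ∈ ev (e1 k) c ↔
    ∃ j ∈ omega, (h = pair j ∅ ∧ pair (nz k) j ∉ c) ∨ (h = pair j one ∧ pair (nz k) j ∈ c) := by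
  rw [mem_ev]
  constructor
  · rintro ⟨p, hp, hf, hpe⟩
    obtain ⟨j, hj, ⟨rfl, rfl⟩ | ⟨rfl, rfl⟩⟩ := mem_e1.1 hpe
    · exact ⟨j, hj, Or.inl ⟨rfl, (hf _).2 (by simp)⟩⟩
    · exact ⟨j, hj, Or.inr ⟨rfl, (hf _).1 (by simp)⟩⟩
  · rintro ⟨j, hj, ⟨rfl, hc⟩ | ⟨rfl, hc⟩⟩
    · refine ⟨{pair (pair (nz k) j) ∅}, lit0_cond (idx_mem hj), ?_, mem_e1.2 ⟨j, hj, Or.inl ⟨rfl, rfl⟩⟩⟩
      intro b
      constructor
      · intro hb
        rw [ZFSet.mem_singleton] at hb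
        exact absurd (pair_inj.1 hb).2 one_ne_empty
      · intro hb
        rw [ZFSet.mem_singleton] at hb
        rw [(pair_inj.1 hb).1]; exact hc
    · refine ⟨{pair (pair (nz k) j) one}, lit1_cond (idx_mem hj), ?_, mem_e1.2 ⟨j, hj, Or.inr ⟨rfl, rfl⟩⟩⟩
      intro b
      constructor
      · intro hb
        rw [ZFSet.mem_singleton] at hb
        rw [(pair_inj.1 hb).1]; exact hc
      · intro hb
        rw [ZFSet.mem_singleton] at hb
        exact absurd (pair_inj.1 hb).2.symm one_ne_empty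

theorem one_mem_x {k : ℕ} {c : Set ZFSet.{0}} {j : ZFSet.{0}} (hj : j ∈ omega) :
    pair j one ∈ ev (e1 k) c ↔ pair (nz k) j ∈ c := by
  rw [mem_x]
  constructor
  · rintro ⟨j', hj', ⟨h, hc⟩ | ⟨h, hc⟩⟩
    · exact absurd (pair_inj.1 h).2 one_ne_empty
    · rw [(pair_inj.1 h).1]; exact hc
  · intro h
    exact ⟨j, hj, Or.inr ⟨rfl, h⟩⟩

theorem isFunc_x (k : ℕ) (c : Set ZFSet.{0}) : IsFunc omega omega (ev (e1 k) c) := by
  refine ⟨?_, ?_⟩
  · intro h hh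
    obtain ⟨j, hj, ⟨rfl, -⟩ | ⟨rfl, -⟩⟩ := mem_x.1 hh
    · exact ZFSet.mem_prod.2 ⟨j, hj, ∅, nz_mem_omega 0, rfl⟩
    · exact ZFSet.mem_prod.2 ⟨j, hj, one, one_omega, rfl⟩
  · intro j hj
    by_cases hc : pair (nz k) j ∈ c
    · refine ⟨one, mem_x.2 ⟨j, hj, Or.inr ⟨rfl, hc⟩⟩, ?_⟩
      intro w hw
      obtain ⟨j', hj', ⟨h, hc'⟩ | ⟨h, hc'⟩⟩ := mem_x.1 hw
      · exfalso
        rw [← (pair_inj.1 h).1] at hc'
        exact hc' hc
      · exact (pair_inj.1 h).2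
    · refine ⟨∅, mem_x.2 ⟨j, hj, Or.inl ⟨rfl, hc⟩⟩, ?_⟩
      intro w hw
      obtain ⟨j', hj', ⟨h, hc'⟩ | ⟨h, hc'⟩⟩ := mem_x.1 hw
      · exact (pair_inj.1 h).2
      · exfalso
        rw [← (pair_inj.1 h).1] at hc'
        exact hc hc'

theorem exists_free {q : ZFSet.{0}} (hq : q ∈ Cond) (k : ℕ) :
    ∃ j : ℕ, ∀ i, pair (pair (nz k) (nz j)) i ∉ q := by
  classical
  have hfin : {t | t ∈ q}.Finite := HF_finite (cond_HF hq)
  have hinj : Function.Injective nz := fun a b h => nz_inj.1 h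
  have hS : {j : ℕ | ∃ i, pair (pair (nz k) (nz j)) i ∈ q}.Finite := by
    refine (hfin.image (fun t => Function.invFun nz (snd (fst t)))).subset ?_
    rintro j ⟨i, hi⟩
    refine ⟨_, hi, ?_⟩
    show Function.invFun nz (snd (fst (pair (pair (nz k) (nz j)) i))) = j
    rw [fst_pair, snd_pair]
    exact Function.leftInverse_invFun hinj j
  obtain ⟨j, hj⟩ := hS.exists_notMem
  exact ⟨j, fun i hi => hj ⟨i, hi⟩⟩

theorem not_in_col {k : ℕ} {j p i : ZFSet.{0}} (hp : p ∈ CondC (nz k)) :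
    pair (pair (nz k) j) i ∉ p := by
  intro h
  rw [CondC, mem_sep] at hp
  obtain ⟨a, ha, i', hi', e⟩ := ZFSet.mem_prod.1 (hp.2 h)
  obtain ⟨rfl, rfl⟩ := pair_injective e
  rw [Col, pair_mem_prod] at ha
  exact absurd (nz_mem_nz.1 ha.1) (lt_irrefl _)

theorem condC_cond {m p : ZFSet.{0}} (h : p ∈ CondC m) : p ∈ Cond := by
  rw [CondC, mem_sep] at h
  exact h.1

/-- the dense property -/
def DP (k : ℕ) (e q : ZFSet.{0}) : Prop :=
  ∃ j ∈ omega, ((∃ p ∈ CondC (nz k), p ⊆ q ∧ pair p (pair j one) ∈ e) ∧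
    pair (pair (nz k) j) ∅ ∈ q) ∨
    ((∀ p ∈ CondC (nz k), pair p (pair j one) ∈ e → p ∪ q ∉ Cond) ∧
    pair (pair (nz k) j) one ∈ q)

theorem dense_DP (k : ℕ) (e : ZFSet.{0}) {q : ZFSet.{0}} (hq : q ∈ Cond) :
    ∃ q' ∈ Cond, DP k e q' ∧ q ⊆ q' := by
  obtain ⟨j, hj⟩ := exists_free hq k
  have hjo : nz j ∈ omega := nz_mem_omega j
  by_cases h : ∃ p ∈ CondC (nz k), pair p (pair (nz j) one) ∈ e ∧ p ∪ q ∈ Cond
  · obtain ⟨p, hp, hpe, hpq⟩ := h
    refine ⟨(p ∪ q) ∪ {pair (pair (nz k) (nz j)) ∅}, ?_, ⟨nz j, hjo, Or.inl ⟨⟨p, hp, ?_, hpe⟩, ?_⟩⟩, ?_⟩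
    · refine union_cond hpq (lit0_cond (idx_mem hjo)) fun b => ⟨?_, ?_⟩
      · rintro ⟨-, h1⟩
        rw [ZFSet.mem_singleton] at h1
        exact one_ne_empty (pair_inj.1 h1).2
      · rintro ⟨h1, h2⟩
        rw [ZFSet.mem_singleton] at h2
        rw [(pair_inj.1 h2).1, mem_union] at h1
        rcases h1 with h1 | h1
        · exact not_in_col hp h1
        · exact hj _ h1
    · intro t ht
      exact mem_union.2 (Or.inl (mem_union.2 (Or.inl ht)))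
    · exact mem_union.2 (Or.inr (ZFSet.mem_singleton.2 rfl))
    · intro t ht
      exact mem_union.2 (Or.inl (mem_union.2 (Or.inr ht)))
  · refine ⟨q ∪ {pair (pair (nz k) (nz j)) one}, ?_, ⟨nz j, hjo, Or.inr ⟨?_, ?_⟩⟩, ?_⟩
    · refine union_cond hq (lit1_cond (idx_mem hjo)) fun b => ⟨?_, ?_⟩
      · rintro ⟨h1, h2⟩
        rw [ZFSet.mem_singleton] at h2
        rw [(pair_inj.1 h2).1] at h1
        exact hj _ h1
      · rintro ⟨-, h1⟩
        rw [ZFSet.mem_singleton] at h1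
        exact one_ne_empty (pair_inj.1 h1).2.symm
    · intro p hp hpe hc
      refine h ⟨p, hp, hpe, cond_sub hc ?_⟩
      intro t ht
      rcases mem_union.1 ht with ht | ht
      · exact mem_union.2 (Or.inl ht)
      · exact mem_union.2 (Or.inr (mem_union.2 (Or.inl ht)))
    · exact mem_union.2 (Or.inr (ZFSet.mem_singleton.2 rfl))
    · intro t ht
      exact mem_union.2 (Or.inl ht)

theorem e1_M {M : Set ZFSet.{0}} (hM : TM M) (k : ℕ) {z : ZFSet.{0}} (hz : z ∈ M) : e1 k ∈ M := by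
  have h : UF (fun _ _ => e1 k) := by
    unfold e1
    infer_instance
  exact h.mem M hM (fun _ => z) (fun _ => hz)

end NewR

open NewR in
theorem new_real {M c : Set ZFSet.{0}} (hM : TM M) (hc : Gen M c) (k : ℕ) :
    ∃ x, Real (NN M c) x ∧ ∀ e ∈ M, e ⊆ ZFSet.prod (CondC (nz k)) HF → x ≠ ev e c := by
  have hoM : omega ∈ M := hM.omega
  refine ⟨ev (e1 k) c, ⟨ev_mem hM (nz_mem_omega (k + 1)) (e1_M hM k hoM) (e1_sub k), isFunc_x k c⟩, ?_⟩
  intro e heM he hx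
  have hCM : Cond ∈ M := UF.Cond.mem M hM (fun _ => e) (fun _ => heM)
  have hU : UR (fun _ v => DP k (v 1) (v 0)) := by
    unfold DP
    infer_instance
  have hD : ZFSet.sep (fun q => DP k e q) Cond ∈ M :=
    hM.sep_of (R := fun _ q v => DP k (v 0) q) hU (v := fun _ => e) (fun _ => heM) hCM
  obtain ⟨q, hq, hf⟩ := hc.2 _ hD ⟨fun t ht => (mem_sep.1 ht).1, fun p hp => by
    obtain ⟨q', hq', h1, h2⟩ := dense_DP k e hp
    exact ⟨q', mem_sep.2 ⟨hq', h1⟩, h2⟩⟩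
  obtain ⟨hqC, j, hj, ⟨⟨p, hp, hpq, hpe⟩, hl⟩ | ⟨hall, hl⟩⟩ := mem_sep.1 hq
  · have h1 : pair j one ∈ ev e c := mem_ev.2 ⟨p, condC_cond hp, fits_sub hf hpq, hpe⟩
    rw [← hx, one_mem_x hj] at h1
    exact (hf _).2 hl h1
  · have h1 : pair (nz k) j ∈ c := (hf _).1 hl
    rw [← one_mem_x hj, hx, mem_ev] at h1
    obtain ⟨p, hp, hpf, hpe⟩ := h1
    have hpC : p ∈ CondC (nz k) := (pair_mem_prod.1 (he hpe)).1
    exact hall p hpC hpe (union_fits hp hqC hpf hf).1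

end H83.AC
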