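import Pool.Agent.H83.AC.Reals
import Pool.Agent.H83.AC.NNtm
import Pool.Agent.H83.AC.Fn

/-!
# Module NoCh: there is no choice function

Let `F = {pair (nz k) t : k ∈ ℕ, t ∈ app f (nz k)} ⊆ HF`, `F ∈ N = NN M c` (`TM.sep_of` from `prod omega HF`; the
values are reals, `fn_HF`). `NN_sub_ground` with `H = HF`: `F = ev e c`, `e ⊆ prod (CondC m) HF`, `e ∈ M`,
`m = nz k ∈ omega`. Then `app f (nz k) = ev e' c` for
`e' = {pair p t ∈ prod (CondC (nz k)) HF : pair p (pair (nz k) t) ∈ e}`.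
-/

namespace H83.AC

open ZFSet

theorem no_choice {M c : Set ZFSet.{0}} (hM : TM M) (hc : Gen M c) {f : ZFSet.{0}}
    (hf : f ∈ NN M c) (hr : ∀ k : ℕ, Real (NN M c) (app f (nz k)))
    (hn : ∀ k : ℕ, ∀ e ∈ M, e ⊆ ZFSet.prod (CondC (nz k)) HF → app f (nz k) ≠ ev e c) : False := by
  have hN : TM (NN M c) := NN_tm hM hc
  have hU : UF (fun _ v => ZFSet.sep (fun t => snd t ∈ app (v 0) (fst t)) (ZFSet.prod omega HF)) := by
    infer_instance
  have hF : ZFSet.sep (fun t => snd t ∈ app f (fst t)) (ZFSet.prod omega HF) ∈ NN M c :=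
    hU.mem _ hN (fun _ => f) (fun _ => hf)
  have hsub : ZFSet.sep (fun t => snd t ∈ app f (fst t)) (ZFSet.prod omega HF) ⊆ HF := by
    intro t ht
    obtain ⟨a, ha, b, hb, rfl⟩ := ZFSet.mem_prod.1 (mem_sep.1 ht).1
    exact HF_pair (omega_sub_HF ha) hb
  have hHF : HF ∈ M := UF.HF.mem M hM (fun _ => ∅) (fun _ => UF.empty.mem M hM (fun _ => omega) (fun _ => hM.omega))
  obtain ⟨m, hm, e, heM, he, hFe⟩ := NN_sub_ground hM hc hF hHF hsub
  obtain ⟨k, rfl⟩ := mem_omega.1 hm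
  have hkM : nz k ∈ M := hM.tr _ hM.omega _ hm
  have hU2 : UF (fun _ v => ZFSet.sep (fun t => ZFSet.pair (fst t) (ZFSet.pair (v 1) (snd t)) ∈ v 0)
      (ZFSet.prod (CondC (v 1)) HF)) := by infer_instance
  have he' : ZFSet.sep (fun t => ZFSet.pair (fst t) (ZFSet.pair (nz k) (snd t)) ∈ e)
      (ZFSet.prod (CondC (nz k)) HF) ∈ M :=
    hU2.mem M hM (cons e (fun _ => nz k)) (fun n => by
      cases n with
      | zero => exact heM
      | succ n => exact hkM)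
  refine hn k _ he' (fun t ht => (mem_sep.1 ht).1) ?_
  have hx := fn_HF (hr k).2
  ext t
  rw [mem_ev]
  constructor
  · intro ht
    have h1 : ZFSet.pair (nz k) t ∈ ev e c := by
      rw [← hFe, mem_sep, ZFSet.pair_mem_prod, fst_pair, snd_pair]
      exact ⟨⟨hm, hx ht⟩, ht⟩
    obtain ⟨p, hp, hpf, hpe⟩ := mem_ev.1 h1
    refine ⟨p, hp, hpf, ?_⟩
    rw [mem_sep, ZFSet.pair_mem_prod, fst_pair, snd_pair]
    exact ⟨⟨(ZFSet.pair_mem_prod.1 (he hpe)).1, hx ht⟩, hpe⟩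
  · rintro ⟨p, hp, hpf, hpe⟩
    rw [mem_sep, ZFSet.pair_mem_prod, fst_pair, snd_pair] at hpe
    have h1 : ZFSet.pair (nz k) t ∈ ev e c := mem_ev.2 ⟨p, hp, hpf, hpe.2⟩
    rw [← hFe, mem_sep, fst_pair, snd_pair] at h1
    exact h1.2

end H83.AC
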