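import Pool.Agent.H83.AC.Chk

/-!
# Module NNa: the symmetric extension is transitive; pairing, superset of the union, omega

`NN_tr`: elements of `val c σ` are `val c π`, `π ∈ nd σ`, which is `HS` and in `M`.
`NN_pair`: the name `{(σ, ∅), (τ, ∅)}`; its support is the maximum of the supports.
`NN_union`: the name `{(ρ, ∅) : ρ ∈ nd π, π ∈ nd σ}` contains the union; it is fixed by all
`z ∈ M` avoiding the support of `σ` (`mem_nd_actN`).
`NN_omega`: `omega ∈ M` and `sub_NN`.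
-/

namespace H83.AC

open ZFSet

private theorem nd_mem {M : Set ZFSet.{0}} (hM : TM M) {σ π : ZFSet.{0}} (hσ : σ ∈ M)
    (hπ : π ∈ nd σ) : π ∈ M := by
  obtain ⟨p, -, hp⟩ := mem_nd.1 hπ
  exact hM.tr _ (hM.sUnion (hM.sUnion hσ)) π (fst_mem_ssU hp)

theorem NN_tr {M : Set ZFSet.{0}} (hM : TM M) (c : Set ZFSet.{0}) : IsTr (NN M c) := by
  rintro x ⟨σ, hσM, hσ, rfl⟩ y hy
  obtain ⟨π, p, hp, -, hπ, rfl⟩ := mem_val.1 hy
  have hn : π ∈ nd σ := mem_nd.2 ⟨p, hp, hπ⟩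
  exact ⟨π, nd_mem hM hσM hn, (HS_iff.1 hσ).2.2 π hn, rfl⟩

private theorem Avoid_mono {m n : ℕ} (h : m ≤ n) {z : ZFSet.{0}} (hz : Avoid (nz n) z) :
    Avoid (nz m) z := by
  refine ⟨hz.1, ?_⟩
  have h2 := hz.2
  rw [ZFSet.eq_empty] at h2 ⊢
  intro y hy
  rw [ZFSet.mem_inter, Col, ZFSet.mem_prod] at hy
  obtain ⟨hyz, a, ha, b, hb, rfl⟩ := hy
  obtain ⟨k, hk, rfl⟩ := mem_nz.1 ha
  refine h2 _ (ZFSet.mem_inter.2 ⟨hyz, ?_⟩)
  rw [Col, ZFSet.mem_prod]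
  exact ⟨nz k, nz_mem_nz.2 (lt_of_lt_of_le hk h), b, hb, rfl⟩

theorem Supp_mono {M : Set ZFSet.{0}} {m n : ℕ} (h : m ≤ n) {σ : ZFSet.{0}}
    (hs : Supp M (nz m) σ) : Supp M (nz n) σ :=
  ⟨nz_mem_omega n, fun z hz hA => hs.2 z hz (Avoid_mono h hA)⟩

/-- the set of all pairs `(ρ, ∅)`, `ρ ∈ S` -/
private noncomputable def flat (S : ZFSet.{0}) : ZFSet.{0} := img (fun ρ => pair ρ ∅) S

private theorem pair_mem_flat {S π p : ZFSet.{0}} : pair π p ∈ flat S ↔ π ∈ S ∧ p = ∅ := by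
  rw [flat, mem_img]
  constructor
  · rintro ⟨y, hy, h⟩
    obtain ⟨h1, h2⟩ := pair_injective h
    subst h1
    exact ⟨hy, h2.symm⟩
  · rintro ⟨h1, rfl⟩
    exact ⟨π, h1, rfl⟩

private theorem flat_NN {M c : Set ZFSet.{0}} (hM : TM M) {S : ZFSet.{0}} (hS : S ∈ M) {m : ZFSet.{0}}
    (hm : m ∈ omega) (h1 : ∀ ρ ∈ S, HS M ρ)
    (h2 : ∀ z ∈ M, Avoid m z → ∀ ρ ∈ S, actN z ρ ∈ S) :
    ∃ u ∈ NN M c, ∀ x, x ∈ u ↔ ∃ ρ ∈ S, x = val c ρ := by
  have hF : flat S ∈ M := by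
    have : UF (fun N v => img (fun ρ => pair ρ ∅) (v 0)) := by (repeat' first
        | assumption | exact UF.var _ | exact UD.true | exact UD.false | apply UF.empty
        | apply UF.fgr | apply UF.uni | apply UF.img | apply UF.pow | apply UF.sep | apply UF.pair
        | apply UF.upair | apply UF.singleton | apply UF.insert | apply UF.union | apply UF.inter
        | apply UF.diff | apply UF.prod | apply UF.sUnion | apply UF.app | apply UF.dom
        | apply UF.rng | apply UF.fst | apply UF.snd | apply UF.ite | apply UD.and | apply UD.or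
        | apply UR.ball | apply UR.bex | apply UD.allN | apply UD.exN | apply UD.iff
        | apply UR.mem | apply UR.eq | apply UR.sub | apply UD.not | apply UD.imp
        | exact UD.prop _)
    exact this.mem M hM (fun _ => S) (fun _ => hS)
  refine ⟨val c (flat S), ⟨flat S, hF, HS_iff.2 ⟨?_, ⟨m, hm, ?_⟩, ?_⟩, rfl⟩, ?_⟩
  · intro t ht
    rw [flat, mem_img] at ht
    obtain ⟨y, -, rfl⟩ := ht
    exact ⟨y, ∅, empty_cond, rfl⟩
  · intro z hz hA
    ext t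
    rw [mem_actN]
    constructor
    · rintro ⟨π, p, -, hp, rfl⟩
      obtain ⟨hπ, rfl⟩ := pair_mem_flat.1 hp
      rw [actC_empty]
      exact pair_mem_flat.2 ⟨h2 z hz hA π hπ, rfl⟩
    · intro ht
      rw [flat, mem_img] at ht
      obtain ⟨ρ, hρ, rfl⟩ := ht
      refine ⟨actN z ρ, ∅, empty_cond, pair_mem_flat.2 ⟨h2 z hz hA ρ hρ, rfl⟩, ?_⟩
      rw [actN_actN (h1 ρ hρ).isName, actC_empty]
  · intro π hπ
    obtain ⟨p, -, hp⟩ := mem_nd.1 hπ
    exact h1 π (pair_mem_flat.1 hp).1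
  · intro x
    rw [mem_val]
    constructor
    · rintro ⟨π, p, -, -, hp, rfl⟩
      exact ⟨π, (pair_mem_flat.1 hp).1, rfl⟩
    · rintro ⟨ρ, hρ, rfl⟩
      exact ⟨ρ, ∅, empty_cond, fits_empty c, pair_mem_flat.2 ⟨hρ, rfl⟩, rfl⟩

theorem NN_pair {M c : Set ZFSet.{0}} (hM : TM M) {x y : ZFSet.{0}} (hx : x ∈ NN M c)
    (hy : y ∈ NN M c) : ({x, y} : ZFSet) ∈ NN M c := by
  obtain ⟨σ, hσM, hσ, rfl⟩ := hx
  obtain ⟨τ, hτM, hτ, rfl⟩ := hy
  obtain ⟨m, hm⟩ := (HS_iff.1 hσ).2.1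
  obtain ⟨n, hn⟩ := (HS_iff.1 hτ).2.1
  obtain ⟨m, rfl⟩ := mem_omega.1 hm.1
  obtain ⟨n, rfl⟩ := mem_omega.1 hn.1
  have hm' := Supp_mono (le_max_left m n) hm
  have hn' := Supp_mono (le_max_right m n) hn
  obtain ⟨u, hu, h⟩ := flat_NN (c := c) hM (hM.upair hσM hτM) (nz_mem_omega (max m n))
    (fun ρ hρ => by
      rcases ZFSet.mem_pair.1 hρ with rfl | rfl
      · exact hσ
      · exact hτ)
    (fun z hz hA ρ hρ => by
      rcases ZFSet.mem_pair.1 hρ with rfl | rfl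
      · rw [hm'.2 z hz hA]; exact hρ
      · rw [hn'.2 z hz hA]; exact hρ)
  have : ({val c σ, val c τ} : ZFSet) = u := by
    ext t
    rw [h, ZFSet.mem_pair]
    constructor
    · rintro (rfl | rfl)
      · exact ⟨σ, by simp, rfl⟩
      · exact ⟨τ, by simp, rfl⟩
    · rintro ⟨ρ, hρ, rfl⟩
      rcases ZFSet.mem_pair.1 hρ with rfl | rfl
      · exact Or.inl rfl
      · exact Or.inr rfl
  rw [this]
  exact hu

theorem NN_union {M c : Set ZFSet.{0}} (hM : TM M) {x : ZFSet.{0}} (hx : x ∈ NN M c) :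
    ∃ u ∈ NN M c, ∀ y ∈ x, y ⊆ u := by
  obtain ⟨σ, hσM, hσ, rfl⟩ := hx
  obtain ⟨m, hm⟩ := (HS_iff.1 hσ).2.1
  have hS : uni (fun π => nd π) (nd σ) ∈ M := by
    have : UF (fun N v => uni (fun π => nd π) (nd (v 0))) := by (repeat' first
        | apply UF.nd | assumption | exact UF.var _ | exact UD.true | exact UD.false
        | apply UF.empty | apply UF.fgr | apply UF.uni | apply UF.img | apply UF.pow
        | apply UF.sep | apply UF.pair | apply UF.upair | apply UF.singleton | apply UF.insert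
        | apply UF.union | apply UF.inter | apply UF.diff | apply UF.prod | apply UF.sUnion
        | apply UF.app | apply UF.dom | apply UF.rng | apply UF.fst | apply UF.snd | apply UF.ite
        | apply UD.and | apply UD.or | apply UR.ball | apply UR.bex | apply UD.allN | apply UD.exN
        | apply UD.iff | apply UR.mem | apply UR.eq | apply UR.sub | apply UD.not | apply UD.imp
        | exact UD.prop _)
    exact this.mem M hM (fun _ => σ) (fun _ => hσM)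
  obtain ⟨u, hu, h⟩ := flat_NN (c := c) hM hS hm.1
    (fun ρ hρ => by
      obtain ⟨π, hπ, hρ⟩ := mem_uni.1 hρ
      exact (HS_iff.1 ((HS_iff.1 hσ).2.2 π hπ)).2.2 ρ hρ)
    (fun z hz hA ρ hρ => by
      obtain ⟨π, hπ, hρ⟩ := mem_uni.1 hρ
      refine mem_uni.2 ⟨actN z π, ?_, mem_nd_actN.2 ⟨ρ, hρ, rfl⟩⟩
      have h1 : actN z π ∈ nd (actN z σ) := mem_nd_actN.2 ⟨π, hπ, rfl⟩
      rwa [hm.2 z hz hA] at h1)
  refine ⟨u, hu, fun y hy w hw => ?_⟩
  obtain ⟨π, p, hp, -, hπ, rfl⟩ := mem_val.1 hy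
  obtain ⟨ρ, q, hq, -, hρ, rfl⟩ := mem_val.1 hw
  exact (h _).2 ⟨ρ, mem_uni.2 ⟨π, mem_nd.2 ⟨p, hp, hπ⟩, mem_nd.2 ⟨q, hq, hρ⟩⟩, rfl⟩

theorem NN_omega {M c : Set ZFSet.{0}} (hM : TM M) : omega ∈ NN M c :=
  sub_NN hM (TM.omega hM)

end H83.AC
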