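import Pool.Agent.H83.AC.Rn
import Pool.Agent.H83.AC.NNa
import Pool.Agent.H83.AC.TruthA
import Pool.Agent.H83.AC.ActF

/-!
# Module Reals: subsets of ground model sets in the symmetric extension

Let `x = val c σ ⊆ H ∈ M`, `m` a support of `σ`. `e = {(p, h) : p ∈ CondC m, h ∈ H,
FMem p (chk h) σ} ∈ M` (`UR.FMem`, `UF.chk`). `ev e c = x`: (⊆) `truth_mem`, `val_chk`.
(⊇) `h ∈ x`: some fitting `p ∈ Cond` has `FMem p (chk h) σ`. Let `p' = p ∩ prod (Col m) {∅, one}`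
(the part in the columns `< m`), `p' ∈ CondC m`. Claim: `FMem p' (chk h) σ`. By `FMem_dense` it is
enough that every `q ⊇ p'` has an extension `r` with `FMem r (chk h) σ`. Let `z` be the set of all
`a ∈ Idx` for which `p` and `q` contain contradictory literals; `z` is finite, so
`z ∈ HF ⊆ M`, and `z` avoids `Col m` (the literals of `p` in the columns `< m` are in `p' ⊆ q`). Then
`actC z p` and `q` do not contradict each other, `r = actC z p ∪ q ∈ Cond`, and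
`FMem (actC z p) (actN z (chk h)) (actN z σ)`, i.e. `FMem (actC z p) (chk h) σ`.
-/

namespace H83.AC

open ZFSet

/-- restricting a condition that forces membership of a check name in a symmetric name to the
columns of the support -/
private theorem NN_restrict {M : Set ZFSet.{0}} (hM : TM M) {σ m h p : ZFSet.{0}}
    (hσ : IsName σ) (hm : Supp M m σ) (hp : p ∈ Cond) (hF : FMem p (chk h) σ) :
    FMem (ZFSet.sep (fun t => fst t ∈ Col m) p) (chk h) σ := by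
  refine FMem_dense ?_
  intro q hq hpq
  obtain ⟨hpHF, hpl, hpc⟩ := mem_cond.1 hp
  obtain ⟨hqHF, hql, hqc⟩ := mem_cond.1 hq
  set z : ZFSet.{0} := ZFSet.sep (fun a => (pair a one ∈ p ∧ pair a ∅ ∈ q) ∨
    (pair a ∅ ∈ p ∧ pair a one ∈ q)) Idx with hzdef
  have hmz : ∀ a, a ∈ z ↔ a ∈ Idx ∧ ((pair a one ∈ p ∧ pair a ∅ ∈ q) ∨
      (pair a ∅ ∈ p ∧ pair a one ∈ q)) := by
    intro a
    rw [hzdef, mem_sep]
  have hzHF : z ∈ HF := by
    have himg : img fst p ∈ HF := by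
      refine HF_img hpHF ?_
      intro t ht
      obtain ⟨a, -, rfl | rfl⟩ := hpl t ht
      · rw [fst_pair]
        exact (HF_of_pair (HF_tr hpHF ht)).1
      · rw [fst_pair]
        exact (HF_of_pair (HF_tr hpHF ht)).1
    refine HF_sub himg ?_
    intro a ha
    rw [mem_img]
    rcases ((hmz a).1 ha).2 with h1 | h1
    · exact ⟨_, h1.1, fst_pair _ _⟩
    · exact ⟨_, h1.1, fst_pair _ _⟩
  have hHFM : HF ∈ M := UF.HF.mem M hM (fun _ => omega) (fun _ => hM.omega)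
  have hzM : z ∈ M := hM.tr _ hHFM _ hzHF
  have hav : Avoid m z := by
    refine ⟨fun a ha => ((hmz a).1 ha).1, ?_⟩
    rw [ZFSet.eq_empty]
    intro a ha
    rw [ZFSet.mem_inter] at ha
    obtain ⟨ha, hac⟩ := ha
    rcases ((hmz a).1 ha).2 with h1 | h1
    · have : pair a one ∈ q := hpq (mem_sep.2 ⟨h1.1, by rw [fst_pair]; exact hac⟩)
      exact hqc a ⟨h1.2, this⟩
    · have : pair a ∅ ∈ q := hpq (mem_sep.2 ⟨h1.1, by rw [fst_pair]; exact hac⟩)
      exact hqc a ⟨this, h1.2⟩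
  have hact : FMem (actC z p) (chk h) σ := by
    have := FMem_act (z := z) hp (HS_chk M h).isName hσ hF
    rwa [actN_chk, hm.2 z hzM hav] at this
  have hIdx : ∀ a i, pair a i ∈ p → a ∈ Idx := by
    intro a i hai
    obtain ⟨b, hb, h1 | h1⟩ := hpl _ hai
    · rw [(pair_inj.1 h1).1]; exact hb
    · rw [(pair_inj.1 h1).1]; exact hb
  have hr : actC z p ∪ q ∈ Cond := by
    refine union_cond (actC_cond hp) hq ?_
    intro a
    obtain ⟨hone, hemp⟩ := mem_actC (z := z) (a := a) hp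
    constructor
    · rintro ⟨h1, h2⟩
      rcases hemp.1 h1 with ⟨h3, h4⟩ | ⟨h3, h4⟩
      · rcases ((hmz a).1 h3).2 with h5 | h5
        · exact hqc a ⟨h5.2, h2⟩
        · exact hpc a ⟨h5.1, h4⟩
      · exact h3 ((hmz a).2 ⟨hIdx _ _ h4, Or.inr ⟨h4, h2⟩⟩)
    · rintro ⟨h1, h2⟩
      rcases hone.1 h1 with ⟨h3, h4⟩ | ⟨h3, h4⟩
      · rcases ((hmz a).1 h3).2 with h5 | h5
        · exact hpc a ⟨h4, h5.1⟩
        · exact hqc a ⟨h2, h5.2⟩
      · exact h3 ((hmz a).2 ⟨hIdx _ _ h4, Or.inl ⟨h4, h2⟩⟩)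
  refine ⟨actC z p ∪ q, hr, ?_, ?_⟩
  · intro t ht
    exact ZFSet.mem_union.2 (Or.inr ht)
  · refine FMem_mono ?_ hact
    intro t ht
    exact ZFSet.mem_union.2 (Or.inl ht)

theorem NN_sub_ground {M c : Set ZFSet.{0}} (hM : TM M) (hc : Gen M c) {x H : ZFSet.{0}}
    (hx : x ∈ NN M c) (hH : H ∈ M) (hs : x ⊆ H) :
    ∃ m ∈ omega, ∃ e ∈ M, e ⊆ ZFSet.prod (CondC m) H ∧ x = ev e c := by
  obtain ⟨σ, hσM, hσ, rfl⟩ := hx
  obtain ⟨-, ⟨m, hm⟩, -⟩ := HS_iff.1 hσ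
  have hmM : m ∈ M := hM.tr _ hM.omega _ hm.1
  have hprod : ZFSet.prod (CondC m) H ∈ M := by
    have h1 : UF (fun _ v => ZFSet.prod (CondC (v 0)) (v 1)) :=
      UF.prod (UF.CondC (UF.var 0)) (UF.var 1)
    have h2 := h1.mem M hM (cons m (fun _ => H)) (fun n => by
      cases n with
      | zero => exact hmM
      | succ n => exact hH)
    exact h2
  have hR : UR (fun N v => fst (v 0) ∈ Cond ∧ H83.AC.FMem (fst (v 0)) (chk (snd (v 0))) (v 1)) :=
    UR.FMem (UF.fst (UF.var 0)) (UF.chk (UF.snd (UF.var 0))) (UF.var 1)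
  have heM : ZFSet.sep (fun t => fst t ∈ Cond ∧ FMem (fst t) (chk (snd t)) σ)
      (ZFSet.prod (CondC m) H) ∈ M :=
    TM.sep_of (R := fun _ t v => fst t ∈ Cond ∧ H83.AC.FMem (fst t) (chk (snd t)) (v 0))
      hR hM (v := fun _ => σ) (fun _ => hσM) hprod
  refine ⟨m, hm.1, _, heM, fun t ht => (mem_sep.1 ht).1, ?_⟩
  ext h
  rw [mem_ev]
  constructor
  · intro hh
    have hhM : h ∈ M := hM.tr _ hH _ (hs hh)
    have hchk : chk h ∈ M :=
      (UF.chk (UF.var 0)).mem M hM (fun _ => h) (fun _ => hhM)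
    have hv : val c (chk h) ∈ val c σ := by rwa [val_chk]
    obtain ⟨p, hp, hpf, hF⟩ := (truth_mem hM hc hchk hσM).1 hv
    have hsub : ZFSet.sep (fun t => fst t ∈ Col m) p ⊆ p := fun t ht => (mem_sep.1 ht).1
    have hp' : ZFSet.sep (fun t => fst t ∈ Col m) p ∈ Cond := cond_sub hp hsub
    refine ⟨_, hp', fits_sub hpf hsub, ?_⟩
    rw [mem_sep, fst_pair, snd_pair, ZFSet.pair_mem_prod]
    refine ⟨⟨?_, hs hh⟩, hp', NN_restrict hM hσ.isName hm hp hF⟩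
    refine mem_sep.2 ⟨hp', ?_⟩
    intro t ht
    obtain ⟨ht1, ht2⟩ := mem_sep.1 ht
    obtain ⟨a, -, rfl | rfl⟩ := cond_lit hp ht1
    · rw [fst_pair] at ht2
      rw [ZFSet.pair_mem_prod]
      exact ⟨ht2, by simp⟩
    · rw [fst_pair] at ht2
      rw [ZFSet.pair_mem_prod]
      exact ⟨ht2, by simp⟩
  · rintro ⟨p, hp, hpf, hpe⟩
    rw [mem_sep, fst_pair, snd_pair, ZFSet.pair_mem_prod] at hpe
    obtain ⟨⟨-, hhH⟩, -, hF⟩ := hpe
    have hhM : h ∈ M := hM.tr _ hH _ hhH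
    have hchk : chk h ∈ M :=
      (UF.chk (UF.var 0)).mem M hM (fun _ => h) (fun _ => hhM)
    have := (truth_mem hM hc hchk hσM).2 ⟨p, hp, hpf, hF⟩
    rwa [val_chk] at this

/-- one can increase the support -/
theorem CondC_mono {m n : ℕ} (h : m ≤ n) : CondC (nz m) ⊆ CondC (nz n) := by
  intro p hp
  obtain ⟨hp1, hp2⟩ := mem_sep.1 hp
  refine mem_sep.2 ⟨hp1, ?_⟩
  intro t ht
  obtain ⟨a, ha, b, hb, rfl⟩ := ZFSet.mem_prod.1 (hp2 ht)
  rw [ZFSet.pair_mem_prod]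
  refine ⟨?_, hb⟩
  obtain ⟨i, hi, j, hj, rfl⟩ := ZFSet.mem_prod.1 ha
  refine ZFSet.mem_prod.2 ⟨i, ?_, j, hj, rfl⟩
  obtain ⟨k, hk, rfl⟩ := mem_nz.1 hi
  exact mem_nz.2 ⟨k, hk.trans_le h, rfl⟩

end H83.AC
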