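import Pool.Agent.H83.AC.NNa
import Pool.Agent.H83.AC.Reals

/-!
# Module WSet: the sequence of the classes `W k` is in the symmetric extension

Ordered pair names: `pn σ τ = {(up σ σ, ∅), (up σ τ, ∅)}` with `up σ τ = {(σ, ∅), (τ, ∅)}`, so
`val c (pn σ τ) = pair (val c σ) (val c τ)`, `actN z (pn σ τ) = pn (actN z σ) (actN z τ)`, `HS`.
`W` is the value of the name `{(pn (chk (nz k)) (rn e), ∅) : k ∈ omega, e ∈ M, e ⊆ prod (CondC (nz k)) HF}`
(in `M`: `UF.uni`, `UF.img`, `UF.pow`). It is fixed by all `z ∈ M`: `actN z (rn e) = rn (e')` with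
`e' = {pair (actC z p) h : pair p h ∈ e}`, again in `M` and `⊆ prod (CondC (nz k)) HF`, and
`(e')' = e`. `val c (rn e) = ev e c` (`val_rn`).
-/

namespace H83.AC

open ZFSet

namespace WSet

/-- the name with the elements `σ` and `τ` -/
noncomputable def up (σ τ : ZFSet.{0}) : ZFSet.{0} := {pair σ ∅, pair τ ∅}

/-- the name of the ordered pair -/
noncomputable def pn (σ τ : ZFSet.{0}) : ZFSet.{0} := up (up σ σ) (up σ τ)

theorem pair_mem_up {σ τ π p : ZFSet.{0}} : pair π p ∈ up σ τ ↔ (π = σ ∨ π = τ) ∧ p = ∅ := by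
  rw [up, ZFSet.mem_pair, pair_inj, pair_inj]
  tauto

theorem val_up (c : Set ZFSet.{0}) (σ τ : ZFSet.{0}) : val c (up σ τ) = {val c σ, val c τ} := by
  ext x
  rw [mem_val, ZFSet.mem_pair]
  constructor
  · rintro ⟨π, p, -, -, hp, rfl⟩
    obtain ⟨rfl | rfl, -⟩ := pair_mem_up.1 hp
    · exact Or.inl rfl
    · exact Or.inr rfl
  · rintro (rfl | rfl)
    · exact ⟨σ, ∅, empty_cond, fits_empty c, pair_mem_up.2 ⟨Or.inl rfl, rfl⟩, rfl⟩
    · exact ⟨τ, ∅, empty_cond, fits_empty c, pair_mem_up.2 ⟨Or.inr rfl, rfl⟩, rfl⟩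

theorem val_pn (c : Set ZFSet.{0}) (σ τ : ZFSet.{0}) :
    val c (pn σ τ) = pair (val c σ) (val c τ) := by
  rw [pn, val_up, val_up, val_up, pair_eq_singleton]
  rfl

theorem actN_up (z σ τ : ZFSet.{0}) : actN z (up σ τ) = up (actN z σ) (actN z τ) := by
  ext t
  rw [mem_actN]
  constructor
  · rintro ⟨π, p, -, hp, rfl⟩
    obtain ⟨rfl | rfl, rfl⟩ := pair_mem_up.1 hp
    · rw [actC_empty]; exact pair_mem_up.2 ⟨Or.inl rfl, rfl⟩
    · rw [actC_empty]; exact pair_mem_up.2 ⟨Or.inr rfl, rfl⟩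
  · intro ht
    rw [up, ZFSet.mem_pair] at ht
    rcases ht with rfl | rfl
    · exact ⟨σ, ∅, empty_cond, pair_mem_up.2 ⟨Or.inl rfl, rfl⟩, by rw [actC_empty]⟩
    · exact ⟨τ, ∅, empty_cond, pair_mem_up.2 ⟨Or.inr rfl, rfl⟩, by rw [actC_empty]⟩

theorem actN_pn (z σ τ : ZFSet.{0}) : actN z (pn σ τ) = pn (actN z σ) (actN z τ) := by
  rw [pn, actN_up, actN_up, actN_up]
  rfl

theorem HS_up {M : Set ZFSet.{0}} {σ τ : ZFSet.{0}} (hσ : HS M σ) (hτ : HS M τ) :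
    HS M (up σ τ) := by
  obtain ⟨m, hm⟩ := (HS_iff.1 hσ).2.1
  obtain ⟨n, hn⟩ := (HS_iff.1 hτ).2.1
  obtain ⟨m, rfl⟩ := mem_omega.1 hm.1
  obtain ⟨n, rfl⟩ := mem_omega.1 hn.1
  have hm' := Supp_mono (le_max_left m n) hm
  have hn' := Supp_mono (le_max_right m n) hn
  refine HS_iff.2 ⟨?_, ⟨nz (max m n), nz_mem_omega _, fun z hz hA => ?_⟩, ?_⟩
  · intro t ht
    rw [up, ZFSet.mem_pair] at ht
    rcases ht with rfl | rfl
    · exact ⟨σ, ∅, empty_cond, rfl⟩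
    · exact ⟨τ, ∅, empty_cond, rfl⟩
  · rw [actN_up, hm'.2 z hz hA, hn'.2 z hz hA]
  · intro π hπ
    obtain ⟨p, -, hp⟩ := mem_nd.1 hπ
    obtain ⟨rfl | rfl, -⟩ := pair_mem_up.1 hp
    · exact hσ
    · exact hτ

theorem HS_pn {M : Set ZFSet.{0}} {σ τ : ZFSet.{0}} (hσ : HS M σ) (hτ : HS M τ) :
    HS M (pn σ τ) := HS_up (HS_up hσ hσ) (HS_up hσ hτ)

/-- the set of all pairs `(ρ, ∅)`, `ρ ∈ S` -/
noncomputable def flat (S : ZFSet.{0}) : ZFSet.{0} := img (fun ρ => pair ρ ∅) S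

theorem pair_mem_flat {S π p : ZFSet.{0}} : pair π p ∈ flat S ↔ π ∈ S ∧ p = ∅ := by
  rw [flat, mem_img]
  constructor
  · rintro ⟨y, hy, h⟩
    obtain ⟨h1, h2⟩ := pair_injective h
    subst h1
    exact ⟨hy, h2.symm⟩
  · rintro ⟨h1, rfl⟩
    exact ⟨π, h1, rfl⟩

theorem flat_NN {M c : Set ZFSet.{0}} (hM : TM M) {S : ZFSet.{0}} (hS : S ∈ M) {m : ZFSet.{0}}
    (hm : m ∈ omega) (h1 : ∀ ρ ∈ S, HS M ρ)
    (h2 : ∀ z ∈ M, Avoid m z → ∀ ρ ∈ S, actN z ρ ∈ S) :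
    ∃ u ∈ NN M c, ∀ x, x ∈ u ↔ ∃ ρ ∈ S, x = val c ρ := by
  have hF : flat S ∈ M := by
    have : UF (fun _ v => flat (v 0)) := by
      unfold flat
      infer_instance
    exact this.mem M hM (fun _ => S) (fun _ => hS)
  refine ⟨val c (flat S), ⟨flat S, hF, HS_iff.2 ⟨?_, ⟨m, hm, ?_⟩, ?_⟩, rfl⟩, ?_⟩
  · intro t ht
    rw [flat, mem_img] at ht
    obtain ⟨y, -, rfl⟩ := ht
    exact ⟨y, ∅, empty_cond, rfl⟩
  · intro z hz hA
    ext t
    rw [mem_actN]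
    constructor
    · rintro ⟨π, p, -, hp, rfl⟩
      obtain ⟨hπ, rfl⟩ := pair_mem_flat.1 hp
      rw [actC_empty]
      exact pair_mem_flat.2 ⟨h2 z hz hA π hπ, rfl⟩
    · intro ht
      rw [flat, mem_img] at ht
      obtain ⟨ρ, hρ, rfl⟩ := ht
      refine ⟨actN z ρ, ∅, empty_cond, pair_mem_flat.2 ⟨h2 z hz hA ρ hρ, rfl⟩, ?_⟩
      rw [actN_actN (h1 ρ hρ).isName, actC_empty]
  · intro π hπ
    obtain ⟨p, -, hp⟩ := mem_nd.1 hπ
    exact h1 π (pair_mem_flat.1 hp).1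
  · intro x
    rw [mem_val]
    constructor
    · rintro ⟨π, p, -, -, hp, rfl⟩
      exact ⟨π, (pair_mem_flat.1 hp).1, rfl⟩
    · rintro ⟨ρ, hρ, rfl⟩
      exact ⟨ρ, ∅, empty_cond, fits_empty c, pair_mem_flat.2 ⟨hρ, rfl⟩, rfl⟩

/-- the set of the names of the elements of `W` -/
noncomputable def SS (M : Set ZFSet.{0}) : ZFSet.{0} :=
  uni (fun k => img (fun e => pn (chk k) (rn e))
    (ZFSet.sep (fun x => x ∈ M) (powerset (ZFSet.prod (CondC k) HF)))) omega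

theorem mem_SS {M : Set ZFSet.{0}} {t : ZFSet.{0}} : t ∈ SS M ↔ ∃ k : ℕ, ∃ e ∈ M,
    e ⊆ ZFSet.prod (CondC (nz k)) HF ∧ t = pn (chk (nz k)) (rn e) := by
  rw [SS, mem_uni]
  constructor
  · rintro ⟨k, hk, ht⟩
    obtain ⟨k, rfl⟩ := mem_omega.1 hk
    obtain ⟨e, he, rfl⟩ := mem_img.1 ht
    rw [mem_sep, mem_powerset] at he
    exact ⟨k, e, he.2, he.1, rfl⟩
  · rintro ⟨k, e, heM, he, rfl⟩
    exact ⟨nz k, nz_mem_omega k, mem_img.2 ⟨e, mem_sep.2 ⟨mem_powerset.2 he, heM⟩, rfl⟩⟩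

theorem SS_M {M : Set ZFSet.{0}} (hM : TM M) {z : ZFSet.{0}} (hz : z ∈ M) : SS M ∈ M := by
  have h : UF (fun N _ => SS N) := by
    unfold SS
    refine UF.uni (F := fun N k _ => img (fun e => pn (chk k) (rn e))
      (ZFSet.sep (fun x => x ∈ N) (powerset (ZFSet.prod (CondC k) HF)))) UF.omega ?_
    refine UF.img (F := fun _ e v => pn (chk (v 0)) (rn e)) ?_ ?_
    · exact UF.pow (f := fun _ v => ZFSet.prod (CondC (v 0)) HF) (by infer_instance)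
    · unfold pn up
      infer_instance
  exact h.mem M hM (fun _ => z) (fun _ => hz)

/-- the image of the name `e` -/
noncomputable def ae (z e : ZFSet.{0}) : ZFSet.{0} := img (fun t => pair (actC z (fst t)) (snd t)) e

theorem condC_cond {m p : ZFSet.{0}} (h : p ∈ CondC m) : p ∈ Cond := by
  rw [CondC, mem_sep] at h
  exact h.1

theorem actC_condC {m z p : ZFSet.{0}} (hp : p ∈ CondC m) : actC z p ∈ CondC m := by
  have hC := condC_cond hp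
  have hp0 := hp
  rw [CondC, mem_sep] at hp0 ⊢
  refine ⟨actC_cond hC, ?_⟩
  intro t ht
  have key : ∀ a i, pair a i ∈ p → a ∈ Col m := by
    intro a i hi
    exact (pair_mem_prod.1 (hp0.2 hi)).1
  obtain ⟨a, -, rfl | rfl⟩ := actC_lit hC ht
  · have h := (mem_actC hC).1.1 ht
    refine ZFSet.mem_prod.2 ⟨a, ?_, one, by simp, rfl⟩
    rcases h with h | h
    · exact key _ _ h.2
    · exact key _ _ h.2
  · have h := (mem_actC hC).2.1 ht
    refine ZFSet.mem_prod.2 ⟨a, ?_, ∅, by simp, rfl⟩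
    rcases h with h | h
    · exact key _ _ h.2
    · exact key _ _ h.2

theorem ae_sub {m z e : ZFSet.{0}} (he : e ⊆ ZFSet.prod (CondC m) HF) :
    ae z e ⊆ ZFSet.prod (CondC m) HF := by
  intro t ht
  rw [ae, mem_img] at ht
  obtain ⟨s, hs, rfl⟩ := ht
  obtain ⟨q, hq, h, hh, rfl⟩ := ZFSet.mem_prod.1 (he hs)
  rw [fst_pair, snd_pair]
  exact ZFSet.mem_prod.2 ⟨_, actC_condC hq, h, hh, rfl⟩

theorem mem_rn {e C H t : ZFSet.{0}} (he : e ⊆ ZFSet.prod C H) :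
    t ∈ rn e ↔ ∃ q h, pair q h ∈ e ∧ t = pair (chk h) q := by
  rw [rn, mem_img]
  constructor
  · rintro ⟨s, hs, rfl⟩
    obtain ⟨q, hq, h, hh, rfl⟩ := ZFSet.mem_prod.1 (he hs)
    exact ⟨q, h, hs, by rw [snd_pair, fst_pair]⟩
  · rintro ⟨q, h, hs, rfl⟩
    exact ⟨pair q h, hs, by rw [snd_pair, fst_pair]⟩

theorem actN_rn {m z e : ZFSet.{0}} (he : e ⊆ ZFSet.prod (CondC m) HF) :
    actN z (rn e) = rn (ae z e) := by
  ext t
  rw [mem_actN, mem_rn (ae_sub he)]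
  constructor
  · rintro ⟨π, p, -, hp, rfl⟩
    obtain ⟨q, h, hqh, e1⟩ := (mem_rn he).1 hp
    obtain ⟨rfl, rfl⟩ := pair_injective e1
    refine ⟨actC z p, h, ?_, by rw [actN_chk]⟩
    rw [ae, mem_img]
    exact ⟨pair p h, hqh, by rw [fst_pair, snd_pair]⟩
  · rintro ⟨q, h, hqh, rfl⟩
    rw [ae, mem_img] at hqh
    obtain ⟨s, hs, e1⟩ := hqh
    obtain ⟨p, hp, h', hh', rfl⟩ := ZFSet.mem_prod.1 (he hs)
    rw [fst_pair, snd_pair] at e1
    obtain ⟨rfl, rfl⟩ := pair_injective e1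
    exact ⟨chk h', p, condC_cond hp, (mem_rn he).2 ⟨p, h', hs, rfl⟩, by rw [actN_chk]⟩

end WSet

open WSet in
theorem exists_W {M c : Set ZFSet.{0}} (hM : TM M) (hc : Gen M c) :
    ∃ W ∈ NN M c, ∀ t, t ∈ W ↔ ∃ k : ℕ, ∃ e ∈ M, e ⊆ ZFSet.prod (CondC (nz k)) HF ∧
      t = pair (nz k) (ev e c) := by
  have _ := hc
  obtain ⟨u, hu, h⟩ := flat_NN (c := c) hM (SS_M hM hM.omega) (nz_mem_omega 0)
    (fun ρ hρ => by
      obtain ⟨k, e, heM, he, rfl⟩ := mem_SS.1 hρ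
      exact HS_pn (HS_chk M _) (HS_rn (nz_mem_omega k) he))
    (fun z hz _ ρ hρ => by
      obtain ⟨k, e, heM, he, rfl⟩ := mem_SS.1 hρ
      rw [actN_pn, actN_chk, actN_rn he]
      refine mem_SS.2 ⟨k, ae z e, ?_, ae_sub he, rfl⟩
      have hU : UF (fun _ v => ae (v 0) (v 1)) := by
        unfold ae
        infer_instance
      exact hU.mem M hM (fun n => if n = 0 then z else e) (fun n => by
        by_cases hn : n = 0
        · simp only [hn, if_true]; exact hz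
        · simp only [hn, if_false]; exact heM))
  refine ⟨u, hu, fun t => ?_⟩
  rw [h]
  have hval : ∀ (k : ℕ) (e : ZFSet), e ⊆ ZFSet.prod (CondC (nz k)) HF →
      val c (pn (chk (nz k)) (rn e)) = pair (nz k) (ev e c) := by
    intro k e he
    have he' : e ⊆ ZFSet.prod Cond HF := fun t ht => by
      obtain ⟨q, hq, h, hh, rfl⟩ := ZFSet.mem_prod.1 (he ht)
      exact ZFSet.mem_prod.2 ⟨q, WSet.condC_cond hq, h, hh, rfl⟩
    rw [val_pn, val_chk, val_rn he']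
  constructor
  · rintro ⟨ρ, hρ, rfl⟩
    obtain ⟨k, e, heM, he, rfl⟩ := mem_SS.1 hρ
    exact ⟨k, e, heM, he, hval k e he⟩
  · rintro ⟨k, e, heM, he, rfl⟩
    exact ⟨_, mem_SS.2 ⟨k, e, heM, he, rfl⟩, (hval k e he).symm⟩

end H83.AC
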