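import Pool.Agent.H83.AC.KFc
import Pool.Agent.H83.AC.KBc
import Pool.Agent.H83.AC.KKC
import Pool.Agent.H83.AC.KKU
import Pool.Agent.H83.AC.Cl3
import Pool.Agent.H83.AC.WSet
import Pool.Agent.H83.AC.NewR
import Pool.Agent.H83.AC.NoCh
import Pool.Agent.H83.AC.GroundEx

/-!
# Module FailH: countable choice for the second level fails in the symmetric extension

`N = NN M c`, `W` from `exists_W`, `R` = the set of reals of `N`. `B = fgr (fun k => A k) omega ∈ N` with
`A k = sep (fun x => pair k x ∉ W) R`. For `k ∈ omega`, `k = nz k'`: `A k` is the set of all reals `x` of `N`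
with `x ≠ ev e c` for all `e ∈ M`, `e ⊆ prod (CondC (nz k')) HF`; nonempty by `new_real`; a choice function
contradicts `no_choice`. `PI2 N (A k)`: `pi2_of` with
`K = {pair x y : x, y ∈ R, KK phi0 (nz k') (cut c (nz k')) x y} ∈ N` (`UR.KK`, `cut_mem`), `KK_clo`; the
equivalence is `kfwd` (if `x = ev e c` its certificate has no descending sequence) and `kback`
(by contraposition).
-/

namespace H83.AC

open ZFSet

private theorem reals_mem {N : Set ZFSet.{0}} (hN : TM N) :
    ZFSet.sep (fun x => IsFunc omega omega x)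
      (ZFSet.sep (fun x => x ∈ N) (powerset (ZFSet.prod omega omega))) ∈ N := by
  have h : UF (fun N _ => ZFSet.sep (fun x => IsFunc omega omega x)
      (ZFSet.sep (fun x => x ∈ N) (powerset (ZFSet.prod omega omega)))) :=
    UF.sep (R := fun _ x _ => IsFunc omega omega x)
      (UF.pow (f := fun _ _ => ZFSet.prod omega omega) (by infer_instance)) (by infer_instance)
  exact h.mem N hN (fun _ => omega) (fun _ => hN.omega)

private theorem mem_reals {N : Set ZFSet.{0}} {x : ZFSet.{0}} :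
    x ∈ ZFSet.sep (fun x => IsFunc omega omega x)
      (ZFSet.sep (fun x => x ∈ N) (powerset (ZFSet.prod omega omega))) ↔ Real N x := by
  rw [mem_sep, mem_sep, mem_powerset]
  exact ⟨fun h => ⟨h.1.2, h.2⟩, fun h => ⟨⟨h.2.1, h.1⟩, h.2⟩⟩

private theorem K_mem {N : Set ZFSet.{0}} (hN : TM N) {k s R : ZFSet.{0}} (hk : k ∈ N) (hs : s ∈ N)
    (hR : R ∈ N) : ZFSet.sep (fun t => KK phi0 k s (fst t) (snd t)) (ZFSet.prod R R) ∈ N := by
  have h : UF (fun _ v => ZFSet.sep (fun t => KK phi0 (v 0) (v 1) (fst t) (snd t))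
      (ZFSet.prod (v 2) (v 2))) := by infer_instance
  exact h.mem N hN (cons k (cons s (fun _ => R))) (by
    rintro (_ | _ | n)
    exacts [hk, hs, hR])

private theorem B_mem {N : Set ZFSet.{0}} (hN : TM N) {W R : ZFSet.{0}} (hW : W ∈ N)
    (hR : R ∈ N) :
    fgr (fun k => ZFSet.sep (fun x => ZFSet.pair k x ∉ W) R) omega ∈ N := by
  have h : UF (fun _ v => fgr (fun k => ZFSet.sep (fun x => ZFSet.pair k x ∉ v 0) (v 1)) omega) := by
    infer_instance
  exact h.mem N hN (cons W (fun _ => R)) (by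
    rintro (_ | n)
    exacts [hW, hR])

theorem fail_half {M c : Set ZFSet.{0}} (hG : Ground M) (hc : Gen M c) :
    ¬ ACw (NN M c) (PI2 (NN M c)) := by
  intro hAC
  have hM : TM M := hG.tm
  have hN : TM (NN M c) := NN_tm hM hc
  obtain ⟨W, hWN, hW⟩ := exists_W hM hc
  have hRN := reals_mem hN
  have hRm : ∀ x, x ∈ ZFSet.sep (fun x => IsFunc omega omega x)
      (ZFSet.sep (fun x => x ∈ NN M c) (powerset (ZFSet.prod omega omega))) ↔ Real (NN M c) x :=
    fun x => mem_reals
  generalize ZFSet.sep (fun x => IsFunc omega omega x)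
      (ZFSet.sep (fun x => x ∈ NN M c) (powerset (ZFSet.prod omega omega))) = R at hRN hRm
  have hBN := B_mem hN hWN hRN
  have hA : ∀ (k : ℕ) x, x ∈ ZFSet.sep (fun x => ZFSet.pair (nz k) x ∉ W) R ↔
      Real (NN M c) x ∧ ∀ e ∈ M, e ⊆ ZFSet.prod (CondC (nz k)) HF → x ≠ ev e c := by
    intro k x
    rw [mem_sep, hRm, hW]
    refine and_congr_right fun _ => ?_
    constructor
    · intro h e he hs hx
      exact h ⟨k, e, he, hs, by rw [hx]⟩
    · rintro h ⟨k', e, he, hs, heq⟩
      obtain ⟨h1, h2⟩ := pair_injective heq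
      rw [nz_inj] at h1
      subst h1
      exact h e he hs h2
  have hpi : ∀ k : ℕ, PI2 (NN M c) (ZFSet.sep (fun x => ZFSet.pair (nz k) x ∉ W) R) := by
    intro k
    have hKN := K_mem hN (hN.tr _ hN.omega _ (nz_mem_omega k)) (cut_mem (c := c) hM k) hRN
    have hKm : ∀ x y, Real (NN M c) x → Real (NN M c) y →
        (pair x y ∈ ZFSet.sep (fun t => KK phi0 (nz k) (cut c (nz k)) (fst t) (snd t))
          (ZFSet.prod R R) ↔ KK phi0 (nz k) (cut c (nz k)) x y) := by
      intro x y hx hy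
      rw [mem_sep, fst_pair, snd_pair, pair_mem_prod, hRm, hRm]
      exact ⟨fun h => h.2, fun h => ⟨⟨hx, hy⟩, h⟩⟩
    refine pi2_of hN (fun x hx => ((hA k x).1 hx).1) hKN ?_ ?_ ?_
    · intro t ht
      obtain ⟨x, hx, y, hy, rfl⟩ := ZFSet.mem_prod.1 (mem_sep.1 ht).1
      exact ⟨x, y, (hRm x).1 hx, (hRm y).1 hy, rfl⟩
    · intro x y hx hy hn
      replace hn : ¬ KK phi0 (nz k) (cut c (nz k)) x y := fun h => hn ((hKm x y hx hy).2 h)
      obtain ⟨m, hm, H⟩ := KK_clo (N := NN M c) phi0 (nz k) (cut c (nz k)) x y hx hy hn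
      refine ⟨m, hm, fun x' y' hx' hy' a b => ?_⟩
      show ¬ (pair x' y' ∈ _)
      rw [hKm x' y' hx' hy']
      exact H x' y' hx' hy' a b
    · intro x hx
      rw [hA k x]
      constructor
      · rintro ⟨-, h⟩ y hy hK
        rw [hKm x y hx hy] at hK
        by_contra hno
        obtain ⟨e, he, hs, hxe⟩ := kback hM hc hx hy hK fun f hf hfn hd => hno ⟨f, hf, hfn, hd⟩
        exact h e he hs hxe
      · intro h
        refine ⟨hx, fun e he hs hxe => ?_⟩
        obtain ⟨y, hy, hK, hno⟩ := kfwd hG hc he hs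
        rw [← hxe] at hK
        obtain ⟨f, -, hfn, hd⟩ := h y hy ((hKm x y hx hy).2 hK)
        exact hno f hfn hd
  have hB : ∀ k : ℕ, app (fgr (fun k => ZFSet.sep (fun x => ZFSet.pair k x ∉ W) R) omega) (nz k) =
      ZFSet.sep (fun x => ZFSet.pair (nz k) x ∉ W) R := fun k => app_fgr (nz_mem_omega k)
  obtain ⟨f, hf, hch⟩ := hAC _ hBN (by
    intro k hk
    obtain ⟨k, rfl⟩ := mem_omega.1 hk
    rw [hB k]
    refine ⟨hpi k, fun hemp => ?_⟩
    obtain ⟨x, hx, hne⟩ := new_real hM hc k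
    have := (hA k x).2 ⟨hx, hne⟩
    rw [hemp] at this
    exact notMem_empty x this)
  have hch' : ∀ k : ℕ, app f (nz k) ∈ ZFSet.sep (fun x => ZFSet.pair (nz k) x ∉ W) R := by
    intro k
    rw [← hB k]
    exact hch (nz k) (nz_mem_omega k)
  exact no_choice hM hc hf (fun k => ((hA k _).1 (hch' k)).1) (fun k => ((hA k _).1 (hch' k)).2)

end H83.AC
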