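import Pool.Agent.H83.AC.Stmt

/-!
# Module TrpE: invariance under isomorphisms

`f : M ≃ M'` with `E x y ↔ E' (f x) (f y)`. For every notion `P` of module Stmt prove
`P E x .. ↔ P E' (f x) ..` (`f.surjective.forall`, `f.surjective.exists`, `f.injective.eq_iff`); `∃!` by its
definition. `trp_zf`: `sat_iso` for the schemas (assignments of `M'` are of the form `fun n => f (v n)`).
-/

namespace H83.AC

universe u v

variable {M : Type u} {M' : Type v} {E : M → M → Prop} {E' : M' → M' → Prop}

section

private theorem TrpE_cons (f : M → M') (z : M) (v : ℕ → M) :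
    cons (f z) (fun n => f (v n)) = fun n => f (cons z v n) := by
  funext n
  cases n <;> rfl

private theorem TrpE_sat (f : M ≃ M') (h : ∀ x y, E x y ↔ E' (f x) (f y)) (φ : Fml) (z : M)
    (v : ℕ → M) : Sat E' φ (cons (f z) (fun n => f (v n))) ↔ Sat E φ (cons z v) := by
  rw [TrpE_cons]
  exact (sat_iso E E' f f.bijective h φ (cons z v)).symm

private theorem TrpE_sat2 (f : M ≃ M') (h : ∀ x y, E x y ↔ E' (f x) (f y)) (φ : Fml) (z w : M)
    (v : ℕ → M) : Sat E' φ (cons (f z) (cons (f w) (fun n => f (v n)))) ↔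
      Sat E φ (cons z (cons w v)) := by
  rw [TrpE_cons, TrpE_cons]
  exact (sat_iso E E' f f.bijective h φ (cons z (cons w v))).symm

theorem trp_zf (f : M ≃ M') (h : ∀ x y, E x y ↔ E' (f x) (f y)) (hz : IsZF E) : IsZF E' where
  nonempty := ⟨f hz.nonempty.some⟩
  extensionality := by
    have := hz.extensionality
    simp only [f.surjective.forall, ← h, f.injective.eq_iff]
    exact this
  foundation := by
    have := hz.foundation
    simp only [f.surjective.forall, f.surjective.exists, ← h, f.injective.eq_iff]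
    exact this
  pairing := by
    have := hz.pairing
    simp only [f.surjective.forall, f.surjective.exists, ← h, f.injective.eq_iff]
    exact this
  union := by
    have := hz.union
    simp only [f.surjective.forall, f.surjective.exists, ← h, f.injective.eq_iff]
    exact this
  powerset := by
    have := hz.powerset
    simp only [f.surjective.forall, f.surjective.exists, ← h, f.injective.eq_iff]
    exact this
  infinity := by
    have := hz.infinity
    simp only [f.surjective.forall, f.surjective.exists, ← h, f.injective.eq_iff]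
    exact this
  separation := by
    intro φ v' x'
    obtain ⟨v, rfl⟩ : ∃ v : ℕ → M, (fun n => f (v n)) = v' :=
      ⟨fun n => f.symm (v' n), by funext n; simp⟩
    obtain ⟨x, rfl⟩ := f.surjective x'
    obtain ⟨y, hy⟩ := hz.separation φ v x
    refine ⟨f y, ?_⟩
    simp only [f.surjective.forall, ← h, TrpE_sat f h]
    exact hy
  replacement := by
    intro φ v' x' hr
    obtain ⟨v, rfl⟩ : ∃ v : ℕ → M, (fun n => f (v n)) = v' :=
      ⟨fun n => f.symm (v' n), by funext n; simp⟩
    obtain ⟨x, rfl⟩ := f.surjective x'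
    simp only [ExistsUnique, f.surjective.forall, f.surjective.exists, ← h, TrpE_sat2 f h,
      f.injective.eq_iff] at hr
    obtain ⟨y, hy⟩ := hz.replacement φ v x hr
    refine ⟨f y, ?_⟩
    simp only [f.surjective.forall, f.surjective.exists, ← h, TrpE_sat2 f h]
    exact hy

private theorem TrpE_emp (f : M ≃ M') (h : ∀ x y, E x y ↔ E' (f x) (f y)) (e : M) :
    IsEmp E' (f e) ↔ IsEmp E e := by
  simp only [IsEmp, f.surjective.forall, f.surjective.exists, ← h, f.injective.eq_iff]

private theorem TrpE_suc (f : M ≃ M') (h : ∀ x y, E x y ↔ E' (f x) (f y)) (s n : M) :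
    IsSuc E' (f s) (f n) ↔ IsSuc E s n := by
  simp only [IsSuc, f.surjective.forall, f.surjective.exists, ← h, f.injective.eq_iff]

private theorem TrpE_ind (f : M ≃ M') (h : ∀ x y, E x y ↔ E' (f x) (f y)) (a : M) :
    IsInd E' (f a) ↔ IsInd E a := by
  simp only [IsInd, f.surjective.forall, f.surjective.exists, ← h, f.injective.eq_iff,
    TrpE_emp f h, TrpE_suc f h]

private theorem TrpE_om (f : M ≃ M') (h : ∀ x y, E x y ↔ E' (f x) (f y)) (a : M) :
    IsOm E' (f a) ↔ IsOm E a := by
  simp only [IsOm, f.surjective.forall, f.surjective.exists, ← h, f.injective.eq_iff,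
    TrpE_ind f h]

private theorem TrpE_nat (f : M ≃ M') (h : ∀ x y, E x y ↔ E' (f x) (f y)) (a : M) :
    IsNat E' (f a) ↔ IsNat E a := by
  simp only [IsNat, f.surjective.forall, f.surjective.exists, ← h, f.injective.eq_iff,
    TrpE_om f h]

private theorem TrpE_up (f : M ≃ M') (h : ∀ x y, E x y ↔ E' (f x) (f y)) (p x y : M) :
    IsUp E' (f p) (f x) (f y) ↔ IsUp E p x y := by
  simp only [IsUp, f.surjective.forall, f.surjective.exists, ← h, f.injective.eq_iff]

private theorem TrpE_op (f : M ≃ M') (h : ∀ x y, E x y ↔ E' (f x) (f y)) (p x y : M) :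
    IsOp E' (f p) (f x) (f y) ↔ IsOp E p x y := by
  simp only [IsOp, f.surjective.forall, f.surjective.exists, ← h, f.injective.eq_iff,
    TrpE_up f h]

private theorem TrpE_in2 (f : M ≃ M') (h : ∀ x y, E x y ↔ E' (f x) (f y)) (p x y : M) :
    In2 E' (f p) (f x) (f y) ↔ In2 E p x y := by
  simp only [In2, f.surjective.forall, f.surjective.exists, ← h, f.injective.eq_iff,
    TrpE_op f h]

private theorem TrpE_in3 (f : M ≃ M') (h : ∀ x y, E x y ↔ E' (f x) (f y)) (p x y z : M) :
    In3 E' (f p) (f x) (f y) (f z) ↔ In3 E p x y z := by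
  simp only [In3, f.surjective.forall, f.surjective.exists, ← h, f.injective.eq_iff,
    TrpE_op f h, TrpE_in2 f h]

private theorem TrpE_fun (f : M ≃ M') (h : ∀ x y, E x y ↔ E' (f x) (f y)) (p x y : M) :
    IsFun E' (f p) (f x) (f y) ↔ IsFun E p x y := by
  simp only [IsFun, ExistsUnique, f.surjective.forall, f.surjective.exists, ← h,
    f.injective.eq_iff, TrpE_op f h, TrpE_in2 f h]

private theorem TrpE_real (f : M ≃ M') (h : ∀ x y, E x y ↔ E' (f x) (f y)) (x : M) :
    IsReal E' (f x) ↔ IsReal E x := by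
  simp only [IsReal, f.surjective.forall, f.surjective.exists, ← h,
    f.injective.eq_iff, TrpE_om f h, TrpE_fun f h]

private theorem TrpE_agr (f : M ≃ M') (h : ∀ x y, E x y ↔ E' (f x) (f y)) (n x x' : M) :
    Agr E' (f n) (f x) (f x') ↔ Agr E n x x' := by
  simp only [Agr, f.surjective.forall, f.surjective.exists, ← h,
    f.injective.eq_iff, TrpE_in2 f h]

private theorem TrpE_closed2 (f : M ≃ M') (h : ∀ x y, E x y ↔ E' (f x) (f y)) (C : M) :
    IsClosed2 E' (f C) ↔ IsClosed2 E C := by
  simp only [IsClosed2, f.surjective.forall, f.surjective.exists, ← h,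
    f.injective.eq_iff, TrpE_in2 f h, TrpE_op f h, TrpE_real f h, TrpE_nat f h, TrpE_agr f h]

private theorem TrpE_closed3 (f : M ≃ M') (h : ∀ x y, E x y ↔ E' (f x) (f y)) (C : M) :
    IsClosed3 E' (f C) ↔ IsClosed3 E C := by
  simp only [IsClosed3, f.surjective.forall, f.surjective.exists, ← h,
    f.injective.eq_iff, TrpE_in3 f h, TrpE_op f h, TrpE_real f h, TrpE_nat f h, TrpE_agr f h]

theorem trp_pi11 (f : M ≃ M') (h : ∀ x y, E x y ↔ E' (f x) (f y)) (A : M) :
    IsPi11 E A ↔ IsPi11 E' (f A) := by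
  symm
  simp only [IsPi11, f.surjective.forall, f.surjective.exists, ← h,
    f.injective.eq_iff, TrpE_in2 f h, TrpE_real f h, TrpE_closed2 f h]

theorem trp_pi12 (f : M ≃ M') (h : ∀ x y, E x y ↔ E' (f x) (f y)) (A : M) :
    IsPi12 E A ↔ IsPi12 E' (f A) := by
  symm
  simp only [IsPi12, f.surjective.forall, f.surjective.exists, ← h,
    f.injective.eq_iff, TrpE_in3 f h, TrpE_real f h, TrpE_closed3 f h]

private theorem TrpE_seq (f : M ≃ M') (h : ∀ x y, E x y ↔ E' (f x) (f y)) (x : M) :
    IsSeq E' (f x) ↔ IsSeq E x := by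
  simp only [IsSeq, ExistsUnique, f.surjective.forall, f.surjective.exists, ← h,
    f.injective.eq_iff, TrpE_om f h, TrpE_op f h, TrpE_in2 f h]

theorem trp_ac (f : M ≃ M') (h : ∀ x y, E x y ↔ E' (f x) (f y)) {Γ : M → Prop} {Γ' : M' → Prop}
    (hΓ : ∀ A, Γ A ↔ Γ' (f A)) : ACom E Γ ↔ ACom E' Γ' := by
  symm
  simp only [ACom, f.surjective.forall, f.surjective.exists, ← h, ← hΓ,
    f.injective.eq_iff, TrpE_seq f h, TrpE_in2 f h]

end

end H83.AC
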