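import Pool.Agent.H83.AC.AbsC
import Pool.Agent.H83.AC.TrpE
import Pool.Agent.H83.AC.ChF
import Pool.Agent.H83.AC.FailH

/-!
# Module FinT: the theorem

`exists_ground`, `exists_gen` (with `p = ∅`), `N = NN M c` (`NN_tm`, `choice_half`, `fail_half`, module AbsC).
`N` is countable (the image of `M`) and infinite (`nz n ∈ N`), so there is a bijection `N ≃ ℕ`
(`nonempty_denumerable`, `Denumerable.eqv`); transport (module TrpE).
-/

namespace H83.AC

open ZFSet

theorem separation_one : ∃ E : ℕ → ℕ → Prop,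
    IsZF E ∧ ACom E (IsPi11 E) ∧ ¬ ACom E (IsPi12 E) := by
  obtain ⟨M, hG⟩ := exists_ground
  obtain ⟨c, hc, -⟩ := exists_gen hG.ctbl empty_cond
  have hN : TM (NN M c) := NN_tm hG.tm hc
  have hcount : (NN M c).Countable := by
    have h1 : NN M c ⊆ (fun σ => val c σ) '' M := by
      rintro x ⟨σ, hσ, -, rfl⟩
      exact ⟨σ, hσ, rfl⟩
    exact (hG.ctbl.image _).mono h1
  have : Countable (NN M c) := hcount.to_subtype
  have hnz : ∀ n : ℕ, nz n ∈ NN M c := fun n =>
    (UF.nz n).mem (NN M c) hN (fun _ => omega) (fun _ => hN.omega)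
  have : Infinite (NN M c) :=
    Infinite.of_injective (fun n : ℕ => (⟨nz n, hnz n⟩ : NN M c)) (by
      intro m n hmn
      exact nz_inj.1 (Subtype.ext_iff.1 hmn))
  obtain ⟨hden⟩ := nonempty_denumerable (NN M c)
  let f : NN M c ≃ ℕ := Denumerable.eqv (NN M c)
  have hE : ∀ x y : NN M c, memN (NN M c) x y ↔
      (fun m n : ℕ => memN (NN M c) (f.symm m) (f.symm n)) (f x) (f y) := by
    intro x y
    simp only [Equiv.symm_apply_apply]
  refine ⟨fun m n => memN (NN M c) (f.symm m) (f.symm n), trp_zf f hE hN.zf, ?_, ?_⟩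
  · rw [← trp_ac f hE (trp_pi11 f hE), abs_ac hN (abs_pi11 hN)]
    exact choice_half hG hc
  · rw [← trp_ac f hE (trp_pi12 f hE), abs_ac hN (abs_pi12 hN)]
    exact fail_half hG hc

end H83.AC
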