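import Mathlib

/-!
# First-order formulas of the language of set theory and models of ZF

De Bruijn indices: an assignment is a stream `v : ℕ → M`, the quantifier `all` binds the variable
`0` and shifts the others.
-/

namespace H83.AC

/-- First-order formulas in the language `{∈}`, with de Bruijn indices. -/
inductive Fml : Type
  | bot : Fml
  | eq (i j : ℕ) : Fml
  | mem (i j : ℕ) : Fml
  | imp (φ ψ : Fml) : Fml
  | all (φ : Fml) : Fml

/-- the stream `x, v 0, v 1, ...` -/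
def cons {α : Type*} (x : α) (v : ℕ → α) : ℕ → α
  | 0 => x
  | n + 1 => v n

/-- the stream `v 1, v 2, ...` -/
@[reducible] def sh {α : Type*} (v : ℕ → α) : ℕ → α := fun n => v (n + 1)

@[simp] theorem cons_zero {α : Type*} (x : α) (v : ℕ → α) : cons x v 0 = x := rfl
@[simp] theorem cons_succ {α : Type*} (x : α) (v : ℕ → α) (n : ℕ) : cons x v (n + 1) = v n := rfl
@[simp] theorem sh_apply {α : Type*} (v : ℕ → α) (n : ℕ) : sh v n = v (n + 1) := rfl
@[simp] theorem sh_cons {α : Type*} (x : α) (v : ℕ → α) : sh (cons x v) = v := rfl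

variable {M : Type*}

/-- Satisfaction of a formula in the structure `(M, E)` under the assignment `v`
(`E x y` is read `x ∈ y`). -/
def Sat (E : M → M → Prop) : Fml → (ℕ → M) → Prop
  | .bot, _ => False
  | .eq i j, v => v i = v j
  | .mem i j, v => E (v i) (v j)
  | .imp φ ψ, v => Sat E φ v → Sat E ψ v
  | .all φ, v => ∀ x, Sat E φ (cons x v)

/-- `(M, E)` is a model of ZF. Separation and replacement are schemas: one axiom for every
formula `φ` and every assignment `v` of parameters. -/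
structure IsZF (E : M → M → Prop) : Prop where
  nonempty : Nonempty M
  extensionality : ∀ x y, (∀ z, E z x ↔ E z y) → x = y
  foundation : ∀ x, (∃ y, E y x) → ∃ y, E y x ∧ ∀ z, E z y → ¬ E z x
  pairing : ∀ x y, ∃ z, ∀ w, E w z ↔ w = x ∨ w = y
  union : ∀ x, ∃ u, ∀ w, E w u ↔ ∃ y, E y x ∧ E w y
  powerset : ∀ x, ∃ p, ∀ w, E w p ↔ ∀ z, E z w → E z x
  infinity : ∃ x, (∃ e, E e x ∧ ∀ z, ¬ E z e) ∧
    ∀ y, E y x → ∃ s, E s x ∧ ∀ z, E z s ↔ E z y ∨ z = y
  separation : ∀ (φ : Fml) (v : ℕ → M) (x : M),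
    ∃ y, ∀ z, E z y ↔ E z x ∧ Sat E φ (cons z v)
  replacement : ∀ (φ : Fml) (v : ℕ → M) (x : M),
    (∀ z, E z x → ∃! w, Sat E φ (cons z (cons w v))) →
    ∃ y, ∀ w, E w y ↔ ∃ z, E z x ∧ Sat E φ (cons z (cons w v))

/-! ### Renaming of variables -/

/-- lift a renaming under a binder -/
def lift (ρ : ℕ → ℕ) : ℕ → ℕ
  | 0 => 0
  | n + 1 => ρ n + 1

/-- rename the free variables -/
def Fml.ren : Fml → (ℕ → ℕ) → Fml
  | .bot, _ => .bot
  | .eq i j, ρ => .eq (ρ i) (ρ j)
  | .mem i j, ρ => .mem (ρ i) (ρ j)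
  | .imp φ ψ, ρ => .imp (φ.ren ρ) (ψ.ren ρ)
  | .all φ, ρ => .all (φ.ren (lift ρ))

theorem sat_ren (E : M → M → Prop) (φ : Fml) :
    ∀ (ρ : ℕ → ℕ) (v : ℕ → M), Sat E (φ.ren ρ) v ↔ Sat E φ (fun n => v (ρ n)) := by
  induction φ with
  | bot => intro ρ v; rfl
  | eq i j => intro ρ v; rfl
  | mem i j => intro ρ v; rfl
  | imp φ ψ h1 h2 => intro ρ v; simp only [Fml.ren, Sat, h1, h2]
  | all φ h =>
    intro ρ v
    simp only [Fml.ren, Sat, h]
    refine forall_congr' fun x => ?_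
    have : (fun n => cons x v (lift ρ n)) = cons x (fun n => v (ρ n)) := by
      funext n; cases n <;> rfl
    rw [this]

/-- `φ.bd n`: all free variables of `φ` are smaller than `n` -/
def Fml.bd : Fml → ℕ → Prop
  | .bot, _ => True
  | .eq i j, n => i < n ∧ j < n
  | .mem i j, n => i < n ∧ j < n
  | .imp φ ψ, n => φ.bd n ∧ ψ.bd n
  | .all φ, n => φ.bd (n + 1)

theorem Fml.bd_mono : ∀ (φ : Fml) {m n : ℕ}, m ≤ n → φ.bd m → φ.bd n
  | .bot, _, _, _, _ => trivial
  | .eq _ _, _, _, h, h' => ⟨h'.1.trans_le h, h'.2.trans_le h⟩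
  | .mem _ _, _, _, h, h' => ⟨h'.1.trans_le h, h'.2.trans_le h⟩
  | .imp φ ψ, _, _, h, h' => ⟨φ.bd_mono h h'.1, ψ.bd_mono h h'.2⟩
  | .all φ, _, _, h, h' => φ.bd_mono (Nat.succ_le_succ h) h'

theorem Fml.exists_bd : ∀ φ : Fml, ∃ n, φ.bd n
  | .bot => ⟨0, trivial⟩
  | .eq i j => ⟨max i j + 1, by constructor <;> omega⟩
  | .mem i j => ⟨max i j + 1, by constructor <;> omega⟩
  | .imp φ ψ => by
    obtain ⟨m, hm⟩ := φ.exists_bd
    obtain ⟨n, hn⟩ := ψ.exists_bd
    exact ⟨max m n, φ.bd_mono (le_max_left _ _) hm, ψ.bd_mono (le_max_right _ _) hn⟩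
  | .all φ => by
    obtain ⟨n, hn⟩ := φ.exists_bd
    exact ⟨n, φ.bd_mono (Nat.le_succ n) hn⟩

theorem sat_congr (E : M → M → Prop) : ∀ (φ : Fml) {n : ℕ}, φ.bd n → ∀ {v w : ℕ → M},
    (∀ i < n, v i = w i) → (Sat E φ v ↔ Sat E φ w)
  | .bot, _, _, _, _, _ => Iff.rfl
  | .eq i j, _, h, v, w, e => by simp only [Sat, e i h.1, e j h.2]
  | .mem i j, _, h, v, w, e => by simp only [Sat, e i h.1, e j h.2]
  | .imp φ ψ, _, h, v, w, e => by
    simp only [Sat, sat_congr E φ h.1 e, sat_congr E ψ h.2 e]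
  | .all φ, n, h, v, w, e => by
    simp only [Sat]
    refine forall_congr' fun x => sat_congr E φ h fun i hi => ?_
    cases i with
    | zero => rfl
    | succ i => exact e i (by omega)

/-- isomorphism invariance -/
theorem sat_iso {N : Type*} (E : M → M → Prop) (F : N → N → Prop) (f : M → N)
    (hf : Function.Bijective f) (h : ∀ x y, E x y ↔ F (f x) (f y)) (φ : Fml) :
    ∀ v : ℕ → M, Sat E φ v ↔ Sat F φ (fun n => f (v n)) := by
  induction φ with
  | bot => intro v; rfl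
  | eq i j => intro v; simp only [Sat, hf.1.eq_iff]
  | mem i j => intro v; exact h _ _
  | imp φ ψ h1 h2 => intro v; simp only [Sat, h1, h2]
  | all φ ih =>
    intro v
    simp only [Sat]
    constructor
    · intro H y
      obtain ⟨x, rfl⟩ := hf.2 y
      have := (ih _).1 (H x)
      convert this using 1
      funext n; cases n <;> rfl
    · intro H x
      refine (ih _).2 ?_
      convert H (f x) using 1
      funext n; cases n <;> rfl

end H83.AC
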