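import Pool.Agent.H83.AC.CaseB

/-!
# Module Half: every coanalytic set of the sequence has an element over the first columns

`exists_star`, `caseB`. `x = ev ex {a | ..}` is `ev e c` for
`e = {pair p' h : p' ∈ CondC (nz m), h ∈ HF, ∃ q ∈ Cond, pair q h ∈ ex ∧ p' = q ∩ prod (Col (nz m)) {∅, one}
∧ the literals of q outside the columns < m fit g}` (in `M`, parameters `ex`, `g`), so `x ∈ NN M c`
(`ev_mem`) and `Real (NN M c) x`; `Star.char` gives `x ∈ app (val c σ) k`.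
-/

namespace H83.AC

open ZFSet

theorem exists_low {M c : Set ZFSet.{0}} (hM : TM M) (hct : M.Countable) (hc : Gen M c)
    {σ k : ZFSet.{0}} {m : ℕ} (hσ : σ ∈ M) (hHS : HS M σ) (hs : Supp M (nz m) σ) (hk : k ∈ omega)
    (hPI : PI1 (NN M c) (app (val c σ) k)) (hne : app (val c σ) k ≠ ∅) :
    ∃ e ∈ M, e ⊆ ZFSet.prod (CondC (nz m)) HF ∧ ev e c ∈ app (val c σ) k := by
  obtain ⟨n, p, ex, eT, hS, hp⟩ := exists_star hM hc hσ hHS hs hk hPI hne
  obtain ⟨g, hgM, hgI, hB, hF⟩ := caseB hM hct hS hc hp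
  -- the name
  have hmM : nz m ∈ M := hM.tr _ hM.omega _ hs.1
  have hHF : HF ∈ M := UF.HF.mem M hM (fun _ => omega) (fun _ => hM.omega)
  have hprod : ZFSet.prod (CondC (nz m)) HF ∈ M := by
    have h1 : UF (fun _ v => ZFSet.prod (CondC (v 0)) (v 1)) := inferInstance
    exact h1.mem M hM (cons (nz m) (fun _ => HF)) (fun n => by
      cases n with
      | zero => exact hmM
      | succ n => exact hHF)
  have hR : UR (fun N v => ∃ q ∈ Cond, pair q (snd (v 0)) ∈ v 1 ∧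
      fst (v 0) = q ∩ ZFSet.prod (Col (v 3)) {∅, one} ∧
      ∀ a ∈ Idx, a ∉ Col (v 3) → (pair a one ∈ q → a ∈ v 2) ∧ (pair a ∅ ∈ q → a ∉ v 2)) := by
    infer_instance
  have heM := TM.sep_of (R := fun _ t v => ∃ q ∈ Cond, pair q (snd t) ∈ v 0 ∧
      fst t = q ∩ ZFSet.prod (Col (v 2)) {∅, one} ∧
      ∀ a ∈ Idx, a ∉ Col (v 2) → (pair a one ∈ q → a ∈ v 1) ∧ (pair a ∅ ∈ q → a ∉ v 1))
      hR hM (v := cons ex (cons g (fun _ => nz m))) (fun n => by
        match n with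
        | 0 => exact hS.exM
        | 1 => exact hgM
        | n + 2 => exact hmM) hprod
  set e : ZFSet.{0} := ZFSet.sep (fun t => ∃ q ∈ Cond, pair q (snd t) ∈ ex ∧
      fst t = q ∩ ZFSet.prod (Col (nz m)) {∅, one} ∧
      ∀ a ∈ Idx, a ∉ Col (nz m) → (pair a one ∈ q → a ∈ g) ∧ (pair a ∅ ∈ q → a ∉ g))
      (ZFSet.prod (CondC (nz m)) HF) with he
  have heM' : e ∈ M := heM
  have heS : e ⊆ ZFSet.prod (CondC (nz m)) HF := fun t ht => (mem_sep.1 ht).1
  set X : Set ZFSet.{0} :=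
    {a | (a ∈ Col (nz m) ∧ a ∈ c) ∨ (a ∉ Col (nz m) ∧ a ∈ g)} with hX
  have hlit : ∀ {q a i : ZFSet.{0}}, q ∈ Cond → pair a i ∈ q → a ∈ Idx := by
    intro q a i hq hai
    obtain ⟨b, hb, h1 | h1⟩ := cond_lit hq hai
    · rw [(pair_inj.1 h1).1]; exact hb
    · rw [(pair_inj.1 h1).1]; exact hb
  have hev : ev e c = ev ex X := by
    ext h
    rw [mem_ev, mem_ev]
    constructor
    · rintro ⟨p', hp', hf, hpe⟩
      rw [he, mem_sep, fst_pair, snd_pair] at hpe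
      obtain ⟨-, q, hq, hqe, hpq, hout⟩ := hpe
      refine ⟨q, hq, fun a => ⟨fun ha => ?_, fun ha => ?_⟩, hqe⟩
      · by_cases hac : a ∈ Col (nz m)
        · refine Or.inl ⟨hac, (hf a).1 ?_⟩
          rw [hpq, ZFSet.mem_inter]
          exact ⟨ha, pair_mem_prod.2 ⟨hac, by simp⟩⟩
        · exact Or.inr ⟨hac, (hout a (hlit hq ha) hac).1 ha⟩
      · rintro (⟨hac, hc1⟩ | ⟨hac, hg1⟩)
        · refine (hf a).2 ?_ hc1
          rw [hpq, ZFSet.mem_inter]
          exact ⟨ha, pair_mem_prod.2 ⟨hac, by simp⟩⟩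
        · exact (hout a (hlit hq ha) hac).2 ha hg1
    · rintro ⟨q, hq, hf, hqe⟩
      have hsub : q ∩ ZFSet.prod (Col (nz m)) {∅, one} ⊆ q := fun t ht => (ZFSet.mem_inter.1 ht).1
      have hC : q ∩ ZFSet.prod (Col (nz m)) {∅, one} ∈ Cond := cond_sub hq hsub
      have hCC : q ∩ ZFSet.prod (Col (nz m)) {∅, one} ∈ CondC (nz m) := by
        rw [CondC, mem_sep]
        exact ⟨hC, fun t ht => (ZFSet.mem_inter.1 ht).2⟩
      have hhHF : h ∈ HF := (pair_mem_prod.1 (hS.exS hqe)).2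
      refine ⟨_, hC, fun a => ⟨fun ha => ?_, fun ha hac => ?_⟩, ?_⟩
      · obtain ⟨ha1, ha2⟩ := ZFSet.mem_inter.1 ha
        have hcol : a ∈ Col (nz m) := (pair_mem_prod.1 ha2).1
        rcases (hf a).1 ha1 with h1 | h1
        · exact h1.2
        · exact absurd hcol h1.1
      · obtain ⟨ha1, ha2⟩ := ZFSet.mem_inter.1 ha
        have hcol : a ∈ Col (nz m) := (pair_mem_prod.1 ha2).1
        exact (hf a).2 ha1 (Or.inl ⟨hcol, hac⟩)
      · rw [he, mem_sep, fst_pair, snd_pair]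
        refine ⟨pair_mem_prod.2 ⟨hCC, hhHF⟩, q, hq, hqe, rfl, fun a _ hac => ⟨fun ha => ?_, fun ha hag => ?_⟩⟩
        · rcases (hf a).1 ha with h1 | h1
          · exact absurd h1.1 hac
          · exact h1.2
        · exact (hf a).2 ha (Or.inr ⟨hac, hag⟩)
  refine ⟨e, heM', heS, ?_⟩
  have hNN : ev e c ∈ NN M c := ev_mem hM hs.1 heM' heS
  rw [hS.char c hc hp _ ⟨hNN, by rw [hev]; exact hF⟩, hev]
  exact hB

end H83.AC
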