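import Pool.Agent.H83.AC.Defs4

/-!
# Module HlU: recursion along the transitive closure, least elements

`hl_eq`: unfold `hl` (`rw [hl]`), the set is `fgr (hl G) (tc t)`. `UF.hl`: `UF.recur` with
`pred N v x = tc x` (well-founded: `rank_lt_of_mem_tc`), `F N v x = hl (G N v) x`.
`lst_mem`: existence from `IsWO`, uniqueness from the linearity, `⋃₀ {a} = a`.
-/

namespace H83.AC

open ZFSet

theorem hl_eq (G : ZFSet.{0} → ZFSet.{0} → ZFSet.{0}) (t : ZFSet.{0}) :
    hl G t = G t (fgr (hl G) (tc t)) := by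
  rw [hl]
  rfl

theorem UF.hl {G : Set ZFSet.{0} → (ℕ → ZFSet.{0}) → ZFSet.{0} → ZFSet.{0} → ZFSet.{0}}
    (hG : UF (fun N w => G N (sh (sh w)) (w 0) (w 1))) :
    UF (fun N w => H83.AC.hl (G N (sh w)) (w 0)) := by
  refine UF.recur (F := fun N v x => H83.AC.hl (G N v) x) (pred := fun _ _ x => H83.AC.tc x)
    (G := G) (UF.tc (UF.var 0)) hG ?_ ?_
  · intro N _ v _
    refine Subrelation.wf (r := InvImage (· < ·) (fun x : N => rank (x : ZFSet.{0}))) ?_
      (InvImage.wf _ wellFounded_lt)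
    intro y x h
    exact rank_lt_of_mem_tc h
  · intro N _ v _ x _
    exact hl_eq _ _

theorem lst_mem {w A S : ZFSet.{0}} (hw : IsWO w A) (hS : S ⊆ A) (hne : S ≠ ∅) : lst w S ∈ S := by
  obtain ⟨-, h2, -, h4⟩ := hw
  obtain ⟨x, hx, hmin⟩ := h4 S hS hne
  have e : lst w S = x := by
    ext z
    rw [lst, mem_sUnion]
    constructor
    · rintro ⟨a, ha, hz⟩
      obtain ⟨haS, hamin⟩ := mem_sep.1 ha
      rcases h2 a (hS haS) x (hS hx) with h | h | h
      · rwa [h] at hz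
      · exact absurd h (hmin a haS)
      · exact absurd h (hamin x hx)
    · intro hz
      exact ⟨x, mem_sep.2 ⟨hx, hmin⟩, hz⟩
  rw [e]
  exact hx

theorem lst_empty (w : ZFSet.{0}) : lst w ∅ = ∅ := by
  rw [lst, eq_empty]
  intro z hz
  obtain ⟨a, ha, -⟩ := mem_sUnion.1 hz
  exact notMem_empty _ (mem_sep.1 ha).1

theorem UF.lst {f g : Set ZFSet.{0} → (ℕ → ZFSet.{0}) → ZFSet.{0}} (hf : UF f) (hg : UF g) :
    UF (fun N v => H83.AC.lst (f N v) (g N v)) := by
  have h : UF (fun N v => (⋃₀ (ZFSet.sep (fun a => ∀ b ∈ g N v, ¬ ZFSet.pair b a ∈ f N v)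
      (g N v)) : ZFSet)) := by
    infer_instance
  exact h

instance Inst.lst {f g : Set ZFSet.{0} → (ℕ → ZFSet.{0}) → ZFSet.{0}} [hf : UF f] [hg : UF g] :
    UF (fun N v => H83.AC.lst (f N v) (g N v)) := UF.lst hf hg

end H83.AC
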