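import Pool.Agent.H83.AC.NthU
import Pool.Agent.H83.AC.HlU

/-!
# Module HullA: values of the terms

Unfold `hull`, `hl_eq`, `hG`; `fst (tg n u) = nz n`, `snd (tg n u) = u`, `nz_inj` decides the cases.
In `hull_ts`, `hull_tx` the values `app f u` with `f = fgr (hull ..) (tc t)` are `hull u` for `u ∈ tc t`
(`app_fgr`). Every `nth i s` (`s` a component of the term `t`) is in `tc t`: components of elements are in the
transitive closure, and the junk value `∅` is in `tc t` because `t` is not empty (an `∈`-minimal element of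
`tc t`). `skv` for `χ ∈ subs φ`: induction on the list, `fc_inj`.
`hull_mem`: case distinction; the least element of a subset of `A`, or `∅`.
-/

namespace H83.AC

open ZFSet

namespace HullA

theorem fst_tg (n : ℕ) (u : ZFSet.{0}) : fst (tg n u) = nz n := by rw [tg, fst_pair]

theorem snd_tg (n : ℕ) (u : ZFSet.{0}) : snd (tg n u) = u := by rw [tg, snd_pair]

theorem nz_ne {m n : ℕ} (h : m ≠ n) : nz m ≠ nz n := fun e => h (nz_inj.1 e)

theorem empty_tc {u : ZFSet.{0}} (h : u ≠ ∅) : ∅ ∈ tc u := by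
  induction u using ZFSet.inductionOn with
  | _ u ih =>
    have : ∃ y, y ∈ u := by
      by_contra hne
      apply h
      rw [ZFSet.eq_empty]
      intro y hy
      exact hne ⟨y, hy⟩
    obtain ⟨y, hy⟩ := this
    by_cases hy0 : y = ∅
    · rw [← hy0]; exact sub_tc u hy
    · exact tc_mono hy (ih y hy hy0)

theorem comp_tc {u x y : ZFSet.{0}} (h : pair x y ∈ tc u) : x ∈ tc u ∧ y ∈ tc u := by
  have h1 : ({x, y} : ZFSet) ∈ tc u := by
    refine tc_tr h ?_
    rw [pair]; simp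
  exact ⟨tc_tr h1 (by simp), tc_tr h1 (by simp)⟩

theorem comp_tc' (x y : ZFSet.{0}) : x ∈ tc (pair x y) ∧ y ∈ tc (pair x y) := by
  have h1 : ({x, y} : ZFSet) ∈ tc (pair x y) := by
    refine sub_tc _ ?_
    rw [pair]; simp
  exact ⟨tc_tr h1 (by simp), tc_tr h1 (by simp)⟩

theorem fst_cases (s : ZFSet.{0}) : (∃ x y, s = pair x y) ∨ (fst s = ∅ ∧ snd s = ∅) := by
  by_cases h : ∃ x y, s = pair x y
  · exact Or.inl h
  · refine Or.inr ⟨?_, ?_⟩
    · rw [ZFSet.eq_empty]
      intro w hw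
      rw [fst, mem_sUnion] at hw
      obtain ⟨z, hz, -⟩ := hw
      obtain ⟨-, y, -, e⟩ := mem_sep.1 hz
      exact h ⟨_, _, e⟩
    · rw [ZFSet.eq_empty]
      intro w hw
      rw [snd, mem_sUnion] at hw
      obtain ⟨z, hz, -⟩ := hw
      obtain ⟨-, y, -, e⟩ := mem_sep.1 hz
      exact h ⟨_, _, e⟩

theorem ne_of_mem_tc {u s : ZFSet.{0}} (h : s ∈ tc u) : u ≠ ∅ := by
  rintro rfl
  have h1 : tc (∅ : ZFSet) ⊆ ∅ := tc_min (fun _ h => h) (fun y hy => absurd hy (ZFSet.notMem_empty y))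
  exact ZFSet.notMem_empty s (h1 h)

theorem fst_tc {u s : ZFSet.{0}} (h : s ∈ tc u) : fst s ∈ tc u ∧ snd s ∈ tc u := by
  rcases fst_cases s with ⟨x, y, rfl⟩ | ⟨h1, h2⟩
  · rw [fst_pair, snd_pair]
    exact comp_tc h
  · rw [h1, h2]
    exact ⟨empty_tc (ne_of_mem_tc h), empty_tc (ne_of_mem_tc h)⟩

theorem nth_tc {u : ZFSet.{0}} (i : ℕ) : ∀ {s : ZFSet.{0}}, s ∈ tc u → nth i s ∈ tc u := by
  induction i with
  | zero => intro s hs; exact (fst_tc hs).1
  | succ i ih => intro s hs; exact ih (fst_tc hs).2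

theorem hull_eq (φ : Fml) (A w e t : ZFSet.{0}) :
    hull φ A w e t = hG φ A w e t (fgr (hull φ A w e) (tc t)) := by
  rw [hull, hl_eq]
  rfl

theorem skv_eq {A w t f : ZFSet.{0}} {χ : Fml} : ∀ {L : List Fml}, χ ∈ L →
    skv A w (fc χ) t f L =
      lst w (ZFSet.sep (fun a => ¬ SatIn (cls A) χ (cons a (fun i => app f (nth i t)))) A)
  | [], h => absurd h List.not_mem_nil
  | ψ :: L, h => by
    rw [skv]
    by_cases e : χ = ψ
    · subst e
      rw [if_pos rfl]
    · rw [if_neg (fun h' => e (fc_inj.1 h'))]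
      rcases List.mem_cons.1 h with h | h
      · exact absurd h e
      · exact skv_eq h

theorem lst_A {A w S : ZFSet.{0}} (hA : HF ⊆ A) (hw : IsWO w A) (hS : S ⊆ A) : lst w S ∈ A := by
  by_cases h : S = ∅
  · rw [h, lst_empty]
    exact hA HF_empty
  · exact hS (lst_mem hw hS h)

theorem skv_A {A w g t f : ZFSet.{0}} (hA : HF ⊆ A) (hw : IsWO w A) :
    ∀ L : List Fml, skv A w g t f L ∈ A
  | [] => by rw [skv]; exact hA HF_empty
  | ψ :: L => by
    rw [skv]
    split_ifs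
    · exact lst_A hA hw (fun x hx => (mem_sep.1 hx).1)
    · exact skv_A hA hw L

end HullA

open HullA

theorem hull_base (φ : Fml) (A w e h : ZFSet.{0}) : hull φ A w e (tg 0 h) = h := by
  rw [hull_eq, hG, if_pos (fst_tg 0 h), snd_tg]

theorem hull_te (φ : Fml) (A w e : ZFSet.{0}) : hull φ A w e te = e := by
  rw [hull_eq, hG, te, fst_tg, if_neg (nz_ne (by norm_num)), if_pos rfl]

theorem hull_ts {φ χ : Fml} (h : χ ∈ subs φ) (A w e t : ZFSet.{0}) :
    hull φ A w e (ts χ t) = lst w (ZFSet.sep (fun a =>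
      ¬ SatIn (cls A) χ (cons a (fun i => hull φ A w e (nth i t)))) A) := by
  rw [hull_eq, hG, ts, fst_tg, if_neg (nz_ne (by norm_num)), if_neg (nz_ne (by norm_num)),
    if_pos rfl, snd_tg, fst_pair, snd_pair, skv_eq h]
  have ht : t ∈ tc (tg 2 (pair (fc χ) t)) := by
    rw [tg]
    exact (comp_tc (comp_tc' _ _).2).2
  have hf : (fun i => app (fgr (hull φ A w e) (tc (tg 2 (pair (fc χ) t)))) (nth i t)) =
      fun i => hull φ A w e (nth i t) := by
    funext i
    exact app_fgr (nth_tc i ht)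
  rw [hf]

theorem hull_tx (φ : Fml) (A w e i j : ZFSet.{0}) :
    hull φ A w e (tx i j) = lst w (ZFSet.sep (fun a =>
      (a ∈ hull φ A w e i ∧ a ∉ hull φ A w e j) ∨
      (a ∉ hull φ A w e i ∧ a ∈ hull φ A w e j)) A) := by
  rw [hull_eq, hG, tx, fst_tg, if_neg (nz_ne (by norm_num)), if_neg (nz_ne (by norm_num)),
    if_neg (nz_ne (by norm_num)), if_pos rfl, snd_tg, fst_pair, snd_pair]
  have hi : i ∈ tc (tg 3 (pair i j)) := by
    rw [tg]
    exact (comp_tc (comp_tc' _ _).2).1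
  have hj : j ∈ tc (tg 3 (pair i j)) := by
    rw [tg]
    exact (comp_tc (comp_tc' _ _).2).2
  rw [app_fgr hi, app_fgr hj]

theorem hull_mem {φ : Fml} {A w e t : ZFSet.{0}} (hA : HF ⊆ A) (he : e ∈ A) (hw : IsWO w A)
    (ht : t ∈ HF) : hull φ A w e t ∈ A := by
  rw [hull_eq, hG]
  split_ifs
  · exact hA (snd_HF ht)
  · exact he
  · exact skv_A hA hw _
  · exact lst_A hA hw (fun x hx => (mem_sep.1 hx).1)
  · exact hA HF_empty

end H83.AC
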