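import Pool.Agent.H83.AC.Defs4

/-!
# Module SatU: satisfaction in a set is uniformly definable

Induction on `χ` for all `f, g`: `all χ`: `UR.ball hf` and the induction hypothesis for
`fun N v => f N (sh v)` (`UF.shift`) and the sequence `v 0, g 0 N (sh v), g 1 N (sh v), ..`.
Note `(fun i => g' i N v) = cons (v 0) (fun i => g i N (sh v))` (`funext`, cases) where
`g' 0 = fun N v => v 0`, `g' (i+1) = fun N v => g i N (sh v)`.
-/

namespace H83.AC

open ZFSet

theorem UR.satIn (χ : Fml) {f : Set ZFSet.{0} → (ℕ → ZFSet.{0}) → ZFSet.{0}}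
    {g : ℕ → Set ZFSet.{0} → (ℕ → ZFSet.{0}) → ZFSet.{0}} (hf : UF f) (hg : ∀ i, UF (g i)) :
    UR (fun N v => SatIn (cls (f N v)) χ (fun i => g i N v)) := by
  induction χ generalizing f g with
  | bot => exact UD.false
  | eq i j => exact UR.eq (hg i) (hg j)
  | mem i j => exact UR.mem (hg i) (hg j)
  | imp φ ψ h1 h2 => exact UD.imp (h1 hf hg) (h2 hf hg)
  | all φ ih =>
    refine UR.ball (f := f) (R := fun N x v => SatIn (cls (f N v)) φ (cons x (fun i => g i N v)))
      hf ?_
    have h1 := ih (f := fun N v => f N (sh v))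
      (g := fun n => match n with
        | 0 => fun _ v => v 0
        | i + 1 => fun N v => g i N (sh v)) (UF.shift hf) (fun n => by
          cases n with
          | zero => exact UF.var 0
          | succ i => exact UF.shift (hg i))
    refine h1.congr fun N _ v _ => ?_
    have e : (cons (v 0) (fun i => g i N (sh v))) = (fun n => (match n with
        | 0 => fun _ v => v 0
        | i + 1 => fun N v => g i N (sh v) :
          Set ZFSet.{0} → (ℕ → ZFSet.{0}) → ZFSet.{0}) N v) := by
      funext n
      cases n <;> rfl
    rw [e]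

end H83.AC
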