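import Pool.Agent.H83.AC.NthU
import Pool.Agent.H83.AC.HlU
import Pool.Agent.H83.AC.SatU

/-!
# Module HullU: the hull and the certificate are uniformly definable

`UF.skv`: induction on the list (`UF.ite`, `UF.lst`, `UF.sep`, `UR.satIn` with the sequence
`v 0, app f (nth 0 t), app f (nth 1 t), ..`). `UF.hG` then `infer_instance` / `UF.ite`. `UF.hull`: `UF.hl`
with `G N v t f = hG φ (v 0) (v 1) (v 2) t f`, then `UF.comp4`. `UR.tv`: induction on the list.
`UF.yv`, `UF.yr` by the rules.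
-/

namespace H83.AC

open ZFSet

variable {f g h k l m : Set ZFSet.{0} → (ℕ → ZFSet.{0}) → ZFSet.{0}}

private theorem hullU_satc (χ : Fml) (hf : UF f) (hk : UF k) (hl : UF l) :
    UR (fun N v => SatIn (cls (f N (sh v))) χ
      (cons (v 0) (fun i => app (l N (sh v)) (nth i (k N (sh v)))))) := by
  have h := UR.satIn χ (f := fun N v => f N (sh v))
    (g := fun i => Nat.casesOn (motive := fun _ => Set ZFSet.{0} → (ℕ → ZFSet.{0}) → ZFSet.{0}) i
      (fun _ v => v 0) (fun i N v => app (l N (sh v)) (nth i (k N (sh v))))) hf.shift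
    (fun i => by
      cases i with
      | zero => exact UF.var 0
      | succ i => exact UF.app hl.shift (UF.nth i hk.shift))
  refine h.congr fun N _ v _ => ?_
  have e : (cons (v 0) (fun i => app (l N (sh v)) (nth i (k N (sh v))))) =
      (fun i => (Nat.casesOn (motive := fun _ => Set ZFSet.{0} → (ℕ → ZFSet.{0}) → ZFSet.{0}) i
      (fun _ v => v 0) (fun i N v => app (l N (sh v)) (nth i (k N (sh v)))) : Set ZFSet.{0} →
        (ℕ → ZFSet.{0}) → ZFSet.{0}) N v) := by
    funext i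
    cases i with
    | zero => rfl
    | succ i => rfl
  rw [e]

private theorem hullU_skv (L : List Fml) (hf : UF f) (hg : UF g) (hh : UF h) (hk : UF k)
    (hl : UF l) : UF (fun N v => skv (f N v) (g N v) (h N v) (k N v) (l N v) L) := by
  induction L with
  | nil => exact UF.empty
  | cons χ L ih =>
    have h1 : UR (fun N v => h N v = fc χ) := UR.eq hh (Inst.fc χ)
    have h2 : UF (fun N v => lst (g N v) (ZFSet.sep (fun a => ¬ SatIn (cls (f N v)) χ
        (cons a (fun i => app (l N v) (nth i (k N v))))) (f N v))) :=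
      UF.lst hg (UF.sep (R := fun N a v => ¬ SatIn (cls (f N v)) χ
        (cons a (fun i => app (l N v) (nth i (k N v))))) hf (hullU_satc χ hf hk hl).not)
    refine (UF.ite h1 h2 ih).congr fun N _ v _ => ?_
    rw [skv]

private theorem hullU_hG (φ : Fml) (hf : UF f) (hg : UF g) (hh : UF h) (hk : UF k)
    (hl : UF l) : UF (fun N v => hG φ (f N v) (g N v) (h N v) (k N v) (l N v)) := by
  have h1 : UF (fun N v => skv (f N v) (g N v) (fst (snd (k N v))) (snd (snd (k N v))) (l N v)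
      (subs φ)) := hullU_skv (subs φ) hf hg (UF.fst (UF.snd hk)) (UF.snd (UF.snd hk)) hl
  have h2 : UF (fun N v => lst (g N v) (ZFSet.sep (fun a =>
    (a ∈ app (l N v) (fst (snd (k N v))) ∧ a ∉ app (l N v) (snd (snd (k N v)))) ∨
    (a ∉ app (l N v) (fst (snd (k N v))) ∧ a ∈ app (l N v) (snd (snd (k N v))))) (f N v))) := by
    infer_instance
  unfold hG
  exact UF.ite (UR.eq (UF.fst hk) (UF.nz 0)) (UF.snd hk)
    (UF.ite (UR.eq (UF.fst hk) (UF.nz 1)) hh
      (UF.ite (UR.eq (UF.fst hk) (UF.nz 2)) h1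
        (UF.ite (UR.eq (UF.fst hk) (UF.nz 3)) h2 UF.empty)))

theorem UF.hull (φ : Fml) (hf : UF f) (hg : UF g) (hh : UF h) (hk : UF k) :
    UF (fun N v => H83.AC.hull φ (f N v) (g N v) (h N v) (k N v)) := by
  have h1 := UF.hl (G := fun _ v t x => hG φ (v 0) (v 1) (v 2) t x)
    (hullU_hG φ (UF.var 2) (UF.var 3) (UF.var 4) (UF.var 0) (UF.var 1))
  exact UF.comp4 (F := fun _ t a b c => H83.AC.hull φ a b c t) h1 hk hf hg hh

private theorem hullU_tv (φ : Fml) (L : List Fml) (hf : UF f) (hg : UF g) (hh : UF h) (hk : UF k)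
    (hl : UF l) : UR (fun N v => tv φ (f N v) (g N v) (h N v) (k N v) (l N v) L) := by
  induction L with
  | nil => exact UD.false
  | cons χ L ih =>
    have h1 : UR (fun N v => k N v = fc χ) := UR.eq hk (Inst.fc χ)
    have h2 : UR (fun N v => SatIn (cls (f N v)) χ
        (fun i => hull φ (f N v) (g N v) (h N v) (nth i (l N v)))) :=
      UR.satIn χ (g := fun i N v => hull φ (f N v) (g N v) (h N v) (nth i (l N v))) hf
        (fun i => UF.hull φ hf hg hh (UF.nth i hl))
    exact (h1.and h2).or ih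

private theorem hullU_fits {p s : ZFSet.{0}} : Fits p (cls s) ↔
    ∀ a ∈ (⋃₀ (⋃₀ p : ZFSet) : ZFSet), (pair a one ∈ p → a ∈ s) ∧ (pair a ∅ ∈ p → ¬ a ∈ s) := by
  constructor
  · intro h a _
    exact h a
  · intro h a
    exact ⟨fun h1 => (h a (fst_mem_ssU h1)).1 h1, fun h1 => (h a (fst_mem_ssU h1)).2 h1⟩

private theorem hullU_one : UF (fun _ _ => one) := by
  unfold one
  infer_instance

private theorem hullU_ur_fits (hf : UF f) (hg : UF g) :
    UR (fun N v => Fits (f N v) (cls (g N v))) := by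
  have := hullU_one
  have h1 : UR (fun N v => ∀ a ∈ (⋃₀ (⋃₀ (f N v) : ZFSet) : ZFSet),
      (pair a one ∈ f N v → a ∈ g N v) ∧ (pair a ∅ ∈ f N v → ¬ a ∈ g N v)) := by
    infer_instance
  exact h1.congr fun N _ v _ => hullU_fits

private theorem hullU_yv (φ : Fml) (hf : UF f) (hg : UF g) (hh : UF h) (hk : UF k)
    (hl : UF l) (hm : UF m) :
    UF (fun N v => yv φ (f N v) (g N v) (h N v) (k N v) (l N v) (m N v)) := by
  have a1 := UF.hull φ hf hg hh (UF.fst (UF.snd hm))
  have a2 := UF.hull φ hf hg hh (UF.snd (UF.snd hm))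
  have a3 := hullU_tv φ (asub φ) hf hg hh (UF.fst (UF.snd hm)) (UF.snd (UF.snd hm))
  have a4 : UR (fun N v => Fits (v 0) (cls (l N (sh v))) ∧
      pair (v 0) (snd (m N (sh v))) ∈ h N (sh v)) :=
    (hullU_ur_fits (UF.var 0) hl.shift).and
      (UR.mem (UF.pair (UF.var 0) (UF.snd hm).shift) hh.shift)
  have a5 : UF (fun N v => ZFSet.sep (fun p => Fits p (cls (l N v)) ∧ pair p (snd (m N v)) ∈ h N v)
      (CondC (k N v))) :=
    UF.sep (R := fun N p v => Fits p (cls (l N v)) ∧ pair p (snd (m N v)) ∈ h N v)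
      (UF.CondC hk) a4
  have a6 : UF (fun _ _ => wh omega) := UF.wh UF.omega
  unfold yv
  exact UF.ite (UR.eq (UF.fst hm) (UF.nz 0)) (UF.ite (UR.mem a1 a2) hullU_one UF.empty)
    (UF.ite (UR.eq (UF.fst hm) (UF.nz 1)) (UF.ite (UR.eq a1 a2) hullU_one UF.empty)
      (UF.ite (UR.eq (UF.fst hm) (UF.nz 2)) (UF.ite a3 hullU_one UF.empty)
        (UF.ite (UR.eq (UF.fst hm) (UF.nz 3)) (UF.ci (UF.lst a6 a5)) UF.empty)))

theorem UF.yr (φ : Fml) (hf : UF f) (hg : UF g) (hh : UF h) (hk : UF k) (hl : UF l) :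
    UF (fun N v => H83.AC.yr φ (f N v) (g N v) (h N v) (k N v) (l N v)) := by
  unfold H83.AC.yr
  have h1 : UF (fun _ v => H83.AC.app H83.AC.cdg (v 0)) := by infer_instance
  exact UF.fgr (F := fun N n v => yv φ (f N v) (g N v) (h N v) (k N v) (l N v)
    (H83.AC.app H83.AC.cdg n)) UF.omega
    (hullU_yv φ hf.shift hg.shift hh.shift hk.shift hl.shift h1)

end H83.AC
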