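import Pool.Agent.H83.AC.Ops

namespace H83.AC

/-!
# Instances: `infer_instance` proves uniform definability

`UD` and `UF` are classes (proposition valued); the closure rules are instances. A goal
`UR (fun N v => ..)` or `UF (fun N v => ..)` is proved by `infer_instance`; facts about functions
of your own may be given with `haveI := ..` or declared as instances.
-/

variable {C : Set ZFSet.{0} → Prop}
variable {f g h : Set ZFSet.{0} → (ℕ → ZFSet.{0}) → ZFSet.{0}}
variable {R S : Set ZFSet.{0} → (ℕ → ZFSet.{0}) → Prop}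
variable {T : Set ZFSet.{0} → ZFSet.{0} → (ℕ → ZFSet.{0}) → Prop}
variable {F : Set ZFSet.{0} → ZFSet.{0} → (ℕ → ZFSet.{0}) → ZFSet.{0}}

namespace Inst

instance (priority := low) prop (p : Prop) : UD C (fun _ _ => p) := UD.prop p
instance var (i : ℕ) : UF (fun _ v => v i) := UF.var i
instance imp [hr : UD C R] [hs : UD C S] : UD C (fun N v => R N v → S N v) := UD.imp hr hs
instance not [hr : UD C R] : UD C (fun N v => ¬ R N v) := UD.not hr
instance and [hr : UD C R] [hs : UD C S] : UD C (fun N v => R N v ∧ S N v) := UD.and hr hs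
instance or [hr : UD C R] [hs : UD C S] : UD C (fun N v => R N v ∨ S N v) := UD.or hr hs
instance iff [hr : UD C R] [hs : UD C S] : UD C (fun N v => R N v ↔ S N v) := UD.iff hr hs
instance allN [h : UD C (fun N v => T N (v 0) (sh v))] : UD C (fun N v => ∀ x ∈ N, T N x v) := UD.allN h
instance exN [h : UD C (fun N v => T N (v 0) (sh v))] : UD C (fun N v => ∃ x ∈ N, T N x v) := UD.exN h
instance ball [hf : UF f] [h : UR (fun N v => T N (v 0) (sh v))] : UR (fun N v => ∀ x ∈ f N v, T N x v) := UR.ball hf h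
instance bex [hf : UF f] [h : UR (fun N v => T N (v 0) (sh v))] : UR (fun N v => ∃ x ∈ f N v, T N x v) := UR.bex hf h
instance mem [hf : UF f] [hg : UF g] : UR (fun N v => f N v ∈ g N v) := UR.mem hf hg
instance eq [hf : UF f] [hg : UF g] : UR (fun N v => f N v = g N v) := UR.eq hf hg
instance sub [hf : UF f] [hg : UF g] : UR (fun N v => f N v ⊆ g N v) := UR.sub hf hg
instance empty : UF (fun _ _ => (∅ : ZFSet.{0})) := UF.empty
instance upair [hf : UF f] [hg : UF g] : UF (fun N v => ({f N v, g N v} : ZFSet.{0})) := UF.upair hf hg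
instance singleton [hf : UF f] : UF (fun N v => ({f N v} : ZFSet.{0})) := UF.singleton hf
instance pair [hf : UF f] [hg : UF g] : UF (fun N v => ZFSet.pair (f N v) (g N v)) := UF.pair hf hg
instance sUnion [hf : UF f] : UF (fun N v => (ZFSet.sUnion (f N v))) := UF.sUnion hf
instance sep [hf : UF f] [h : UR (fun N v => T N (v 0) (sh v))] : UF (fun N v => ZFSet.sep (fun x => T N x v) (f N v)) := UF.sep hf h
instance img [hf : UF f] [h : UF (fun N v => F N (v 0) (sh v))] : UF (fun N v => H83.AC.img (fun x => F N x v) (f N v)) := UF.img hf h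
instance uni [hf : UF f] [h : UF (fun N v => F N (v 0) (sh v))] : UF (fun N v => H83.AC.uni (fun x => F N x v) (f N v)) := UF.uni hf h
instance fgr [hf : UF f] [h : UF (fun N v => F N (v 0) (sh v))] : UF (fun N v => H83.AC.fgr (fun x => F N x v) (f N v)) := UF.fgr hf h
instance union [hf : UF f] [hg : UF g] : UF (fun N v => f N v ∪ g N v) := UF.union hf hg
instance insert [hf : UF f] [hg : UF g] : UF (fun N v => Insert.insert (f N v) (g N v)) := UF.insert hf hg
instance inter [hf : UF f] [hg : UF g] : UF (fun N v => f N v ∩ g N v) := UF.inter hf hg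
instance diff [hf : UF f] [hg : UF g] : UF (fun N v => f N v \ g N v) := UF.diff hf hg
instance prod [hf : UF f] [hg : UF g] : UF (fun N v => ZFSet.prod (f N v) (g N v)) := UF.prod hf hg
instance app [hf : UF f] [hg : UF g] : UF (fun N v => H83.AC.app (f N v) (g N v)) := UF.app hf hg
instance dom [hf : UF f] : UF (fun N v => H83.AC.dom (f N v)) := UF.dom hf
instance rng [hf : UF f] : UF (fun N v => H83.AC.rng (f N v)) := UF.rng hf
instance fst [hf : UF f] : UF (fun N v => H83.AC.fst (f N v)) := UF.fst hf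
instance snd [hf : UF f] : UF (fun N v => H83.AC.snd (f N v)) := UF.snd hf

instance shift1 [hf : UF f] : UF (fun N v => f N (sh v)) := hf.shift
instance shift2 [hf : UF f] : UF (fun N v => f N (sh (sh v))) := hf.shift.shift
instance shift3 [hf : UF f] : UF (fun N v => f N (sh (sh (sh v)))) := hf.shift.shift.shift
instance shift4 [hf : UF f] : UF (fun N v => f N (sh (sh (sh (sh v))))) :=
  hf.shift.shift.shift.shift
instance shift5 [hf : UF f] : UF (fun N v => f N (sh (sh (sh (sh (sh v)))))) :=
  hf.shift.shift.shift.shift.shift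
instance shiftR1 [hr : UR R] : UR (fun N v => R N (sh v)) := hr.ren Nat.succ
instance shiftR2 [hr : UR R] : UR (fun N v => R N (sh (sh v))) := hr.ren (fun n => n + 2)
instance shiftR3 [hr : UR R] : UR (fun N v => R N (sh (sh (sh v)))) := hr.ren (fun n => n + 3)
instance shiftR4 [hr : UR R] : UR (fun N v => R N (sh (sh (sh (sh v))))) :=
  hr.ren (fun n => n + 4)
instance shiftR5 [hr : UR R] : UR (fun N v => R N (sh (sh (sh (sh (sh v)))))) :=
  hr.ren (fun n => n + 5)
instance ite {R : Set ZFSet.{0} → (ℕ → ZFSet.{0}) → Prop} [hr : UR R] [hf : UF f] [hg : UF g] :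
    UF (fun N v => open Classical in if R N v then f N v else g N v) := UF.ite hr hf hg

end Inst

example : UR (fun N v => ∀ x ∈ v 1, ∃ y ∈ v 2, ZFSet.pair x y ∈ v 3 → ¬ (x = y ∧ x ⊆ y)) := by
  infer_instance

example [hf : UF f] : UR (fun N v => ∀ x ∈ f N v, ∃ y ∈ v 2, ∃ z ∈ N, ZFSet.pair x y ∈ v 3 → ¬ (x = y ∧ x ⊆ {z, y} ∪ img (fun x => insert x y) (v 4) \ {y})) := by
  infer_instance


example [hf : UF f] : UF (fun N v => insert (f N v) (f N v) ∪ ZFSet.sep (fun z => z ⊆ f N v)
  (H83.AC.uni (fun x => H83.AC.uni (fun y => ZFSet.pair x y) (insert (f N v) (f N v))) (insert (f N v) (f N v)))) := by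
  infer_instance

example [hf : UF f] [hR : UR R] : UR (fun N v => ∃ x ∈ f N v, ∃ y ∈ f N v, ∃ z ∈ f N v, ∃ w ∈ f N v, z ∈ v 3 ∧ R N v) := by
  infer_instance

end H83.AC
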