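import Pool.Agent.H83.AC.KKU
import Pool.Agent.H83.AC.WfHF

/-!
# Module KBa: the collapse of a well-founded certificate

`e = {pair i j ∈ prod HF HF : bE y i j} ∈ N`; `Desc e f` for `f : omega → HF` means `DescY y f`. `wfHF` gives
well-foundedness, `setCollapse` with `a = HF` gives `F' ∈ N`; `F = app F'`, `X = img F HF ∈ N`.
`F i = F j ↔ bQ y i j`. (←) By `qs`, `er`: `bE y l i ↔ bE y l j`, so the images are equal. (→) By
well-founded induction (`honest_wf`) on `i`, all `j`: if `¬ bQ y i j`, `ex` gives `d = tx i j` with, say,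
`bE y d i`, `¬ bE y d j`: `F d ∈ F i = F j`, so `F d = F d'` with `bE y d' j`; the induction hypothesis for `d`
gives `bQ y d d'`, and `qs`, `el` give `bE y d j`. In the other case `bE y d j`, `¬ bE y d i`:
`F d ∈ F j = F i`, `F d = F d'` with `bE y d' i`; use the induction hypothesis for `d'`.
`F i ∈ F j ↔ bE y i j`: (→) `F i = F i'` with `bE y i' j`, `bQ y i' i`, `el`.
-/

namespace H83.AC

open ZFSet

/-- the relation as a set -/
private noncomputable def KBe (y : ZFSet.{0}) : ZFSet.{0} :=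
  ZFSet.sep (fun t => ¬ (app y (ci (tg 0 (ZFSet.pair (fst t) (snd t)))) = ∅)) (ZFSet.prod HF HF)

private theorem KBe_uf : UF (fun _ v => KBe (v 0)) := by
  have h : UF (fun _ v => ZFSet.sep
      (fun t => ¬ (app (v 0) (ci (tg 0 (ZFSet.pair (fst t) (snd t)))) = ∅))
      (ZFSet.prod HF HF)) := by
    infer_instance
  exact h

private theorem mem_KBe {y i j : ZFSet.{0}} :
    ZFSet.pair i j ∈ KBe y ↔ i ∈ HF ∧ j ∈ HF ∧ bE y i j := by
  unfold KBe bE
  rw [mem_sep, pair_mem_prod, fst_pair, snd_pair]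
  constructor
  · rintro ⟨⟨h1, h2⟩, h3⟩
    exact ⟨h1, h2, h3⟩
  · rintro ⟨h1, h2, h3⟩
    exact ⟨⟨h1, h2⟩, h3⟩

theorem kb_collapse {N : Set ZFSet.{0}} (hN : TM N) {φ : Fml} {k s x y : ZFSet.{0}}
    (hy : Real N y) (hK : KK φ k s x y) (hno : ∀ f ∈ N, IsFunc omega HF f → ¬ DescY y f) :
    ∃ (F : ZFSet.{0} → ZFSet.{0}) (X : ZFSet.{0}), X ∈ N ∧ (∀ z, z ∈ X ↔ ∃ i ∈ HF, z = F i) ∧
      (∀ z ∈ X, z ⊆ X) ∧ (∀ i ∈ HF, ∀ j ∈ HF, (F i = F j ↔ bQ y i j)) ∧
      ∀ i ∈ HF, ∀ j ∈ HF, (F i ∈ F j ↔ bE y i j) := by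
  have hHF : HF ∈ N := UF.HF.mem N hN (fun _ => y) (fun _ => hy.1)
  have heN : KBe y ∈ N := KBe_uf.mem N hN (fun _ => y) (fun _ => hy.1)
  have hno' : ∀ f ∈ N, IsFunc omega HF f → ¬ Desc (KBe y) f := by
    intro f hf hfun hd
    refine hno f hf hfun fun n hn => ?_
    exact (mem_KBe.1 (hd n hn)).2.2
  have hwf := wfHF hN heN hno'
  obtain ⟨F', hF'N, -, -, hF'⟩ := setCollapse hN hHF heN hwf
  have hwell := honest_wf hN hHF heN hwf
  have memF : ∀ i ∈ HF, ∀ w, w ∈ app F' i ↔ ∃ d ∈ HF, bE y d i ∧ app F' d = w := by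
    intro i hi w
    rw [hF' i hi, mem_img]
    constructor
    · rintro ⟨d, hd, rfl⟩
      obtain ⟨h1, h2⟩ := mem_sep.1 hd
      exact ⟨d, h1, (mem_KBe.1 h2).2.2, rfl⟩
    · rintro ⟨d, hd, h1, rfl⟩
      exact ⟨d, mem_sep.2 ⟨hd, mem_KBe.2 ⟨hd, hi, h1⟩⟩, rfl⟩
  have hQ1 : ∀ i ∈ HF, ∀ j ∈ HF, bQ y i j → app F' i = app F' j := by
    intro i hi j hj h
    ext w
    rw [memF i hi, memF j hj]
    constructor
    · rintro ⟨d, hd, h1, h2⟩
      exact ⟨d, hd, hK.er d hd i hi j hj h1 h, h2⟩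
    · rintro ⟨d, hd, h1, h2⟩
      exact ⟨d, hd, hK.er d hd j hj i hi h1 (hK.qs i hi j hj h), h2⟩
  have hQ2 : ∀ i, i ∈ HF → ∀ j ∈ HF, app F' i = app F' j → bQ y i j := by
    intro i
    induction i using hwell.induction with
    | _ i ih =>
      intro hi j hj h
      by_contra hcon
      have hd := tx_HF hi hj
      rcases hK.ex i hi j hj hcon with ⟨h1, h2⟩ | ⟨h1, h2⟩
      · have h3 : app F' (tx i j) ∈ app F' j := by
          rw [← h]
          exact (memF i hi _).2 ⟨_, hd, h1, rfl⟩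
        obtain ⟨d', hd', h4, h5⟩ := (memF j hj _).1 h3
        have h6 := ih (tx i j) ⟨hd, hi, mem_KBe.2 ⟨hd, hi, h1⟩⟩ hd d' hd' h5.symm
        exact h2 (hK.el d' hd' j hj _ hd h4 (hK.qs _ hd _ hd' h6))
      · have h3 : app F' (tx i j) ∈ app F' i := by
          rw [h]
          exact (memF j hj _).2 ⟨_, hd, h2, rfl⟩
        obtain ⟨d', hd', h4, h5⟩ := (memF i hi _).1 h3
        have h6 := ih d' ⟨hd', hi, mem_KBe.2 ⟨hd', hi, h4⟩⟩ hd' _ hd h5
        exact h1 (hK.el d' hd' i hi _ hd h4 h6)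
  refine ⟨app F', img (fun x => app F' x) HF, ?_, ?_, ?_, ?_, ?_⟩
  · have hv : ∀ n, (cons HF (fun _ => F') : ℕ → ZFSet.{0}) n ∈ N := fun n => by
      cases n with
      | zero => exact hHF
      | succ n => exact hF'N
    have h : UF (fun _ v => img (fun x => app (v 1) x) (v 0)) := by infer_instance
    exact h.mem N hN (cons HF (fun _ => F')) hv
  · intro z
    rw [mem_img]
    exact ⟨fun ⟨i, hi, h⟩ => ⟨i, hi, h.symm⟩, fun ⟨i, hi, h⟩ => ⟨i, hi, h.symm⟩⟩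
  · intro z hz w hw
    obtain ⟨i, hi, rfl⟩ := mem_img.1 hz
    obtain ⟨d, hd, -, rfl⟩ := (memF i hi w).1 hw
    exact mem_img.2 ⟨d, hd, rfl⟩
  · intro i hi j hj
    exact ⟨hQ2 i hi j hj, hQ1 i hi j hj⟩
  · intro i hi j hj
    rw [memF j hj]
    constructor
    · rintro ⟨d, hd, h1, h2⟩
      exact hK.el d hd j hj i hi h1 (hQ2 d hd i hi h2)
    · intro h
      exact ⟨i, hi, h, rfl⟩

end H83.AC
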