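import Pool.Agent.H83.AC.YrF
import Pool.Agent.H83.AC.HullA

/-!
# Module KFa: the truth tables of the certificate are correct

Induction on `χ`, all `n`. The lists: `asub χ ⊆ asub φ`, `subs χ ⊆ subs φ`; the head of `asub χ` is `χ`
(`χ ∈ asub χ`). `all χ`: `SatIn (cls A) (all χ) v ↔ ∀ a ∈ A, SatIn (cls A) χ (cons a v)`; with
`v i = hull (nth i t)`: (1) for `a ∈ HF`, `hull a ∈ A` (`hull_mem`), `nth` of `pair a t`:
`(fun i => hull (nth i (pair a t))) = cons (hull a) (fun i => hull (nth i t))`. (2) if it fails, the set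
in `hull_ts` is nonempty and `lst_mem` gives that `hull (ts χ t)` is a counterexample.
(`χ.bd n` is not needed.)
-/

namespace H83.AC

open ZFSet

private theorem KFa_self (χ : Fml) : χ ∈ asub χ := by
  cases χ <;> simp [asub]

private theorem KFa_cons {φ : Fml} {A w e a t : ZFSet.{0}} :
    (fun i => hull φ A w e (nth i (pair a t))) =
      cons (hull φ A w e a) (fun i => hull φ A w e (nth i t)) := by
  funext i
  cases i with
  | zero => rw [nth_zero_pair]; rfl
  | succ i => rw [nth_succ_pair]; rfl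

theorem kf_TC {φ : Fml} {A w e k s : ZFSet.{0}} (hA : HF ⊆ A) (he : e ∈ A) (hw : IsWO w A) :
    ∀ (χ : Fml) (n : ℕ), (∀ ψ ∈ asub χ, ψ ∈ asub φ) → (∀ ψ ∈ subs χ, ψ ∈ subs φ) →
      TC (yr φ A w e k s) χ n := by
  intro χ
  induction χ with
  | bot =>
    intro n ha _ t ht
    rw [yr_bT (ha _ (KFa_self _)) (tups_HF ht)]
    exact fun h => h
  | eq i j =>
    intro n ha _ t ht
    rw [yr_bT (ha _ (KFa_self _)) (tups_HF ht), yr_bQ (nth_HF (tups_HF ht) i)
      (nth_HF (tups_HF ht) j)]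
    exact Iff.rfl
  | mem i j =>
    intro n ha _ t ht
    rw [yr_bT (ha _ (KFa_self _)) (tups_HF ht), yr_bE (nth_HF (tups_HF ht) i)
      (nth_HF (tups_HF ht) j)]
    exact Iff.rfl
  | imp χ ψ h1 h2 =>
    intro n ha hs
    have ha1 : ∀ θ ∈ asub χ, θ ∈ asub φ := fun θ hθ => ha θ (by
      rw [asub]; exact List.mem_cons_of_mem _ (List.mem_append_left _ hθ))
    have ha2 : ∀ θ ∈ asub ψ, θ ∈ asub φ := fun θ hθ => ha θ (by
      rw [asub]; exact List.mem_cons_of_mem _ (List.mem_append_right _ hθ))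
    have hs1 : ∀ θ ∈ subs χ, θ ∈ subs φ := fun θ hθ => hs θ (by
      rw [subs]; exact List.mem_append_left _ hθ)
    have hs2 : ∀ θ ∈ subs ψ, θ ∈ subs φ := fun θ hθ => hs θ (by
      rw [subs]; exact List.mem_append_right _ hθ)
    refine ⟨h1 n ha1 hs1, h2 n ha2 hs2, ?_⟩
    intro t ht
    rw [yr_bT (ha _ (KFa_self _)) (tups_HF ht), yr_bT (ha1 _ (KFa_self _)) (tups_HF ht),
      yr_bT (ha2 _ (KFa_self _)) (tups_HF ht)]
    exact Iff.rfl
  | all χ ih =>
    intro n ha hs
    have ha1 : ∀ θ ∈ asub χ, θ ∈ asub φ := fun θ hθ => ha θ (by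
      rw [asub]; exact List.mem_cons_of_mem _ hθ)
    have hs1 : ∀ θ ∈ subs χ, θ ∈ subs φ := fun θ hθ => hs θ (by
      rw [subs]; exact List.mem_cons_of_mem _ hθ)
    have hχ : χ ∈ subs φ := hs χ (by rw [subs]; exact List.mem_cons_self)
    refine ⟨ih (n + 1) ha1 hs1, ?_⟩
    intro t ht
    have htH := tups_HF ht
    rw [yr_bT (ha _ (KFa_self _)) htH]
    constructor
    · intro hall a haH
      rw [yr_bT (ha1 _ (KFa_self _)) (HF_pair haH htH), KFa_cons]
      exact hall _ (hull_mem hA he hw haH)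
    · intro hn
      rw [yr_bT (ha1 _ (KFa_self _)) (HF_pair (ts_HF htH) htH), KFa_cons]
      have hne : ZFSet.sep (fun a =>
          ¬ SatIn (cls A) χ (cons a (fun i => hull φ A w e (nth i t)))) A ≠ ∅ := by
        intro h0
        refine hn ?_
        intro a haA
        by_contra hc
        have : a ∈ ZFSet.sep (fun a =>
          ¬ SatIn (cls A) χ (cons a (fun i => hull φ A w e (nth i t)))) A :=
          mem_sep.2 ⟨haA, hc⟩
        rw [h0] at this
        exact notMem_empty _ this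
      have hl := lst_mem hw (fun a h => (mem_sep.1 h).1) hne
      rw [← hull_ts hχ A w e t] at hl
      exact (mem_sep.1 hl).2

end H83.AC
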