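import Pool.Agent.H83.AC.KFa
import Pool.Agent.H83.AC.CutN

/-!
# Module KFb: the certificate of a real number with a name in the ground model

All fields of `KK` from module YrF and `hull_mem`, `hull_base`, `hull_te`, `hull_tx`, `lst_mem` (`A` is
transitive, so two different elements of `A` differ by an element of `A`). `t0`: `phi0_iff` (`nth i ∅ = ∅`,
`hull .. ∈ A`). `base`: `hull j ∈ h ↔ ∃ h' ∈ h, hull j = h'`. `pos`: `h ∈ ev e c` gives some `p ∈ Cond` with
`pair p h ∈ e`, so `p ∈ CondC (nz k)` (`he`), and the least such `p` is in the set (`wh omega` is a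
well-order of `HF = Lo ω`: `wo_wo`, `rank_omega`; `CondC (nz k) ⊆ HF`). `cut_fits`.
-/

namespace H83.AC

open ZFSet

private theorem KFb_self (χ : Fml) : χ ∈ asub χ := by
  cases χ <;> simp [asub]

theorem kf_KK {c : Set ZFSet.{0}} {A w e : ZFSet.{0}} {k : ℕ} (hA : IsTr (cls A)) (hH : HF ∈ A)
    (hP : PsiK (cls A)) (hw : IsWO w A) (heA : e ∈ A)
    (he : e ⊆ ZFSet.prod (CondC (nz k)) HF) :
    KK phi0 (nz k) (cut c (nz k)) (ev e c) (yr phi0 A w e (nz k) (cut c (nz k))) := by
  have hHA : HF ⊆ A := fun x hx => hA HF hH x hx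
  have hCH : CondC (nz k) ⊆ HF := by
    intro p hp
    rw [CondC, mem_sep] at hp
    exact cond_HF hp.1
  have hwo : IsWO (wh omega) HF := by
    rw [wh, rank_omega]
    exact wo_wo _
  refine
    { qr := ?_
      qs := ?_
      qt := ?_
      el := ?_
      er := ?_
      ex := ?_
      tc := ?_
      t0 := ?_
      base := ?_
      pos := ?_
      neg := ?_ }
  · intro i hi
    rw [yr_bQ hi hi]
  · intro i hi j hj h
    rw [yr_bQ hi hj] at h
    rw [yr_bQ hj hi]
    exact h.symm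
  · intro i hi j hj l hl h1 h2
    rw [yr_bQ hi hj] at h1
    rw [yr_bQ hj hl] at h2
    rw [yr_bQ hi hl]
    exact h1.trans h2
  · intro i hi j hj l hl h1 h2
    rw [yr_bE hi hj] at h1
    rw [yr_bQ hi hl] at h2
    rw [yr_bE hl hj, ← h2]
    exact h1
  · intro i hi j hj l hl h1 h2
    rw [yr_bE hi hj] at h1
    rw [yr_bQ hj hl] at h2
    rw [yr_bE hi hl, ← h2]
    exact h1
  · intro i hi j hj h
    rw [yr_bQ hi hj] at h
    have hiA : hull phi0 A w e i ∈ A := hull_mem hHA heA hw hi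
    have hjA : hull phi0 A w e j ∈ A := hull_mem hHA heA hw hj
    have hS : ZFSet.sep (fun a =>
        (a ∈ hull phi0 A w e i ∧ a ∉ hull phi0 A w e j) ∨
        (a ∉ hull phi0 A w e i ∧ a ∈ hull phi0 A w e j)) A ≠ ∅ := by
      intro h0
      apply h
      ext a
      by_contra hc
      have hd : (a ∈ hull phi0 A w e i ∧ a ∉ hull phi0 A w e j) ∨
          (a ∉ hull phi0 A w e i ∧ a ∈ hull phi0 A w e j) := by tauto
      have haA : a ∈ A := by
        rcases hd with hd | hd
        · exact hA _ hiA a hd.1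
        · exact hA _ hjA a hd.2
      have : a ∈ ZFSet.sep (fun a =>
        (a ∈ hull phi0 A w e i ∧ a ∉ hull phi0 A w e j) ∨
        (a ∉ hull phi0 A w e i ∧ a ∈ hull phi0 A w e j)) A := mem_sep.2 ⟨haA, hd⟩
      rw [h0] at this
      exact notMem_empty _ this
    have hl := lst_mem hw (fun a h => (mem_sep.1 h).1) hS
    rw [← hull_tx] at hl
    have hl2 := (mem_sep.1 hl).2
    rw [yr_bE (tx_HF hi hj) hi, yr_bE (tx_HF hi hj) hj]
    exact hl2
  · exact kf_TC hHA heA hw phi0 0 (fun _ h => h) (fun _ h => h)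
  · rw [yr_bT (KFb_self _) HF_empty]
    exact (phi0_iff hA (fun i => hull_mem hHA heA hw (nth_HF HF_empty i))).2 hP
  · intro j hj h hh
    rw [yr_bE hj (tg_HF hh), hull_base]
    constructor
    · intro h1
      refine ⟨_, h1, ?_⟩
      rw [yr_bQ hj (tg_HF (HF_tr hh h1)), hull_base]
    · rintro ⟨h', hh', h1⟩
      rw [yr_bQ hj (tg_HF (HF_tr hh hh')), hull_base] at h1
      rw [h1]
      exact hh'
  · intro h hh hx
    rw [yr_bW hh]
    obtain ⟨p, hp, hpf, hpe⟩ := mem_ev.1 hx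
    have hpk : p ∈ CondC (nz k) := (ZFSet.pair_mem_prod.1 (he hpe)).1
    have hne : ZFSet.sep (fun p => Fits p (cls (cut c (nz k))) ∧ pair p h ∈ e) (CondC (nz k)) ≠ ∅ := by
      intro h0
      have : p ∈ ZFSet.sep (fun p => Fits p (cls (cut c (nz k))) ∧ pair p h ∈ e) (CondC (nz k)) :=
        mem_sep.2 ⟨hpk, (cut_fits hpk).2 hpf, hpe⟩
      rw [h0] at this
      exact notMem_empty _ this
    have hl := lst_mem hwo (fun a h => hCH (mem_sep.1 h).1) hne
    obtain ⟨h1, h2, h3⟩ := mem_sep.1 hl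
    refine ⟨h1, h2, ?_⟩
    rw [yr_bE (tg_HF (HF_pair (hCH h1) hh)) te_HF, hull_base, hull_te]
    exact h3
  · intro h hh p hp hpf hE
    rw [yr_bE (tg_HF (HF_pair (hCH hp) hh)) te_HF, hull_base, hull_te] at hE
    refine mem_ev.2 ⟨p, ?_, (cut_fits hp).1 hpf, hE⟩
    rw [CondC, mem_sep] at hp
    exact hp.1

end H83.AC
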