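import Pool.Agent.H83.AC.KFb
import Pool.Agent.H83.AC.HullU
import Pool.Agent.H83.AC.CutN
import Pool.Agent.H83.AC.NNtm

/-!
# Module KFc: existence of certificates

`A` from `Ground.lev`; `e ⊆ HF`, so `e ∈ A`; `w ∈ M` a well-order of `A` (`exists_wo`); `y = yr ..` is in
`NN M c` (`UF.yr`, `sub_NN`, `cut_mem`). No descending sequence: `hull (f (n+1)) ∈ hull (f n)` for
`f n ∈ HF` (`yr_bE`) contradicts the foundation (`f : omega → HF`; sequence `n ↦ hull (app f (nz n))`).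
-/

namespace H83.AC

open ZFSet

theorem kfwd {M c : Set ZFSet.{0}} (hG : Ground M) (hc : Gen M c) {k : ℕ} {e : ZFSet.{0}}
    (heM : e ∈ M) (he : e ⊆ ZFSet.prod (CondC (nz k)) HF) :
    ∃ y, Real (NN M c) y ∧ KK phi0 (nz k) (cut c (nz k)) (ev e c) y ∧
      ∀ f, IsFunc omega HF f → ¬ DescY y f := by
  have hM := hG.tm
  obtain ⟨A, hAM, hAtr, hHA, hP, hsub⟩ := hG.lev
  have heHF : e ⊆ HF := by
    intro t ht
    obtain ⟨p, hp, h, hh, rfl⟩ := mem_prod.1 (he ht)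
    rw [CondC, mem_sep] at hp
    exact HF_pair (cond_HF hp.1) hh
  have heA := hsub e heM heHF
  obtain ⟨w, hwM, hw⟩ := exists_wo hM hG.vl hAM
  refine ⟨yr phi0 A w e (nz k) (cut c (nz k)), ⟨?_, yr_fn⟩, kf_KK hAtr hHA hP hw heA he, ?_⟩
  · exact (UF.yr phi0 (UF.var 0) (UF.var 1) (UF.var 2) (UF.nz k) (UF.var 3)).mem (NN M c)
      (NN_tm hM hc) (cons A (cons w (cons e (fun _ => cut c (nz k))))) (fun n => by
      rcases n with _ | _ | _ | n
      · exact sub_NN hM hAM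
      · exact sub_NN hM hwM
      · exact sub_NN hM heM
      · exact cut_mem hM k)
  · intro f hf hd
    obtain ⟨a, ⟨i, rfl⟩, hmin⟩ := ZFSet.mem_wf.has_min
      (Set.range fun i : ℕ => hull phi0 A w e (app f (nz i))) ⟨_, 0, rfl⟩
    have h1 := hd (nz i) (nz_mem_omega i)
    have h2 : sc (nz i) = nz (i + 1) := rfl
    rw [h2, yr_bE (fn_mem hf (nz_mem_omega (i + 1))) (fn_mem hf (nz_mem_omega i))] at h1
    exact hmin _ ⟨i + 1, rfl⟩ h1

end H83.AC
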