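import Pool.Agent.H83.AC.SatSet

/-!
# Module Refl: reflection

Let `nxt α` be an ordinal `≥ α` such that for all formulas `φ` and all `v : ℕ → ZFSet` with
values in `Lo α` which are `∅` from some place on (or: for all `v` with values in `Lo α`; this is
a small type), if `¬ SatIn LL φ (cons x v)` for some `x ∈ LL` then for some `x ∈ Lo (nxt α)`
(the ordinals needed are indexed by a small type, so they have an upper bound).
Let `α₀ = max β 1`, `α_{k+1} = nxt α_k + 1`, `α = sup α_k`. Then `Lo α = ⋃ Lo α_k` and, by induction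
on `φ`, `Lo α` is elementary in `LL`: for `all φ`, if `v` has values in `Lo α` replace `v i` by `∅`
for `i ≥ n`, `φ.bd (n+1)` (`satIn_congr`), so that all values are in one `Lo α_k`.
-/

namespace H83.AC

open ZFSet

private theorem Refl_step (α : Ordinal.{0}) : ∃ γ : Ordinal.{0}, α ≤ γ ∧
    ∀ (φ : Fml) (v : ℕ → ZFSet.{0}), (∀ i, v i ∈ Lo α) →
      (∃ x ∈ LL, ¬ SatIn LL φ (cons x v)) → ∃ x ∈ Lo γ, ¬ SatIn LL φ (cons x v) := by
  classical
  have h1 : ∀ p : Fml × (ℕ → Lo α), ∃ γ : Ordinal.{0},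
      (∃ x ∈ LL, ¬ SatIn LL p.1 (cons x (fun i => ((p.2 i : Lo α) : ZFSet)))) →
        ∃ x ∈ Lo γ, ¬ SatIn LL p.1 (cons x (fun i => ((p.2 i : Lo α) : ZFSet))) := by
    intro p
    by_cases h : ∃ x ∈ LL, ¬ SatIn LL p.1 (cons x (fun i => ((p.2 i : Lo α) : ZFSet)))
    · obtain ⟨x, ⟨γ, hγ⟩, hx⟩ := h
      exact ⟨γ, fun _ => ⟨x, hγ, hx⟩⟩
    · exact ⟨0, fun h' => absurd h' h⟩
  choose f hf using h1
  have hb : BddAbove (Set.range f) := Ordinal.bddAbove_of_small
  obtain ⟨δ, hδ⟩ := hb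
  refine ⟨max α δ, le_max_left _ _, fun φ v hv hx => ?_⟩
  obtain ⟨x, hx1, hx2⟩ := hf (φ, fun i => ⟨v i, hv i⟩) hx
  exact ⟨x, Lo_mono ((hδ ⟨_, rfl⟩).trans (le_max_right _ _)) hx1, hx2⟩

/-- the stages -/
private noncomputable def Refl_a (β : Ordinal.{0}) (nxt : Ordinal.{0} → Ordinal.{0}) :
    ℕ → Ordinal.{0}
  | 0 => max β 1
  | k + 1 => nxt (Refl_a β nxt k)

theorem reflection (β : Ordinal.{0}) : ∃ α, β ≤ α ∧ 0 < α ∧ ∀ (φ : Fml) (v : ℕ → ZFSet.{0}),
    (∀ i, v i ∈ Lo α) → (SatIn (cls (Lo α)) φ v ↔ SatIn LL φ v) := by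
  classical
  choose nxt hn1 hn2 using Refl_step
  have hmono : Monotone (Refl_a β nxt) := monotone_nat_of_le_succ fun k => hn1 _
  have hle : ∀ k, Refl_a β nxt k ≤ ⨆ k, Refl_a β nxt k := fun k => Ordinal.le_iSup _ k
  have hpos : ∀ k, 0 < Refl_a β nxt k := fun k =>
    lt_of_lt_of_le (lt_of_lt_of_le zero_lt_one (le_max_right β 1)) (hmono (Nat.zero_le k))
  have hsup : ∀ z, z ∈ Lo (⨆ k, Refl_a β nxt k) → ∃ k, z ∈ Lo (Refl_a β nxt k) := by
    intro z hz
    obtain ⟨γ, hγ, hz⟩ := mem_Lo.1 hz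
    obtain ⟨k, hk⟩ := Ordinal.lt_iSup_iff.1 hγ
    exact ⟨k, Sx_sub_Lo hk hz⟩
  refine ⟨⨆ k, Refl_a β nxt k, (le_max_left β 1).trans (hle 0), (hpos 0).trans_le (hle 0), ?_⟩
  intro φ
  induction φ with
  | bot => intro v _; exact Iff.rfl
  | eq i j => intro v _; exact Iff.rfl
  | mem i j => intro v _; exact Iff.rfl
  | imp φ ψ h1 h2 => intro v hv; exact imp_congr (h1 v hv) (h2 v hv)
  | all φ ih =>
    intro v hv
    have hcv : ∀ x ∈ Lo (⨆ k, Refl_a β nxt k), ∀ i,
        cons x v i ∈ Lo (⨆ k, Refl_a β nxt k) := by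
      intro x hx i
      cases i with
      | zero => exact hx
      | succ i => exact hv i
    constructor
    · intro H
      by_contra hn
      have hn' : ¬ ∀ x ∈ LL, SatIn LL φ (cons x v) := hn
      push Not at hn'
      obtain ⟨x, hx, hxn⟩ := hn'
      obtain ⟨n, hn⟩ := φ.exists_bd
      have hb : φ.bd (n + 1) := φ.bd_mono (Nat.le_succ n) hn
      have hk : ∀ m : ℕ, ∃ k, ∀ i < m, v i ∈ Lo (Refl_a β nxt k) := by
        intro m
        induction m with
        | zero => exact ⟨0, fun i hi => absurd hi (by omega)⟩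
        | succ m ihm =>
          obtain ⟨k, hk⟩ := ihm
          obtain ⟨l, hl⟩ := hsup _ (hv m)
          refine ⟨max k l, fun i hi => ?_⟩
          rcases Nat.lt_succ_iff_lt_or_eq.1 hi with hi | rfl
          · exact Lo_mono (hmono (le_max_left k l)) (hk i hi)
          · exact Lo_mono (hmono (le_max_right k l)) hl
      obtain ⟨k, hk⟩ := hk n
      have hw : ∀ i, (fun i => if i < n then v i else Lo 0) i ∈ Lo (Refl_a β nxt k) := by
        intro i
        by_cases hi : i < n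
        · simp only [if_pos hi]
          exact hk i hi
        · simp only [if_neg hi]
          exact Lo_mem_Lo (hpos k)
      have hcg : ∀ y, (SatIn LL φ (cons y v) ↔
          SatIn LL φ (cons y (fun i => if i < n then v i else Lo 0))) := by
        intro y
        refine satIn_congr φ hb fun i hi => ?_
        cases i with
        | zero => rfl
        | succ i =>
          show v i = if i < n then v i else Lo 0
          rw [if_pos (by omega)]
      obtain ⟨y, hy, hyn⟩ := hn2 (Refl_a β nxt k) φ _ hw ⟨x, hx, fun h => hxn ((hcg x).2 h)⟩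
      have hyα : y ∈ Lo (⨆ k, Refl_a β nxt k) := Lo_mono (hle (k + 1)) hy
      exact hyn ((hcg y).1 ((ih _ (hcv y hyα)).1 (H y hyα)))
    · intro H x hx
      exact (ih _ (hcv x hx)).2 (H x ⟨_, hx⟩)

end H83.AC
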