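import Pool.Agent.H83.AC.DefSub
import Pool.Agent.H83.AC.Refl

/-!
# Module LLtm: the constructible universe is a model of ZF

First: for `φ`, `v : ℕ → LL`, `a ∈ LL`: `{z ∈ a : SatIn LL φ (cons z v)} ∈ LL`. Only `v i`, `i < n`
matter (`φ.bd (n+1)`), so all parameters (and `a`) are in some `Lo α` which reflects (`reflection`
with a large `β`); the set is then a definable subset of `Lo α` (`defSub_LL`, add `a` as a
parameter: use the formula `and (mem 0 (n+1)) φ` or intersect with `a` by `inter_LL`).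
Axioms: `sat_iff` converts `Sat (memN LL)` to `SatIn LL`.
* extensionality: `LL` is transitive; foundation: `ZFSet.regularity` or `mem_wf`;
* pairing: `upair_LL`; union: `a ∈ Lo α`, the set `{z ∈ Lo α : ∃ y ∈ a, z ∈ y}`;
* power set: the sets `z ⊆ a`, `z ∈ LL` form a set, so all are in some `Lo α` (`exists_Lo` applied
  to `sep (· ∈ LL) (powerset a)`), separation from `Lo α`;
* infinity: take `x = Lo α` with `α` from `reflection`: `∅ ∈ Lo α` and `y ∈ Lo α → y ∪ {y} ∈ Lo α`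
  since `LL` satisfies that for all `y` there is `s` with `s = y ∪ {y}` (`y ∪ {y} ∈ LL` by union and
  pairing) and `Lo α` reflects this; or directly: a limit level;
* replacement: for each `z ∈ a` the unique `w` is in `LL`; collect the `w` in a set
  (`ZFSet.range` over `a`), `exists_Lo`, then separation from `Lo α` with the formula
  `∃ z ∈ a, φ` .
-/

namespace H83.AC

open ZFSet

private theorem lltm_cls_tr (α : Ordinal.{0}) : IsTr (cls (Lo α)) :=
  fun _ hx _ hy => Lo_tr hx hy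

/-- satisfaction is a uniformly definable relation -/
private theorem lltm_ud (φ : Fml) : UD IsTr (fun N v => SatIn N φ v) :=
  ⟨φ, fun N _ v => (sat_iff N φ v).symm⟩

/-- definable relations reflect -/
private theorem lltm_refl {R : Set ZFSet.{0} → (ℕ → ZFSet.{0}) → Prop} (h : UD IsTr R)
    {α : Ordinal.{0}}
    (hα : ∀ (φ : Fml) (v : ℕ → ZFSet.{0}),
      (∀ i, v i ∈ Lo α) → (SatIn (cls (Lo α)) φ v ↔ SatIn LL φ v))
    {v : ℕ → ZFSet.{0}} (hv : ∀ i, v i ∈ Lo α) : R (cls (Lo α)) v ↔ R LL v := by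
  obtain ⟨φ, hφ⟩ := h
  have h1 := hφ (cls (Lo α)) (lltm_cls_tr α) (fun i => ⟨v i, hv i⟩)
  have h2 := hφ LL LL_tr (fun i => ⟨v i, ⟨α, hv i⟩⟩)
  rw [sat_iff] at h1 h2
  exact h1.trans ((hα φ v hv).trans h2.symm)

/-- separation in `LL` -/
private theorem lltm_sep {R : Set ZFSet.{0} → ZFSet.{0} → (ℕ → ZFSet.{0}) → Prop}
    (h : UD IsTr (fun N v => R N (v 0) (sh v))) {v : ℕ → ZFSet.{0}} (hv : ∀ i, v i ∈ LL)
    {a : ZFSet.{0}} (ha : a ∈ LL) : ZFSet.sep (fun z => R LL z v) a ∈ LL := by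
  obtain ⟨φ, hφ⟩ := h
  have hR : ∀ z ∈ LL, (R LL z v ↔ SatIn LL φ (cons z v)) := by
    intro z hz
    have h1 := hφ LL LL_tr (cons ⟨z, hz⟩ (fun i => ⟨v i, hv i⟩))
    rw [sat_iff] at h1
    have h2 : (fun n => ((cons (⟨z, hz⟩ : LL) (fun i => (⟨v i, hv i⟩ : LL)) n : LL) : ZFSet)) =
        cons z v := by
      funext n; cases n <;> rfl
    rw [h2] at h1
    exact h1
  obtain ⟨β, -, hβ⟩ := exists_Lo (Insert.insert a (ZFSet.range v)) (by
    intro x hx
    rw [mem_insert_iff] at hx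
    rcases hx with rfl | hx
    · exact ha
    · rw [mem_range] at hx
      obtain ⟨i, rfl⟩ := hx
      exact hv i) 0
  obtain ⟨α, hα1, -, hα2⟩ := reflection β
  have haα : a ∈ Lo α := Lo_mono hα1 (hβ (by simp))
  have hvα : ∀ i, v i ∈ Lo α := fun i => Lo_mono hα1 (hβ (by simp))
  have key : ZFSet.sep (fun z => R LL z v) a =
      a ∩ ZFSet.sep (fun z => SatIn (cls (Lo α)) φ (cons z v)) (Lo α) := by
    ext z
    rw [mem_sep, mem_inter, mem_sep]
    constructor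
    · rintro ⟨hz, h⟩
      have hzα : z ∈ Lo α := Lo_tr haα hz
      refine ⟨hz, hzα, (hα2 φ (cons z v) ?_).2 ((hR z ⟨α, hzα⟩).1 h)⟩
      intro i; cases i with
      | zero => exact hzα
      | succ i => exact hvα i
    · rintro ⟨hz, hzα, h⟩
      refine ⟨hz, (hR z ⟨α, hzα⟩).2 ((hα2 φ (cons z v) ?_).1 h)⟩
      intro i; cases i with
      | zero => exact hzα
      | succ i => exact hvα i
  rw [key]
  exact inter_LL ha (defSub_LL (Lo_mem_LL α) φ hvα)

private theorem lltm_sUnion {a : ZFSet.{0}} (ha : a ∈ LL) : (⋃₀ a : ZFSet) ∈ LL := by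
  obtain ⟨α, -, hα⟩ := exists_Lo (⋃₀ a) (by
    intro x hx
    rw [mem_sUnion] at hx
    obtain ⟨y, hy, hx⟩ := hx
    exact LL_tr y (LL_tr a ha y hy) x hx) 0
  have h := lltm_sep (R := fun _ z v => ∃ y ∈ v 0, z ∈ y)
    (UD.bex' (R := fun _ y v => v 0 ∈ y) 1 (UD.mem 1 0)) (v := fun _ => a) (fun _ => ha)
    (Lo_mem_LL α)
  have e : ZFSet.sep (fun z => ∃ y ∈ a, z ∈ y) (Lo α) = (⋃₀ a : ZFSet) := by
    ext z
    rw [mem_sep, mem_sUnion]
    constructor
    · rintro ⟨-, y, hy, hz⟩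
      exact ⟨y, hy, hz⟩
    · rintro ⟨y, hy, hz⟩
      exact ⟨hα (mem_sUnion.2 ⟨y, hy, hz⟩), y, hy, hz⟩
  rw [← e]
  exact h

private theorem lltm_union {a b : ZFSet.{0}} (ha : a ∈ LL) (hb : b ∈ LL) : a ∪ b ∈ LL := by
  have e : (⋃₀ ({a, b} : ZFSet) : ZFSet) = a ∪ b := by
    ext z
    simp [mem_union]
  rw [← e]
  exact lltm_sUnion (upair_LL ha hb)

private theorem lltm_pow {a : ZFSet.{0}} (ha : a ∈ LL) :
    ZFSet.sep (fun w => w ∈ LL) (powerset a) ∈ LL := by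
  obtain ⟨α, -, hα⟩ := exists_Lo (ZFSet.sep (fun w => w ∈ LL) (powerset a)) (by
    intro x hx
    exact (mem_sep.1 hx).2) 0
  have h := lltm_sep (R := fun _ z v => ∀ y ∈ z, y ∈ v 0)
    (UD.ball' (R := fun _ y v => y ∈ v 1) 0 (UD.mem 0 2)) (v := fun _ => a) (fun _ => ha)
    (Lo_mem_LL α)
  have e : ZFSet.sep (fun z => ∀ y ∈ z, y ∈ a) (Lo α) =
      ZFSet.sep (fun w => w ∈ LL) (powerset a) := by
    ext z
    rw [mem_sep, mem_sep, mem_powerset]
    constructor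
    · rintro ⟨hz, h⟩
      exact ⟨fun y hy => h y hy, ⟨α, hz⟩⟩
    · rintro ⟨h, hz⟩
      exact ⟨hα (mem_sep.2 ⟨mem_powerset.2 h, hz⟩), fun y hy => h hy⟩
  rw [← e]
  exact h

theorem LL_tm : TM LL := by
  refine ⟨LL_tr, ?_⟩
  refine
    { nonempty := ⟨⟨∅, empty_LL⟩⟩
      extensionality := ?_
      foundation := ?_
      pairing := ?_
      union := ?_
      powerset := ?_
      infinity := ?_
      separation := ?_
      replacement := ?_ }
  · rintro ⟨x, hx⟩ ⟨y, hy⟩ h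
    refine Subtype.ext (ZFSet.ext fun z => ?_)
    constructor
    · intro hz
      exact (h ⟨z, LL_tr x hx z hz⟩).1 hz
    · intro hz
      exact (h ⟨z, LL_tr y hy z hz⟩).2 hz
  · rintro ⟨x, hx⟩ ⟨⟨y, hy⟩, hyx⟩
    have hne : x ≠ ∅ := by
      rintro rfl
      exact ZFSet.notMem_empty y hyx
    obtain ⟨w, hw, hwx⟩ := ZFSet.regularity x hne
    refine ⟨⟨w, LL_tr x hx w hw⟩, hw, ?_⟩
    rintro ⟨z, hz⟩ hzw hzx
    have : z ∈ x ∩ w := mem_inter.2 ⟨hzx, hzw⟩
    rw [hwx] at this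
    exact ZFSet.notMem_empty z this
  · rintro ⟨x, hx⟩ ⟨y, hy⟩
    refine ⟨⟨{x, y}, upair_LL hx hy⟩, ?_⟩
    rintro ⟨w, hw⟩
    simp only [memN, Subtype.mk.injEq]
    simp
  · rintro ⟨x, hx⟩
    refine ⟨⟨⋃₀ x, lltm_sUnion hx⟩, ?_⟩
    rintro ⟨w, hw⟩
    simp only [memN]
    rw [mem_sUnion]
    constructor
    · rintro ⟨y, hy, hwy⟩
      exact ⟨⟨y, LL_tr x hx y hy⟩, hy, hwy⟩
    · rintro ⟨⟨y, _⟩, hy, hwy⟩
      exact ⟨y, hy, hwy⟩
  · rintro ⟨x, hx⟩
    refine ⟨⟨_, lltm_pow hx⟩, ?_⟩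
    rintro ⟨w, hw⟩
    simp only [memN]
    rw [mem_sep, mem_powerset]
    constructor
    · rintro ⟨h, -⟩ ⟨z, hz⟩ hzw
      exact h hzw
    · intro h
      exact ⟨fun z hz => h ⟨z, LL_tr w hw z hz⟩ hz, hw⟩
  · obtain ⟨α, -, hα0, hα⟩ := reflection 0
    have hnil : ∀ z, z ∉ Lo 0 := by
      intro z hz
      obtain ⟨β, hβ, -⟩ := mem_Lo.1 hz
      exact absurd hβ (not_lt.2 zero_le)
    refine ⟨⟨Lo α, Lo_mem_LL α⟩, ⟨⟨Lo 0, Lo_mem_LL 0⟩, Lo_mem_Lo hα0, fun z => hnil z⟩, ?_⟩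
    rintro ⟨y, hy⟩ hyα
    have hud : UD IsTr (fun N v => ∃ s ∈ N, (∀ z ∈ s, z ∈ v 0 ∨ z = v 0) ∧
        (∀ z ∈ v 0, z ∈ s) ∧ v 0 ∈ s) := by
      refine UD.exN (R := fun _ s v => (∀ z ∈ s, z ∈ v 0 ∨ z = v 0) ∧
        (∀ z ∈ v 0, z ∈ s) ∧ v 0 ∈ s) (UD.and ?_ (UD.and ?_ (UD.mem 1 0)))
      · exact UD.ball' (R := fun _ z v => z ∈ v 1 ∨ z = v 1) 0 (UD.or (UD.mem 0 2) (UD.eq 0 2))
      · exact UD.ball' (R := fun _ z v => z ∈ v 0) 1 (UD.mem 0 1)
    have h := (lltm_refl hud hα (v := fun _ => y) (fun _ => hyα)).2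
      ⟨y ∪ {y}, lltm_union hy (by
        have := upair_LL hy hy
        rwa [ZFSet.pair_eq_singleton] at this), by
        refine ⟨fun z hz => ?_, fun z hz => ?_, ?_⟩
        · rw [mem_union, mem_singleton] at hz
          exact hz
        · exact mem_union.2 (Or.inl hz)
        · exact mem_union.2 (Or.inr (mem_singleton.2 rfl))⟩
    obtain ⟨s, hs, h1, h2, h3⟩ := h
    refine ⟨⟨s, ⟨α, hs⟩⟩, hs, ?_⟩
    rintro ⟨z, hz⟩
    simp only [memN, Subtype.mk.injEq]
    constructor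
    · intro h
      exact h1 z h
    · rintro (h | rfl)
      · exact h2 z h
      · exact h3
  · rintro φ v ⟨x, hx⟩
    have h := lltm_sep (R := fun N z v => SatIn N φ (cons z v)) (by
      refine (lltm_ud φ).congr fun N _ w _ => ?_
      have e : cons (w 0) (sh w) = w := by
        funext n; cases n <;> rfl
      rw [e]) (v := fun i => (v i : ZFSet)) (fun i => (v i).2) hx
    refine ⟨⟨_, h⟩, ?_⟩
    rintro ⟨z, hz⟩
    rw [sat_iff]
    simp only [memN]
    rw [mem_sep]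
    have e : (fun n => ((cons (⟨z, hz⟩ : LL) v n : LL) : ZFSet)) =
        cons z (fun i => (v i : ZFSet)) := by
      funext n; cases n <;> rfl
    rw [e]
  · rintro φ v ⟨x, hx⟩ huniq
    have hex : ∀ z : {z // z ∈ x}, ∃ w : LL,
        Sat (memN LL) φ (cons ⟨z.1, LL_tr x hx z.1 z.2⟩ (cons w v)) := fun z =>
      (huniq ⟨z.1, LL_tr x hx z.1 z.2⟩ z.2).exists
    choose W hW using hex
    obtain ⟨α, -, hα⟩ := exists_Lo (ZFSet.range (fun z : {z // z ∈ x} => (W z : ZFSet))) (by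
      intro y hy
      rw [mem_range] at hy
      obtain ⟨z, rfl⟩ := hy
      exact (W z).2) 0
    have h := lltm_sep (R := fun N w v => ∃ z ∈ v 0, SatIn N φ (cons z (cons w (sh v)))) (by
      refine UD.bex' (R := fun N z v => SatIn N φ (cons z (cons (v 0) (sh (sh v))))) 1 ?_
      refine ((lltm_ud φ).ren (fun n => if n ≤ 1 then n else n + 1)).congr fun N _ w _ => ?_
      have e : (cons (w 0) (cons (sh w 0) (sh (sh (sh w))))) =
          (fun n => w (if n ≤ 1 then n else n + 1)) := by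
        funext n
        rcases n with _ | _ | n
        · rfl
        · rfl
        · have : ¬ (n + 1 + 1 ≤ 1) := by omega
          rw [if_neg this]
          rfl
      rw [e]) (v := cons x (fun i => (v i : ZFSet))) (fun i => by
        cases i with
        | zero => exact hx
        | succ i => exact (v i).2) (Lo_mem_LL α)
    refine ⟨⟨_, h⟩, ?_⟩
    have conv : ∀ (z w : LL), Sat (memN LL) φ (cons z (cons w v)) ↔
        SatIn LL φ (cons (z : ZFSet) (cons (w : ZFSet) (fun i => (v i : ZFSet)))) := by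
      intro z w
      rw [sat_iff]
      have e : (fun n => ((cons z (cons w v) n : LL) : ZFSet)) =
          cons (z : ZFSet) (cons (w : ZFSet) (fun i => (v i : ZFSet))) := by
        funext n
        rcases n with _ | _ | n <;> rfl
      rw [e]
    rintro ⟨w, hw⟩
    simp only [memN]
    rw [mem_sep]
    constructor
    · rintro ⟨-, z, hz, hs⟩
      exact ⟨⟨z, LL_tr x hx z hz⟩, hz, (conv _ _).2 hs⟩
    · rintro ⟨⟨z, hz⟩, hzx, hs⟩
      refine ⟨?_, z, hzx, (conv _ _).1 hs⟩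
      have h1 := (huniq ⟨z, hz⟩ hzx).unique hs (hW ⟨z, hzx⟩)
      have h2 : w = (W ⟨z, hzx⟩ : ZFSet) := congrArg Subtype.val h1
      rw [h2]
      exact hα (mem_range.2 ⟨⟨z, hzx⟩, rfl⟩)

end H83.AC
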