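import Pool.Agent.H83.AC.Defs2

/-!
# Module LoB: the constructible hierarchy, elementary facts

`mem_Sx`: unfold (`ops` is an explicit finite set).
`Lo_tr` by induction on `α`: `z ∈ Sx (Lo β)`: `z ∈ Lo β` (then `z ⊆ Lo β` by induction and
`Lo β ⊆ Sx (Lo β) ⊆ Lo α`), `z = Lo β`, or `z ⊆ Lo β`.
`Lh_eq`: for `β < rank x` there is `y ∈ x` with `β ≤ rank y` (`lt_rank_iff`); if `β < rank y` then
`Sx (Lo β) ⊆ Lo (rank y) ⊆ Sx (Lo (rank y))`.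
`le_rank_Lo` by induction: for `β < α`, `Lo β ∈ Lo α`, so `β ≤ rank (Lo β) < rank (Lo α)`.
`exists_Lo`: `a` is a set: take the supremum of the ordinals `β x` (`x ∈ a`), e.g. with
`Ordinal.iSup` / `Ordinal.bddAbove_range` over the small type `a` (or `Shrink a`).
-/

namespace H83.AC

open ZFSet

private theorem mem_ops_iff {x y z : ZFSet.{0}} : z ∈ ops x y ↔ ∃ i < 10, z = op i x y := by
  rw [ops]
  simp only [ZFSet.mem_insert_iff, ZFSet.mem_singleton]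
  constructor
  · rintro (h | h | h | h | h | h | h | h | h | h)
    · exact ⟨0, by omega, h⟩
    · exact ⟨1, by omega, h⟩
    · exact ⟨2, by omega, h⟩
    · exact ⟨3, by omega, h⟩
    · exact ⟨4, by omega, h⟩
    · exact ⟨5, by omega, h⟩
    · exact ⟨6, by omega, h⟩
    · exact ⟨7, by omega, h⟩
    · exact ⟨8, by omega, h⟩
    · exact ⟨9, by omega, h⟩
  · rintro ⟨i, hi, h⟩
    have h10 : i = 0 ∨ i = 1 ∨ i = 2 ∨ i = 3 ∨ i = 4 ∨ i = 5 ∨ i = 6 ∨ i = 7 ∨ i = 8 ∨ i = 9 := by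
      omega
    rcases h10 with rfl | rfl | rfl | rfl | rfl | rfl | rfl | rfl | rfl | rfl <;> simp [h]

theorem mem_Sx {U z : ZFSet.{0}} : z ∈ Sx U ↔ z = U ∨ z ∈ U ∨
    (z ⊆ U ∧ ∃ i < 10, ∃ x ∈ (insert U U : ZFSet), ∃ y ∈ (insert U U : ZFSet), z = op i x y) := by
  rw [Sx, ZFSet.mem_union, ZFSet.mem_insert_iff, mem_sep, mem_uni]
  constructor
  · rintro ((h | h) | ⟨⟨x, hx, h⟩, hs⟩)
    · exact Or.inl h
    · exact Or.inr (Or.inl h)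
    · rw [mem_uni] at h
      obtain ⟨y, hy, h⟩ := h
      obtain ⟨i, hi, h⟩ := mem_ops_iff.1 h
      exact Or.inr (Or.inr ⟨hs, i, hi, x, hx, y, hy, h⟩)
  · rintro (h | h | ⟨hs, i, hi, x, hx, y, hy, h⟩)
    · exact Or.inl (Or.inl h)
    · exact Or.inl (Or.inr h)
    · refine Or.inr ⟨⟨x, hx, ?_⟩, hs⟩
      rw [mem_uni]
      exact ⟨y, hy, mem_ops_iff.2 ⟨i, hi, h⟩⟩

theorem mem_Lo {α : Ordinal.{0}} {z : ZFSet.{0}} : z ∈ Lo α ↔ ∃ β < α, z ∈ Sx (Lo β) := by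
  rw [Lo, ZFSet.mem_iUnion]
  constructor
  · rintro ⟨⟨β, hβ⟩, h⟩
    exact ⟨β, hβ, h⟩
  · rintro ⟨β, hβ, h⟩
    exact ⟨⟨β, hβ⟩, h⟩

theorem Lo_mono {α β : Ordinal.{0}} (h : α ≤ β) : Lo α ⊆ Lo β := by
  intro z hz
  obtain ⟨γ, hγ, hz⟩ := mem_Lo.1 hz
  exact mem_Lo.2 ⟨γ, hγ.trans_le h, hz⟩

theorem Sx_sub_Lo {α β : Ordinal.{0}} (h : α < β) : Sx (Lo α) ⊆ Lo β := by
  intro z hz
  exact mem_Lo.2 ⟨α, h, hz⟩

theorem Lo_mem_Lo {α β : Ordinal.{0}} (h : α < β) : Lo α ∈ Lo β := by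
  exact Sx_sub_Lo h (mem_Sx.2 (Or.inl rfl))

theorem Lo_tr {α : Ordinal.{0}} {z : ZFSet.{0}} (h : z ∈ Lo α) : z ⊆ Lo α := by
  induction α using WellFoundedLT.induction generalizing z with
  | ind α ih =>
    obtain ⟨β, hβ, hz⟩ := mem_Lo.1 h
    rcases mem_Sx.1 hz with rfl | hz | ⟨hs, -⟩
    · exact Lo_mono hβ.le
    · intro w hw
      exact Lo_mono hβ.le (ih β hβ hz hw)
    · intro w hw
      exact Lo_mono hβ.le (hs hw)

/-- the operations produce sets of the next level -/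
theorem op_mem_Lo {α β : Ordinal.{0}} (h : α < β) {i : ℕ} (hi : i < 10) {x y : ZFSet.{0}}
    (hx : x ∈ Lo α ∨ x = Lo α) (hy : y ∈ Lo α ∨ y = Lo α) (hs : op i x y ⊆ Lo α) :
    op i x y ∈ Lo β := by
  refine Sx_sub_Lo h (mem_Sx.2 (Or.inr (Or.inr ⟨hs, i, hi, x, ?_, y, ?_, rfl⟩)))
  · rw [ZFSet.mem_insert_iff]
    exact hx.symm
  · rw [ZFSet.mem_insert_iff]
    exact hy.symm

theorem LL_tr : IsTr LL := by
  rintro x ⟨α, hx⟩ y hy
  exact ⟨α, Lo_tr hx hy⟩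

theorem Lo_mem_LL (α : Ordinal.{0}) : Lo α ∈ LL := by
  exact ⟨α + 1, Lo_mem_Lo (lt_add_one α)⟩

theorem le_rank_Lo (α : Ordinal.{0}) : α ≤ rank (Lo α) := by
  induction α using WellFoundedLT.induction with
  | ind α ih =>
    refine le_of_forall_lt fun β hβ => ?_
    exact (ih β hβ).trans_lt (rank_lt_of_mem (Lo_mem_Lo hβ))

theorem Lh_eq (x : ZFSet.{0}) : Lh x = uni (fun y => Sx (Lh y)) x := by
  ext z
  rw [mem_uni, Lh, mem_Lo]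
  constructor
  · rintro ⟨β, hβ, hz⟩
    obtain ⟨y, hy, hβy⟩ := lt_rank_iff.1 hβ
    refine ⟨y, hy, ?_⟩
    rw [Lh]
    rcases hβy.lt_or_eq with h1 | h1
    · exact mem_Sx.2 (Or.inr (Or.inl (Sx_sub_Lo h1 hz)))
    · rw [← h1]; exact hz
  · rintro ⟨y, hy, hz⟩
    exact ⟨rank y, rank_lt_of_mem hy, hz⟩

theorem Lh_mono {x y : ZFSet.{0}} (h : rank x ≤ rank y) : Lh x ⊆ Lh y := by
  exact Lo_mono h

theorem exists_Lo (a : ZFSet.{0}) (h : ∀ x ∈ a, x ∈ LL) (β : Ordinal.{0}) :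
    ∃ α, β ≤ α ∧ a ⊆ Lo α := by
  choose f hf using fun x : a => h x.1 x.2
  have hb : BddAbove (Set.range f) := Ordinal.bddAbove_of_small
  refine ⟨max β (⨆ x, f x), le_max_left _ _, ?_⟩
  intro x hx
  exact Lo_mono ((le_ciSup hb ⟨x, hx⟩).trans (le_max_right _ _)) (hf ⟨x, hx⟩)

end H83.AC
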