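import Pool.Agent.H83.AC.NthU

/-!
# Module LocA: locally constant and closed relations between reals

Everything follows by taking the maximum of finitely many `m` (`nz (max a b)`; `Agree` for a larger
number implies `Agree` for a smaller one). `Loc.bex`: induction on the finite set `S ∈ HF`, or choose
`m a` for every `a ∈ S` and take the maximum. `Loc.memx`: for `Real N x`, `h ∈ x` iff `h = pair (fst h) (snd h)`,
`fst h ∈ omega` and `app x (fst h) = snd h`; if `fst h = nz i` take `m = nz (i+1)`.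
`Loc.bE` etc.: `ci _ ∈ omega` and `LocF.appy`.
-/

namespace H83.AC

open ZFSet

variable {N : Set ZFSet.{0}} {P Q : ZFSet.{0} → ZFSet.{0} → Prop}

private theorem agree_mono {a b : ℕ} (h : a ≤ b) {x y : ZFSet.{0}} (hxy : Agree (nz b) x y) :
    Agree (nz a) x y := by
  intro i hi
  obtain ⟨j, hj, rfl⟩ := mem_nz.1 hi
  exact hxy _ (nz_mem_nz.2 (lt_of_lt_of_le hj h))

theorem Loc.clo (h : Loc N P) : Clo N P := by
  intro x y hx hy hP
  obtain ⟨m, hm, H⟩ := h x y hx hy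
  exact ⟨m, hm, fun x' y' hx' hy' a b hP' => hP ((H x' y' hx' hy' a b).1 hP')⟩

theorem Loc.const (p : Prop) : Loc N (fun _ _ => p) := by
  intro x y _ _
  exact ⟨nz 0, nz_mem_omega 0, fun _ _ _ _ _ _ => Iff.rfl⟩

theorem Loc.not (h : Loc N P) : Loc N (fun x y => ¬ P x y) := by
  intro x y hx hy
  obtain ⟨m, hm, H⟩ := h x y hx hy
  exact ⟨m, hm, fun x' y' hx' hy' a b => not_congr (H x' y' hx' hy' a b)⟩

theorem Loc.and (h : Loc N P) (h' : Loc N Q) : Loc N (fun x y => P x y ∧ Q x y) := by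
  intro x y hx hy
  obtain ⟨m, hm, H⟩ := h x y hx hy
  obtain ⟨m', hm', H'⟩ := h' x y hx hy
  obtain ⟨a, rfl⟩ := mem_omega.1 hm
  obtain ⟨b, rfl⟩ := mem_omega.1 hm'
  exact ⟨nz (max a b), nz_mem_omega _, fun x' y' hx' hy' c d => and_congr
    (H x' y' hx' hy' (agree_mono (le_max_left a b) c) (agree_mono (le_max_left a b) d))
    (H' x' y' hx' hy' (agree_mono (le_max_right a b) c) (agree_mono (le_max_right a b) d))⟩

theorem Loc.or (h : Loc N P) (h' : Loc N Q) : Loc N (fun x y => P x y ∨ Q x y) := by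
  intro x y hx hy
  obtain ⟨m, hm, H⟩ := h x y hx hy
  obtain ⟨m', hm', H'⟩ := h' x y hx hy
  obtain ⟨a, rfl⟩ := mem_omega.1 hm
  obtain ⟨b, rfl⟩ := mem_omega.1 hm'
  exact ⟨nz (max a b), nz_mem_omega _, fun x' y' hx' hy' c d => or_congr
    (H x' y' hx' hy' (agree_mono (le_max_left a b) c) (agree_mono (le_max_left a b) d))
    (H' x' y' hx' hy' (agree_mono (le_max_right a b) c) (agree_mono (le_max_right a b) d))⟩

theorem Loc.imp (h : Loc N P) (h' : Loc N Q) : Loc N (fun x y => P x y → Q x y) := by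
  intro x y hx hy
  obtain ⟨m, hm, H⟩ := h x y hx hy
  obtain ⟨m', hm', H'⟩ := h' x y hx hy
  obtain ⟨a, rfl⟩ := mem_omega.1 hm
  obtain ⟨b, rfl⟩ := mem_omega.1 hm'
  exact ⟨nz (max a b), nz_mem_omega _, fun x' y' hx' hy' c d => imp_congr
    (H x' y' hx' hy' (agree_mono (le_max_left a b) c) (agree_mono (le_max_left a b) d))
    (H' x' y' hx' hy' (agree_mono (le_max_right a b) c) (agree_mono (le_max_right a b) d))⟩

theorem Loc.iff (h : Loc N P) (h' : Loc N Q) : Loc N (fun x y => P x y ↔ Q x y) := by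
  intro x y hx hy
  obtain ⟨m, hm, H⟩ := h x y hx hy
  obtain ⟨m', hm', H'⟩ := h' x y hx hy
  obtain ⟨a, rfl⟩ := mem_omega.1 hm
  obtain ⟨b, rfl⟩ := mem_omega.1 hm'
  exact ⟨nz (max a b), nz_mem_omega _, fun x' y' hx' hy' c d => iff_congr
    (H x' y' hx' hy' (agree_mono (le_max_left a b) c) (agree_mono (le_max_left a b) d))
    (H' x' y' hx' hy' (agree_mono (le_max_right a b) c) (agree_mono (le_max_right a b) d))⟩

theorem Loc.bex {R : ZFSet.{0} → ZFSet.{0} → ZFSet.{0} → Prop} {S : ZFSet.{0}} (hS : S ∈ HF)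
    (h : ∀ a ∈ S, Loc N (R a)) : Loc N (fun x y => ∃ a ∈ S, R a x y) := by
  intro x y hx hy
  have key : ∀ s : Set ZFSet.{0}, s.Finite → (∀ a ∈ s, a ∈ S) →
      ∃ n : ℕ, ∀ a ∈ s, ∀ x' y', Real N x' → Real N y' →
        Agree (nz n) x x' → Agree (nz n) y y' → (R a x' y' ↔ R a x y) := by
    intro s hs
    induction s, hs using Set.Finite.induction_on with
    | empty =>
      intro _
      exact ⟨0, fun a ha => absurd ha (Set.notMem_empty a)⟩
    | @insert b s _ _ ih =>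
      intro hs
      obtain ⟨n, hn⟩ := ih fun a ha => hs a (Set.mem_insert_of_mem b ha)
      obtain ⟨m, hm, H⟩ := h b (hs b (Set.mem_insert b s)) x y hx hy
      obtain ⟨k, rfl⟩ := mem_omega.1 hm
      refine ⟨max n k, fun a ha x' y' hx' hy' c d => ?_⟩
      rcases Set.mem_insert_iff.1 ha with rfl | ha
      · exact H x' y' hx' hy' (agree_mono (le_max_right n k) c) (agree_mono (le_max_right n k) d)
      · exact hn a ha x' y' hx' hy' (agree_mono (le_max_left n k) c)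
          (agree_mono (le_max_left n k) d)
  obtain ⟨n, hn⟩ := key {a | a ∈ S} (HF_finite hS) fun a ha => ha
  refine ⟨nz n, nz_mem_omega n, fun x' y' hx' hy' c d => ?_⟩
  constructor
  · rintro ⟨a, ha, hR⟩
    exact ⟨a, ha, (hn a ha x' y' hx' hy' c d).1 hR⟩
  · rintro ⟨a, ha, hR⟩
    exact ⟨a, ha, (hn a ha x' y' hx' hy' c d).2 hR⟩

theorem Loc.comp {F : ZFSet.{0} → ZFSet.{0} → ZFSet.{0}}
    {R : ZFSet.{0} → ZFSet.{0} → ZFSet.{0} → Prop} (hF : LocF N F) (h : ∀ a, Loc N (R a)) :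
    Loc N (fun x y => R (F x y) x y) := by
  intro x y hx hy
  obtain ⟨m, hm, H⟩ := hF x y hx hy
  obtain ⟨m', hm', H'⟩ := h (F x y) x y hx hy
  obtain ⟨a, rfl⟩ := mem_omega.1 hm
  obtain ⟨b, rfl⟩ := mem_omega.1 hm'
  refine ⟨nz (max a b), nz_mem_omega _, fun x' y' hx' hy' c d => ?_⟩
  show R (F x' y') x' y' ↔ R (F x y) x y
  rw [H x' y' hx' hy' (agree_mono (le_max_left a b) c) (agree_mono (le_max_left a b) d)]
  exact H' x' y' hx' hy' (agree_mono (le_max_right a b) c) (agree_mono (le_max_right a b) d)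

theorem Clo.and (h : Clo N P) (h' : Clo N Q) : Clo N (fun x y => P x y ∧ Q x y) := by
  intro x y hx hy hn
  by_cases hP : P x y
  · obtain ⟨m, hm, H⟩ := h' x y hx hy fun hQ => hn ⟨hP, hQ⟩
    exact ⟨m, hm, fun x' y' hx' hy' c d hc => H x' y' hx' hy' c d hc.2⟩
  · obtain ⟨m, hm, H⟩ := h x y hx hy hP
    exact ⟨m, hm, fun x' y' hx' hy' c d hc => H x' y' hx' hy' c d hc.1⟩

theorem Clo.imp (h : Loc N P) (h' : Clo N Q) : Clo N (fun x y => P x y → Q x y) := by
  intro x y hx hy hn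
  obtain ⟨hP, hQ⟩ := Classical.not_imp.1 hn
  obtain ⟨m, hm, H⟩ := h x y hx hy
  obtain ⟨m', hm', H'⟩ := h' x y hx hy hQ
  obtain ⟨a, rfl⟩ := mem_omega.1 hm
  obtain ⟨b, rfl⟩ := mem_omega.1 hm'
  refine ⟨nz (max a b), nz_mem_omega _, fun x' y' hx' hy' c d hc => ?_⟩
  exact H' x' y' hx' hy' (agree_mono (le_max_right a b) c) (agree_mono (le_max_right a b) d)
    (hc ((H x' y' hx' hy' (agree_mono (le_max_left a b) c)
      (agree_mono (le_max_left a b) d)).2 hP))

theorem Clo.ball {R : ZFSet.{0} → ZFSet.{0} → ZFSet.{0} → Prop} {S : ZFSet.{0}}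
    (h : ∀ a ∈ S, Clo N (R a)) : Clo N (fun x y => ∀ a ∈ S, R a x y) := by
  intro x y hx hy hn
  have hn' : ∃ a, a ∈ S ∧ ¬ R a x y := by
    by_contra hc
    exact hn fun a ha => by
      by_contra hR
      exact hc ⟨a, ha, hR⟩
  obtain ⟨a, ha, hR⟩ := hn'
  obtain ⟨m, hm, H⟩ := h a ha x y hx hy hR
  exact ⟨m, hm, fun x' y' hx' hy' c d hc => H x' y' hx' hy' c d (hc a ha)⟩

theorem LocF.appy {n : ZFSet.{0}} (hn : n ∈ omega) : LocF N (fun _ y => app y n) := by
  obtain ⟨k, rfl⟩ := mem_omega.1 hn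
  intro x y _ _
  exact ⟨nz (k + 1), nz_mem_omega _, fun x' y' _ _ _ d =>
    (d _ (nz_mem_nz.2 (Nat.lt_succ_self k))).symm⟩

private theorem LocF.appx {n : ZFSet.{0}} (hn : n ∈ omega) : LocF N (fun x _ => app x n) := by
  obtain ⟨k, rfl⟩ := mem_omega.1 hn
  intro x y _ _
  exact ⟨nz (k + 1), nz_mem_omega _, fun x' y' _ _ c _ =>
    (c _ (nz_mem_nz.2 (Nat.lt_succ_self k))).symm⟩

private theorem LocF.loc {F : ZFSet.{0} → ZFSet.{0} → ZFSet.{0}} (hF : LocF N F)
    (p : ZFSet.{0} → Prop) : Loc N (fun x y => p (F x y)) :=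
  Loc.comp (R := fun a _ _ => p a) hF fun a => Loc.const (p a)

theorem Loc.memx (h : ZFSet.{0}) : Loc N (fun x _ => h ∈ x) := by
  by_cases hh : h = pair (fst h) (snd h) ∧ fst h ∈ omega
  · have h1 : Loc N (fun x _ => app x (fst h) = snd h) :=
      LocF.loc (LocF.appx hh.2) (fun a => a = snd h)
    have h2 : ∀ x, Real N x → (h ∈ x ↔ app x (fst h) = snd h) := by
      intro x hx
      constructor
      · intro hm
        rw [hh.1] at hm
        exact (fn_pair hx.2 hm).2.2.symm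
      · intro he
        have := fn_app hx.2 hh.2
        rw [he, ← hh.1] at this
        exact this
    intro x y hx hy
    obtain ⟨m, hm, H⟩ := h1 x y hx hy
    refine ⟨m, hm, fun x' y' hx' hy' c d => ?_⟩
    show h ∈ x' ↔ h ∈ x
    rw [h2 x hx, h2 x' hx']
    exact H x' y' hx' hy' c d
  · have h2 : ∀ x, Real N x → ¬ h ∈ x := by
      intro x hx hm
      obtain ⟨i, hi, he⟩ := fn_elt hx.2 hm
      apply hh
      rw [he, fst_pair, snd_pair]
      exact ⟨rfl, hi⟩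
    intro x y hx hy
    exact ⟨nz 0, nz_mem_omega 0, fun x' y' hx' hy' _ _ =>
      iff_of_false (h2 x' hx') (h2 x hx)⟩

theorem Loc.bE (i j : ZFSet.{0}) : Loc N (fun _ y => H83.AC.bE y i j) :=
  LocF.loc (LocF.appy (ci_omega (tg 0 (pair i j)))) (fun a => a ≠ ∅)

theorem Loc.bQ (i j : ZFSet.{0}) : Loc N (fun _ y => H83.AC.bQ y i j) :=
  LocF.loc (LocF.appy (ci_omega (tg 1 (pair i j)))) (fun a => a ≠ ∅)

theorem Loc.bT (χ : Fml) (t : ZFSet.{0}) : Loc N (fun _ y => H83.AC.bT y χ t) :=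
  LocF.loc (LocF.appy (ci_omega (tg 2 (pair (fc χ) t)))) (fun a => a ≠ ∅)

theorem LocF.bW (h : ZFSet.{0}) : LocF N (fun _ y => H83.AC.bW y h) := by
  intro x y hx hy
  obtain ⟨m, hm, H⟩ := LocF.appy (N := N) (ci_omega (tg 3 h)) x y hx hy
  exact ⟨m, hm, fun x' y' hx' hy' c d => congrArg (app cdg) (H x' y' hx' hy' c d)⟩

end H83.AC
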