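import Pool.Agent.H83.AC.CondB

/-!
# Module Mono: monotonicity and density for the forcing relations

`Sub_mono`: unfold. `Sub_dense`: if densely below `p` `Sub r σ τ`, then `Sub p σ τ`: given
`(π, r) ∈ σ` and `q ⊇ p, r`, choose `q₁ ⊇ q` with `Sub q₁ σ τ` and apply it to `q₁` itself.
For `Fc` by induction on the formula (`p ∈ Cond`; for `bot` there is at least one `q ⊇ p`,
namely `p` itself; `imp` needs density of `ψ` and monotonicity of `φ`).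
-/

namespace H83.AC

open ZFSet

private theorem Mono_iff {p σ τ : ZFSet.{0}} : Sub p σ τ ↔
    ∀ π r, pair π r ∈ σ → r ∈ Cond → ∀ q ∈ Cond, p ⊆ q → r ⊆ q →
      ∃ q' ∈ Cond, q ⊆ q' ∧ ∃ ρ s, pair ρ s ∈ τ ∧ s ∈ Cond ∧ s ⊆ q' ∧
        Sub q' π ρ ∧ Sub q' ρ π := by
  rw [Sub]
  simp only [exists_prop]

theorem Sub_mono {p q σ τ : ZFSet.{0}} (h : p ⊆ q) (hs : Sub p σ τ) : Sub q σ τ := by
  rw [Mono_iff] at hs ⊢
  intro π r h1 hr q1 hq1 hqq1 hrq1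
  exact hs π r h1 hr q1 hq1 (fun _ hx => hqq1 (h hx)) hrq1

theorem FEq_mono {p q σ τ : ZFSet.{0}} (h : p ⊆ q) (hs : FEq p σ τ) : FEq q σ τ :=
  ⟨Sub_mono h hs.1, Sub_mono h hs.2⟩

theorem FMem_mono {p q σ τ : ZFSet.{0}} (h : p ⊆ q) (hs : FMem p σ τ) : FMem q σ τ :=
  fun q1 hq1 hqq1 => hs q1 hq1 (fun _ hx => hqq1 (h hx))

theorem Fc_mono {M : Set ZFSet.{0}} (φ : Fml) {p q : ZFSet.{0}} {v : ℕ → ZFSet.{0}} (h : p ⊆ q)
    (hs : Fc M φ p v) : Fc M φ q v := by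
  induction φ generalizing p q v with
  | bot => exact hs
  | eq i j => exact FEq_mono h hs
  | mem i j => exact FMem_mono h hs
  | imp φ ψ h1 h2 => exact fun q1 hq1 hqq1 => hs q1 hq1 (fun _ hx => hqq1 (h hx))
  | all φ ih => exact fun σ hσ hS => ih h (hs σ hσ hS)

theorem Sub_dense {p σ τ : ZFSet.{0}}
    (h : ∀ q ∈ Cond, p ⊆ q → ∃ r ∈ Cond, q ⊆ r ∧ Sub r σ τ) : Sub p σ τ := by
  rw [Mono_iff]
  intro π r h1 hr q hq hpq hrq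
  obtain ⟨q1, hq1, hqq1, hs⟩ := h q hq hpq
  rw [Mono_iff] at hs
  obtain ⟨q', hq', h2, h3⟩ := hs π r h1 hr q1 hq1 (fun _ hx => hx) (fun _ hx => hqq1 (hrq hx))
  exact ⟨q', hq', fun _ hx => h2 (hqq1 hx), h3⟩

theorem FEq_dense {p σ τ : ZFSet.{0}}
    (h : ∀ q ∈ Cond, p ⊆ q → ∃ r ∈ Cond, q ⊆ r ∧ FEq r σ τ) : FEq p σ τ := by
  constructor
  · apply Sub_dense
    intro q hq hpq
    obtain ⟨r, hr, h1, h2⟩ := h q hq hpq
    exact ⟨r, hr, h1, h2.1⟩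
  · apply Sub_dense
    intro q hq hpq
    obtain ⟨r, hr, h1, h2⟩ := h q hq hpq
    exact ⟨r, hr, h1, h2.2⟩

theorem FMem_dense {p σ τ : ZFSet.{0}}
    (h : ∀ q ∈ Cond, p ⊆ q → ∃ r ∈ Cond, q ⊆ r ∧ FMem r σ τ) : FMem p σ τ := by
  intro q hq hpq
  obtain ⟨q1, hq1, hqq1, hs⟩ := h q hq hpq
  obtain ⟨q', hq', h2, h3⟩ := hs q1 hq1 (fun _ hx => hx)
  exact ⟨q', hq', fun _ hx => h2 (hqq1 hx), h3⟩

theorem Fc_dense {M : Set ZFSet.{0}} (φ : Fml) {p : ZFSet.{0}} (hp : p ∈ Cond)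
    {v : ℕ → ZFSet.{0}}
    (h : ∀ q ∈ Cond, p ⊆ q → ∃ r ∈ Cond, q ⊆ r ∧ Fc M φ r v) : Fc M φ p v := by
  induction φ generalizing p v with
  | bot =>
    obtain ⟨r, _, _, h1⟩ := h p hp (fun _ hx => hx)
    exact h1
  | eq i j => exact FEq_dense h
  | mem i j => exact FMem_dense h
  | imp φ ψ h1 h2 =>
    intro q hq hpq hφ
    refine h2 hq ?_
    intro q2 hq2 hqq2
    obtain ⟨r, hr, h3, h4⟩ := h q2 hq2 (fun _ hx => hqq2 (hpq hx))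
    exact ⟨r, hr, h3, h4 r hr (fun _ hx => hx) (Fc_mono φ (fun _ hx => h3 (hqq2 hx)) hφ)⟩
  | all φ ih =>
    intro σ hσ hS
    refine ih hp ?_
    intro q hq hpq
    obtain ⟨r, hr, h1, h2⟩ := h q hq hpq
    exact ⟨r, hr, h1, h2 σ hσ hS⟩

end H83.AC
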