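import Pool.Agent.H83.AC.NNa
import Pool.Agent.H83.AC.Truth
import Pool.Agent.H83.AC.ActF

/-!
# Module NNb: separation in the symmetric extension

`x = val c σ`, `v i = val c (u i)` with `u i ∈ M`, `HS M (u i)`; replacing `u i` by `∅` for `i ≥ n`
(`φ.bd (n+1)`, `satIn_congr`; `val c ∅ = ∅`) we may assume that one `m` is a support of `σ` and of all
`u i`. The name is
`ρ = {(π, p) : π ∈ nd σ, p ∈ Cond, FMem p π σ, Fc M φ p (cons π u)}`, which is in `M`
(`UR.Fc`, `UR.FMem`, `TM.sep_of` from `prod (nd σ) Cond` with the parameter stream `cons σ u`).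
`m` is a support of `ρ`: for `z` avoiding `m`, `(π, p) ∈ ρ` iff `(actN z π, actC z p) ∈ ρ`
(`FMem_act`, `Fc_act`, `actN z σ = σ`, `actN z (u i) = u i`, `actN_actN`).
`val c ρ = {y ∈ x : φ(y, v)}` by `truth` and `truth_mem`.
-/

namespace H83.AC

open ZFSet

private theorem NNb_congr {K : Set ZFSet.{0}} : ∀ (φ : Fml) {n : ℕ}, φ.bd n → ∀ {v w : ℕ → ZFSet.{0}},
    (∀ i < n, v i = w i) → (SatIn K φ v ↔ SatIn K φ w)
  | .bot, _, _, _, _, _ => Iff.rfl
  | .eq i j, _, h, v, w, e => by simp only [SatIn, e i h.1, e j h.2]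
  | .mem i j, _, h, v, w, e => by simp only [SatIn, e i h.1, e j h.2]
  | .imp φ ψ, _, h, v, w, e => by
    simp only [SatIn, NNb_congr φ h.1 e, NNb_congr ψ h.2 e]
  | .all φ, n, h, v, w, e => by
    simp only [SatIn]
    refine forall_congr' fun x => imp_congr_right fun _ => NNb_congr φ h fun i hi => ?_
    cases i with
    | zero => rfl
    | succ i => exact e i (by omega)

private theorem NNb_nd_empty {π : ZFSet.{0}} (h : π ∈ nd ∅) : False := by
  obtain ⟨p, -, hp⟩ := mem_nd.1 h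
  exact ZFSet.notMem_empty _ hp

private theorem NNb_act_empty (z : ZFSet.{0}) : actN z ∅ = ∅ := by
  rw [ZFSet.eq_empty]
  intro t ht
  obtain ⟨π, p, -, hp, -⟩ := mem_actN.1 ht
  exact ZFSet.notMem_empty _ hp

private theorem NNb_supp_empty (M : Set ZFSet.{0}) (m : ℕ) : Supp M (nz m) ∅ :=
  ⟨nz_mem_omega m, fun z _ _ => NNb_act_empty z⟩

private theorem NNb_HS_empty (M : Set ZFSet.{0}) : HS M ∅ :=
  HS_iff.2 ⟨fun _ ht => absurd ht (ZFSet.notMem_empty _), ⟨nz 0, NNb_supp_empty M 0⟩,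
    fun _ hπ => (NNb_nd_empty hπ).elim⟩

private theorem NNb_supp {M : Set ZFSet.{0}} {u : ℕ → ZFSet.{0}} (hu : ∀ i, HS M (u i)) (n : ℕ) :
    ∃ K, ∀ i < n, Supp M (nz K) (u i) := by
  induction n with
  | zero => exact ⟨0, fun i hi => absurd hi (Nat.not_lt_zero i)⟩
  | succ n ih =>
    obtain ⟨K, hK⟩ := ih
    obtain ⟨m, hm⟩ := (HS_iff.1 (hu n)).2.1
    obtain ⟨k, rfl⟩ := mem_omega.1 hm.1
    refine ⟨max K k, fun i hi => ?_⟩
    rcases Nat.lt_succ_iff_lt_or_eq.1 hi with h | rfl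
    · exact Supp_mono (le_max_left K k) (hK i h)
    · exact Supp_mono (le_max_right K k) hm

private theorem NNb_ur (φ : Fml) : UR (fun N v => (snd (v 0) ∈ Cond ∧ FMem (snd (v 0)) (fst (v 0)) (v 1)) ∧
    (snd (v 0) ∈ Cond ∧ Fc N φ (snd (v 0)) (cons (fst (v 0)) (sh (sh v))))) := by
  refine UD.and (UR.FMem (UF.snd (UF.var 0)) (UF.fst (UF.var 0)) (UF.var 1)) ?_
  refine UD.subst (R := fun N x v => x ∈ Cond ∧ Fc N φ x (cons (fst (v 0)) (sh (sh v)))) ?_
    (UF.snd (UF.var 0))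
  refine UD.subst (R := fun N y v => v 0 ∈ Cond ∧ Fc N φ (v 0) (cons y (sh (sh (sh v))))) ?_
    (UF.fst (UF.var 1))
  refine ((UR.Fc φ).ren (fun n => if n = 0 then 1 else if n = 1 then 0 else n + 2)).congr
    fun N _ w _ => ?_
  have e : (sh (fun n => w ((fun n => if n = 0 then 1 else if n = 1 then 0 else n + 2) n))) =
      cons (w 0) (sh (sh (sh (sh w)))) := by
    funext n
    cases n with
    | zero => rfl
    | succ n => rfl
  show (w 1 ∈ Cond ∧ Fc N φ (w 1) (cons (w 0) (sh (sh (sh (sh w)))))) ↔ _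
  rw [← e]
  exact Iff.rfl

private theorem NNb_cons (c : Set ZFSet.{0}) (σ : ZFSet.{0}) (v : ℕ → ZFSet.{0}) :
    (fun i => val c (cons σ v i)) = cons (val c σ) (fun i => val c (v i)) := by
  funext i
  cases i with
  | zero => rfl
  | succ i => rfl

theorem NN_sep {M c : Set ZFSet.{0}} (hM : TM M) (hc : Gen M c) (φ : Fml) {v : ℕ → ZFSet.{0}}
    (hv : ∀ i, v i ∈ NN M c) {x : ZFSet.{0}} (hx : x ∈ NN M c) :
    ZFSet.sep (fun y => SatIn (NN M c) φ (cons y v)) x ∈ NN M c := by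
  classical
  obtain ⟨σ, hσM, hσ, rfl⟩ := hx
  choose u0 hu0M hu0 hu0v using hv
  obtain ⟨n, hn⟩ := φ.exists_bd
  set u : ℕ → ZFSet.{0} := fun i => if i < n then u0 i else ∅ with hudef
  have hCM : Cond ∈ M := UF.Cond.mem M hM (fun _ => σ) (fun _ => hσM)
  have hempty : (∅ : ZFSet.{0}) ∈ M := UF.empty.mem M hM (fun _ => σ) (fun _ => hσM)
  have huM : ∀ i, u i ∈ M := by
    intro i
    by_cases h : i < n
    · simp only [hudef, if_pos h]; exact hu0M i
    · simp only [hudef, if_neg h]; exact hempty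
  have huHS : ∀ i, HS M (u i) := by
    intro i
    by_cases h : i < n
    · simp only [hudef, if_pos h]; exact hu0 i
    · simp only [hudef, if_neg h]; exact NNb_HS_empty M
  obtain ⟨K1, hK1⟩ := NNb_supp huHS n
  obtain ⟨m, hm⟩ := (HS_iff.1 hσ).2.1
  obtain ⟨k, rfl⟩ := mem_omega.1 hm.1
  obtain ⟨K, hKσ, hKu⟩ : ∃ K, Supp M (nz K) σ ∧ ∀ i, Supp M (nz K) (u i) := by
    refine ⟨max K1 k, Supp_mono (le_max_right K1 k) hm, fun i => ?_⟩
    by_cases h : i < n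
    · exact Supp_mono (le_max_left K1 k) (hK1 i h)
    · simp only [hudef, if_neg h]; exact NNb_supp_empty M _
  have hcong : ∀ y, SatIn (NN M c) φ (cons y v) ↔
      SatIn (NN M c) φ (cons y (fun i => val c (u i))) := by
    intro y
    refine NNb_congr φ hn fun i hi => ?_
    cases i with
    | zero => rfl
    | succ i =>
      have h : i < n := by omega
      simp only [cons_succ, hudef, if_pos h]
      exact hu0v i
  have hw : ∀ i, cons σ u i ∈ M := by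
    intro i
    cases i with
    | zero => exact hσM
    | succ i => exact huM i
  have hcu : ∀ π ∈ nd σ, ∀ i, cons π u i ∈ M ∧ HS M (cons π u i) := by
    intro π hπ i
    cases i with
    | zero =>
      refine ⟨?_, (HS_iff.1 hσ).2.2 π hπ⟩
      obtain ⟨p, -, hp⟩ := mem_nd.1 hπ
      exact hM.tr _ (hM.sUnion (hM.sUnion hσM)) π (fst_mem_ssU hp)
    | succ i => exact ⟨huM i, huHS i⟩
  have hndM : nd σ ∈ M := (UF.nd (UF.var 0)).mem M hM (fun _ => σ) (fun _ => hσM)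
  have hprodM : ZFSet.prod (nd σ) Cond ∈ M :=
    (UF.prod (UF.nd (UF.var 0)) UF.Cond).mem M hM (fun _ => σ) (fun _ => hσM)
  set ρ : ZFSet.{0} := ZFSet.sep (fun t => (snd t ∈ Cond ∧ FMem (snd t) (fst t) σ) ∧
    (snd t ∈ Cond ∧ Fc M φ (snd t) (cons (fst t) u))) (ZFSet.prod (nd σ) Cond) with hρdef
  have hρM : ρ ∈ M :=
    TM.sep_of (R := fun N t w => (snd t ∈ Cond ∧ FMem (snd t) (fst t) (w 0)) ∧
      (snd t ∈ Cond ∧ Fc N φ (snd t) (cons (fst t) (sh w)))) (NNb_ur φ) hM (v := cons σ u) hw hprodM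
  have hρ : ∀ π p, pair π p ∈ ρ ↔ π ∈ nd σ ∧ p ∈ Cond ∧ FMem p π σ ∧ Fc M φ p (cons π u) := by
    intro π p
    rw [hρdef, mem_sep, pair_mem_prod, fst_pair, snd_pair]
    tauto
  have hρp : ∀ t ∈ ρ, ∃ π p, p ∈ Cond ∧ t = pair π p := by
    intro t ht
    rw [hρdef, mem_sep, mem_prod] at ht
    obtain ⟨⟨π, -, p, hp, rfl⟩, -⟩ := ht
    exact ⟨π, p, hp, rfl⟩
  have hclos : ∀ z ∈ M, Avoid (nz K) z → ∀ π p, pair π p ∈ ρ → pair (actN z π) (actC z p) ∈ ρ := by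
    intro z hz hA π p h
    obtain ⟨h1, h2, h3, h4⟩ := (hρ π p).1 h
    rw [hρ]
    have hσz := hKσ.2 z hz hA
    refine ⟨?_, actC_cond h2, ?_, ?_⟩
    · have : actN z π ∈ nd (actN z σ) := mem_nd_actN.2 ⟨π, h1, rfl⟩
      rwa [hσz] at this
    · have := FMem_act (z := z) h2 ((HS_iff.1 hσ).2.2 π h1).isName hσ.isName h3
      rwa [hσz] at this
    · have := Fc_act hM hz φ h2 (hcu π h1) h4
      have e : (fun i => actN z (cons π u i)) = cons (actN z π) u := by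
        funext i
        cases i with
        | zero => rfl
        | succ i => exact (hKu i).2 z hz hA
      rwa [e] at this
  have hρHS : HS M ρ := by
    refine HS_iff.2 ⟨fun t ht => ?_, ⟨nz K, nz_mem_omega K, fun z hz hA => ?_⟩, fun π hπ => ?_⟩
    · obtain ⟨π, p, hp, e⟩ := hρp t ht
      exact ⟨π, p, hp, e⟩
    · ext t
      rw [mem_actN]
      constructor
      · rintro ⟨π, p, -, h, rfl⟩
        exact hclos z hz hA π p h
      · intro ht
        obtain ⟨π, p, hp, rfl⟩ := hρp t ht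
        refine ⟨actN z π, actC z p, actC_cond hp, hclos z hz hA π p ht, ?_⟩
        rw [actN_actN ((HS_iff.1 hσ).2.2 π ((hρ π p).1 ht).1).isName, actC_actC hp]
    · obtain ⟨p, -, hp⟩ := mem_nd.1 hπ
      exact (HS_iff.1 hσ).2.2 π ((hρ π p).1 hp).1
  refine ⟨ρ, hρM, hρHS, ?_⟩
  ext y
  rw [mem_sep, hcong]
  constructor
  · rintro ⟨hy, hs⟩
    obtain ⟨π, p0, hp0, -, hπ0, rfl⟩ := mem_val.1 hy
    have hπ : π ∈ nd σ := mem_nd.2 ⟨p0, hp0, hπ0⟩
    obtain ⟨p1, h1, h2, h3⟩ := (truth_mem hM hc (hcu π hπ 0).1 hσM).1 hy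
    rw [← NNb_cons] at hs
    obtain ⟨p2, h4, h5, h6⟩ := (truth hM hc φ (cons π u) (hcu π hπ)).1 hs
    obtain ⟨h7, h8⟩ := union_fits h1 h4 h2 h5
    exact mem_val.2 ⟨π, p1 ∪ p2, h7, h8, (hρ π _).2 ⟨hπ, h7,
      FMem_mono (fun t ht => mem_union.2 (Or.inl ht)) h3,
      Fc_mono φ (fun t ht => mem_union.2 (Or.inr ht)) h6⟩, rfl⟩
  · intro hy
    obtain ⟨π, p, hp, hpc, h, rfl⟩ := mem_val.1 hy
    obtain ⟨h1, h2, h3, h4⟩ := (hρ π p).1 h
    refine ⟨(truth_mem hM hc (hcu π h1 0).1 hσM).2 ⟨p, hp, hpc, h3⟩, ?_⟩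
    rw [← NNb_cons]
    exact (truth hM hc φ (cons π u) (hcu π h1)).2 ⟨p, hp, hpc, h4⟩

end H83.AC
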