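import Pool.Agent.H83.AC.CondB

/-!
# Module NdU: the action on names is uniformly definable

`actN_eq` unfolds the recursion. `UF.nd`: `ud` with `UF.Cond`.
`UF.actN`: `UF.recur` with `pred N v x = nd x` (well-founded: the rank drops, `rank_nd_lt`) and
`G N v x f = uni (fun π => img (fun p => pair (app f π) (actC (v 0) p)) (sep (fun p => pair π p ∈ x)
Cond)) (nd x)`, `F N v x = actN (v 0) x`; then `UF.comp2` or `UF.subst`, `UF.ren`.
-/

namespace H83.AC

open ZFSet

variable {f g : Set ZFSet.{0} → (ℕ → ZFSet.{0}) → ZFSet.{0}}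

theorem UF.nd (hf : UF f) : UF (fun N v => H83.AC.nd (f N v)) := by
  refine UF.sep (R := fun N π v => ∃ p ∈ H83.AC.Cond, ZFSet.pair π p ∈ f N v)
    hf.sUnion.sUnion ?_
  (repeat' first
      | apply UF.Cond | apply hf.shift.shift | assumption | exact UF.var _ | exact UD.true
      | exact UD.false | apply UF.empty | apply UF.fgr | apply UF.uni | apply UF.img
      | apply UF.pow | apply UF.sep | apply UF.pair | apply UF.upair | apply UF.singleton
      | apply UF.insert | apply UF.union | apply UF.inter | apply UF.diff | apply UF.prod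
      | apply UF.sUnion | apply UF.app | apply UF.dom | apply UF.rng | apply UF.fst | apply UF.snd
      | apply UF.ite | apply UD.and | apply UD.or | apply UR.ball | apply UR.bex | apply UD.allN
      | apply UD.exN | apply UD.iff | apply UR.mem | apply UR.eq | apply UR.sub | apply UD.not
      | apply UD.imp | exact UD.prop _)

theorem actN_eq (z σ : ZFSet.{0}) : actN z σ = uni (fun π =>
    img (fun p => pair (actN z π) (actC z p)) (ZFSet.sep (fun p => pair π p ∈ σ) Cond)) (nd σ) := by
  rw [actN]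
  rfl

theorem mem_actN {z σ t : ZFSet.{0}} : t ∈ actN z σ ↔
    ∃ π p, p ∈ Cond ∧ pair π p ∈ σ ∧ t = pair (actN z π) (actC z p) := by
  rw [actN_eq, mem_uni]
  simp only [mem_img, mem_sep]
  constructor
  · rintro ⟨π, -, p, ⟨hp, h⟩, rfl⟩
    exact ⟨π, p, hp, h, rfl⟩
  · rintro ⟨π, p, hp, h, rfl⟩
    exact ⟨π, mem_nd.2 ⟨p, hp, h⟩, p, ⟨hp, h⟩, rfl⟩

theorem UF.actN (hf : UF f) (hg : UF g) : UF (fun N v => H83.AC.actN (f N v) (g N v)) := by
  have key : UF (fun _ v => H83.AC.actN (v 1) (v 0)) := by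
    refine UF.recur (pred := fun _ _ x => H83.AC.nd x) (F := fun _ v x => H83.AC.actN (v 0) x)
      (G := fun _ v x h => H83.AC.uni (fun π => H83.AC.img
        (fun p => ZFSet.pair (H83.AC.app h π) (H83.AC.actC (v 0) p))
        (ZFSet.sep (fun p => ZFSet.pair π p ∈ x) H83.AC.Cond)) (H83.AC.nd x)) ?_ ?_ ?_ ?_
    · exact UF.nd (UF.var 0)
    · refine UF.uni (F := fun _ π w => H83.AC.img
        (fun p => ZFSet.pair (H83.AC.app (w 1) π) (H83.AC.actC (w 2) p))
        (ZFSet.sep (fun p => ZFSet.pair π p ∈ w 0) H83.AC.Cond)) (UF.nd (UF.var 0)) ?_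
      refine UF.img (F := fun _ p w => ZFSet.pair (H83.AC.app (w 2) (w 0)) (H83.AC.actC (w 3) p))
        ?_ ?_
      · refine UF.sep (R := fun _ p w => ZFSet.pair (w 0) p ∈ w 1) UF.Cond ?_
        exact UR.mem (UF.pair (UF.var 1) (UF.var 0)) (UF.var 2)
      · exact UF.pair (UF.app (UF.var 3) (UF.var 1)) (UF.actC (UF.var 4) (UF.var 0))
    · intro N _ v _
      refine Subrelation.wf (r := InvImage (fun a b : Ordinal => a < b)
        (fun x : N => rank (x : ZFSet))) ?_ (InvImage.wf _ Ordinal.lt_wf)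
      intro y x h
      exact rank_nd_lt h
    · intro N _ v _ x _
      change H83.AC.actN (v 0) x = _
      rw [actN_eq]
      refine uni_congr fun π hπ => img_congr fun p _ => ?_
      rw [app_fgr hπ]
  exact UF.comp2 (F := fun _ x y => H83.AC.actN x y) (key.ren (fun n => 1 - n)) hf hg

instance Inst.nd [hf : UF f] : UF (fun N v => H83.AC.nd (f N v)) := UF.nd hf
instance Inst.actN [hf : UF f] [hg : UF g] :
    UF (fun N v => H83.AC.actN (f N v) (g N v)) := UF.actN hf hg

end H83.AC
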