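import Pool.Agent.H83.AC.Defs4
import Pool.Agent.H83.AC.Fn

/-!
# Module NthU: tuples, codes, formula codes

`tup (n+1) v = pair (v 0) (tup n (sh v))`, `tups X (n+1) = prod X (tups X n)`, `fst ∅ = ∅ = snd ∅`
(`∅` is not a pair). `nth_HF` for junk indices as well: components of elements of `HF` are in `HF`, and
`fst t = ∅` if `t` is not a pair. `UF.ci`: `ci x = ⋃₀ {n ∈ omega : pair n x ∈ cdg}` (`mem_cdg`, `cd_inj`).
-/

namespace H83.AC

open ZFSet

variable {f g : Set ZFSet.{0} → (ℕ → ZFSet.{0}) → ZFSet.{0}}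

@[simp] theorem nth_zero_pair (a t : ZFSet.{0}) : nth 0 (pair a t) = a := by
  rw [nth, fst_pair]

@[simp] theorem nth_succ_pair (i : ℕ) (a t : ZFSet.{0}) : nth (i + 1) (pair a t) = nth i t := by
  rw [nth, snd_pair]

theorem nth_tup {n i : ℕ} (h : i < n) (v : ℕ → ZFSet.{0}) : nth i (tup n v) = v i := by
  induction n generalizing i v with
  | zero => exact absurd h (Nat.not_lt_zero i)
  | succ n ih =>
    rw [tup]
    rcases i with _ | i
    · rw [nth_zero_pair]
    · rw [nth_succ_pair, ih (Nat.lt_of_succ_lt_succ h)]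

theorem tup_nth {X t : ZFSet.{0}} {n : ℕ} (h : t ∈ tups X n) : t = tup n (fun i => nth i t) := by
  induction n generalizing t with
  | zero =>
    rw [tups, mem_singleton] at h
    rw [tup, h]
  | succ n ih =>
    rw [tups, mem_prod] at h
    obtain ⟨a, -, s, hs, rfl⟩ := h
    have e : (sh fun i => nth i (pair a s)) = fun i => nth i s := by
      funext i
      exact nth_succ_pair i a s
    rw [tup, e, ← ih hs, nth_zero_pair]

theorem nth_mem {X t : ZFSet.{0}} {n i : ℕ} (h : t ∈ tups X n) (hi : i < n) : nth i t ∈ X := by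
  induction n generalizing i t with
  | zero => exact absurd hi (Nat.not_lt_zero i)
  | succ n ih =>
    rw [tups, mem_prod] at h
    obtain ⟨a, ha, s, hs, rfl⟩ := h
    rcases i with _ | i
    · rw [nth_zero_pair]
      exact ha
    · rw [nth_succ_pair]
      exact ih hs (Nat.lt_of_succ_lt_succ hi)

theorem tup_mem {X : ZFSet.{0}} {n : ℕ} {v : ℕ → ZFSet.{0}} (h : ∀ i < n, v i ∈ X) :
    tup n v ∈ tups X n := by
  induction n generalizing v with
  | zero =>
    rw [tup, tups, mem_singleton]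
  | succ n ih =>
    rw [tup, tups, pair_mem_prod]
    exact ⟨h 0 (Nat.succ_pos n), ih (v := sh v) fun i hi => h (i + 1) (Nat.succ_lt_succ hi)⟩

theorem tups_HF {n : ℕ} {t : ZFSet.{0}} (h : t ∈ tups HF n) : t ∈ HF := by
  induction n generalizing t with
  | zero =>
    rw [tups, mem_singleton] at h
    rw [h]
    exact HF_empty
  | succ n ih =>
    rw [tups, mem_prod] at h
    obtain ⟨a, ha, s, hs, rfl⟩ := h
    exact HF_pair ha (ih hs)

theorem fst_HF {t : ZFSet.{0}} (h : t ∈ HF) : fst t ∈ HF := by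
  by_cases ht : ∃ a b, t = pair a b
  · obtain ⟨a, b, rfl⟩ := ht
    rw [fst_pair]
    exact (HF_of_pair h).1
  · have e : fst t = ∅ := by
      rw [fst, eq_empty]
      intro z hz
      obtain ⟨x, hx, -⟩ := mem_sUnion.1 hz
      obtain ⟨-, y, -, e⟩ := mem_sep.1 hx
      exact ht ⟨x, y, e⟩
    rw [e]
    exact HF_empty

theorem snd_HF {t : ZFSet.{0}} (h : t ∈ HF) : snd t ∈ HF := by
  by_cases ht : ∃ a b, t = pair a b
  · obtain ⟨a, b, rfl⟩ := ht
    rw [snd_pair]
    exact (HF_of_pair h).2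
  · have e : snd t = ∅ := by
      rw [snd, eq_empty]
      intro z hz
      obtain ⟨y, hy, -⟩ := mem_sUnion.1 hz
      obtain ⟨-, x, -, e⟩ := mem_sep.1 hy
      exact ht ⟨x, y, e⟩
    rw [e]
    exact HF_empty

theorem nth_HF {t : ZFSet.{0}} (h : t ∈ HF) (i : ℕ) : nth i t ∈ HF := by
  induction i generalizing t with
  | zero => exact fst_HF h
  | succ i ih => exact ih (snd_HF h)

theorem UF.nth (i : ℕ) (hf : UF f) : UF (fun N v => H83.AC.nth i (f N v)) := by
  induction i generalizing f with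
  | zero => exact hf.fst
  | succ i ih => exact ih hf.snd

theorem UF.tups (n : ℕ) (hf : UF f) : UF (fun N v => H83.AC.tups (f N v) n) := by
  induction n with
  | zero => exact UF.empty.singleton
  | succ n ih => exact hf.prod ih

theorem ci_cd (n : ℕ) : ci (cd n) = nz n := by
  have h : ∃ m, cd m = cd n := ⟨n, rfl⟩
  rw [ci, dif_pos h, cd_inj h.choose_spec]

theorem ci_omega (x : ZFSet.{0}) : ci x ∈ omega := by
  rw [ci]
  split_ifs with h
  · exact nz_mem_omega _
  · exact nz_mem_omega 0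

theorem cdg_ci {x : ZFSet.{0}} (h : x ∈ HF) : app cdg (ci x) = x := by
  obtain ⟨n, rfl⟩ := mem_HF_cd.1 h
  rw [ci_cd, app_cdg]

theorem cdg_HF {n : ZFSet.{0}} (h : n ∈ omega) : app cdg n ∈ HF := by
  obtain ⟨k, rfl⟩ := mem_omega.1 h
  rw [app_cdg]
  exact mem_HF_cd.2 ⟨k, rfl⟩

theorem ci_cdg {n : ZFSet.{0}} (h : n ∈ omega) : ci (app cdg n) = n := by
  obtain ⟨k, rfl⟩ := mem_omega.1 h
  rw [app_cdg, ci_cd]

theorem ci_inj {x y : ZFSet.{0}} (hx : x ∈ HF) (hy : y ∈ HF) (h : ci x = ci y) : x = y := by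
  rw [← cdg_ci hx, ← cdg_ci hy, h]

theorem UF.ci (hf : UF f) : UF (fun N v => H83.AC.ci (f N v)) := by
  have h1 : UF (fun N v => (⋃₀ (ZFSet.sep (fun n => ZFSet.pair n (f N v) ∈ H83.AC.cdg)
      ZFSet.omega) : ZFSet)) := by
    infer_instance
  refine h1.congr fun N _ v _ => ?_
  by_cases hx : ∃ n, cd n = f N v
  · obtain ⟨n, hn⟩ := hx
    rw [← hn, ci_cd]
    ext z
    rw [mem_sUnion]
    constructor
    · intro hz
      exact ⟨H83.AC.nz n, mem_sep.2 ⟨nz_mem_omega n, mem_cdg.2 ⟨n, rfl⟩⟩, hz⟩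
    · rintro ⟨y, hy, hz⟩
      obtain ⟨m, hm⟩ := mem_cdg.1 (mem_sep.1 hy).2
      obtain ⟨rfl, h2⟩ := pair_inj.1 hm
      rw [cd_inj h2]
      exact hz
  · rw [H83.AC.ci, dif_neg hx]
    symm
    rw [eq_empty]
    intro z hz
    obtain ⟨y, hy, -⟩ := mem_sUnion.1 hz
    obtain ⟨m, hm⟩ := mem_cdg.1 (mem_sep.1 hy).2
    exact hx ⟨m, (pair_inj.1 hm).2.symm⟩

theorem fc_inj {χ ψ : Fml} : fc χ = fc ψ ↔ χ = ψ := by
  rw [fc, fc, nz_inj]
  exact ((exists_injective_nat Fml).choose_spec).eq_iff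

theorem fc_omega (χ : Fml) : fc χ ∈ omega := by
  exact nz_mem_omega _

theorem fc_HF (χ : Fml) : fc χ ∈ HF := by
  exact HF_nz _

theorem tg_HF {n : ℕ} {u : ZFSet.{0}} (h : u ∈ HF) : tg n u ∈ HF := by
  exact HF_pair (HF_nz n) h

theorem ts_HF {χ : Fml} {t : ZFSet.{0}} (h : t ∈ HF) : ts χ t ∈ HF := by
  exact tg_HF (HF_pair (fc_HF χ) h)

theorem tx_HF {i j : ZFSet.{0}} (hi : i ∈ HF) (hj : j ∈ HF) : tx i j ∈ HF := by
  exact tg_HF (HF_pair hi hj)

theorem te_HF : te ∈ HF := by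
  exact tg_HF HF_empty

theorem UF.tg (n : ℕ) (hf : UF f) : UF (fun N v => H83.AC.tg n (f N v)) := by
  exact (UF.nz n).pair hf

instance Inst.nth (i : ℕ) [hf : UF f] : UF (fun N v => H83.AC.nth i (f N v)) := UF.nth i hf
instance Inst.tups (n : ℕ) [hf : UF f] : UF (fun N v => H83.AC.tups (f N v) n) := UF.tups n hf
instance Inst.ci [hf : UF f] : UF (fun N v => H83.AC.ci (f N v)) := UF.ci hf
instance Inst.tg (n : ℕ) [hf : UF f] : UF (fun N v => H83.AC.tg n (f N v)) := UF.tg n hf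
instance Inst.fc (χ : Fml) : UF (fun _ _ => H83.AC.fc χ) := UF.nz _

end H83.AC
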