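import Pool.Agent.H83.AC.LoB

/-!
# Module OpLL: the constructible universe is closed under the operations

First `{x, y} ∈ LL` (operation `0`: if `x, y ∈ Lo α` then `{x, y} ⊆ Lo α`), so `pair x y ∈ LL`.
`fst t`, `snd t ∈ LL` for `t ∈ LL` (`∅` or an element of an element of `t`; `LL` transitive).
Then for each `i`, all elements of `op i x y` are in `LL`, so `op i x y ⊆ Lo α` for a large `α`
with `x, y ∈ Lo α` (`exists_Lo`, `Lo_mono`), hence `op i x y ∈ LL` by `op_mem_Lo`.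
The other statements are instances (`i = 1`: `x \ y`; intersection `x \ (x \ y)`).
-/

namespace H83.AC

open ZFSet

/-- if all elements of `op i x y` are constructible, so is `op i x y` -/
private theorem OpLL_key {i : ℕ} (hi : i < 10) {x y : ZFSet.{0}} (hx : x ∈ LL) (hy : y ∈ LL)
    (h : ∀ z ∈ op i x y, z ∈ LL) : op i x y ∈ LL := by
  obtain ⟨α, hα⟩ := hx
  obtain ⟨β, hβ⟩ := hy
  obtain ⟨γ, hγ, hs⟩ := exists_Lo (op i x y) h (max α β)
  exact ⟨Order.succ γ, op_mem_Lo (Order.lt_succ γ) hi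
    (Or.inl (Lo_mono ((le_max_left α β).trans hγ) hα))
    (Or.inl (Lo_mono ((le_max_right α β).trans hγ) hβ)) hs⟩

theorem upair_LL {x y : ZFSet.{0}} (hx : x ∈ LL) (hy : y ∈ LL) : ({x, y} : ZFSet) ∈ LL := by
  have h0 : op 0 x y = ({x, y} : ZFSet) := if_pos rfl
  rw [← h0]
  refine OpLL_key (by norm_num) hx hy fun z hz => ?_
  rw [h0, ZFSet.mem_pair] at hz
  rcases hz with rfl | rfl
  · exact hx
  · exact hy

private theorem single_LL {x : ZFSet.{0}} (hx : x ∈ LL) : ({x} : ZFSet) ∈ LL := by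
  have := upair_LL hx hx
  rwa [pair_eq_singleton] at this

theorem pair_LL {x y : ZFSet.{0}} (hx : x ∈ LL) (hy : y ∈ LL) : pair x y ∈ LL :=
  upair_LL (single_LL hx) (upair_LL hx hy)

theorem empty_LL : (∅ : ZFSet) ∈ LL := by
  have h0 : Lo 0 = (∅ : ZFSet) := by
    rw [ZFSet.eq_empty]
    intro z hz
    obtain ⟨β, hβ, -⟩ := mem_Lo.1 hz
    exact absurd hβ (not_lt_bot : ¬ β < ⊥)
  rw [← h0]
  exact Lo_mem_LL 0

private theorem left_LL {x y : ZFSet.{0}} (h : pair x y ∈ LL) : x ∈ LL := by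
  have h1 : ({x} : ZFSet) ∈ pair x y := by rw [pair]; simp
  exact LL_tr _ (LL_tr _ h _ h1) x (by simp)

private theorem right_LL {x y : ZFSet.{0}} (h : pair x y ∈ LL) : y ∈ LL := by
  have h1 : ({x, y} : ZFSet) ∈ pair x y := by rw [pair]; simp
  exact LL_tr _ (LL_tr _ h _ h1) y (by simp)

private theorem fst_LL {t : ZFSet.{0}} (ht : t ∈ LL) : fst t ∈ LL := by
  by_cases h : ∃ x y, t = pair x y
  · obtain ⟨x, y, rfl⟩ := h
    rw [fst_pair]
    exact left_LL ht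
  · have h0 : fst t = ∅ := by
      rw [ZFSet.eq_empty]
      intro z hz
      simp only [fst, mem_sUnion, mem_sep] at hz
      obtain ⟨x, ⟨-, y, -, hxy⟩, -⟩ := hz
      exact h ⟨x, y, hxy⟩
    rw [h0]
    exact empty_LL

private theorem snd_LL {t : ZFSet.{0}} (ht : t ∈ LL) : snd t ∈ LL := by
  by_cases h : ∃ x y, t = pair x y
  · obtain ⟨x, y, rfl⟩ := h
    rw [snd_pair]
    exact right_LL ht
  · have h0 : snd t = ∅ := by
      rw [ZFSet.eq_empty]
      intro z hz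
      simp only [snd, mem_sUnion, mem_sep] at hz
      obtain ⟨y, ⟨-, x, -, hxy⟩, -⟩ := hz
      exact h ⟨x, y, hxy⟩
    rw [h0]
    exact empty_LL

private theorem prod_el {x y z : ZFSet.{0}} (hx : x ∈ LL) (hy : y ∈ LL)
    (hz : z ∈ ZFSet.prod x y) : z ∈ LL := by
  rw [mem_prod] at hz
  obtain ⟨a, ha, b, hb, rfl⟩ := hz
  exact pair_LL (LL_tr _ hx a ha) (LL_tr _ hy b hb)

theorem op_LL {i : ℕ} (hi : i < 10) {x y : ZFSet.{0}} (hx : x ∈ LL) (hy : y ∈ LL) :
    op i x y ∈ LL := by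
  refine OpLL_key hi hx hy fun z hz => ?_
  unfold op at hz
  split_ifs at hz with h0 h1 h2 h3 h4 h5 h6 h7 h8
  · rw [ZFSet.mem_pair] at hz
    rcases hz with rfl | rfl
    · exact hx
    · exact hy
  · rw [ZFSet.mem_sdiff] at hz
    exact LL_tr _ hx z hz.1
  · exact prod_el hx hy hz
  · exact prod_el hx hy (mem_sep.1 hz).1
  · exact prod_el hx hy (mem_sep.1 hz).1
  · exact prod_el hx hy (mem_sep.1 hz).1
  · simp only [mem_uni, mem_img] at hz
    obtain ⟨t, ht, s, hs, rfl⟩ := hz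
    have h1 := LL_tr _ hx t ht
    exact pair_LL (fst_LL h1) (pair_LL (snd_LL h1) (LL_tr _ hy s hs))
  · simp only [mem_uni, mem_img] at hz
    obtain ⟨t, ht, s, hs, rfl⟩ := hz
    have h1 := LL_tr _ hx t ht
    exact pair_LL (fst_LL h1) (pair_LL (LL_tr _ hy s hs) (snd_LL h1))
  · obtain ⟨w, hw⟩ := mem_rng.1 hz
    exact right_LL (LL_tr _ hx _ hw)
  · obtain ⟨w, hw⟩ := mem_dom.1 hz
    exact left_LL (LL_tr _ hx _ hw)

theorem diff_LL {x y : ZFSet.{0}} (hx : x ∈ LL) (hy : y ∈ LL) : x \ y ∈ LL :=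
  op_LL (i := 1) (by norm_num) hx hy

theorem inter_LL {x y : ZFSet.{0}} (hx : x ∈ LL) (hy : y ∈ LL) : x ∩ y ∈ LL := by
  have h : x ∩ y = x \ (x \ y) := by
    ext z
    rw [ZFSet.mem_inter, ZFSet.mem_sdiff, ZFSet.mem_sdiff]
    tauto
  rw [h]
  exact diff_LL hx (diff_LL hx hy)

theorem prod_LL {x y : ZFSet.{0}} (hx : x ∈ LL) (hy : y ∈ LL) : ZFSet.prod x y ∈ LL :=
  op_LL (i := 2) (by norm_num) hx hy

end H83.AC
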