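import Pool.Agent.H83.AC.Eng

/-!
# Basic operations in transitive models of ZF
-/

namespace H83.AC

open ZFSet

/-! ### Honest operations -/

/-- the image of the set `a` under `f` -/
noncomputable def img (f : ZFSet.{0} → ZFSet.{0}) (a : ZFSet.{0}) : ZFSet.{0} :=
  ZFSet.range (fun y : a => f y)

@[simp] theorem mem_img {f : ZFSet.{0} → ZFSet.{0}} {a z : ZFSet.{0}} :
    z ∈ img f a ↔ ∃ y ∈ a, f y = z := by
  simp [img]

theorem img_congr {f g : ZFSet.{0} → ZFSet.{0}} {a : ZFSet.{0}} (h : ∀ y ∈ a, f y = g y) :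
    img f a = img g a := by
  ext z; simp only [mem_img]
  exact exists_congr fun y => and_congr_right fun hy => by rw [h y hy]

/-- `⋃_{y ∈ a} f y` -/
noncomputable def uni (f : ZFSet.{0} → ZFSet.{0}) (a : ZFSet.{0}) : ZFSet.{0} := ⋃₀ (img f a)

@[simp] theorem mem_uni {f : ZFSet.{0} → ZFSet.{0}} {a z : ZFSet.{0}} :
    z ∈ uni f a ↔ ∃ y ∈ a, z ∈ f y := by
  simp only [uni, mem_sUnion, mem_img]
  constructor
  · rintro ⟨_, ⟨y, hy, rfl⟩, h⟩; exact ⟨y, hy, h⟩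
  · rintro ⟨y, hy, h⟩; exact ⟨_, ⟨y, hy, rfl⟩, h⟩

theorem uni_congr {f g : ZFSet.{0} → ZFSet.{0}} {a : ZFSet.{0}} (h : ∀ y ∈ a, f y = g y) :
    uni f a = uni g a := by
  rw [uni, uni, img_congr h]

/-- the graph `{(y, g y) : y ∈ a}` -/
noncomputable def fgr (g : ZFSet.{0} → ZFSet.{0}) (a : ZFSet.{0}) : ZFSet.{0} :=
  img (fun y => pair y (g y)) a

theorem mem_fgr {g : ZFSet.{0} → ZFSet.{0}} {a z : ZFSet.{0}} :
    z ∈ fgr g a ↔ ∃ y ∈ a, pair y (g y) = z := by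
  simp [fgr]

theorem pair_mem_fgr {g : ZFSet.{0} → ZFSet.{0}} {a y z : ZFSet.{0}} :
    pair y z ∈ fgr g a ↔ y ∈ a ∧ z = g y := by
  simp only [mem_fgr, pair_inj]
  constructor
  · rintro ⟨x, hx, rfl, rfl⟩; exact ⟨hx, rfl⟩
  · rintro ⟨h, rfl⟩; exact ⟨y, h, rfl, rfl⟩

theorem fgr_congr {g h : ZFSet.{0} → ZFSet.{0}} {a : ZFSet.{0}} (e : ∀ y ∈ a, g y = h y) :
    fgr g a = fgr h a := img_congr fun y hy => by rw [e y hy]

theorem fst_mem_ssU {x y f : ZFSet.{0}} (h : pair x y ∈ f) : x ∈ (⋃₀ (⋃₀ f : ZFSet) : ZFSet) := by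
  rw [mem_sUnion]
  refine ⟨{x}, ?_, by simp⟩
  rw [mem_sUnion]
  exact ⟨_, h, by rw [pair]; simp⟩

theorem snd_mem_ssU {x y f : ZFSet.{0}} (h : pair x y ∈ f) : y ∈ (⋃₀ (⋃₀ f : ZFSet) : ZFSet) := by
  rw [mem_sUnion]
  refine ⟨{x, y}, ?_, by simp⟩
  rw [mem_sUnion]
  exact ⟨_, h, by rw [pair]; simp⟩

/-- the value of the function `f` at `x` (the union of all `y` with `(x, y) ∈ f`) -/
noncomputable def app (f x : ZFSet.{0}) : ZFSet.{0} :=
  ⋃₀ (ZFSet.sep (fun y => pair x y ∈ f) (⋃₀ (⋃₀ f : ZFSet)))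

theorem app_eq {f x y : ZFSet.{0}} (h : pair x y ∈ f) (hu : ∀ z, pair x z ∈ f → z = y) :
    app f x = y := by
  ext w
  simp only [app, mem_sUnion, mem_sep]
  constructor
  · rintro ⟨z, ⟨-, hz⟩, hw⟩; rwa [hu z hz] at hw
  · intro hw; exact ⟨y, ⟨by simpa using snd_mem_ssU h, h⟩, hw⟩

theorem app_fgr {g : ZFSet.{0} → ZFSet.{0}} {a y : ZFSet.{0}} (h : y ∈ a) :
    app (fgr g a) y = g y :=
  app_eq (pair_mem_fgr.2 ⟨h, rfl⟩) fun _ hz => (pair_mem_fgr.1 hz).2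

/-- domain of a relation -/
noncomputable def dom (f : ZFSet.{0}) : ZFSet.{0} :=
  ZFSet.sep (fun x => ∃ y ∈ (⋃₀ (⋃₀ f : ZFSet) : ZFSet), pair x y ∈ f) (⋃₀ (⋃₀ f : ZFSet))

/-- range of a relation -/
noncomputable def rng (f : ZFSet.{0}) : ZFSet.{0} :=
  ZFSet.sep (fun y => ∃ x ∈ (⋃₀ (⋃₀ f : ZFSet) : ZFSet), pair x y ∈ f) (⋃₀ (⋃₀ f : ZFSet))

theorem mem_dom {f x : ZFSet.{0}} : x ∈ dom f ↔ ∃ y, pair x y ∈ f := by
  simp only [dom, mem_sep]
  constructor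
  · rintro ⟨-, y, -, h⟩; exact ⟨y, h⟩
  · rintro ⟨y, h⟩; exact ⟨fst_mem_ssU h, y, snd_mem_ssU h, h⟩

theorem mem_rng {f y : ZFSet.{0}} : y ∈ rng f ↔ ∃ x, pair x y ∈ f := by
  simp only [rng, mem_sep]
  constructor
  · rintro ⟨-, x, -, h⟩; exact ⟨x, h⟩
  · rintro ⟨x, h⟩; exact ⟨snd_mem_ssU h, x, fst_mem_ssU h, h⟩

theorem dom_fgr {g : ZFSet.{0} → ZFSet.{0}} {a : ZFSet.{0}} : dom (fgr g a) = a := by
  ext x; simp [mem_dom, pair_mem_fgr]

/-- first component of an ordered pair -/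
noncomputable def fst (t : ZFSet.{0}) : ZFSet.{0} :=
  ⋃₀ (ZFSet.sep (fun x => ∃ y ∈ (⋃₀ t : ZFSet), t = pair x y) (⋃₀ t))

/-- second component of an ordered pair -/
noncomputable def snd (t : ZFSet.{0}) : ZFSet.{0} :=
  ⋃₀ (ZFSet.sep (fun y => ∃ x ∈ (⋃₀ t : ZFSet), t = pair x y) (⋃₀ t))

@[simp] theorem fst_pair (x y : ZFSet.{0}) : fst (pair x y) = x := by
  ext w
  simp only [fst, mem_sUnion, mem_sep, pair_inj]
  constructor
  · rintro ⟨z, ⟨-, y', -, rfl, -⟩, hw⟩; exact hw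
  · intro hw
    exact ⟨x, ⟨⟨{x}, by rw [pair]; simp, by simp⟩, y, ⟨{x, y}, by rw [pair]; simp, by simp⟩,
      rfl, rfl⟩, hw⟩

@[simp] theorem snd_pair (x y : ZFSet.{0}) : snd (pair x y) = y := by
  ext w
  simp only [snd, mem_sUnion, mem_sep, pair_inj]
  constructor
  · rintro ⟨z, ⟨-, y', -, -, rfl⟩, hw⟩; exact hw
  · intro hw
    exact ⟨y, ⟨⟨{x, y}, by rw [pair]; simp, by simp⟩, x, ⟨{x, y}, by rw [pair]; simp, by simp⟩,
      rfl, rfl⟩, hw⟩

/-! ### Closure of transitive models of ZF -/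

section TM

variable {N : Set ZFSet.{0}}

theorem TM.ext (hN : TM N) {a b : ZFSet.{0}} (ha : a ∈ N) (hb : ∀ x ∈ b, x ∈ N)
    (h : ∀ x ∈ N, x ∈ a ↔ x ∈ b) : a = b := by
  ext x
  constructor
  · intro hx; exact (h x (hN.tr a ha x hx)).1 hx
  · intro hx; exact (h x (hb x hx)).2 hx

theorem TM.upair (hN : TM N) {a b : ZFSet.{0}} (ha : a ∈ N) (hb : b ∈ N) :
    ({a, b} : ZFSet) ∈ N := by
  obtain ⟨z, hz⟩ := hN.zf.pairing ⟨a, ha⟩ ⟨b, hb⟩
  have : (z : ZFSet) = {a, b} := by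
    refine hN.ext z.2 ?_ ?_
    · intro x hx; simp only [ZFSet.mem_pair] at hx; rcases hx with rfl | rfl <;> assumption
    · intro x hx
      have := hz ⟨x, hx⟩
      simp only [memN, Subtype.ext_iff] at this
      rw [this, ZFSet.mem_pair]
  rw [← this]; exact z.2

theorem TM.singleton (hN : TM N) {a : ZFSet.{0}} (ha : a ∈ N) : ({a} : ZFSet) ∈ N := by
  have := hN.upair ha ha
  rwa [pair_eq_singleton] at this

theorem TM.pair (hN : TM N) {a b : ZFSet.{0}} (ha : a ∈ N) (hb : b ∈ N) :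
    ZFSet.pair a b ∈ N := hN.upair (hN.singleton ha) (hN.upair ha hb)

theorem TM.sUnion (hN : TM N) {a : ZFSet.{0}} (ha : a ∈ N) : (⋃₀ a : ZFSet) ∈ N := by
  obtain ⟨z, hz⟩ := hN.zf.union ⟨a, ha⟩
  have : (z : ZFSet) = ⋃₀ a := by
    refine hN.ext z.2 ?_ ?_
    · intro x hx
      obtain ⟨y, hy, hx⟩ := mem_sUnion.1 hx
      exact hN.tr y (hN.tr a ha y hy) x hx
    · intro x hx
      refine (hz ⟨x, hx⟩).trans ?_
      rw [mem_sUnion]
      constructor
      · rintro ⟨y, hy, h⟩; exact ⟨y, hy, h⟩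
      · rintro ⟨y, hy, h⟩; exact ⟨⟨y, hN.tr a ha y hy⟩, hy, h⟩
  rw [← this]; exact z.2

theorem TM.union (hN : TM N) {a b : ZFSet.{0}} (ha : a ∈ N) (hb : b ∈ N) : a ∪ b ∈ N := by
  have := hN.sUnion (hN.upair ha hb)
  convert this using 1
  ext x; simp

theorem TM.insert (hN : TM N) {a b : ZFSet.{0}} (ha : a ∈ N) (hb : b ∈ N) :
    (Insert.insert a b : ZFSet) ∈ N := by
  have := hN.union (hN.singleton ha) hb
  convert this using 1
  ext x; simp

theorem TM.sep_of {R : Set ZFSet.{0} → ZFSet.{0} → (ℕ → ZFSet.{0}) → Prop}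
    (h : UR (fun N v => R N (v 0) (sh v))) (hN : TM N) {v : ℕ → ZFSet.{0}} (hv : ∀ n, v n ∈ N)
    {a : ZFSet.{0}} (ha : a ∈ N) : ZFSet.sep (fun x => R N x v) a ∈ N := by
  obtain ⟨⟨φ, hφ⟩⟩ := h
  obtain ⟨z, hz⟩ := hN.zf.separation φ (fun n => ⟨v n, hv n⟩) ⟨a, ha⟩
  have : (z : ZFSet) = ZFSet.sep (fun x => R N x v) a := by
    refine hN.ext z.2 ?_ ?_
    · intro x hx; exact hN.tr a ha x (mem_sep.1 hx).1
    · intro x hx
      refine (hz ⟨x, hx⟩).trans ?_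
      rw [mem_sep]
      exact and_congr Iff.rfl (hφ N hN (cons ⟨x, hx⟩ (fun n => ⟨v n, hv n⟩))).symm
  rw [← this]; exact z.2

theorem TM.img_of {F : Set ZFSet.{0} → ZFSet.{0} → (ℕ → ZFSet.{0}) → ZFSet.{0}}
    (h : UF (fun N v => F N (v 0) (sh v))) (hN : TM N) {v : ℕ → ZFSet.{0}} (hv : ∀ n, v n ∈ N)
    {a : ZFSet.{0}} (ha : a ∈ N) : img (fun x => F N x v) a ∈ N := by
  obtain ⟨⟨φ, hφ⟩⟩ := h.rel.ren (fun n => if n = 0 then 1 else if n = 1 then 0 else n)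
  have hm : ∀ x ∈ N, F N x v ∈ N := fun x hx => h.mem N hN (cons x v) (fun n => by
    cases n with
    | zero => exact hx
    | succ n => exact hv n)
  have key : ∀ (x w : N), Sat (memN N) φ (cons x (cons w (fun n => ⟨v n, hv n⟩))) ↔
      (w : ZFSet) = F N x v := by
    intro x w
    rw [← hφ N hN]
    have e : (sh (sh fun n : ℕ => ((cons x (cons w fun n => ⟨v n, hv n⟩)
        (if n = 0 then 1 else if n = 1 then 0 else n) : N) : ZFSet))) = v := by
      funext n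
      simp
    constructor
    · intro H
      rw [← e]
      exact H
    · intro H
      change (w : ZFSet) = F N x _
      rw [e]
      exact H
  obtain ⟨z, hz⟩ := hN.zf.replacement φ (fun n => ⟨v n, hv n⟩) ⟨a, ha⟩ (fun x _ =>
    ⟨⟨_, hm x x.2⟩, (key _ _).2 rfl, fun w hw => Subtype.ext ((key _ _).1 hw)⟩)
  have : (z : ZFSet) = img (fun x => F N x v) a := by
    refine hN.ext z.2 ?_ ?_
    · intro x hx
      obtain ⟨y, hy, rfl⟩ := mem_img.1 hx
      exact hm y (hN.tr a ha y hy)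
    · intro x hx
      refine (hz ⟨x, hx⟩).trans ?_
      rw [mem_img]
      constructor
      · rintro ⟨y, hy, h⟩; exact ⟨y, hy, ((key _ _).1 h).symm⟩
      · rintro ⟨y, hy, rfl⟩; exact ⟨⟨y, hN.tr a ha y hy⟩, hy, (key _ _).2 rfl⟩
  rw [← this]; exact z.2

theorem TM.pow_of (hN : TM N) {a : ZFSet.{0}} (ha : a ∈ N) :
    ZFSet.sep (fun x => x ∈ N) (powerset a) ∈ N := by
  obtain ⟨z, hz⟩ := hN.zf.powerset ⟨a, ha⟩
  have : (z : ZFSet) = ZFSet.sep (fun x => x ∈ N) (powerset a) := by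
    refine hN.ext z.2 ?_ ?_
    · intro x hx; exact (mem_sep.1 hx).2
    · intro x hx
      refine (hz ⟨x, hx⟩).trans ?_
      rw [mem_sep, mem_powerset]
      constructor
      · intro H; exact ⟨fun y hy => H ⟨y, hN.tr x hx y hy⟩ hy, hx⟩
      · rintro ⟨H, -⟩ y hy; exact H hy
  rw [← this]; exact z.2

end TM

/-! ### Rules for definable relations -/

section UR

variable {f g h k : Set ZFSet.{0} → (ℕ → ZFSet.{0}) → ZFSet.{0}}

theorem UR.mem (hf : UF f) (hg : UF g) : UR (fun N v => f N v ∈ g N v) :=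
  UR.comp2 (R := fun _ x y => x ∈ y) (UD.mem 0 1) hf hg

theorem UR.eq (hf : UF f) (hg : UF g) : UR (fun N v => f N v = g N v) :=
  UR.comp2 (R := fun _ x y => x = y) (UD.eq 0 1) hf hg

theorem UR.ball {R : Set ZFSet.{0} → ZFSet.{0} → (ℕ → ZFSet.{0}) → Prop} (hf : UF f)
    (h : UR (fun N v => R N (v 0) (sh v))) : UR (fun N v => ∀ x ∈ f N v, R N x v) := by
  have h1 : UR (fun N v => v 0 ∈ f N (sh v) → R N (v 0) (sh v)) :=
    (UR.mem (UF.var 0) hf.shift).imp h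
  refine (UD.allN (R := fun N x v => x ∈ f N v → R N x v) h1).congr fun N hN v hv => ?_
  constructor
  · intro H x _ hx; exact H x hx
  · intro H x hx; exact H x (hN.tr _ (hf.mem N hN v hv) x hx) hx

theorem UR.bex {R : Set ZFSet.{0} → ZFSet.{0} → (ℕ → ZFSet.{0}) → Prop} (hf : UF f)
    (h : UR (fun N v => R N (v 0) (sh v))) : UR (fun N v => ∃ x ∈ f N v, R N x v) :=
  (UR.ball (R := fun N x v => ¬ R N x v) hf h.not).not.congr fun N _ v _ => by push Not; rfl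

theorem UR.sub (hf : UF f) (hg : UF g) : UR (fun N v => f N v ⊆ g N v) :=
  (UR.ball (R := fun N x v => x ∈ g N v) hf (UR.mem (UF.var 0) hg.shift)).congr
    fun _ _ _ _ => Iff.rfl

end UR

/-! ### Rules for definable functions -/

namespace UF

variable {f g h k : Set ZFSet.{0} → (ℕ → ZFSet.{0}) → ZFSet.{0}}

/-- a set-valued function is definable if the relation `x ∈ f N v` is -/
theorem of_mem (hm : ∀ N, TM N → ∀ v : ℕ → ZFSet, (∀ n, v n ∈ N) → f N v ∈ N)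
    (hr : UR (fun N v => v 0 ∈ f N (sh v))) : UF f := by
  refine ⟨hm, ?_⟩
  have h1 : UR (fun N v => ∀ x ∈ N, x ∈ v 0 ↔ x ∈ f N (sh v)) := by
    refine UD.allN (R := fun N x v => x ∈ v 0 ↔ x ∈ f N (sh v)) ?_
    refine UD.iff (UD.mem 0 1) ?_
    exact (hr.ren (lift Nat.succ)).congr fun N _ v _ => Iff.rfl
  refine h1.congr fun N hN v hv => ?_
  constructor
  · intro e x _; rw [e]
  · intro H
    exact hN.ext (hv 0) (fun x hx => hN.tr _ (hm N hN (sh v) fun n => hv (n + 1)) x hx) H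

theorem upair (hf : UF f) (hg : UF g) : UF (fun N v => ({f N v, g N v} : ZFSet)) := by
  refine UF.comp2 (F := fun _ x y => ({x, y} : ZFSet)) ?_ hf hg
  refine of_mem (fun N hN v hv => hN.upair (hv 0) (hv 1)) ?_
  exact ((UD.eq 0 1).or (UD.eq 0 2)).congr fun N _ v _ => by simp

theorem singleton (hf : UF f) : UF (fun N v => ({f N v} : ZFSet)) :=
  (upair hf hf).congr fun N _ v _ => (pair_eq_singleton _).symm

theorem pair (hf : UF f) (hg : UF g) : UF (fun N v => ZFSet.pair (f N v) (g N v)) :=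
  (upair (singleton hf) (upair hf hg)).congr fun N _ v _ => rfl

theorem sUnion (hf : UF f) : UF (fun N v => (⋃₀ (f N v) : ZFSet)) := by
  refine UF.comp1 (F := fun _ x => (⋃₀ x : ZFSet)) ?_ hf
  refine of_mem (fun N hN v hv => hN.sUnion (hv 0)) ?_
  refine (UD.bex' (R := fun _ x v => v 0 ∈ x) 1 (UD.mem 1 0)).congr fun N _ v _ => ?_
  simp only [sh_apply, mem_sUnion]

theorem sep {R : Set ZFSet.{0} → ZFSet.{0} → (ℕ → ZFSet.{0}) → Prop} (hf : UF f)
    (h : UR (fun N v => R N (v 0) (sh v))) :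
    UF (fun N v => ZFSet.sep (fun x => R N x v) (f N v)) := by
  refine of_mem (fun N hN v hv => hN.sep_of h hv (hf.mem N hN v hv)) ?_
  exact ((UR.mem (UF.var 0) hf.shift).and h).congr fun N _ v _ => by rw [mem_sep]

theorem img {F : Set ZFSet.{0} → ZFSet.{0} → (ℕ → ZFSet.{0}) → ZFSet.{0}} (hf : UF f)
    (hF : UF (fun N v => F N (v 0) (sh v))) :
    UF (fun N v => H83.AC.img (fun x => F N x v) (f N v)) := by
  refine of_mem (fun N hN v hv => hN.img_of hF hv (hf.mem N hN v hv)) ?_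
  have h1 : UR (fun N v => ∃ x ∈ f N (sh v), F N x (sh v) = v 0) := by
    refine UR.bex (R := fun N x v => F N x (sh v) = v 0) hf.shift ?_
    exact UR.eq (hF.ren (lift Nat.succ)) (UF.var 1)
  exact h1.congr fun N _ v _ => by rw [mem_img]

theorem uni {F : Set ZFSet.{0} → ZFSet.{0} → (ℕ → ZFSet.{0}) → ZFSet.{0}} (hf : UF f)
    (hF : UF (fun N v => F N (v 0) (sh v))) :
    UF (fun N v => H83.AC.uni (fun x => F N x v) (f N v)) := (img hf hF).sUnion

theorem fgr {F : Set ZFSet.{0} → ZFSet.{0} → (ℕ → ZFSet.{0}) → ZFSet.{0}} (hf : UF f)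
    (hF : UF (fun N v => F N (v 0) (sh v))) :
    UF (fun N v => H83.AC.fgr (fun x => F N x v) (f N v)) :=
  img (F := fun N x v => ZFSet.pair x (F N x v)) hf (pair (UF.var 0) hF)

/-- the power set in the sense of `N` -/
theorem pow (hf : UF f) : UF (fun N v => ZFSet.sep (fun x => x ∈ N) (powerset (f N v))) := by
  refine UF.comp1 (F := fun N x => ZFSet.sep (fun y => y ∈ N) (powerset x)) ?_ hf
  refine of_mem (fun N hN v hv => hN.pow_of (hv 0)) ?_
  refine (UR.sub (UF.var 0) (UF.var 1)).congr fun N _ v hv => ?_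
  rw [mem_sep, mem_powerset]
  exact ⟨fun H => H.1, fun H => ⟨H, hv 0⟩⟩

theorem union (hf : UF f) (hg : UF g) : UF (fun N v => f N v ∪ g N v) :=
  (upair hf hg).sUnion.congr fun N _ v _ => by ext x; simp

theorem insert (hf : UF f) (hg : UF g) : UF (fun N v => (Insert.insert (f N v) (g N v) : ZFSet)) :=
  (union (singleton hf) hg).congr fun N _ v _ => by ext x; simp

theorem inter (hf : UF f) (hg : UF g) : UF (fun N v => f N v ∩ g N v) :=
  (sep (R := fun N x v => x ∈ g N v) hf (UR.mem (UF.var 0) hg.shift)).congr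
    fun N _ v _ => by ext x; simp

theorem diff (hf : UF f) (hg : UF g) : UF (fun N v => f N v \ g N v) :=
  (sep (R := fun N x v => x ∉ g N v) hf (UR.mem (UF.var 0) hg.shift).not).congr
    fun N _ v _ => by ext x; simp

theorem prod (hf : UF f) (hg : UF g) : UF (fun N v => ZFSet.prod (f N v) (g N v)) := by
  have h1 : UF (fun N v => H83.AC.uni (fun x => H83.AC.img (fun y => ZFSet.pair x y) (g N v))
      (f N v)) := by
    refine uni (F := fun N x v => H83.AC.img (fun y => ZFSet.pair x y) (g N v)) hf ?_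
    exact img (F := fun N y v => ZFSet.pair (v 0) y) hg.shift (pair (UF.var 1) (UF.var 0))
  refine h1.congr fun N _ v _ => ?_
  ext z
  simp only [mem_prod, mem_uni, mem_img]
  constructor
  · rintro ⟨a, ha, b, hb, rfl⟩; exact ⟨a, ha, b, hb, rfl⟩
  · rintro ⟨a, ha, b, hb, rfl⟩; exact ⟨a, ha, b, hb, rfl⟩

theorem empty : UF (fun _ _ => (∅ : ZFSet)) :=
  (sep (R := fun _ _ _ => False) (UF.var 0) UD.false).congr fun N _ v _ => by ext x; simp

theorem app (hf : UF f) (hg : UF g) : UF (fun N v => H83.AC.app (f N v) (g N v)) :=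
  (sep (R := fun N y v => ZFSet.pair (g N v) y ∈ f N v) hf.sUnion.sUnion
    (UR.mem (pair hg.shift (UF.var 0)) hf.shift)).sUnion

theorem dom (hf : UF f) : UF (fun N v => H83.AC.dom (f N v)) :=
  sep (R := fun N x v => ∃ y ∈ (⋃₀ (⋃₀ (f N v) : ZFSet) : ZFSet), ZFSet.pair x y ∈ f N v)
    hf.sUnion.sUnion (UR.bex (R := fun N y v => ZFSet.pair (v 0) y ∈ f N (sh v))
      hf.shift.sUnion.sUnion (UR.mem (pair (UF.var 1) (UF.var 0)) hf.shift.shift))

theorem rng (hf : UF f) : UF (fun N v => H83.AC.rng (f N v)) :=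
  sep (R := fun N y v => ∃ x ∈ (⋃₀ (⋃₀ (f N v) : ZFSet) : ZFSet), ZFSet.pair x y ∈ f N v)
    hf.sUnion.sUnion (UR.bex (R := fun N x v => ZFSet.pair x (v 0) ∈ f N (sh v))
      hf.shift.sUnion.sUnion (UR.mem (pair (UF.var 0) (UF.var 1)) hf.shift.shift))

theorem fst (hf : UF f) : UF (fun N v => H83.AC.fst (f N v)) :=
  (sep (R := fun N x v => ∃ y ∈ (⋃₀ (f N v) : ZFSet), f N v = ZFSet.pair x y) hf.sUnion
    (UR.bex (R := fun N y v => f N (sh v) = ZFSet.pair (v 0) y) hf.shift.sUnion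
      (UR.eq hf.shift.shift (pair (UF.var 1) (UF.var 0))))).sUnion

theorem snd (hf : UF f) : UF (fun N v => H83.AC.snd (f N v)) :=
  (sep (R := fun N y v => ∃ x ∈ (⋃₀ (f N v) : ZFSet), f N v = ZFSet.pair x y) hf.sUnion
    (UR.bex (R := fun N x v => f N (sh v) = ZFSet.pair x (v 0)) hf.shift.sUnion
      (UR.eq hf.shift.shift (pair (UF.var 0) (UF.var 1))))).sUnion

open Classical in
theorem ite {R : Set ZFSet.{0} → (ℕ → ZFSet.{0}) → Prop} (hR : UR R) (hf : UF f) (hg : UF g) :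
    UF (fun N v => if R N v then f N v else g N v) := by
  refine ⟨fun N hN v hv => ?_, ?_⟩
  · split_ifs
    exacts [hf.mem N hN v hv, hg.mem N hN v hv]
  · have h1 : UR (fun N v => (R N (sh v) ∧ v 0 = f N (sh v)) ∨ (¬ R N (sh v) ∧ v 0 = g N (sh v))) :=
      ((hR.ren Nat.succ).and hf.rel).or ((hR.ren Nat.succ).not.and hg.rel)
    refine h1.congr fun N _ v _ => ?_
    by_cases h : R N (sh v) <;> simp [h]

end UF

end H83.AC
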