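import Pool.Agent.H83.AC.HBrU

/-!
# Module PiT: coanalytic sets are given by trees

Let `C` be as in `PI1`. `T` = the set of all `pair s w` with `s, w` functions from some `n ∈ omega` to
`omega` such that some `pair x y ∈ C` has `s ⊆ x` and `w ⊆ y`. It is a subset of `HF` (`fn_fin`) and in
`N` (`TM.sep_of` from `HF`, or `UF.sep`; `C` is a parameter).
If `pair x y ∈ C`, the restrictions `y ∩ prod (nz n) omega` form a chain, so `HBr T x`.
Conversely let `HBr T x`; `HBr_iff` gives a chain `g ∈ N`; `y = ⋃₀ (rng g) ∈ N` is a function from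
`omega` to `omega`: the domains of the `app g n` are natural numbers which strictly increase
(`w ⊂ w'` functions on `nz a`, `nz b` gives `a < b`). If `pair x y ∉ C` let `m` be as in the definition
of `Closed2`, and take a node `w ⊆ y` of length `≥ m`: some `pair x' y' ∈ C` has `s ⊆ x'`, `w ⊆ y'` with
`s ⊆ x`, contradiction.
-/

namespace H83.AC

open ZFSet

/-- the tree of the closed set `C` -/
private noncomputable def PiTree (C : ZFSet.{0}) : ZFSet.{0} :=
  ZFSet.sep (fun t => ∃ n ∈ omega, IsFunc n omega (fst t) ∧ IsFunc n omega (snd t) ∧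
    ∃ c ∈ C, fst t ⊆ fst c ∧ snd t ⊆ snd c) HF

private theorem pair_mem_PiTree {C s w : ZFSet.{0}} :
    pair s w ∈ PiTree C ↔ pair s w ∈ HF ∧ ∃ n ∈ omega, IsFunc n omega s ∧ IsFunc n omega w ∧
      ∃ c ∈ C, s ⊆ fst c ∧ w ⊆ snd c := by
  rw [PiTree, mem_sep, fst_pair, snd_pair]

private theorem PiTree_mem {N : Set ZFSet.{0}} (hN : TM N) {C : ZFSet.{0}} (hC : C ∈ N) :
    PiTree C ∈ N := by
  have hHF : HF ∈ N := UF.HF.mem N hN (fun _ => C) (fun _ => hC)
  refine TM.sep_of (R := fun _ t v => ∃ n ∈ omega, IsFunc n omega (fst t) ∧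
    IsFunc n omega (snd t) ∧ ∃ c ∈ v 0, fst t ⊆ fst c ∧ snd t ⊆ snd c) ?_ hN
    (v := fun _ => C) (fun _ => hC) hHF
  infer_instance

/-- restriction of a real number -/
private theorem fgr_isFunc {y : ZFSet.{0}} (hy : IsFunc omega omega y) (n : ℕ) :
    IsFunc (nz n) omega (fgr (app y) (nz n)) := by
  refine fn_fgr ?_
  intro i hi
  obtain ⟨m, -, rfl⟩ := mem_nz.1 hi
  exact fn_mem hy (nz_mem_omega m)

private theorem fgr_sub {y : ZFSet.{0}} (hy : IsFunc omega omega y) (n : ℕ) :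
    fgr (app y) (nz n) ⊆ y := by
  intro t ht
  obtain ⟨i, hi, rfl⟩ := mem_fgr.1 ht
  obtain ⟨m, -, rfl⟩ := mem_nz.1 hi
  exact fn_app hy (nz_mem_omega m)

private theorem fgr_mono {y : ZFSet.{0}} (n : ℕ) :
    fgr (app y) (nz n) ⊆ fgr (app y) (nz (n + 1)) := by
  intro t ht
  obtain ⟨i, hi, rfl⟩ := mem_fgr.1 ht
  obtain ⟨m, hm, rfl⟩ := mem_nz.1 hi
  exact mem_fgr.2 ⟨nz m, nz_mem_nz.2 (by omega), rfl⟩

private theorem fgr_ne {y : ZFSet.{0}} (n : ℕ) :
    fgr (app y) (nz n) ≠ fgr (app y) (nz (n + 1)) := by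
  intro h
  have h1 : pair (nz n) (app y (nz n)) ∈ fgr (app y) (nz (n + 1)) :=
    pair_mem_fgr.2 ⟨nz_mem_nz.2 (Nat.lt_succ_self n), rfl⟩
  rw [← h] at h1
  exact lt_irrefl n (nz_mem_nz.1 (pair_mem_fgr.1 h1).1)

/-- the two functions agree on the smaller domain -/
private theorem app_of_sub {a b c d w y i : ZFSet.{0}} (hw : IsFunc a b w) (hy : IsFunc c d y)
    (h : w ⊆ y) (hi : i ∈ a) : app w i = app y i :=
  (fn_pair hy (h (fn_app hw hi))).2.2

theorem PI1_tree {N : Set ZFSet.{0}} (hN : TM N) {A : ZFSet.{0}} (h : PI1 N A) :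
    ∃ T ∈ N, T ⊆ HF ∧ ∀ x, Real N x → (x ∈ A ↔ ¬ HBr T x) := by
  obtain ⟨-, C, ⟨hCN, hCr, hCc⟩, hA⟩ := h
  refine ⟨PiTree C, PiTree_mem hN hCN, fun t ht => (mem_sep.1 ht).1, ?_⟩
  intro x hx
  rw [hA x hx]
  constructor
  · -- a branch gives a point of the closed set
    intro hall hbr
    obtain ⟨g, hgN, hg, hgn⟩ := (HBr_iff hN (PiTree_mem hN hCN) hx.1).1 hbr
    -- lengths
    have hlen : ∀ n : ℕ, ∃ l : ℕ, IsFunc (nz l) omega (app g (nz n)) ∧
        ∃ s, s ⊆ x ∧ IsFunc (nz l) omega s ∧ pair s (app g (nz n)) ∈ PiTree C := by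
      intro n
      obtain ⟨⟨l, hl, h1, s, hs, h2, h3⟩, -⟩ := hgn (nz n) (nz_mem_omega n)
      obtain ⟨l, rfl⟩ := mem_omega.1 hl
      exact ⟨l, h1, s, hs, h2, h3⟩
    choose l hl s hs hsl hsT using hlen
    have hsub1 : ∀ n : ℕ, app g (nz n) ⊆ app g (nz (n + 1)) := fun n =>
      (hgn (nz n) (nz_mem_omega n)).2.1
    have hne : ∀ n : ℕ, app g (nz n) ≠ app g (nz (n + 1)) := fun n =>
      (hgn (nz n) (nz_mem_omega n)).2.2
    have hsub : ∀ m n : ℕ, m ≤ n → app g (nz m) ⊆ app g (nz n) := by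
      intro m n hmn
      induction n, hmn using Nat.le_induction with
      | base => exact fun t ht => ht
      | succ n _ ih => exact fun t ht => hsub1 n (ih ht)
    have hlt : ∀ n : ℕ, l n < l (n + 1) := by
      intro n
      by_contra hcon
      push Not at hcon
      refine hne n ?_
      -- equal domains
      have hle : l n ≤ l (n + 1) := by
        by_contra hc
        push Not at hc
        have h1 : nz (l (n + 1)) ∈ nz (l n) := nz_mem_nz.2 hc
        have h2 := hsub1 n (fn_app (hl n) h1)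
        have h3 := (fn_pair (hl (n + 1)) h2).1
        exact lt_irrefl _ (nz_mem_nz.1 h3)
      have heq : l n = l (n + 1) := le_antisymm hle hcon
      have h4 := hl (n + 1)
      rw [← heq] at h4
      exact fn_ext (hl n) h4 fun i hi => app_of_sub (hl n) (hl (n + 1)) (hsub1 n) hi
    have hge : ∀ n : ℕ, n ≤ l n := by
      intro n
      induction n with
      | zero => exact Nat.zero_le _
      | succ n ih => exact (Nat.succ_le_succ ih).trans (hlt n)
    -- the branch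
    set y : ZFSet.{0} := ⋃₀ (rng g) with hydef
    have hyN : y ∈ N := by
      have h1 : UF (fun _ v => (⋃₀ (rng (v 0)) : ZFSet)) := UF.sUnion (UF.rng (UF.var 0))
      exact h1.mem N hN (fun _ => g) (fun _ => hgN)
    have hmy : ∀ t, t ∈ y ↔ ∃ n : ℕ, t ∈ app g (nz n) := by
      intro t
      rw [hydef, mem_sUnion]
      constructor
      · rintro ⟨w, hw, ht⟩
        obtain ⟨i, hi⟩ := mem_rng.1 hw
        obtain ⟨hi1, -, rfl⟩ := fn_pair hg hi
        obtain ⟨n, rfl⟩ := mem_omega.1 hi1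
        exact ⟨n, ht⟩
      · rintro ⟨n, hn⟩
        exact ⟨_, mem_rng.2 ⟨_, fn_app hg (nz_mem_omega n)⟩, hn⟩
    have hyf : IsFunc omega omega y := by
      refine ⟨?_, ?_⟩
      · intro t ht
        obtain ⟨n, hn⟩ := (hmy t).1 ht
        obtain ⟨i, hi, rfl⟩ := fn_elt (hl n) hn
        obtain ⟨m, -, rfl⟩ := mem_nz.1 hi
        exact pair_mem_prod.2 ⟨nz_mem_omega m, fn_mem (hl n) hi⟩
      · intro i hi
        obtain ⟨m, rfl⟩ := mem_omega.1 hi
        have hm : nz m ∈ nz (l (m + 1)) := nz_mem_nz.2 (hge (m + 1))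
        refine ⟨app (app g (nz (m + 1))) (nz m), (hmy _).2 ⟨m + 1, fn_app (hl (m + 1)) hm⟩, ?_⟩
        intro z hz
        obtain ⟨n, hn⟩ := (hmy _).1 hz
        have h1 : pair (nz m) z ∈ app g (nz (max n (m + 1))) := hsub _ _ (le_max_left _ _) hn
        have h2 : pair (nz m) (app (app g (nz (m + 1))) (nz m)) ∈ app g (nz (max n (m + 1))) :=
          hsub _ _ (le_max_right _ _) (fn_app (hl (m + 1)) hm)
        rw [(fn_pair (hl _) h1).2.2, ← (fn_pair (hl _) h2).2.2]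
    have hyR : Real N y := ⟨hyN, hyf⟩
    obtain ⟨m, hm, hm2⟩ := hCc x y hx hyR (hall y hyR)
    obtain ⟨m, rfl⟩ := mem_omega.1 hm
    obtain ⟨-, n, hn, hn1, hn2, c, hc, hc1, hc2⟩ := pair_mem_PiTree.1 (hsT m)
    obtain ⟨x', y', hx', hy', rfl⟩ := hCr c hc
    rw [fst_pair] at hc1
    rw [snd_pair] at hc2
    refine hm2 x' y' hx' hy' ?_ ?_ hc
    · intro i hi
      obtain ⟨j, hj, rfl⟩ := mem_nz.1 hi
      have hjl : nz j ∈ nz (l m) := nz_mem_nz.2 (hj.trans_le (hge m))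
      rw [← app_of_sub (hsl m) hx.2 (hs m) hjl, ← app_of_sub (hsl m) hx'.2 hc1 hjl]
    · intro i hi
      obtain ⟨j, hj, rfl⟩ := mem_nz.1 hi
      have hjl : nz j ∈ nz (l m) := nz_mem_nz.2 (hj.trans_le (hge m))
      have hsy : app g (nz m) ⊆ y := fun t ht => (hmy t).2 ⟨m, ht⟩
      rw [← app_of_sub (hl m) hyf hsy hjl, ← app_of_sub (hl m) hy'.2 hc2 hjl]
  · -- a point of the closed set gives a branch
    intro hbr y hy hxy
    refine hbr ⟨fun n => fgr (app y) (nz n), fun n => ⟨?_, fgr_mono n, fgr_ne n⟩⟩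
    refine ⟨nz n, nz_mem_omega n, fgr_isFunc hy.2 n, fgr (app x) (nz n), fgr_sub hx.2 n,
      fgr_isFunc hx.2 n, ?_⟩
    refine pair_mem_PiTree.2 ⟨HF_pair (fn_fin omega_sub_HF (fgr_isFunc hx.2 n))
      (fn_fin omega_sub_HF (fgr_isFunc hy.2 n)), nz n, nz_mem_omega n, fgr_isFunc hx.2 n,
      fgr_isFunc hy.2 n, pair x y, hxy, ?_, ?_⟩
    · rw [fst_pair]; exact fgr_sub hx.2 n
    · rw [snd_pair]; exact fgr_sub hy.2 n

end H83.AC
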