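import Pool.Agent.H83.AC.Inst

/-!
# Definable recursion in transitive models of ZF
-/

namespace H83.AC

open ZFSet

section

variable (pred : Set ZFSet.{0} → (ℕ → ZFSet.{0}) → ZFSet.{0} → ZFSet.{0})
  (G : Set ZFSet.{0} → (ℕ → ZFSet.{0}) → ZFSet.{0} → ZFSet.{0} → ZFSet.{0})

/-- `d` is closed under predecessors -/
def Rec.Cl (N : Set ZFSet.{0}) (v : ℕ → ZFSet.{0}) (d : ZFSet.{0}) : Prop :=
  ∀ z ∈ d, pred N v z ⊆ d

/-- `f` is an attempt -/
def Rec.Att (N : Set ZFSet.{0}) (v : ℕ → ZFSet.{0}) (f : ZFSet.{0}) : Prop :=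
  (∀ t ∈ f, t = pair (fst t) (snd t)) ∧ (∀ t ∈ f, ∀ s ∈ f, fst t = fst s → t = s) ∧
  ∀ t ∈ f, pred N v (fst t) ⊆ dom f ∧
    snd t = G N v (fst t) (fgr (fun y => app f y) (pred N v (fst t)))

/-- `f` is the least attempt whose domain contains `y` -/
def Rec.Min (N : Set ZFSet.{0}) (v : ℕ → ZFSet.{0}) (f y : ZFSet.{0}) : Prop :=
  Rec.Att pred G N v f ∧ y ∈ dom f ∧ ∀ d ∈ N, y ∈ d → Rec.Cl pred N v d → dom f ⊆ d

variable {pred G}

theorem Rec.clUR (hp : UF (fun N w => pred N (sh w) (w 0))) :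
    UR (fun N w => Rec.Cl pred N (sh w) (w 0)) := by
  refine UR.ball (R := fun N z w => pred N (sh w) z ⊆ w 0) (UF.var 0) ?_
  exact UR.sub (hp.ren (fun n => if n = 0 then 0 else n + 1)) (UF.var 1)

theorem Rec.attUR (hp : UF (fun N w => pred N (sh w) (w 0)))
    (hG : UF (fun N w => G N (sh (sh w)) (w 0) (w 1))) :
    UR (fun N w => Rec.Att pred G N (sh w) (w 0)) := by
  have h1 : UF (fun N (w : ℕ → ZFSet) => pred N (sh (sh w)) (fst (w 0))) :=
    UF.subst (F := fun N x w => pred N (sh (sh w)) x)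
      (hp.ren (fun n => if n = 0 then 0 else n + 2)) ((UF.var 0).fst)
  have h2 : UF (fun N (w : ℕ → ZFSet) =>
      fgr (fun y => app (w 1) y) (pred N (sh (sh w)) (fst (w 0)))) :=
    UF.fgr (F := fun N y w => app (w 1) y) h1 (by infer_instance)
  have h3 : UF (fun N (w : ℕ → ZFSet) => G N (sh (sh w)) (fst (w 0))
      (fgr (fun y => app (w 1) y) (pred N (sh (sh w)) (fst (w 0))))) := by
    refine UF.subst (F := fun N x w => G N (sh (sh w)) x
      (fgr (fun y => app (w 1) y) (pred N (sh (sh w)) (fst (w 0))))) ?_ ((UF.var 0).fst)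
    refine UF.subst (F := fun N x w => G N (sh (sh (sh w))) (w 0) x) ?_ h2.shift
    exact hG.ren (fun n => if n = 0 then 1 else if n = 1 then 0 else n + 2)
  refine UD.and ?_ (UD.and ?_ ?_)
  · exact UR.ball (R := fun N t w => t = ZFSet.pair (fst t) (snd t)) (UF.var 0) (by infer_instance)
  · exact UR.ball (R := fun N t w => ∀ s ∈ w 0, fst t = fst s → t = s) (UF.var 0) (by infer_instance)
  · refine UR.ball (R := fun N t w => pred N (sh w) (fst t) ⊆ dom (w 0) ∧
      snd t = G N (sh w) (fst t) (fgr (fun y => app (w 0) y) (pred N (sh w) (fst t))))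
      (UF.var 0) ?_
    exact (UR.sub h1 (by infer_instance)).and (UR.eq (by infer_instance) h3)

end

section

variable {pred : Set ZFSet.{0} → (ℕ → ZFSet.{0}) → ZFSet.{0} → ZFSet.{0}}
  {G : Set ZFSet.{0} → (ℕ → ZFSet.{0}) → ZFSet.{0} → ZFSet.{0} → ZFSet.{0}}
  {F : Set ZFSet.{0} → (ℕ → ZFSet.{0}) → ZFSet.{0} → ZFSet.{0}}
  {N : Set ZFSet.{0}} {v : ℕ → ZFSet.{0}}

theorem Rec.pred_mem (hp : UF (fun N w => pred N (sh w) (w 0))) (hN : TM N)
    (hv : ∀ n, v n ∈ N) {x : ZFSet.{0}} (hx : x ∈ N) : pred N v x ∈ N :=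
  hp.mem N hN (cons x v) fun n => by
    cases n with
    | zero => exact hx
    | succ n => exact hv n

theorem Rec.G_mem (hG : UF (fun N w => G N (sh (sh w)) (w 0) (w 1))) (hN : TM N)
    (hv : ∀ n, v n ∈ N) {x f : ZFSet.{0}} (hx : x ∈ N) (hf : f ∈ N) : G N v x f ∈ N :=
  hG.mem N hN (cons x (cons f v)) fun n => by
    rcases n with _ | _ | n
    exacts [hx, hf, hv n]

theorem Rec.att_fgr (hF : ∀ x ∈ N, F N v x = G N v x (fgr (F N v) (pred N v x)))
    {d : ZFSet.{0}} (hd : ∀ x ∈ d, x ∈ N) (hcl : Rec.Cl pred N v d) :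
    Rec.Att pred G N v (fgr (F N v) d) := by
  refine ⟨?_, ?_, ?_⟩
  · intro t ht
    obtain ⟨y, hy, rfl⟩ := mem_fgr.1 ht
    simp
  · intro t ht s hs
    obtain ⟨y, hy, rfl⟩ := mem_fgr.1 ht
    obtain ⟨z, hz, rfl⟩ := mem_fgr.1 hs
    simp only [fst_pair]
    rintro rfl; rfl
  · intro t ht
    obtain ⟨y, hy, rfl⟩ := mem_fgr.1 ht
    simp only [fst_pair, snd_pair, dom_fgr]
    refine ⟨hcl y hy, ?_⟩
    rw [hF y (hd y hy)]
    congr 1
    refine fgr_congr fun z hz => ?_
    rw [app_fgr (hcl y hy hz)]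

theorem Rec.att_eq (hp : UF (fun N w => pred N (sh w) (w 0))) (hN : TM N)
    (hv : ∀ n, v n ∈ N)
    (hwf : WellFounded (fun y x : N => (y : ZFSet) ∈ pred N v x))
    (hF : ∀ x ∈ N, F N v x = G N v x (fgr (F N v) (pred N v x)))
    {f : ZFSet.{0}} (hf : f ∈ N) (ha : Rec.Att pred G N v f) :
    Rec.Cl pred N v (dom f) ∧ f = fgr (F N v) (dom f) := by
  obtain ⟨h1, h2, h3⟩ := ha
  have hcl : Rec.Cl pred N v (dom f) := by
    intro x hx
    obtain ⟨y, hy⟩ := mem_dom.1 hx
    have := (h3 _ hy).1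
    simpa using this
  have hdN : ∀ x ∈ dom f, x ∈ N := fun x hx =>
    hN.tr _ (((UF.var 0).dom).mem N hN (fun _ => f) (fun _ => hf)) x hx
  have key : ∀ x : N, (x : ZFSet) ∈ dom f → app f x = F N v x ∧ pair (x : ZFSet) (F N v x) ∈ f := by
    intro x
    induction x using hwf.induction with
    | _ x ih =>
      intro hx
      obtain ⟨y, hy⟩ := mem_dom.1 hx
      have e : y = F N v x := by
        have h := (h3 _ hy).2
        simp only [fst_pair, snd_pair] at h
        rw [h, hF x x.2]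
        congr 1
        refine fgr_congr fun z hz => ?_
        exact (ih ⟨z, hdN z (hcl x hx hz)⟩ hz (hcl x hx hz)).1
      subst e
      refine ⟨app_eq hy fun z hz => ?_, hy⟩
      have := h2 _ hz _ hy (by simp)
      exact (pair_inj.1 this).2
  refine ⟨hcl, ?_⟩
  ext t
  rw [mem_fgr]
  constructor
  · intro ht
    have e := h1 t ht
    have hx : fst t ∈ dom f := mem_dom.2 ⟨snd t, by rw [← e]; exact ht⟩
    refine ⟨fst t, hx, ?_⟩
    exact h2 _ (key ⟨_, hdN _ hx⟩ hx).2 _ ht (by simp)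
  · rintro ⟨y, hy, rfl⟩
    exact (key ⟨y, hdN y hy⟩ hy).2

/-- every element of `N` is in the domain of an attempt -/
theorem Rec.exists_att (hp : UF (fun N w => pred N (sh w) (w 0)))
    (hG : UF (fun N w => G N (sh (sh w)) (w 0) (w 1)))
    (hwf : ∀ N, TM N → ∀ v : ℕ → ZFSet, (∀ n, v n ∈ N) →
      WellFounded (fun y x : N => (y : ZFSet) ∈ pred N v x))
    (hF : ∀ N, TM N → ∀ v : ℕ → ZFSet, (∀ n, v n ∈ N) →
      ∀ x ∈ N, F N v x = G N v x (fgr (F N v) (pred N v x)))
    (hN : TM N) (hv : ∀ n, v n ∈ N) (x : N) :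
    ∃ d ∈ N, (x : ZFSet) ∈ d ∧ Rec.Cl pred N v d ∧ fgr (F N v) d ∈ N := by
  classical
  -- the minimal attempt as a definable function
  let m : Set ZFSet.{0} → ZFSet.{0} → (ℕ → ZFSet.{0}) → ZFSet.{0} := fun N y v =>
    if h : ∃ f ∈ N, Rec.Min pred G N v f y then h.choose else ∅
  have hclm : ∀ {N : Set ZFSet.{0}} {v : ℕ → ZFSet.{0}} {f g y : ZFSet.{0}}, TM N →
      (∀ n, v n ∈ N) → f ∈ N → g ∈ N →
      Rec.Min pred G N v f y → Rec.Min pred G N v g y → f = g := by
    intro N v f g y hN hv hf hg h h'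
    have a := Rec.att_eq (F := F) hp hN hv (hwf N hN v hv) (hF N hN v hv) hf h.1
    have b := Rec.att_eq (F := F) hp hN hv (hwf N hN v hv) (hF N hN v hv) hg h'.1
    have hdf : dom f ∈ N := ((UF.var 0).dom).mem N hN (fun _ => f) (fun _ => hf)
    have hdg : dom g ∈ N := ((UF.var 0).dom).mem N hN (fun _ => g) (fun _ => hg)
    have e : dom f = dom g :=
      le_antisymm (h.2.2 _ hdg h'.2.1 b.1) (h'.2.2 _ hdf h.2.1 a.1)
    rw [a.2, b.2, e]
  have hminUR : UR (fun N w => Rec.Min pred G N (sh (sh w)) (w 0) (w 1)) := by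
    refine UD.and ((Rec.attUR hp hG).ren (fun n => if n = 0 then 0 else n + 1)) (UD.and ?_ ?_)
    · infer_instance
    · refine UD.allN (R := fun N d w => w 1 ∈ d → Rec.Cl pred N (sh (sh w)) d → dom (w 0) ⊆ d) ?_
      refine UD.imp (UD.mem 2 0) (UD.imp ?_ ?_)
      · exact (Rec.clUR hp).ren (fun n => if n = 0 then 0 else n + 2)
      · infer_instance
  have hm : UF (fun N w => m N (w 0) (sh w)) := by
    refine ⟨fun N hN v hv => ?_, ?_⟩
    · by_cases h : ∃ f ∈ N, Rec.Min pred G N (sh v) f (v 0)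
      · simp only [m, dif_pos h]; exact h.choose_spec.1
      · simp only [m, dif_neg h]; exact (UF.empty).mem N hN v hv
    · have h1 : UR (fun N w => Rec.Min pred G N (sh (sh w)) (w 0) (w 1) ∨
          ((∀ f ∈ N, ¬ Rec.Min pred G N (sh (sh w)) f (w 1)) ∧ w 0 = ∅)) := by
        refine hminUR.or (UD.and ?_ (by infer_instance))
        refine UD.allN (R := fun N f w => ¬ Rec.Min pred G N (sh (sh w)) f (w 1)) ?_
        exact (hminUR.ren (fun n => if n = 0 then 0 else n + 1)).not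
      refine h1.congr fun N hN w hw => ?_
      have hw' : ∀ n, sh (sh w) n ∈ N := fun n => hw (n + 2)
      by_cases h : ∃ f ∈ N, Rec.Min pred G N (sh (sh w)) f (w 1)
      · have e : m N (sh w 0) (sh (sh w)) = h.choose := dif_pos h
        rw [e]
        constructor
        · intro e; left; rw [e]; exact h.choose_spec.2
        · rintro (h' | ⟨h', -⟩)
          · exact hclm hN hw' (hw 0) h.choose_spec.1 h' h.choose_spec.2
          · exact absurd h.choose_spec.2 (h' _ h.choose_spec.1)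
      · have e : m N (sh w 0) (sh (sh w)) = ∅ := dif_neg h
        rw [e]
        push Not at h
        constructor
        · intro e; right; exact ⟨h, e⟩
        · rintro (h' | ⟨-, h'⟩)
          · exact absurd h' (h _ (hw 0))
          · exact h'
  have hFN := hF N hN v hv
  induction x using (hwf N hN v hv).induction with
  | _ x ih =>
    have hpx : pred N v x ∈ N := Rec.pred_mem hp hN hv x.2
    -- each predecessor has a minimal attempt
    have h1 : ∀ y ∈ pred N v x, ∃ f ∈ N, Rec.Min pred G N v f y := by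
      intro y hy
      have hyN := hN.tr _ hpx y hy
      obtain ⟨d, hd, hyd, hcl, hfd⟩ := ih ⟨y, hyN⟩ hy
      let D : ZFSet := ZFSet.sep (fun z => ∀ d' ∈ N, y ∈ d' → Rec.Cl pred N v d' → z ∈ d') d
      have hD : D ∈ N := by
        have h : UR (fun N w => ∀ d' ∈ N, w 1 ∈ d' → Rec.Cl pred N (sh (sh w)) d' → w 0 ∈ d') := by
          refine UD.allN (R := fun N d' w => w 1 ∈ d' → Rec.Cl pred N (sh (sh w)) d' → w 0 ∈ d') ?_
          refine UD.imp (UD.mem 2 0) (UD.imp ?_ (UD.mem 1 0))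
          exact (Rec.clUR hp).ren (fun n => if n = 0 then 0 else n + 2)
        exact hN.sep_of (R := fun N z w => ∀ d' ∈ N, w 0 ∈ d' → Rec.Cl pred N (sh w) d' → z ∈ d')
          (v := cons y v) h (fun n => by cases n with
            | zero => exact hyN
            | succ n => exact hv n) hd
      have hDcl : Rec.Cl pred N v D := by
        intro z hz u hu
        have hz' := mem_sep.1 hz
        refine mem_sep.2 ⟨hcl z hz'.1 hu, fun d' hd' hy' hcl' => ?_⟩
        exact hcl' z (hz'.2 d' hd' hy' hcl') hu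
      have hyD : y ∈ D := mem_sep.2 ⟨hyd, fun d' _ hy' _ => hy'⟩
      have hDd : D ⊆ d := fun z hz => (mem_sep.1 hz).1
      have hfD : fgr (F N v) D ∈ N := by
        have h := (UF.fgr (F := fun N z w => app (w 0) z) (UF.var 1) (by infer_instance)).mem N hN
          (cons (fgr (F N v) d) (cons D v)) (fun n => by
            rcases n with _ | _ | n
            exacts [hfd, hD, hv n])
        have e : fgr (fun z => app (fgr (F N v) d) z) D = fgr (F N v) D :=
          fgr_congr fun z hz => app_fgr (hDd hz)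
        rw [← e]
        exact h
      refine ⟨fgr (F N v) D, hfD, ?_, ?_, ?_⟩
      · exact Rec.att_fgr hFN (fun z hz => hN.tr _ hD z hz) hDcl
      · rw [dom_fgr]; exact hyD
      · rw [dom_fgr]
        intro d' hd' hy' hcl' z hz
        exact (mem_sep.1 hz).2 d' hd' hy' hcl'
    have hmy : ∀ y ∈ pred N v x, m N y v ∈ N ∧ Rec.Min pred G N v (m N y v) y := by
      intro y hy
      have h := h1 y hy
      have e : m N y v = h.choose := dif_pos h
      rw [e]
      exact h.choose_spec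
    let U : ZFSet := ⋃₀ (img (fun y => m N y v) (pred N v x))
    have hU : U ∈ N := hN.sUnion (hN.img_of (F := fun N y v => m N y v) hm hv hpx)
    have hUd : ∀ t ∈ U, ∃ y ∈ pred N v x, t ∈ fgr (F N v) (dom (m N y v)) := by
      intro t ht
      obtain ⟨f, hf, htf⟩ := mem_sUnion.1 ht
      obtain ⟨y, hy, rfl⟩ := mem_img.1 hf
      refine ⟨y, hy, ?_⟩
      rw [← (Rec.att_eq (F := F) hp hN hv (hwf N hN v hv) hFN (hmy y hy).1 (hmy y hy).2.1).2]
      exact htf
    have hdU : dom U ∈ N := ((UF.var 0).dom).mem N hN (fun _ => U) (fun _ => hU)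
    have hUcl : Rec.Cl pred N v (dom U) := by
      intro z hz u hu
      obtain ⟨w, hw⟩ := mem_dom.1 hz
      obtain ⟨y, hy, h⟩ := hUd _ hw
      have hz' := (pair_mem_fgr.1 h).1
      have a := Rec.att_eq (F := F) hp hN hv (hwf N hN v hv) hFN (hmy y hy).1 (hmy y hy).2.1
      have hu' := a.1 z hz' hu
      obtain ⟨r, hr⟩ := mem_dom.1 hu'
      exact mem_dom.2 ⟨r, mem_sUnion.2 ⟨_, mem_img.2 ⟨y, hy, rfl⟩, hr⟩⟩
    have hUeq : U = fgr (F N v) (dom U) := by
      ext t
      rw [mem_fgr]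
      constructor
      · intro ht
        obtain ⟨y, hy, h⟩ := hUd t ht
        obtain ⟨z, hz, rfl⟩ := mem_fgr.1 h
        exact ⟨z, mem_dom.2 ⟨_, ht⟩, rfl⟩
      · rintro ⟨z, hz, rfl⟩
        obtain ⟨w, hw⟩ := mem_dom.1 hz
        obtain ⟨y, hy, h⟩ := hUd _ hw
        rw [← (pair_mem_fgr.1 h).2]
        exact hw
    have hpU : pred N v x ⊆ dom U := by
      intro y hy
      obtain ⟨r, hr⟩ := mem_dom.1 (hmy y hy).2.2.1
      exact mem_dom.2 ⟨r, mem_sUnion.2 ⟨_, mem_img.2 ⟨y, hy, rfl⟩, hr⟩⟩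
    have hfp : fgr (F N v) (pred N v x) ∈ N := by
      have h := (UF.fgr (F := fun N z w => app (w 0) z) (UF.var 1) (by infer_instance)).mem N hN
        (cons U (cons (pred N v x) v)) (fun n => by
          rcases n with _ | _ | n
          exacts [hU, hpx, hv n])
      have e : fgr (fun z => app U z) (pred N v x) = fgr (F N v) (pred N v x) :=
        fgr_congr fun z hz => by
          conv_lhs => rw [hUeq]
          exact app_fgr (hpU hz)
      rw [← e]
      exact h
    have hFx : F N v x ∈ N := by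
      rw [hFN x x.2]
      exact Rec.G_mem hG hN hv x.2 hfp
    refine ⟨insert (x : ZFSet) (dom U), hN.insert x.2 hdU, by simp, ?_, ?_⟩
    · intro z hz
      rw [mem_insert_iff] at hz
      rcases hz with rfl | hz
      · exact fun u hu => mem_insert_of_mem _ (hpU hu)
      · exact fun u hu => mem_insert_of_mem _ (hUcl z hz hu)
    · have : fgr (F N v) (insert (x : ZFSet) (dom U)) = insert (pair (x : ZFSet) (F N v x)) U := by
        ext t
        rw [mem_insert_iff, mem_fgr]
        conv_rhs => rw [hUeq, mem_fgr]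
        constructor
        · rintro ⟨z, hz, rfl⟩
          rw [mem_insert_iff] at hz
          rcases hz with rfl | hz
          · exact Or.inl rfl
          · exact Or.inr ⟨z, hz, rfl⟩
        · rintro (rfl | ⟨z, hz, rfl⟩)
          · exact ⟨x, by simp, rfl⟩
          · exact ⟨z, mem_insert_of_mem _ hz, rfl⟩
      rw [this]
      exact hN.insert (hN.pair x.2 hFx) hU

/-- **Definable recursion**: a function satisfying a definable recursion along a definable
set-like well-founded relation is definable. -/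
theorem UF.recur (hp : UF (fun N w => pred N (sh w) (w 0)))
    (hG : UF (fun N w => G N (sh (sh w)) (w 0) (w 1)))
    (hwf : ∀ N, TM N → ∀ v : ℕ → ZFSet, (∀ n, v n ∈ N) →
      WellFounded (fun y x : N => (y : ZFSet) ∈ pred N v x))
    (hF : ∀ N, TM N → ∀ v : ℕ → ZFSet, (∀ n, v n ∈ N) →
      ∀ x ∈ N, F N v x = G N v x (H83.AC.fgr (F N v) (pred N v x))) :
    UF (fun N w => F N (sh w) (w 0)) := by
  have key := fun N hN v hv x => Rec.exists_att (N := N) (v := v) hp hG hwf hF hN hv x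
  have hmem : ∀ N, TM N → ∀ v : ℕ → ZFSet, (∀ n, v n ∈ N) → ∀ x ∈ N, F N v x ∈ N := by
    intro N hN v hv x hx
    obtain ⟨d, hd, hxd, hcl, hf⟩ := key N hN v hv ⟨x, hx⟩
    have : H83.AC.app (H83.AC.fgr (F N v) d) x = F N v x := app_fgr hxd
    rw [← this]
    exact ((UF.var 0).app (UF.var 1)).mem N hN (cons _ (fun _ => x)) fun n => by
      cases n with
      | zero => exact hf
      | succ n => exact hx
  refine ⟨fun N hN v hv => hmem N hN _ (fun n => hv (n + 1)) _ (hv 0), ?_⟩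
  have h1 : UR (fun N w => ∃ f ∈ N, Rec.Att pred G N (sh (sh w)) f ∧ ZFSet.pair (w 1) (w 0) ∈ f) := by
    refine UD.exN (R := fun N f w => Rec.Att pred G N (sh (sh w)) f ∧ ZFSet.pair (w 1) (w 0) ∈ f) ?_
    exact ((Rec.attUR hp hG).ren (fun n => if n = 0 then 0 else n + 2)).and (by infer_instance)
  refine h1.congr fun N hN w hw => ?_
  have hw' : ∀ n, sh (sh w) n ∈ N := fun n => hw (n + 2)
  constructor
  · intro e
    obtain ⟨d, hd, hxd, hcl, hf⟩ := key N hN _ hw' ⟨w 1, hw 1⟩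
    refine ⟨_, hf, Rec.att_fgr (hF N hN _ hw') (fun z hz => hN.tr _ hd z hz) hcl, ?_⟩
    rw [pair_mem_fgr]
    exact ⟨hxd, e⟩
  · rintro ⟨f, hf, ha, hm⟩
    have a := Rec.att_eq (F := F) hp hN hw' (hwf N hN _ hw') (hF N hN _ hw') hf ha
    rw [a.2, pair_mem_fgr] at hm
    exact hm.2

end

end H83.AC
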