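import Pool.Agent.H83.AC.OpLL

/-!
# Module SatSet: satisfaction sets are constructible

Tuples: `tup n v = (v 0, (v 1, (.., ∅)))`, `tups X n` is the set of all tuples.
Induction on `φ` (for all `n` with `φ.bd n`):
* `bot`: `∅`;
* `imp φ ψ`: `tups X n \ (SatS φ \ SatS ψ)` (the truth value of a formula with `bd n` depends only
  on `v 0, .., v (n-1)`, i.e. on `tup n v`; use `satIn_congr`; here `v i ∈ X` for all `i`);
* `all φ`: `tups X n \ rng (tups X (n+1) \ SatS φ (n+1))` (`op 8 x y = rng x`);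
* `mem i j`, `i, j < n`: let `A n i j` be the set of all `tup n v` with `v i ∈ v j`. If `i = j`:
  `∅`. If `i, j ≥ 1`: `prod X (A (n-1) (i-1) (j-1))`. If `i = 0`, `j = 1`:
  `op 6 (op 3 X X) (tups X (n-2))`. If `i = 0`, `j ≥ 2`: `op 7 (A (n-1) 0 (j-1)) X` (insert an
  arbitrary element of `X` at the second place). `j = 0` is symmetric with `op 4` in place of
  `op 3`;
* `eq i j`: the same with `op 5`; `i = j`: `tups X n`.
-/

namespace H83.AC

open ZFSet

private theorem mem_prod' {a b z : ZFSet.{0}} :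
    z ∈ ZFSet.prod a b ↔ ∃ x ∈ a, ∃ y ∈ b, z = pair x y := ZFSet.mem_prod

theorem tups_LL {X : ZFSet.{0}} (hX : X ∈ LL) (n : ℕ) : tups X n ∈ LL := by
  induction n with
  | zero =>
    have h := upair_LL empty_LL empty_LL
    rw [pair_eq_singleton] at h
    exact h
  | succ n ih => exact prod_LL hX ih

theorem mem_tups {X t : ZFSet.{0}} (hX : X ≠ ∅) {n : ℕ} :
    t ∈ tups X n ↔ ∃ v : ℕ → ZFSet, (∀ i, v i ∈ X) ∧ t = tup n v := by
  induction n generalizing t with
  | zero =>
    obtain ⟨d, hd⟩ := (ZFSet.eq_empty_or_nonempty X).resolve_left hX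
    simp only [tups, tup, mem_singleton]
    constructor
    · intro h
      exact ⟨fun _ => d, fun _ => hd, h⟩
    · rintro ⟨_, _, h⟩
      exact h
  | succ n ih =>
    rw [tups, mem_prod']
    constructor
    · rintro ⟨a, ha, b, hb, rfl⟩
      obtain ⟨v, hv, rfl⟩ := ih.1 hb
      refine ⟨cons a v, ?_, rfl⟩
      intro i
      cases i with
      | zero => exact ha
      | succ i => exact hv i
    · rintro ⟨v, hv, rfl⟩
      exact ⟨v 0, hv 0, tup n (sh v), ih.2 ⟨sh v, fun i => hv (i + 1), rfl⟩, rfl⟩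

theorem tup_inj {n : ℕ} {v w : ℕ → ZFSet.{0}} : tup n v = tup n w ↔ ∀ i < n, v i = w i := by
  induction n generalizing v w with
  | zero => simp [tup]
  | succ n ih =>
    rw [tup, tup, pair_inj, ih]
    constructor
    · rintro ⟨h0, h⟩ i hi
      cases i with
      | zero => exact h0
      | succ i => exact h i (by omega)
    · intro h
      exact ⟨h 0 (by omega), fun i hi => h (i + 1) (by omega)⟩

theorem satIn_congr {K : Set ZFSet.{0}} : ∀ (φ : Fml) {n : ℕ}, φ.bd n → ∀ {v w : ℕ → ZFSet.{0}},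
    (∀ i < n, v i = w i) → (SatIn K φ v ↔ SatIn K φ w)
  | .bot, _, _, _, _, _ => Iff.rfl
  | .eq i j, _, h, v, w, e => by simp only [SatIn, e i h.1, e j h.2]
  | .mem i j, _, h, v, w, e => by simp only [SatIn, e i h.1, e j h.2]
  | .imp φ ψ, _, h, v, w, e => by
    simp only [SatIn, satIn_congr φ h.1 e, satIn_congr ψ h.2 e]
  | .all φ, n, h, v, w, e => by
    simp only [SatIn]
    refine forall_congr' fun x => imp_congr_right fun _ => satIn_congr φ h fun i hi => ?_
    cases i with
    | zero => rfl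
    | succ i => exact e i (by omega)

/-- tuples with a binary condition on two entries -/
private noncomputable def AtS (R : ZFSet.{0} → ZFSet.{0} → Prop) (X : ZFSet.{0}) (n i j : ℕ) :
    ZFSet.{0} :=
  ZFSet.sep (fun t => ∃ v : ℕ → ZFSet, (∀ k, v k ∈ X) ∧ t = tup n v ∧ R (v i) (v j)) (tups X n)

private theorem mem_AtS {R : ZFSet.{0} → ZFSet.{0} → Prop} {X : ZFSet.{0}} (hX : X ≠ ∅)
    {n i j : ℕ} {t : ZFSet.{0}} : t ∈ AtS R X n i j ↔
      ∃ v : ℕ → ZFSet, (∀ k, v k ∈ X) ∧ t = tup n v ∧ R (v i) (v j) := by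
  rw [AtS, mem_sep]
  constructor
  · exact fun h => h.2
  · intro h
    refine ⟨?_, h⟩
    obtain ⟨v, hv, ht, -⟩ := h
    exact (mem_tups hX).2 ⟨v, hv, ht⟩

private theorem AtS_zero {R : ZFSet.{0} → ZFSet.{0} → Prop} {X : ZFSet.{0}} (hX : X ∈ LL)
    (hne : X ≠ ∅) (hR : ZFSet.sep (fun t => R (fst t) (snd t)) (ZFSet.prod X X) ∈ LL) (m : ℕ) :
    ∀ j < m + 1, AtS R X (m + 2) 0 (j + 1) ∈ LL := by
  induction m with
  | zero =>
    intro j hj
    obtain rfl : j = 0 := by omega
    have e : AtS R X 2 0 1 = op 6 (ZFSet.sep (fun t => R (fst t) (snd t)) (ZFSet.prod X X))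
        (tups X 0) := by
      ext t
      rw [mem_AtS hne, op, if_neg (by norm_num), if_neg (by norm_num), if_neg (by norm_num),
        if_neg (by norm_num), if_neg (by norm_num), if_neg (by norm_num), if_pos rfl, mem_uni]
      simp only [mem_img, mem_sep, mem_prod']
      constructor
      · rintro ⟨v, hv, rfl, hr⟩
        refine ⟨pair (v 0) (v 1), ⟨⟨v 0, hv 0, v 1, hv 1, rfl⟩, ?_⟩, tup 0 (sh (sh v)), ?_, ?_⟩
        · rw [fst_pair, snd_pair]; exact hr
        · exact (mem_tups hne).2 ⟨_, fun k => hv (k + 2), rfl⟩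
        · rw [fst_pair, snd_pair]; rfl
      · rintro ⟨_, ⟨⟨a, ha, b, hb, rfl⟩, hr⟩, s, hs, rfl⟩
        rw [fst_pair, snd_pair] at hr ⊢
        obtain ⟨v, hv, rfl⟩ := (mem_tups hne).1 hs
        refine ⟨cons a (cons b v), ?_, rfl, hr⟩
        rintro (_ | _ | k)
        exacts [ha, hb, hv k]
    rw [e]
    exact op_LL (by norm_num) hR (tups_LL hX 0)
  | succ m ih =>
    intro j hj
    cases j with
    | zero =>
      have e : AtS R X (m + 1 + 2) 0 1 = op 6
          (ZFSet.sep (fun t => R (fst t) (snd t)) (ZFSet.prod X X)) (tups X (m + 1)) := by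
        ext t
        rw [mem_AtS hne, op, if_neg (by norm_num), if_neg (by norm_num), if_neg (by norm_num),
          if_neg (by norm_num), if_neg (by norm_num), if_neg (by norm_num), if_pos rfl, mem_uni]
        simp only [mem_img, mem_sep, mem_prod']
        constructor
        · rintro ⟨v, hv, rfl, hr⟩
          refine ⟨pair (v 0) (v 1), ⟨⟨v 0, hv 0, v 1, hv 1, rfl⟩, ?_⟩, tup (m + 1) (sh (sh v)),
            ?_, ?_⟩
          · rw [fst_pair, snd_pair]; exact hr
          · exact (mem_tups hne).2 ⟨_, fun k => hv (k + 2), rfl⟩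
          · rw [fst_pair, snd_pair]; rfl
        · rintro ⟨_, ⟨⟨a, ha, b, hb, rfl⟩, hr⟩, s, hs, rfl⟩
          rw [fst_pair, snd_pair] at hr ⊢
          obtain ⟨v, hv, rfl⟩ := (mem_tups hne).1 hs
          refine ⟨cons a (cons b v), ?_, rfl, hr⟩
          rintro (_ | _ | k)
          exacts [ha, hb, hv k]
      rw [e]
      exact op_LL (by norm_num) hR (tups_LL hX (m + 1))
    | succ j =>
      have e : AtS R X (m + 1 + 2) 0 (j + 1 + 1) = op 7 (AtS R X (m + 2) 0 (j + 1)) X := by
        ext t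
        rw [mem_AtS hne, op, if_neg (by norm_num), if_neg (by norm_num), if_neg (by norm_num),
          if_neg (by norm_num), if_neg (by norm_num), if_neg (by norm_num), if_neg (by norm_num),
          if_pos rfl, mem_uni]
        simp only [mem_img, mem_AtS hne]
        constructor
        · rintro ⟨v, hv, rfl, hr⟩
          refine ⟨tup (m + 2) (cons (v 0) (sh (sh v))), ⟨cons (v 0) (sh (sh v)), ?_, rfl, hr⟩,
            v 1, hv 1, ?_⟩
          · rintro (_ | k)
            exacts [hv 0, hv (k + 2)]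
          · show pair (fst (pair _ _)) (pair _ (snd (pair _ _))) = _
            rw [fst_pair, snd_pair]; rfl
        · rintro ⟨_, ⟨w, hw, rfl, hr⟩, y, hy, rfl⟩
          refine ⟨cons (w 0) (cons y (sh w)), ?_, ?_, hr⟩
          · rintro (_ | _ | k)
            exacts [hw 0, hy, hw (k + 1)]
          · show pair (fst (pair _ _)) (pair _ (snd (pair _ _))) = _
            rw [fst_pair, snd_pair]; rfl
      rw [e]
      exact op_LL (by norm_num) (ih j (by omega)) hX

private theorem AtS_lt {R : ZFSet.{0} → ZFSet.{0} → Prop} {X : ZFSet.{0}} (hX : X ∈ LL)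
    (hne : X ≠ ∅) (hR : ZFSet.sep (fun t => R (fst t) (snd t)) (ZFSet.prod X X) ∈ LL) (n : ℕ) :
    ∀ i j, i < j → j < n → AtS R X n i j ∈ LL := by
  induction n with
  | zero => intro i j _ h; omega
  | succ n ih =>
    intro i j hij hj
    obtain ⟨j, rfl⟩ : ∃ j', j = j' + 1 := ⟨j - 1, by omega⟩
    cases i with
    | zero =>
      obtain ⟨m, rfl⟩ : ∃ m, n = m + 1 := ⟨n - 1, by omega⟩
      exact AtS_zero hX hne hR m j (by omega)
    | succ i =>
      have e : AtS R X (n + 1) (i + 1) (j + 1) = ZFSet.prod X (AtS R X n i j) := by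
        ext t
        rw [mem_AtS hne, mem_prod']
        simp only [mem_AtS hne]
        constructor
        · rintro ⟨v, hv, rfl, hr⟩
          exact ⟨v 0, hv 0, tup n (sh v), ⟨sh v, fun k => hv (k + 1), rfl, hr⟩, rfl⟩
        · rintro ⟨a, ha, _, ⟨v, hv, rfl, hr⟩, rfl⟩
          refine ⟨cons a v, ?_, rfl, hr⟩
          rintro (_ | k)
          exacts [ha, hv k]
      rw [e]
      exact prod_LL hX (ih i j (by omega) (by omega))

private theorem AtS_LL {R : ZFSet.{0} → ZFSet.{0} → Prop} {X : ZFSet.{0}} (hX : X ∈ LL)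
    (hne : X ≠ ∅) (hR : ZFSet.sep (fun t => R (fst t) (snd t)) (ZFSet.prod X X) ∈ LL)
    (hR' : ZFSet.sep (fun t => R (snd t) (fst t)) (ZFSet.prod X X) ∈ LL)
    (hd : (∀ x, R x x) ∨ (∀ x, ¬ R x x)) {n i j : ℕ} (hi : i < n) (hj : j < n) :
    AtS R X n i j ∈ LL := by
  rcases lt_trichotomy i j with h | rfl | h
  · exact AtS_lt hX hne hR n i j h hj
  · rcases hd with hd | hd
    · have e : AtS R X n i i = tups X n := by
        ext t
        rw [mem_AtS hne, mem_tups hne]
        exact exists_congr fun v => by simp [hd]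
      rw [e]; exact tups_LL hX n
    · have e : AtS R X n i i = ∅ := by
        ext t
        rw [mem_AtS hne]
        simp [hd]
      rw [e]; exact empty_LL
  · have e : AtS R X n i j = AtS (fun x y => R y x) X n j i := by
      ext t
      rw [mem_AtS hne, mem_AtS hne]
    rw [e]
    exact AtS_lt (R := fun x y => R y x) hX hne hR' n j i h hi

private theorem tup_mem_SatS {X : ZFSet.{0}} (hne : X ≠ ∅) {φ : Fml} {n : ℕ} (hn : φ.bd n)
    {v : ℕ → ZFSet.{0}} (hv : ∀ i, v i ∈ X) : tup n v ∈ SatS X φ n ↔ SatIn (cls X) φ v := by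
  rw [SatS, mem_sep]
  constructor
  · rintro ⟨-, w, hw, e, h⟩
    exact (satIn_congr φ hn (tup_inj.1 e)).2 h
  · intro h
    exact ⟨(mem_tups hne).2 ⟨v, hv, rfl⟩, v, hv, rfl, h⟩

private theorem SatS_sub {X : ZFSet.{0}} {φ : Fml} {n : ℕ} {t : ZFSet.{0}} (h : t ∈ SatS X φ n) :
    t ∈ tups X n := by
  rw [SatS, mem_sep] at h; exact h.1

theorem SatS_LL {X : ZFSet.{0}} (hX : X ∈ LL) (hne : X ≠ ∅) (φ : Fml) {n : ℕ} (hn : φ.bd n) :
    SatS X φ n ∈ LL := by
  induction φ generalizing n with
  | bot =>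
    have e : SatS X .bot n = ∅ := by
      ext t; simp [SatS, SatIn]
    rw [e]; exact empty_LL
  | eq i j =>
    have h5 : ZFSet.sep (fun t => fst t = snd t) (ZFSet.prod X X) ∈ LL := by
      have := op_LL (i := 5) (by norm_num) hX hX
      simpa [op] using this
    refine AtS_LL (R := fun x y => x = y) hX hne h5 ?_ (Or.inl fun _ => rfl) hn.1 hn.2
    have e : ZFSet.sep (fun t => snd t = fst t) (ZFSet.prod X X)
        = ZFSet.sep (fun t => fst t = snd t) (ZFSet.prod X X) := by
      ext t; simp only [mem_sep, eq_comm]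
    rw [e]; exact h5
  | mem i j =>
    have h3 : ZFSet.sep (fun t => fst t ∈ snd t) (ZFSet.prod X X) ∈ LL := by
      have := op_LL (i := 3) (by norm_num) hX hX
      simpa [op] using this
    have h4 : ZFSet.sep (fun t => snd t ∈ fst t) (ZFSet.prod X X) ∈ LL := by
      have := op_LL (i := 4) (by norm_num) hX hX
      simpa [op] using this
    exact AtS_LL (R := fun x y => x ∈ y) hX hne h3 h4 (Or.inr fun _ => ZFSet.mem_irrefl _) hn.1 hn.2
  | imp φ ψ h1 h2 =>
    have e : SatS X (.imp φ ψ) n = tups X n \ (SatS X φ n \ SatS X ψ n) := by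
      ext t
      rw [mem_sdiff, mem_sdiff]
      constructor
      · intro h
        refine ⟨SatS_sub h, ?_⟩
        obtain ⟨v, hv, rfl⟩ := (mem_tups hne).1 (SatS_sub h)
        rw [tup_mem_SatS hne hn hv] at h
        rw [tup_mem_SatS hne hn.1 hv, tup_mem_SatS hne hn.2 hv]
        rintro ⟨h3, h4⟩
        exact h4 (h h3)
      · rintro ⟨ht, h⟩
        obtain ⟨v, hv, rfl⟩ := (mem_tups hne).1 ht
        rw [tup_mem_SatS hne hn hv]
        rw [tup_mem_SatS hne hn.1 hv, tup_mem_SatS hne hn.2 hv] at h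
        intro h3
        by_contra h4
        exact h ⟨h3, h4⟩
    rw [e]
    exact diff_LL (tups_LL hX n) (diff_LL (h1 hn.1) (h2 hn.2))
  | all φ ih =>
    have e : SatS X (.all φ) n = tups X n \ rng (tups X (n + 1) \ SatS X φ (n + 1)) := by
      ext t
      rw [mem_sdiff, mem_rng]
      have key : ∀ v : ℕ → ZFSet.{0}, (∀ i, v i ∈ X) →
          ((∃ x, pair x (tup n v) ∈ tups X (n + 1) \ SatS X φ (n + 1)) ↔
            ¬ SatIn (cls X) (.all φ) v) := by
        intro v hv
        simp only [SatIn]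
        push Not
        have hc : ∀ x ∈ X, ∀ i, (cons x v) i ∈ X := by
          intro x hx i
          cases i with
          | zero => exact hx
          | succ i => exact hv i
        constructor
        · rintro ⟨x, hx⟩
          rw [mem_sdiff] at hx
          have hxX : x ∈ X := by
            obtain ⟨w, hw, e⟩ := (mem_tups hne).1 hx.1
            rw [tup, pair_inj] at e
            rw [e.1]; exact hw 0
          refine ⟨x, hxX, ?_⟩
          rw [← tup_mem_SatS hne (show φ.bd (n + 1) from hn) (hc x hxX)]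
          exact hx.2
        · rintro ⟨x, hx, h⟩
          refine ⟨x, ?_⟩
          rw [← tup_mem_SatS hne (show φ.bd (n + 1) from hn) (hc x hx)] at h
          rw [mem_sdiff]
          exact ⟨(mem_tups hne).2 ⟨cons x v, hc x hx, rfl⟩, h⟩
      constructor
      · intro h
        refine ⟨SatS_sub h, ?_⟩
        obtain ⟨v, hv, rfl⟩ := (mem_tups hne).1 (SatS_sub h)
        rw [tup_mem_SatS hne hn hv] at h
        rw [key v hv]
        exact fun h' => h' h
      · rintro ⟨ht, h⟩
        obtain ⟨v, hv, rfl⟩ := (mem_tups hne).1 ht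
        rw [key v hv, not_not] at h
        rw [tup_mem_SatS hne hn hv]
        exact h
    rw [e]
    have h8 := op_LL (i := 8) (by norm_num)
      (diff_LL (tups_LL hX (n + 1)) (ih (show φ.bd (n + 1) from hn))) hX
    have h8' : rng (tups X (n + 1) \ SatS X φ (n + 1)) ∈ LL := by
      simpa [op] using h8
    exact diff_LL (tups_LL hX n) h8'

end H83.AC
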