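import Pool.Agent.H83.AC.Rk
import Pool.Agent.H83.AC.Om

/-!
# Module SetRec: collapse of a relation which is well-founded in the sense of a model

`N` is a transitive model of ZF, `a, e ∈ N`, and every nonempty `d ⊆ a`, `d ∈ N` has an `e`-minimal
element. Then there is `F ∈ N`, a function on `a` with `F x = {F y : y ∈ a, y e x}`.
Proof: as in `Rec.exists_att` (file Rec.lean), with `pred x = {y ∈ a : pair y x ∈ e}`: attempts are
functions `f ∈ N` with `dom f ⊆ a` closed under `pred` and `f x = {f y : y ∈ pred x}`. Two attempts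
agree on the common domain (otherwise take a minimal point of disagreement, the set of these points
is in `N`). The set `B ∈ N` of all `x ∈ a` which are in the domain of no attempt is empty: take `x ∈ B`
minimal; every `y ∈ pred x` has a least attempt (restrict to the intersection of all closed sets
`d ∈ N` containing `y`), which is unique, so by replacement (`TM.img_of`, the map least attempt or ∅
is uniformly definable from `a, e`) their union is in `N`; add the pair `(x, ..)`.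
Finally the union of all least attempts over all `x ∈ a` is `F`.
`honest_wf`: `app F` maps the relation `e` on `a` to `∈`.
-/

namespace H83.AC

open ZFSet

/-- replacement for a uniformly definable relation -/
theorem TM.repl_of {R : Set ZFSet.{0} → ZFSet.{0} → ZFSet.{0} → (ℕ → ZFSet.{0}) → Prop}
    (h : UR (fun N v => R N (v 0) (v 1) (sh (sh v)))) {N : Set ZFSet.{0}} (hN : TM N)
    {v : ℕ → ZFSet.{0}} (hv : ∀ n, v n ∈ N) {a : ZFSet.{0}} (ha : a ∈ N)
    (hu : ∀ x ∈ a, ∃ y ∈ N, R N x y v ∧ ∀ y' ∈ N, R N x y' v → y' = y) :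
    ∃ b ∈ N, ∀ y ∈ N, y ∈ b ↔ ∃ x ∈ a, R N x y v := by
  obtain ⟨φ, hφ⟩ := h
  have key : ∀ x w : N, R N x w v ↔
      Sat (memN N) φ (cons x (cons w (fun n => ⟨v n, hv n⟩))) := fun x w =>
    hφ N hN (cons x (cons w (fun n => ⟨v n, hv n⟩)))
  obtain ⟨b, hb⟩ := hN.zf.replacement φ (fun n => ⟨v n, hv n⟩) ⟨a, ha⟩ (by
    intro x hx
    obtain ⟨y, hy, h1, h2⟩ := hu x hx
    refine ⟨⟨y, hy⟩, (key x ⟨y, hy⟩).1 h1, ?_⟩
    intro w hw
    exact Subtype.ext (h2 w w.2 ((key x w).2 hw)))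
  refine ⟨b, b.2, fun y hy => ?_⟩
  have h1 := hb ⟨y, hy⟩
  constructor
  · intro hyb
    obtain ⟨x, hx, h2⟩ := h1.1 hyb
    exact ⟨x, hx, (key x ⟨y, hy⟩).2 h2⟩
  · rintro ⟨x, hx, h2⟩
    exact h1.2 ⟨⟨x, hN.tr a ha x hx⟩, hx, (key ⟨x, hN.tr a ha x hx⟩ ⟨y, hy⟩).1 h2⟩

/-- the predecessors of `x` -/
noncomputable def prd (a e x : ZFSet.{0}) : ZFSet.{0} := ZFSet.sep (fun y => pair y x ∈ e) a

/-- attempts -/
def SAtt (a e f : ZFSet.{0}) : Prop :=
  (∀ t ∈ f, t = pair (fst t) (app f (fst t))) ∧ dom f ⊆ a ∧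
  ∀ x ∈ dom f, prd a e x ⊆ dom f ∧ app f x = img (fun y => app f y) (prd a e x)

theorem mem_prd {a e x y : ZFSet.{0}} : y ∈ prd a e x ↔ y ∈ a ∧ pair y x ∈ e := mem_sep

instance UR.SAtt {f g h : Set ZFSet.{0} → (ℕ → ZFSet.{0}) → ZFSet.{0}} [hf : UF f] [hg : UF g]
    [hh : UF h] : UR (fun N v => H83.AC.SAtt (f N v) (g N v) (h N v)) := by
  refine UR.comp3 (R := fun _ a e f => H83.AC.SAtt a e f) ?_ hf hg hh
  show UR (fun N v => (∀ t ∈ v 2, t = ZFSet.pair (fst t) (app (v 2) (fst t))) ∧ dom (v 2) ⊆ v 0 ∧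
    ∀ x ∈ dom (v 2), ZFSet.sep (fun y => ZFSet.pair y x ∈ v 1) (v 0) ⊆ dom (v 2) ∧
      app (v 2) x = img (fun y => app (v 2) y) (ZFSet.sep (fun y => ZFSet.pair y x ∈ v 1) (v 0)))
  infer_instance

theorem SAtt.snd_eq {a e f x y : ZFSet.{0}} (h : SAtt a e f) (hp : pair x y ∈ f) :
    y = app f x := by
  have := h.1 _ hp
  rw [fst_pair] at this
  exact (pair_inj.1 this).2

theorem SAtt.pair_mem {a e f x : ZFSet.{0}} (h : SAtt a e f) (hx : x ∈ dom f) :
    pair x (app f x) ∈ f := by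
  obtain ⟨y, hy⟩ := mem_dom.1 hx
  rw [← h.snd_eq hy]
  exact hy

section

variable {N : Set ZFSet.{0}} {a e : ZFSet.{0}}

theorem SAtt.agree (hN : TM N)
    (hwf : ∀ d ∈ N, d ⊆ a → d ≠ ∅ → ∃ x ∈ d, ∀ y ∈ d, pair y x ∉ e) {f g : ZFSet.{0}}
    (hf : f ∈ N) (hg : g ∈ N) (h : SAtt a e f) (h' : SAtt a e g) :
    ∀ x, x ∈ dom f → x ∈ dom g → app f x = app g x := by
  let D : ZFSet.{0} := ZFSet.sep (fun x => x ∈ dom g ∧ ¬ app f x = app g x) (dom f)
  have hD : D ∈ N := by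
    have h1 : UF (fun N v => ZFSet.sep (fun x => x ∈ dom (v 1) ∧ ¬ app (v 0) x = app (v 1) x)
        (dom (v 0))) := by infer_instance
    exact h1.mem N hN (cons f (fun _ => g)) (fun n => by
      cases n with
      | zero => exact hf
      | succ n => exact hg)
  intro x hxf hxg
  by_contra hne
  obtain ⟨y, hy, hm⟩ := hwf D hD (fun z hz => h.2.1 (mem_sep.1 hz).1)
    (fun e' => ZFSet.notMem_empty x (e' ▸ mem_sep.2 ⟨hxf, hxg, hne⟩))
  obtain ⟨h1, h2, h3⟩ := mem_sep.1 hy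
  apply h3
  rw [(h.2.2 y h1).2, (h'.2.2 y h2).2]
  refine img_congr fun z hz => ?_
  by_contra hn
  exact hm z (mem_sep.2 ⟨(h.2.2 y h1).1 hz, (h'.2.2 y h2).1 hz, hn⟩) (mem_prd.1 hz).2

/-- the union of all attempts in the model -/
theorem exists_full (hN : TM N) (ha : a ∈ N) (he : e ∈ N)
    (hwf : ∀ d ∈ N, d ⊆ a → d ≠ ∅ → ∃ x ∈ d, ∀ y ∈ d, pair y x ∉ e) :
    ∃ F ∈ N, SAtt a e F ∧ dom F = a := by
  let v : ℕ → ZFSet.{0} := cons a (fun _ => e)
  have hv : ∀ n, v n ∈ N := fun n => by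
    cases n with
    | zero => exact ha
    | succ n => exact he
  let A : ZFSet.{0} := ZFSet.sep (fun x => ∃ f ∈ N, SAtt a e f ∧ x ∈ dom f) a
  have hA : A ∈ N := by
    have h1 : UF (fun N v => ZFSet.sep (fun x => ∃ f ∈ N, SAtt (v 0) (v 1) f ∧ x ∈ dom f)
        (v 0)) := by infer_instance
    exact h1.mem N hN v hv
  obtain ⟨F, hF, hFm⟩ := TM.repl_of
    (R := fun N x t v => ∃ f ∈ N, SAtt (v 0) (v 1) f ∧ t ∈ f ∧ fst t = x)
    (by infer_instance) hN hv hA (by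
      intro x hx
      obtain ⟨hxa, f, hf, h1, h2⟩ := mem_sep.1 hx
      refine ⟨pair x (app f x), hN.tr f hf _ (h1.pair_mem h2), ⟨f, hf, h1, h1.pair_mem h2,
        fst_pair _ _⟩, ?_⟩
      rintro t ht ⟨g, hg, h3, h4, h5⟩
      have h6 := h3.1 t h4
      rw [h5] at h6
      have h7 : x ∈ dom g := mem_dom.2 ⟨_, by rw [← h6]; exact h4⟩
      rw [h6, SAtt.agree hN hwf hf hg h1 h3 x h2 h7])
  have hFt : ∀ t, t ∈ F ↔ ∃ f ∈ N, SAtt a e f ∧ t ∈ f := by
    intro t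
    constructor
    · intro ht
      obtain ⟨x, -, f, hf, h1, h2, -⟩ := (hFm t (hN.tr F hF t ht)).1 ht
      exact ⟨f, hf, h1, h2⟩
    · rintro ⟨f, hf, h1, h2⟩
      have h3 := h1.1 t h2
      have h4 : fst t ∈ dom f := mem_dom.2 ⟨_, by rw [← h3]; exact h2⟩
      exact (hFm t (hN.tr f hf t h2)).2 ⟨fst t, mem_sep.2 ⟨h1.2.1 h4, f, hf, h1, h4⟩, f, hf, h1, h2,
        rfl⟩
  have happ : ∀ f ∈ N, SAtt a e f → ∀ x ∈ dom f, app F x = app f x := by
    intro f hf h1 x hx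
    refine app_eq ((hFt _).2 ⟨f, hf, h1, h1.pair_mem hx⟩) ?_
    intro z hz
    obtain ⟨g, hg, h2, h3⟩ := (hFt _).1 hz
    rw [h2.snd_eq h3]
    exact SAtt.agree hN hwf hg hf h2 h1 x (mem_dom.2 ⟨_, h3⟩) hx
  have hatt : SAtt a e F := by
    refine ⟨?_, ?_, ?_⟩
    · intro t ht
      obtain ⟨f, hf, h1, h2⟩ := (hFt t).1 ht
      have h3 := h1.1 t h2
      rw [happ f hf h1 (fst t) (mem_dom.2 ⟨_, by rw [← h3]; exact h2⟩)]
      exact h3
    · intro x hx
      obtain ⟨y, hy⟩ := mem_dom.1 hx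
      obtain ⟨f, hf, h1, h2⟩ := (hFt _).1 hy
      exact h1.2.1 (mem_dom.2 ⟨_, h2⟩)
    · intro x hx
      obtain ⟨y, hy⟩ := mem_dom.1 hx
      obtain ⟨f, hf, h1, h2⟩ := (hFt _).1 hy
      have hxf : x ∈ dom f := mem_dom.2 ⟨_, h2⟩
      obtain ⟨h3, h4⟩ := h1.2.2 x hxf
      constructor
      · intro z hz
        exact mem_dom.2 ⟨_, (hFt _).2 ⟨f, hf, h1, h1.pair_mem (h3 hz)⟩⟩
      · rw [happ f hf h1 x hxf, h4]
        exact img_congr fun z hz => (happ f hf h1 z (h3 hz)).symm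
  have hdF : dom F ∈ N := ((UF.var 0).dom).mem N hN (fun _ => F) (fun _ => hF)
  refine ⟨F, hF, hatt, ?_⟩
  by_contra hne
  have hB : (ZFSet.sep (fun x => x ∉ dom F) a) ∈ N := by
    have h1 : UF (fun N v => ZFSet.sep (fun x => x ∉ dom (v 1)) (v 0)) := by infer_instance
    exact h1.mem N hN (cons a (fun _ => F)) (fun n => by
      cases n with
      | zero => exact ha
      | succ n => exact hF)
  have hBne : (ZFSet.sep (fun x => x ∉ dom F) a) ≠ ∅ := by
    intro h0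
    apply hne
    ext x
    refine ⟨fun hx => hatt.2.1 hx, fun hx => ?_⟩
    by_contra hn
    exact ZFSet.notMem_empty x (h0 ▸ mem_sep.2 ⟨hx, hn⟩)
  obtain ⟨x, hx, hm⟩ := hwf _ hB (fun z hz => (mem_sep.1 hz).1) hBne
  obtain ⟨hxa, hxd⟩ := mem_sep.1 hx
  have hpx : prd a e x ⊆ dom F := by
    intro y hy
    by_contra hn
    exact hm y (mem_sep.2 ⟨(mem_prd.1 hy).1, hn⟩) (mem_prd.1 hy).2
  -- extend by one point
  let w : ZFSet.{0} := img (fun y => app F y) (prd a e x)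
  have hxN : x ∈ N := hN.tr a ha x hxa
  have hw : w ∈ N := by
    have h1 : UF (fun N v => img (fun y => app (v 3) y)
        (ZFSet.sep (fun y => pair y (v 2) ∈ v 1) (v 0))) := by infer_instance
    exact h1.mem N hN (cons a (cons e (cons x (fun _ => F)))) (fun n => by
      rcases n with _ | _ | _ | n
      exacts [ha, he, hxN, hF])
  let G : ZFSet.{0} := insert (pair x w) F
  have hG : G ∈ N := hN.insert (hN.pair hxN hw) hF
  have hdG : ∀ y, y ∈ dom G ↔ y = x ∨ y ∈ dom F := by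
    intro y
    rw [mem_dom, mem_dom]
    constructor
    · rintro ⟨z, hz⟩
      rcases mem_insert_iff.1 hz with h | h
      · exact Or.inl (pair_inj.1 h).1
      · exact Or.inr ⟨z, h⟩
    · rintro (rfl | ⟨z, hz⟩)
      · exact ⟨w, mem_insert _ _⟩
      · exact ⟨z, mem_insert_of_mem _ hz⟩
  have hGx : app G x = w := by
    refine app_eq (mem_insert _ _) fun z hz => ?_
    rcases mem_insert_iff.1 hz with h | h
    · exact (pair_inj.1 h).2
    · exact absurd (mem_dom.2 ⟨_, h⟩) hxd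
  have hGy : ∀ y ∈ dom F, app G y = app F y := by
    intro y hy
    refine app_eq (mem_insert_of_mem _ (hatt.pair_mem hy)) fun z hz => ?_
    rcases mem_insert_iff.1 hz with h | h
    · exact absurd ((pair_inj.1 h).1 ▸ hy) hxd
    · exact hatt.snd_eq h
  have hGatt : SAtt a e G := by
    refine ⟨?_, ?_, ?_⟩
    · intro t ht
      rcases mem_insert_iff.1 ht with rfl | h
      · rw [fst_pair, hGx]
      · have h1 := hatt.1 t h
        have h2 : fst t ∈ dom F := mem_dom.2 ⟨_, by rw [← h1]; exact h⟩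
        rw [hGy _ h2]
        exact h1
    · intro y hy
      rcases (hdG y).1 hy with rfl | h
      · exact hxa
      · exact hatt.2.1 h
    · intro y hy
      rcases (hdG y).1 hy with rfl | h
      · refine ⟨fun z hz => (hdG z).2 (Or.inr (hpx hz)), ?_⟩
        rw [hGx]
        exact img_congr fun z hz => (hGy z (hpx hz)).symm
      · obtain ⟨h1, h2⟩ := hatt.2.2 y h
        refine ⟨fun z hz => (hdG z).2 (Or.inr (h1 hz)), ?_⟩
        rw [hGy y h, h2]
        exact img_congr fun z hz => (hGy z (h1 hz)).symm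
  apply hxd
  exact mem_dom.2 ⟨w, (hFt _).2 ⟨G, hG, hGatt, mem_insert _ _⟩⟩

end

theorem setCollapse {N : Set ZFSet.{0}} (hN : TM N) {a e : ZFSet.{0}} (ha : a ∈ N) (he : e ∈ N)
    (hwf : ∀ d ∈ N, d ⊆ a → d ≠ ∅ → ∃ x ∈ d, ∀ y ∈ d, pair y x ∉ e) :
    ∃ F ∈ N, dom F = a ∧ (∀ t ∈ F, t = pair (fst t) (app F (fst t))) ∧
      ∀ x ∈ a, app F x = img (fun y => app F y) (ZFSet.sep (fun y => pair y x ∈ e) a) := by
  obtain ⟨F, hF, h1, h2⟩ := exists_full hN ha he hwf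
  exact ⟨F, hF, h2, h1.1, fun x hx => (h1.2.2 x (by rw [h2]; exact hx)).2⟩

theorem honest_wf {N : Set ZFSet.{0}} (hN : TM N) {a e : ZFSet.{0}} (ha : a ∈ N) (he : e ∈ N)
    (hwf : ∀ d ∈ N, d ⊆ a → d ≠ ∅ → ∃ x ∈ d, ∀ y ∈ d, pair y x ∉ e) :
    WellFounded (fun y x : ZFSet.{0} => y ∈ a ∧ x ∈ a ∧ pair y x ∈ e) := by
  obtain ⟨F, hF, h1, h2, h3⟩ := setCollapse hN ha he hwf
  refine Subrelation.wf (r := InvImage (fun x y : ZFSet.{0} => x ∈ y) (fun x => app F x)) ?_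
    (InvImage.wf _ ZFSet.mem_wf)
  rintro y x ⟨hy, hx, hyx⟩
  show app F y ∈ app F x
  rw [h3 x hx, mem_img]
  exact ⟨y, mem_sep.2 ⟨hy, hyx⟩, rfl⟩

/-- the rank function of such a relation, with values in some ordinal `rk y`, `y ∈ N` -/
theorem setRank {N : Set ZFSet.{0}} (hN : TM N) {a e : ZFSet.{0}} (ha : a ∈ N) (he : e ∈ N)
    (hwf : ∀ d ∈ N, d ⊆ a → d ≠ ∅ → ∃ x ∈ d, ∀ y ∈ d, pair y x ∉ e) :
    ∃ f ∈ N, ∃ y ∈ N, IsFunc a (rk y) f ∧
      ∀ x ∈ a, ∀ x' ∈ a, pair x' x ∈ e → app f x' ∈ app f x := by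
  obtain ⟨F, hF, h1, h2, h3⟩ := setCollapse hN ha he hwf
  have hv : ∀ n, (cons a (fun _ => F) : ℕ → ZFSet.{0}) n ∈ N := fun n => by
    cases n with
    | zero => exact ha
    | succ n => exact hF
  refine ⟨fgr (fun x => rk (app F x)) a, ?_, img (fun x => app F x) a, ?_, ?_, ?_⟩
  · have h : UF (fun N v => fgr (fun x => rk (app (v 1) x)) (v 0)) := by infer_instance
    exact h.mem N hN (cons a (fun _ => F)) hv
  · have h : UF (fun N v => img (fun x => app (v 1) x) (v 0)) := by infer_instance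
    exact h.mem N hN (cons a (fun _ => F)) hv
  · refine ⟨?_, ?_⟩
    · intro t ht
      obtain ⟨x, hx, rfl⟩ := mem_fgr.1 ht
      exact pair_mem_prod.2 ⟨hx, rk_mem_rk.2 (rank_lt_of_mem (mem_img.2 ⟨x, hx, rfl⟩))⟩
    · intro x hx
      refine ⟨rk (app F x), pair_mem_fgr.2 ⟨hx, rfl⟩, ?_⟩
      intro z hz
      exact (pair_mem_fgr.1 hz).2
  · intro x hx x' hx' hxx
    rw [app_fgr hx, app_fgr hx', rk_mem_rk]
    apply rank_lt_of_mem
    rw [h3 x hx, mem_img]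
    exact ⟨x', mem_sep.2 ⟨hx', hxx⟩, rfl⟩

end H83.AC
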