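import Pool.Agent.H83.AC.NNtm

/-!
# Module Transf: definable statements about the symmetric extension are forced

`R` is uniformly definable for transitive models of ZF by a formula `φ`; `NN M c` and all `NN M c'`
(`c'` generic) are such models (`NN_tm`). If `R (NN M c) (val c ∘ u)` then `SatIn (NN M c) φ ..`, so by
`truth` some fitting `p` has `Fc M φ p u`, and `truth` for `c'` gives `R (NN M c') (val c' ∘ u)`.
-/

namespace H83.AC

open ZFSet

theorem forced_of_true {R : Set ZFSet.{0} → (ℕ → ZFSet.{0}) → Prop} (hR : UR R)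
    {M c : Set ZFSet.{0}} (hM : TM M) (hc : Gen M c) {u : ℕ → ZFSet.{0}}
    (hu : ∀ i, u i ∈ M ∧ HS M (u i)) (h : R (NN M c) (fun i => val c (u i))) :
    ∃ p ∈ Cond, Fits p c ∧ ∀ c', Gen M c' → Fits p c' → R (NN M c') (fun i => val c' (u i)) := by
  obtain ⟨φ, hφ⟩ := hR
  have key : ∀ c', Gen M c' → (R (NN M c') (fun i => val c' (u i)) ↔
      SatIn (NN M c') φ (fun i => val c' (u i))) := by
    intro c' hc'
    let v : ℕ → NN M c' := fun i => ⟨val c' (u i), u i, (hu i).1, (hu i).2, rfl⟩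
    exact (hφ _ (NN_tm hM hc') v).trans (sat_iff _ _ v)
  obtain ⟨p, hp, hf, h1⟩ := (truth hM hc φ u hu).1 ((key c hc).1 h)
  exact ⟨p, hp, hf, fun c' hc' hf' => (key c' hc').2 ((truth hM hc' φ u hu).2 ⟨p, hp, hf', h1⟩)⟩

end H83.AC
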