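import Pool.Agent.H83.AC.PiT
import Pool.Agent.H83.AC.Defs3
import Pool.Agent.H83.AC.Transf
import Pool.Agent.H83.AC.Reals

/-!
# Module StarM: the situation of the main argument

`exists_star`: `A = app (val c σ) k`; let `x₀ ∈ A` (a real number of `NN M c`), `T` from `PI1_tree`.
`NN_sub_ground` with `H = HF` gives names `ex`, `eT` over finitely many columns (`nz n₁`, `nz n₂`; take the
maximum `n`, `CondC_mono`). Apply `forced_of_true` to the relation
`R N v = (v 2 ∈ app (v 0) (v 3) ∧ IsFunc omega omega (v 2) ∧ ∀ x ∈ N, IsFunc omega omega x →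
(x ∈ app (v 0) (v 3) ↔ ¬ HBr (v 1) x))` (`infer_instance`) and the names
`u = σ, rn eT, rn ex, chk k, ∅, ∅, ..` (`val_rn`, `HS_rn`, `val_chk`, `HS_chk`; `∅ = chk ∅`).
(`e ⊆ prod (CondC m) H → e ⊆ prod Cond H`.)
`star_sd`: `c'' = sd c z` is generic, `NN M c'' = NN M c`, `val c'' σ = val c σ` (`val_sd` and
`actN z σ = σ`).
-/

namespace H83.AC

open ZFSet

/-- the statement which is forced -/
private def StR (N : Set ZFSet.{0}) (v : ℕ → ZFSet.{0}) : Prop :=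
  v 2 ∈ app (v 0) (v 3) ∧ IsFunc omega omega (v 2) ∧
    ∀ x ∈ N, IsFunc omega omega x → (x ∈ app (v 0) (v 3) ↔ ¬ HBr (v 1) x)

private theorem StR_uf : UR StR := by
  have h : UR (fun N v => v 2 ∈ app (v 0) (v 3) ∧ IsFunc omega omega (v 2) ∧
    ∀ x ∈ N, IsFunc omega omega x → (x ∈ app (v 0) (v 3) ↔ ¬ HBr (v 1) x)) := by
    infer_instance
  exact h

private theorem prod_CondC_mono {a b : ℕ} (h : a ≤ b) {e H : ZFSet.{0}}
    (he : e ⊆ ZFSet.prod (CondC (nz a)) H) : e ⊆ ZFSet.prod (CondC (nz b)) H := by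
  intro t ht
  obtain ⟨x, hx, y, hy, rfl⟩ := ZFSet.mem_prod.1 (he ht)
  exact ZFSet.pair_mem_prod.2 ⟨CondC_mono h hx, hy⟩

private theorem prod_CondC_Cond {m e H : ZFSet.{0}}
    (he : e ⊆ ZFSet.prod (CondC m) H) : e ⊆ ZFSet.prod Cond H := by
  intro t ht
  obtain ⟨x, hx, y, hy, rfl⟩ := ZFSet.mem_prod.1 (he ht)
  exact ZFSet.pair_mem_prod.2 ⟨(mem_sep.1 hx).1, hy⟩

/-- the names -/
private noncomputable def StU (σ eT ex k : ZFSet.{0}) : ℕ → ZFSet.{0}
  | 0 => σ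
  | 1 => rn eT
  | 2 => rn ex
  | 3 => chk k
  | _ + 4 => chk ∅

theorem exists_star {M c : Set ZFSet.{0}} (hM : TM M) (hc : Gen M c) {σ k : ZFSet.{0}} {m : ℕ}
    (hσ : σ ∈ M) (hHS : HS M σ) (hs : Supp M (nz m) σ) (hk : k ∈ omega)
    (hPI : PI1 (NN M c) (app (val c σ) k)) (hne : app (val c σ) k ≠ ∅) :
    ∃ n p ex eT, Star M m n σ k p ex eT ∧ Fits p c := by
  have hN := NN_tm hM hc
  obtain ⟨T, hTN, hTHF, hT⟩ := PI1_tree hN hPI
  obtain ⟨x₀, hx₀⟩ : ∃ x, x ∈ app (val c σ) k := by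
    by_contra hcon
    push Not at hcon
    exact hne ((ZFSet.eq_empty _).2 hcon)
  have hR := hPI.1 x₀ hx₀
  have hHF : HF ∈ M := UF.HF.mem M hM (fun _ => σ) (fun _ => hσ)
  have hkM : k ∈ M := hM.tr _ hM.omega _ hk
  obtain ⟨m1, hm1, ex, hexM, hexS, hex⟩ := NN_sub_ground hM hc hR.1 hHF (fn_HF hR.2)
  obtain ⟨m2, hm2, eT, heTM, heTS, heT⟩ := NN_sub_ground hM hc hTN hHF hTHF
  obtain ⟨n1, rfl⟩ := mem_omega.1 hm1
  obtain ⟨n2, rfl⟩ := mem_omega.1 hm2
  have hexC := prod_CondC_Cond hexS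
  have heTC := prod_CondC_Cond heTS
  have hempty : (∅ : ZFSet.{0}) ∈ M := UF.empty.mem M hM (fun _ => σ) (fun _ => hσ)
  have hrnM : ∀ e ∈ M, rn e ∈ M := fun e he => (UF.rn (UF.var 0)).mem M hM (fun _ => e) (fun _ => he)
  have hchM : ∀ e ∈ M, chk e ∈ M := fun e he => (UF.chk (UF.var 0)).mem M hM (fun _ => e) (fun _ => he)
  have hu : ∀ i, StU σ eT ex k i ∈ M ∧ HS M (StU σ eT ex k i) := by
    intro i
    match i with
    | 0 => exact ⟨hσ, hHS⟩
    | 1 => exact ⟨hrnM _ heTM, HS_rn hm2 heTS⟩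
    | 2 => exact ⟨hrnM _ hexM, HS_rn hm1 hexS⟩
    | 3 => exact ⟨hchM _ hkM, HS_chk M k⟩
    | _ + 4 => exact ⟨hchM _ hempty, HS_chk M ∅⟩
  have hval : ∀ c' : Set ZFSet.{0}, StR (NN M c') (fun i => val c' (StU σ eT ex k i)) ↔
      ev ex c' ∈ app (val c' σ) k ∧ IsFunc omega omega (ev ex c') ∧
        ∀ x ∈ NN M c', IsFunc omega omega x → (x ∈ app (val c' σ) k ↔ ¬ HBr (ev eT c') x) := by
    intro c'
    have h1 : val c' (StU σ eT ex k 0) = val c' σ := rfl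
    have h2 : val c' (StU σ eT ex k 1) = ev eT c' := val_rn heTC c'
    have h3 : val c' (StU σ eT ex k 2) = ev ex c' := val_rn hexC c'
    have h4 : val c' (StU σ eT ex k 3) = k := val_chk c' k
    unfold StR
    beta_reduce
    rw [h1, h2, h3, h4]
  have hstart : StR (NN M c) (fun i => val c (StU σ eT ex k i)) := by
    rw [hval, ← hex, ← heT]
    exact ⟨hx₀, hR.2, fun x hx hf => hT x ⟨hx, hf⟩⟩
  obtain ⟨p, hp, hfit, hall⟩ := forced_of_true StR_uf hM hc hu hstart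
  refine ⟨max n1 n2, p, ex, eT, ?_, hfit⟩
  exact
    { σM := hσ
      σHS := hHS
      supp := hs
      kω := hk
      pC := hp
      exM := hexM
      eTM := heTM
      exS := prod_CondC_mono (le_max_left _ _) hexS
      eTS := prod_CondC_mono (le_max_right _ _) heTS
      mem := fun c' hc' hf' => ((hval c').1 (hall c' hc' hf')).1
      fn := fun c' hc' hf' => ((hval c').1 (hall c' hc' hf')).2.1
      char := fun c' hc' hf' x hx => ((hval c').1 (hall c' hc' hf')).2.2 x hx.1 hx.2 }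

theorem star_sd {M : Set ZFSet.{0}} (hM : TM M) {m n : ℕ} {σ k p ex eT : ZFSet.{0}}
    (hS : Star M m n σ k p ex eT) {c : Set ZFSet.{0}} (hc : Gen M c) {z : ZFSet.{0}} (hz : z ∈ M)
    (hA : Avoid (nz m) z) (hp : Fits p c) (hp' : Fits p (sd c z)) :
    ¬ HBr (ev eT c) (ev ex (sd c z)) := by
  have hgen := gen_sd hM hz hA.1 hc
  have hNN : NN M (sd c z) = NN M c := NN_sd hM hz hA.1
  have hval : val (sd c z) σ = val c σ := by
    have h1 := val_sd (c := c) (z := z) hS.σHS.isName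
    rwa [hS.supp.2 z hz hA] at h1
  have h1 := hS.mem (sd c z) hgen hp'
  rw [hval] at h1
  have h2 := hS.fn (sd c z) hgen hp'
  have h3 : ev ex (sd c z) ∈ NN M c := by
    rw [← hNN]
    exact ev_mem hM (nz_mem_omega n) hS.exM hS.exS
  exact (hS.char c hc hp _ ⟨h3, h2⟩).1 h1

end H83.AC
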