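import Pool.Agent.H83.AC.Fml

/-!
# Projective sets and countable choice in an arbitrary structure `(M, E)`

`E x y` is read `x ∈ y`. All notions are interpreted in the structure.
-/

namespace H83.AC

variable {M : Type*} (E : M → M → Prop)

/-- `e` is empty -/
def IsEmp (e : M) : Prop := ∀ z, ¬ E z e

/-- `s = n ∪ {n}` -/
def IsSuc (s n : M) : Prop := ∀ z, E z s ↔ E z n ∨ z = n

/-- `a` contains the empty set and is closed under successors -/
def IsInd (a : M) : Prop := (∃ e, IsEmp E e ∧ E e a) ∧ ∀ n, E n a → ∃ s, IsSuc E s n ∧ E s a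

/-- `w` is the set of the natural numbers: the least inductive set -/
def IsOm (w : M) : Prop := IsInd E w ∧ ∀ a, IsInd E a → ∀ n, E n w → E n a

/-- `n` is a natural number -/
def IsNat (n : M) : Prop := ∃ w, IsOm E w ∧ E n w

/-- `p = {x, y}` -/
def IsUp (p x y : M) : Prop := ∀ z, E z p ↔ z = x ∨ z = y

/-- `t` is the ordered pair `(x, y)` (Kuratowski) -/
def IsOp (t x y : M) : Prop := ∃ a b, IsUp E a x x ∧ IsUp E b x y ∧ IsUp E t a b

/-- `(x, y) ∈ f` -/
def In2 (f x y : M) : Prop := ∃ t, IsOp E t x y ∧ E t f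

/-- `(x, (y, z)) ∈ f` -/
def In3 (f x y z : M) : Prop := ∃ u, IsOp E u y z ∧ In2 E f x u

/-- `f` is a function from `a` to `b` -/
def IsFun (f a b : M) : Prop :=
  (∀ t, E t f → ∃ x y, E x a ∧ E y b ∧ IsOp E t x y) ∧ ∀ x, E x a → ∃! y, In2 E f x y

/-- `x` is a real number: an element of the Baire space, a function from `ω` to `ω` -/
def IsReal (x : M) : Prop := ∃ w, IsOm E w ∧ IsFun E x w w

/-- `x` and `x'` have the same values at all elements of `n` -/
def Agr (n x x' : M) : Prop := ∀ i, E i n → ∀ j, In2 E x i j ↔ In2 E x' i j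

/-- `C` is a closed subset of `ℝ × ℝ`: every pair of reals outside `C` has a basic neighbourhood
(the pairs with the same values below `n`) outside `C` -/
def IsClosed2 (C : M) : Prop :=
  (∀ t, E t C → ∃ x y, IsReal E x ∧ IsReal E y ∧ IsOp E t x y) ∧
  ∀ x y, IsReal E x → IsReal E y → ¬ In2 E C x y →
    ∃ n, IsNat E n ∧ ∀ x' y', IsReal E x' → IsReal E y' → Agr E n x x' → Agr E n y y' →
      ¬ In2 E C x' y'

/-- `C` is a closed subset of `ℝ × ℝ × ℝ` -/
def IsClosed3 (C : M) : Prop :=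
  (∀ t, E t C → ∃ x y z u, IsReal E x ∧ IsReal E y ∧ IsReal E z ∧ IsOp E u y z ∧ IsOp E t x u) ∧
  ∀ x y z, IsReal E x → IsReal E y → IsReal E z → ¬ In3 E C x y z →
    ∃ n, IsNat E n ∧ ∀ x' y' z', IsReal E x' → IsReal E y' → IsReal E z' →
      Agr E n x x' → Agr E n y y' → Agr E n z z' → ¬ In3 E C x' y' z'

/-- `A` is a (boldface) `Π¹₁` set of reals: `x ∈ A ↔ ∀ y, (x, y) ∉ C` for a closed set `C` -/
def IsPi11 (A : M) : Prop :=
  (∀ x, E x A → IsReal E x) ∧ ∃ C, IsClosed2 E C ∧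
    ∀ x, IsReal E x → (E x A ↔ ∀ y, IsReal E y → ¬ In2 E C x y)

/-- `A` is a (boldface) `Π¹₂` set of reals: `x ∈ A ↔ ∀ y, ∃ z, (x, y, z) ∈ C` for a closed set
`C` -/
def IsPi12 (A : M) : Prop :=
  (∀ x, E x A → IsReal E x) ∧ ∃ C, IsClosed3 E C ∧
    ∀ x, IsReal E x → (E x A ↔ ∀ y, IsReal E y → ∃ z, IsReal E z ∧ In3 E C x y z)

/-- `f` is a sequence: a function with domain `ω` -/
def IsSeq (f : M) : Prop := ∃ w, IsOm E w ∧ (∀ t, E t f → ∃ k y, E k w ∧ IsOp E t k y) ∧
  ∀ k, E k w → ∃! y, In2 E f k y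

/-- countable choice for sets in the class `Γ`: for every sequence `B` of nonempty sets in `Γ` there
is a sequence `f` with `f k ∈ B k` for all `k` -/
def ACom (Γ : M → Prop) : Prop :=
  ∀ B, IsSeq E B → (∀ k A, In2 E B k A → Γ A ∧ ∃ x, E x A) →
    ∃ f, IsSeq E f ∧ ∀ k A x, In2 E B k A → In2 E f k x → E x A

end H83.AC
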