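import Pool.Agent.H83.AC.LoB

/-!
# Module SxD: `D0` definability of ordered pairs and of one step of the hierarchy

`D0 R` means: one formula defines `R` in every transitive class. Only the rules `UD.mem`, `UD.eq`,
`UD.and`, `UD.or`, `UD.imp`, `UD.not`, `UD.iff`, `UD.ren`, `UD.ball'`, `UD.bex'` (quantifiers bounded
by a VARIABLE), `UD.congr` may be used here (no functions!).
Strategy: write every relation with bounded quantifiers, then use `UD.congr` to pass to the honest
relation. Steps: `z = {x, y}`; `t = pair x y` (`∃ s ∈ t, ∃ d ∈ t, s = {x} ∧ d = {x, y} ∧ t = {s, d}`);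
`x ∈ ⋃₀ t` etc. as `∃ s ∈ t, x ∈ s`; `m i z a b` : `z ∈ op i a b` and `Sb i a b w` : `op i a b ⊆ w` for
`i = 0, .., 9` (for `6, 7, 8, 9` quantify over `t ∈ a` and the components of `t`: elements of elements
of `t`; recall that `fst t = ∅ = snd t` if `t` is not a pair, so treat the case of non pairs too,
or note `fst t`, `snd t` are always determined by `u = fst t` iff (`∃ v, t = pair u v`) or
(`t` is not a pair and `u = ∅`)); `w = op i a b ↔ (∀ z ∈ w, m i z a b) ∧ Sb i a b w`.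
For a transitive class all quantifiers over components are bounded.
`Sx`: `mem_Sx`.
-/

namespace H83.AC

open ZFSet

theorem D0.emp (i : ℕ) : D0 (fun v => v i = ∅) := by
  refine (UD.ball' (R := fun _ _ _ => False) i UD.false).congr fun N _ v _ => ?_
  constructor
  · intro h x hx; rw [h] at hx; exact ZFSet.notMem_empty _ hx
  · intro h
    ext x
    exact ⟨fun hx => (h x hx).elim, fun hx => (ZFSet.notMem_empty _ hx).elim⟩

theorem D0.up (i j k : ℕ) : D0 (fun v => v i = {v j, v k}) := by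
  refine ((UD.mem j i).and ((UD.mem k i).and (UD.ball' (R := fun _ x v => x = v j ∨ x = v k) i
    ((UD.eq 0 (j + 1)).or (UD.eq 0 (k + 1)))))).congr fun N _ v _ => ?_
  constructor
  · intro h; rw [h]; simp
  · rintro ⟨h1, h2, h3⟩
    ext x
    rw [ZFSet.mem_pair]
    constructor
    · intro hx; exact h3 x hx
    · rintro (rfl | rfl)
      · exact h1
      · exact h2

theorem D0.upair : D0 (fun v => v 0 = {v 1, v 2}) := D0.up 0 1 2

theorem D0.sing (i j : ℕ) : D0 (fun v => v i = {v j}) :=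
  (D0.up i j j).congr fun N _ v _ => by simp only [pair_eq_singleton]

theorem D0.pr (i j k : ℕ) : D0 (fun v => v i = ZFSet.pair (v j) (v k)) := by
  have h : D0 (fun v => ∃ s ∈ v i, ∃ d ∈ v i, s = {v j} ∧ d = {v j, v k} ∧ v i = {s, d}) := by
    refine UD.bex' (R := fun _ s v => ∃ d ∈ v i, s = {v j} ∧ d = {v j, v k} ∧ v i = {s, d}) i ?_
    refine UD.bex' (R := fun _ d w => w 0 = {w (j + 1)} ∧ d = {w (j + 1), w (k + 1)} ∧
      w (i + 1) = {w 0, d}) (i + 1) ?_
    exact (D0.sing 1 (j + 2)).and ((D0.up 0 (j + 2) (k + 2)).and (D0.up (i + 2) 1 0))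
  refine h.congr fun N _ v _ => ?_
  constructor
  · intro h
    exact ⟨{v j}, by rw [h, ZFSet.pair]; simp, {v j, v k}, by rw [h, ZFSet.pair]; simp, rfl, rfl,
      h⟩
  · rintro ⟨s, -, d, -, rfl, rfl, h⟩
    exact h

theorem D0.pair : D0 (fun v => v 0 = ZFSet.pair (v 1) (v 2)) := D0.pr 0 1 2


theorem mem_of_pair {t a b : ZFSet.{0}} (h : t = ZFSet.pair a b) : ∃ d ∈ t, a ∈ d ∧ b ∈ d := by
  refine ⟨{a, b}, ?_, ?_, ?_⟩
  · rw [h, ZFSet.pair]; simp
  · simp
  · simp

theorem D0.isPair (i : ℕ) : D0 (fun v => ∃ a b, v i = ZFSet.pair a b) := by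
  have h : D0 (fun v => ∃ d ∈ v i, ∃ a ∈ d, ∃ b ∈ d, v i = ZFSet.pair a b) := by
    (repeat' first
        | exact UD.true | exact UD.false | exact UD.mem _ _ | exact UD.eq _ _ | exact D0.emp _
        | exact D0.up _ _ _ | exact D0.sing _ _ | exact D0.pr _ _ _ | apply UD.and | apply UD.or
        | apply UD.ball' | apply UD.bex' | apply UD.iff | apply UD.not | apply UD.imp)
  refine h.congr fun N _ v _ => ?_
  constructor
  · rintro ⟨a, b, h⟩
    obtain ⟨d, hd, ha, hb⟩ := mem_of_pair h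
    exact ⟨d, hd, a, ha, b, hb, h⟩
  · rintro ⟨d, hd, a, ha, b, hb, h⟩
    exact ⟨a, b, h⟩

theorem fst_of_not {t : ZFSet.{0}} (h : ¬ ∃ a b, t = ZFSet.pair a b) : H83.AC.fst t = ∅ := by
  ext w
  constructor
  · intro hw
    rw [H83.AC.fst, mem_sUnion] at hw
    obtain ⟨z, hz, -⟩ := hw
    rw [mem_sep] at hz
    obtain ⟨-, y, -, e⟩ := hz
    exact (h ⟨z, y, e⟩).elim
  · intro hw; exact (ZFSet.notMem_empty _ hw).elim

theorem snd_of_not {t : ZFSet.{0}} (h : ¬ ∃ a b, t = ZFSet.pair a b) : H83.AC.snd t = ∅ := by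
  ext w
  constructor
  · intro hw
    rw [H83.AC.snd, mem_sUnion] at hw
    obtain ⟨z, hz, -⟩ := hw
    rw [mem_sep] at hz
    obtain ⟨-, y, -, e⟩ := hz
    exact (h ⟨y, z, e⟩).elim
  · intro hw; exact (ZFSet.notMem_empty _ hw).elim

theorem D0.fs (i j : ℕ) : D0 (fun v => v i = H83.AC.fst (v j)) := by
  have h : D0 (fun v => (∃ d ∈ v j, ∃ b ∈ d, v j = ZFSet.pair (v i) b) ∨
      ((¬ ∃ a b, v j = ZFSet.pair a b) ∧ v i = ∅)) := by
    (repeat' first
        | exact D0.isPair _ | exact UD.true | exact UD.false | exact UD.mem _ _ | exact UD.eq _ _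
        | exact D0.emp _ | exact D0.up _ _ _ | exact D0.sing _ _ | exact D0.pr _ _ _
        | apply UD.and | apply UD.or | apply UD.ball' | apply UD.bex' | apply UD.iff
        | apply UD.not | apply UD.imp)
  refine h.congr fun N _ v _ => ?_
  constructor
  · intro h
    by_cases hp : ∃ a b, v j = ZFSet.pair a b
    · obtain ⟨a, b, e⟩ := hp
      have h' : v i = a := by rw [← fst_pair a b, ← e]; exact h
      obtain ⟨d, hd, ha, hb⟩ := mem_of_pair e
      exact Or.inl ⟨d, hd, b, hb, by rw [h']; exact e⟩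
    · exact Or.inr ⟨hp, by rw [← fst_of_not hp]; exact h⟩
  · rintro (⟨d, hd, b, hb, e⟩ | ⟨hp, e⟩)
    · rw [e, fst_pair]
    · rw [e, fst_of_not hp]

theorem D0.fst : D0 (fun v => v 0 = H83.AC.fst (v 1)) := D0.fs 0 1

theorem D0.sn (i j : ℕ) : D0 (fun v => v i = H83.AC.snd (v j)) := by
  have h : D0 (fun v => (∃ d ∈ v j, ∃ a ∈ d, v j = ZFSet.pair a (v i)) ∨
      ((¬ ∃ a b, v j = ZFSet.pair a b) ∧ v i = ∅)) := by
    (repeat' first
        | exact D0.isPair _ | exact UD.true | exact UD.false | exact UD.mem _ _ | exact UD.eq _ _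
        | exact D0.emp _ | exact D0.up _ _ _ | exact D0.sing _ _ | exact D0.pr _ _ _
        | apply UD.and | apply UD.or | apply UD.ball' | apply UD.bex' | apply UD.iff
        | apply UD.not | apply UD.imp)
  refine h.congr fun N _ v _ => ?_
  constructor
  · intro h
    by_cases hp : ∃ a b, v j = ZFSet.pair a b
    · obtain ⟨a, b, e⟩ := hp
      have h' : v i = b := by rw [← snd_pair a b, ← e]; exact h
      obtain ⟨d, hd, ha, hb⟩ := mem_of_pair e
      exact Or.inl ⟨d, hd, a, ha, by rw [h']; exact e⟩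
    · exact Or.inr ⟨hp, by rw [← snd_of_not hp]; exact h⟩
  · rintro (⟨d, hd, a, ha, e⟩ | ⟨hp, e⟩)
    · rw [e, snd_pair]
    · rw [e, snd_of_not hp]

theorem D0.snd : D0 (fun v => v 0 = H83.AC.snd (v 1)) := D0.sn 0 1

/-- the code of `op 6` -/
theorem D0.c6 (i j k : ℕ) : D0 (fun v => v i = ZFSet.pair (H83.AC.fst (v j))
    (ZFSet.pair (H83.AC.snd (v j)) (v k))) := by
  have h : D0 (fun v => ∃ d ∈ v i, ∃ u ∈ d, ∃ p ∈ d, v i = ZFSet.pair u p ∧
      u = H83.AC.fst (v j) ∧ ∃ e ∈ p, ∃ r ∈ e, p = ZFSet.pair r (v k) ∧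
      r = H83.AC.snd (v j)) := by
    (repeat' first
        | exact D0.fs _ _ | exact D0.sn _ _ | exact UD.true | exact UD.false | exact UD.mem _ _
        | exact UD.eq _ _ | exact D0.emp _ | exact D0.up _ _ _ | exact D0.sing _ _
        | exact D0.pr _ _ _ | apply UD.and | apply UD.or | apply UD.ball' | apply UD.bex'
        | apply UD.iff | apply UD.not | apply UD.imp)
  refine h.congr fun N _ v _ => ?_
  constructor
  · intro h
    obtain ⟨d, hd, ha, hb⟩ := mem_of_pair h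
    obtain ⟨e, he, ha', -⟩ := mem_of_pair (t := ZFSet.pair (H83.AC.snd (v j)) (v k)) rfl
    exact ⟨d, hd, _, ha, _, hb, h, rfl, e, he, _, ha', rfl, rfl⟩
  · rintro ⟨d, hd, u, hu, p, hp, h, rfl, e, he, r, hr, rfl, rfl⟩
    exact h

theorem D0.c7 (i j k : ℕ) : D0 (fun v => v i = ZFSet.pair (H83.AC.fst (v j))
    (ZFSet.pair (v k) (H83.AC.snd (v j)))) := by
  have h : D0 (fun v => ∃ d ∈ v i, ∃ u ∈ d, ∃ p ∈ d, v i = ZFSet.pair u p ∧
      u = H83.AC.fst (v j) ∧ ∃ e ∈ p, ∃ r ∈ e, p = ZFSet.pair (v k) r ∧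
      r = H83.AC.snd (v j)) := by
    (repeat' first
        | exact D0.fs _ _ | exact D0.sn _ _ | exact UD.true | exact UD.false | exact UD.mem _ _
        | exact UD.eq _ _ | exact D0.emp _ | exact D0.up _ _ _ | exact D0.sing _ _
        | exact D0.pr _ _ _ | apply UD.and | apply UD.or | apply UD.ball' | apply UD.bex'
        | apply UD.iff | apply UD.not | apply UD.imp)
  refine h.congr fun N _ v _ => ?_
  constructor
  · intro h
    obtain ⟨d, hd, ha, hb⟩ := mem_of_pair h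
    obtain ⟨e, he, -, ha'⟩ := mem_of_pair (t := ZFSet.pair (v k) (H83.AC.snd (v j))) rfl
    exact ⟨d, hd, _, ha, _, hb, h, rfl, e, he, _, ha', rfl, rfl⟩
  · rintro ⟨d, hd, u, hu, p, hp, h, rfl, e, he, r, hr, rfl, rfl⟩
    exact h

theorem mem_op0 {x y z : ZFSet.{0}} : z ∈ H83.AC.op 0 x y ↔ z = x ∨ z = y := by
  have e : H83.AC.op 0 x y = {x, y} := rfl
  rw [e, ZFSet.mem_pair]

theorem mem_op1 {x y z : ZFSet.{0}} : z ∈ H83.AC.op 1 x y ↔ z ∈ x ∧ ¬ z ∈ y := by
  have e : H83.AC.op 1 x y = x \ y := rfl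
  rw [e]; simp

theorem mem_op2 {x y z : ZFSet.{0}} : z ∈ H83.AC.op 2 x y ↔
    ∃ a ∈ x, ∃ b ∈ y, z = ZFSet.pair a b := by
  have e : H83.AC.op 2 x y = ZFSet.prod x y := rfl
  rw [e, ZFSet.mem_prod]

theorem mem_sepprod {R : ZFSet.{0} → ZFSet.{0} → Prop} {x y z : ZFSet.{0}} :
    z ∈ ZFSet.sep (fun t => R (H83.AC.fst t) (H83.AC.snd t)) (ZFSet.prod x y) ↔
    ∃ a ∈ x, ∃ b ∈ y, z = ZFSet.pair a b ∧ R a b := by
  rw [mem_sep, mem_prod]
  constructor
  · rintro ⟨⟨x, hx, y, hy, e⟩, h⟩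
    rw [e, fst_pair, snd_pair] at h
    exact ⟨x, hx, y, hy, e, h⟩
  · rintro ⟨x, hx, y, hy, e, h⟩
    refine ⟨⟨x, hx, y, hy, e⟩, ?_⟩
    rw [e, fst_pair, snd_pair]; exact h

theorem mem_op3 {x y z : ZFSet.{0}} : z ∈ H83.AC.op 3 x y ↔
    ∃ a ∈ x, ∃ b ∈ y, z = ZFSet.pair a b ∧ a ∈ b :=
  mem_sepprod (R := fun a b => a ∈ b)

theorem mem_op4 {x y z : ZFSet.{0}} : z ∈ H83.AC.op 4 x y ↔
    ∃ a ∈ x, ∃ b ∈ y, z = ZFSet.pair a b ∧ b ∈ a :=
  mem_sepprod (R := fun a b => b ∈ a)

theorem mem_op5 {x y z : ZFSet.{0}} : z ∈ H83.AC.op 5 x y ↔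
    ∃ a ∈ x, ∃ b ∈ y, z = ZFSet.pair a b ∧ a = b :=
  mem_sepprod (R := fun a b => a = b)

theorem mem_op6 {x y z : ZFSet.{0}} : z ∈ H83.AC.op 6 x y ↔
    ∃ t ∈ x, ∃ s ∈ y, z = ZFSet.pair (H83.AC.fst t) (ZFSet.pair (H83.AC.snd t) s) := by
  have e : H83.AC.op 6 x y = uni (fun t => img (fun s => ZFSet.pair (H83.AC.fst t)
    (ZFSet.pair (H83.AC.snd t) s)) y) x := rfl
  rw [e, mem_uni]
  refine exists_congr fun t => and_congr_right fun _ => ?_
  rw [mem_img]
  exact exists_congr fun s => and_congr_right fun _ => eq_comm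

theorem mem_op7 {x y z : ZFSet.{0}} : z ∈ H83.AC.op 7 x y ↔
    ∃ t ∈ x, ∃ s ∈ y, z = ZFSet.pair (H83.AC.fst t) (ZFSet.pair s (H83.AC.snd t)) := by
  have e : H83.AC.op 7 x y = uni (fun t => img (fun s => ZFSet.pair (H83.AC.fst t)
    (ZFSet.pair s (H83.AC.snd t))) y) x := rfl
  rw [e, mem_uni]
  refine exists_congr fun t => and_congr_right fun _ => ?_
  rw [mem_img]
  exact exists_congr fun s => and_congr_right fun _ => eq_comm

theorem mem_op8 {x y z : ZFSet.{0}} : z ∈ H83.AC.op 8 x y ↔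
    ∃ t ∈ x, ∃ d ∈ t, ∃ u ∈ d, t = ZFSet.pair u z := by
  have e : H83.AC.op 8 x y = rng x := rfl
  rw [e, mem_rng]
  constructor
  · rintro ⟨u, hu⟩
    obtain ⟨d, hd, ha, -⟩ := mem_of_pair (t := ZFSet.pair u z) rfl
    exact ⟨_, hu, d, hd, u, ha, rfl⟩
  · rintro ⟨t, ht, d, hd, u, hu, rfl⟩
    exact ⟨u, ht⟩

theorem op_ge {i : ℕ} (h : 9 ≤ i) (x y : ZFSet.{0}) : H83.AC.op i x y = dom x := by
  unfold H83.AC.op
  rw [if_neg (by omega), if_neg (by omega), if_neg (by omega), if_neg (by omega),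
    if_neg (by omega), if_neg (by omega), if_neg (by omega), if_neg (by omega),
    if_neg (by omega)]

theorem mem_op9 {i : ℕ} (h : 9 ≤ i) {x y z : ZFSet.{0}} : z ∈ H83.AC.op i x y ↔
    ∃ t ∈ x, ∃ d ∈ t, ∃ u ∈ d, t = ZFSet.pair z u := by
  rw [op_ge h, mem_dom]
  constructor
  · rintro ⟨u, hu⟩
    obtain ⟨d, hd, -, ha⟩ := mem_of_pair (t := ZFSet.pair z u) rfl
    exact ⟨_, hu, d, hd, u, ha, rfl⟩
  · rintro ⟨t, ht, d, hd, u, hu, rfl⟩
    exact ⟨u, ht⟩

theorem D0.mo (i : ℕ) (a b c : ℕ) : D0 (fun v => v a ∈ H83.AC.op i (v b) (v c)) := by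
  rcases i with _ | _ | _ | _ | _ | _ | _ | _ | _ | i
  · exact UD.congr (S := fun _ v => v a = v b ∨ v a = v c) (by (repeat' first
      | exact UD.true | exact UD.false | exact UD.mem _ _ | exact UD.eq _ _ | exact D0.emp _
      | exact D0.up _ _ _ | exact D0.sing _ _ | exact D0.pr _ _ _ | apply UD.and | apply UD.or
      | apply UD.ball' | apply UD.bex' | apply UD.iff | apply UD.not | apply UD.imp))
      fun N _ v _ => mem_op0
  · exact UD.congr (S := fun _ v => v a ∈ v b ∧ ¬ v a ∈ v c) (by (repeat' first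
      | exact UD.true | exact UD.false | exact UD.mem _ _ | exact UD.eq _ _ | exact D0.emp _
      | exact D0.up _ _ _ | exact D0.sing _ _ | exact D0.pr _ _ _ | apply UD.and | apply UD.or
      | apply UD.ball' | apply UD.bex' | apply UD.iff | apply UD.not | apply UD.imp))
      fun N _ v _ => mem_op1
  · exact UD.congr (S := fun _ v => ∃ x ∈ v b, ∃ y ∈ v c, v a = ZFSet.pair x y) (by (repeat' first
      | exact UD.true | exact UD.false | exact UD.mem _ _ | exact UD.eq _ _ | exact D0.emp _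
      | exact D0.up _ _ _ | exact D0.sing _ _ | exact D0.pr _ _ _ | apply UD.and | apply UD.or
      | apply UD.ball' | apply UD.bex' | apply UD.iff | apply UD.not | apply UD.imp))
      fun N _ v _ => mem_op2
  · exact UD.congr (S := fun _ v => ∃ x ∈ v b, ∃ y ∈ v c, v a = ZFSet.pair x y ∧ x ∈ y)
      (by (repeat' first
          | exact UD.true | exact UD.false | exact UD.mem _ _ | exact UD.eq _ _ | exact D0.emp _
          | exact D0.up _ _ _ | exact D0.sing _ _ | exact D0.pr _ _ _ | apply UD.and | apply UD.or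
          | apply UD.ball' | apply UD.bex' | apply UD.iff | apply UD.not | apply UD.imp)) fun N _ v _ => mem_op3
  · exact UD.congr (S := fun _ v => ∃ x ∈ v b, ∃ y ∈ v c, v a = ZFSet.pair x y ∧ y ∈ x)
      (by (repeat' first
          | exact UD.true | exact UD.false | exact UD.mem _ _ | exact UD.eq _ _ | exact D0.emp _
          | exact D0.up _ _ _ | exact D0.sing _ _ | exact D0.pr _ _ _ | apply UD.and | apply UD.or
          | apply UD.ball' | apply UD.bex' | apply UD.iff | apply UD.not | apply UD.imp)) fun N _ v _ => mem_op4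
  · exact UD.congr (S := fun _ v => ∃ x ∈ v b, ∃ y ∈ v c, v a = ZFSet.pair x y ∧ x = y)
      (by (repeat' first
          | exact UD.true | exact UD.false | exact UD.mem _ _ | exact UD.eq _ _ | exact D0.emp _
          | exact D0.up _ _ _ | exact D0.sing _ _ | exact D0.pr _ _ _ | apply UD.and | apply UD.or
          | apply UD.ball' | apply UD.bex' | apply UD.iff | apply UD.not | apply UD.imp)) fun N _ v _ => mem_op5
  · exact UD.congr (S := fun _ v => ∃ t ∈ v b, ∃ s ∈ v c, v a = ZFSet.pair (H83.AC.fst t)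
      (ZFSet.pair (H83.AC.snd t) s)) (by (repeat' first
          | exact D0.c6 _ _ _ | exact UD.true | exact UD.false | exact UD.mem _ _
          | exact UD.eq _ _ | exact D0.emp _ | exact D0.up _ _ _ | exact D0.sing _ _
          | exact D0.pr _ _ _ | apply UD.and | apply UD.or | apply UD.ball' | apply UD.bex'
          | apply UD.iff | apply UD.not | apply UD.imp)) fun N _ v _ => mem_op6
  · exact UD.congr (S := fun _ v => ∃ t ∈ v b, ∃ s ∈ v c, v a = ZFSet.pair (H83.AC.fst t)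
      (ZFSet.pair s (H83.AC.snd t))) (by (repeat' first
          | exact D0.c7 _ _ _ | exact UD.true | exact UD.false | exact UD.mem _ _
          | exact UD.eq _ _ | exact D0.emp _ | exact D0.up _ _ _ | exact D0.sing _ _
          | exact D0.pr _ _ _ | apply UD.and | apply UD.or | apply UD.ball' | apply UD.bex'
          | apply UD.iff | apply UD.not | apply UD.imp)) fun N _ v _ => mem_op7
  · exact UD.congr (S := fun _ v => ∃ t ∈ v b, ∃ d ∈ t, ∃ u ∈ d, t = ZFSet.pair u (v a))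
      (by (repeat' first
          | exact UD.true | exact UD.false | exact UD.mem _ _ | exact UD.eq _ _ | exact D0.emp _
          | exact D0.up _ _ _ | exact D0.sing _ _ | exact D0.pr _ _ _ | apply UD.and | apply UD.or
          | apply UD.ball' | apply UD.bex' | apply UD.iff | apply UD.not | apply UD.imp)) fun N _ v _ => mem_op8
  · exact UD.congr (S := fun _ v => ∃ t ∈ v b, ∃ d ∈ t, ∃ u ∈ d, t = ZFSet.pair (v a) u)
      (by (repeat' first
          | exact UD.true | exact UD.false | exact UD.mem _ _ | exact UD.eq _ _ | exact D0.emp _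
          | exact D0.up _ _ _ | exact D0.sing _ _ | exact D0.pr _ _ _ | apply UD.and | apply UD.or
          | apply UD.ball' | apply UD.bex' | apply UD.iff | apply UD.not | apply UD.imp)) fun N _ v _ => mem_op9 (by omega)

theorem D0.memOp (i : ℕ) : D0 (fun v => v 0 ∈ H83.AC.op i (v 1) (v 2)) := D0.mo i 0 1 2

theorem sub_iff_c {A w : ZFSet.{0}} : A ⊆ w ↔ ∀ z, z ∈ A → z ∈ w := Iff.rfl

theorem D0.os (i : ℕ) (a b c : ℕ) : D0 (fun v => H83.AC.op i (v a) (v b) ⊆ v c) := by
  rcases i with _ | _ | _ | _ | _ | _ | _ | _ | _ | i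
  · refine UD.congr (S := fun _ v => v a ∈ v c ∧ v b ∈ v c) (by (repeat' first
      | exact UD.true | exact UD.false | exact UD.mem _ _ | exact UD.eq _ _ | exact D0.emp _
      | exact D0.up _ _ _ | exact D0.sing _ _ | exact D0.pr _ _ _ | apply UD.and | apply UD.or
      | apply UD.ball' | apply UD.bex' | apply UD.iff | apply UD.not | apply UD.imp)) fun N _ v _ => ?_
    constructor
    · intro h; exact ⟨h (mem_op0.2 (Or.inl rfl)), h (mem_op0.2 (Or.inr rfl))⟩
    · rintro ⟨h1, h2⟩ z hz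
      rcases mem_op0.1 hz with rfl | rfl
      · exact h1
      · exact h2
  · refine UD.congr (S := fun _ v => ∀ z ∈ v a, ¬ z ∈ v b → z ∈ v c) (by (repeat' first
      | exact UD.true | exact UD.false | exact UD.mem _ _ | exact UD.eq _ _ | exact D0.emp _
      | exact D0.up _ _ _ | exact D0.sing _ _ | exact D0.pr _ _ _ | apply UD.and | apply UD.or
      | apply UD.ball' | apply UD.bex' | apply UD.iff | apply UD.not | apply UD.imp))
      fun N _ v _ => ?_
    constructor
    · intro h z hz hz'; exact h (mem_op1.2 ⟨hz, hz'⟩)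
    · intro h z hz
      exact h z (mem_op1.1 hz).1 (mem_op1.1 hz).2
  · refine UD.congr (S := fun _ v => ∀ x ∈ v a, ∀ y ∈ v b, ∃ z ∈ v c, z = ZFSet.pair x y)
      (by (repeat' first
          | exact UD.true | exact UD.false | exact UD.mem _ _ | exact UD.eq _ _ | exact D0.emp _
          | exact D0.up _ _ _ | exact D0.sing _ _ | exact D0.pr _ _ _ | apply UD.and | apply UD.or
          | apply UD.ball' | apply UD.bex' | apply UD.iff | apply UD.not | apply UD.imp)) fun N _ v _ => ?_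
    constructor
    · intro h x hx y hy; exact ⟨_, h (mem_op2.2 ⟨x, hx, y, hy, rfl⟩), rfl⟩
    · intro h z hz
      obtain ⟨x, hx, y, hy, rfl⟩ := mem_op2.1 hz
      obtain ⟨_, hz, rfl⟩ := h x hx y hy
      exact hz
  · refine UD.congr (S := fun _ v => ∀ x ∈ v a, ∀ y ∈ v b, x ∈ y → ∃ z ∈ v c, z = ZFSet.pair x y)
      (by (repeat' first
          | exact UD.true | exact UD.false | exact UD.mem _ _ | exact UD.eq _ _ | exact D0.emp _
          | exact D0.up _ _ _ | exact D0.sing _ _ | exact D0.pr _ _ _ | apply UD.and | apply UD.or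
          | apply UD.ball' | apply UD.bex' | apply UD.iff | apply UD.not | apply UD.imp)) fun N _ v _ => ?_
    constructor
    · intro h x hx y hy h'; exact ⟨_, h (mem_op3.2 ⟨x, hx, y, hy, rfl, h'⟩), rfl⟩
    · intro h z hz
      obtain ⟨x, hx, y, hy, rfl, h'⟩ := mem_op3.1 hz
      obtain ⟨_, hz, rfl⟩ := h x hx y hy h'
      exact hz
  · refine UD.congr (S := fun _ v => ∀ x ∈ v a, ∀ y ∈ v b, y ∈ x → ∃ z ∈ v c, z = ZFSet.pair x y)
      (by (repeat' first
          | exact UD.true | exact UD.false | exact UD.mem _ _ | exact UD.eq _ _ | exact D0.emp _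
          | exact D0.up _ _ _ | exact D0.sing _ _ | exact D0.pr _ _ _ | apply UD.and | apply UD.or
          | apply UD.ball' | apply UD.bex' | apply UD.iff | apply UD.not | apply UD.imp)) fun N _ v _ => ?_
    constructor
    · intro h x hx y hy h'; exact ⟨_, h (mem_op4.2 ⟨x, hx, y, hy, rfl, h'⟩), rfl⟩
    · intro h z hz
      obtain ⟨x, hx, y, hy, rfl, h'⟩ := mem_op4.1 hz
      obtain ⟨_, hz, rfl⟩ := h x hx y hy h'
      exact hz
  · refine UD.congr (S := fun _ v => ∀ x ∈ v a, ∀ y ∈ v b, x = y → ∃ z ∈ v c, z = ZFSet.pair x y)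
      (by (repeat' first
          | exact UD.true | exact UD.false | exact UD.mem _ _ | exact UD.eq _ _ | exact D0.emp _
          | exact D0.up _ _ _ | exact D0.sing _ _ | exact D0.pr _ _ _ | apply UD.and | apply UD.or
          | apply UD.ball' | apply UD.bex' | apply UD.iff | apply UD.not | apply UD.imp)) fun N _ v _ => ?_
    constructor
    · intro h x hx y hy h'; exact ⟨_, h (mem_op5.2 ⟨x, hx, y, hy, rfl, h'⟩), rfl⟩
    · intro h z hz
      obtain ⟨x, hx, y, hy, rfl, h'⟩ := mem_op5.1 hz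
      obtain ⟨_, hz, rfl⟩ := h x hx y hy h'
      exact hz
  · refine UD.congr (S := fun _ v => ∀ t ∈ v a, ∀ s ∈ v b, ∃ z ∈ v c,
      z = ZFSet.pair (H83.AC.fst t) (ZFSet.pair (H83.AC.snd t) s))
      (by (repeat' first
          | exact D0.c6 _ _ _ | exact UD.true | exact UD.false | exact UD.mem _ _
          | exact UD.eq _ _ | exact D0.emp _ | exact D0.up _ _ _ | exact D0.sing _ _
          | exact D0.pr _ _ _ | apply UD.and | apply UD.or | apply UD.ball' | apply UD.bex'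
          | apply UD.iff | apply UD.not | apply UD.imp)) fun N _ v _ => ?_
    constructor
    · intro h x hx y hy; exact ⟨_, h (mem_op6.2 ⟨x, hx, y, hy, rfl⟩), rfl⟩
    · intro h z hz
      obtain ⟨x, hx, y, hy, rfl⟩ := mem_op6.1 hz
      obtain ⟨_, hz, rfl⟩ := h x hx y hy
      exact hz
  · refine UD.congr (S := fun _ v => ∀ t ∈ v a, ∀ s ∈ v b, ∃ z ∈ v c,
      z = ZFSet.pair (H83.AC.fst t) (ZFSet.pair s (H83.AC.snd t)))
      (by (repeat' first
          | exact D0.c7 _ _ _ | exact UD.true | exact UD.false | exact UD.mem _ _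
          | exact UD.eq _ _ | exact D0.emp _ | exact D0.up _ _ _ | exact D0.sing _ _
          | exact D0.pr _ _ _ | apply UD.and | apply UD.or | apply UD.ball' | apply UD.bex'
          | apply UD.iff | apply UD.not | apply UD.imp)) fun N _ v _ => ?_
    constructor
    · intro h x hx y hy; exact ⟨_, h (mem_op7.2 ⟨x, hx, y, hy, rfl⟩), rfl⟩
    · intro h z hz
      obtain ⟨x, hx, y, hy, rfl⟩ := mem_op7.1 hz
      obtain ⟨_, hz, rfl⟩ := h x hx y hy
      exact hz
  · refine UD.congr (S := fun _ v => ∀ t ∈ v a, ∀ d ∈ t, ∀ u ∈ d, ∀ z ∈ d,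
      t = ZFSet.pair u z → z ∈ v c) (by (repeat' first
          | exact UD.true | exact UD.false | exact UD.mem _ _ | exact UD.eq _ _ | exact D0.emp _
          | exact D0.up _ _ _ | exact D0.sing _ _ | exact D0.pr _ _ _ | apply UD.and | apply UD.or
          | apply UD.ball' | apply UD.bex' | apply UD.iff | apply UD.not | apply UD.imp)) fun N _ v _ => ?_
    constructor
    · intro h t ht d hd u hu z hz e; exact h (mem_op8.2 ⟨t, ht, d, hd, u, hu, e⟩)
    · intro h z hz
      obtain ⟨t, ht, -, -, u, -, e⟩ := mem_op8.1 hz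
      obtain ⟨d, hd, hu, hz⟩ := mem_of_pair e
      exact h t ht d hd u hu z hz e
  · refine UD.congr (S := fun _ v => ∀ t ∈ v a, ∀ d ∈ t, ∀ u ∈ d, ∀ z ∈ d,
      t = ZFSet.pair z u → z ∈ v c) (by (repeat' first
          | exact UD.true | exact UD.false | exact UD.mem _ _ | exact UD.eq _ _ | exact D0.emp _
          | exact D0.up _ _ _ | exact D0.sing _ _ | exact D0.pr _ _ _ | apply UD.and | apply UD.or
          | apply UD.ball' | apply UD.bex' | apply UD.iff | apply UD.not | apply UD.imp)) fun N _ v _ => ?_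
    constructor
    · intro h t ht d hd u hu z hz e; exact h ((mem_op9 (by omega)).2 ⟨t, ht, d, hd, u, hu, e⟩)
    · intro h z hz
      obtain ⟨t, ht, -, -, u, -, e⟩ := (mem_op9 (by omega)).1 hz
      obtain ⟨d, hd, hz, hu⟩ := mem_of_pair e
      exact h t ht d hd u hu z hz e

theorem D0.opSub (i : ℕ) : D0 (fun v => H83.AC.op i (v 0) (v 1) ⊆ v 2) := D0.os i 0 1 2

theorem D0.eqOp (i : ℕ) (a b c : ℕ) : D0 (fun v => v a = H83.AC.op i (v b) (v c)) := by
  refine UD.congr (S := fun _ v => (∀ u ∈ v a, u ∈ H83.AC.op i (v b) (v c)) ∧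
    H83.AC.op i (v b) (v c) ⊆ v a) (by (repeat' first
        | exact D0.mo _ _ _ _ | exact D0.os _ _ _ _ | exact UD.true | exact UD.false
        | exact UD.mem _ _ | exact UD.eq _ _ | exact D0.emp _ | exact D0.up _ _ _
        | exact D0.sing _ _ | exact D0.pr _ _ _ | apply UD.and | apply UD.or | apply UD.ball'
        | apply UD.bex' | apply UD.iff | apply UD.not | apply UD.imp)) fun N _ v _ => ?_
  constructor
  · intro h
    have h' : v a = H83.AC.op i (v b) (v c) := h
    rw [← h']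
    exact ⟨fun u hu => hu, fun u hu => hu⟩
  · rintro ⟨h1, h2⟩
    ext u
    exact ⟨fun hu => h1 u hu, fun hu => h2 hu⟩

theorem D0.exlt (n : ℕ) (R : ℕ → (ℕ → ZFSet.{0}) → Prop) (h : ∀ i, D0 (R i)) :
    D0 (fun v => ∃ i < n, R i v) := by
  induction n with
  | zero => exact UD.congr (S := fun _ _ => False) UD.false fun N _ v _ => by simp
  | succ n ih =>
    refine (ih.or (h n)).congr fun N _ v _ => ?_
    constructor
    · rintro ⟨i, hi, h⟩
      rcases Nat.lt_succ_iff_lt_or_eq.1 hi with h' | rfl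
      · exact Or.inl ⟨i, h', h⟩
      · exact Or.inr h
    · rintro (⟨i, hi, h⟩ | h)
      · exact ⟨i, by omega, h⟩
      · exact ⟨n, by omega, h⟩

theorem ex_insert {U : ZFSet.{0}} {P : ZFSet.{0} → Prop} :
    (∃ x ∈ (insert U U : ZFSet), P x) ↔ P U ∨ ∃ x ∈ U, P x := by
  constructor
  · rintro ⟨x, hx, h⟩
    rcases mem_insert_iff.1 hx with rfl | hx
    · exact Or.inl h
    · exact Or.inr ⟨x, hx, h⟩
  · rintro (h | ⟨x, hx, h⟩)
    · exact ⟨U, mem_insert _ _, h⟩
    · exact ⟨x, mem_insert_of_mem _ hx, h⟩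

/-- `z` is a value of an operation on `U ∪ {U}` -/
theorem D0.isOp (a b : ℕ) : D0 (fun v => ∃ i < 10, ∃ x ∈ (insert (v b) (v b) : ZFSet),
    ∃ y ∈ (insert (v b) (v b) : ZFSet), v a = H83.AC.op i x y) := by
  refine D0.exlt 10 (fun i v => ∃ x ∈ (insert (v b) (v b) : ZFSet),
    ∃ y ∈ (insert (v b) (v b) : ZFSet), v a = H83.AC.op i x y) fun i => ?_
  refine UD.congr (S := fun _ v => (v a = H83.AC.op i (v b) (v b) ∨
    ∃ y ∈ v b, v a = H83.AC.op i (v b) y) ∨ ∃ x ∈ v b, (v a = H83.AC.op i x (v b) ∨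
    ∃ y ∈ v b, v a = H83.AC.op i x y)) (by (repeat' first
        | exact D0.eqOp _ _ _ _ | exact UD.true | exact UD.false | exact UD.mem _ _
        | exact UD.eq _ _ | exact D0.emp _ | exact D0.up _ _ _ | exact D0.sing _ _
        | exact D0.pr _ _ _ | apply UD.and | apply UD.or | apply UD.ball' | apply UD.bex'
        | apply UD.iff | apply UD.not | apply UD.imp)) fun N _ v _ => ?_
  beta_reduce
  rw [ex_insert, ex_insert]
  refine or_congr Iff.rfl (exists_congr fun x => and_congr_right fun _ => ?_)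
  rw [ex_insert]

theorem D0.memSx' (a b : ℕ) : D0 (fun v => v a ∈ H83.AC.Sx (v b)) := by
  refine UD.congr (S := fun _ v => v a = v b ∨ v a ∈ v b ∨ ((∀ u ∈ v a, u ∈ v b) ∧
    ∃ i < 10, ∃ x ∈ (insert (v b) (v b) : ZFSet),
    ∃ y ∈ (insert (v b) (v b) : ZFSet), v a = H83.AC.op i x y)) (by (repeat' first
        | exact D0.isOp _ _ | exact UD.true | exact UD.false | exact UD.mem _ _ | exact UD.eq _ _
        | exact D0.emp _ | exact D0.up _ _ _ | exact D0.sing _ _ | exact D0.pr _ _ _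
        | apply UD.and | apply UD.or | apply UD.ball' | apply UD.bex' | apply UD.iff
        | apply UD.not | apply UD.imp))
    fun N _ v _ => ?_
  exact mem_Sx

theorem D0.memSx : D0 (fun v => v 0 ∈ H83.AC.Sx (v 1)) := D0.memSx' 0 1

theorem D0.allOp (a b : ℕ) : D0 (fun v => ¬ ∃ i < 10, ∃ x ∈ (insert (v a) (v a) : ZFSet),
    ∃ y ∈ (insert (v a) (v a) : ZFSet), ¬ (H83.AC.op i x y ⊆ v a →
      ∃ z ∈ v b, z = H83.AC.op i x y)) := by
  refine UD.not (R := fun _ v => ∃ i < 10, ∃ x ∈ (insert (v a) (v a) : ZFSet),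
    ∃ y ∈ (insert (v a) (v a) : ZFSet), ¬ (H83.AC.op i x y ⊆ v a →
      ∃ z ∈ v b, z = H83.AC.op i x y)) ?_
  refine D0.exlt 10 (fun i v => ∃ x ∈ (insert (v a) (v a) : ZFSet),
    ∃ y ∈ (insert (v a) (v a) : ZFSet), ¬ (H83.AC.op i x y ⊆ v a →
      ∃ z ∈ v b, z = H83.AC.op i x y)) fun i => ?_
  refine UD.congr (S := fun _ v => (¬ (H83.AC.op i (v a) (v a) ⊆ v a →
      ∃ z ∈ v b, z = H83.AC.op i (v a) (v a)) ∨
    ∃ y ∈ v a, ¬ (H83.AC.op i (v a) y ⊆ v a →
      ∃ z ∈ v b, z = H83.AC.op i (v a) y)) ∨ ∃ x ∈ v a, (¬ (H83.AC.op i x (v a) ⊆ v a →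
      ∃ z ∈ v b, z = H83.AC.op i x (v a)) ∨
    ∃ y ∈ v a, ¬ (H83.AC.op i x y ⊆ v a →
      ∃ z ∈ v b, z = H83.AC.op i x y))) (by (repeat' first
          | exact D0.eqOp _ _ _ _ | exact D0.os _ _ _ _ | exact UD.true | exact UD.false
          | exact UD.mem _ _ | exact UD.eq _ _ | exact D0.emp _ | exact D0.up _ _ _
          | exact D0.sing _ _ | exact D0.pr _ _ _ | apply UD.and | apply UD.or | apply UD.ball'
          | apply UD.bex' | apply UD.iff | apply UD.not | apply UD.imp))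
    fun N _ v _ => ?_
  beta_reduce
  rw [ex_insert, ex_insert]
  refine or_congr Iff.rfl (exists_congr fun x => and_congr_right fun _ => ?_)
  rw [ex_insert]

theorem D0.SxSub : D0 (fun v => H83.AC.Sx (v 0) ⊆ v 1) := by
  refine UD.congr (S := fun _ v => v 0 ∈ v 1 ∧ (∀ u ∈ v 0, u ∈ v 1) ∧
    ¬ ∃ i < 10, ∃ x ∈ (insert (v 0) (v 0) : ZFSet),
    ∃ y ∈ (insert (v 0) (v 0) : ZFSet), ¬ (H83.AC.op i x y ⊆ v 0 →
      ∃ z ∈ v 1, z = H83.AC.op i x y)) (by (repeat' first
          | exact D0.allOp _ _ | exact UD.true | exact UD.false | exact UD.mem _ _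
          | exact UD.eq _ _ | exact D0.emp _ | exact D0.up _ _ _ | exact D0.sing _ _
          | exact D0.pr _ _ _ | apply UD.and | apply UD.or | apply UD.ball' | apply UD.bex'
          | apply UD.iff | apply UD.not | apply UD.imp)) fun N _ v _ => ?_
  constructor
  · intro h
    refine ⟨h (mem_Sx.2 (Or.inl rfl)), fun u hu => h (mem_Sx.2 (Or.inr (Or.inl hu))), ?_⟩
    rintro ⟨i, hi, x, hx, y, hy, hn⟩
    apply hn
    intro hs
    exact ⟨_, h (mem_Sx.2 (Or.inr (Or.inr ⟨hs, i, hi, x, hx, y, hy, rfl⟩))), rfl⟩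
  · rintro ⟨h1, h2, h3⟩ z hz
    rcases mem_Sx.1 hz with rfl | hz | ⟨hs, i, hi, x, hx, y, hy, rfl⟩
    · exact h1
    · exact h2 z hz
    · by_contra hn
      apply h3
      refine ⟨i, hi, x, hx, y, hy, fun h => ?_⟩
      obtain ⟨z, hz, rfl⟩ := h hs
      exact hn hz

end H83.AC
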