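import Pool.Agent.H83.AC.Code

/-!
# Module TauF: the transformation `(c, z) ↦ (c, c + z)` on conditions

`TF_fits`: from the definition of `TF`, `Fits`, `code`, `sd`.
`TF_dense`. Let `q ∈ Cond`. Call a condition `p` balanced if for every `a ∈ Idx` it has a literal at
`k0 a` iff it has a literal at `k1 a`. Every condition extends to a balanced one (finitely many
literals are added: induction on the finite set of indices, or `exists_decide'` iterated, or directly: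
`p ∪ {(k_i a, ∅) : a has a literal at k_{1-i} a, none at k_i a}`). For a balanced condition `p` let `τ p` be
the set of the literals `pair (k0 a) i` (`pair (k0 a) i ∈ p`) and `pair (k1 a) j` with
`pair (k0 a) i ∈ p`, `pair (k1 a) i' ∈ p`, `j = i + i'` (mod 2). Then `τ p` is a balanced condition,
`τ (τ p) = p`, `τ` is monotone, and `TF (τ p) t` for every `t ⊆ p` (check the four cases).
Extend `q` to a balanced `q₁`, extend `τ q₁` to `t` with `D t`, extend `t` to a balanced `t₁`, and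
let `q' = τ t₁ ⊇ τ (τ q₁) = q₁ ⊇ q`; `TF q' t`.
(Alternative without `τ`: choose finite sets instead of conditions, see the proof of `TF_surj`.)
`TF_surj`: extend `t` to a balanced `t₁` and take `q = τ t₁`.
-/

namespace H83.AC

open ZFSet

private theorem tau_code0 {c d : Set ZFSet.{0}} (hc : ∀ a ∈ c, a ∈ Idx) (hd : ∀ a ∈ d, a ∈ Idx)
    {a : ZFSet.{0}} (ha : a ∈ Idx) : k0 a ∈ code c d ↔ a ∈ c := by
  constructor
  · rintro (⟨b, hb, e⟩ | ⟨b, hb, e⟩)
    · rw [emb_k0.inj a ha b (hc b hb) e]; exact hb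
    · exact absurd e (k0_ne_k1 ha (hd b hb))
  · intro h; exact Or.inl ⟨a, h, rfl⟩

private theorem tau_code1 {c d : Set ZFSet.{0}} (hc : ∀ a ∈ c, a ∈ Idx) (hd : ∀ a ∈ d, a ∈ Idx)
    {a : ZFSet.{0}} (ha : a ∈ Idx) : k1 a ∈ code c d ↔ a ∈ d := by
  constructor
  · rintro (⟨b, hb, e⟩ | ⟨b, hb, e⟩)
    · exact absurd e.symm (k0_ne_k1 (hc b hb) ha)
    · rw [emb_k1.inj a ha b (hd b hb) e]; exact hb
  · intro h; exact Or.inr ⟨a, h, rfl⟩

open Classical in
private noncomputable def tauB (x : ZFSet.{0}) : ZFSet.{0} :=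
  if h : ∃ b ∈ Idx, x = k0 b ∨ x = k1 b then h.choose else ∅

private theorem tauB_spec {x : ZFSet.{0}} (hx : x ∈ Idx) :
    tauB x ∈ Idx ∧ (x = k0 (tauB x) ∨ x = k1 (tauB x)) := by
  have h := idx_cases hx
  unfold tauB
  rw [dif_pos h]
  exact h.choose_spec

private theorem tauB_k0 {a : ZFSet.{0}} (ha : a ∈ Idx) : tauB (k0 a) = a := by
  obtain ⟨h1, h2 | h2⟩ := tauB_spec (emb_k0.maps a ha)
  · exact (emb_k0.inj _ ha _ h1 h2).symm
  · exact absurd h2 (k0_ne_k1 ha h1)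

private theorem tauB_k1 {a : ZFSet.{0}} (ha : a ∈ Idx) : tauB (k1 a) = a := by
  obtain ⟨h1, h2 | h2⟩ := tauB_spec (emb_k1.maps a ha)
  · exact absurd h2.symm (k0_ne_k1 h1 ha)
  · exact (emb_k1.inj _ ha _ h1 h2).symm

open Classical in
private noncomputable def tauL (b : Set ZFSet.{0}) (x : ZFSet.{0}) : ZFSet.{0} :=
  pair x (if x ∈ b then one else ∅)

private noncomputable def tauC (b : Set ZFSet.{0}) (p : ZFSet.{0}) : ZFSet.{0} :=
  img (fun t => tauL b (k0 (tauB (fst t)))) p ∪ img (fun t => tauL b (k1 (tauB (fst t)))) p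

/-- the indices decided by `tauC b p` -/
private def tauS (p a : ZFSet.{0}) : Prop := ∃ t ∈ p, tauB (fst t) = a

private theorem tauS_of {p x i : ZFSet.{0}} (h : pair x i ∈ p) : tauS p (tauB x) :=
  ⟨_, h, by rw [fst_pair]⟩

private theorem tauS_idx {p a : ZFSet.{0}} (hp : p ∈ Cond) (h : tauS p a) : a ∈ Idx := by
  obtain ⟨t, ht, rfl⟩ := h
  obtain ⟨x, hx, rfl | rfl⟩ := cond_lit hp ht
  · rw [fst_pair]; exact (tauB_spec hx).1
  · rw [fst_pair]; exact (tauB_spec hx).1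

private theorem mem_tauC {b : Set ZFSet.{0}} {p t : ZFSet.{0}} :
    t ∈ tauC b p ↔ ∃ a, tauS p a ∧ (t = tauL b (k0 a) ∨ t = tauL b (k1 a)) := by
  unfold tauC
  rw [mem_union, mem_img, mem_img]
  constructor
  · rintro (⟨s, hs, rfl⟩ | ⟨s, hs, rfl⟩)
    · exact ⟨_, ⟨s, hs, rfl⟩, Or.inl rfl⟩
    · exact ⟨_, ⟨s, hs, rfl⟩, Or.inr rfl⟩
  · rintro ⟨a, ⟨s, hs, rfl⟩, rfl | rfl⟩
    · exact Or.inl ⟨s, hs, rfl⟩
    · exact Or.inr ⟨s, hs, rfl⟩

private theorem tauL_one {b : Set ZFSet.{0}} {x y : ZFSet.{0}} (h : pair x one = tauL b y) :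
    x = y ∧ x ∈ b := by
  unfold tauL at h
  obtain ⟨rfl, h2⟩ := pair_inj.1 h
  refine ⟨rfl, ?_⟩
  by_contra hx
  rw [if_neg hx] at h2
  exact one_ne_empty h2

private theorem tauL_zero {b : Set ZFSet.{0}} {x y : ZFSet.{0}} (h : pair x ∅ = tauL b y) :
    x = y ∧ x ∉ b := by
  unfold tauL at h
  obtain ⟨rfl, h2⟩ := pair_inj.1 h
  refine ⟨rfl, ?_⟩
  intro hx
  rw [if_pos hx] at h2
  exact one_ne_empty h2.symm

private theorem tauC_fits (b : Set ZFSet.{0}) (p : ZFSet.{0}) : Fits (tauC b p) b := by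
  intro x
  constructor
  · intro h
    obtain ⟨a, -, h | h⟩ := mem_tauC.1 h
    · exact (tauL_one h).2
    · exact (tauL_one h).2
  · intro h
    obtain ⟨a, -, h | h⟩ := mem_tauC.1 h
    · exact (tauL_zero h).2
    · exact (tauL_zero h).2

private theorem tauL_lit (b : Set ZFSet.{0}) (x : ZFSet.{0}) :
    tauL b x = pair x one ∨ tauL b x = pair x ∅ := by
  unfold tauL
  by_cases h : x ∈ b
  · left; rw [if_pos h]
  · right; rw [if_neg h]

private theorem tauL_HF (b : Set ZFSet.{0}) {x : ZFSet.{0}} (hx : x ∈ Idx) : tauL b x ∈ HF := by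
  rcases tauL_lit b x with h | h
  · rw [h]; exact HF_pair (idx_HF hx) one_HF
  · rw [h]; exact HF_pair (idx_HF hx) HF_empty

private theorem tauC_cond (b : Set ZFSet.{0}) {p : ZFSet.{0}} (hp : p ∈ Cond) :
    tauC b p ∈ Cond := by
  have hbase : ∀ t ∈ p, tauB (fst t) ∈ Idx := fun t ht => tauS_idx hp ⟨t, ht, rfl⟩
  rw [mem_cond]
  refine ⟨?_, ?_, ?_⟩
  · refine HF_union ?_ ?_
    · exact HF_img (cond_HF hp) fun t ht => tauL_HF b (emb_k0.maps _ (hbase t ht))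
    · exact HF_img (cond_HF hp) fun t ht => tauL_HF b (emb_k1.maps _ (hbase t ht))
  · intro t ht
    obtain ⟨a, ha, h | h⟩ := mem_tauC.1 ht
    · exact ⟨_, emb_k0.maps a (tauS_idx hp ha), by rw [h]; exact tauL_lit b _⟩
    · exact ⟨_, emb_k1.maps a (tauS_idx hp ha), by rw [h]; exact tauL_lit b _⟩
  · rintro a ⟨h1, h2⟩
    exact ((tauC_fits b p) a).2 h1 (((tauC_fits b p) a).1 h2)

private theorem tauC_one {b : Set ZFSet.{0}} {p a x : ZFSet.{0}} (ha : tauS p a)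
    (hx : x = k0 a ∨ x = k1 a) (h : x ∈ b) : pair x one ∈ tauC b p := by
  rw [mem_tauC]
  refine ⟨a, ha, ?_⟩
  have : pair x one = tauL b x := by unfold tauL; rw [if_pos h]
  rw [this]
  rcases hx with rfl | rfl
  · exact Or.inl rfl
  · exact Or.inr rfl

private theorem tauC_zero {b : Set ZFSet.{0}} {p a x : ZFSet.{0}} (ha : tauS p a)
    (hx : x = k0 a ∨ x = k1 a) (h : x ∉ b) : pair x ∅ ∈ tauC b p := by
  rw [mem_tauC]
  refine ⟨a, ha, ?_⟩
  have : pair x ∅ = tauL b x := by unfold tauL; rw [if_neg h]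
  rw [this]
  rcases hx with rfl | rfl
  · exact Or.inl rfl
  · exact Or.inr rfl

/-- the transformation of classes -/
private def tauT (b : Set ZFSet.{0}) : Set ZFSet.{0} :=
  {x | (∃ a ∈ Idx, x = k0 a ∧ k0 a ∈ b) ∨
    ∃ a ∈ Idx, x = k1 a ∧ ((k0 a ∈ b ∧ k1 a ∉ b) ∨ (k0 a ∉ b ∧ k1 a ∈ b))}

private theorem tauT_k0 (b : Set ZFSet.{0}) {a : ZFSet.{0}} (ha : a ∈ Idx) :
    k0 a ∈ tauT b ↔ k0 a ∈ b := by
  constructor
  · rintro (⟨a', -, e, h⟩ | ⟨a', ha', e, -⟩)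
    · rw [e]; exact h
    · exact absurd e (k0_ne_k1 ha ha')
  · intro h; exact Or.inl ⟨a, ha, rfl, h⟩

private theorem tauT_k1 (b : Set ZFSet.{0}) {a : ZFSet.{0}} (ha : a ∈ Idx) :
    k1 a ∈ tauT b ↔ ((k0 a ∈ b ∧ k1 a ∉ b) ∨ (k0 a ∉ b ∧ k1 a ∈ b)) := by
  constructor
  · rintro (⟨a', ha', e, -⟩ | ⟨a', ha', e, h⟩)
    · exact absurd e.symm (k0_ne_k1 ha' ha)
    · rw [emb_k1.inj a ha a' ha' e]; exact h
  · intro h; exact Or.inr ⟨a, ha, rfl, h⟩

private theorem tau_TF {t : ZFSet.{0}} {b : Set ZFSet.{0}} (hb : Fits t b) :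
    TF (tauC (tauT b) t) t := by
  intro a ha
  refine ⟨fun h => ?_, fun h => ?_, fun h => ?_, fun h => ?_⟩
  · have hS := tauS_of h
    rw [tauB_k0 ha] at hS
    exact tauC_one hS (Or.inl rfl) ((tauT_k0 b ha).2 ((hb _).1 h))
  · have hS := tauS_of h
    rw [tauB_k0 ha] at hS
    exact tauC_zero hS (Or.inl rfl) (fun h' => (hb _).2 h ((tauT_k0 b ha).1 h'))
  · have hS := tauS_of h
    rw [tauB_k1 ha] at hS
    have h1 := (hb _).1 h
    by_cases h0 : k0 a ∈ b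
    · left
      exact ⟨tauC_one hS (Or.inl rfl) ((tauT_k0 b ha).2 h0),
        tauC_zero hS (Or.inr rfl) (fun h' => by
          have := (tauT_k1 b ha).1 h'
          tauto)⟩
    · right
      exact ⟨tauC_zero hS (Or.inl rfl) (fun h' => h0 ((tauT_k0 b ha).1 h')),
        tauC_one hS (Or.inr rfl) ((tauT_k1 b ha).2 (Or.inr ⟨h0, h1⟩))⟩
  · have hS := tauS_of h
    rw [tauB_k1 ha] at hS
    have h1 := (hb _).2 h
    by_cases h0 : k0 a ∈ b
    · left
      exact ⟨tauC_one hS (Or.inl rfl) ((tauT_k0 b ha).2 h0),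
        tauC_one hS (Or.inr rfl) ((tauT_k1 b ha).2 (Or.inl ⟨h0, h1⟩))⟩
    · right
      exact ⟨tauC_zero hS (Or.inl rfl) (fun h' => h0 ((tauT_k0 b ha).1 h')),
        tauC_zero hS (Or.inr rfl) (fun h' => by
          have := (tauT_k1 b ha).1 h'
          tauto)⟩

private theorem tau_self {p : ZFSet.{0}} (hp : p ∈ Cond) : Fits p {x | pair x one ∈ p} :=
  fun _ => ⟨fun h => h, fun h h' => cond_con hp ⟨h, h'⟩⟩

theorem TF_fits {q t z : ZFSet.{0}} {c : Set ZFSet.{0}} (ht : t ∈ Cond) (h : TF q t)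
    (hc : ∀ a ∈ c, a ∈ Idx) (hz : z ⊆ Idx) (hf : Fits q (code c (cls z))) :
    Fits t (code c (sd c z)) := by
  have hz' : ∀ a ∈ cls z, a ∈ Idx := fun a ha => hz ha
  have hs' : ∀ a ∈ sd c z, a ∈ Idx := by
    rintro a (⟨h1, -⟩ | ⟨-, h1⟩)
    · exact hc a h1
    · exact hz h1
  have hmz : ∀ a, a ∈ cls z ↔ a ∈ z := fun a => Iff.rfl
  have hms : ∀ a, a ∈ sd c z ↔ ((a ∈ c ∧ a ∉ z) ∨ (a ∉ c ∧ a ∈ z)) := fun a => Iff.rfl
  intro x
  constructor
  · intro hx
    obtain ⟨y, hy, e⟩ := cond_lit ht hx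
    have hxy : x = y := by
      rcases e with e | e
      · exact (pair_inj.1 e).1
      · exact (pair_inj.1 e).1
    subst hxy
    obtain ⟨a, ha, rfl | rfl⟩ := idx_cases hy
    · have h1 := (h a ha).1 hx
      have h2 := (hf _).1 h1
      rw [tau_code0 hc hz' ha] at h2
      rw [tau_code0 hc hs' ha]
      exact h2
    · rw [tau_code1 hc hs' ha, hms]
      rcases (h a ha).2.2.1 hx with ⟨h1, h2⟩ | ⟨h1, h2⟩
      · have h3 := (hf _).1 h1
        have h4 := (hf _).2 h2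
        rw [tau_code0 hc hz' ha] at h3
        rw [tau_code1 hc hz' ha, hmz] at h4
        exact Or.inl ⟨h3, h4⟩
      · have h3 := (hf _).2 h1
        have h4 := (hf _).1 h2
        rw [tau_code0 hc hz' ha] at h3
        rw [tau_code1 hc hz' ha, hmz] at h4
        exact Or.inr ⟨h3, h4⟩
  · intro hx
    obtain ⟨y, hy, e⟩ := cond_lit ht hx
    have hxy : x = y := by
      rcases e with e | e
      · exact (pair_inj.1 e).1
      · exact (pair_inj.1 e).1
    subst hxy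
    obtain ⟨a, ha, rfl | rfl⟩ := idx_cases hy
    · have h1 := (h a ha).2.1 hx
      have h2 := (hf _).2 h1
      rw [tau_code0 hc hz' ha] at h2
      rw [tau_code0 hc hs' ha]
      exact h2
    · rw [tau_code1 hc hs' ha, hms]
      rcases (h a ha).2.2.2 hx with ⟨h1, h2⟩ | ⟨h1, h2⟩
      · have h3 := (hf _).1 h1
        have h4 := (hf _).1 h2
        rw [tau_code0 hc hz' ha] at h3
        rw [tau_code1 hc hz' ha, hmz] at h4
        tauto
      · have h3 := (hf _).2 h1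
        have h4 := (hf _).2 h2
        rw [tau_code0 hc hz' ha] at h3
        rw [tau_code1 hc hz' ha, hmz] at h4
        tauto

private theorem tau_hxx {b b' : Set ZFSet.{0}} {a x : ZFSet.{0}} (ha : a ∈ Idx)
    (e0 : k0 a ∈ b' ↔ k0 a ∈ tauT b) (e1 : k1 a ∈ b' ↔ k1 a ∈ tauT b)
    (hxa : x = k0 a ∨ x = k1 a) : x ∈ tauT b' ↔ x ∈ b := by
  rcases hxa with h | h
  · rw [h, tauT_k0 b' ha, e0, tauT_k0 b ha]
  · rw [h, tauT_k1 b' ha, e0, e1, tauT_k0 b ha, tauT_k1 b ha]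
    by_cases p0 : k0 a ∈ b <;> by_cases p1 : k1 a ∈ b <;> simp [p0, p1]

theorem TF_dense {D : ZFSet.{0} → Prop} (hD : ∀ p ∈ Cond, ∃ t ∈ Cond, p ⊆ t ∧ D t)
    {q : ZFSet.{0}} (hq : q ∈ Cond) : ∃ q' ∈ Cond, q ⊆ q' ∧ ∃ t ∈ Cond, D t ∧ TF q' t := by
  set b : Set ZFSet.{0} := {x | pair x one ∈ q} with hb
  have hqb : Fits q b := tau_self hq
  obtain ⟨t, ht, htt, hDt⟩ := hD (tauC (tauT b) q) (tauC_cond _ hq)
  set b' : Set ZFSet.{0} := {x | pair x one ∈ t} with hb'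
  have htb : Fits t b' := tau_self ht
  refine ⟨tauC (tauT b') t, tauC_cond _ ht, ?_, t, ht, hDt, tau_TF htb⟩
  -- `b'` agrees with `tauT b` on the closure of the indices of `q`
  have hag : ∀ a x, tauS q a → (x = k0 a ∨ x = k1 a) → (x ∈ b' ↔ x ∈ tauT b) := by
    intro a x hS hx
    by_cases h : x ∈ tauT b
    · have := htb x
      exact ⟨fun _ => h, fun _ => this.1 (htt (tauC_one hS hx h))⟩
    · have := htb x
      exact ⟨fun h' => absurd h' (this.2 (htt (tauC_zero hS hx h))), fun h' => absurd h' h⟩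
  intro s hs
  obtain ⟨x, hx, hsx⟩ := cond_lit hq hs
  obtain ⟨ha, hxa⟩ := tauB_spec hx
  have hS0 : tauS q (tauB x) := by
    rcases hsx with rfl | rfl
    · exact tauS_of hs
    · exact tauS_of hs
  obtain ⟨a, had⟩ : ∃ a, a = tauB x := ⟨_, rfl⟩
  rw [← had] at ha hxa hS0
  have hS := hS0
  have e0 := hag a (k0 a) hS (Or.inl rfl)
  have e1 := hag a (k1 a) hS (Or.inr rfl)
  have hSt : tauS t a := by
    by_cases h : k0 a ∈ tauT b
    · have := tauS_of (htt (tauC_one hS (Or.inl rfl) h))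
      rwa [tauB_k0 ha] at this
    · have := tauS_of (htt (tauC_zero hS (Or.inl rfl) h))
      rwa [tauB_k0 ha] at this
  have hxx : x ∈ tauT b' ↔ x ∈ b := tau_hxx ha e0 e1 hxa
  rcases hsx with rfl | rfl
  · exact tauC_one hSt hxa (hxx.2 ((hqb x).1 hs))
  · exact tauC_zero hSt hxa (fun h => (hqb x).2 hs (hxx.1 h))

theorem TF_surj {t : ZFSet.{0}} (ht : t ∈ Cond) : ∃ q ∈ Cond, TF q t :=
  ⟨_, tauC_cond _ ht, tau_TF (tau_self ht)⟩

private instance tauInstDbl {f : Set ZFSet.{0} → (ℕ → ZFSet.{0}) → ZFSet.{0}} [hf : UF f] :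
    UF (fun N v => H83.AC.dbl (f N v)) := UF.dbl hf

private instance tauInstK0 {f : Set ZFSet.{0} → (ℕ → ZFSet.{0}) → ZFSet.{0}} [hf : UF f] :
    UF (fun N v => H83.AC.k0 (f N v)) := by
  unfold k0
  infer_instance

private instance tauInstK1 {f : Set ZFSet.{0} → (ℕ → ZFSet.{0}) → ZFSet.{0}} [hf : UF f] :
    UF (fun N v => H83.AC.k1 (f N v)) := by
  unfold k1
  infer_instance

theorem UR.TF {f g : Set ZFSet.{0} → (ℕ → ZFSet.{0}) → ZFSet.{0}} (hf : UF f) (hg : UF g) :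
    UR (fun N v => H83.AC.TF (f N v) (g N v)) := by
  unfold H83.AC.TF
  infer_instance

instance Inst.TF {f g : Set ZFSet.{0} → (ℕ → ZFSet.{0}) → ZFSet.{0}} [hf : UF f] [hg : UF g] :
    UR (fun N v => H83.AC.TF (f N v) (g N v)) := UR.TF hf hg

end H83.AC
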