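import Pool.Agent.H83.AC.WoX
import Pool.Agent.H83.AC.LhU

/-!
# Module WoH: the well-orders of the levels

`mem_wo`: `t ∈ wo α ↔ ∃ β < α, t ∈ Wx (Lo β) (wo β)`.
By induction on `α`: `wo α` is a well-order of `Lo α` and for `β < α`, `b ∈ Lo β`:
`pair a b ∈ wo α ↔ pair a b ∈ wo β` (so the levels are initial segments). Use `Wx_restrict` and
`Wx_wo`.
`wh_eq`: like `Lh_eq` (monotone in the rank).
`UF.wh`: first `UF.Wx` (`infer_instance` with `UF.Sx`, `UF.op`, `UF.nz`; the condition `∃ i < 10` is a finite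
disjunction: use `simp` to write it as a disjunction, or `Fin`-induction), then `UF.recMem` with
`G N v x f = uni (fun y => Wx (Lh y) (app f y)) x`.
-/

namespace H83.AC

open ZFSet

private theorem mem_wo {α : Ordinal.{0}} {t : ZFSet.{0}} :
    t ∈ wo α ↔ ∃ β < α, t ∈ Wx (Lo β) (wo β) := by
  rw [wo, mem_iUnion]
  constructor
  · rintro ⟨⟨β, hβ⟩, h⟩; exact ⟨β, hβ, h⟩
  · rintro ⟨β, hβ, h⟩; exact ⟨⟨β, hβ⟩, h⟩

private theorem Lo_sub_Sx (β : Ordinal.{0}) : Lo β ⊆ Sx (Lo β) := by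
  intro z hz
  exact mem_Sx.2 (Or.inr (Or.inl hz))

private theorem Sx_mono {β γ : Ordinal.{0}} (h : β ≤ γ) : Sx (Lo β) ⊆ Sx (Lo γ) := by
  rcases h.eq_or_lt with rfl | h
  · exact fun _ h => h
  · intro z hz
    exact Lo_sub_Sx γ (Sx_sub_Lo h hz)

private def QW (α : Ordinal.{0}) : Prop :=
  IsWO (wo α) (Lo α) ∧ ∀ β < α, ∀ a b : ZFSet.{0}, b ∈ Sx (Lo β) →
    (pair a b ∈ wo α ↔ pair a b ∈ Wx (Lo β) (wo β))

private theorem mem_pair_Sx {β : Ordinal.{0}} (h : QW β) {a b : ZFSet.{0}}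
    (hab : pair a b ∈ Wx (Lo β) (wo β)) : a ∈ Sx (Lo β) ∧ b ∈ Sx (Lo β) :=
  pair_mem_prod.1 ((Wx_wo h.1).1 hab)

private theorem qw (α : Ordinal.{0}) : QW α := by
  induction α using WellFoundedLT.induction with
  | ind α ih =>
  have P2 : ∀ β < α, ∀ a b : ZFSet.{0}, b ∈ Sx (Lo β) →
      (pair a b ∈ wo α ↔ pair a b ∈ Wx (Lo β) (wo β)) := by
    intro β hβ a b hb
    constructor
    · intro h
      obtain ⟨δ, hδ, h⟩ := mem_wo.1 h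
      rcases lt_trichotomy δ β with h1 | rfl | h1
      · have h2 := (mem_pair_Sx (ih δ hδ) h).2
        have h3 : pair a b ∈ wo β := ((ih β hβ).2 δ h1 a b h2).2 h
        exact (Wx_restrict (ih β hβ).1.1 (Sx_sub_Lo h1 h2)).2 h3
      · exact h
      · have h2 : pair a b ∈ wo δ := (Wx_restrict (ih δ hδ).1.1 (Sx_sub_Lo h1 hb)).1 h
        exact ((ih δ hδ).2 β h1 a b hb).1 h2
    · intro h
      exact mem_wo.2 ⟨β, hβ, h⟩
  refine ⟨⟨?_, ?_, ?_, ?_⟩, P2⟩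
  · intro t ht
    obtain ⟨β, hβ, h⟩ := mem_wo.1 ht
    obtain ⟨a, ha, b, hb, rfl⟩ := mem_prod.1 ((Wx_wo (ih β hβ).1).1 h)
    exact pair_mem_prod.2 ⟨Sx_sub_Lo hβ ha, Sx_sub_Lo hβ hb⟩
  · intro x hx y hy
    obtain ⟨β, hβ, hx⟩ := mem_Lo.1 hx
    obtain ⟨γ, hγ, hy⟩ := mem_Lo.1 hy
    have hδ : max β γ < α := max_lt hβ hγ
    have h1 := (Wx_wo (ih _ hδ).1).2.1 x (Sx_mono (le_max_left β γ) hx) y
      (Sx_mono (le_max_right β γ) hy)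
    rcases h1 with h1 | h1 | h1
    · exact Or.inl h1
    · exact Or.inr (Or.inl (mem_wo.2 ⟨_, hδ, h1⟩))
    · exact Or.inr (Or.inr (mem_wo.2 ⟨_, hδ, h1⟩))
  · intro x y z hxy hyz
    obtain ⟨β, hβ, hyz⟩ := mem_wo.1 hyz
    have hy := (mem_pair_Sx (ih β hβ) hyz).1
    have hxy := (P2 β hβ x y hy).1 hxy
    exact mem_wo.2 ⟨β, hβ, (Wx_wo (ih β hβ).1).2.2.1 x y z hxy hyz⟩
  · intro d hd hne
    obtain ⟨z, hz⟩ : ∃ z, z ∈ d := by
      by_contra hcon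
      push Not at hcon
      exact hne ((eq_empty d).2 hcon)
    obtain ⟨β, hβ, hzβ⟩ := mem_Lo.1 (hd hz)
    have hd1 : d ∩ Sx (Lo β) ⊆ Sx (Lo β) := fun t ht => (mem_inter.1 ht).2
    have hd2 : d ∩ Sx (Lo β) ≠ ∅ := by
      intro h
      have : z ∈ d ∩ Sx (Lo β) := mem_inter.2 ⟨hz, hzβ⟩
      rw [h] at this
      exact notMem_empty z this
    obtain ⟨x, hx, hmin⟩ := (Wx_wo (ih β hβ).1).2.2.2 _ hd1 hd2
    refine ⟨x, (mem_inter.1 hx).1, fun y hy hyx => ?_⟩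
    have h1 := (P2 β hβ y x (mem_inter.1 hx).2).1 hyx
    exact hmin y (mem_inter.2 ⟨hy, (mem_pair_Sx (ih β hβ) h1).1⟩) h1

theorem wo_wo (α : Ordinal.{0}) : IsWO (wo α) (Lo α) := (qw α).1

theorem wo_init {α β : Ordinal.{0}} (h : β ≤ α) {a b : ZFSet.{0}} (hb : b ∈ Lo β) :
    pair a b ∈ wo α ↔ pair a b ∈ wo β := by
  rcases h.eq_or_lt with rfl | h
  · exact Iff.rfl
  · rw [(qw α).2 β h a b (Lo_sub_Sx β hb), Wx_restrict (wo_wo β).1 hb]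

theorem wh_eq (x : ZFSet.{0}) : wh x = uni (fun y => Wx (Lh y) (wh y)) x := by
  ext t
  rw [mem_uni, wh, mem_wo]
  constructor
  · rintro ⟨β, hβ, ht⟩
    obtain ⟨y, hy, hβy⟩ := lt_rank_iff.1 hβ
    refine ⟨y, hy, ?_⟩
    change t ∈ Wx (Lo (rank y)) (wo (rank y))
    rcases hβy.eq_or_lt with h | h
    · rw [← h]; exact ht
    · obtain ⟨a, ha, b, hb, rfl⟩ := mem_prod.1 ((Wx_wo (wo_wo β)).1 ht)
      exact (Wx_restrict (wo_wo _).1 (Sx_sub_Lo h hb)).2 (mem_wo.2 ⟨β, h, ht⟩)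
  · rintro ⟨y, hy, ht⟩
    exact ⟨rank y, rank_lt_of_mem hy, ht⟩

end H83.AC
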