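import Pool.Agent.H83.AC.LoB
import Pool.Agent.H83.AC.Om

/-!
# Module WoX: one step of the well-order

`U` transitive, `w` a well-order of `U`, `w' = Wx U w` on `Sx U`. Elements of `U` come first, ordered
by `w`, then `U` itself, then the other elements `z` of `Sx U \ U`, ordered by the least code: the
codes `(i, (x, y))`, `i < 10`, `x, y ∈ U ∪ {U}`, are well-ordered by `lexlt (wplus U w)` (`wplus U w` is
a well-order of `U ∪ {U}`); every `z ∈ Sx U`, `z ∉ U`, `z ≠ U` has a code (`mem_Sx`); different `z` have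
disjoint sets of codes. `U ∉ U`.
-/

namespace H83.AC

open ZFSet

theorem mem_Wx {U w a b : ZFSet.{0}} : pair a b ∈ Wx U w ↔ pair a b ∈ w ∨
    (a ∈ U ∧ b ∈ Sx U ∧ b ∉ U) ∨
    ((a ∈ Sx U ∧ a ∉ U) ∧ (b ∈ Sx U ∧ b ∉ U) ∧ a = U ∧ b ≠ U) ∨
    ((a ∈ Sx U ∧ a ∉ U) ∧ (b ∈ Sx U ∧ b ∉ U) ∧ a ≠ U ∧ b ≠ U ∧
      ∃ s ∈ codes U a, ∀ s' ∈ codes U b, lexlt (wplus U w) s s') := by
  unfold Wx
  simp only [mem_union, mem_sep, pair_mem_prod, fst_pair, snd_pair, ZFSet.mem_sdiff]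
  tauto

theorem Wx_restrict {U w a b : ZFSet.{0}} (hw : w ⊆ ZFSet.prod U U) (hb : b ∈ U) :
    pair a b ∈ Wx U w ↔ pair a b ∈ w := by
  rw [mem_Wx]
  tauto

theorem IsWO.left {w a x y : ZFSet.{0}} (h : IsWO w a) (hxy : pair x y ∈ w) : x ∈ a :=
  (pair_mem_prod.1 (h.1 hxy)).1

theorem IsWO.right {w a x y : ZFSet.{0}} (h : IsWO w a) (hxy : pair x y ∈ w) : y ∈ a :=
  (pair_mem_prod.1 (h.1 hxy)).2

theorem IsWO.wf {w a : ZFSet.{0}} (h : IsWO w a) :
    WellFounded (fun x y : ZFSet.{0} => pair x y ∈ w) := by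
  rw [WellFounded.wellFounded_iff_has_min]
  intro s hs
  by_cases hd : ∃ x ∈ s, x ∈ a
  · obtain ⟨x, hx, hxa⟩ := hd
    obtain ⟨y, hy, hm⟩ := h.2.2.2 (ZFSet.sep (fun z => z ∈ s) a) (fun z hz => (mem_sep.1 hz).1)
      (fun e => ZFSet.notMem_empty x (e ▸ mem_sep.2 ⟨hxa, hx⟩))
    obtain ⟨hy1, hy2⟩ := mem_sep.1 hy
    exact ⟨y, hy2, fun z hz hzy => hm z (mem_sep.2 ⟨h.left hzy, hz⟩) hzy⟩
  · obtain ⟨x, hx⟩ := hs
    exact ⟨x, hx, fun z hz hzx => hd ⟨x, hx, h.right hzx⟩⟩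

theorem IsWO.irrefl {w a x : ZFSet.{0}} (h : IsWO w a) : pair x x ∉ w := fun hx =>
  h.wf.irrefl.irrefl x hx

theorem ex_of_ne {d : ZFSet.{0}} (h : d ≠ ∅) : ∃ x, x ∈ d := by
  by_contra hn
  push Not at hn
  exact h ((ZFSet.eq_empty d).2 hn)

theorem mem_wplus {U w a b : ZFSet.{0}} : pair a b ∈ wplus U w ↔ pair a b ∈ w ∨ (a ∈ U ∧ b = U) := by
  unfold wplus
  rw [mem_union, pair_mem_prod, ZFSet.mem_singleton]

theorem wplus_wo {U w : ZFSet.{0}} (hw : IsWO w U) : IsWO (wplus U w) (insert U U) := by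
  have hUU : U ∉ U := ZFSet.mem_irrefl U
  refine ⟨?_, ?_, ?_, ?_⟩
  · intro t ht
    unfold wplus at ht
    rw [mem_union] at ht
    rcases ht with ht | ht
    · obtain ⟨x, hx, y, hy, rfl⟩ := mem_prod.1 (hw.1 ht)
      exact pair_mem_prod.2 ⟨mem_insert_of_mem _ hx, mem_insert_of_mem _ hy⟩
    · obtain ⟨x, hx, y, hy, rfl⟩ := mem_prod.1 ht
      rw [ZFSet.mem_singleton] at hy
      subst hy
      exact pair_mem_prod.2 ⟨mem_insert_of_mem _ hx, mem_insert _ _⟩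
  · intro x hx y hy
    rw [mem_insert_iff] at hx hy
    rw [mem_wplus, mem_wplus]
    rcases hx with rfl | hx <;> rcases hy with rfl | hy
    · exact Or.inl rfl
    · exact Or.inr (Or.inr (Or.inr ⟨hy, rfl⟩))
    · exact Or.inr (Or.inl (Or.inr ⟨hx, rfl⟩))
    · rcases hw.2.1 x hx y hy with h | h | h
      · exact Or.inl h
      · exact Or.inr (Or.inl (Or.inl h))
      · exact Or.inr (Or.inr (Or.inl h))
  · intro x y z hxy hyz
    rw [mem_wplus] at hxy hyz ⊢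
    rcases hxy with hxy | ⟨hx, rfl⟩
    · rcases hyz with hyz | ⟨hy, rfl⟩
      · exact Or.inl (hw.2.2.1 x y z hxy hyz)
      · exact Or.inr ⟨hw.left hxy, rfl⟩
    · rcases hyz with hyz | ⟨hy, rfl⟩
      · exact absurd (hw.left hyz) hUU
      · exact absurd hy hUU
  · intro d hd hne
    by_cases h : ∃ x ∈ d, x ∈ U
    · obtain ⟨x, hx, hxU⟩ := h
      obtain ⟨y, hy, hm⟩ := hw.2.2.2 (ZFSet.sep (fun z => z ∈ d) U) (fun z hz => (mem_sep.1 hz).1)
        (fun e => ZFSet.notMem_empty x (e ▸ mem_sep.2 ⟨hxU, hx⟩))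
      obtain ⟨hy1, hy2⟩ := mem_sep.1 hy
      refine ⟨y, hy2, fun z hz hzy => ?_⟩
      rw [mem_wplus] at hzy
      rcases hzy with hzy | ⟨-, rfl⟩
      · exact hm z (mem_sep.2 ⟨hw.left hzy, hz⟩) hzy
      · exact hUU hy1
    · obtain ⟨x, hx⟩ := ex_of_ne hne
      refine ⟨x, hx, fun z hz hzx => ?_⟩
      rw [mem_wplus] at hzx
      rcases hzx with hzx | ⟨hzU, -⟩
      · exact h ⟨x, hx, hw.right hzx⟩
      · exact h ⟨z, hz, hzU⟩

theorem lexlt_wf {W a : ZFSet.{0}} (h : IsWO W a) : WellFounded (lexlt W) := by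
  have h1 := h.wf
  have h2 : WellFounded (Prod.Lex (fun x y : ZFSet.{0} => x ∈ y)
      (Prod.Lex (fun x y : ZFSet.{0} => pair x y ∈ W) (fun x y : ZFSet.{0} => pair x y ∈ W))) :=
    WellFounded.prod_lex ZFSet.mem_wf (WellFounded.prod_lex h1 h1)
  have h3 := InvImage.wf (fun t : ZFSet.{0} => (fst t, (fst (snd t), snd (snd t)))) h2
  refine Subrelation.wf (fun {s t} hst => ?_) h3
  show Prod.Lex _ _ _ _
  rw [Prod.lex_def, Prod.lex_def]
  exact hst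

theorem lexlt_trans {W a s t u : ZFSet.{0}} (h : IsWO W a) {i j k : ℕ} (hi : fst s = nz i)
    (hj : fst t = nz j) (hk : fst u = nz k) (hst : lexlt W s t) (htu : lexlt W t u) :
    lexlt W s u := by
  unfold lexlt at hst htu ⊢
  rw [hi, hj, nz_mem_nz, nz_inj] at hst
  rw [hj, hk, nz_mem_nz, nz_inj] at htu
  rw [hi, hk, nz_mem_nz, nz_inj]
  rcases hst with hst | ⟨e1, hst⟩
  · rcases htu with htu | ⟨e2, htu⟩
    · exact Or.inl (by omega)
    · exact Or.inl (by omega)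
  · rcases htu with htu | ⟨e2, htu⟩
    · exact Or.inl (by omega)
    · refine Or.inr ⟨by omega, ?_⟩
      rcases hst with hst | ⟨e3, hst⟩
      · rcases htu with htu | ⟨e4, htu⟩
        · exact Or.inl (h.2.2.1 _ _ _ hst htu)
        · exact Or.inl (by rw [← e4]; exact hst)
      · rcases htu with htu | ⟨e4, htu⟩
        · exact Or.inl (by rw [e3]; exact htu)
        · exact Or.inr ⟨e3.trans e4, h.2.2.1 _ _ _ hst htu⟩

theorem lexlt_tri {W a : ZFSet.{0}} (h : IsWO W a) {i j : ℕ} {x y x' y' : ZFSet.{0}}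
    (hx : x ∈ a) (hy : y ∈ a) (hx' : x' ∈ a) (hy' : y' ∈ a)
    (hn : pair (nz i) (pair x y) ≠ pair (nz j) (pair x' y')) :
    lexlt W (pair (nz i) (pair x y)) (pair (nz j) (pair x' y')) ∨
    lexlt W (pair (nz j) (pair x' y')) (pair (nz i) (pair x y)) := by
  unfold lexlt
  simp only [fst_pair, snd_pair, nz_mem_nz, nz_inj]
  rcases lt_trichotomy i j with hij | rfl | hij
  · exact Or.inl (Or.inl hij)
  · rcases h.2.1 x hx x' hx' with rfl | h1 | h1
    · rcases h.2.1 y hy y' hy' with rfl | h2 | h2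
      · exact absurd rfl hn
      · exact Or.inl (Or.inr ⟨rfl, Or.inr ⟨rfl, h2⟩⟩)
      · exact Or.inr (Or.inr ⟨rfl, Or.inr ⟨rfl, h2⟩⟩)
    · exact Or.inl (Or.inr ⟨rfl, Or.inl h1⟩)
    · exact Or.inr (Or.inr ⟨rfl, Or.inl h1⟩)
  · exact Or.inr (Or.inl hij)

theorem mem_codes {U z t : ZFSet.{0}} : t ∈ codes U z ↔ ∃ i < 10, ∃ x ∈ (insert U U : ZFSet),
    ∃ y ∈ (insert U U : ZFSet), t = pair (nz i) (pair x y) ∧ op i x y = z := by
  unfold codes
  rw [mem_sep, mem_prod]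
  constructor
  · rintro ⟨⟨m, hm, p, hp, rfl⟩, i, hi, h1, h2⟩
    obtain ⟨x, hx, y, hy, rfl⟩ := mem_prod.1 hp
    simp only [fst_pair, snd_pair] at h1 h2
    subst h1
    exact ⟨i, hi, x, hx, y, hy, rfl, h2⟩
  · rintro ⟨i, hi, x, hx, y, hy, rfl, h2⟩
    refine ⟨⟨nz i, nz_mem_nz.2 hi, pair x y, pair_mem_prod.2 ⟨hx, hy⟩, rfl⟩, i, hi, ?_, ?_⟩
    · simp
    · simpa using h2

theorem codes_disj {U z z' t : ZFSet.{0}} (h : t ∈ codes U z) (h' : t ∈ codes U z') : z = z' := by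
  obtain ⟨i, -, x, -, y, -, rfl, rfl⟩ := mem_codes.1 h
  obtain ⟨j, -, x', -, y', -, e, rfl⟩ := mem_codes.1 h'
  obtain ⟨e1, e2⟩ := pair_inj.1 e
  obtain ⟨rfl, rfl⟩ := pair_inj.1 e2
  rw [nz_inj.1 e1]

theorem codes_ne {U z : ZFSet.{0}} (h : z ∈ Sx U) (h1 : z ∉ U) (h2 : z ≠ U) :
    ∃ t, t ∈ codes U z := by
  rcases mem_Sx.1 h with h | h | ⟨-, i, hi, x, hx, y, hy, rfl⟩
  · exact absurd h h2
  · exact absurd h h1
  · exact ⟨_, mem_codes.2 ⟨i, hi, x, hx, y, hy, rfl, rfl⟩⟩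

theorem Wx_wo {U w : ZFSet.{0}} (hw : IsWO w U) : IsWO (Wx U w) (Sx U) := by
  have hUU : U ∉ U := ZFSet.mem_irrefl U
  have hUS : U ∈ Sx U := mem_Sx.2 (Or.inl rfl)
  have hsub : ∀ x ∈ U, x ∈ Sx U := fun x hx => mem_Sx.2 (Or.inr (Or.inl hx))
  have hW := wplus_wo hw
  have hwf := lexlt_wf hW
  have hcl : ∀ {a b : ZFSet.{0}}, pair a b ∈ Wx U w → a ∈ Sx U ∧ b ∈ Sx U := by
    intro a b h
    rcases mem_Wx.1 h with h | ⟨h1, h2, -⟩ | ⟨h1, h2, -⟩ | ⟨h1, h2, -⟩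
    · exact ⟨hsub _ (hw.left h), hsub _ (hw.right h)⟩
    · exact ⟨hsub _ h1, h2⟩
    · exact ⟨h1.1, h2.1⟩
    · exact ⟨h1.1, h2.1⟩
  refine ⟨?_, ?_, ?_, ?_⟩
  · intro t ht
    have h0 : ∃ a b, t = pair a b := by
      unfold Wx at ht
      simp only [mem_union, mem_sep] at ht
      rcases ht with ((ht | ht) | ht) | ht
      · obtain ⟨a, -, b, -, e⟩ := mem_prod.1 (hw.1 ht)
        exact ⟨a, b, e⟩
      · obtain ⟨a, -, b, -, e⟩ := mem_prod.1 ht
        exact ⟨a, b, e⟩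
      · obtain ⟨a, -, b, -, e⟩ := mem_prod.1 ht.1
        exact ⟨a, b, e⟩
      · obtain ⟨a, -, b, -, e⟩ := mem_prod.1 ht.1
        exact ⟨a, b, e⟩
    obtain ⟨a, b, rfl⟩ := h0
    exact pair_mem_prod.2 (hcl ht)
  · intro x hx y hy
    rw [mem_Wx, mem_Wx]
    by_cases hxU : x ∈ U
    · by_cases hyU : y ∈ U
      · rcases hw.2.1 x hxU y hyU with h | h | h
        · exact Or.inl h
        · exact Or.inr (Or.inl (Or.inl h))
        · exact Or.inr (Or.inr (Or.inl h))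
      · exact Or.inr (Or.inl (Or.inr (Or.inl ⟨hxU, hy, hyU⟩)))
    · by_cases hyU : y ∈ U
      · exact Or.inr (Or.inr (Or.inr (Or.inl ⟨hyU, hx, hxU⟩)))
      · by_cases hx1 : x = U
        · by_cases hy1 : y = U
          · exact Or.inl (hx1.trans hy1.symm)
          · exact Or.inr (Or.inl (Or.inr (Or.inr (Or.inl ⟨⟨hx, hxU⟩, ⟨hy, hyU⟩, hx1, hy1⟩))))
        · by_cases hy1 : y = U
          · exact Or.inr (Or.inr (Or.inr (Or.inr (Or.inl ⟨⟨hy, hyU⟩, ⟨hx, hxU⟩, hy1, hx1⟩))))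
          · by_cases hxy : x = y
            · exact Or.inl hxy
            · -- the least code of x or y
              have hne : ({t | t ∈ codes U x ∨ t ∈ codes U y} : Set ZFSet.{0}).Nonempty := by
                obtain ⟨t, ht⟩ := codes_ne hx hxU hx1
                exact ⟨t, Or.inl ht⟩
              have key : ∀ {x y s : ZFSet.{0}}, x ≠ y → s ∈ codes U x →
                  (∀ t, t ∈ codes U x ∨ t ∈ codes U y → ¬ lexlt (wplus U w) t s) →
                  ∀ s' ∈ codes U y, lexlt (wplus U w) s s' := by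
                intro x y s hxy hs hm s' hs'
                obtain ⟨i, -, a, ha, b, hb, e, h1⟩ := mem_codes.1 hs
                obtain ⟨j, -, a', ha', b', hb', e', h1'⟩ := mem_codes.1 hs'
                have hne : s ≠ s' := fun e => hxy (codes_disj hs (e ▸ hs'))
                rw [e, e'] at hne
                rcases lexlt_tri hW ha hb ha' hb' hne with h | h
                · rw [e, e']; exact h
                · exfalso
                  refine hm s' (Or.inr hs') ?_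
                  rw [e, e']; exact h
              obtain ⟨s, hs, hm⟩ := hwf.has_min _ hne
              rcases hs with hs | hs
              · refine Or.inr (Or.inl (Or.inr (Or.inr (Or.inr ⟨⟨hx, hxU⟩, ⟨hy, hyU⟩, hx1, hy1, s, hs,
                  key hxy hs (fun t ht => hm t ht)⟩))))
              · refine Or.inr (Or.inr (Or.inr (Or.inr (Or.inr ⟨⟨hy, hyU⟩, ⟨hx, hxU⟩, hy1, hx1, s, hs,
                  key (Ne.symm hxy) hs (fun t ht => hm t ht.symm)⟩))))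
  · intro x y z hxy hyz
    have hx := (hcl hxy).1
    have hz := (hcl hyz).2
    rw [mem_Wx] at hxy hyz ⊢
    rcases hxy with hxy | ⟨h1, h2, h3⟩ | ⟨h1, h2, h3, h4⟩ | ⟨h1, h2, h3, h4, s, hs, hs'⟩
    · rcases hyz with hyz | ⟨g1, g2, g3⟩ | ⟨g1, g2, g3⟩ | ⟨g1, g2, g3⟩
      · exact Or.inl (hw.2.2.1 x y z hxy hyz)
      · exact Or.inr (Or.inl ⟨hw.left hxy, g2, g3⟩)
      · exact absurd (hw.right hxy) g1.2
      · exact absurd (hw.right hxy) g1.2
    · rcases hyz with hyz | ⟨g1, g2, g3⟩ | ⟨g1, g2, g3⟩ | ⟨g1, g2, g3⟩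
      · exact absurd (hw.left hyz) h3
      · exact absurd g1 h3
      · exact Or.inr (Or.inl ⟨h1, g2⟩)
      · exact Or.inr (Or.inl ⟨h1, g2⟩)
    · rcases hyz with hyz | ⟨g1, g2, g3⟩ | ⟨g1, g2, g3, g4⟩ | ⟨g1, g2, g3, g4, g5⟩
      · exact absurd (hw.left hyz) h2.2
      · exact absurd g1 h2.2
      · exact absurd g3 h4
      · exact Or.inr (Or.inr (Or.inl ⟨h1, g2, h3, g4⟩))
    · rcases hyz with hyz | ⟨g1, g2, g3⟩ | ⟨g1, g2, g3, g4⟩ | ⟨g1, g2, g3, g4, t, ht, ht'⟩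
      · exact absurd (hw.left hyz) h2.2
      · exact absurd g1 h2.2
      · exact absurd g3 h4
      · refine Or.inr (Or.inr (Or.inr ⟨h1, g2, h3, g4, s, hs, fun r hr => ?_⟩))
        obtain ⟨i, -, a, ha, b, hb, e, -⟩ := mem_codes.1 hs
        obtain ⟨j, -, a', ha', b', hb', e', -⟩ := mem_codes.1 ht
        obtain ⟨k, -, a'', ha'', b'', hb'', e'', -⟩ := mem_codes.1 hr
        exact lexlt_trans hW (i := i) (j := j) (k := k) (by rw [e, fst_pair])
          (by rw [e', fst_pair]) (by rw [e'', fst_pair]) (hs' t ht) (ht' r hr)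
  · intro d hd hne
    by_cases h : ∃ x ∈ d, x ∈ U
    · obtain ⟨x, hx, hxU⟩ := h
      obtain ⟨y, hy, hm⟩ := hw.2.2.2 (ZFSet.sep (fun z => z ∈ d) U) (fun z hz => (mem_sep.1 hz).1)
        (fun e => ZFSet.notMem_empty x (e ▸ mem_sep.2 ⟨hxU, hx⟩))
      obtain ⟨hy1, hy2⟩ := mem_sep.1 hy
      refine ⟨y, hy2, fun z hz hzy => ?_⟩
      rw [Wx_restrict hw.1 hy1] at hzy
      exact hm z (mem_sep.2 ⟨hw.left hzy, hz⟩) hzy
    · by_cases hU : U ∈ d
      · refine ⟨U, hU, fun z hz hzy => ?_⟩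
        have hzU : z ∉ U := fun h' => h ⟨z, hz, h'⟩
        rw [mem_Wx] at hzy
        rcases hzy with hzy | ⟨g1, g2, g3⟩ | ⟨g1, g2, g3, g4⟩ | ⟨g1, g2, g3, g4, g5⟩
        · exact hUU (hw.right hzy)
        · exact hzU g1
        · exact g4 rfl
        · exact g4 rfl
      · have hT : ({t | ∃ z ∈ d, t ∈ codes U z} : Set ZFSet.{0}).Nonempty := by
          obtain ⟨x, hx⟩ := ex_of_ne hne
          obtain ⟨t, ht⟩ := codes_ne (hd hx) (fun h' => h ⟨x, hx, h'⟩) (fun e => hU (e ▸ hx))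
          exact ⟨t, x, hx, ht⟩
        obtain ⟨s, ⟨x, hx, hs⟩, hm⟩ := hwf.has_min _ hT
        refine ⟨x, hx, fun z hz hzy => ?_⟩
        have hzU : z ∉ U := fun h' => h ⟨z, hz, h'⟩
        have hxU : x ∉ U := fun h' => h ⟨x, hx, h'⟩
        rw [mem_Wx] at hzy
        rcases hzy with hzy | ⟨g1, g2, g3⟩ | ⟨g1, g2, g3, g4⟩ | ⟨g1, g2, g3, g4, t, ht, ht'⟩
        · exact hzU (hw.left hzy)
        · exact hzU g1
        · exact hU (g3 ▸ hz)
        · exact hm t ⟨z, hz, ht⟩ (ht' s hs)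

end H83.AC
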