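import Pool.Agent.H83.AC.NthU
import Pool.Agent.H83.AC.HlU

/-!
# Module YrF: the values of the certificate

`yr_fn`: the values `one = nz 1`, `∅ = nz 0`, `ci _` are in `omega`. `app yr (ci u) = yv u` for `u ∈ HF`
(`app_fgr`, `ci_omega`, `cdg_ci`). `one ≠ ∅`. `yr_bT`: `tv .. (fc χ) t L` for `χ ∈ L` is equivalent to
`SatIn (cls A) χ ..` (induction on the list, `fc_inj`).
-/

namespace H83.AC

open ZFSet

variable {φ : Fml} {A w e k s : ZFSet.{0}}

private theorem YrF_one_omega : one ∈ omega := by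
  have h := nz_mem_omega 1
  have h1 : nz 1 = one := by
    ext z
    simp [nz, one]
  rwa [h1] at h

private theorem YrF_empty_omega : (∅ : ZFSet.{0}) ∈ omega := nz_mem_omega 0

private theorem YrF_one_ne : one ≠ (∅ : ZFSet.{0}) := by
  intro h
  have h1 : (∅ : ZFSet.{0}) ∈ one := by simp [one]
  rw [h] at h1
  exact ZFSet.notMem_empty _ h1

private theorem YrF_ite (p : Prop) [Decidable p] : (if p then one else (∅ : ZFSet.{0})) ≠ ∅ ↔ p := by
  by_cases h : p
  · simp [h, YrF_one_ne]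
  · simp [h]

theorem yr_fn : IsFunc omega omega (yr φ A w e k s) := by
  apply fn_fgr
  intro n _
  simp only [yv]
  split_ifs <;> first | exact YrF_one_omega | exact YrF_empty_omega | exact ci_omega _

private theorem YrF_app {u : ZFSet.{0}} (h : u ∈ HF) :
    app (yr φ A w e k s) (ci u) = yv φ A w e k s u := by
  rw [yr, app_fgr (ci_omega u), cdg_ci h]

private theorem YrF_pair {i j : ZFSet.{0}} (hi : i ∈ HF) (hj : j ∈ HF) : pair i j ∈ HF := by
  have h := tx_HF hi hj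
  have h2 : snd (tx i j) = pair i j := by simp [tx, tg]
  rw [← h2]
  exact snd_HF h

theorem yr_bE {i j : ZFSet.{0}} (hi : i ∈ HF) (hj : j ∈ HF) :
    bE (yr φ A w e k s) i j ↔ hull φ A w e i ∈ hull φ A w e j := by
  rw [bE, YrF_app (tg_HF (YrF_pair hi hj)), yv, if_pos (by simp [tg]), YrF_ite]
  simp [tg]

theorem yr_bQ {i j : ZFSet.{0}} (hi : i ∈ HF) (hj : j ∈ HF) :
    bQ (yr φ A w e k s) i j ↔ hull φ A w e i = hull φ A w e j := by
  rw [bQ, YrF_app (tg_HF (YrF_pair hi hj)), yv, if_neg (by simp [tg, nz_inj]),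
    if_pos (by simp [tg]), YrF_ite]
  simp [tg]

private theorem YrF_tv {χ : Fml} {t : ZFSet.{0}} (L : List Fml) :
    tv φ A w e (fc χ) t L ↔ χ ∈ L ∧ SatIn (cls A) χ (fun i => hull φ A w e (nth i t)) := by
  induction L with
  | nil => simp [tv]
  | cons ψ L ih =>
    rw [tv, ih, List.mem_cons]
    constructor
    · rintro (⟨h1, h2⟩ | ⟨h1, h2⟩)
      · rw [fc_inj] at h1
        subst h1
        exact ⟨Or.inl rfl, h2⟩
      · exact ⟨Or.inr h1, h2⟩
    · rintro ⟨h1 | h1, h2⟩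
      · subst h1
        exact Or.inl ⟨rfl, h2⟩
      · exact Or.inr ⟨h1, h2⟩

theorem yr_bT {χ : Fml} (h : χ ∈ asub φ) {t : ZFSet.{0}} (ht : t ∈ HF) :
    bT (yr φ A w e k s) χ t ↔ SatIn (cls A) χ (fun i => hull φ A w e (nth i t)) := by
  rw [bT, YrF_app (tg_HF (YrF_pair (fc_HF χ) ht)), yv, if_neg (by simp [tg, nz_inj]),
    if_neg (by simp [tg, nz_inj]), if_pos (by simp [tg]), YrF_ite]
  simp only [tg, fst_pair, snd_pair]
  rw [YrF_tv]
  exact ⟨fun h1 => h1.2, fun h1 => ⟨h, h1⟩⟩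

theorem yr_bW {h : ZFSet.{0}} (hh : h ∈ HF) :
    bW (yr φ A w e k s) h =
      lst (wh omega) (ZFSet.sep (fun p => Fits p (cls s) ∧ pair p h ∈ e) (CondC k)) := by
  have hw : IsWO (wh omega) HF := by
    rw [wh, rank_omega]
    exact wo_wo _
  have hv : ∀ S : ZFSet.{0}, S ⊆ HF → lst (wh omega) S ∈ HF := by
    intro S hS
    by_cases hne : S = ∅
    · rw [hne, lst_empty]
      have h0 := fst_HF (fst_HF (tg_HF (n := 0) hh))
      have h1 : fst (tg 0 h) = ∅ := by simp [tg, nz]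
      rw [← h1]
      exact fst_HF (tg_HF hh)
    · exact hS (lst_mem hw hS hne)
  have hS : ZFSet.sep (fun p => Fits p (cls s) ∧ pair p h ∈ e) (CondC k) ⊆ HF := by
    intro p hp
    rw [ZFSet.mem_sep, CondC, ZFSet.mem_sep, Cond, ZFSet.mem_sep] at hp
    exact hp.1.1.1
  rw [bW, YrF_app (tg_HF hh), yv, if_neg (by simp [tg, nz_inj]),
    if_neg (by simp [tg, nz_inj]), if_neg (by simp [tg, nz_inj]), if_pos (by simp [tg])]
  simp only [tg, snd_pair]
  exact cdg_ci (hv _ hS)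

end H83.AC
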